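import Pool.Agent.LHam.SysDefs

set_option autoImplicit false

/-! A10. Greedy choice of disjoint edges. -/

namespace Pool.Agent.LHam

open Finset

variable {n : ℕ}

private theorem x_mem (o : OE n) : o.x ∈ o.set := mem_insert_self _ _

private theorem set_card {r : ℕ} (hr : 3 ≤ r) {o : OE n} (h : o.Ok r) : o.set.card = r := by
  obtain ⟨h1, h2, h3, h4⟩ := h
  have h5 : o.x ∉ insert o.y o.J := by
    rw [mem_insert, not_or]
    exact ⟨h2, h3⟩
  rw [OE.set, card_insert_of_notMem h5, card_insert_of_notMem h4, h1]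
  omega

private theorem set_mem {r : ℕ} (hr : 3 ≤ r) {o : OE n} (h : o.Ok r) : o.set ∈ Er r n := by
  rw [Er, mem_powersetCard]
  exact ⟨subset_univ _, set_card hr h⟩

private theorem J_eq {r : ℕ} {o : OE n} (h : o.Ok r) : o.J = (o.set.erase o.x).erase o.y := by
  obtain ⟨h1, h2, h3, h4⟩ := h
  have h5 : o.x ∉ insert o.y o.J := by
    rw [mem_insert, not_or]
    exact ⟨h2, h3⟩
  rw [OE.set, erase_insert h5, erase_insert h4]

private theorem fibre_card {r : ℕ} (hr : 3 ≤ r) (T : Finset (OE n)) (hT : ∀ o ∈ T, o.Ok r)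
    (Z : Finset (Fin n)) (hZ : ∀ o ∈ T, o.set = Z) : T.card ≤ r ^ 2 := by
  classical
  rcases T.eq_empty_or_nonempty with h0 | ⟨o₀, ho₀⟩
  · rw [h0, card_empty]
    exact Nat.zero_le _
  have hc : Z.card = r := by
    rw [← hZ o₀ ho₀]
    exact set_card hr (hT o₀ ho₀)
  have h1 : T.card ≤ (Z ×ˢ Z).card := by
    refine card_le_card_of_injOn (fun o => (o.x, o.y)) ?_ ?_
    · intro o ho
      have ho' : o ∈ T := ho
      refine mem_coe.2 (mem_product.2 ⟨?_, ?_⟩)
      · rw [← hZ o ho']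
        exact x_mem o
      · rw [← hZ o ho']
        exact mem_insert_of_mem (mem_insert_self _ _)
    · intro o ho o' ho' h
      have h2 : o ∈ T := ho
      have h3 : o' ∈ T := ho'
      have hx : o.x = o'.x := congrArg Prod.fst h
      have hy : o.y = o'.y := congrArg Prod.snd h
      refine OE.ext hx ?_ hy
      rw [J_eq (hT o h2), J_eq (hT o' h3), hZ o h2, hZ o' h3, hx, hy]
  rw [card_product, hc] at h1
  calc T.card ≤ r * r := h1
    _ = r ^ 2 := (sq r).symm

private theorem vertex_sum {r : ℕ} (hr : 3 ≤ r) (ν : Finset (Fin n) → ℝ) (hν : ∀ Z, 0 ≤ ν Z)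
    (S : Finset (OE n)) (hok : ∀ o ∈ S, o.Ok r) (v : Fin n) :
    ∑ o ∈ S.filter (fun o => v ∈ o.set), ν o.set ≤ (r : ℝ) ^ 2 * deg r ν v := by
  classical
  have h1 : ∀ o ∈ S.filter (fun o => v ∈ o.set),
      o.set ∈ (Er r n).filter (fun Z => v ∈ Z) := by
    intro o ho
    rw [mem_filter] at ho ⊢
    exact ⟨set_mem hr (hok o ho.1), ho.2⟩
  rw [← sum_fiberwise_of_maps_to h1, deg, mul_sum]
  refine sum_le_sum fun Z _ => ?_
  have h2 : ∑ o ∈ (S.filter (fun o => v ∈ o.set)).filter (fun o => o.set = Z), ν o.set =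
      ((S.filter (fun o => v ∈ o.set)).filter (fun o => o.set = Z)).card * ν Z := by
    rw [sum_congr rfl (g := fun _ => ν Z), sum_const, nsmul_eq_mul]
    intro o ho
    rw [(mem_filter.1 ho).2]
  rw [h2]
  refine mul_le_mul_of_nonneg_right ?_ (hν Z)
  exact_mod_cast fibre_card hr _
    (fun o ho => hok o (mem_filter.1 (mem_filter.1 ho).1).1) Z (fun o ho => (mem_filter.1 ho).2)

/-- **Greedy choice.** Proof. Take `S₂ ⊆ S` with pairwise disjoint `o.set` of the largest possible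
cardinality (among the finitely many subsets of `S`). Every `o ∈ S` meets some `o' ∈ S₂` (or is in
`S₂`), so `∑ o ∈ S, ν o.set ≤ ∑ o' ∈ S₂, ∑ v ∈ o'.set, ∑ (o ∈ S, v ∈ o.set) ν o.set` and the inner
sum is `≤ r (r - 1) deg v ≤ r ^ 2 K D` (each `Z ∋ v` is `o.set` for at most `r (r - 1)` proper
oriented edges: `o` is determined by `Z` and `(x, y)`). `o'.set.card = r`. -/
theorem greedy (r : ℕ) (hr : 3 ≤ r) (K D : ℝ) (ν : Finset (Fin n) → ℝ)
    (hν : ∀ Z, 0 ≤ ν Z) (hdeg : ∀ v, deg r ν v ≤ K * D) (S : Finset (OE n))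
    (hok : ∀ o ∈ S, o.Ok r) :
    ∃ S₂ ⊆ S, (∀ o ∈ S₂, ∀ o' ∈ S₂, o ≠ o' → Disjoint o.set o'.set) ∧
      ∑ o ∈ S, ν o.set ≤ S₂.card * (r ^ 3 * K * D) := by
  classical
  obtain ⟨S₂, hS₂, hmax⟩ := exists_max_image
    (S.powerset.filter fun T => ∀ o ∈ T, ∀ o' ∈ T, o ≠ o' → Disjoint o.set o'.set)
    (fun T => T.card) ⟨∅, by simp⟩
  rw [mem_filter, mem_powerset] at hS₂
  obtain ⟨hsub, hdis⟩ := hS₂
  refine ⟨S₂, hsub, hdis, ?_⟩
  have hmeet : ∀ o ∈ S, ∃ o' ∈ S₂, ∃ v ∈ o'.set, v ∈ o.set := by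
    intro o ho
    by_cases h : o ∈ S₂
    · exact ⟨o, h, o.x, x_mem o, x_mem o⟩
    · by_contra hc
      have hd : ∀ o' ∈ S₂, Disjoint o.set o'.set := by
        intro o' ho'
        rw [disjoint_left]
        intro v hv hv'
        exact hc ⟨o', ho', v, hv', hv⟩
      have h1 : insert o S₂ ∈ S.powerset.filter
          fun T => ∀ o ∈ T, ∀ o' ∈ T, o ≠ o' → Disjoint o.set o'.set := by
        rw [mem_filter, mem_powerset]
        refine ⟨insert_subset ho hsub, ?_⟩
        intro a ha b hb hab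
        rcases mem_insert.1 ha with ha' | ha'
        · rcases mem_insert.1 hb with hb' | hb'
          · exact absurd (ha'.trans hb'.symm) hab
          · rw [ha']
            exact hd b hb'
        · rcases mem_insert.1 hb with hb' | hb'
          · rw [hb']
            exact (hd a ha').symm
          · exact hdis a ha' b hb' hab
      have h2 := hmax _ h1
      rw [card_insert_of_notMem h] at h2
      omega
  have hfirst : ∑ o ∈ S, ν o.set ≤
      ∑ o' ∈ S₂, ∑ v ∈ o'.set, ∑ o ∈ S.filter (fun o => v ∈ o.set), ν o.set := by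
    have h1 : ∑ o' ∈ S₂, ∑ v ∈ o'.set, ∑ o ∈ S.filter (fun o => v ∈ o.set), ν o.set =
        ∑ o ∈ S, ∑ o' ∈ S₂, ∑ v ∈ o'.set, if v ∈ o.set then ν o.set else 0 := by
      rw [sum_comm]
      refine sum_congr rfl fun o' _ => ?_
      rw [sum_comm]
      refine sum_congr rfl fun v _ => ?_
      rw [sum_filter]
    rw [h1]
    refine sum_le_sum fun o ho => ?_
    obtain ⟨o', ho', v, hv, hvo⟩ := hmeet o ho
    have hnn : ∀ (w : Fin n), 0 ≤ if w ∈ o.set then ν o.set else 0 := by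
      intro w
      split_ifs
      · exact hν _
      · exact le_rfl
    calc ν o.set = if v ∈ o.set then ν o.set else 0 := (if_pos hvo).symm
      _ ≤ ∑ w ∈ o'.set, if w ∈ o.set then ν o.set else 0 :=
        single_le_sum (f := fun w => if w ∈ o.set then ν o.set else 0) (fun w _ => hnn w) hv
      _ ≤ ∑ o' ∈ S₂, ∑ v ∈ o'.set, if v ∈ o.set then ν o.set else 0 :=
        single_le_sum (f := fun o' : OE n => ∑ v ∈ o'.set, if v ∈ o.set then ν o.set else 0)
          (fun o' _ => sum_nonneg fun w _ => hnn w) ho'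
  refine hfirst.trans ?_
  have h2 : ∀ o' ∈ S₂, ∑ v ∈ o'.set, ∑ o ∈ S.filter (fun o => v ∈ o.set), ν o.set ≤
      r ^ 3 * K * D := by
    intro o' ho'
    calc ∑ v ∈ o'.set, ∑ o ∈ S.filter (fun o => v ∈ o.set), ν o.set
        ≤ ∑ _v ∈ o'.set, (r : ℝ) ^ 2 * (K * D) := by
          refine sum_le_sum fun v _ => (vertex_sum hr ν hν S hok v).trans ?_
          exact mul_le_mul_of_nonneg_left (hdeg v) (by positivity)
      _ = r ^ 3 * K * D := by
          rw [sum_const, set_card hr (hok o' (hsub ho')), nsmul_eq_mul]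
          ring
  calc ∑ o' ∈ S₂, ∑ v ∈ o'.set, ∑ o ∈ S.filter (fun o => v ∈ o.set), ν o.set
      ≤ ∑ _o' ∈ S₂, (r : ℝ) ^ 3 * K * D := sum_le_sum h2
    _ = S₂.card * (r ^ 3 * K * D) := by rw [sum_const, nsmul_eq_mul]

end Pool.Agent.LHam
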