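import Pool.Agent.LHam.SysDefs

set_option autoImplicit false

/-! A6. The exceptional edges are few; the total weight of the admissible edges. -/

namespace Pool.Agent.LHam

open Finset

variable {n : ℕ}

private theorem a6_card_set {r : ℕ} (hr : 3 ≤ r) {o : OE n} (h : o.Ok r) : o.set.card = r := by
  obtain ⟨h1, h2, h3, h4⟩ := h
  have h5 : o.x ∉ insert o.y o.J := by
    rw [mem_insert]
    rintro (h | h)
    · exact h2 h
    · exact h3 h
  unfold OE.set
  rw [card_insert_of_notMem h5, card_insert_of_notMem h4, h1]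
  omega

private theorem a6_set_mem {r : ℕ} (hr : 3 ≤ r) {o : OE n} (h : o.Ok r) : o.set ∈ Er r n :=
  mem_powersetCard.2 ⟨subset_univ _, a6_card_set hr h⟩

private theorem a6_J_eq {r : ℕ} {o : OE n} (h : o.Ok r) : o.J = (o.set.erase o.x).erase o.y := by
  obtain ⟨-, h2, h3, h4⟩ := h
  have h5 : o.x ∉ insert o.y o.J := by
    rw [mem_insert]
    rintro (h | h)
    · exact h2 h
    · exact h3 h
  unfold OE.set
  rw [erase_insert h5, erase_insert h4]

private theorem a6_flip_set (o : OE n) : o.flip.set = o.set := by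
  unfold OE.set OE.flip
  exact Finset.insert_comm _ _ _

private theorem a6_flip_flip (o : OE n) : o.flip.flip = o := rfl

private theorem a6_flip_ok {r : ℕ} {o : OE n} (h : o.Ok r) : o.flip.Ok r :=
  ⟨h.1, h.2.1.symm, h.2.2.2, h.2.2.1⟩

open Classical in
/-- the sum over the inner vertices -/
private theorem a6_sum_inn (r : ℕ) (F : Finset (OE n)) (a : OE n → ℝ) (Q : OE n → Prop) :
    ∑ v ∈ inn F, ∑ o' ∈ univ.filter (fun o' : OE n => Adm r (inn F) o' ∧ v ∈ o'.J ∧ Q o'), a o' =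
      ((r - 2 : ℕ) : ℝ) * ∑ o' ∈ univ.filter (fun o' : OE n => Adm r (inn F) o' ∧ Q o'), a o' := by
  simp only [Finset.sum_filter]
  rw [Finset.sum_comm, Finset.mul_sum]
  refine Finset.sum_congr rfl fun o' _ => ?_
  by_cases h : Adm r (inn F) o' ∧ Q o'
  · rw [if_pos h]
    have h1 : ∀ v ∈ inn F, (if Adm r (inn F) o' ∧ v ∈ o'.J ∧ Q o' then a o' else 0) =
        if v ∈ o'.J then a o' else 0 := by
      intro v _
      by_cases hv : v ∈ o'.J
      · rw [if_pos ⟨h.1, hv, h.2⟩, if_pos hv]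
      · rw [if_neg fun h2 => hv h2.2.1, if_neg hv]
    rw [Finset.sum_congr rfl h1, ← Finset.sum_filter, Finset.sum_const, nsmul_eq_mul]
    have h2 : (inn F).filter (fun v => v ∈ o'.J) = o'.J := by
      ext v
      rw [mem_filter]
      exact ⟨fun h3 => h3.2, fun h3 => ⟨h.1.2.1 h3, h3⟩⟩
    rw [h2, h.1.1.1]
  · rw [if_neg h, mul_zero]
    exact Finset.sum_eq_zero fun v _ => if_neg fun h1 => h ⟨h1.1, h1.2.2⟩

open Classical in
/-- the weight of the oriented edges with given `x` -/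
private theorem a6_x_le {r : ℕ} (hr : 3 ≤ r) {ν : Finset (Fin n) → ℝ} (hν : ∀ Z, 0 ≤ ν Z)
    (w : Fin n) : ∑ o' ∈ univ.filter (fun o' : OE n => o'.Ok r ∧ o'.x = w), ν o'.set ≤
      r * deg r ν w := by
  set A := univ.filter (fun o' : OE n => o'.Ok r ∧ o'.x = w) with hA
  set B : Finset ((_ : Finset (Fin n)) × Fin n) :=
    ((Er r n).filter (fun Z => w ∈ Z)).sigma fun Z => Z with hB
  have hinj : Set.InjOn (fun o' : OE n => (⟨o'.set, o'.y⟩ : (_ : Finset (Fin n)) × Fin n)) A := by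
    intro o ho o' ho' h
    rw [mem_coe, hA, mem_filter] at ho ho'
    have h1 : o.set = o'.set := congrArg Sigma.fst h
    have h2 : o.y = o'.y := by simpa using (Sigma.mk.inj h).2
    have h3 : o.x = o'.x := ho.2.2.trans ho'.2.2.symm
    have h4 : o.J = o'.J := by
      rw [a6_J_eq ho.2.1, a6_J_eq ho'.2.1, h1, h2, h3]
    exact OE.ext h3 h4 h2
  have hsub : A.image (fun o' : OE n => (⟨o'.set, o'.y⟩ : (_ : Finset (Fin n)) × Fin n)) ⊆ B := by
    intro p hp
    obtain ⟨o, ho, rfl⟩ := mem_image.1 hp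
    rw [hA, mem_filter] at ho
    rw [hB, mem_sigma, mem_filter]
    refine ⟨⟨a6_set_mem hr ho.2.1, ?_⟩, ?_⟩
    · change w ∈ o.set
      rw [← ho.2.2]
      exact mem_insert_self _ _
    · change o.y ∈ o.set
      exact mem_insert_of_mem (mem_insert_self _ _)
  calc ∑ o' ∈ A, ν o'.set
      = ∑ p ∈ A.image (fun o' : OE n => (⟨o'.set, o'.y⟩ : (_ : Finset (Fin n)) × Fin n)),
          ν p.1 := (Finset.sum_image (f := fun p : (_ : Finset (Fin n)) × Fin n => ν p.1)
            hinj).symm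
    _ ≤ ∑ p ∈ B, ν p.1 := Finset.sum_le_sum_of_subset_of_nonneg hsub fun p _ _ => hν _
    _ = ∑ Z ∈ (Er r n).filter (fun Z => w ∈ Z), r * ν Z := by
        rw [hB, Finset.sum_sigma]
        refine Finset.sum_congr rfl fun Z hZ => ?_
        change ∑ _s ∈ Z, ν Z = _
        rw [Finset.sum_const, nsmul_eq_mul, (mem_powersetCard.1 (mem_filter.1 hZ).1).2]
    _ = r * deg r ν w := by
        rw [← Finset.mul_sum, deg]

open Classical in
private theorem a6_y_le {r : ℕ} (hr : 3 ≤ r) {ν : Finset (Fin n) → ℝ} (hν : ∀ Z, 0 ≤ ν Z)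
    (w : Fin n) : ∑ o' ∈ univ.filter (fun o' : OE n => o'.Ok r ∧ o'.y = w), ν o'.set ≤
      r * deg r ν w := by
  refine le_trans (le_of_eq ?_) (a6_x_le hr hν w)
  refine Finset.sum_nbij' OE.flip OE.flip ?_ ?_ ?_ ?_ ?_
  · intro o ho
    rw [mem_filter] at ho ⊢
    exact ⟨mem_univ _, a6_flip_ok ho.2.1, ho.2.2⟩
  · intro o ho
    rw [mem_filter] at ho ⊢
    exact ⟨mem_univ _, a6_flip_ok ho.2.1, ho.2.2⟩
  · exact fun o _ => a6_flip_flip o
  · exact fun o _ => a6_flip_flip o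
  · intro o _
    rw [a6_flip_set]

open Classical in
/-- the weight of the oriented edges whose set has a given property -/
private theorem a6_set_le {r : ℕ} (hr : 3 ≤ r) {ν : Finset (Fin n) → ℝ} (hν : ∀ Z, 0 ≤ ν Z)
    (u v : Fin n) :
    ∑ o' ∈ univ.filter (fun o' : OE n => o'.Ok r ∧ u ∈ o'.set ∧ v ∈ o'.set), ν o'.set ≤
      r ^ 2 * codeg r ν u v := by
  set A := univ.filter (fun o' : OE n => o'.Ok r ∧ u ∈ o'.set ∧ v ∈ o'.set) with hA
  set B : Finset ((_ : Finset (Fin n)) × (Fin n × Fin n)) :=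
    ((Er r n).filter (fun Z => u ∈ Z ∧ v ∈ Z)).sigma fun Z => Z ×ˢ Z with hB
  let φ : OE n → (_ : Finset (Fin n)) × (Fin n × Fin n) := fun o' => ⟨o'.set, (o'.x, o'.y)⟩
  have hinj : Set.InjOn φ A := by
    intro o ho o' ho' h
    rw [mem_coe, hA, mem_filter] at ho ho'
    have h1 : o.set = o'.set := congrArg Sigma.fst h
    have h2 : (o.x, o.y) = (o'.x, o'.y) := by simpa [φ] using (Sigma.mk.inj h).2
    have h3 : o.x = o'.x := congrArg Prod.fst h2
    have h5 : o.y = o'.y := congrArg Prod.snd h2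
    have h4 : o.J = o'.J := by
      rw [a6_J_eq ho.2.1, a6_J_eq ho'.2.1, h1, h5, h3]
    exact OE.ext h3 h4 h5
  have hsub : A.image φ ⊆ B := by
    intro p hp
    obtain ⟨o, ho, rfl⟩ := mem_image.1 hp
    rw [hA, mem_filter] at ho
    rw [hB, mem_sigma, mem_filter, mem_product]
    refine ⟨⟨a6_set_mem hr ho.2.1, ho.2.2⟩, ?_, ?_⟩
    · change o.x ∈ o.set
      exact mem_insert_self _ _
    · change o.y ∈ o.set
      exact mem_insert_of_mem (mem_insert_self _ _)
  calc ∑ o' ∈ A, ν o'.set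
      = ∑ p ∈ A.image φ, ν p.1 := (Finset.sum_image
          (f := fun p : (_ : Finset (Fin n)) × (Fin n × Fin n) => ν p.1) hinj).symm
    _ ≤ ∑ p ∈ B, ν p.1 := Finset.sum_le_sum_of_subset_of_nonneg hsub fun p _ _ => hν _
    _ = ∑ Z ∈ (Er r n).filter (fun Z => u ∈ Z ∧ v ∈ Z), (r : ℝ) ^ 2 * ν Z := by
        rw [hB, Finset.sum_sigma]
        refine Finset.sum_congr rfl fun Z hZ => ?_
        change ∑ _s ∈ Z ×ˢ Z, ν Z = _
        rw [Finset.sum_const, nsmul_eq_mul, card_product,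
          (mem_powersetCard.1 (mem_filter.1 hZ).1).2]
        push_cast
        ring
    _ = r ^ 2 * codeg r ν u v := by
        rw [← Finset.mul_sum, codeg]

private theorem a6_card_inn {r : ℕ} {F : Finset (OE n)} (hF : IsSys r F) :
    (inn F).card = (r - 2) * F.card := by
  unfold inn
  rw [card_biUnion fun o ho o' ho' hne => hF.dis o ho o' ho' hne,
    Finset.sum_congr rfl fun o ho => (hF.ok o ho).1, Finset.sum_const, smul_eq_mul, mul_comm]

/-- the vertices that are neither inner vertices nor images of an injective map -/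
private theorem a6_card_out {r : ℕ} (hr : 3 ≤ r) {F : Finset (OE n)} (hF : IsSys r F)
    (f : OE n → Fin n) (hf : ∀ o ∈ F, ∀ o' ∈ F, f o = f o' → o = o')
    (hout : ∀ o ∈ F, ∀ o' ∈ F, f o ∉ o'.J) (h2 : n ≤ (r - 1) * F.card + 4 * r ^ 2) :
    (univ \ (inn F ∪ F.image f)).card ≤ 4 * r ^ 2 := by
  have h3 : Disjoint (inn F) (F.image f) := by
    rw [Finset.disjoint_left]
    intro v hv hv'
    obtain ⟨o, ho, rfl⟩ := mem_image.1 hv'
    obtain ⟨o', ho', h⟩ := mem_biUnion.1 hv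
    exact hout o ho o' ho' h
  have h4 : (F.image f).card = F.card := card_image_of_injOn fun o ho o' ho' h => hf o ho o' ho' h
  rw [Finset.card_univ_sdiff, Fintype.card_fin, card_union_of_disjoint h3, a6_card_inn hF, h4]
  have h5 : (r - 2) * F.card + F.card = (r - 1) * F.card := by
    obtain ⟨k, rfl⟩ : ∃ k, r = k + 3 := ⟨r - 3, by omega⟩
    rw [show k + 3 - 2 = k + 1 by omega, show k + 3 - 1 = k + 2 by omega]
    ring
  omega

/-- **Exceptional weight.** Proof. `∑ v ∈ inn F, xv v = (r - 2) * ∑ (o' admissible, exceptional) a o'`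
(every admissible `o'` has its `r - 2` inner vertices in `inn F`), `a o' ≤ ν o'.set`. (1) `o'` with
`o'.x ≠ o.x` for all `o ∈ F`: `o'.x` is one of the at most `n - (r - 2) m₁ - m₁ ≤ 4 r ^ 2` vertices outside
`inn F` and outside the set of the `x(o)`, `o ∈ F` (there are `m₁` of them, outside `inn F`); for a
vertex `w`, `∑ (o' Ok, o'.x = w) ν o'.set = (r - 1) deg w ≤ r K D` (for `Z ∋ w`, `|Z| = r`, there are
`r - 1` choices of `y`). (2) the same for `y`. (3) `o'` with `2 ≤ (o.set ∩ o'.set).card` for some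
`o ∈ F`: at most `∑ o ∈ F, ∑ (u ≠ v in o.set) r ^ 2 codeg u v ≤ m₁ r ^ 2 r ^ 2 η D`. With `(r - 2) m₁ ≤ n` the total is
`≤ (r - 2) (8 r ^ 2 * r K D) + n r ^ 4 η D ≤ 8 r ^ 4 K D + r ^ 4 n η D`. -/
theorem exc_bound (r : ℕ) (hr : 3 ≤ r) (K η D : ℝ) (hK : 0 ≤ K) (hη : 0 ≤ η) (hD : 0 ≤ D)
    (ν : Finset (Fin n) → ℝ) (hν : ∀ Z, 0 ≤ ν Z) (hdeg : ∀ v, deg r ν v ≤ K * D)
    (hco : ∀ u v, u ≠ v → codeg r ν u v ≤ η * D) (a : OE n → ℝ) (ha : ∀ o, 0 ≤ a o)
    (haν : ∀ o, a o ≤ ν o.set) (m₁ : ℕ) (F : Finset (OE n)) (hF : IsSys r F)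
    (hm : F.card = m₁) (h1 : (r - 1) * m₁ ≤ n) (h2 : n ≤ (r - 1) * m₁ + 4 * r ^ 2) :
    ∑ v ∈ inn F, xv r a F v ≤ 8 * r ^ 4 * K * D + r ^ 4 * n * η * D := by
  classical
  set I := inn F with hI
  set T : ℝ := ∑ o' ∈ univ.filter (fun o' : OE n => Adm r I o' ∧ Exc F o'), a o' with hT
  have h0 : ∑ v ∈ I, xv r a F v = ((r - 2 : ℕ) : ℝ) * T := by
    have h := a6_sum_inn r F a (Exc F)
    rw [hT]
    refine Eq.trans (Finset.sum_congr rfl fun v _ => ?_) h
    unfold xv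
    rfl
  have hKD : 0 ≤ K * D := mul_nonneg hK hD
  have hηD : 0 ≤ η * D := mul_nonneg hη hD
  -- the three parts
  set W1 := univ \ (I ∪ F.image OE.x) with hW1
  set W2 := univ \ (I ∪ F.image OE.y) with hW2
  have hc1 : (W1.card : ℝ) ≤ 4 * r ^ 2 := by
    have := a6_card_out hr hF OE.x hF.xinj hF.xout (by rw [hm]; exact h2)
    exact_mod_cast this
  have hc2 : (W2.card : ℝ) ≤ 4 * r ^ 2 := by
    have := a6_card_out hr hF OE.y hF.yinj hF.yout (by rw [hm]; exact h2)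
    exact_mod_cast this
  set S1 := W1.biUnion fun w => univ.filter (fun o' : OE n => o'.Ok r ∧ o'.x = w) with hS1
  set S2 := W2.biUnion fun w => univ.filter (fun o' : OE n => o'.Ok r ∧ o'.y = w) with hS2
  set S3 := (F.biUnion fun o => o.set.offDiag).biUnion fun p =>
    univ.filter (fun o' : OE n => o'.Ok r ∧ p.1 ∈ o'.set ∧ p.2 ∈ o'.set) with hS3
  have hν' : ∀ o : OE n, 0 ≤ ν o.set := fun o => hν _
  have hb : ∀ {ι : Type} [DecidableEq ι] (s : Finset ι) (t : ι → Finset (OE n)),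
      ∑ o ∈ s.biUnion t, ν o.set ≤ ∑ i ∈ s, ∑ o ∈ t i, ν o.set := by
    intro ι _ s t
    induction s using Finset.induction_on with
    | empty => simp
    | insert i s hi ih =>
      rw [biUnion_insert, Finset.sum_insert hi]
      have h3 : ∑ o ∈ t i ∪ s.biUnion t, ν o.set + ∑ o ∈ t i ∩ s.biUnion t, ν o.set =
          ∑ o ∈ t i, ν o.set + ∑ o ∈ s.biUnion t, ν o.set := Finset.sum_union_inter
      have h4 : 0 ≤ ∑ o ∈ t i ∩ s.biUnion t, ν o.set := Finset.sum_nonneg fun o _ => hν' o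
      linarith
  have hs1 : ∑ o ∈ S1, ν o.set ≤ 4 * r ^ 2 * (r * (K * D)) := by
    refine (hb W1 _).trans ?_
    calc ∑ w ∈ W1, ∑ o' ∈ univ.filter (fun o' : OE n => o'.Ok r ∧ o'.x = w), ν o'.set
        ≤ ∑ _w ∈ W1, (r : ℝ) * (K * D) := by
          refine Finset.sum_le_sum fun w _ => (a6_x_le hr hν w).trans ?_
          exact mul_le_mul_of_nonneg_left (hdeg w) (Nat.cast_nonneg r)
      _ = W1.card * (r * (K * D)) := by rw [Finset.sum_const, nsmul_eq_mul]
      _ ≤ 4 * r ^ 2 * (r * (K * D)) := mul_le_mul_of_nonneg_right hc1 (by positivity)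
  have hs2 : ∑ o ∈ S2, ν o.set ≤ 4 * r ^ 2 * (r * (K * D)) := by
    refine (hb W2 _).trans ?_
    calc ∑ w ∈ W2, ∑ o' ∈ univ.filter (fun o' : OE n => o'.Ok r ∧ o'.y = w), ν o'.set
        ≤ ∑ _w ∈ W2, (r : ℝ) * (K * D) := by
          refine Finset.sum_le_sum fun w _ => (a6_y_le hr hν w).trans ?_
          exact mul_le_mul_of_nonneg_left (hdeg w) (Nat.cast_nonneg r)
      _ = W2.card * (r * (K * D)) := by rw [Finset.sum_const, nsmul_eq_mul]
      _ ≤ 4 * r ^ 2 * (r * (K * D)) := mul_le_mul_of_nonneg_right hc2 (by positivity)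
  have hs3 : ∑ o ∈ S3, ν o.set ≤ m₁ * r ^ 2 * (r ^ 2 * (η * D)) := by
    refine (hb _ _).trans ?_
    have hcard : ((F.biUnion fun o => o.set.offDiag).card : ℝ) ≤ m₁ * r ^ 2 := by
      have h3 : (F.biUnion fun o => o.set.offDiag).card ≤ F.card * r ^ 2 := by
        refine card_biUnion_le_card_mul _ _ _ fun o ho => ?_
        rw [offDiag_card, a6_card_set hr (hF.ok o ho), pow_two]
        exact Nat.sub_le _ _
      rw [hm] at h3
      exact_mod_cast h3
    calc ∑ p ∈ F.biUnion fun o => o.set.offDiag,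
          ∑ o' ∈ univ.filter (fun o' : OE n => o'.Ok r ∧ p.1 ∈ o'.set ∧ p.2 ∈ o'.set), ν o'.set
        ≤ ∑ _p ∈ F.biUnion fun o => o.set.offDiag, (r : ℝ) ^ 2 * (η * D) := by
          refine Finset.sum_le_sum fun p hp => (a6_set_le hr hν p.1 p.2).trans ?_
          obtain ⟨o, -, hp'⟩ := mem_biUnion.1 hp
          have hne : p.1 ≠ p.2 := (mem_offDiag.1 hp').2.2
          exact mul_le_mul_of_nonneg_left (hco p.1 p.2 hne) (by positivity)
      _ = (F.biUnion fun o => o.set.offDiag).card * ((r : ℝ) ^ 2 * (η * D)) := by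
          rw [Finset.sum_const, nsmul_eq_mul]
      _ ≤ m₁ * r ^ 2 * (r ^ 2 * (η * D)) := mul_le_mul_of_nonneg_right hcard (by positivity)
  -- the exceptional edges
  have hsub : univ.filter (fun o' : OE n => Adm r I o' ∧ Exc F o') ⊆ S1 ∪ S2 ∪ S3 := by
    intro o' ho'
    obtain ⟨-, ⟨hok, hJ, hx, hy⟩, hE⟩ := mem_filter.1 ho'
    rcases hE with h | h | ⟨o, ho, h⟩
    · refine mem_union_left _ (mem_union_left _ ?_)
      refine mem_biUnion.2 ⟨o'.x, ?_, mem_filter.2 ⟨mem_univ _, hok, rfl⟩⟩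
      rw [hW1, mem_sdiff, mem_union, not_or]
      refine ⟨mem_univ _, hx, fun h3 => ?_⟩
      obtain ⟨o, ho, h4⟩ := mem_image.1 h3
      exact h o ho h4
    · refine mem_union_left _ (mem_union_right _ ?_)
      refine mem_biUnion.2 ⟨o'.y, ?_, mem_filter.2 ⟨mem_univ _, hok, rfl⟩⟩
      rw [hW2, mem_sdiff, mem_union, not_or]
      refine ⟨mem_univ _, hy, fun h3 => ?_⟩
      obtain ⟨o, ho, h4⟩ := mem_image.1 h3
      exact h o ho h4
    · refine mem_union_right _ ?_
      obtain ⟨u, hu, v, hv, huv⟩ := one_lt_card.1 (show 1 < (o.set ∩ o'.set).card by omega)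
      rw [mem_inter] at hu hv
      refine mem_biUnion.2 ⟨(u, v), mem_biUnion.2 ⟨o, ho, mem_offDiag.2 ⟨hu.1, hv.1, huv⟩⟩, ?_⟩
      exact mem_filter.2 ⟨mem_univ _, hok, hu.2, hv.2⟩
  have hTle : T ≤ 4 * r ^ 2 * (r * (K * D)) + 4 * r ^ 2 * (r * (K * D)) +
      m₁ * r ^ 2 * (r ^ 2 * (η * D)) := by
    have h3 : T ≤ ∑ o ∈ S1 ∪ S2 ∪ S3, ν o.set := by
      refine (Finset.sum_le_sum fun o _ => haν o).trans ?_
      exact Finset.sum_le_sum_of_subset_of_nonneg hsub fun o _ _ => hν' o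
    have h4 : ∀ A B : Finset (OE n), ∑ o ∈ A ∪ B, ν o.set ≤
        ∑ o ∈ A, ν o.set + ∑ o ∈ B, ν o.set := by
      intro A B
      have h5 : ∑ o ∈ A ∪ B, ν o.set + ∑ o ∈ A ∩ B, ν o.set =
          ∑ o ∈ A, ν o.set + ∑ o ∈ B, ν o.set := Finset.sum_union_inter
      have h6 : 0 ≤ ∑ o ∈ A ∩ B, ν o.set := Finset.sum_nonneg fun o _ => hν' o
      linarith
    have h7 := h4 (S1 ∪ S2) S3
    have h8 := h4 S1 S2
    linarith
  have hr2 : ((r - 2 : ℕ) : ℝ) ≤ r := by
    exact_mod_cast Nat.sub_le r 2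
  have hr20 : (0 : ℝ) ≤ ((r - 2 : ℕ) : ℝ) := Nat.cast_nonneg _
  have hmn : ((r - 2 : ℕ) : ℝ) * m₁ ≤ n := by
    have h3 : (r - 2) * m₁ ≤ n := (Nat.mul_le_mul_right _ (by omega)).trans h1
    exact_mod_cast h3
  rw [h0]
  calc ((r - 2 : ℕ) : ℝ) * T ≤ ((r - 2 : ℕ) : ℝ) * (4 * r ^ 2 * (r * (K * D)) +
        4 * r ^ 2 * (r * (K * D)) + m₁ * r ^ 2 * (r ^ 2 * (η * D))) :=
        mul_le_mul_of_nonneg_left hTle hr20
    _ = ((r - 2 : ℕ) : ℝ) * (8 * r ^ 3 * (K * D)) +
        ((r - 2 : ℕ) : ℝ) * m₁ * (r ^ 4 * (η * D)) := by ring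
    _ ≤ r * (8 * r ^ 3 * (K * D)) + n * (r ^ 4 * (η * D)) :=
        add_le_add (mul_le_mul_of_nonneg_right hr2 (by positivity))
          (mul_le_mul_of_nonneg_right hmn (by positivity))
    _ = 8 * r ^ 4 * K * D + r ^ 4 * n * η * D := by ring

open Classical in
/-- **Admissible weight.** `S` is a set of proper oriented edges, `a o = ν o.set` outside `S` and
`ν o.set / 2` on `S`. Proof: `∑ v ∈ inn F, av v = (r - 2) * ∑ (o' admissible) a o'`; the admissible `o'` with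
`o'.set = Z` exist iff `Z ∩ Λ` (`Λ` the complement of `inn F`) has exactly two elements, and then they
are the two orientations; so `∑ (o' admissible) ν o'.set = 2 ∑_{|Z ∩ Λ| = 2} ν Z`. -/
theorem adm_weight (r : ℕ) (hr : 3 ≤ r) (ν : Finset (Fin n) → ℝ) (S : Finset (OE n))
    (F : Finset (OE n)) (hF : IsSys r F) :
    ∑ v ∈ inn F, av r (fun o => ν o.set * if o ∈ S then 1 / 2 else 1) F v =
      (r - 2 : ℕ) * (2 * ∑ Z ∈ (Er r n).filter (fun Z => (Z ∩ (univ \ inn F)).card = 2), ν Z -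
        (1 / 2) * ∑ o ∈ S.filter (fun o => Adm r (inn F) o), ν o.set) := by
  set I := inn F with hI
  set a : OE n → ℝ := fun o => ν o.set * if o ∈ S then 1 / 2 else 1 with ha
  have h0 : ∑ v ∈ I, av r a F v =
      ((r - 2 : ℕ) : ℝ) * ∑ o' ∈ univ.filter (fun o' : OE n => Adm r I o'), a o' := by
    have h := a6_sum_inn r F a (fun _ => True)
    simp only [and_true] at h
    refine Eq.trans (Finset.sum_congr rfl fun v _ => ?_) h
    unfold av
    rfl
  rw [h0]
  congr 1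
  -- split the weight
  have h1 : ∑ o' ∈ univ.filter (fun o' : OE n => Adm r I o'), a o' =
      ∑ o' ∈ univ.filter (fun o' : OE n => Adm r I o'), ν o'.set -
        1 / 2 * ∑ o' ∈ S.filter (fun o => Adm r I o), ν o'.set := by
    have h2 : S.filter (fun o => Adm r I o) =
        (univ.filter (fun o' : OE n => Adm r I o')).filter (fun o => o ∈ S) := by
      ext o
      simp only [mem_filter, mem_univ, true_and]
      exact and_comm
    rw [h2, Finset.sum_filter (p := fun o => o ∈ S), Finset.mul_sum, ← Finset.sum_sub_distrib]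
    refine Finset.sum_congr rfl fun o _ => ?_
    rw [ha]
    simp only
    split_ifs <;> ring
  rw [h1]
  congr 1
  -- the two orientations
  have hmaps : ∀ o ∈ univ.filter (fun o' : OE n => Adm r I o'),
      o.set ∈ (Er r n).filter (fun Z => (Z ∩ (univ \ I)).card = 2) := by
    intro o ho
    obtain ⟨-, hok, hJ, hx, hy⟩ := mem_filter.1 ho
    refine mem_filter.2 ⟨a6_set_mem hr hok, ?_⟩
    have h2 : o.set ∩ (univ \ I) = {o.x, o.y} := by
      ext v
      rw [mem_inter, mem_sdiff, mem_insert, mem_singleton]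
      unfold OE.set
      rw [mem_insert, mem_insert]
      constructor
      · rintro ⟨h3 | h3 | h3, -, h4⟩
        · exact Or.inl h3
        · exact Or.inr h3
        · exact absurd (hJ h3) h4
      · rintro (rfl | rfl)
        · exact ⟨Or.inl rfl, mem_univ _, hx⟩
        · exact ⟨Or.inr (Or.inl rfl), mem_univ _, hy⟩
    rw [h2, card_pair hok.2.1]
  rw [← Finset.sum_fiberwise_of_maps_to hmaps, Finset.mul_sum]
  refine Finset.sum_congr rfl fun Z hZ => ?_
  obtain ⟨hZr, hZ2⟩ := mem_filter.1 hZ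
  obtain ⟨u, v, huv, hZe⟩ := card_eq_two.1 hZ2
  have hZc : Z.card = r := (mem_powersetCard.1 hZr).2
  have hmem : ∀ w, w ∈ Z ∧ w ∉ I ↔ w = u ∨ w = v := by
    intro w
    have h3 : w ∈ Z ∩ (univ \ I) ↔ w ∈ ({u, v} : Finset (Fin n)) := by rw [hZe]
    rw [mem_inter, mem_sdiff, mem_insert, mem_singleton] at h3
    rw [← h3]
    exact ⟨fun h => ⟨h.1, mem_univ _, h.2⟩, fun h => ⟨h.1, h.2.2⟩⟩
  have hu := (hmem u).2 (Or.inl rfl)
  have hv := (hmem v).2 (Or.inr rfl)
  have hJc : (Z ∩ I).card = r - 2 := by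
    have h3 : (Z ∩ (univ \ I)) = Z \ I := by
      ext w
      simp
    have h4 := card_inter_add_card_sdiff Z I
    rw [← h3, hZ2, hZc] at h4
    omega
  have hnI : ∀ w, w ∉ I → w ∉ Z ∩ I := fun w h h3 => h (mem_inter.1 h3).2
  have hset : ∀ x y : Fin n, (x = u ∧ y = v ∨ x = v ∧ y = u) →
      (⟨x, Z ∩ I, y⟩ : OE n).set = Z ∧ Adm r I (⟨x, Z ∩ I, y⟩ : OE n) := by
    intro x y hxy
    have hx : x ∈ Z ∧ x ∉ I := by
      rcases hxy with ⟨rfl, rfl⟩ | ⟨rfl, rfl⟩
      · exact hu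
      · exact hv
    have hy : y ∈ Z ∧ y ∉ I := by
      rcases hxy with ⟨rfl, rfl⟩ | ⟨rfl, rfl⟩
      · exact hv
      · exact hu
    have hne : x ≠ y := by
      rcases hxy with ⟨rfl, rfl⟩ | ⟨rfl, rfl⟩
      · exact huv
      · exact huv.symm
    refine ⟨?_, ⟨hJc, hne, hnI x hx.2, hnI y hy.2⟩, inter_subset_right, hx.2, hy.2⟩
    ext w
    unfold OE.set
    rw [mem_insert, mem_insert, mem_inter]
    constructor
    · rintro (rfl | rfl | h3)
      · exact hx.1
      · exact hy.1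
      · exact h3.1
    · intro hw
      by_cases hwI : w ∈ I
      · exact Or.inr (Or.inr ⟨hw, hwI⟩)
      · have h3 := (hmem w).1 ⟨hw, hwI⟩
        rcases hxy with ⟨rfl, rfl⟩ | ⟨rfl, rfl⟩
        · rcases h3 with h3 | h3
          · exact Or.inl h3
          · exact Or.inr (Or.inl h3)
        · rcases h3 with h3 | h3
          · exact Or.inr (Or.inl h3)
          · exact Or.inl h3
  have hfib : (univ.filter (fun o' : OE n => Adm r I o')).filter (fun o => o.set = Z) =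
      {⟨u, Z ∩ I, v⟩, ⟨v, Z ∩ I, u⟩} := by
    ext o
    rw [mem_filter, mem_filter, mem_insert, mem_singleton]
    constructor
    · rintro ⟨⟨-, hok, hJ, hx, hy⟩, hoZ⟩
      have hxZ : o.x ∈ Z := by
        rw [← hoZ]
        exact mem_insert_self _ _
      have hyZ : o.y ∈ Z := by
        rw [← hoZ]
        exact mem_insert_of_mem (mem_insert_self _ _)
      have hJe : o.J = Z ∩ I := by
        ext w
        rw [mem_inter, ← hoZ]
        unfold OE.set
        rw [mem_insert, mem_insert]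
        constructor
        · intro hw
          exact ⟨Or.inr (Or.inr hw), hJ hw⟩
        · rintro ⟨rfl | rfl | h3, h4⟩
          · exact absurd h4 hx
          · exact absurd h4 hy
          · exact h3
      rcases (hmem _).1 ⟨hxZ, hx⟩ with h3 | h3 <;> rcases (hmem _).1 ⟨hyZ, hy⟩ with h4 | h4
      · exact absurd (h3.trans h4.symm) hok.2.1
      · exact Or.inl (OE.ext h3 hJe h4)
      · exact Or.inr (OE.ext h3 hJe h4)
      · exact absurd (h3.trans h4.symm) hok.2.1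
    · rintro (rfl | rfl)
      · have h3 := hset u v (Or.inl ⟨rfl, rfl⟩)
        exact ⟨⟨mem_univ _, h3.2⟩, h3.1⟩
      · have h3 := hset v u (Or.inr ⟨rfl, rfl⟩)
        exact ⟨⟨mem_univ _, h3.2⟩, h3.1⟩
  have hne : (⟨u, Z ∩ I, v⟩ : OE n) ≠ ⟨v, Z ∩ I, u⟩ := fun h => huv (congrArg OE.x h)
  rw [hfib, Finset.sum_pair hne, (hset u v (Or.inl ⟨rfl, rfl⟩)).1,
    (hset v u (Or.inr ⟨rfl, rfl⟩)).1]
  ring

end Pool.Agent.LHam
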