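import Pool.Agent.LHam.A5Avg
import Pool.Agent.LHam.A6Exc

set_option autoImplicit false

/-! A8. The master inequality, averaged. -/

namespace Pool.Agent.LHam

open Finset

variable {n : ℕ}

private theorem Wf_nonneg' (ν : Finset (Fin n) → ℝ) (hν : ∀ Z, 0 ≤ ν Z) (F : Finset (OE n)) :
    0 ≤ Wf ν F := Finset.prod_nonneg fun o _ => hν o.set

private theorem card_inn (r : ℕ) (F : Finset (OE n)) (hF : IsSys r F) :
    (inn F).card = (r - 2) * F.card := by
  unfold inn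
  rw [Finset.card_biUnion (fun o ho o' ho' h => hF.dis o ho o' ho' h),
    Finset.sum_congr rfl (fun o ho => (hF.ok o ho).1), Finset.sum_const, smul_eq_mul, mul_comm]

private theorem av_nonneg' (r : ℕ) (a : OE n → ℝ) (ha : ∀ o, 0 ≤ a o) (F : Finset (OE n))
    (v : Fin n) : 0 ≤ av r a F v := Finset.sum_nonneg fun o _ => ha o

private theorem xv_nonneg' (r : ℕ) (a : OE n → ℝ) (ha : ∀ o, 0 ≤ a o) (F : Finset (OE n))
    (v : Fin n) : 0 ≤ xv r a F v := Finset.sum_nonneg fun o _ => ha o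

/-- The tangent line version of Jensen. -/
private theorem jens {V : Type} (G : Finset (Finset (OE n))) (w : Finset (OE n) → ℝ)
    (S : Finset (OE n) → Finset V) (x : Finset (OE n) → V → ℝ) (c W : ℝ)
    (hw : ∀ F ∈ G, 0 ≤ w F) (hx : ∀ F ∈ G, ∀ v ∈ S F, 0 < x F v) (hc : 0 < c)
    (hW : ∑ F ∈ G, w F * ((S F).card : ℝ) = W)
    (hs : ∑ F ∈ G, w F * ∑ v ∈ S F, x F v ≤ c * W) :
    ∑ F ∈ G, w F * ∑ v ∈ S F, Real.log (x F v) ≤ W * Real.log c := by
  have h1 : ∀ F ∈ G, w F * ∑ v ∈ S F, Real.log (x F v) ≤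
      (w F * ((S F).card : ℝ)) * (Real.log c - 1) + (w F * ∑ v ∈ S F, x F v) * c⁻¹ := by
    intro F hF
    have h2 : ∑ v ∈ S F, Real.log (x F v) ≤
        ((S F).card : ℝ) * (Real.log c - 1) + (∑ v ∈ S F, x F v) * c⁻¹ := by
      rw [← nsmul_eq_mul, ← Finset.sum_const, Finset.sum_mul, ← Finset.sum_add_distrib]
      refine Finset.sum_le_sum fun v hv => ?_
      have h3 := Real.log_le_sub_one_of_pos (div_pos (hx F hF v hv) hc)
      rw [Real.log_div (hx F hF v hv).ne' hc.ne', div_eq_mul_inv] at h3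
      linarith
    calc w F * ∑ v ∈ S F, Real.log (x F v) ≤
        w F * (((S F).card : ℝ) * (Real.log c - 1) + (∑ v ∈ S F, x F v) * c⁻¹) :=
          mul_le_mul_of_nonneg_left h2 (hw F hF)
      _ = _ := by ring
  refine (Finset.sum_le_sum h1).trans ?_
  rw [Finset.sum_add_distrib, ← Finset.sum_mul, ← Finset.sum_mul, hW]
  have h4 : (∑ F ∈ G, w F * ∑ v ∈ S F, x F v) * c⁻¹ ≤ W := by
    calc (∑ F ∈ G, w F * ∑ v ∈ S F, x F v) * c⁻¹ ≤ (c * W) * c⁻¹ :=
          mul_le_mul_of_nonneg_right hs (inv_nonneg.mpr hc.le)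
      _ = W := by field_simp
  linarith

/-- **Averaged master inequality.** `b` and `a'` are bounds for the averages (over `F` with
probability `Wf ν F / Ψ` and over `v ∈ inn F`) of `1 + xv` and `av`.

Proof. Average `master` (with `ρ = rk σ`) over all `σ : Fin n → Fin L` and use `avgW` for each `F`. It
remains `∑ F ∈ G, Wf ν F * ∑ v ∈ inn F, log (1 + xv + av y^q) ≤ Ψ (r - 2) m₁ log (b + a' y^q)` for
`y = (L - l) / L > 0`: Jensen for the concave function `log` on `(0, ∞)` with the weights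
`Wf ν F / (Ψ (r - 2) m₁)` (their sum is `1` since `(inn F).card = (r - 2) m₁`), and monotonicity
(the average of `1 + xv + av y^q` is `≤ b + a' y^q`). -/
theorem master2 (r : ℕ) (hr : 3 ≤ r) (L : ℕ) (hL : 0 < L)
    (ν : Finset (Fin n) → ℝ) (hν : ∀ Z, 0 ≤ ν Z) (ω : OE n → ℝ) (hω : ∀ o, 0 < ω o ∧ ω o ≤ 1)
    (Q1 : Finset (Fin n) → ℝ) (hQ : ∀ A, 0 ≤ Q1 A) (hQ1 : ∑ A, Q1 A ≤ 1)
    (m₁ : ℕ) (hm : 0 < m₁) (G : Finset (Finset (OE n)))
    (hG : ∀ F ∈ G, IsSys r F ∧ F.card = m₁) (hQp : ∀ F ∈ G, 0 < Q1 (inn F))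
    (hΨ : 0 < ∑ F ∈ G, Wf ν F) (b a' : ℝ) (ha' : 0 ≤ a')
    (hb : ∑ F ∈ G, Wf ν F * ∑ v ∈ inn F, (1 + xv r (fun o => ν o.set * ω o) F v) ≤
      b * ((∑ F ∈ G, Wf ν F) * ((r - 2 : ℕ) * m₁)))
    (ha : ∑ F ∈ G, Wf ν F * ∑ v ∈ inn F, av r (fun o => ν o.set * ω o) F v ≤
      a' * ((∑ F ∈ G, Wf ν F) * ((r - 2 : ℕ) * m₁))) :
    (∑ F ∈ G, Wf ν F) * Real.log (∑ F ∈ G, Wf ν F) ≤
      ∑ F ∈ G, Wf ν F * (-Real.log (Q1 (inn F))) +
      ∑ F ∈ G, Wf ν F * (∑ o ∈ F, -Real.log (ω o)) +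
      (∑ F ∈ G, Wf ν F) * ((r - 2 : ℕ) * m₁ * Rsum r L b a') := by
  classical
  set a : OE n → ℝ := fun o => ν o.set * ω o with ha_def
  have ha0 : ∀ o, 0 ≤ a o := fun o => mul_nonneg (hν _) (hω o).1.le
  set Ψ : ℝ := ∑ F ∈ G, Wf ν F with hΨ_def
  have hLr : (0 : ℝ) < L := by exact_mod_cast hL
  have hr2 : (0 : ℝ) < ((r - 2 : ℕ) : ℝ) := by
    have : 0 < r - 2 := by omega
    exact_mod_cast this
  have hmr : (0 : ℝ) < m₁ := by exact_mod_cast hm
  set W : ℝ := Ψ * (((r - 2 : ℕ) : ℝ) * m₁) with hW_def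
  have hWpos : 0 < W := mul_pos hΨ (mul_pos hr2 hmr)
  have hcard : ∑ F ∈ G, Wf ν F * ((inn F).card : ℝ) = W := by
    rw [hW_def, hΨ_def, Finset.sum_mul]
    refine Finset.sum_congr rfl fun F hF => ?_
    rw [card_inn r F (hG F hF).1, (hG F hF).2]
    push_cast
    ring
  -- `b` is at least one
  have hb1 : 1 ≤ b := by
    have h1 : W ≤ ∑ F ∈ G, Wf ν F * ∑ v ∈ inn F, (1 + xv r a F v) := by
      rw [← hcard]
      refine Finset.sum_le_sum fun F _ => ?_
      refine mul_le_mul_of_nonneg_left ?_ (Wf_nonneg' ν hν F)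
      have h2 : ((inn F).card : ℝ) = ∑ _v ∈ inn F, (1 : ℝ) := by simp
      rw [h2]
      refine Finset.sum_le_sum fun v _ => ?_
      have := xv_nonneg' r a ha0 F v
      linarith
    have h3 : 1 * W ≤ b * W := by
      rw [one_mul]
      exact h1.trans hb
    exact le_of_mul_le_mul_right h3 hWpos
  -- the Jensen step
  have hJ : ∀ l ∈ range L, ∑ F ∈ G, Wf ν F * ∑ v ∈ inn F,
      Real.log (1 + xv r a F v + av r a F v * (((L - l : ℕ) : ℝ) / L) ^ qe r) ≤
      W * Real.log (b + a' * (((L - l : ℕ) : ℝ) / L) ^ qe r) := by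
    intro l _
    set t : ℝ := (((L - l : ℕ) : ℝ) / L) ^ qe r with ht_def
    have ht : 0 ≤ t := pow_nonneg (div_nonneg (Nat.cast_nonneg _) hLr.le) _
    refine jens G (Wf ν) inn (fun F v => 1 + xv r a F v + av r a F v * t) (b + a' * t) W
      (fun F _ => Wf_nonneg' ν hν F) ?_ ?_ hcard ?_
    · intro F _ v _
      have h1 := xv_nonneg' r a ha0 F v
      have h2 := mul_nonneg (av_nonneg' r a ha0 F v) ht
      show 0 < 1 + xv r a F v + av r a F v * t
      linarith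
    · have := mul_nonneg ha' ht
      linarith
    · have h1 : ∑ F ∈ G, Wf ν F * ∑ v ∈ inn F, (1 + xv r a F v + av r a F v * t) =
          (∑ F ∈ G, Wf ν F * ∑ v ∈ inn F, (1 + xv r a F v)) +
            (∑ F ∈ G, Wf ν F * ∑ v ∈ inn F, av r a F v) * t := by
        rw [Finset.sum_mul, ← Finset.sum_add_distrib]
        refine Finset.sum_congr rfl fun F _ => ?_
        rw [Finset.sum_add_distrib, ← Finset.sum_mul]
        ring
      rw [h1]
      have h2 := mul_le_mul_of_nonneg_right ha ht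
      calc _ ≤ b * W + a' * W * t := add_le_add hb h2
        _ = (b + a' * t) * W := by ring
  -- the average over the levels
  have hcardσ : ((Finset.univ : Finset (Fin n → Fin L)).card : ℝ) = (L : ℝ) ^ n := by
    rw [Finset.card_univ, Fintype.card_fun, Fintype.card_fin, Fintype.card_fin]
    push_cast
    rfl
  have hLn : (0 : ℝ) < (L : ℝ) ^ n := pow_pos hLr n
  have hmaster : ∀ σ : Fin n → Fin L, Ψ * Real.log Ψ ≤
      ∑ F ∈ G, Wf ν F * (-Real.log (Q1 (inn F))) +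
      ∑ F ∈ G, Wf ν F * (∑ o ∈ F, -Real.log (ω o)) +
      ∑ F ∈ G, Wf ν F * ∑ o ∈ F, Real.log (Wt r a (rk σ) F o) := by
    intro σ
    have h := master r hr (rk σ) (rk_injective σ) ν hν ω hω Q1 hQ hQ1 G
      (fun F hF => (hG F hF).1) hQp hΨ
    refine h.trans (le_of_eq ?_)
    rw [← Finset.sum_add_distrib, ← Finset.sum_add_distrib]
    refine Finset.sum_congr rfl fun F _ => ?_
    rw [Finset.sum_add_distrib]
    ring
  have hsum := Finset.sum_le_sum (fun (σ : Fin n → Fin L) (_ : σ ∈ Finset.univ) => hmaster σ)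
  rw [Finset.sum_const, Finset.sum_add_distrib, Finset.sum_const, nsmul_eq_mul, nsmul_eq_mul,
    hcardσ] at hsum
  have hT : ∑ σ : Fin n → Fin L, ∑ F ∈ G, Wf ν F * ∑ o ∈ F, Real.log (Wt r a (rk σ) F o) ≤
      (L : ℝ) ^ n * (Ψ * (((r - 2 : ℕ) : ℝ) * m₁ * Rsum r L b a')) := by
    rw [Finset.sum_comm]
    have h1 : ∀ F ∈ G, ∑ σ : Fin n → Fin L, Wf ν F * ∑ o ∈ F, Real.log (Wt r a (rk σ) F o) ≤
        (L : ℝ) ^ n * (Wf ν F * ∑ v ∈ inn F, ∑ l ∈ range L,
          (1 / (L : ℝ)) * (((L - l : ℕ) : ℝ) / L) ^ (r - 3) *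
          Real.log (1 + xv r a F v + av r a F v * (((L - l : ℕ) : ℝ) / L) ^ qe r)) := by
      intro F hF
      rw [← Finset.mul_sum]
      have h2 := avgW r hr L hL a ha0 F (hG F hF).1
      rw [div_le_iff₀ hLn] at h2
      have h3 := mul_le_mul_of_nonneg_left h2 (Wf_nonneg' ν hν F)
      refine h3.trans (le_of_eq ?_)
      ring
    refine (Finset.sum_le_sum h1).trans ?_
    rw [← Finset.mul_sum]
    refine mul_le_mul_of_nonneg_left ?_ hLn.le
    have h4 : ∑ F ∈ G, Wf ν F * ∑ v ∈ inn F, ∑ l ∈ range L,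
          (1 / (L : ℝ)) * (((L - l : ℕ) : ℝ) / L) ^ (r - 3) *
          Real.log (1 + xv r a F v + av r a F v * (((L - l : ℕ) : ℝ) / L) ^ qe r) =
        ∑ l ∈ range L, (1 / (L : ℝ)) * (((L - l : ℕ) : ℝ) / L) ^ (r - 3) *
          ∑ F ∈ G, Wf ν F * ∑ v ∈ inn F,
            Real.log (1 + xv r a F v + av r a F v * (((L - l : ℕ) : ℝ) / L) ^ qe r) := by
      have h6 : ∀ F ∈ G, Wf ν F * ∑ v ∈ inn F, ∑ l ∈ range L,
          (1 / (L : ℝ)) * (((L - l : ℕ) : ℝ) / L) ^ (r - 3) *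
          Real.log (1 + xv r a F v + av r a F v * (((L - l : ℕ) : ℝ) / L) ^ qe r) =
          ∑ l ∈ range L, (1 / (L : ℝ)) * (((L - l : ℕ) : ℝ) / L) ^ (r - 3) *
          (Wf ν F * ∑ v ∈ inn F,
            Real.log (1 + xv r a F v + av r a F v * (((L - l : ℕ) : ℝ) / L) ^ qe r)) := by
        intro F _
        rw [Finset.sum_comm, Finset.mul_sum]
        refine Finset.sum_congr rfl fun l _ => ?_
        rw [← Finset.mul_sum]
        ring
      rw [Finset.sum_congr rfl h6, Finset.sum_comm]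
      refine Finset.sum_congr rfl fun l _ => ?_
      rw [← Finset.mul_sum]
    rw [h4]
    have h5 : Ψ * (((r - 2 : ℕ) : ℝ) * m₁ * Rsum r L b a') =
        ∑ l ∈ range L, (1 / (L : ℝ)) * (((L - l : ℕ) : ℝ) / L) ^ (r - 3) *
          (W * Real.log (b + a' * (((L - l : ℕ) : ℝ) / L) ^ qe r)) := by
      unfold Rsum
      rw [hW_def, Finset.mul_sum, Finset.mul_sum]
      refine Finset.sum_congr rfl fun l _ => ?_
      ring
    rw [h5]
    refine Finset.sum_le_sum fun l hl => ?_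
    refine mul_le_mul_of_nonneg_left (hJ l hl) ?_
    exact mul_nonneg (by positivity) (pow_nonneg (div_nonneg (Nat.cast_nonneg _) hLr.le) _)
  have hfin : (L : ℝ) ^ n * (Ψ * Real.log Ψ) ≤ (L : ℝ) ^ n *
      (∑ F ∈ G, Wf ν F * (-Real.log (Q1 (inn F))) +
      ∑ F ∈ G, Wf ν F * (∑ o ∈ F, -Real.log (ω o)) +
      Ψ * (((r - 2 : ℕ) : ℝ) * m₁ * Rsum r L b a')) := by
    rw [mul_add]
    exact hsum.trans (add_le_add_right hT _)
  exact le_of_mul_le_mul_left hfin hLn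

end Pool.Agent.LHam
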