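import Pool.Agent.LHam.A7Real
import Pool.Agent.LHam.A8Jensen

set_option autoImplicit false

/-! A11. Lemma E, common part. -/

namespace Pool.Agent.LHam

open Finset

private theorem A11_card (r : ℕ) {n : ℕ} (F : Finset (OE n)) (hF : IsSys r F) :
    (inn F).card = (r - 2) * F.card := by
  unfold inn
  rw [Finset.card_biUnion (fun o ho o' ho' h => hF.dis o ho o' ho' h),
    Finset.sum_congr rfl (fun o ho => (hF.ok o ho).1), Finset.sum_const, smul_eq_mul, mul_comm]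

/-- **Lemma E, common part.** An upper bound `a'` for the average of `av` of the form
`a' = D (1 - λ)^(r-2) (1 + s)` and a bound `g` for the expectation of `-log Q1` give the bound of
`Ψ`.

Proof. `master2` with `b = 1 + (8 r^4 K D + r^4 n η D) / ((r - 2) m₁)` (`exc_bound`: the
hypothesis `hb` of `master2`; `∑ v ∈ inn F, 1 = (r - 2) m₁`) and `riemann` for `κ₂ = κ₁`:
`b ≤ ε₁ a'` for `n ≥ n₀`, `D ≥ D₀`, `η` small (`m₁ ≥ n / (2 r)` for `n` large). Then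
`log Ψ ≤ g + h + (r - 2) m₁ (log a' / (r - 2) - (r - 1) / (r - 2) + κ₂)
 = g + h + m₁ (log D + (r - 2) log (1 - λ) + log (1 + s) - (r - 1)) + (r - 2) m₁ κ₂`. -/
theorem lemE_core (r : ℕ) (hr : 3 ≤ r) (K κ₁ : ℝ) (hK : 1 ≤ K) (hκ : 0 < κ₁) :
    ∃ η D₀ : ℝ, 0 < η ∧ ∃ n₀ : ℕ, ∀ n ≥ n₀, ∀ D : ℝ, D₀ ≤ D → ∀ ν : Finset (Fin n) → ℝ,
      (∀ Z, 0 ≤ ν Z) → (∀ v, deg r ν v ≤ K * D) → (∀ u v, u ≠ v → codeg r ν u v ≤ η * D) →
      ∀ m₁ : ℕ, (r - 1) * m₁ ≤ n → n ≤ (r - 1) * m₁ + 4 * r ^ 2 →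
      ∀ G : Finset (Finset (OE n)), (∀ F ∈ G, IsSys r F ∧ F.card = m₁) →
      ∀ (ω : OE n → ℝ), (∀ o, 0 < ω o ∧ ω o ≤ 1) →
      ∀ (Q1 : Finset (Fin n) → ℝ), (∀ A, 0 ≤ Q1 A) → ∑ A, Q1 A ≤ 1 →
      (∀ F ∈ G, 0 < Q1 (inn F)) → 0 < ∑ F ∈ G, Wf ν F →
      ∀ g h s : ℝ, -(1 / 2) ≤ s → s ≤ 1 →
      ∑ F ∈ G, Wf ν F * (-Real.log (Q1 (inn F))) ≤ g * ∑ F ∈ G, Wf ν F →
      ∑ F ∈ G, Wf ν F * (∑ o ∈ F, -Real.log (ω o)) ≤ h * ∑ F ∈ G, Wf ν F →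
      ∑ F ∈ G, Wf ν F * ∑ v ∈ inn F, av r (fun o => ν o.set * ω o) F v ≤
        D * (1 - lam r) ^ (r - 2) * (1 + s) * ((∑ F ∈ G, Wf ν F) * ((r - 2 : ℕ) * m₁)) →
      Real.log (∑ F ∈ G, Wf ν F) ≤ g + h +
        m₁ * (Real.log D + (r - 2) * Real.log (1 - lam r) + Real.log (1 + s) - (r - 1)) +
        κ₁ * n := by
  obtain ⟨ε₁, hε, hR⟩ := riemann r hr κ₁ hκ
  have hr3 : (3 : ℝ) ≤ r := by exact_mod_cast hr
  have hr0 : (0 : ℝ) < r := by linarith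
  obtain ⟨c, hc⟩ : ∃ c : ℝ, c = ε₁ / (3 * 2 ^ (r - 1)) := ⟨_, rfl⟩
  have hc0 : 0 < c := by rw [hc]; positivity
  refine ⟨c / (2 * r ^ 5), 1 / c, by positivity,
    8 * r ^ 2 + ⌈16 * (r : ℝ) ^ 5 * K / c⌉₊ + 1, ?_⟩
  intro n hn D hD ν hν hdeg hco m₁ h1 h2 G hG ω hω Q1 hQ hQ1 hQp hΨ g h s hs0 hs1 hg hh ha
  obtain ⟨η, hη⟩ : ∃ η : ℝ, η = c / (2 * r ^ 5) := ⟨_, rfl⟩
  rw [← hη] at hco
  have hη0 : 0 < η := by rw [hη]; positivity
  have hD0 : 0 < D := lt_of_lt_of_le (by positivity) hD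
  have hcD : 1 ≤ c * D := by
    rw [div_le_iff₀ hc0] at hD
    linarith
  have hn0 : (0 : ℝ) < n := by
    have : 0 < n := by omega
    exact_mod_cast this
  have hnK : 16 * (r : ℝ) ^ 5 * K ≤ c * n := by
    have h3 : ⌈16 * (r : ℝ) ^ 5 * K / c⌉₊ ≤ n := by omega
    have h4 := (Nat.le_ceil (16 * (r : ℝ) ^ 5 * K / c)).trans (Nat.cast_le.2 h3)
    rw [div_le_iff₀ hc0] at h4
    linarith
  have hr2 : ((r - 2 : ℕ) : ℝ) = (r : ℝ) - 2 := by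
    rw [Nat.cast_sub (by omega)]
    norm_num
  have hr1 : ((r - 1 : ℕ) : ℝ) = (r : ℝ) - 1 := by
    rw [Nat.cast_sub (by omega)]
    norm_num
  -- the number of edges
  have h1' : ((r : ℝ) - 1) * m₁ ≤ n := by
    rw [← hr1]
    exact_mod_cast h1
  have h2' : (n : ℝ) ≤ ((r : ℝ) - 1) * m₁ + 4 * r ^ 2 := by
    rw [← hr1]
    exact_mod_cast h2
  have hn8 : 8 * (r : ℝ) ^ 2 ≤ n := by
    have : 8 * r ^ 2 ≤ n := by omega
    exact_mod_cast this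
  have hm0 : (0 : ℝ) < m₁ := by
    have h3 : (0 : ℝ) < ((r : ℝ) - 1) * m₁ := by linarith [pow_pos hr0 2]
    exact pos_of_mul_pos_right h3 (by linarith)
  have hm1 : 0 < m₁ := by exact_mod_cast hm0
  have hmn : (n : ℝ) ≤ 2 * r * (((r : ℝ) - 2) * m₁) := by
    have h3 : (n : ℝ) ≤ 2 * r * m₁ := by linarith
    have h4 : (m₁ : ℝ) ≤ ((r : ℝ) - 2) * m₁ := le_mul_of_one_le_left hm0.le (by linarith)
    exact h3.trans (mul_le_mul_of_nonneg_left h4 (by linarith))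
  -- the constants
  have hlam : lam r ≤ 1 / 2 := by
    unfold lam
    exact one_div_le_one_div_of_le (by norm_num) (by linarith)
  have hl1 : 1 / 2 ≤ 1 - lam r := by linarith
  have hl0 : 0 < 1 - lam r := by linarith
  obtain ⟨a', ha'⟩ : ∃ a' : ℝ, a' = D * (1 - lam r) ^ (r - 2) * (1 + s) := ⟨_, rfl⟩
  rw [← ha'] at ha
  have hs : 0 < 1 + s := by linarith
  have ha0 : 0 < a' := by
    rw [ha']
    exact mul_pos (mul_pos hD0 (pow_pos hl0 _)) hs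
  have hεa : 3 * (c * D) ≤ ε₁ * a' := by
    have h3 : (1 / 2 : ℝ) ^ (r - 2) ≤ (1 - lam r) ^ (r - 2) :=
      pow_le_pow_left₀ (by norm_num) hl1 _
    have h4 : D * (1 / 2 : ℝ) ^ (r - 2) * (1 / 2) ≤ a' := by
      rw [ha']
      exact mul_le_mul (mul_le_mul_of_nonneg_left h3 hD0.le) (by linarith) (by norm_num)
        (mul_nonneg hD0.le (pow_nonneg hl0.le _))
    have h5 : 3 * (c * D) = ε₁ * (D * (1 / 2 : ℝ) ^ (r - 2) * (1 / 2)) := by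
      have h6 : r - 1 = (r - 2) + 1 := by omega
      rw [hc, h6, pow_succ, one_div, inv_pow]
      field_simp
    rw [h5]
    exact mul_le_mul_of_nonneg_left h4 hε.le
  obtain ⟨b, hb⟩ : ∃ b : ℝ, b = 1 + (8 * r ^ 4 * K * D + r ^ 4 * n * η * D) /
    (((r : ℝ) - 2) * m₁) := ⟨_, rfl⟩
  have hW0 : 0 < ((r : ℝ) - 2) * m₁ := mul_pos (by linarith) hm0
  have hb1 : 1 ≤ b := by
    rw [hb]
    have : 0 ≤ (8 * (r : ℝ) ^ 4 * K * D + r ^ 4 * n * η * D) / (((r : ℝ) - 2) * m₁) := by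
      positivity
    linarith
  have hbW : b * (((r : ℝ) - 2) * m₁) = ((r : ℝ) - 2) * m₁ +
      (8 * r ^ 4 * K * D + r ^ 4 * n * η * D) := by
    rw [hb, add_mul, one_mul, div_mul_cancel₀ _ hW0.ne']
  have hbε : b ≤ ε₁ * a' := by
    refine le_trans ?_ hεa
    have h3 : (8 * (r : ℝ) ^ 4 * K * D + r ^ 4 * n * η * D) / (((r : ℝ) - 2) * m₁) ≤
        2 * (c * D) := by
      rw [div_le_iff₀ hW0]
      have h4 : r ^ 4 * (n : ℝ) * η * D ≤ c * D * (((r : ℝ) - 2) * m₁) := by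
        have h5 : (2 * (r : ℝ) ^ 5) * η = c := by
          rw [hη]
          field_simp
        calc (r : ℝ) ^ 4 * n * η * D = (r ^ 4 * η * D) * n := by ring
          _ ≤ (r ^ 4 * η * D) * (2 * r * (((r : ℝ) - 2) * m₁)) :=
            mul_le_mul_of_nonneg_left hmn (by positivity)
          _ = ((2 * (r : ℝ) ^ 5) * η) * D * (((r : ℝ) - 2) * m₁) := by ring
          _ = _ := by rw [h5]
      have h7 : 8 * (r : ℝ) ^ 4 * K * D ≤ c * D * (((r : ℝ) - 2) * m₁) := by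
        have h8 : 8 * (r : ℝ) ^ 4 * K * (2 * r) ≤ c * (((r : ℝ) - 2) * m₁) * (2 * r) := by
          have h9 := mul_le_mul_of_nonneg_left hmn hc0.le
          calc 8 * (r : ℝ) ^ 4 * K * (2 * r) = 16 * (r : ℝ) ^ 5 * K := by ring
            _ ≤ c * (2 * r * (((r : ℝ) - 2) * m₁)) := hnK.trans h9
            _ = _ := by ring
        have h9 : 8 * (r : ℝ) ^ 4 * K ≤ c * (((r : ℝ) - 2) * m₁) :=
          le_of_mul_le_mul_right h8 (by linarith)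
        calc 8 * (r : ℝ) ^ 4 * K * D ≤ c * (((r : ℝ) - 2) * m₁) * D :=
              mul_le_mul_of_nonneg_right h9 hD0.le
          _ = _ := by ring
      linarith
    rw [hb]
    linarith
  obtain ⟨L₀, hL₀⟩ := hR a' b hb1 hbε
  have hRL := hL₀ (L₀ + 1) (Nat.le_succ _) (Nat.succ_pos _)
  obtain ⟨Ψ, hΨd⟩ : ∃ Ψ : ℝ, Ψ = ∑ F ∈ G, Wf ν F := ⟨_, rfl⟩
  have hWf : ∀ F, 0 ≤ Wf ν F := fun F => Finset.prod_nonneg fun o _ => hν o.set
  have hbM : ∑ F ∈ G, Wf ν F * ∑ v ∈ inn F, (1 + xv r (fun o => ν o.set * ω o) F v) ≤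
      b * ((∑ F ∈ G, Wf ν F) * ((r - 2 : ℕ) * m₁)) := by
    have h3 : ∀ F ∈ G, Wf ν F * ∑ v ∈ inn F, (1 + xv r (fun o => ν o.set * ω o) F v) ≤
        Wf ν F * (b * (((r : ℝ) - 2) * m₁)) := by
      intro F hF
      refine mul_le_mul_of_nonneg_left ?_ (hWf F)
      have h4 := exc_bound r hr K η D (by linarith) hη0.le hD0.le ν hν hdeg hco
        (fun o => ν o.set * ω o) (fun o => mul_nonneg (hν _) (hω o).1.le)
        (fun o => mul_le_of_le_one_right (hν _) (hω o).2) m₁ F (hG F hF).1 (hG F hF).2 h1 h2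
      rw [Finset.sum_add_distrib, hbW, Finset.sum_const, A11_card r F (hG F hF).1,
        (hG F hF).2, nsmul_eq_mul, mul_one, Nat.cast_mul, hr2]
      linarith
    refine (Finset.sum_le_sum h3).trans (le_of_eq ?_)
    rw [← Finset.sum_mul, hr2]
    ring
  have hM := master2 r hr (L₀ + 1) (Nat.succ_pos _) ν hν ω hω Q1 hQ hQ1 m₁ hm1 G hG hQp hΨ b a'
    ha0.le hbM ha
  rw [← hΨd] at hM hg hh hΨ ⊢
  have h3 : Ψ * Real.log Ψ ≤ Ψ * (g + h + (((r : ℝ) - 2) * m₁) *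
      (Real.log a' / ((r : ℝ) - 2) - ((r : ℝ) - 1) / ((r : ℝ) - 2) + κ₁)) := by
    rw [hr2] at hM
    have h4 := mul_le_mul_of_nonneg_left (mul_le_mul_of_nonneg_left hRL hW0.le) hΨ.le
    linarith
  have h4 := le_of_mul_le_mul_left h3 hΨ
  have h5 : (((r : ℝ) - 2) * m₁) *
      (Real.log a' / ((r : ℝ) - 2) - ((r : ℝ) - 1) / ((r : ℝ) - 2) + κ₁) =
      m₁ * (Real.log a' - ((r : ℝ) - 1)) + (((r : ℝ) - 2) * m₁) * κ₁ := by
    have : (r : ℝ) - 2 ≠ 0 := by linarith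
    field_simp
  have h6 : Real.log a' = Real.log D + ((r : ℝ) - 2) * Real.log (1 - lam r) +
      Real.log (1 + s) := by
    rw [ha', Real.log_mul (mul_pos hD0 (pow_pos hl0 _)).ne' hs.ne',
      Real.log_mul hD0.ne' (pow_pos hl0 _).ne', Real.log_pow, hr2]
  have h7 : (((r : ℝ) - 2) * m₁) * κ₁ ≤ κ₁ * n := by
    have h8 : ((r : ℝ) - 2) * m₁ ≤ n := by linarith
    have h9 := mul_le_mul_of_nonneg_right h8 hκ.le
    linarith
  rw [h5, h6] at h4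
  linarith

end Pool.Agent.LHam
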