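import Pool.Agent.LHam.A6Exc

set_option autoImplicit false

/-! A12. Computations for Lemma E. -/

namespace Pool.Agent.LHam

open Finset

private theorem card_inn_aux {n : ℕ} (r : ℕ) (m₁ : ℕ) (F : Finset (OE n)) (hF : IsSys r F)
    (hm : F.card = m₁) : (inn F).card = (r - 2) * m₁ := by
  unfold inn
  rw [Finset.card_biUnion fun o ho o' ho' hne => hF.dis o ho o' ho' hne,
    Finset.sum_congr rfl fun o ho => (hF.ok o ho).1, Finset.sum_const, hm, smul_eq_mul, mul_comm]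

private theorem lam_aux (r : ℕ) (hr : 3 ≤ r) : 0 < lam r ∧ 0 < 1 - lam r := by
  have h3 : (3 : ℝ) ≤ r := by exact_mod_cast hr
  have h1 : (0 : ℝ) < (r : ℝ) - 1 := by linarith
  refine ⟨by unfold lam; positivity, ?_⟩
  have h2 : lam r < 1 := by
    unfold lam
    rw [div_lt_one h1]
    linarith
  linarith

/-- The Bernoulli weight of `inn F` (`|inn F| = (r - 2) m₁`). -/
theorem bern_inn {n : ℕ} (r : ℕ) (hr : 3 ≤ r) (m₁ : ℕ) (h1 : (r - 1) * m₁ ≤ n)
    (F : Finset (OE n)) (hF : IsSys r F) (hm : F.card = m₁) :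
    -Real.log (Bern r (inn F)) = ((r : ℝ) - 2) * m₁ * Real.log (1 / (1 - lam r)) +
      (n - ((r : ℝ) - 2) * m₁) * Real.log (1 / lam r) := by
  have hc := card_inn_aux r m₁ F hF hm
  have hle : (r - 2) * m₁ ≤ n := (Nat.mul_le_mul_right m₁ (by omega)).trans h1
  obtain ⟨hl0, hl1⟩ := lam_aux r hr
  have h2 : ((r - 2 : ℕ) : ℝ) = (r : ℝ) - 2 := by
    rw [Nat.cast_sub (by omega)]
    norm_num
  unfold Bern
  rw [hc, Real.log_mul (pow_ne_zero _ hl1.ne') (pow_ne_zero _ hl0.ne'), Real.log_pow,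
    Real.log_pow, one_div, one_div, Real.log_inv, Real.log_inv, Nat.cast_sub hle,
    Nat.cast_mul, h2]
  ring

open Classical in
/-- The admissible weight of a system (`adm_weight` and quasirandomness for the complement `Λ` of
`inn F`: `(r - 1) |Λ| = n + (r - 2) (n - (r - 1) m₁)`). -/
theorem av_bound {n : ℕ} (r : ℕ) (hr : 3 ≤ r) (K η D : ℝ) (ν : Finset (Fin n) → ℝ)
    (hreg : Reg r n K η D ν) (m₁ : ℕ) (h1 : (r - 1) * m₁ ≤ n)
    (h2 : n ≤ (r - 1) * m₁ + 4 * r ^ 2) (S F : Finset (OE n)) (hF : IsSys r F)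
    (hm : F.card = m₁) :
    ∑ v ∈ inn F, av r (fun o => ν o.set * if o ∈ S then 1 / 2 else 1) F v ≤
      ((r : ℝ) - 2) * (2 * ((beta r + η) * (n * D / r)) -
        (1 / 2) * ∑ o ∈ S.filter (fun o => Adm r (inn F) o), ν o.set) := by
  have hc := card_inn_aux r m₁ F hF hm
  have hle : (r - 2) * m₁ ≤ n := (Nat.mul_le_mul_right m₁ (by omega)).trans h1
  have hL : (univ \ inn F).card = n - (r - 2) * m₁ := by
    rw [← compl_eq_univ_sdiff, card_compl, hc, Fintype.card_fin]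
  obtain ⟨t, rfl⟩ : ∃ t, r = t + 3 := ⟨r - 3, by omega⟩
  have e1 : t + 3 - 1 = t + 2 := by omega
  have e2 : t + 3 - 2 = t + 1 := by omega
  rw [e1] at h1 h2
  rw [e2] at hle hL
  obtain ⟨c, hcn⟩ : ∃ c, n = (t + 2) * m₁ + c := ⟨n - (t + 2) * m₁, by omega⟩
  have hL' : (univ \ inn F).card = m₁ + c := by
    rw [hL]
    have : (t + 2) * m₁ = (t + 1) * m₁ + m₁ := by ring
    omega
  have hq := hreg.quasi (univ \ inn F) (by
    rw [hL', e1, hcn]
    nlinarith [Nat.zero_le (t * c)]) (by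
    rw [hL', e1]
    have hc2 : c ≤ 4 * (t + 3) ^ 2 := by omega
    have h5 : (t + 2) * (m₁ + c) = n + (t + 1) * c := by rw [hcn]; ring
    rw [h5]
    have h6 : (t + 1) * c ≤ (t + 3) * (4 * (t + 3) ^ 2) := Nat.mul_le_mul (by omega) hc2
    have h7 : (t + 3) * (4 * (t + 3) ^ 2) = 4 * (t + 3) ^ 3 := by ring
    omega)
  rw [adm_weight (t + 3) hr ν S F hF]
  have h3 : ((t + 3 - 2 : ℕ) : ℝ) = ((t + 3 : ℕ) : ℝ) - 2 := by
    rw [Nat.cast_sub (by omega)]
    norm_num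
  rw [h3]
  refine mul_le_mul_of_nonneg_left ?_ ?_
  · linarith
  · push_cast
    have : (0 : ℝ) ≤ t := Nat.cast_nonneg t
    linarith

/-- The numerical identity behind the tightness: `lam r = 1 / (r - 1)`, so
`log (1 / λ) = log (r - 1)`, the terms with `1 - λ` cancel,
`(n - (r - 2) m₁) log (r - 1) = m₁ log (r - 1) + (n - (r - 1) m₁) log (r - 1)`, and
`m₁ (log ((r - 1) D) - (r - 1)) ≤ (n / (r - 1)) (log ((r - 1) D) - (r - 1))` since the bracket is `≥ 0`. -/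
theorem lemE_num (r n m₁ : ℕ) (hr : 3 ≤ r) (D : ℝ) (hD : 0 < D)
    (hD' : (r : ℝ) - 1 ≤ Real.log ((r - 1) * D)) (h1 : (r - 1) * m₁ ≤ n)
    (h2 : n ≤ (r - 1) * m₁ + 4 * r ^ 2) :
    ((r : ℝ) - 2) * m₁ * Real.log (1 / (1 - lam r)) +
      (n - ((r : ℝ) - 2) * m₁) * Real.log (1 / lam r) +
      m₁ * (Real.log D + (r - 2) * Real.log (1 - lam r) - (r - 1)) ≤
      (n : ℝ) / (r - 1) * (Real.log ((r - 1) * D) - (r - 1)) + 4 * r ^ 2 * Real.log (r - 1) := by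
  have h3 : (3 : ℝ) ≤ r := by exact_mod_cast hr
  have hs : (0 : ℝ) < (r : ℝ) - 1 := by linarith
  have hlog : 0 ≤ Real.log ((r : ℝ) - 1) := Real.log_nonneg (by linarith)
  have hinv : (1 : ℝ) / lam r = r - 1 := by
    unfold lam
    rw [one_div_one_div]
  have hc : Real.log (1 / (1 - lam r)) = -Real.log (1 - lam r) := by
    rw [one_div, Real.log_inv]
  have hmul : Real.log ((r - 1) * D) = Real.log (r - 1) + Real.log D :=
    Real.log_mul hs.ne' hD.ne'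
  have hr1 : ((r - 1 : ℕ) : ℝ) = (r : ℝ) - 1 := by
    rw [Nat.cast_sub (by omega)]
    norm_num
  have h1' : ((r : ℝ) - 1) * m₁ ≤ n := by
    rw [← hr1]
    exact_mod_cast h1
  have h2' : (n : ℝ) ≤ ((r : ℝ) - 1) * m₁ + 4 * r ^ 2 := by
    rw [← hr1]
    exact_mod_cast h2
  have hm : (m₁ : ℝ) ≤ n / (r - 1) := by
    rw [le_div_iff₀ hs]
    linarith
  rw [hinv, hc]
  rw [hmul] at hD' ⊢
  have hB : 0 ≤ Real.log ((r : ℝ) - 1) + Real.log D - (r - 1) := by linarith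
  have h4 := mul_le_mul_of_nonneg_right hm hB
  have h5 : (n - ((r : ℝ) - 1) * m₁) * Real.log ((r : ℝ) - 1) ≤
      4 * r ^ 2 * Real.log (r - 1) := mul_le_mul_of_nonneg_right (by linarith) hlog
  nlinarith [h4, h5]

/-- The main term of the admissible weight (an identity). Proof: `2 β = r (r - 1) p₀`,
`(r - 1)^2 p₀ = (1 - λ)^(r - 2)` (`λ (r - 1) = 1`), `p₀ ≠ 0`, `m₁ ≠ 0`, `field_simp`, `ring`. -/
theorem main_weight (r n m₁ : ℕ) (hr : 3 ≤ r) (hm : 0 < m₁) (D η x : ℝ) :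
    2 * ((beta r + η) * (n * D / r)) - x * (n * D / r) =
      D * (1 - lam r) ^ (r - 2) * ((n : ℝ) / ((r - 1) * m₁) *
        (1 + (2 * η - x) / (r * (r - 1) * p0 r))) * m₁ := by
  have h3 : (3 : ℝ) ≤ r := by exact_mod_cast hr
  have hs : (r : ℝ) - 1 ≠ 0 := by
    have : (0 : ℝ) < (r : ℝ) - 1 := by linarith
    exact this.ne'
  have hr0 : (r : ℝ) ≠ 0 := by
    have : (0 : ℝ) < (r : ℝ) := by linarith
    exact this.ne'
  have hm0 : (m₁ : ℝ) ≠ 0 := by exact_mod_cast hm.ne'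
  obtain ⟨hl0, hl1⟩ := lam_aux r hr
  have hq : (1 - lam r) ^ (r - 2) ≠ 0 := pow_ne_zero _ hl1.ne'
  have hp : p0 r = (1 - lam r) ^ (r - 2) / ((r : ℝ) - 1) ^ 2 := by
    unfold p0
    have : lam r ^ 2 = 1 / ((r : ℝ) - 1) ^ 2 := by
      unfold lam
      rw [one_div_pow]
    rw [this]
    ring
  unfold beta
  rw [hp]
  generalize (1 - lam r) ^ (r - 2) = q at hq
  field_simp
  ring

end Pool.Agent.LHam
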