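import Pool.Agent.LHam.SysDefs

set_option autoImplicit false

/-! A9. Bernoulli weights and their tilts on disjoint edges. -/

namespace Pool.Agent.LHam

open Finset

variable {n : ℕ}

private theorem lam_bounds (r : ℕ) (hr : 3 ≤ r) : 0 < lam r ∧ lam r < 1 := by
  have h1 : (3 : ℝ) ≤ r := by exact_mod_cast hr
  unfold lam
  refine ⟨by apply one_div_pos.2; linarith, ?_⟩
  rw [div_lt_one (by linarith)]
  linarith

/-- The Bernoulli weights are a probability (`Finset.sum_pow_mul_eq_add_pow` or `Fintype` version). -/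
theorem bern_sum (r : ℕ) (hr : 3 ≤ r) : ∑ A : Finset (Fin n), Bern r A = 1 := by
  have h := Fintype.sum_pow_mul_eq_add_pow (Fin n) (1 - lam r) (lam r)
  rw [sub_add_cancel, one_pow, Fintype.card_fin] at h
  exact h

theorem bern_pos (r : ℕ) (hr : 3 ≤ r) (A : Finset (Fin n)) : 0 < Bern r A := by
  obtain ⟨h1, h2⟩ := lam_bounds r hr
  exact mul_pos (pow_pos (by linarith) _) (pow_pos h1 _)

open Classical in
/-- The tilting factor of one edge. -/
noncomputable def tilt (r : ℕ) (o : OE n) (A : Finset (Fin n)) : ℝ :=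
  if Adm r A o then 3 / 4 else (1 - 3 / 4 * p0 r) / (1 - p0 r)

private theorem p0_bounds' (r : ℕ) (hr : 3 ≤ r) : 0 < p0 r ∧ p0 r < 1 := by
  obtain ⟨h1, h2⟩ := lam_bounds r hr
  have h3 : 0 < (1 - lam r) ^ (r - 2) := pow_pos (by linarith) _
  refine ⟨mul_pos (pow_pos h1 _) h3, ?_⟩
  have h4 : (1 - lam r) ^ (r - 2) ≤ 1 := pow_le_one₀ (by linarith) (by linarith)
  have h5 : lam r ^ 2 < 1 := by nlinarith
  calc p0 r = lam r ^ 2 * (1 - lam r) ^ (r - 2) := rfl
    _ ≤ lam r ^ 2 * 1 := mul_le_mul_of_nonneg_left h4 (by positivity)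
    _ < 1 := by linarith

private theorem set_card {r : ℕ} (hr : 3 ≤ r) {o : OE n} (ho : o.Ok r) : o.set.card = r := by
  obtain ⟨h1, h2, h3, h4⟩ := ho
  unfold OE.set
  rw [card_insert_of_notMem, card_insert_of_notMem h4, h1]
  · omega
  · rw [mem_insert, not_or]
    exact ⟨h2, h3⟩

/-- Sum over all sets by their parts in `T` and outside of `T`. -/
private theorem sum_split (T : Finset (Fin n)) (F : Finset (Fin n) → ℝ) :
    ∑ A : Finset (Fin n), F A = ∑ A₂ ∈ (univ \ T).powerset, ∑ A₁ ∈ T.powerset, F (A₁ ∪ A₂) := by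
  rw [sum_comm, ← sum_product']
  symm
  refine sum_nbij' (fun p => p.1 ∪ p.2) (fun A => (A ∩ T, A \ T)) ?_ ?_ ?_ ?_ ?_
  · intro p _
    exact mem_univ _
  · intro A _
    rw [mem_product, mem_powerset, mem_powerset]
    exact ⟨inter_subset_right, sdiff_subset_sdiff (subset_univ _) (Finset.Subset.refl _)⟩
  · intro p hp
    rw [mem_product, mem_powerset, mem_powerset] at hp
    obtain ⟨h1, h2⟩ := hp
    refine Prod.ext ?_ ?_
    · ext v
      have := @h2 v
      have := @h1 v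
      simp only [mem_sdiff, mem_univ, true_and] at this ⊢
      simp only [mem_inter, mem_union]
      have h3 := @h2 v
      simp only [mem_sdiff, mem_univ, true_and] at h3
      tauto
    · ext v
      have h4 := @h1 v
      have h3 := @h2 v
      simp only [mem_sdiff, mem_univ, true_and] at h3
      simp only [mem_sdiff, mem_union]
      tauto
  · intro A _
    ext v
    simp only [mem_sdiff, mem_union, mem_inter]
    tauto
  · intro p _
    rfl

/-- The Bernoulli weights are multiplicative. -/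
private theorem bern_mul (r : ℕ) {T A₁ A₂ : Finset (Fin n)} (h1 : A₁ ⊆ T) (h2 : A₂ ⊆ univ \ T) :
    Bern r (A₁ ∪ A₂) = ((1 - lam r) ^ A₁.card * lam r ^ (T.card - A₁.card)) *
      ((1 - lam r) ^ A₂.card * lam r ^ (n - T.card - A₂.card)) := by
  have hd : Disjoint A₁ A₂ := by
    rw [Finset.disjoint_left]
    intro v hv hv2
    exact (mem_sdiff.1 (h2 hv2)).2 (h1 hv)
  have e1 := card_union_of_disjoint hd
  have e2 := card_le_card h1
  have e3 := card_le_card h2
  have e4 : (univ \ T).card = n - T.card := by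
    rw [card_sdiff_of_subset (subset_univ _), card_univ, Fintype.card_fin]
  have e5 : T.card ≤ n := by
    have := card_le_univ T
    rwa [Fintype.card_fin] at this
  unfold Bern
  rw [e1]
  have e6 : n - (A₁.card + A₂.card) = (T.card - A₁.card) + (n - T.card - A₂.card) := by omega
  rw [e6, pow_add, pow_add]
  ring

private theorem adm_iff {r : ℕ} {o : OE n} (ho : o.Ok r) {A₁ A₂ : Finset (Fin n)}
    (h1 : A₁ ⊆ o.set) (h2 : A₂ ⊆ univ \ o.set) : Adm r (A₁ ∪ A₂) o ↔ A₁ = o.J := by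
  obtain ⟨ho1, ho2, ho3, ho4⟩ := ho
  have hx : o.x ∈ o.set := mem_insert_self _ _
  have hy : o.y ∈ o.set := mem_insert_of_mem (mem_insert_self _ _)
  have hJ : ∀ v ∈ o.J, v ∈ o.set := fun v hv => mem_insert_of_mem (mem_insert_of_mem hv)
  have hout : ∀ v ∈ o.set, v ∉ A₂ := fun v hv hv2 => (mem_sdiff.1 (h2 hv2)).2 hv
  constructor
  · rintro ⟨-, h3, h4, h5⟩
    rw [mem_union, not_or] at h4 h5
    ext v
    constructor
    · intro hv
      have h6 := h1 hv
      rw [OE.set, mem_insert, mem_insert] at h6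
      rcases h6 with rfl | rfl | h6
      · exact absurd hv h4.1
      · exact absurd hv h5.1
      · exact h6
    · intro hv
      rcases mem_union.1 (h3 hv) with h6 | h6
      · exact h6
      · exact absurd h6 (hout v (hJ v hv))
  · rintro rfl
    refine ⟨⟨ho1, ho2, ho3, ho4⟩, subset_union_left, ?_, ?_⟩
    · rw [mem_union, not_or]
      exact ⟨ho3, hout _ hx⟩
    · rw [mem_union, not_or]
      exact ⟨ho4, hout _ hy⟩

/-- One step. -/
private theorem tilt_step (r : ℕ) (hr : 3 ≤ r) {o : OE n} (ho : o.Ok r)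
    (g : Finset (Fin n) → ℝ) (hg : ∀ A, g (A \ o.set) = g A) :
    ∑ A : Finset (Fin n), Bern r A * (tilt r o A * g A) =
      ∑ A : Finset (Fin n), Bern r A * g A := by
  obtain ⟨hp1, hp2⟩ := p0_bounds' r hr
  rw [sum_split o.set, sum_split o.set]
  refine sum_congr rfl fun A₂ hA₂ => ?_
  rw [mem_powerset] at hA₂
  have hgA : ∀ A₁ ∈ o.set.powerset, g (A₁ ∪ A₂) = g A₂ := by
    intro A₁ hA₁
    rw [mem_powerset] at hA₁
    rw [← hg (A₁ ∪ A₂), ← hg A₂]
    congr 1
    ext v
    have h3 := @hA₁ v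
    simp only [mem_sdiff, mem_union]
    tauto
  have hcard := set_card hr ho
  have hw : ∑ A₁ ∈ o.set.powerset, (1 - lam r) ^ A₁.card * lam r ^ (o.set.card - A₁.card) = 1 := by
    rw [Finset.sum_pow_mul_eq_add_pow, sub_add_cancel, one_pow]
  have hJ : o.J ∈ o.set.powerset := by
    rw [mem_powerset]
    exact fun v hv => mem_insert_of_mem (mem_insert_of_mem hv)
  have ht : ∑ A₁ ∈ o.set.powerset, (1 - lam r) ^ A₁.card * lam r ^ (o.set.card - A₁.card) *
      tilt r o (A₁ ∪ A₂) = 1 := by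
    have h1 : ∀ A₁ ∈ o.set.powerset, (1 - lam r) ^ A₁.card * lam r ^ (o.set.card - A₁.card) *
        tilt r o (A₁ ∪ A₂) =
        (1 - lam r) ^ A₁.card * lam r ^ (o.set.card - A₁.card) *
          ((1 - 3 / 4 * p0 r) / (1 - p0 r)) +
        if A₁ = o.J then p0 r * (3 / 4 - (1 - 3 / 4 * p0 r) / (1 - p0 r)) else 0 := by
      intro A₁ hA₁
      rw [mem_powerset] at hA₁
      unfold tilt
      simp only [adm_iff ho hA₁ hA₂]
      split_ifs with h
      · subst h
        rw [hcard, ho.1]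
        have h2 : r - (r - 2) = 2 := by omega
        rw [h2]
        unfold p0
        ring
      · ring
    rw [sum_congr rfl h1, sum_add_distrib, ← sum_mul, hw, sum_ite_eq' _ _ _, if_pos hJ]
    have h3 : 1 - p0 r ≠ 0 := by linarith
    field_simp
    ring
  have e1 : ∀ A₁ ∈ o.set.powerset, Bern r (A₁ ∪ A₂) * (tilt r o (A₁ ∪ A₂) * g (A₁ ∪ A₂)) =
      ((1 - lam r) ^ A₁.card * lam r ^ (o.set.card - A₁.card) * tilt r o (A₁ ∪ A₂)) *
      (((1 - lam r) ^ A₂.card * lam r ^ (n - o.set.card - A₂.card)) * g A₂) := by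
    intro A₁ hA₁
    rw [hgA A₁ hA₁, bern_mul r (mem_powerset.1 hA₁) hA₂]
    ring
  have e2 : ∀ A₁ ∈ o.set.powerset, Bern r (A₁ ∪ A₂) * g (A₁ ∪ A₂) =
      ((1 - lam r) ^ A₁.card * lam r ^ (o.set.card - A₁.card)) *
      (((1 - lam r) ^ A₂.card * lam r ^ (n - o.set.card - A₂.card)) * g A₂) := by
    intro A₁ hA₁
    rw [hgA A₁ hA₁, bern_mul r (mem_powerset.1 hA₁) hA₂]
    ring
  rw [sum_congr rfl e1, sum_congr rfl e2, ← sum_mul, ← sum_mul, ht, hw]

private theorem tilt_sdiff {r : ℕ} {o o' : OE n} (h : Disjoint o.set o'.set)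
    (A : Finset (Fin n)) : tilt r o' (A \ o.set) = tilt r o' A := by
  have h1 : Adm r (A \ o.set) o' ↔ Adm r A o' := by
    have h2 : ∀ v ∈ o'.set, v ∉ o.set := fun v hv hv2 => Finset.disjoint_left.1 h hv2 hv
    have hx : o'.x ∈ o'.set := mem_insert_self _ _
    have hy : o'.y ∈ o'.set := mem_insert_of_mem (mem_insert_self _ _)
    have hJ : ∀ v ∈ o'.J, v ∈ o'.set := fun v hv => mem_insert_of_mem (mem_insert_of_mem hv)
    unfold Adm
    constructor
    · rintro ⟨h3, h4, h5, h6⟩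
      refine ⟨h3, h4.trans sdiff_subset, fun h7 => h5 ?_, fun h7 => h6 ?_⟩
      · exact mem_sdiff.2 ⟨h7, h2 _ hx⟩
      · exact mem_sdiff.2 ⟨h7, h2 _ hy⟩
    · rintro ⟨h3, h4, h5, h6⟩
      refine ⟨h3, fun v hv => mem_sdiff.2 ⟨h4 hv, h2 _ (hJ v hv)⟩, fun h7 => h5 ?_,
        fun h7 => h6 ?_⟩
      · exact (mem_sdiff.1 h7).1
      · exact (mem_sdiff.1 h7).1
  unfold tilt
  by_cases h : Adm r A o'
  · rw [if_pos (h1.2 h), if_pos h]
  · rw [if_neg fun h3 => h (h1.1 h3), if_neg h]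

private theorem tilt_gen (r : ℕ) (hr : 3 ≤ r) (S : Finset (OE n)) :
    (∀ o ∈ S, o.Ok r) → (∀ o ∈ S, ∀ o' ∈ S, o ≠ o' → Disjoint o.set o'.set) →
    ∀ f : Finset (Fin n) → ℝ, (∀ A, f (A \ S.biUnion OE.set) = f A) →
    ∑ A : Finset (Fin n), Bern r A * ((∏ o ∈ S, tilt r o A) * f A) =
      ∑ A : Finset (Fin n), Bern r A * f A := by
  classical
  induction S using Finset.induction_on with
  | empty =>
    intro _ _ f _
    simp
  | insert o S hoS ih =>
    intro hok hdis f hf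
    have h1 : ∀ A, (∏ o ∈ insert o S, tilt r o A) * f A =
        tilt r o A * ((∏ o ∈ S, tilt r o A) * f A) := by
      intro A
      rw [prod_insert hoS]
      ring
    simp_rw [h1]
    rw [tilt_step r hr (hok o (mem_insert_self _ _)) (fun A => (∏ o ∈ S, tilt r o A) * f A)]
    · refine ih (fun o' h => hok o' (mem_insert_of_mem h))
        (fun o₁ h₁ o₂ h₂ h => hdis o₁ (mem_insert_of_mem h₁) o₂ (mem_insert_of_mem h₂) h) f ?_
      intro A
      rw [← hf (A \ S.biUnion OE.set), ← hf A]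
      congr 1
      rw [biUnion_insert]
      ext v
      simp only [mem_sdiff, mem_union]
      tauto
    · intro A
      have h2 : ∏ o' ∈ S, tilt r o' (A \ o.set) = ∏ o' ∈ S, tilt r o' A := by
        refine prod_congr rfl fun o' ho' => ?_
        refine tilt_sdiff (hdis o (mem_insert_self _ _) o' (mem_insert_of_mem ho') ?_) A
        rintro rfl
        exact hoS ho'
      have h3 : f (A \ o.set) = f A := by
        rw [← hf (A \ o.set), ← hf A]
        congr 1
        rw [biUnion_insert]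
        ext v
        simp only [mem_sdiff, mem_union]
        tauto
      change (∏ o' ∈ S, tilt r o' (A \ o.set)) * f (A \ o.set) = _
      rw [h2, h3]

/-- **Tilted Bernoulli weights.** Under the Bernoulli weights the events `Adm r A o`, `o ∈ S`, with
pairwise disjoint `o.set` are independent of probability `p₀ = λ² (1 - λ)^(r-2)`, and
`p₀ * (3 / 4) + (1 - p₀) * (1 - 3 / 4 p₀) / (1 - p₀) = 1`.

Proof. Induction over `S` (`Finset.induction_on`), for the more general statement with a factor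
`f A` depending only on `A \ (⋃ o ∈ S, o.set)`, or: write every `A` as `A₁ ∪ A₂`, `A₁ = A ∩ o.set`,
`A₂ = A \ o.set` (`Bern r A = (1-λ)^|A₁| λ^(r-|A₁|) * (1-λ)^|A₂| λ^(n-r-|A₂|)`), for fixed `A₂` the sum over
`A₁ ⊆ o.set` of the Bernoulli weight times `tilt` is `1` (`Adm r A o ↔ A₁ = o.J`). -/
theorem tilt_sum (r : ℕ) (hr : 3 ≤ r) (S : Finset (OE n)) (hok : ∀ o ∈ S, o.Ok r)
    (hdis : ∀ o ∈ S, ∀ o' ∈ S, o ≠ o' → Disjoint o.set o'.set) :
    ∑ A : Finset (Fin n), Bern r A * ∏ o ∈ S, tilt r o A = 1 := by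
  have h := tilt_gen r hr S hok hdis (fun _ => 1) fun _ => rfl
  simp only [mul_one] at h
  rw [h, bern_sum r hr]

/-- `0 < p₀ < 1`. -/
theorem p0_bounds (r : ℕ) (hr : 3 ≤ r) : 0 < p0 r ∧ p0 r < 1 := p0_bounds' r hr

/-- The gain `KL (3 p₀ / 4 ‖ p₀)`. -/
noncomputable def gain (r : ℕ) : ℝ :=
  3 / 4 * p0 r * Real.log (3 / 4) +
    (1 - 3 / 4 * p0 r) * Real.log ((1 - 3 / 4 * p0 r) / (1 - p0 r))

/-- The gain is positive (strict Gibbs inequality for two points:
`log (3/4) = - log (4/3) > -(4/3 - 1)` and `log x > 1 - 1 / x` for `x > 1`: the sum is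
`> 3/4 p₀ (1 - 4/3) + (1 - 3/4 p₀) (1 - (1 - p₀)/(1 - 3/4 p₀)) = 0`). -/
theorem gain_pos (r : ℕ) (hr : 3 ≤ r) : 0 < gain r := by
  obtain ⟨hp1, hp2⟩ := p0_bounds r hr
  have key : ∀ x : ℝ, 0 < x → x ≠ 1 → 1 - x⁻¹ < Real.log x := by
    intro x hx hx1
    have h1 := Real.log_lt_sub_one_of_pos (inv_pos.2 hx) (fun h => hx1 (inv_eq_one.1 h))
    rw [Real.log_inv] at h1
    linarith
  have h1 := key (3 / 4) (by norm_num) (by norm_num)
  have hd : 0 < 1 - p0 r := by linarith
  have hn : 0 < 1 - 3 / 4 * p0 r := by linarith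
  have h2 := key ((1 - 3 / 4 * p0 r) / (1 - p0 r)) (div_pos hn hd) (fun h => by
    rw [div_eq_one_iff_eq hd.ne'] at h
    linarith)
  rw [inv_div] at h2
  have h3 := mul_lt_mul_of_pos_left h1 (by positivity : 0 < 3 / 4 * p0 r)
  have h4 := mul_lt_mul_of_pos_left h2 hn
  have h5 : (1 - 3 / 4 * p0 r) * (1 - (1 - p0 r) / (1 - 3 / 4 * p0 r)) = p0 r / 4 := by
    rw [mul_sub, mul_one, mul_div_cancel₀ _ hn.ne']
    ring
  rw [h5] at h4
  unfold gain
  norm_num at h3
  linarith

/-- If the probability `P` of admissibility is at most `3 p₀ / 4`, the expected logarithm of the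
tilting factor is at least the gain (`log (3/4) < 0 < log ((1 - 3/4 p₀)/(1 - p₀))`). -/
theorem gain_le (r : ℕ) (hr : 3 ≤ r) (P : ℝ) (hP0 : 0 ≤ P) (hP : P ≤ 3 / 4 * p0 r) :
    gain r ≤ P * Real.log (3 / 4) + (1 - P) * Real.log ((1 - 3 / 4 * p0 r) / (1 - p0 r)) := by
  obtain ⟨hp1, hp2⟩ := p0_bounds r hr
  have hd : 0 < 1 - p0 r := by linarith
  have h1 : Real.log (3 / 4) < 0 := Real.log_neg (by norm_num) (by norm_num)
  have h2 : 0 < Real.log ((1 - 3 / 4 * p0 r) / (1 - p0 r)) := by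
    apply Real.log_pos
    rw [lt_div_iff₀ hd]
    linarith
  unfold gain
  nlinarith

end Pool.Agent.LHam
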