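import Pool.Agent.LHam.A11Core
import Pool.Agent.LHam.A12Num
import Pool.Agent.LHam.A9Bern
import Pool.Agent.LHam.A10Greedy

set_option autoImplicit false

/-! A13. Lemma E: the tight Bregman bound with deficit. -/

namespace Pool.Agent.LHam

open Finset

/-- Every set has at most `r (r - 1)` roles. -/
private theorem e_mass {n : ℕ} (r : ℕ) (hr : 3 ≤ r) (ν : Finset (Fin n) → ℝ)
    (hν : ∀ Z, 0 ≤ ν Z) (S : Finset (OE n)) (hok : ∀ o ∈ S, o.Ok r) :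
    ∑ o ∈ S, ν o.set ≤ r * (r - 1) * ∑ Z ∈ Er r n, ν Z := by
  classical
  have hmaps : ∀ o ∈ S, o.set ∈ Er r n := by
    intro o ho
    obtain ⟨h1, h2, h3, h4⟩ := hok o ho
    rw [Er, mem_powersetCard]
    refine ⟨subset_univ _, ?_⟩
    rw [OE.set, card_insert_of_notMem, card_insert_of_notMem h4, h1]
    · omega
    · rw [mem_insert]
      rintro (h | h)
      · exact h2 h
      · exact h3 h
  rw [← Finset.sum_fiberwise_of_maps_to hmaps, Finset.mul_sum]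
  refine Finset.sum_le_sum fun Z hZ => ?_
  have h5 : ∑ o ∈ S.filter (fun o => o.set = Z), ν o.set =
      (S.filter (fun o => o.set = Z)).card * ν Z := by
    rw [Finset.sum_congr rfl (fun o ho => by rw [(mem_filter.1 ho).2] : ∀ o ∈
      S.filter (fun o => o.set = Z), ν o.set = ν Z), Finset.sum_const, nsmul_eq_mul]
  rw [h5]
  refine mul_le_mul_of_nonneg_right ?_ (hν Z)
  have hZc : Z.card = r := (mem_powersetCard.1 hZ).2
  have h6 : (S.filter (fun o => o.set = Z)).card ≤ Z.offDiag.card := by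
    refine card_le_card_of_injOn (fun o => (o.x, o.y)) ?_ ?_
    · intro o ho
      have ho' := mem_filter.1 ho
      obtain ⟨h1, h2, h3, h4⟩ := hok o ho'.1
      refine mem_offDiag.2 ⟨?_, ?_, h2⟩
      · rw [← ho'.2]
        exact mem_insert_self _ _
      · rw [← ho'.2]
        exact mem_insert_of_mem (mem_insert_self _ _)
    · intro o ho o' ho' h
      have a := mem_filter.1 ho
      have b := mem_filter.1 ho'
      have h7 : o.x = o'.x := (Prod.mk.inj h).1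
      have h8 : o.y = o'.y := (Prod.mk.inj h).2
      obtain ⟨h1, h2, h3, h4⟩ := hok o a.1
      obtain ⟨k1, k2, k3, k4⟩ := hok o' b.1
      have hJ : ∀ q : OE n, q.x ∉ q.J → q.y ∉ q.J → q.J = (q.set.erase q.x).erase q.y := by
        intro q hx hy
        ext z
        simp only [OE.set, mem_erase, mem_insert]
        constructor
        · intro hz
          exact ⟨fun e => hy (e ▸ hz), fun e => hx (e ▸ hz), Or.inr (Or.inr hz)⟩
        · rintro ⟨e1, e2, e3 | e3 | e3⟩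
          · exact (e2 e3).elim
          · exact (e1 e3).elim
          · exact e3
      have h9 : o.J = o'.J := by
        rw [hJ o h3 h4, hJ o' k3 k4, h7, h8, a.2, b.2]
      exact OE.ext h7 h9 h8
  rw [offDiag_card, hZc] at h6
  have h7 : ((r * r - r : ℕ) : ℝ) = r * (r - 1) := by
    rw [Nat.cast_sub (Nat.le_mul_self r)]
    push_cast
    ring
  rw [← h7]
  exact_mod_cast h6

/-- From logarithms to the bound. -/
private theorem e_fin (r n m₁ : ℕ) (hr : 3 ≤ r) (D : ℝ) (hD : 0 < D)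
    (hD' : (r : ℝ) - 1 ≤ Real.log ((r - 1) * D)) (h1 : (r - 1) * m₁ ≤ n)
    (h2 : n ≤ (r - 1) * m₁ + 4 * r ^ 2) (Ψ a h s κ κ₁ : ℝ) (hΨ : 0 < Ψ)
    (hlog : Real.log Ψ ≤ (((r : ℝ) - 2) * m₁ * Real.log (1 / (1 - lam r)) +
      (n - ((r : ℝ) - 2) * m₁) * Real.log (1 / lam r) + a) + h +
      m₁ * (Real.log D + (r - 2) * Real.log (1 - lam r) + Real.log (1 + s) - (r - 1)) + κ₁ * n)
    (htot : a + h + m₁ * Real.log (1 + s) + κ₁ * n + 4 * r ^ 2 * Real.log (r - 1) ≤ -κ * n) :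
    Ψ ≤ Real.exp (-κ * n) * Bref r n D := by
  have hnum := lemE_num r n m₁ hr D hD hD' h1 h2
  unfold Bref
  rw [← Real.exp_add, ← Real.log_le_iff_le_exp hΨ]
  linarith

open Classical in
/-- The average of the admissible weight. -/
private theorem e_av {n : ℕ} (r : ℕ) (hr : 3 ≤ r) (K η D : ℝ) (ν : Finset (Fin n) → ℝ)
    (hν : ∀ Z, 0 ≤ ν Z) (hD : 0 < D) (hreg : Reg r n K η D ν) (m₁ : ℕ) (hm₁ : 0 < m₁)
    (h1 : (r - 1) * m₁ ≤ n) (h2 : n ≤ (r - 1) * m₁ + 4 * r ^ 2)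
    (G : Finset (Finset (OE n))) (hG : ∀ F ∈ G, IsSys r F ∧ F.card = m₁)
    (S : Finset (OE n)) (x s : ℝ)
    (hx : x * (n * D / r) * ∑ F ∈ G, Wf ν F ≤ (1 / 2) * ∑ F ∈ G, Wf ν F *
      ∑ o ∈ S.filter (fun o => Adm r (inn F) o), ν o.set)
    (hs : (n : ℝ) / ((r - 1) * m₁) * (1 + (2 * η - x) / (r * (r - 1) * p0 r)) ≤ 1 + s) :
    ∑ F ∈ G, Wf ν F * ∑ v ∈ inn F, av r (fun o => ν o.set * if o ∈ S then 1 / 2 else 1) F v ≤
      D * (1 - lam r) ^ (r - 2) * (1 + s) * ((∑ F ∈ G, Wf ν F) * ((r - 2 : ℕ) * m₁)) := by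
  have hR3 : (3 : ℝ) ≤ r := by exact_mod_cast hr
  have hW : ∀ F, 0 ≤ Wf ν F := fun F => Finset.prod_nonneg fun o _ => hν _
  have hΨ : 0 ≤ ∑ F ∈ G, Wf ν F := Finset.sum_nonneg fun F _ => hW F
  have hc : (((r - 2 : ℕ) : ℕ) : ℝ) = (r : ℝ) - 2 := by
    rw [Nat.cast_sub (by omega)]
    norm_num
  have hlam : 0 ≤ 1 - lam r := by
    unfold lam
    rw [sub_nonneg, div_le_one (by linarith)]
    linarith
  rw [hc]
  have h3 : ∑ F ∈ G, Wf ν F * ∑ v ∈ inn F,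
      av r (fun o => ν o.set * if o ∈ S then 1 / 2 else 1) F v ≤
      ∑ F ∈ G, Wf ν F * (((r : ℝ) - 2) * (2 * ((beta r + η) * (n * D / r)) -
        (1 / 2) * ∑ o ∈ S.filter (fun o => Adm r (inn F) o), ν o.set)) := by
    refine Finset.sum_le_sum fun F hF => mul_le_mul_of_nonneg_left ?_ (hW F)
    exact av_bound r hr K η D ν hreg m₁ h1 h2 S F (hG F hF).1 (hG F hF).2
  refine h3.trans ?_
  have h4 : ∑ F ∈ G, Wf ν F * (((r : ℝ) - 2) * (2 * ((beta r + η) * (n * D / r)) -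
        (1 / 2) * ∑ o ∈ S.filter (fun o => Adm r (inn F) o), ν o.set)) =
      ((r : ℝ) - 2) * (2 * ((beta r + η) * (n * D / r)) * ∑ F ∈ G, Wf ν F -
        (1 / 2) * ∑ F ∈ G, Wf ν F * ∑ o ∈ S.filter (fun o => Adm r (inn F) o), ν o.set) := by
    rw [Finset.mul_sum, Finset.mul_sum, ← Finset.sum_sub_distrib, Finset.mul_sum]
    refine Finset.sum_congr rfl fun F _ => ?_
    ring
  rw [h4]
  have h5 := main_weight r n m₁ hr hm₁ D η x
  have h6 : 2 * ((beta r + η) * (n * D / r)) * ∑ F ∈ G, Wf ν F -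
        (1 / 2) * ∑ F ∈ G, Wf ν F * ∑ o ∈ S.filter (fun o => Adm r (inn F) o), ν o.set ≤
      (2 * ((beta r + η) * (n * D / r)) - x * (n * D / r)) * ∑ F ∈ G, Wf ν F := by
    rw [sub_mul]
    linarith
  have h7 : (2 * ((beta r + η) * (n * D / r)) - x * (n * D / r)) ≤
      D * (1 - lam r) ^ (r - 2) * (1 + s) * m₁ := by
    rw [h5]
    refine mul_le_mul_of_nonneg_right ?_ (Nat.cast_nonneg _)
    exact mul_le_mul_of_nonneg_left hs (by positivity)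
  calc ((r : ℝ) - 2) * (2 * ((beta r + η) * (n * D / r)) * ∑ F ∈ G, Wf ν F -
        (1 / 2) * ∑ F ∈ G, Wf ν F * ∑ o ∈ S.filter (fun o => Adm r (inn F) o), ν o.set)
      ≤ ((r : ℝ) - 2) * ((2 * ((beta r + η) * (n * D / r)) - x * (n * D / r)) *
        ∑ F ∈ G, Wf ν F) := mul_le_mul_of_nonneg_left h6 (by linarith)
    _ ≤ ((r : ℝ) - 2) * ((D * (1 - lam r) ^ (r - 2) * (1 + s) * m₁) * ∑ F ∈ G, Wf ν F) := by
      refine mul_le_mul_of_nonneg_left ?_ (by linarith)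
      exact mul_le_mul_of_nonneg_right h7 hΨ
    _ = D * (1 - lam r) ^ (r - 2) * (1 + s) *
        ((∑ F ∈ G, Wf ν F) * (((r : ℝ) - 2) * m₁)) := by ring

/-- The cost of the weights `1 / 2`. -/
private theorem e_cost {n : ℕ} (r : ℕ) (hr : 3 ≤ r) (c D : ℝ) (hc : 0 < c) (hD : 0 < D)
    (ν : Finset (Fin n) → ℝ) (hν : ∀ Z, 0 ≤ ν Z) (hM : ∑ Z ∈ Er r n, ν Z = n * D / r)
    (G : Finset (Finset (OE n))) (S : Finset (OE n)) (hok : ∀ o ∈ S, o.Ok r)
    (hS : ∀ o ∈ S, ∑ F ∈ G.filter (fun F => o ∈ F), Wf ν F ≤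
        c * ν o.set / D * ∑ F ∈ G, Wf ν F) :
    ∑ F ∈ G, Wf ν F * (∑ o ∈ F, -Real.log (if o ∈ S then 1 / 2 else 1)) ≤
      (Real.log 2 * ((r - 1) * c * n)) * ∑ F ∈ G, Wf ν F := by
  have hR3 : (3 : ℝ) ≤ r := by exact_mod_cast hr
  have hW : ∀ F, 0 ≤ Wf ν F := fun F => Finset.prod_nonneg fun o _ => hν _
  have hΨ : 0 ≤ ∑ F ∈ G, Wf ν F := Finset.sum_nonneg fun F _ => hW F
  have h1 : ∀ F : Finset (OE n), ∑ o ∈ F, -Real.log (if o ∈ S then (1 / 2 : ℝ) else 1) =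
      ∑ o ∈ S, if o ∈ F then Real.log 2 else 0 := by
    intro F
    have h2 : ∀ o, -Real.log (if o ∈ S then (1 / 2 : ℝ) else 1) =
        if o ∈ S then Real.log 2 else 0 := by
      intro o
      split_ifs
      · rw [one_div, Real.log_inv, neg_neg]
      · rw [Real.log_one, neg_zero]
    rw [Finset.sum_congr rfl fun o _ => h2 o, ← Finset.sum_filter, ← Finset.sum_filter]
    refine Finset.sum_congr ?_ fun _ _ => rfl
    ext o
    simp only [mem_filter]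
    exact and_comm
  have h3 : ∑ F ∈ G, Wf ν F * (∑ o ∈ F, -Real.log (if o ∈ S then 1 / 2 else 1)) =
      ∑ o ∈ S, Real.log 2 * ∑ F ∈ G.filter (fun F => o ∈ F), Wf ν F := by
    rw [Finset.sum_congr rfl fun F _ => by rw [h1 F, Finset.mul_sum], Finset.sum_comm]
    refine Finset.sum_congr rfl fun o _ => ?_
    rw [Finset.sum_filter, Finset.mul_sum]
    refine Finset.sum_congr rfl fun F _ => ?_
    split_ifs <;> ring
  rw [h3]
  have hl2 : 0 ≤ Real.log 2 := Real.log_nonneg (by norm_num)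
  have hmass := e_mass r hr ν hν S hok
  calc ∑ o ∈ S, Real.log 2 * ∑ F ∈ G.filter (fun F => o ∈ F), Wf ν F
      ≤ ∑ o ∈ S, Real.log 2 * (c * ν o.set / D * ∑ F ∈ G, Wf ν F) :=
        Finset.sum_le_sum fun o ho => mul_le_mul_of_nonneg_left (hS o ho) hl2
    _ = (Real.log 2 * (c / D) * ∑ F ∈ G, Wf ν F) * ∑ o ∈ S, ν o.set := by
      rw [Finset.mul_sum]
      refine Finset.sum_congr rfl fun o _ => ?_
      ring
    _ ≤ (Real.log 2 * (c / D) * ∑ F ∈ G, Wf ν F) * (r * (r - 1) * ∑ Z ∈ Er r n, ν Z) :=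
      mul_le_mul_of_nonneg_left hmass (by positivity)
    _ = (Real.log 2 * ((r - 1) * c * n)) * ∑ F ∈ G, Wf ν F := by
      rw [hM]
      have hr0 : (r : ℝ) ≠ 0 := by linarith
      field_simp

open Classical in
/-- The tilted Bernoulli weights. -/
private theorem e_tilt {n : ℕ} (r : ℕ) (hr : 3 ≤ r) (ν : Finset (Fin n) → ℝ)
    (hν : ∀ Z, 0 ≤ ν Z) (G : Finset (Finset (OE n))) (S₂ : Finset (OE n)) (gB : ℝ)
    (hgB : ∀ F ∈ G, -Real.log (Bern r (inn F)) = gB)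
    (hP : ∀ o ∈ S₂, ∑ F ∈ G.filter (fun F => Adm r (inn F) o), Wf ν F ≤
      3 / 4 * p0 r * ∑ F ∈ G, Wf ν F) (hΨ : 0 < ∑ F ∈ G, Wf ν F) :
    ∑ F ∈ G, Wf ν F * (-Real.log (Bern r (inn F) * ∏ o ∈ S₂, tilt r o (inn F))) ≤
      (gB - S₂.card * gain r) * ∑ F ∈ G, Wf ν F := by
  obtain ⟨hp0, hp1⟩ := p0_bounds r hr
  have hW : ∀ F, 0 ≤ Wf ν F := fun F => Finset.prod_nonneg fun o _ => hν _
  have hb : 0 < (1 - 3 / 4 * p0 r) / (1 - p0 r) := div_pos (by linarith) (by linarith)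
  have ht : ∀ (o : OE n) (A : Finset (Fin n)), 0 < tilt r o A := by
    intro o A
    unfold tilt
    split_ifs
    · norm_num
    · exact hb
  have h1 : ∀ F ∈ G, Wf ν F * (-Real.log (Bern r (inn F) * ∏ o ∈ S₂, tilt r o (inn F))) =
      gB * Wf ν F - ∑ o ∈ S₂, Wf ν F * Real.log (tilt r o (inn F)) := by
    intro F hF
    rw [Real.log_mul (bern_pos r hr _).ne' (Finset.prod_pos fun o _ => ht o _).ne',
      Real.log_prod fun o _ => (ht o _).ne', ← hgB F hF, ← Finset.mul_sum]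
    ring
  rw [Finset.sum_congr rfl h1, Finset.sum_sub_distrib, ← Finset.mul_sum, Finset.sum_comm, sub_mul]
  refine sub_le_sub_left ?_ _
  rw [mul_assoc, ← nsmul_eq_mul, ← Finset.sum_const]
  refine Finset.sum_le_sum fun o ho => ?_
  set A : ℝ := ∑ F ∈ G.filter (fun F => Adm r (inn F) o), Wf ν F with hA
  have hA0 : 0 ≤ A := Finset.sum_nonneg fun F _ => hW F
  have h2 : ∑ F ∈ G, Wf ν F * Real.log (tilt r o (inn F)) =
      A * Real.log (3 / 4) +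
        (∑ F ∈ G, Wf ν F - A) * Real.log ((1 - 3 / 4 * p0 r) / (1 - p0 r)) := by
    have h3 := Finset.sum_filter_add_sum_filter_not G (fun F => Adm r (inn F) o) (Wf ν)
    have h4 : ∑ F ∈ G, Wf ν F - A = ∑ F ∈ G.filter (fun F => ¬ Adm r (inn F) o), Wf ν F := by
      rw [← h3, hA]
      ring
    rw [h4, hA, ← Finset.sum_filter_add_sum_filter_not G (fun F => Adm r (inn F) o),
      Finset.sum_mul, Finset.sum_mul]
    congr 1
    · refine Finset.sum_congr rfl fun F hF => ?_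
      rw [tilt, if_pos (mem_filter.1 hF).2]
    · refine Finset.sum_congr rfl fun F hF => ?_
      rw [tilt, if_neg (mem_filter.1 hF).2]
  rw [h2]
  have h5 := gain_le r hr (A / ∑ F ∈ G, Wf ν F) (by positivity) (by
    rw [div_le_iff₀ hΨ]
    exact hP o ho)
  have h6 := mul_le_mul_of_nonneg_right h5 hΨ.le
  refine h6.trans (le_of_eq ?_)
  have h7 : A / (∑ F ∈ G, Wf ν F) * (∑ F ∈ G, Wf ν F) = A := div_mul_cancel₀ _ hΨ.ne'
  linear_combination (Real.log (3 / 4) - Real.log ((1 - 3 / 4 * p0 r) / (1 - p0 r))) * h7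

open Classical in
/-- The edges which are seldom admissible. -/
private theorem e_seldom {n : ℕ} (r : ℕ) (hr : 3 ≤ r) (ν : Finset (Fin n) → ℝ)
    (hν : ∀ Z, 0 ≤ ν Z) (G : Finset (Finset (OE n))) (S : Finset (OE n))
    (hΨ : 0 < ∑ F ∈ G, Wf ν F)
    (hneg : ∑ F ∈ G, Wf ν F * ∑ o ∈ S.filter (fun o => Adm r (inn F) o), ν o.set <
      (1 / 2) * p0 r * (∑ o ∈ S, ν o.set) * ∑ F ∈ G, Wf ν F) :
    ∃ S₁ ⊆ S, (∀ o ∈ S₁, ∑ F ∈ G.filter (fun F => Adm r (inn F) o), Wf ν F ≤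
      3 / 4 * p0 r * ∑ F ∈ G, Wf ν F) ∧ (∑ o ∈ S, ν o.set) / 3 ≤ ∑ o ∈ S₁, ν o.set := by
  obtain ⟨hp0, hp1⟩ := p0_bounds r hr
  have hW : ∀ F, 0 ≤ Wf ν F := fun F => Finset.prod_nonneg fun o _ => hν _
  refine ⟨S.filter (fun o => ∑ F ∈ G.filter (fun F => Adm r (inn F) o), Wf ν F ≤
    3 / 4 * p0 r * ∑ F ∈ G, Wf ν F), filter_subset _ _, fun o ho => (mem_filter.1 ho).2, ?_⟩
  have h1 : ∑ F ∈ G, Wf ν F * ∑ o ∈ S.filter (fun o => Adm r (inn F) o), ν o.set =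
      ∑ o ∈ S, ν o.set * ∑ F ∈ G.filter (fun F => Adm r (inn F) o), Wf ν F := by
    rw [Finset.sum_congr rfl fun F _ => by rw [Finset.sum_filter, Finset.mul_sum],
      Finset.sum_comm]
    refine Finset.sum_congr rfl fun o _ => ?_
    rw [Finset.sum_filter, Finset.mul_sum]
    refine Finset.sum_congr rfl fun F _ => ?_
    split_ifs <;> ring
  rw [h1] at hneg
  set P : OE n → Prop := fun o => ∑ F ∈ G.filter (fun F => Adm r (inn F) o), Wf ν F ≤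
    3 / 4 * p0 r * ∑ F ∈ G, Wf ν F with hPdef
  have h2 := Finset.sum_filter_add_sum_filter_not S P (fun o => ν o.set)
  have h3 : (∑ o ∈ S.filter (fun o => ¬ P o), ν o.set) * (3 / 4 * p0 r * ∑ F ∈ G, Wf ν F) ≤
      ∑ o ∈ S, ν o.set * ∑ F ∈ G.filter (fun F => Adm r (inn F) o), Wf ν F := by
    rw [Finset.sum_mul]
    refine le_trans (Finset.sum_le_sum fun o ho => ?_)
      (Finset.sum_le_sum_of_subset_of_nonneg (filter_subset (fun o => ¬ P o) S) fun o _ _ =>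
        mul_nonneg (hν _) (Finset.sum_nonneg fun F _ => hW F))
    have h4 := (mem_filter.1 ho).2
    rw [hPdef, not_le] at h4
    exact mul_le_mul_of_nonneg_left h4.le (hν _)
  have h5 : 0 < p0 r * ∑ F ∈ G, Wf ν F := mul_pos hp0 hΨ
  have h6 : ((∑ o ∈ S.filter (fun o => ¬ P o), ν o.set) * (3 / 4)) * (p0 r * ∑ F ∈ G, Wf ν F) ≤
      ((1 / 2) * (∑ o ∈ S, ν o.set)) * (p0 r * ∑ F ∈ G, Wf ν F) := by
    nlinarith
  have h7 := le_of_mul_le_mul_right h6 h5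
  linarith

/-- The numbers. -/
private theorem e_nums (r : ℕ) (hr : 3 ≤ r) (e κ₁ : ℝ) (he : 0 < e) (hκ : 0 < κ₁) :
    ∃ n₂ : ℕ, ∀ n ≥ n₂, ∀ m₁ : ℕ, (r - 1) * m₁ ≤ n → n ≤ (r - 1) * m₁ + 4 * r ^ 2 →
      0 < m₁ ∧ (n : ℝ) / (2 * r) ≤ m₁ ∧ (m₁ : ℝ) ≤ n ∧ (n : ℝ) / ((r - 1) * m₁) ≤ 1 + e ∧
      4 * (r : ℝ) ^ 2 * Real.log (r - 1) ≤ κ₁ * n := by
  have hR3 : (3 : ℝ) ≤ r := by exact_mod_cast hr
  obtain ⟨n₂, hn₂⟩ := exists_nat_ge (max (8 * (r : ℝ) ^ 2)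
    (max (8 * (r : ℝ) ^ 3 / e) (4 * (r : ℝ) ^ 2 * Real.log (r - 1) / κ₁)))
  refine ⟨n₂, fun n hn m₁ h1 h2 => ?_⟩
  have hn' : (n₂ : ℝ) ≤ n := by exact_mod_cast hn
  have a1 : 8 * (r : ℝ) ^ 2 ≤ n := ((le_max_left _ _).trans hn₂).trans hn'
  have a2 : 8 * (r : ℝ) ^ 3 / e ≤ n :=
    (((le_max_left _ _).trans (le_max_right _ _)).trans hn₂).trans hn'
  have a3 : 4 * (r : ℝ) ^ 2 * Real.log (r - 1) / κ₁ ≤ n :=
    (((le_max_right _ _).trans (le_max_right _ _)).trans hn₂).trans hn'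
  have hcast : (((r - 1 : ℕ) : ℕ) : ℝ) = (r : ℝ) - 1 := by
    rw [Nat.cast_sub (by omega)]
    norm_num
  have b1 : ((r : ℝ) - 1) * m₁ ≤ n := by
    rw [← hcast]
    exact_mod_cast h1
  have b2 : (n : ℝ) ≤ ((r : ℝ) - 1) * m₁ + 4 * (r : ℝ) ^ 2 := by
    rw [← hcast]
    exact_mod_cast h2
  have hn0 : (0 : ℝ) < n := by
    have : 0 < 8 * (r : ℝ) ^ 2 := by positivity
    linarith
  have hr1 : (0 : ℝ) < (r : ℝ) - 1 := by linarith
  have hm0 : (0 : ℝ) ≤ m₁ := Nat.cast_nonneg _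
  have c1 : (n : ℝ) / (2 * r) ≤ m₁ := by
    rw [div_le_iff₀ (by linarith)]
    nlinarith [mul_le_mul_of_nonneg_left b2 (by linarith : (0 : ℝ) ≤ 2 * r),
      mul_le_mul_of_nonneg_left a1 (by linarith : (0 : ℝ) ≤ (r : ℝ) + 1),
      mul_nonneg hm0 (by linarith : (0 : ℝ) ≤ (r : ℝ))]
  have c0 : (0 : ℝ) < m₁ := lt_of_lt_of_le (by positivity) c1
  refine ⟨by exact_mod_cast c0, c1, ?_, ?_, ?_⟩
  · nlinarith
  · rw [div_le_iff₀ (by positivity)]
    rw [div_le_iff₀ he] at a2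
    have d1 : 8 * (r : ℝ) ^ 3 ≤ 2 * r * m₁ * e := by
      have : (n : ℝ) ≤ m₁ * (2 * r) := by
        rwa [div_le_iff₀ (by linarith)] at c1
      calc 8 * (r : ℝ) ^ 3 ≤ n * e := a2
        _ ≤ (m₁ * (2 * r)) * e := mul_le_mul_of_nonneg_right this he.le
        _ = 2 * r * m₁ * e := by ring
    have d2 : 4 * (r : ℝ) ^ 2 ≤ m₁ * e := by
      have d3 : (4 * (r : ℝ) ^ 2) * (2 * r) ≤ (m₁ * e) * (2 * r) := by linarith
      exact le_of_mul_le_mul_right d3 (by linarith)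
    have d4 : (m₁ : ℝ) * e ≤ ((r : ℝ) - 1) * (m₁ * e) := by
      have : 0 ≤ (m₁ : ℝ) * e := by positivity
      nlinarith
    nlinarith
  · rw [div_le_iff₀ hκ] at a3
    linarith

/-- **Lemma E** (tight Bregman-type bound with deficit; see note 2166, section 1).

Proof. Assume `Ψ = ∑ F ∈ G, Wf ν F > 0` (otherwise trivial). Write `E_F` for the average with the
probabilities `Wf ν F / Ψ`, `μ(S') = ∑ o ∈ S', ν o.set`, `M = n D / r`, `Λ = univ \ inn F`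
(`|inn F| = (r - 2) m₁`, so `n ≤ (r - 1) |Λ| ≤ n + 4 r^3`), `Adm` means `Adm r (inn F)`.
By `adm_weight` and the quasirandomness, `∑ v, av v ≤ (r - 2) (2 (β + η) M - (1/2) μ(S ∩ adm))` if `ω = 1/2` on `S`
and `1` elsewhere; `2 β = r (r - 1) p₀`, `(r - 1)^2 p₀ = (1 - λ)^(r-2)`, `n / ((r - 1) m₁) = 1 + O(1/n)`, so
`(1 / m₁) 2 (β + η) M = D (1 - λ)^(r-2) (1 + O(η) + O(1/n))`.
`Q1 = Bern`: `-log Q1 (inn F) = (r - 2) m₁ log (1/(1-λ)) + (n - (r - 2) m₁) log (1/λ)`.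
CASE 1: `E_F μ(S ∩ adm) ≥ (1/2) p₀ μ(S)`. `ω = 1/2` on `S`: the average of `av` is
`≤ D (1 - λ)^(r-2) (1 + s)`, `s = -τ/(8 r^2)` (for `η` small, `n` large: the term
`-(1/2) (1/2) p₀ τ M / m₁` relative to `r (r - 1) p₀ M / m₁` is `-τ / (4 r (r - 1))`);
`h = log 2 * E_F |F ∩ S| ≤ log 2 * ∑ o ∈ S, c ν o.set / D ≤ log 2 * r (r - 1) c M / D = log 2 (r - 1) c n`
(`∑ o ∈ S, ν o.set ≤ r (r - 1) M`: every `Z` has `r (r - 1)` roles; the expectation of `|F ∩ S|` is the sum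
over `o ∈ S` of the probability of `o ∈ F`). `lemE_core` gives
`log Ψ ≤ m₁ (log D + log (1/λ) - (r - 1)) + (n - (r - 1) m₁) log (1/λ) + m₁ log (1 - τ/(8 r^2)) + κ₁ n + log 2 (r - 1) c n`
and `log Bref = (n/(r-1)) (log D + log (r - 1) - (r - 1))`, `log (1/λ) = log (r - 1)`,
`m₁ ≤ n/(r-1)`, `log D + log (r - 1) - (r - 1) ≥ 0` for `D ≥ D₀`, `n - (r-1) m₁ ≤ 4 r^2`, `m₁ ≥ n/(2r)`.
Choose `c`, `κ₁` small compared with `τ / (16 r^3)`.
CASE 2: otherwise. `ω = 1`. `S₁ = {o ∈ S | P_F (o adm) < 3 p₀ / 4}` has `μ(S₁) ≥ μ(S)/3` (else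
`E_F μ(S ∩ adm) = ∑ o ∈ S, P_F (o adm) ν o.set ≥ (2/3) (3/4) p₀ μ(S)`). `greedy` for `S₁`: `S₂` with disjoint
sets, `|S₂| ≥ τ M / (3 r^3 K D) = τ n / (3 r^4 K)`. `Q1 A = Bern r A * ∏ o ∈ S₂, tilt r o A` (`tilt_sum`; positive):
`E_F (-log Q1) = (Bernoulli part) - ∑ o ∈ S₂, (P_o log (3/4) + (1 - P_o) log (..)) ≤ (Bernoulli part) - |S₂| gain r`
(`gain_le`), `s = O(η) + O(1/n)`. `lemE_core` again. -/
theorem lemmaE (r : ℕ) (hr : 3 ≤ r) (τ K : ℝ) (hτ : 0 < τ) (hK : 1 ≤ K) :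
    ∃ κ c η D₀ : ℝ, 0 < κ ∧ 0 < c ∧ 0 < η ∧ ∃ n₀ : ℕ, ∀ n ≥ n₀, ∀ D : ℝ, D₀ ≤ D →
      ∀ ν : Finset (Fin n) → ℝ, (∀ Z, 0 ≤ ν Z) → ∑ Z ∈ Er r n, ν Z = n * D / r →
      Reg r n K η D ν → ∀ m₁ : ℕ, (r - 1) * m₁ ≤ n → n ≤ (r - 1) * m₁ + 4 * r ^ 2 →
      ∀ G : Finset (Finset (OE n)), (∀ F ∈ G, IsSys r F ∧ F.card = m₁) →
      ∀ S : Finset (OE n), (∀ o ∈ S, o.Ok r) → τ * (n * D / r) ≤ ∑ o ∈ S, ν o.set →
      (∀ o ∈ S, ∑ F ∈ G.filter (fun F => o ∈ F), Wf ν F ≤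
        c * ν o.set / D * ∑ F ∈ G, Wf ν F) →
      ∑ F ∈ G, Wf ν F ≤ Real.exp (-κ * n) * Bref r n D := by
  classical
  have hR3 : (3 : ℝ) ≤ r := by exact_mod_cast hr
  obtain ⟨hp0, hp1⟩ := p0_bounds r hr
  have hgain := gain_pos r hr
  obtain ⟨t, ht0, ht1, htτ⟩ : ∃ t : ℝ, 0 < t ∧ t ≤ 1 ∧ t ≤ τ :=
    ⟨min τ 1, lt_min hτ one_pos, min_le_right _ _, min_le_left _ _⟩
  have hK0 : 0 < K := by linarith
  obtain ⟨G2, hG2d⟩ : ∃ G2 : ℝ, G2 = t / (3 * (r : ℝ) ^ 4 * K) * gain r := ⟨_, rfl⟩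
  have hG2 : 0 < G2 := by
    rw [hG2d]
    positivity
  obtain ⟨s2, hs20, hs21, hs2G⟩ : ∃ s2 : ℝ, 0 < s2 ∧ s2 ≤ 1 ∧ s2 ≤ G2 / 4 :=
    ⟨min 1 (G2 / 4), lt_min one_pos (by linarith), min_le_left _ _, min_le_right _ _⟩
  obtain ⟨κ₁, hκ0, hκt, hκG⟩ : ∃ κ₁ : ℝ, 0 < κ₁ ∧ κ₁ ≤ t / (64 * (r : ℝ) ^ 3) ∧ κ₁ ≤ G2 / 4 :=
    ⟨min (t / (64 * (r : ℝ) ^ 3)) (G2 / 4), lt_min (by positivity) (by linarith),
      min_le_left _ _, min_le_right _ _⟩
  obtain ⟨η₁, D₁, hη₁, n₁, hcore⟩ := lemE_core r hr K κ₁ hK hκ0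
  obtain ⟨η, hη0, hηη, hηt, hηs⟩ : ∃ η : ℝ, 0 < η ∧ η ≤ η₁ ∧ η ≤ p0 r * t / 32 ∧
      η ≤ s2 * p0 r / 8 :=
    ⟨min η₁ (min (p0 r * t / 32) (s2 * p0 r / 8)), lt_min hη₁ (lt_min (by positivity)
      (by positivity)), min_le_left _ _, (min_le_right _ _).trans (min_le_left _ _),
      (min_le_right _ _).trans (min_le_right _ _)⟩
  obtain ⟨e, he0, het, hes⟩ : ∃ e : ℝ, 0 < e ∧ e ≤ t / (16 * (r : ℝ) ^ 2) ∧ e ≤ s2 / 4 :=
    ⟨min (t / (16 * (r : ℝ) ^ 2)) (s2 / 4), lt_min (by positivity) (by linarith),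
      min_le_left _ _, min_le_right _ _⟩
  obtain ⟨n₂, hn₂⟩ := e_nums r hr e κ₁ he0 hκ0
  refine ⟨κ₁, t / (64 * (r : ℝ) ^ 4), η, max D₁ (Real.exp r), hκ0, by positivity, hη0,
    max n₁ n₂, ?_⟩
  intro n hn D hD ν hν hM hreg m₁ h1 h2 G hG S hok hSτ hSc
  obtain ⟨hm0, hm1, hm2, hm3, hlogr⟩ := hn₂ n ((le_max_right _ _).trans hn) m₁ h1 h2
  have hW : ∀ F, 0 ≤ Wf ν F := fun F => Finset.prod_nonneg fun o _ => hν _
  have hΨ0 : 0 ≤ ∑ F ∈ G, Wf ν F := Finset.sum_nonneg fun F _ => hW F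
  have hD1 : D₁ ≤ D := (le_max_left _ _).trans hD
  have hDe : Real.exp r ≤ D := (le_max_right _ _).trans hD
  have hDpos : 0 < D := (Real.exp_pos _).trans_le hDe
  have hlogD : (r : ℝ) - 1 ≤ Real.log ((r - 1) * D) := by
    rw [Real.le_log_iff_exp_le (by nlinarith)]
    have : Real.exp ((r : ℝ) - 1) ≤ Real.exp r := Real.exp_le_exp.2 (by linarith)
    nlinarith
  rcases hΨ0.eq_or_lt with hΨ | hΨ
  · rw [← hΨ]
    unfold Bref
    positivity
  have hn0 : (0 : ℝ) ≤ n := Nat.cast_nonneg _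
  have hm0' : (0 : ℝ) < m₁ := by exact_mod_cast hm0
  have hco : ∀ u v, u ≠ v → codeg r ν u v ≤ η₁ * D := fun u v huv =>
    (hreg.codeg_le u v huv).trans (mul_le_mul_of_nonneg_right hηη hDpos.le)
  have hBp : ∀ F ∈ G, -Real.log (Bern r (inn F)) =
      ((r : ℝ) - 2) * m₁ * Real.log (1 / (1 - lam r)) +
      (n - ((r : ℝ) - 2) * m₁) * Real.log (1 / lam r) := fun F hF =>
    bern_inn r hr m₁ h1 F (hG F hF).1 (hG F hF).2
  have hrr : 0 < (r : ℝ) * (r - 1) := by nlinarith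
  have hSτ' : t * (n * D / r) ≤ ∑ o ∈ S, ν o.set := by
    refine le_trans ?_ hSτ
    refine mul_le_mul_of_nonneg_right htτ (by positivity)
  by_cases hcase : (1 / 2) * p0 r * (∑ o ∈ S, ν o.set) * ∑ F ∈ G, Wf ν F ≤
      ∑ F ∈ G, Wf ν F * ∑ o ∈ S.filter (fun o => Adm r (inn F) o), ν o.set
  · -- the first case
    have hx : p0 r * t / 4 * (n * D / r) * ∑ F ∈ G, Wf ν F ≤ (1 / 2) * ∑ F ∈ G, Wf ν F *
        ∑ o ∈ S.filter (fun o => Adm r (inn F) o), ν o.set := by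
      have h3 : p0 r * t / 4 * (n * D / r) * ∑ F ∈ G, Wf ν F =
          (1 / 2) * ((1 / 2) * p0 r * (t * (n * D / r)) * ∑ F ∈ G, Wf ν F) := by ring
      rw [h3]
      refine mul_le_mul_of_nonneg_left (le_trans ?_ hcase) (by norm_num)
      refine mul_le_mul_of_nonneg_right ?_ hΨ0
      exact mul_le_mul_of_nonneg_left hSτ' (by positivity)
    have hs : (n : ℝ) / ((r - 1) * m₁) *
        (1 + (2 * η - p0 r * t / 4) / (r * (r - 1) * p0 r)) ≤ 1 + -(t / (8 * (r : ℝ) ^ 2)) := by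
      have h4 : (2 * η - p0 r * t / 4) / (r * (r - 1) * p0 r) ≤ -(3 * t / (16 * (r : ℝ) ^ 2)) := by
        rw [div_le_iff₀ (by positivity)]
        have h5 : 2 * η - p0 r * t / 4 ≤ -(3 * (p0 r * t) / 16) := by linarith
        refine h5.trans ?_
        have h6 : -(3 * t / (16 * (r : ℝ) ^ 2)) * (r * (r - 1) * p0 r) =
            -(3 * (p0 r * t) / 16) * ((r * (r - 1)) / (r : ℝ) ^ 2) := by
          field_simp
        rw [h6]
        have h7 : (r * (r - 1)) / (r : ℝ) ^ 2 ≤ 1 := by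
          rw [div_le_one (by positivity)]
          nlinarith
        have h8 : 0 ≤ 3 * (p0 r * t) / 16 := by positivity
        nlinarith
      have h9 : t / (16 * (r : ℝ) ^ 2) ≤ 1 / 144 := by
        rw [div_le_div_iff₀ (by positivity) (by norm_num)]
        nlinarith
      obtain ⟨w, hw⟩ : ∃ w : ℝ, w = t / (16 * (r : ℝ) ^ 2) := ⟨_, rfl⟩
      have hw0 : 0 < w := by
        rw [hw]
        positivity
      have e1 : 3 * t / (16 * (r : ℝ) ^ 2) = 3 * w := by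
        rw [hw]
        ring
      have e2 : t / (8 * (r : ℝ) ^ 2) = 2 * w := by
        rw [hw]
        field_simp
        norm_num
      rw [e1] at h4
      rw [← hw] at het h9
      rw [e2]
      calc (n : ℝ) / ((r - 1) * m₁) * (1 + (2 * η - p0 r * t / 4) / (r * (r - 1) * p0 r))
          ≤ (n : ℝ) / ((r - 1) * m₁) * (1 - 3 * w) :=
            mul_le_mul_of_nonneg_left (by linarith)
              (div_nonneg hn0 (mul_nonneg (by linarith) hm0'.le))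
        _ ≤ (1 + e) * (1 - 3 * w) := mul_le_mul_of_nonneg_right hm3 (by linarith)
        _ ≤ (1 + w) * (1 - 3 * w) := mul_le_mul_of_nonneg_right (by linarith) (by linarith)
        _ ≤ 1 + -(2 * w) := by nlinarith
    have hav := e_av r hr K η D ν hν hDpos hreg m₁ hm0 h1 h2 G hG S (p0 r * t / 4)
      (-(t / (8 * (r : ℝ) ^ 2))) hx hs
    have hcost := e_cost r hr (t / (64 * (r : ℝ) ^ 4)) D (by positivity) hDpos ν hν hM G S hok hSc
    have hgB : ∑ F ∈ G, Wf ν F * (-Real.log (Bern r (inn F))) ≤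
        (((r : ℝ) - 2) * m₁ * Real.log (1 / (1 - lam r)) +
          (n - ((r : ℝ) - 2) * m₁) * Real.log (1 / lam r) + 0) * ∑ F ∈ G, Wf ν F := by
      rw [add_zero, Finset.mul_sum]
      refine Finset.sum_le_sum fun F hF => ?_
      rw [hBp F hF, mul_comm]
    have hsl : -(1 / 2) ≤ -(t / (8 * (r : ℝ) ^ 2)) := by
      have : t / (8 * (r : ℝ) ^ 2) ≤ 1 / 2 := by
        rw [div_le_div_iff₀ (by positivity) (by norm_num)]
        nlinarith
      linarith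
    have hsu : -(t / (8 * (r : ℝ) ^ 2)) ≤ 1 := by
      have : 0 ≤ t / (8 * (r : ℝ) ^ 2) := by positivity
      linarith
    have hlog := hcore n ((le_max_left _ _).trans hn) D hD1 ν hν hreg.deg_le hco m₁ h1 h2 G hG
      (fun o => if o ∈ S then 1 / 2 else 1) (fun o => by split_ifs <;> norm_num)
      (Bern r) (fun A => (bern_pos r hr A).le) (bern_sum r hr).le
      (fun F _ => bern_pos r hr _) hΨ _ _ _ hsl hsu hgB hcost hav
    refine e_fin r n m₁ hr D hDpos hlogD h1 h2 _ _ _ _ _ _ hΨ hlog ?_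
    -- the total
    obtain ⟨w, hw⟩ : ∃ w : ℝ, w = t / (64 * (r : ℝ) ^ 3) := ⟨_, rfl⟩
    have hw0 : 0 < w := by
      rw [hw]
      positivity
    rw [← hw] at hκt
    have k1 : m₁ * Real.log (1 + -(t / (8 * (r : ℝ) ^ 2))) ≤ -(4 * w * n) := by
      have l1 : Real.log (1 + -(t / (8 * (r : ℝ) ^ 2))) ≤ -(t / (8 * (r : ℝ) ^ 2)) := by
        have := Real.log_le_sub_one_of_pos (x := 1 + -(t / (8 * (r : ℝ) ^ 2))) (by linarith)
        linarith
      have l2 : m₁ * Real.log (1 + -(t / (8 * (r : ℝ) ^ 2))) ≤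
          m₁ * -(t / (8 * (r : ℝ) ^ 2)) := mul_le_mul_of_nonneg_left l1 hm0'.le
      have l3 : (n : ℝ) / (2 * r) * (t / (8 * (r : ℝ) ^ 2)) ≤ m₁ * (t / (8 * (r : ℝ) ^ 2)) :=
        mul_le_mul_of_nonneg_right hm1 (by positivity)
      have l4 : (n : ℝ) / (2 * r) * (t / (8 * (r : ℝ) ^ 2)) = 4 * w * n := by
        rw [hw]
        field_simp
        ring
      linarith
    have k2 : Real.log 2 * ((r - 1) * (t / (64 * (r : ℝ) ^ 4)) * n) ≤ w * n := by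
      have l1 : Real.log 2 ≤ 1 := by
        have := Real.log_le_sub_one_of_pos (x := 2) (by norm_num)
        linarith
      have l2 : ((r : ℝ) - 1) * (t / (64 * (r : ℝ) ^ 4)) ≤ w := by
        rw [hw]
        have : r * (t / (64 * (r : ℝ) ^ 4)) = t / (64 * (r : ℝ) ^ 3) := by
          field_simp
        rw [← this]
        exact mul_le_mul_of_nonneg_right (by linarith) (by positivity)
      have l3 : 0 ≤ ((r : ℝ) - 1) * (t / (64 * (r : ℝ) ^ 4)) * n := by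
        have : 0 ≤ (r : ℝ) - 1 := by linarith
        positivity
      calc Real.log 2 * ((r - 1) * (t / (64 * (r : ℝ) ^ 4)) * n)
          ≤ 1 * ((r - 1) * (t / (64 * (r : ℝ) ^ 4)) * n) := mul_le_mul_of_nonneg_right l1 l3
        _ ≤ w * n := by
          rw [one_mul]
          exact mul_le_mul_of_nonneg_right l2 hn0
    have k3 : κ₁ * n ≤ w * n := mul_le_mul_of_nonneg_right hκt hn0
    linarith
  · -- the second case
    rw [not_le] at hcase
    obtain ⟨S₁, hS₁, hadm, hmass⟩ := e_seldom r hr ν hν G S hΨ hcase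
    obtain ⟨S₂, hS₂, hdis, hcard⟩ := greedy r hr K D ν hν hreg.deg_le S₁
      (fun o ho => hok o (hS₁ ho))
    have hx : (0 : ℝ) * (n * D / r) * ∑ F ∈ G, Wf ν F ≤ (1 / 2) * ∑ F ∈ G, Wf ν F *
        ∑ o ∈ (∅ : Finset (OE n)).filter (fun o => Adm r (inn F) o), ν o.set := by
      simp
    have hs : (n : ℝ) / ((r - 1) * m₁) * (1 + (2 * η - 0) / (r * (r - 1) * p0 r)) ≤ 1 + s2 := by
      have h4 : (2 * η - 0) / (r * (r - 1) * p0 r) ≤ s2 / 4 := by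
        rw [sub_zero, div_le_iff₀ (by positivity)]
        have h5 : 0 ≤ s2 / 4 * p0 r := by positivity
        have h6 : s2 / 4 * p0 r ≤ s2 / 4 * p0 r * (r * (r - 1)) :=
          le_mul_of_one_le_right h5 (by nlinarith)
        calc 2 * η ≤ s2 / 4 * p0 r := by linarith
          _ ≤ s2 / 4 * p0 r * (r * (r - 1)) := h6
          _ = s2 / 4 * (r * (r - 1) * p0 r) := by ring
      calc (n : ℝ) / ((r - 1) * m₁) * (1 + (2 * η - 0) / (r * (r - 1) * p0 r))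
          ≤ (n : ℝ) / ((r - 1) * m₁) * (1 + s2 / 4) :=
            mul_le_mul_of_nonneg_left (by linarith)
              (div_nonneg hn0 (mul_nonneg (by linarith) hm0'.le))
        _ ≤ (1 + s2 / 4) * (1 + s2 / 4) :=
            mul_le_mul_of_nonneg_right (by linarith) (by linarith)
        _ ≤ 1 + s2 := by nlinarith
    have hav := e_av r hr K η D ν hν hDpos hreg m₁ hm0 h1 h2 G hG ∅ 0 s2 hx hs
    have hg := e_tilt r hr ν hν G S₂ _ hBp (fun o ho => hadm o (hS₂ ho)) hΨ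
    have hh : ∑ F ∈ G, Wf ν F * (∑ o ∈ F, -Real.log (if o ∈ (∅ : Finset (OE n)) then
        1 / 2 else 1)) ≤ 0 * ∑ F ∈ G, Wf ν F := by
      simp
    have hb : 0 < (1 - 3 / 4 * p0 r) / (1 - p0 r) := div_pos (by linarith) (by linarith)
    have ht : ∀ (o : OE n) (A : Finset (Fin n)), 0 < tilt r o A := by
      intro o A
      unfold tilt
      split_ifs
      · norm_num
      · exact hb
    have hQp : ∀ A : Finset (Fin n), 0 < Bern r A * ∏ o ∈ S₂, tilt r o A := fun A =>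
      mul_pos (bern_pos r hr A) (Finset.prod_pos fun o _ => ht o A)
    have hlog := hcore n ((le_max_left _ _).trans hn) D hD1 ν hν hreg.deg_le hco m₁ h1 h2 G hG
      (fun o => if o ∈ (∅ : Finset (OE n)) then 1 / 2 else 1)
      (fun o => by split_ifs <;> norm_num)
      (fun A => Bern r A * ∏ o ∈ S₂, tilt r o A) (fun A => (hQp A).le)
      (tilt_sum r hr S₂ (fun o ho => hok o (hS₁ (hS₂ ho))) hdis).le
      (fun F _ => hQp _) hΨ _ _ _ (by linarith) hs21 hg hh hav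
    rw [sub_eq_add_neg] at hlog
    refine e_fin r n m₁ hr D hDpos hlogD h1 h2 _ _ _ _ _ _ hΨ hlog ?_
    have k1 : G2 * n ≤ S₂.card * gain r := by
      have l1 : t * (n * D / r) / 3 ≤ S₂.card * (r ^ 3 * K * D) := by
        refine le_trans ?_ (hmass.trans hcard)
        linarith
      have l2 : t / (3 * (r : ℝ) ^ 4 * K) * n ≤ S₂.card := by
        have l3 : (t / (3 * (r : ℝ) ^ 4 * K) * n) * (r ^ 3 * K * D) = t * (n * D / r) / 3 := by
          field_simp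
        have l4 : (t / (3 * (r : ℝ) ^ 4 * K) * n) * (r ^ 3 * K * D) ≤
            S₂.card * (r ^ 3 * K * D) := by
          rw [l3]
          exact l1
        exact le_of_mul_le_mul_right l4 (by positivity)
      rw [hG2d]
      calc t / (3 * (r : ℝ) ^ 4 * K) * gain r * n =
          (t / (3 * (r : ℝ) ^ 4 * K) * n) * gain r := by ring
        _ ≤ S₂.card * gain r := mul_le_mul_of_nonneg_right l2 hgain.le
    have k2 : m₁ * Real.log (1 + s2) ≤ G2 / 4 * n := by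
      have l1 : Real.log (1 + s2) ≤ s2 := by
        have := Real.log_le_sub_one_of_pos (x := 1 + s2) (by linarith)
        linarith
      calc m₁ * Real.log (1 + s2) ≤ m₁ * s2 := mul_le_mul_of_nonneg_left l1 hm0'.le
        _ ≤ n * (G2 / 4) := mul_le_mul hm2 hs2G hs20.le hn0
        _ = G2 / 4 * n := by ring
    have k3 : κ₁ * n ≤ G2 / 4 * n := mul_le_mul_of_nonneg_right hκG hn0
    linarith

end Pool.Agent.LHam
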