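import Pool.Agent.LHam.SysDefs

set_option autoImplicit false

/-! A1. The guessing scheme is a sub-probability. -/

namespace Pool.Agent.LHam

open Finset

variable {n : ℕ}

/-- The edges of `F` with an inner vertex of rank less than `t`. -/
private def rv (ρ : Fin n → ℕ) (F : Finset (OE n)) (t : ℕ) : Finset (OE n) :=
  F.filter fun o => ∃ u ∈ o.J, ρ u < t

private theorem mem_rv {ρ : Fin n → ℕ} {F : Finset (OE n)} {t : ℕ} {o : OE n} :
    o ∈ rv ρ F t ↔ o ∈ F ∧ ∃ u ∈ o.J, ρ u < t := by
  unfold rv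
  rw [mem_filter]

private theorem uniq {r : ℕ} {F : Finset (OE n)} (hF : IsSys r F) {o o' : OE n} (ho : o ∈ F)
    (ho' : o' ∈ F) {v : Fin n} (h : v ∈ o.J) (h' : v ∈ o'.J) : o = o' := by
  by_contra hne
  exact Finset.disjoint_left.1 (hF.dis o ho o' ho' hne) h h'

private theorem step_sum (r : ℕ) (ρ : Fin n → ℕ) (hρ : Function.Injective ρ)
    (a : OE n → ℝ) (ha : ∀ o, 0 ≤ a o) (A : Finset (Fin n)) (t : ℕ) (R : Finset (OE n))
    (G : Finset (Finset (OE n))) (hG : ∀ F ∈ G, IsSys r F ∧ inn F = A)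
    (hR : ∀ F ∈ G, rv ρ F t = R) (v : Fin n) (hvA : v ∈ A) (hvR : v ∉ inn R) (hvt : ρ v = t)
    (ih : ∀ (R' : Finset (OE n)) (G' : Finset (Finset (OE n))),
      (∀ F ∈ G', IsSys r F ∧ inn F = A) → (∀ F ∈ G', rv ρ F (t + 1) = R') →
      ∑ F ∈ G', ∏ o ∈ F \ R', a o / Wt r a ρ F o ≤ 1) :
    ∑ F ∈ G, ∏ o ∈ F \ R, a o / Wt r a ρ F o ≤ 1 := by
  classical
  have hW0 : ∀ (F : Finset (OE n)) (o : OE n), 0 ≤ Wt r a ρ F o := fun F o =>
    Finset.sum_nonneg fun o' _ => ha o'
  have hf0 : ∀ F : Finset (OE n), 0 ≤ ∏ o ∈ F \ R, a o / Wt r a ρ F o := fun F =>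
    Finset.prod_nonneg fun o _ => div_nonneg (ha o) (hW0 F o)
  have hRF : ∀ F ∈ G, R ⊆ F := by
    intro F hF
    rw [← hR F hF]
    exact Finset.filter_subset _ _
  -- the edge at `v`
  have hex : ∀ F ∈ G, ∃ o ∈ Av r A R v, o ∈ F := by
    intro F hF
    obtain ⟨hs, hA⟩ := hG F hF
    have h1 : v ∈ inn F := by rw [hA]; exact hvA
    unfold inn at h1
    rw [mem_biUnion] at h1
    obtain ⟨o, ho, hv⟩ := h1
    have hoR : o ∉ R := fun h => hvR (by unfold inn; exact mem_biUnion.2 ⟨o, h, hv⟩)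
    refine ⟨o, ?_, ho⟩
    unfold Av
    rw [mem_filter]
    refine ⟨mem_univ _, ⟨hs.ok o ho, ?_, ?_, ?_⟩, hv, ?_, ?_, ?_⟩
    · rw [← hA]
      exact fun u hu => mem_biUnion.2 ⟨o, ho, hu⟩
    · rw [← hA]
      intro h
      obtain ⟨o', ho', h'⟩ := mem_biUnion.1 h
      exact hs.xout o ho o' ho' h'
    · rw [← hA]
      intro h
      obtain ⟨o', ho', h'⟩ := mem_biUnion.1 h
      exact hs.yout o ho o' ho' h'
    · refine Finset.disjoint_left.2 fun u hu hu' => ?_
      obtain ⟨o', ho', h'⟩ := mem_biUnion.1 hu'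
      have h2 := uniq hs ho (hRF F hF ho') hu h'
      exact hoR (by rw [h2]; exact ho')
    · intro o' ho' h'
      have h2 := hs.xinj o' (hRF F hF ho') o ho h'
      exact hoR (by rw [← h2]; exact ho')
    · intro o' ho' h'
      have h2 := hs.yinj o' (hRF F hF ho') o ho h'
      exact hoR (by rw [← h2]; exact ho')
  -- splitting
  have h1 : ∑ F ∈ G, ∏ o ∈ F \ R, a o / Wt r a ρ F o ≤
      ∑ o ∈ Av r A R v, ∑ F ∈ G.filter (fun F => o ∈ F), ∏ o' ∈ F \ R, a o' / Wt r a ρ F o' := by
    have h2 : ∀ F ∈ G, ∏ o ∈ F \ R, a o / Wt r a ρ F o ≤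
        ∑ o ∈ Av r A R v, if o ∈ F then ∏ o' ∈ F \ R, a o' / Wt r a ρ F o' else 0 := by
      intro F hF
      obtain ⟨o, ho, hoF⟩ := hex F hF
      have h3 := Finset.single_le_sum
        (f := fun o => if o ∈ F then ∏ o' ∈ F \ R, a o' / Wt r a ρ F o' else 0)
        (fun o _ => by
          by_cases h : o ∈ F
          · simp only [h, if_true]; exact hf0 F
          · simp only [h, if_false]; exact le_refl _) ho
      simp only [hoF, if_true] at h3
      exact h3
    refine (Finset.sum_le_sum h2).trans ?_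
    rw [Finset.sum_comm]
    refine Finset.sum_le_sum fun o _ => ?_
    rw [Finset.sum_filter]
  -- each part
  have h2 : ∀ o ∈ Av r A R v, ∑ F ∈ G.filter (fun F => o ∈ F),
      ∏ o' ∈ F \ R, a o' / Wt r a ρ F o' ≤ a o / ∑ o' ∈ Av r A R v, a o' := by
    intro o ho
    have ho' := ho
    unfold Av at ho'
    rw [mem_filter] at ho'
    obtain ⟨-, -, hvo, -, -, -⟩ := ho'
    have hoR : o ∉ R := fun h => hvR (by unfold inn; exact mem_biUnion.2 ⟨o, h, hvo⟩)
    have h3 : ∀ F ∈ G.filter (fun F => o ∈ F), ∏ o' ∈ F \ R, a o' / Wt r a ρ F o' =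
        (a o / ∑ o' ∈ Av r A R v, a o') * ∏ o' ∈ F \ insert o R, a o' / Wt r a ρ F o' := by
      intro F hF
      rw [mem_filter] at hF
      obtain ⟨hFG, hoF⟩ := hF
      obtain ⟨hs, hA⟩ := hG F hFG
      have hge : ∀ u ∈ o.J, t ≤ ρ u := by
        intro u hu
        by_contra hlt
        push Not at hlt
        exact hoR (by rw [← hR F hFG]; exact mem_rv.2 ⟨hoF, u, hu, hlt⟩)
      have hne : o.J.Nonempty := ⟨v, hvo⟩
      have hfv : fv ρ o = v := by
        unfold fv
        rw [dif_pos hne]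
        obtain ⟨h4, h5⟩ := Classical.choose_spec (Finset.exists_min_image o.J ρ hne)
        apply hρ
        have h6 := h5 v hvo
        have h7 := hge _ h4
        omega
      have hrev : Rev ρ F v = R := by
        rw [← hR F hFG, ← hvt]
        rfl
      have hW : Wt r a ρ F o = ∑ o' ∈ Av r A R v, a o' := by
        unfold Wt
        rw [hfv, hrev, hA]
      have hins : F \ R = insert o (F \ insert o R) := by
        ext x
        simp only [mem_sdiff, mem_insert]
        constructor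
        · rintro ⟨hx, hxR⟩
          by_cases hxo : x = o
          · exact Or.inl hxo
          · exact Or.inr ⟨hx, fun h => h.elim hxo hxR⟩
        · rintro (rfl | ⟨hx, hxR⟩)
          · exact ⟨hoF, hoR⟩
          · exact ⟨hx, fun h => hxR (Or.inr h)⟩
      rw [hins, Finset.prod_insert (by simp), hW]
    rw [Finset.sum_congr rfl h3, ← Finset.mul_sum]
    have hq : 0 ≤ a o / ∑ o' ∈ Av r A R v, a o' :=
      div_nonneg (ha o) (Finset.sum_nonneg fun o' _ => ha o')
    have h4 := ih (insert o R) (G.filter (fun F => o ∈ F))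
      (fun F hF => hG F (mem_filter.1 hF).1) (by
        intro F hF
        rw [mem_filter] at hF
        obtain ⟨hFG, hoF⟩ := hF
        obtain ⟨hs, hA⟩ := hG F hFG
        ext x
        rw [mem_rv, mem_insert, ← hR F hFG, mem_rv]
        constructor
        · rintro ⟨hx, u, hu, hut⟩
          rcases Nat.lt_or_ge (ρ u) t with h5 | h5
          · exact Or.inr ⟨hx, u, hu, h5⟩
          · have h6 : u = v := hρ (by omega)
            rw [h6] at hu
            exact Or.inl (uniq hs hx hoF hu hvo)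
        · rintro (rfl | ⟨hx, u, hu, hut⟩)
          · exact ⟨hoF, v, hvo, by omega⟩
          · exact ⟨hx, u, hu, by omega⟩)
    calc (a o / ∑ o' ∈ Av r A R v, a o') * ∑ F ∈ G.filter (fun F => o ∈ F),
          ∏ o' ∈ F \ insert o R, a o' / Wt r a ρ F o'
        ≤ (a o / ∑ o' ∈ Av r A R v, a o') * 1 := mul_le_mul_of_nonneg_left h4 hq
      _ = _ := mul_one _
  refine h1.trans ((Finset.sum_le_sum h2).trans ?_)
  rw [← Finset.sum_div]
  exact div_self_le_one _

private theorem guess_aux (r : ℕ) (hr : 3 ≤ r) (ρ : Fin n → ℕ) (hρ : Function.Injective ρ)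
    (a : OE n → ℝ) (ha : ∀ o, 0 ≤ a o) (A : Finset (Fin n)) (k : ℕ) :
    ∀ (t : ℕ) (R : Finset (OE n)) (G : Finset (Finset (OE n))),
    (∀ v, ρ v < t + k) → (∀ F ∈ G, IsSys r F ∧ inn F = A) → (∀ F ∈ G, rv ρ F t = R) →
    ∑ F ∈ G, ∏ o ∈ F \ R, a o / Wt r a ρ F o ≤ 1 := by
  induction k with
  | zero =>
    intro t R G hk hG hR
    have h1 : G ⊆ {R} := by
      intro F hF
      rw [mem_singleton, ← hR F hF]
      symm
      refine filter_true_of_mem fun o ho => ?_
      have h2 := ((hG F hF).1.ok o ho).1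
      have h3 : o.J.Nonempty := by
        rw [← Finset.card_pos, h2]
        omega
      obtain ⟨u, hu⟩ := h3
      exact ⟨u, hu, hk u⟩
    rcases Finset.subset_singleton_iff.1 h1 with h | h
    · rw [h, sum_empty]
      exact zero_le_one
    · rw [h, sum_singleton, Finset.sdiff_self, Finset.prod_empty]
  | succ k ih =>
    intro t R G hk hG hR
    by_cases hv : ∃ v ∈ A, v ∉ inn R ∧ ρ v = t
    · obtain ⟨v, hvA, hvR, hvt⟩ := hv
      exact step_sum r ρ hρ a ha A t R G hG hR v hvA hvR hvt fun R' G' h1 h2 =>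
        ih (t + 1) R' G' (fun v => by have := hk v; omega) h1 h2
    · refine ih (t + 1) R G (fun v => by have := hk v; omega) hG fun F hF => ?_
      obtain ⟨hs, hA⟩ := hG F hF
      rw [← hR F hF]
      ext x
      rw [mem_rv, mem_rv]
      constructor
      · rintro ⟨hx, u, hu, hut⟩
        rcases Nat.lt_or_ge (ρ u) t with h5 | h5
        · exact ⟨hx, u, hu, h5⟩
        · have h6 : u ∈ A := by
            rw [← hA]
            exact mem_biUnion.2 ⟨x, hx, hu⟩
          have h7 : u ∈ inn R := by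
            by_contra h8
            exact hv ⟨u, h6, h8, by omega⟩
          unfold inn at h7
          obtain ⟨o', ho', h'⟩ := mem_biUnion.1 h7
          rw [← hR F hF, mem_rv] at ho'
          have h9 := uniq hs hx ho'.1 hu h'
          rw [h9]
          exact ho'
      · rintro ⟨hx, u, hu, hut⟩
        exact ⟨hx, u, hu, by omega⟩

/-- **Guessing scheme.** For systems `F` with `inn F = A` the product of the guessing probabilities
`a o / Wt r a ρ F o` sums to at most `1` (`x / 0 = 0`).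

Proof. Generalise: let `t : ℕ`, `R` a set of oriented edges, `G` a finite family of systems `F` with
`inn F = A` and `F.filter (∃ u ∈ o.J, ρ u < t) = R`; then
`∑ F ∈ G, ∏ o ∈ F \ R, a o / Wt r a ρ F o ≤ 1`. For `t` larger than all ranks every `F ∈ G` is `R`
(inner sets are nonempty: `(o.J).card = r - 2 ≥ 1`), so there is at most one `F` and the product is
`1`. Downward induction on `t` (e.g. induction on `N - t`, `N` larger than all ranks): if no vertex of
`A` not in `inn R` has rank `t`, then `F.filter (∃ u ∈ o.J, ρ u < t + 1) = R` for all `F ∈ G` (the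
vertex of rank `t`, if it exists, is not in `A = inn F` or it is in an inner set of `R`, which is the
only inner set of `F` containing it), use the induction hypothesis. Otherwise let `v ∈ A`, `v ∉ inn R`,
`ρ v = t`. Every `F ∈ G` contains exactly one `o` with `v ∈ o.J`, `o ∉ R`; the other vertices `u` of
`o.J` have `ρ u ≥ t` (else `o ∈ R`), so `fv ρ o = v` and `Rev ρ F v = R` (`ρ` is injective only used for
the uniqueness of `v`); `o ∈ Av r A R v` because `F` is a system, and
`Wt r a ρ F o = W := ∑ o' ∈ Av r A R v, a o'`. Split `G` according to `o ∈ Av r A R v`; for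
`G_o = {F ∈ G | o ∈ F}` the set `F.filter (∃ u, ρ u < t + 1)` is `insert o R`, so by induction
`∑ F ∈ G_o, ∏ o' ∈ F \ R, .. = (a o / W) * ∑ F ∈ G_o, ∏ o' ∈ F \ insert o R, .. ≤ a o / W`, and the sum
over `o` of `a o / W` is `≤ 1`. The statement is the case `t = 0`, `R = ∅`. -/
theorem guess (r : ℕ) (hr : 3 ≤ r) (ρ : Fin n → ℕ) (hρ : Function.Injective ρ) (a : OE n → ℝ)
    (ha : ∀ o, 0 ≤ a o) (A : Finset (Fin n)) (G : Finset (Finset (OE n)))
    (hG : ∀ F ∈ G, IsSys r F ∧ inn F = A) :
    ∑ F ∈ G, ∏ o ∈ F, a o / Wt r a ρ F o ≤ 1 := by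
  have h := guess_aux r hr ρ hρ a ha A (univ.sup ρ + 1) 0 ∅ G
    (fun v => by
      have := Finset.le_sup (f := ρ) (mem_univ v)
      omega) hG (fun F _ => by
      unfold rv
      refine filter_false_of_mem fun o _ => ?_
      rintro ⟨u, -, hu⟩
      exact absurd hu (Nat.not_lt_zero _))
  simpa only [Finset.sdiff_empty] using h

end Pool.Agent.LHam
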