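import Pool.Agent.LHam.A1Guess

set_option autoImplicit false

/-! A2. Gibbs inequality and the master inequality for a fixed order. -/

namespace Pool.Agent.LHam

open Finset

variable {n : ℕ}

/-- **Gibbs inequality.** Proof: `log (w i / q i) = log Ψ - log (q i Ψ / w i)` for `w i > 0`,
`log t ≤ t - 1`, so `∑ w i log (w i / q i) ≥ Ψ log Ψ - ∑ (w i > 0) (q i Ψ - w i) ≥ Ψ log Ψ`. -/
theorem gibbs {ι : Type} (s : Finset ι) (w q : ι → ℝ) (hw : ∀ i ∈ s, 0 ≤ w i)
    (hq : ∀ i ∈ s, 0 ≤ q i) (hq1 : ∑ i ∈ s, q i ≤ 1) (hpos : ∀ i ∈ s, 0 < w i → 0 < q i)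
    (hΨ : 0 < ∑ i ∈ s, w i) :
    (∑ i ∈ s, w i) * Real.log (∑ i ∈ s, w i) ≤ ∑ i ∈ s, w i * Real.log (w i / q i) := by
  have key : ∀ i ∈ s, w i * Real.log (∑ j ∈ s, w j) + w i - q i * ∑ j ∈ s, w j ≤
      w i * Real.log (w i / q i) := by
    intro i hi
    set Ψ := ∑ j ∈ s, w j with hΨd
    rcases (hw i hi).eq_or_lt with h0 | h0
    · rw [← h0, zero_mul, zero_mul, zero_add]
      have := mul_nonneg (hq i hi) hΨ.le
      linarith
    · have hqi := hpos i hi h0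
      have h1 : Real.log (w i / q i) = Real.log Ψ - Real.log (q i * Ψ / w i) := by
        rw [Real.log_div h0.ne' hqi.ne', Real.log_div (mul_pos hqi hΨ).ne' h0.ne',
          Real.log_mul hqi.ne' hΨ.ne']
        ring
      have h2 : Real.log (q i * Ψ / w i) ≤ q i * Ψ / w i - 1 :=
        Real.log_le_sub_one_of_pos (div_pos (mul_pos hqi hΨ) h0)
      have h3 : w i * Real.log (q i * Ψ / w i) ≤ q i * Ψ - w i := by
        have h4 := mul_le_mul_of_nonneg_left h2 h0.le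
        have h5 : w i * (q i * Ψ / w i - 1) = q i * Ψ - w i := by
          field_simp
        rw [h5] at h4
        exact h4
      rw [h1, mul_sub]
      linarith
  have h6 := Finset.sum_le_sum key
  rw [Finset.sum_sub_distrib, Finset.sum_add_distrib, ← Finset.sum_mul, ← Finset.sum_mul] at h6
  have h7 : (∑ i ∈ s, q i) * ∑ j ∈ s, w j ≤ 1 * ∑ j ∈ s, w j :=
    mul_le_mul_of_nonneg_right hq1 hΨ.le
  linarith

/-- The rank of levels is injective. -/
theorem rk_injective {L : ℕ} (σ : Fin n → Fin L) : Function.Injective (rk σ) := by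
  intro u v h
  have h1 : (σ u : ℕ) * n + u = (σ v : ℕ) * n + v := h
  have h2 : ((σ u : ℕ) * n + u) % n = ((σ v : ℕ) * n + v) % n := by rw [h1]
  rw [Nat.mul_add_mod_self_right, Nat.mul_add_mod_self_right, Nat.mod_eq_of_lt u.2,
    Nat.mod_eq_of_lt v.2] at h2
  exact Fin.ext h2

/-- `o` itself is available when it is revealed: `a o ≤ Wt r a ρ F o`. -/
theorem le_Wt (r : ℕ) (hr : 3 ≤ r) (ρ : Fin n → ℕ) (a : OE n → ℝ) (ha : ∀ o, 0 ≤ a o)
    (F : Finset (OE n)) (hF : IsSys r F) (o : OE n) (ho : o ∈ F) : a o ≤ Wt r a ρ F o := by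
  classical
  have hne : o.J.Nonempty := by
    rw [← Finset.card_pos, (hF.ok o ho).1]
    omega
  have hspec := Classical.choose_spec (Finset.exists_min_image o.J ρ hne)
  have hfv : fv ρ o = Classical.choose (Finset.exists_min_image o.J ρ hne) := by
    unfold fv
    rw [dif_pos hne]
  rw [← hfv] at hspec
  have hR : ∀ o' ∈ Rev ρ F (fv ρ o), o' ∈ F ∧ o' ≠ o := by
    intro o' ho'
    unfold Rev at ho'
    obtain ⟨h1, u, hu, hlt⟩ := Finset.mem_filter.1 ho'
    refine ⟨h1, ?_⟩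
    rintro rfl
    exact absurd (hspec.2 u hu) (not_le.2 hlt)
  have hmem : o ∈ Av r (inn F) (Rev ρ F (fv ρ o)) (fv ρ o) := by
    unfold Av
    refine Finset.mem_filter.2 ⟨Finset.mem_univ _, ⟨hF.ok o ho, ?_, ?_, ?_⟩, hspec.1, ?_, ?_, ?_⟩
    · exact Finset.subset_biUnion_of_mem (fun o : OE n => o.J) ho
    · intro h
      obtain ⟨o', ho', h1⟩ := Finset.mem_biUnion.1 h
      exact hF.xout o ho o' ho' h1
    · intro h
      obtain ⟨o', ho', h1⟩ := Finset.mem_biUnion.1 h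
      exact hF.yout o ho o' ho' h1
    · unfold inn
      rw [Finset.disjoint_biUnion_right]
      intro o' ho'
      exact hF.dis o ho o' (hR o' ho').1 (hR o' ho').2.symm
    · intro o' ho' h
      exact (hR o' ho').2 (hF.xinj o' (hR o' ho').1 o ho h)
    · intro o' ho' h
      exact (hR o' ho').2 (hF.yinj o' (hR o' ho').1 o ho h)
  unfold Wt
  exact Finset.single_le_sum (fun i _ => ha i) hmem

/-- **Master inequality** for a fixed order. `Q1` is a sub-probability on the sets of inner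
vertices, `ω` are weights in `(0, 1]`, `a o = ν o.set * ω o`.

Proof. `Q F = Q1 (inn F) * ∏ o ∈ F, a o / Wt r a ρ F o`; `∑ F ∈ G, Q F ≤ ∑ A, Q1 A * 1 ≤ 1` by `guess`
(split `G` by `A = inn F`); `Q F > 0` if `Wf ν F > 0` (then all `ν o.set > 0`, `Wt ≥ a o > 0`). `gibbs`
with `w F = Wf ν F`; for `Wf ν F > 0`,
`log (Wf ν F / Q F) = - log (Q1 (inn F)) + ∑ o ∈ F, (log (Wt ..) - log (ω o))`; for `Wf ν F = 0` both sides
are `0`. -/
theorem master (r : ℕ) (hr : 3 ≤ r) (ρ : Fin n → ℕ) (hρ : Function.Injective ρ)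
    (ν : Finset (Fin n) → ℝ) (hν : ∀ Z, 0 ≤ ν Z) (ω : OE n → ℝ) (hω : ∀ o, 0 < ω o ∧ ω o ≤ 1)
    (Q1 : Finset (Fin n) → ℝ) (hQ : ∀ A, 0 ≤ Q1 A) (hQ1 : ∑ A, Q1 A ≤ 1)
    (G : Finset (Finset (OE n))) (hG : ∀ F ∈ G, IsSys r F) (hQp : ∀ F ∈ G, 0 < Q1 (inn F))
    (hΨ : 0 < ∑ F ∈ G, Wf ν F) :
    (∑ F ∈ G, Wf ν F) * Real.log (∑ F ∈ G, Wf ν F) ≤
      ∑ F ∈ G, Wf ν F * (-Real.log (Q1 (inn F)) +
        ∑ o ∈ F, (-Real.log (ω o) + Real.log (Wt r (fun o => ν o.set * ω o) ρ F o))) := by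
  classical
  set a : OE n → ℝ := fun o => ν o.set * ω o with ha
  have ha0 : ∀ o, 0 ≤ a o := fun o => mul_nonneg (hν _) (hω o).1.le
  have hWt0 : ∀ F o, 0 ≤ Wt r a ρ F o := fun F o => Finset.sum_nonneg fun o' _ => ha0 o'
  have hWf0 : ∀ F : Finset (OE n), 0 ≤ Wf ν F := fun F => Finset.prod_nonneg fun o _ => hν _
  -- positivity
  have hpos : ∀ F ∈ G, 0 < Wf ν F → ∀ o ∈ F, 0 < ν o.set ∧ 0 < a o ∧ 0 < Wt r a ρ F o := by
    intro F hF hW o ho
    have h1 : ν o.set ≠ 0 := by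
      intro h0
      exact hW.ne' (Finset.prod_eq_zero ho h0)
    have h2 : 0 < ν o.set := lt_of_le_of_ne (hν _) (Ne.symm h1)
    have h3 : 0 < a o := mul_pos h2 (hω o).1
    exact ⟨h2, h3, h3.trans_le (le_Wt r hr ρ a ha0 F (hG F hF) o ho)⟩
  set Q : Finset (OE n) → ℝ := fun F => Q1 (inn F) * ∏ o ∈ F, a o / Wt r a ρ F o with hQd
  have hQ0 : ∀ F ∈ G, 0 ≤ Q F := fun F _ =>
    mul_nonneg (hQ _) (Finset.prod_nonneg fun o _ => div_nonneg (ha0 o) (hWt0 F o))
  have hQpos : ∀ F ∈ G, 0 < Wf ν F → 0 < Q F := fun F hF hW =>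
    mul_pos (hQp F hF) (Finset.prod_pos fun o ho =>
      div_pos (hpos F hF hW o ho).2.1 (hpos F hF hW o ho).2.2)
  have hQsum : ∑ F ∈ G, Q F ≤ 1 := by
    have h1 : ∑ F ∈ G, Q F = ∑ A, ∑ F ∈ G.filter (fun F => inn F = A), Q F :=
      (Finset.sum_fiberwise G inn Q).symm
    rw [h1]
    refine le_trans (Finset.sum_le_sum fun A _ => ?_) hQ1
    have h2 : ∑ F ∈ G.filter (fun F => inn F = A), Q F =
        Q1 A * ∑ F ∈ G.filter (fun F => inn F = A), ∏ o ∈ F, a o / Wt r a ρ F o := by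
      rw [Finset.mul_sum]
      refine Finset.sum_congr rfl fun F hF => ?_
      have h3 : inn F = A := (Finset.mem_filter.1 hF).2
      change Q1 (inn F) * _ = _
      rw [h3]
    rw [h2]
    have h4 := guess r hr ρ hρ a ha0 A (G.filter (fun F => inn F = A)) fun F hF =>
      ⟨hG F (Finset.mem_filter.1 hF).1, (Finset.mem_filter.1 hF).2⟩
    calc Q1 A * ∑ F ∈ G.filter (fun F => inn F = A), ∏ o ∈ F, a o / Wt r a ρ F o
        ≤ Q1 A * 1 := mul_le_mul_of_nonneg_left h4 (hQ A)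
      _ = Q1 A := mul_one _
  have h5 := gibbs G (fun F => Wf ν F) Q (fun F _ => hWf0 F) hQ0 hQsum hQpos hΨ
  refine h5.trans (le_of_eq (Finset.sum_congr rfl fun F hF => ?_))
  change Wf ν F * Real.log (Wf ν F / Q F) = _
  rcases (hWf0 F).eq_or_lt with h0 | h0
  · rw [← h0, zero_mul, zero_mul]
  · congr 1
    have hp := hpos F hF h0
    have e1 : Real.log (Wf ν F) = ∑ o ∈ F, Real.log (ν o.set) := by
      unfold Wf
      exact Real.log_prod fun o ho => (hp o ho).1.ne'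
    have e2 : Real.log (Q F) = Real.log (Q1 (inn F)) +
        ∑ o ∈ F, (Real.log (a o) - Real.log (Wt r a ρ F o)) := by
      change Real.log (Q1 (inn F) * ∏ o ∈ F, a o / Wt r a ρ F o) = _
      rw [Real.log_mul (hQp F hF).ne' (Finset.prod_pos fun o ho =>
        div_pos (hp o ho).2.1 (hp o ho).2.2).ne', Real.log_prod fun o ho =>
        (div_pos (hp o ho).2.1 (hp o ho).2.2).ne']
      congr 1
      refine Finset.sum_congr rfl fun o ho => ?_
      rw [Real.log_div (hp o ho).2.1.ne' (hp o ho).2.2.ne']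
    have e3 : ∀ o ∈ F, Real.log (a o) = Real.log (ν o.set) + Real.log (ω o) := fun o ho =>
      Real.log_mul (hp o ho).1.ne' (hω o).1.ne'
    rw [Real.log_div h0.ne' (hQpos F hF h0).ne', e1, e2, ← sub_sub, sub_right_comm,
      ← Finset.sum_sub_distrib, neg_add_eq_sub, Finset.sum_congr rfl fun o ho => ?_]
    rw [e3 o ho]
    ring

end Pool.Agent.LHam
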