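import Pool.Agent.LHam.SysDefs

set_option autoImplicit false

/-! A3. Counting levels. -/

namespace Pool.Agent.LHam

open Finset

variable {n : ℕ}

/-- The proportion of the levels `σ` with `σ v = l` and `σ u ≥ l` for `u ∈ T` (`v ∉ T`) is
`(1 / L) ((L - l) / L) ^ |T|`. (Product: `Fintype.card_pi` / `Fintype.card_piFinset` for
`σ u ∈ S u`, `S v = {l}`, `S u = Ici l` for `u ∈ T`, `S u = univ` else.) -/
theorem count_levels (L : ℕ) (hL : 0 < L) (v : Fin n) (T : Finset (Fin n)) (hv : v ∉ T)
    (l : Fin L) :
    (((univ : Finset (Fin n → Fin L)).filter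
      (fun σ => σ v = l ∧ ∀ u ∈ T, l ≤ σ u)).card : ℝ) / (L : ℝ) ^ n =
      (1 / (L : ℝ)) * (((L - l : ℕ) : ℝ) / L) ^ T.card := by
  classical
  have hL' : (L : ℝ) ≠ 0 := by
    have := Nat.pos_iff_ne_zero.1 hL
    exact_mod_cast this
  let S : Fin n → Finset (Fin L) := fun u => if u = v then {l} else if u ∈ T then Ici l else univ
  have hS : ((univ : Finset (Fin n → Fin L)).filter
      (fun σ => σ v = l ∧ ∀ u ∈ T, l ≤ σ u)) = Fintype.piFinset S := by
    ext σ
    simp only [mem_filter, mem_univ, true_and, Fintype.mem_piFinset, S]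
    constructor
    · rintro ⟨h1, h2⟩ u
      by_cases hu : u = v
      · subst hu
        simp [h1]
      · rw [if_neg hu]
        by_cases hT : u ∈ T
        · rw [if_pos hT, mem_Ici]
          exact h2 u hT
        · rw [if_neg hT]
          exact mem_univ _
    · intro h
      constructor
      · simpa using h v
      · intro u hT
        have hu : u ≠ v := fun h0 => hv (h0 ▸ hT)
        have h1 := h u
        rw [if_neg hu, if_pos hT, mem_Ici] at h1
        exact h1
  have hpow : (L : ℝ) ^ n = ∏ _u : Fin n, (L : ℝ) := by simp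
  rw [hS, Fintype.card_piFinset, Nat.cast_prod, hpow, ← Finset.prod_div_distrib]
  have hf : ∀ u : Fin n, (((S u).card : ℕ) : ℝ) / (L : ℝ) =
      (if u = v then 1 / (L : ℝ) else 1) *
        (if u ∈ T then ((L - l : ℕ) : ℝ) / L else 1) := by
    intro u
    by_cases hu : u = v
    · subst hu
      simp [S, hv]
    · by_cases hT : u ∈ T
      · simp [S, hu, hT]
      · simp [S, hu, hT, hL']
  rw [Finset.prod_congr rfl fun u _ => hf u, Finset.prod_mul_distrib]
  congr 1
  · simp
  · rw [Finset.prod_ite_mem, Finset.univ_inter, Finset.prod_const]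

end Pool.Agent.LHam
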