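import Pool.Agent.LHam.A2Master
import Pool.Agent.LHam.A3Count

set_option autoImplicit false

/-! A4. Pointwise bound of the available weight. -/

namespace Pool.Agent.LHam

open Finset

variable {n : ℕ}

open Classical in
/-- The edges of `F` which have to be unrevealed in order that `o'` is available at `v`. -/
noncomputable def Blk (F : Finset (OE n)) (o' : OE n) (v : Fin n) : Finset (OE n) :=
  F.filter fun b => (∃ u ∈ o'.J, u ≠ v ∧ u ∈ b.J) ∨ b.x = o'.x ∨ b.y = o'.y

open Classical in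
/-- The upper bound for the weight available at `v` (levels `σ`). -/
noncomputable def What (r : ℕ) {L : ℕ} (a : OE n → ℝ) (F : Finset (OE n)) (v : Fin n)
    (σ : Fin n → Fin L) : ℝ :=
  ∑ o' ∈ univ.filter (fun o' : OE n => Adm r (inn F) o' ∧ v ∈ o'.J ∧
    ∀ b ∈ Blk F o' v, ∀ u ∈ b.J, σ v ≤ σ u), a o'

/-- **Pointwise bound.** For `o ∈ F`:
`log (Wt r a (rk σ) F o) ≤ ∑ v ∈ o.J, (if ∀ u ∈ o.J, σ v ≤ σ u then log (1 + What v σ) else 0)`.

Proof. `v = fv (rk σ) o ∈ o.J` has the smallest rank, so `σ v ≤ σ u` for `u ∈ o.J` (rank comparison: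
`σ v * n + v ≤ σ u * n + u` and `v, u < n` give `σ v ≤ σ u`), its term is
`log (1 + What v σ)`, the other terms are `≥ 0` (`What ≥ 0`). `Wt ≤ What v σ`: an edge
`o' ∈ Av r (inn F) R v`, `R = Rev (rk σ) F v`, is admissible with `v ∈ o'.J`, and a block `b ∈ Blk F o' v` is
not in `R` (`Disjoint o'.J (inn R)`, `o'.x`, `o'.y` conditions), so all `u ∈ b.J` have rank
`≥` the rank of `v`, thus `σ v ≤ σ u`. Finally `log x ≤ log (1 + y)` for `0 ≤ x ≤ y` (`log 0 = 0`). -/
theorem point (r : ℕ) (hr : 3 ≤ r) {L : ℕ} (a : OE n → ℝ) (ha : ∀ o, 0 ≤ a o)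
    (F : Finset (OE n)) (hF : IsSys r F) (σ : Fin n → Fin L) (o : OE n) (ho : o ∈ F) :
    Real.log (Wt r a (rk σ) F o) ≤
      ∑ v ∈ o.J, (if ∀ u ∈ o.J, σ v ≤ σ u then Real.log (1 + What r a F v σ) else 0) := by
  classical
  have hne : o.J.Nonempty := by
    rw [← Finset.card_pos, (hF.ok o ho).1]
    omega
  have hlev : ∀ v u : Fin n, rk σ v ≤ rk σ u → σ v ≤ σ u := by
    intro v u h
    by_contra hlt
    rw [not_le, Fin.lt_def] at hlt
    unfold rk at h
    have h1 : ((σ u : ℕ) + 1) * n ≤ (σ v : ℕ) * n := Nat.mul_le_mul_right n hlt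
    have h2 := u.2
    rw [Nat.add_mul, one_mul] at h1
    omega
  have hspec : fv (rk σ) o ∈ o.J ∧ ∀ u ∈ o.J, rk σ (fv (rk σ) o) ≤ rk σ u := by
    unfold fv
    rw [dif_pos hne]
    exact Classical.choose_spec (Finset.exists_min_image o.J (rk σ) hne)
  obtain ⟨hv, hmin⟩ := hspec
  generalize hvd : fv (rk σ) o = v at hv hmin
  have hW0 : ∀ u, 0 ≤ What r a F u σ := fun u => Finset.sum_nonneg fun _ _ => ha _
  have hle : Wt r a (rk σ) F o ≤ What r a F v σ := by
    unfold Wt What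
    rw [hvd]
    refine Finset.sum_le_sum_of_subset_of_nonneg ?_ fun _ _ _ => ha _
    intro o' ho'
    simp only [Av, Finset.mem_filter, Finset.mem_univ, true_and] at ho' ⊢
    obtain ⟨h1, h2, h3, h4, h5⟩ := ho'
    refine ⟨h1, h2, fun b hb u hu => hlev _ _ ?_⟩
    simp only [Blk, Finset.mem_filter] at hb
    obtain ⟨hbF, hb'⟩ := hb
    have hR : b ∉ Rev (rk σ) F v := by
      intro hbR
      rcases hb' with ⟨w, hw, -, hwb⟩ | hx | hy
      · exact Finset.disjoint_left.1 h3 hw (Finset.mem_biUnion.2 ⟨b, hbR, hwb⟩)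
      · exact h4 b hbR hx
      · exact h5 b hbR hy
    simp only [Rev, Finset.mem_filter, not_and, not_exists, not_lt] at hR
    exact hR hbF u hu
  have hlog : Real.log (Wt r a (rk σ) F o) ≤ Real.log (1 + What r a F v σ) := by
    have h0 : 0 ≤ Wt r a (rk σ) F o := Finset.sum_nonneg fun _ _ => ha _
    rcases h0.eq_or_lt with h1 | h1
    · rw [← h1, Real.log_zero]
      exact Real.log_nonneg (by linarith [hW0 v])
    · exact Real.log_le_log h1 (by linarith)
  refine hlog.trans ?_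
  have hterm : (if ∀ u ∈ o.J, σ v ≤ σ u then Real.log (1 + What r a F v σ) else 0) =
      Real.log (1 + What r a F v σ) := if_pos fun u hu => hlev _ _ (hmin u hu)
  rw [← hterm]
  refine Finset.single_le_sum
    (f := fun v => if ∀ u ∈ o.J, σ v ≤ σ u then Real.log (1 + What r a F v σ) else 0)
    (fun w _ => ?_) hv
  split_ifs
  · exact Real.log_nonneg (by linarith [hW0 w])
  · exact le_rfl

/-- For a non-exceptional admissible `o'` with `v ∈ o'.J`, `v ∈ o.J`, `o ∈ F`: the inner sets of the blocks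
`Blk F o' v` are disjoint from `o.J` and their union has `(r - 1) (r - 2)` elements.

Proof. For every `u ∈ o'.J`, `u ≠ v`, there is exactly one `b ∈ F` with `u ∈ b.J` (`o'.J ⊆ inn F`,
disjoint inner sets), there is exactly one `b ∈ F` with `b.x = o'.x`, exactly one with `b.y = o'.y`
(`¬ Exc`). These `(r - 3) + 2` blocks are distinct and different from `o`: a coincidence gives a block
`b` with two different vertices of `o'.set` in `b.set` (`2 ≤ (b.set ∩ o'.set).card`), which is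
excluded by `¬ Exc F o'`. So `Blk F o' v` has `r - 1` elements, all with `b.J.card = r - 2`, disjoint. -/
theorem blk_card (r : ℕ) (hr : 3 ≤ r) (F : Finset (OE n)) (hF : IsSys r F) (o o' : OE n)
    (ho : o ∈ F) (v : Fin n) (hv : v ∈ o.J) (hv' : v ∈ o'.J) (hA : Adm r (inn F) o')
    (hE : ¬ Exc F o') :
    Disjoint o.J ((Blk F o' v).biUnion fun b => b.J) ∧
      ((Blk F o' v).biUnion fun b => b.J).card = qe r := by
  classical
  obtain ⟨⟨hcard, hxy, hxJ, hyJ⟩, hsub, -, -⟩ := hA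
  have hE' := hE
  unfold Exc at hE'
  push Not at hE'
  obtain ⟨⟨bx, hbx, hbxe⟩, ⟨by', hby, hbye⟩, hcap⟩ := hE'
  -- two different common vertices are impossible
  have key : ∀ b ∈ F, ∀ p q : Fin n, p ≠ q → p ∈ b.set → q ∈ b.set → p ∈ o'.set → q ∈ o'.set →
      False := by
    intro b hb p q hpq h1 h2 h3 h4
    have h5 := hcap b hb
    have h6 : ({p, q} : Finset (Fin n)) ⊆ b.set ∩ o'.set := by
      intro w hw
      simp only [Finset.mem_insert, Finset.mem_singleton] at hw
      rcases hw with rfl | rfl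
      · exact Finset.mem_inter.2 ⟨h1, h3⟩
      · exact Finset.mem_inter.2 ⟨h2, h4⟩
    have h7 := Finset.card_le_card h6
    rw [Finset.card_pair hpq] at h7
    omega
  have hJ : ∀ (b : OE n) (u : Fin n), u ∈ b.J → u ∈ b.set := fun b u hu =>
    Finset.mem_insert_of_mem (Finset.mem_insert_of_mem hu)
  have hX : ∀ b : OE n, b.x ∈ b.set := fun b => Finset.mem_insert_self _ _
  have hY : ∀ b : OE n, b.y ∈ b.set := fun b =>
    Finset.mem_insert_of_mem (Finset.mem_insert_self _ _)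
  have hex : ∀ u : Fin n, u ∈ o'.J → ∃ b ∈ F, u ∈ b.J := by
    intro u hu
    have h1 := hsub hu
    simpa only [inn, Finset.mem_biUnion] using h1
  have hno : Nonempty (OE n) := ⟨o⟩
  choose! g hgF hgJ using hex
  have huniq : ∀ b ∈ F, ∀ b' ∈ F, ∀ u, u ∈ b.J → u ∈ b'.J → b = b' := by
    intro b hb b' hb' u h1 h2
    by_contra h3
    exact Finset.disjoint_left.1 (hF.dis b hb b' hb' h3) h1 h2
  have hblk : Blk F o' v = insert bx (insert by' ((o'.J.erase v).image g)) := by
    ext b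
    simp only [Blk, Finset.mem_filter, Finset.mem_insert, Finset.mem_image, Finset.mem_erase]
    constructor
    · rintro ⟨hb, ⟨u, hu, huv, hub⟩ | h | h⟩
      · exact Or.inr (Or.inr ⟨u, ⟨huv, hu⟩, huniq _ (hgF u hu) _ hb u (hgJ u hu) hub⟩)
      · exact Or.inl (hF.xinj b hb bx hbx (h.trans hbxe.symm))
      · exact Or.inr (Or.inl (hF.yinj b hb by' hby (h.trans hbye.symm)))
    · rintro (rfl | rfl | ⟨u, ⟨huv, hu⟩, rfl⟩)
      · exact ⟨hbx, Or.inr (Or.inl hbxe)⟩
      · exact ⟨hby, Or.inr (Or.inr hbye)⟩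
      · exact ⟨hgF u hu, Or.inl ⟨u, hu, huv, hgJ u hu⟩⟩
  have hginj : Set.InjOn g (o'.J.erase v : Finset (Fin n)) := by
    intro u hu w hw huw
    have hu' := Finset.mem_of_mem_erase (Finset.mem_coe.1 hu)
    have hw' := Finset.mem_of_mem_erase (Finset.mem_coe.1 hw)
    by_contra hne
    refine key (g u) (hgF u hu') u w hne (hJ _ _ (hgJ u hu')) ?_ (hJ _ _ hu') (hJ _ _ hw')
    rw [huw]
    exact hJ _ _ (hgJ w hw')
  have h1 : by' ∉ (o'.J.erase v).image g := by
    intro h
    obtain ⟨u, hu, hub⟩ := Finset.mem_image.1 h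
    have hu' := Finset.mem_of_mem_erase hu
    refine key by' hby o'.y u (fun h2 => hyJ (h2 ▸ hu')) (hbye ▸ hY by') ?_ (hY o') (hJ _ _ hu')
    rw [← hub]
    exact hJ _ _ (hgJ u hu')
  have h2 : bx ∉ insert by' ((o'.J.erase v).image g) := by
    intro h
    rcases Finset.mem_insert.1 h with h | h
    · refine key bx hbx o'.x o'.y hxy (hbxe ▸ hX bx) ?_ (hX o') (hY o')
      rw [h]
      exact hbye ▸ hY by'
    · obtain ⟨u, hu, hub⟩ := Finset.mem_image.1 h
      have hu' := Finset.mem_of_mem_erase hu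
      refine key bx hbx o'.x u (fun h2 => hxJ (h2 ▸ hu')) (hbxe ▸ hX bx) ?_ (hX o') (hJ _ _ hu')
      rw [← hub]
      exact hJ _ _ (hgJ u hu')
  have hcB : (Blk F o' v).card = r - 1 := by
    rw [hblk, Finset.card_insert_of_notMem h2, Finset.card_insert_of_notMem h1,
      Finset.card_image_of_injOn hginj, Finset.card_erase_of_mem hv', hcard]
    omega
  have hBF : ∀ b ∈ Blk F o' v, b ∈ F := fun b hb => (Finset.mem_filter.1 hb).1
  constructor
  · rw [Finset.disjoint_biUnion_right]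
    intro b hb
    refine hF.dis o ho b (hBF b hb) ?_
    rintro rfl
    rcases (Finset.mem_filter.1 hb).2 with ⟨u, hu, huv, hub⟩ | h | h
    · exact key o ho u v huv (hJ _ _ hub) (hJ _ _ hv) (hJ _ _ hu) (hJ _ _ hv')
    · exact key o ho o'.x v (fun h3 => hxJ (h3 ▸ hv')) (h ▸ hX o) (hJ _ _ hv) (hX o')
        (hJ _ _ hv')
    · exact key o ho o'.y v (fun h3 => hyJ (h3 ▸ hv')) (h ▸ hY o) (hJ _ _ hv) (hY o')
        (hJ _ _ hv')
  · rw [Finset.card_biUnion fun b hb b' hb' hne => hF.dis b (hBF b hb) b' (hBF b' hb') hne,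
      Finset.sum_congr rfl fun b hb => (hF.ok b (hBF b hb)).1, Finset.sum_const, hcB,
      smul_eq_mul]
    rfl

end Pool.Agent.LHam
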