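import Pool.Agent.LHam.A4Point

set_option autoImplicit false

/-! A5. Average over the levels. -/

namespace Pool.Agent.LHam

open Finset

variable {n : ℕ}

/-- The levels with `σ v = l` and `σ u ≥ l` on `T`. -/
private def Cl (L : ℕ) (v : Fin n) (T : Finset (Fin n)) (l : Fin L) : Finset (Fin n → Fin L) :=
  univ.filter (fun σ => σ v = l ∧ ∀ u ∈ T, l ≤ σ u)

private theorem Cl_card (L : ℕ) (hL : 0 < L) (v : Fin n) (T : Finset (Fin n)) (hv : v ∉ T)
    (l : Fin L) : ((Cl L v T l).card : ℝ) =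
      (1 / (L : ℝ)) * (((L - l : ℕ) : ℝ) / L) ^ T.card * (L : ℝ) ^ n := by
  have h := count_levels L hL v T hv l
  have h0 : (L : ℝ) ^ n ≠ 0 := pow_ne_zero _ (Nat.cast_ne_zero.2 hL.ne')
  rw [div_eq_iff h0] at h
  exact h

open Classical in
/-- The edges with inner vertex `v`. -/
private noncomputable def Aa (r : ℕ) (F : Finset (OE n)) (v : Fin n) : Finset (OE n) :=
  univ.filter (fun o' : OE n => Adm r (inn F) o' ∧ v ∈ o'.J)

open Classical in
private theorem What_eq (r : ℕ) {L : ℕ} (a : OE n → ℝ) (F : Finset (OE n)) (v : Fin n)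
    (σ : Fin n → Fin L) : What r a F v σ = ∑ o' ∈ Aa r F v,
      if ∀ b ∈ Blk F o' v, ∀ u ∈ b.J, σ v ≤ σ u then a o' else 0 := by
  unfold What Aa
  rw [← Finset.sum_filter]
  refine Finset.sum_congr ?_ fun _ _ => rfl
  ext o'
  simp only [mem_filter, mem_univ, true_and, and_assoc]

open Classical in
private theorem xv_eq (r : ℕ) (a : OE n → ℝ) (F : Finset (OE n)) (v : Fin n) :
    xv r a F v = ∑ o' ∈ Aa r F v, if Exc F o' then a o' else 0 := by
  unfold xv Aa
  rw [← Finset.sum_filter]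
  refine Finset.sum_congr ?_ fun _ _ => rfl
  ext o'
  simp only [mem_filter, mem_univ, true_and, and_assoc]

private theorem av_eq (r : ℕ) (a : OE n → ℝ) (F : Finset (OE n)) (v : Fin n) :
    av r a F v = ∑ o' ∈ Aa r F v, a o' := rfl

private theorem mem_Aa {r : ℕ} {F : Finset (OE n)} {v : Fin n} {o' : OE n} :
    o' ∈ Aa r F v ↔ Adm r (inn F) o' ∧ v ∈ o'.J := by
  unfold Aa
  simp only [mem_filter, mem_univ, true_and]

open Classical in
private theorem sum_What (r : ℕ) (hr : 3 ≤ r) (L : ℕ) (hL : 0 < L) (a : OE n → ℝ)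
    (ha : ∀ o, 0 ≤ a o) (F : Finset (OE n)) (hF : IsSys r F) (o : OE n) (ho : o ∈ F) (v : Fin n)
    (hv : v ∈ o.J) (l : Fin L) :
    ∑ σ ∈ Cl L v (o.J.erase v) l, What r a F v σ ≤
      ((Cl L v (o.J.erase v) l).card : ℝ) *
        (xv r a F v + av r a F v * (((L - l : ℕ) : ℝ) / L) ^ qe r) := by
  set C := Cl L v (o.J.erase v) l with hC
  set y : ℝ := ((L - l : ℕ) : ℝ) / L with hy
  have hy0 : 0 ≤ y := by positivity
  simp_rw [What_eq]
  rw [Finset.sum_comm]
  have h1 : ∀ o' ∈ Aa r F v, (∑ σ ∈ C,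
      if ∀ b ∈ Blk F o' v, ∀ u ∈ b.J, σ v ≤ σ u then a o' else 0) ≤
        (C.card : ℝ) * (if Exc F o' then a o' else 0) + (C.card : ℝ) * (a o' * y ^ qe r) := by
    intro o' ho'
    obtain ⟨hA, hv'⟩ := mem_Aa.1 ho'
    rw [← Finset.sum_filter, Finset.sum_const, nsmul_eq_mul]
    by_cases hE : Exc F o'
    · rw [if_pos hE]
      have h2 : ((C.filter fun σ => ∀ b ∈ Blk F o' v, ∀ u ∈ b.J, σ v ≤ σ u).card : ℝ) ≤
          (C.card : ℝ) := by exact_mod_cast Finset.card_filter_le _ _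
      have h3 := mul_le_mul_of_nonneg_right h2 (ha o')
      have h4 : 0 ≤ (C.card : ℝ) * (a o' * y ^ qe r) := by
        have := ha o'
        positivity
      linarith
    · rw [if_neg hE, mul_zero, zero_add]
      obtain ⟨hd, hc⟩ := blk_card r hr F hF o o' ho v hv hv' hA hE
      have hvT : v ∉ (o.J.erase v) ∪ ((Blk F o' v).biUnion fun b => b.J) := by
        rw [mem_union, not_or]
        exact ⟨Finset.notMem_erase v _, fun h => (Finset.disjoint_left.1 hd) hv h⟩
      have hfil : (C.filter fun σ => ∀ b ∈ Blk F o' v, ∀ u ∈ b.J, σ v ≤ σ u) =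
          Cl L v ((o.J.erase v) ∪ ((Blk F o' v).biUnion fun b => b.J)) l := by
        ext σ
        rw [hC]
        unfold Cl
        simp only [mem_filter, mem_univ, true_and, mem_union, mem_biUnion]
        constructor
        · rintro ⟨⟨e, h5⟩, h6⟩
          refine ⟨e, fun u hu => ?_⟩
          rcases hu with hu | ⟨b, hb, hu⟩
          · exact h5 u hu
          · rw [← e]
            exact h6 b hb u hu
        · rintro ⟨e, h5⟩
          refine ⟨⟨e, fun u hu => h5 u (Or.inl hu)⟩, fun b hb u hu => ?_⟩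
          rw [e]
          exact h5 u (Or.inr ⟨b, hb, hu⟩)
      have hcard : ((o.J.erase v) ∪ ((Blk F o' v).biUnion fun b => b.J)).card =
          (o.J.erase v).card + qe r := by
        rw [Finset.card_union_of_disjoint (hd.mono_left (Finset.erase_subset v _)), hc]
      rw [hfil, Cl_card L hL v _ hvT l, hcard, hC, Cl_card L hL v _ (Finset.notMem_erase v _) l,
        pow_add, ← hy]
      apply le_of_eq
      ring
  refine (Finset.sum_le_sum h1).trans (le_of_eq ?_)
  rw [Finset.sum_add_distrib, ← Finset.mul_sum, ← Finset.mul_sum, ← Finset.sum_mul, ← xv_eq,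
    ← av_eq]
  ring

private theorem What_nonneg (r : ℕ) {L : ℕ} (a : OE n → ℝ) (ha : ∀ o, 0 ≤ a o)
    (F : Finset (OE n)) (v : Fin n) (σ : Fin n → Fin L) : 0 ≤ What r a F v σ := by
  unfold What
  exact Finset.sum_nonneg fun o _ => ha o

private theorem xv_nonneg (r : ℕ) (a : OE n → ℝ) (ha : ∀ o, 0 ≤ a o)
    (F : Finset (OE n)) (v : Fin n) : 0 ≤ xv r a F v := by
  unfold xv
  exact Finset.sum_nonneg fun o _ => ha o

private theorem av_nonneg (r : ℕ) (a : OE n → ℝ) (ha : ∀ o, 0 ≤ a o)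
    (F : Finset (OE n)) (v : Fin n) : 0 ≤ av r a F v := by
  unfold av
  exact Finset.sum_nonneg fun o _ => ha o

/-- One level. -/
private theorem one_level (r : ℕ) (hr : 3 ≤ r) (L : ℕ) (hL : 0 < L) (a : OE n → ℝ)
    (ha : ∀ o, 0 ≤ a o) (F : Finset (OE n)) (hF : IsSys r F) (o : OE n) (ho : o ∈ F) (v : Fin n)
    (hv : v ∈ o.J) (l : Fin L) :
    (∑ σ ∈ Cl L v (o.J.erase v) l, Real.log (1 + What r a F v σ)) / (L : ℝ) ^ n ≤
      (1 / (L : ℝ)) * (((L - l : ℕ) : ℝ) / L) ^ (r - 3) *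
        Real.log (1 + xv r a F v + av r a F v * (((L - l : ℕ) : ℝ) / L) ^ qe r) := by
  have hLn : 0 < (L : ℝ) ^ n := by
    have : (0 : ℝ) < L := Nat.cast_pos.2 hL
    positivity
  have hoc : (o.J.erase v).card = r - 3 := by
    rw [Finset.card_erase_of_mem hv, (hF.ok o ho).1]
    omega
  have h1 := sum_What r hr L hL a ha F hF o ho v hv l
  set C := Cl L v (o.J.erase v) l with hC
  set y : ℝ := ((L - l : ℕ) : ℝ) / L with hy
  have hy0 : 0 ≤ y := by positivity
  obtain ⟨m, hm⟩ : ∃ m : ℝ, m = 1 + xv r a F v + av r a F v * y ^ qe r := ⟨_, rfl⟩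
  have hx := xv_nonneg r a ha F v
  have hav := av_nonneg r a ha F v
  have hm0 : 0 < m := by
    rw [hm]
    positivity
  have h2 : ∀ σ : Fin n → Fin L, Real.log (1 + What r a F v σ) ≤
      Real.log m + ((1 + What r a F v σ) / m - 1) := by
    intro σ
    have h3 : 0 < 1 + What r a F v σ := by
      have := What_nonneg r a ha F v σ
      positivity
    have h4 := Real.log_le_sub_one_of_pos (div_pos h3 hm0)
    rw [Real.log_div h3.ne' hm0.ne'] at h4
    linarith
  have h5 : ∑ σ ∈ C, Real.log (1 + What r a F v σ) ≤ (C.card : ℝ) * Real.log m := by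
    refine (Finset.sum_le_sum fun σ _ => h2 σ).trans ?_
    rw [Finset.sum_add_distrib, Finset.sum_const, nsmul_eq_mul, Finset.sum_sub_distrib,
      ← Finset.sum_div, Finset.sum_add_distrib, Finset.sum_const, nsmul_eq_mul, mul_one]
    have h6 : ((C.card : ℝ) + ∑ σ ∈ C, What r a F v σ) / m ≤ (C.card : ℝ) := by
      rw [div_le_iff₀ hm0, hm]
      nlinarith
    linarith
  rw [div_le_iff₀ hLn, ← hm]
  refine h5.trans (le_of_eq ?_)
  rw [hC, Cl_card L hL v _ (Finset.notMem_erase v _) l, hoc, ← hy]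
  ring

/-- One pair `(o, v)`. -/
private theorem one_pair (r : ℕ) (hr : 3 ≤ r) (L : ℕ) (hL : 0 < L) (a : OE n → ℝ)
    (ha : ∀ o, 0 ≤ a o) (F : Finset (OE n)) (hF : IsSys r F) (o : OE n) (ho : o ∈ F) (v : Fin n)
    (hv : v ∈ o.J) :
    (∑ σ : Fin n → Fin L,
      if ∀ u ∈ o.J, σ v ≤ σ u then Real.log (1 + What r a F v σ) else 0) / (L : ℝ) ^ n ≤
      ∑ l ∈ range L, (1 / (L : ℝ)) * (((L - l : ℕ) : ℝ) / L) ^ (r - 3) *
        Real.log (1 + xv r a F v + av r a F v * (((L - l : ℕ) : ℝ) / L) ^ qe r) := by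
  rw [Finset.sum_range, ← Finset.sum_fiberwise univ (fun σ : Fin n → Fin L => σ v),
    Finset.sum_div]
  refine Finset.sum_le_sum fun l _ => ?_
  refine le_trans (le_of_eq ?_) (one_level r hr L hL a ha F hF o ho v hv l)
  congr 1
  rw [← Finset.sum_filter, Finset.filter_filter]
  refine Finset.sum_congr ?_ fun _ _ => rfl
  ext σ
  unfold Cl
  simp only [mem_filter, mem_univ, true_and, mem_erase]
  constructor
  · rintro ⟨e, h⟩
    refine ⟨e, fun u hu => ?_⟩
    rw [← e]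
    exact h u hu.2
  · rintro ⟨e, h⟩
    refine ⟨e, fun u hu => ?_⟩
    rw [e]
    by_cases huv : u = v
    · rw [huv, e]
    · exact h u ⟨huv, hu⟩

/-- **Average over the levels.**

Proof. By `point` it is enough to bound, for `o ∈ F` and `v ∈ o.J`, the average over `σ` of
`1[∀ u ∈ o.J, σ v ≤ σ u] log (1 + What v σ)`, and the sum over `o ∈ F`, `v ∈ o.J` is the sum over
`v ∈ inn F` (disjoint inner sets). Split by `l = σ v`: condition `C`: `σ v = l`, `l ≤ σ u` for
`u ∈ o.J \ {v}`, of proportion `P = (1 / L) y ^ (r - 3)` (`count_levels`, `|o.J \ {v}| = r - 3`). By Jensen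
(concavity of `log`), `∑_{σ ∈ C} log (1 + What) ≤ |C| log (1 + (1 / |C|) ∑_{σ ∈ C} What)`, and
`∑_{σ ∈ C} What / L ^ n = ∑ o', a o' * (proportion of the σ ∈ C with l ≤ σ u on all blocks of Blk F o' v)`,
which is `≤ P` for exceptional `o'` and `= (1 / L) y ^ (r - 3 + q) = P y ^ q` for the others
(`blk_card`, `count_levels` with `T = (o.J \ {v}) ∪ ⋃ b.J`). So the average of `What` on `C` is
`≤ xv v + av v * y ^ q` and `log` is monotone. (`|C| > 0` since `y > 0`.) -/
theorem avgW (r : ℕ) (hr : 3 ≤ r) (L : ℕ) (hL : 0 < L) (a : OE n → ℝ) (ha : ∀ o, 0 ≤ a o)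
    (F : Finset (OE n)) (hF : IsSys r F) :
    (∑ σ : Fin n → Fin L, ∑ o ∈ F, Real.log (Wt r a (rk σ) F o)) / (L : ℝ) ^ n ≤
      ∑ v ∈ inn F, ∑ l ∈ range L, (1 / (L : ℝ)) * (((L - l : ℕ) : ℝ) / L) ^ (r - 3) *
        Real.log (1 + xv r a F v + av r a F v * (((L - l : ℕ) : ℝ) / L) ^ qe r) := by
  have hLn : 0 < (L : ℝ) ^ n := by
    have : (0 : ℝ) < L := Nat.cast_pos.2 hL
    positivity
  have h1 : ∑ σ : Fin n → Fin L, ∑ o ∈ F, Real.log (Wt r a (rk σ) F o) ≤
      ∑ σ : Fin n → Fin L, ∑ o ∈ F, ∑ v ∈ o.J,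
        (if ∀ u ∈ o.J, σ v ≤ σ u then Real.log (1 + What r a F v σ) else 0) :=
    Finset.sum_le_sum fun σ _ => Finset.sum_le_sum fun o ho => point r hr a ha F hF σ o ho
  refine (div_le_div_of_nonneg_right h1 hLn.le).trans ?_
  rw [Finset.sum_comm, Finset.sum_div]
  have h2 : inn F = F.biUnion fun o => o.J := rfl
  rw [h2, Finset.sum_biUnion (fun o ho o' ho' hne => hF.dis o ho o' ho' hne)]
  refine Finset.sum_le_sum fun o ho => ?_
  rw [Finset.sum_comm, Finset.sum_div]
  exact Finset.sum_le_sum fun v hv => one_pair r hr L hL a ha F hF o ho v hv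

end Pool.Agent.LHam
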