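import Pool.Agent.LHam.SysDefs

set_option autoImplicit false

/-! A7. The Riemann sum of the guessing bound. -/

namespace Pool.Agent.LHam

open Finset Filter Topology MeasureTheory

private theorem A7_riem {φ : ℝ → ℝ} (hm : MonotoneOn φ (Set.Icc 0 1)) (h0 : 0 ≤ φ 0) {L : ℕ}
    (hL : 0 < L) :
    ∑ j ∈ range L, φ (((j + 1 : ℕ) : ℝ) / L) ≤ L * (∫ y in (0 : ℝ)..1, φ y) + φ 1 := by
  have hL' : (0 : ℝ) < L := by exact_mod_cast hL
  have hmono : MonotoneOn (fun t : ℝ => φ (t / L)) (Set.Icc (0 : ℝ) (0 + (L : ℕ))) := by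
    intro x hx y hy hxy
    rw [zero_add] at hx hy
    exact hm ⟨div_nonneg hx.1 hL'.le, (div_le_one hL').2 hx.2⟩
      ⟨div_nonneg hy.1 hL'.le, (div_le_one hL').2 hy.2⟩ (div_le_div_of_nonneg_right hxy hL'.le)
  have h1 := hmono.sum_le_integral
  simp only [zero_add] at h1
  rw [intervalIntegral.integral_comp_div φ hL'.ne', zero_div, div_self hL'.ne', smul_eq_mul] at h1
  have h2 : ∑ j ∈ range L, φ (((j + 1 : ℕ) : ℝ) / L) + φ 0 =
      ∑ j ∈ range L, φ ((j : ℝ) / L) + φ 1 := by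
    have h3 := Finset.sum_range_succ' (fun j : ℕ => φ ((j : ℝ) / L)) L
    have h4 := Finset.sum_range_succ (fun j : ℕ => φ ((j : ℝ) / L)) L
    rw [h4, div_self hL'.ne', Nat.cast_zero, zero_div] at h3
    exact h3.symm
  linarith

private theorem A7_int (s : ℕ) :
    ∫ y in (0 : ℝ)..1, y ^ s * Real.log y = -(1 / ((s : ℝ) + 1) ^ 2) := by
  have hs : (s : ℝ) + 1 ≠ 0 := by positivity
  have hc : Continuous fun y : ℝ => y ^ (s + 1) * Real.log y / ((s : ℝ) + 1) -
      y ^ (s + 1) / ((s : ℝ) + 1) ^ 2 := by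
    have h1 : (fun y : ℝ => y ^ (s + 1) * Real.log y / ((s : ℝ) + 1) -
        y ^ (s + 1) / ((s : ℝ) + 1) ^ 2) = fun y : ℝ => y ^ s * (y * Real.log y) / ((s : ℝ) + 1) -
        y ^ (s + 1) / ((s : ℝ) + 1) ^ 2 := by
      funext y
      ring
    rw [h1]
    exact (((continuous_pow s).mul Real.continuous_mul_log).div_const _).sub
      ((continuous_pow (s + 1)).div_const _)
  have hint : IntervalIntegrable (fun y : ℝ => y ^ s * Real.log y) volume 0 1 :=
    intervalIntegral.intervalIntegrable_log'.continuousOn_mul (continuous_pow s).continuousOn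
  have h1 := intervalIntegral.integral_eq_sub_of_hasDerivAt_of_le (a := 0) (b := 1) zero_le_one
    hc.continuousOn (f' := fun y => y ^ s * Real.log y) (fun y hy => by
      have hy0 : y ≠ 0 := hy.1.ne'
      have h2 := (((hasDerivAt_pow (s + 1) y).mul (Real.hasDerivAt_log hy0)).div_const
        ((s : ℝ) + 1)).sub ((hasDerivAt_pow (s + 1) y).div_const (((s : ℝ) + 1) ^ 2))
      refine h2.congr_deriv ?_
      rw [Nat.add_sub_cancel]
      push_cast
      field_simp
      ring) hint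
  rw [h1]
  simp

private theorem A7_lim (s q : ℕ) :
    Tendsto (fun ε : ℝ => ∫ y in (0 : ℝ)..1, y ^ s * Real.log (ε + y ^ q)) (𝓝[>] 0)
      (𝓝 (∫ y in (0 : ℝ)..1, y ^ s * ((q : ℝ) * Real.log y))) := by
  refine intervalIntegral.tendsto_integral_filter_of_dominated_convergence
    (fun y => (q : ℝ) * |Real.log y| + Real.log 2) ?_ ?_ ?_ ?_
  · refine Filter.Eventually.of_forall fun ε => ?_
    exact ((measurable_id.pow_const s).mul (Real.measurable_log.comp
      (measurable_const.add (measurable_id.pow_const q)))).aestronglyMeasurable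
  · filter_upwards [Ioo_mem_nhdsGT (one_pos : (0 : ℝ) < 1)] with ε hε
    refine Filter.Eventually.of_forall fun y hy => ?_
    rw [Set.uIoc_of_le zero_le_one] at hy
    have hy1 : 0 < y ^ q := pow_pos hy.1 q
    have hy2 : y ^ q ≤ 1 := pow_le_one₀ hy.1.le hy.2
    have hy3 : y ^ s ≤ 1 := pow_le_one₀ hy.1.le hy.2
    have hy4 : 0 ≤ y ^ s := pow_nonneg hy.1.le s
    have h1 : Real.log (y ^ q) ≤ Real.log (ε + y ^ q) :=
      Real.log_le_log hy1 (by linarith [hε.1])
    have h2 : Real.log (ε + y ^ q) ≤ Real.log 2 :=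
      Real.log_le_log (by linarith [hε.1]) (by linarith [hε.2])
    rw [Real.log_pow] at h1
    have h3 : 0 ≤ Real.log 2 := Real.log_nonneg (by norm_num)
    have h4 : -((q : ℝ) * |Real.log y|) ≤ (q : ℝ) * Real.log y := by
      have h5 := neg_abs_le (Real.log y)
      have h6 := mul_le_mul_of_nonneg_left h5 (Nat.cast_nonneg (α := ℝ) q)
      linarith
    have h5 : 0 ≤ (q : ℝ) * |Real.log y| := by positivity
    have h6 : |Real.log (ε + y ^ q)| ≤ (q : ℝ) * |Real.log y| + Real.log 2 := by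
      rw [abs_le]
      constructor <;> linarith
    rw [Real.norm_eq_abs, abs_mul, abs_of_nonneg hy4]
    calc y ^ s * |Real.log (ε + y ^ q)| ≤ 1 * |Real.log (ε + y ^ q)| :=
          mul_le_mul_of_nonneg_right hy3 (abs_nonneg _)
      _ ≤ _ := by rw [one_mul]; exact h6
  · exact (intervalIntegral.intervalIntegrable_log'.abs.const_mul _).add intervalIntegrable_const
  · refine Filter.Eventually.of_forall fun y hy => ?_
    rw [Set.uIoc_of_le zero_le_one] at hy
    have hy1 : 0 < y ^ q := pow_pos hy.1 q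
    have h1 : Tendsto (fun ε : ℝ => ε + y ^ q) (𝓝[>] 0) (𝓝 (0 + y ^ q)) :=
      (tendsto_id.mono_left nhdsWithin_le_nhds).add tendsto_const_nhds
    rw [zero_add] at h1
    have h2 := (Real.continuousAt_log hy1.ne').tendsto.comp h1
    rw [Real.log_pow] at h2
    exact tendsto_const_nhds.mul h2

/-- **The Riemann sum.** `∫₀¹ y^(r-3) log y dy = -1/(r-2)^2` and `q / (r-2)^2 = (r-1)/(r-2)`.

Proof. `log (b + a y^q) = log a + log (b / a + y^q) ≤ log a + log (ε₁ + y^q)` for `0 < y ≤ 1` (`a > 0` since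
`b ≥ 1`). The points `y = (L - l) / L`, `l < L`, are `1 / L, .., 1`. First part:
`(1 / L) ∑ y^(r-3) → 1 / (r - 2)` as `L → ∞` (Riemann sum of `y^(r-3)`; or
`∑_{j ≤ L} j^(r-3) ∈ [L^(r-2)/(r-2), L^(r-2)/(r-2) + L^(r-3)]`). Second part:
`(1 / L) ∑ y^(r-3) log (ε₁ + y^q) → ∫₀¹ y^(r-3) log (ε₁ + y^q) dy =: g(ε₁)` (continuous function on `[0, 1]`;
monotone functions are enough: `log (ε₁ + y^q) = (log (ε₁ + y^q) - log ε₁) + log ε₁` and
`y^(r-3) (log (ε₁ + y^q) - log ε₁)` is nonnegative and increasing, so the sum exceeds the integral by at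
most `(1 / L) * (value at 1)`), and `g(ε₁) → ∫₀¹ y^(r-3) q log y dy = -q/(r-2)^2` as `ε₁ → 0`
(for instance `log (ε + y^q) ≤ q log (y + ε^(1/q))`, substitute `z = y + ε^(1/q)`; or dominated
convergence). Choose `ε₁` with `g(ε₁) ≤ -(r-1)/(r-2) + κ₁ / 2`. -/
theorem riemann (r : ℕ) (hr : 3 ≤ r) (κ₁ : ℝ) (hκ : 0 < κ₁) :
    ∃ ε₁ : ℝ, 0 < ε₁ ∧ ∀ a b : ℝ, 1 ≤ b → b ≤ ε₁ * a → ∃ L₀ : ℕ, ∀ L ≥ L₀, 0 < L →
      Rsum r L b a ≤ Real.log a / ((r : ℝ) - 2) - ((r : ℝ) - 1) / ((r : ℝ) - 2) + κ₁ := by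
  obtain ⟨s, rfl⟩ : ∃ s, r = s + 3 := ⟨r - 3, by omega⟩
  have hs : (s : ℝ) + 1 ≠ 0 := by positivity
  have hqe : ((qe (s + 3) : ℕ) : ℝ) = ((s : ℝ) + 2) * (s + 1) := by
    have h1 : qe (s + 3) = (s + 2) * (s + 1) := rfl
    rw [h1]
    push_cast
    ring
  set q : ℕ := qe (s + 3) with hq
  have hval : ∫ y in (0 : ℝ)..1, y ^ s * ((q : ℝ) * Real.log y) =
      -(((s : ℝ) + 2) / (s + 1)) := by
    have h1 : (fun y : ℝ => y ^ s * ((q : ℝ) * Real.log y)) =
        fun y : ℝ => (q : ℝ) * (y ^ s * Real.log y) := by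
      funext y
      ring
    rw [h1, intervalIntegral.integral_const_mul, A7_int, hqe]
    field_simp
  have hlim := A7_lim s q
  rw [hval] at hlim
  have hev := hlim.eventually (gt_mem_nhds (show -(((s : ℝ) + 2) / (s + 1)) <
    -(((s : ℝ) + 2) / (s + 1)) + κ₁ / 2 by linarith))
  obtain ⟨ε₁, hε, hε0⟩ := (hev.and self_mem_nhdsWithin).exists
  have hε0' : (0 : ℝ) < ε₁ := hε0
  refine ⟨ε₁, hε0', fun a b hb hba => ?_⟩
  have ha : 0 < a := by
    by_contra h
    have h1 := mul_nonpos_of_nonneg_of_nonpos hε0'.le (not_lt.1 h)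
    linarith
  -- the monotone function
  set φ : ℝ → ℝ := fun y => y ^ s * Real.log (b + a * y ^ q) with hφ
  have hpos : ∀ y : ℝ, 0 ≤ y → 1 ≤ b + a * y ^ q := fun y hy => by
    have := mul_nonneg ha.le (pow_nonneg hy q)
    linarith
  have hmono : MonotoneOn φ (Set.Icc 0 1) := by
    intro x hx y hy hxy
    have h1 : b + a * x ^ q ≤ b + a * y ^ q := by
      have := mul_le_mul_of_nonneg_left (pow_le_pow_left₀ hx.1 hxy q) ha.le
      linarith
    exact mul_le_mul (pow_le_pow_left₀ hx.1 hxy s)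
      (Real.log_le_log (by linarith [hpos x hx.1]) h1) (Real.log_nonneg (hpos x hx.1))
      (pow_nonneg hy.1 s)
  have hφ0 : 0 ≤ φ 0 := mul_nonneg (pow_nonneg le_rfl s) (Real.log_nonneg (hpos 0 le_rfl))
  have hφ1 : φ 1 = Real.log (b + a) := by
    rw [hφ]
    simp
  have hI : ∫ y in (0 : ℝ)..1, φ y ≤ Real.log a / ((s : ℝ) + 1) +
      ∫ y in (0 : ℝ)..1, y ^ s * Real.log (ε₁ + y ^ q) := by
    have hφi : IntervalIntegrable φ volume 0 1 := by
      refine MonotoneOn.intervalIntegrable ?_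
      rwa [Set.uIcc_of_le zero_le_one]
    have hci : ContinuousOn (fun y : ℝ => y ^ s * Real.log (ε₁ + y ^ q)) (Set.uIcc 0 1) := by
      rw [Set.uIcc_of_le zero_le_one]
      refine (continuous_pow s).continuousOn.mul (ContinuousOn.log
        (continuousOn_const.add (continuous_pow q).continuousOn) fun y hy => ?_)
      have := pow_nonneg hy.1 q
      have h2 : 0 < ε₁ + y ^ q := by linarith
      exact h2.ne'
    have hgi : IntervalIntegrable (fun y : ℝ => y ^ s * Real.log (ε₁ + y ^ q)) volume 0 1 :=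
      hci.intervalIntegrable
    have hli : IntervalIntegrable (fun y : ℝ => Real.log a * y ^ s) volume 0 1 :=
      (continuous_const.mul (continuous_pow s)).intervalIntegrable 0 1
    have h1 : ∫ y in (0 : ℝ)..1, φ y ≤
        ∫ y in (0 : ℝ)..1, (Real.log a * y ^ s + y ^ s * Real.log (ε₁ + y ^ q)) := by
      refine intervalIntegral.integral_mono_on zero_le_one hφi (hli.add hgi) fun y hy => ?_
      have hy1 : 0 ≤ y ^ q := pow_nonneg hy.1 q
      have h2 : b + a * y ^ q ≤ a * (ε₁ + y ^ q) := by nlinarith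
      have h3 : Real.log (b + a * y ^ q) ≤ Real.log a + Real.log (ε₁ + y ^ q) := by
        rw [← Real.log_mul ha.ne' (by linarith)]
        exact Real.log_le_log (by linarith [hpos y hy.1]) h2
      have h4 := mul_le_mul_of_nonneg_left h3 (pow_nonneg hy.1 s)
      change y ^ s * Real.log (b + a * y ^ q) ≤ _
      linarith
    rw [intervalIntegral.integral_add hli hgi, intervalIntegral.integral_const_mul,
      integral_pow] at h1
    have h2 : Real.log a * ((1 ^ (s + 1) - 0 ^ (s + 1)) / ((s : ℝ) + 1)) =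
        Real.log a / ((s : ℝ) + 1) := by
      rw [one_pow, zero_pow (Nat.succ_ne_zero s), sub_zero, mul_one_div]
    rw [h2] at h1
    exact h1
  refine ⟨⌈2 * Real.log (b + a) / κ₁⌉₊, fun L hL hL0 => ?_⟩
  have hL' : (0 : ℝ) < L := by exact_mod_cast hL0
  have hL1 : 2 * Real.log (b + a) / κ₁ ≤ L := (Nat.le_ceil _).trans (by exact_mod_cast hL)
  have hL2 : Real.log (b + a) / L ≤ κ₁ / 2 := by
    rw [div_le_iff₀ hκ] at hL1
    rw [div_le_iff₀ hL']
    linarith
  have hR : Rsum (s + 3) L b a = (1 / (L : ℝ)) * ∑ j ∈ range L, φ (((j + 1 : ℕ) : ℝ) / L) := by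
    unfold Rsum
    rw [← Finset.sum_range_reflect, Finset.mul_sum]
    refine Finset.sum_congr rfl fun j hj => ?_
    have hj' := Finset.mem_range.1 hj
    have h1 : L - (L - 1 - j) = j + 1 := by omega
    rw [h1, hφ]
    simp only [Nat.add_sub_cancel]
    rw [mul_assoc]
  have h1 := A7_riem hmono hφ0 hL0
  have h2 : Rsum (s + 3) L b a ≤ (∫ y in (0 : ℝ)..1, φ y) + Real.log (b + a) / L := by
    rw [hR]
    calc (1 / (L : ℝ)) * ∑ j ∈ range L, φ (((j + 1 : ℕ) : ℝ) / L)
        ≤ (1 / (L : ℝ)) * (L * (∫ y in (0 : ℝ)..1, φ y) + φ 1) :=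
          mul_le_mul_of_nonneg_left h1 (by positivity)
      _ = _ := by rw [hφ1]; field_simp
  have h3 : ((s + 3 : ℕ) : ℝ) - 2 = (s : ℝ) + 1 := by push_cast; ring
  have h4 : ((s + 3 : ℕ) : ℝ) - 1 = (s : ℝ) + 2 := by push_cast; ring
  rw [h3, h4]
  linarith

end Pool.Agent.LHam
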