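import Pool.Agent.LHam.BDefs

set_option autoImplicit false

/-! B1. Forward and backward bounds for the trajectories. -/

namespace Pool.Agent.LHam

open Finset

variable {r n : ℕ}

theorem Gt_nonneg (S : FD r n) (c τ θ : ℝ) (M₀ : ℕ) (q : ℝ) (hq : 0 ≤ q) (i : ℕ) (μ : Mu n) :
    0 ≤ Gt S c τ θ M₀ q i μ := by
  induction i generalizing μ with
  | zero =>
    unfold Gt
    split_ifs
    · exact zero_le_one
    · exact le_rfl
  | succ i ih =>
    unfold Gt
    split_ifs
    · refine Finset.sum_nonneg fun Z _ => mul_nonneg (by positivity) (mul_nonneg ?_ (ih _))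
      split_ifs
      · exact hq
      · exact zero_le_one
    · exact le_rfl

open Classical in
private theorem b1_succ (S : FD r n) (c τ θ : ℝ) (M₀ : ℕ) (q : ℝ) (i : ℕ) (μ : Mu n) :
    Gt S c τ θ M₀ q (i + 1) μ = if Nn S c θ μ ∧ Aa S c τ (M₀ + i + 1) μ then
      ∑ Z ∈ Er r n, (μ Z : ℝ) / ((M₀ : ℝ) + i + 1) *
        ((if S.bad (c * S.Ψ (dn μ Z)) (dn μ Z) Z then q else 1) * Gt S c τ θ M₀ q i (dn μ Z))
      else 0 := rfl

private theorem b1_zero (S : FD r n) (c τ θ : ℝ) (M₀ : ℕ) (q : ℝ) (i : ℕ) (μ : Mu n)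
    (h : ¬ Nn S c θ μ) : Gt S c τ θ M₀ q i μ = 0 := by
  cases i with
  | zero =>
    unfold Gt
    rw [if_neg h]
  | succ i =>
    unfold Gt
    rw [if_neg fun h' => h h'.1]

/-- Splitting according to the number of bad steps: for every integer `a`
`1 ≤ e^(a - J) + u^(J - a)` for all `J ≥ 0`. Proof by induction on `i` (for all `a`): `i = 0`: if `a ≥ 0` then
`exp a ≥ 1`, else `u ^ (-a) ≥ 1`. Step: apply the induction hypothesis to each `dn μ Z` with `a - 1` if
the deletion is bad and with `a` otherwise. -/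
theorem Gt_split (S : FD r n) (c τ θ : ℝ) (M₀ : ℕ) (u : ℝ) (hu : 1 ≤ u) (i : ℕ) (a : ℤ)
    (μ : Mu n) :
    Gt S c τ θ M₀ 1 i μ ≤ Real.exp a * Gt S c τ θ M₀ (Real.exp (-1)) i μ +
      u ^ (-a) * Gt S c τ θ M₀ u i μ := by
  have hu0 : 0 < u := lt_of_lt_of_le zero_lt_one hu
  induction i generalizing a μ with
  | zero =>
    unfold Gt
    split_ifs
    · rw [mul_one, mul_one]
      rcases le_or_gt 0 a with ha | ha
      · have h1 : 1 ≤ Real.exp a := Real.one_le_exp (by exact_mod_cast ha)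
        have h2 : 0 < u ^ (-a) := zpow_pos hu0 _
        linarith
      · have h1 : 0 < Real.exp a := Real.exp_pos _
        have h2 : 1 ≤ u ^ (-a) := one_le_zpow₀ hu (by omega)
        linarith
    · simp
  | succ i ih =>
    unfold Gt
    split_ifs
    · rw [Finset.mul_sum, Finset.mul_sum, ← Finset.sum_add_distrib]
      refine Finset.sum_le_sum fun Z _ => ?_
      have hw : 0 ≤ (μ Z : ℝ) / ((M₀ : ℝ) + i + 1) := by positivity
      split_ifs
      · have h1 := ih (a - 1) (dn μ Z)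
        have h2 : Real.exp ((a - 1 : ℤ) : ℝ) = Real.exp a * Real.exp (-1) := by
          rw [← Real.exp_add]
          push_cast
          ring_nf
        have h3 : u ^ (-(a - 1)) = u ^ (-a) * u := by
          rw [← zpow_add_one₀ hu0.ne']
          congr 1
          ring
        rw [h2, h3] at h1
        have h4 := mul_le_mul_of_nonneg_left h1 hw
        linarith
      · have h1 := ih a (dn μ Z)
        have h4 := mul_le_mul_of_nonneg_left h1 hw
        linarith
    · simp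

/-- **Forward bound.** Induction on `i`. `i = 0`: `≤ 1`. Step: drop the condition in `Gt (i + 1)` (all terms
are `≥ 0`), by `EM_ex` (with `G ν Z = (if bad (c Ψ ν) ν Z then q else 1) * Gt q i ν`, level `M₀ + i`)
`EM (M₀ + i + 1) (Gt q (i + 1)) ≤ EM (M₀ + i) (fun ν => (∑ Z ∈ Er, (if bad .. then q else 1) * Gt q i ν) / T)`, and
`Gt q i ν = 0` unless `Nn S c θ ν`, in which case `(∑ Z ∈ Er, if bad then q else 1) / T ≤ 1 - θ (1 - q)`. -/
theorem Gt_forward (S : FD r n) (hT : 0 < (Er r n).card) (c τ θ : ℝ) (hθ : 0 ≤ θ)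
    (hθ1 : θ ≤ 1) (M₀ : ℕ) (q : ℝ) (hq : 0 ≤ q) (hq1 : q ≤ 1) (i : ℕ) :
    EM r n (M₀ + i) (Gt S c τ θ M₀ q i) ≤ (1 - θ * (1 - q)) ^ i := by
  classical
  have hT' : (0 : ℝ) < (Er r n).card := by exact_mod_cast hT
  have hp0 : 0 ≤ 1 - θ * (1 - q) := by nlinarith
  have hp1 : 0 ≤ 1 - q := by linarith
  induction i with
  | zero =>
    rw [pow_zero, add_zero]
    have h1 : EM r n M₀ (Gt S c τ θ M₀ q 0) ≤ EM r n M₀ (fun _ => 1) := by
      refine EM_mono r M₀ _ _ fun μ _ => ?_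
      unfold Gt
      split_ifs
      · exact le_rfl
      · exact zero_le_one
    rwa [EM_const r M₀ hT] at h1
  | succ i ih =>
    have hex := EM_ex r (M₀ + i) (fun (ν : Mu n) (Z : Finset (Fin n)) =>
      (if S.bad (c * S.Ψ ν) ν Z then q else 1) * Gt S c τ θ M₀ q i ν)
    have h1 : EM r n (M₀ + (i + 1)) (Gt S c τ θ M₀ q (i + 1)) ≤
        EM r n (M₀ + i + 1) (fun μ => ∑ Z ∈ Er r n, (μ Z : ℝ) / (((M₀ + i : ℕ) : ℝ) + 1) *
          ((if S.bad (c * S.Ψ (dn μ Z)) (dn μ Z) Z then q else 1) *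
            Gt S c τ θ M₀ q i (dn μ Z))) := by
      rw [← add_assoc]
      refine EM_mono r _ _ _ fun μ _ => ?_
      have h2 : ∀ Z ∈ Er r n, (0 : ℝ) ≤ (μ Z : ℝ) / (((M₀ + i : ℕ) : ℝ) + 1) *
          ((if S.bad (c * S.Ψ (dn μ Z)) (dn μ Z) Z then q else 1) *
            Gt S c τ θ M₀ q i (dn μ Z)) := by
        intro Z _
        refine mul_nonneg (by positivity) (mul_nonneg ?_ (Gt_nonneg S c τ θ M₀ q hq i _))
        split_ifs
        · exact hq
        · exact zero_le_one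
      rw [b1_succ]
      by_cases hcd : Nn S c θ μ ∧ Aa S c τ (M₀ + i + 1) μ
      · rw [if_pos hcd]
        refine le_of_eq (Finset.sum_congr rfl fun Z _ => ?_)
        rw [Nat.cast_add]
      · rw [if_neg hcd]
        exact Finset.sum_nonneg h2
    refine h1.trans (le_trans (le_of_eq hex.symm) ?_)
    have h3 : EM r n (M₀ + i) (fun μ => (∑ Z ∈ Er r n, (fun (ν : Mu n) (Z : Finset (Fin n)) =>
        (if S.bad (c * S.Ψ ν) ν Z then q else 1) * Gt S c τ θ M₀ q i ν) μ Z) / (Er r n).card) ≤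
        EM r n (M₀ + i) (fun μ => (1 - θ * (1 - q)) * Gt S c τ θ M₀ q i μ) := by
      refine EM_mono r _ _ _ fun μ _ => ?_
      by_cases hN : Nn S c θ μ
      · have hG := Gt_nonneg S c τ θ M₀ q hq i μ
        dsimp only
        rw [← Finset.sum_mul, mul_div_right_comm]
        refine mul_le_mul_of_nonneg_right ?_ hG
        rw [div_le_iff₀ hT']
        have h4 : ∀ Z ∈ Er r n, (if S.bad (c * S.Ψ μ) μ Z then q else (1 : ℝ)) =
            1 - (1 - q) * (if S.bad (c * S.Ψ μ) μ Z then 1 else 0) := by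
          intro Z _
          split_ifs
          · ring
          · ring
        rw [Finset.sum_congr rfl h4, Finset.sum_sub_distrib, ← Finset.mul_sum, Finset.sum_boole,
          Finset.sum_const, nsmul_eq_mul, mul_one]
        unfold Nn at hN
        have h5 := mul_le_mul_of_nonneg_left hN hp1
        linarith
      · simp [b1_zero S c τ θ M₀ q i μ hN]
    rw [EM_mul] at h3
    refine h3.trans ?_
    rw [pow_succ']
    exact mul_le_mul_of_nonneg_left ih hp0

/-- **Backward bound**, pointwise. Induction on `i`. In the step, `Aa` holds; for `μ Z ≠ 0` a bad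
deletion `bad (c Ψ (dn μ Z)) (dn μ Z) Z` implies `bad (c Ψ μ) μ Z` (`bad_self`, `up_dn`, `bad_le`,
`Ψ (dn μ Z) ≤ Ψ μ`, `c ≥ 0`), so
`∑ Z, μ Z / (M₀+i+1) * (if bad then u else 1) ≤ 1 + τ (u - 1)` (`∑ μ Z = M₀ + i + 1`); the multiplicities `dn μ Z`
with `μ Z ≠ 0` have level `M₀ + i`. -/
theorem Gt_backward (S : FD r n) (c τ θ : ℝ) (hc : 0 ≤ c) (hτ : 0 ≤ τ) (M₀ : ℕ) (u : ℝ)
    (hu : 1 ≤ u) (i : ℕ) (μ : Mu n) (hμ : Lv r n (M₀ + i) μ) :
    Gt S c τ θ M₀ u i μ ≤ (1 + τ * (u - 1)) ^ i := by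
  classical
  have hX : 0 ≤ 1 + τ * (u - 1) := by
    have : 0 ≤ τ * (u - 1) := mul_nonneg hτ (by linarith)
    linarith
  have hu0 : 0 ≤ u := by linarith
  induction i generalizing μ with
  | zero =>
    rw [pow_zero]
    unfold Gt
    split_ifs
    · exact le_rfl
    · exact zero_le_one
  | succ i ih =>
    unfold Gt
    split_ifs with hcond
    · obtain ⟨_, hA⟩ := hcond
      have hM : (0 : ℝ) < (M₀ : ℝ) + i + 1 := by positivity
      have hsum : ∑ Z ∈ Er r n, (μ Z : ℝ) = (M₀ : ℝ) + i + 1 := by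
        have h1 := hμ.2
        have h2 : ((∑ Z ∈ Er r n, μ Z : ℕ) : ℝ) = ((M₀ + (i + 1) : ℕ) : ℝ) := by rw [h1]
        push_cast at h2
        linarith
      have hterm : ∀ Z ∈ Er r n, (μ Z : ℝ) / ((M₀ : ℝ) + i + 1) *
          ((if S.bad (c * S.Ψ (dn μ Z)) (dn μ Z) Z then u else 1) *
            Gt S c τ θ M₀ u i (dn μ Z)) ≤
          (μ Z : ℝ) / ((M₀ : ℝ) + i + 1) * ((1 + (u - 1) *
            (if S.bad (c * S.Ψ μ) μ Z then 1 else 0)) * (1 + τ * (u - 1)) ^ i) := by
        intro Z hZ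
        by_cases h0 : μ Z = 0
        · rw [h0, Nat.cast_zero, zero_div, zero_mul, zero_mul]
        refine mul_le_mul_of_nonneg_left ?_ (by positivity)
        have h1 : Gt S c τ θ M₀ u i (dn μ Z) ≤ (1 + τ * (u - 1)) ^ i :=
          ih (dn μ Z) (Lv_dn r (M₀ + i) μ hμ Z hZ h0)
        have h2 : S.bad (c * S.Ψ (dn μ Z)) (dn μ Z) Z → S.bad (c * S.Ψ μ) μ Z := by
          intro h
          have h3 := S.bad_self _ _ _ h
          have h4 := S.mono (dn μ Z) Z
          rw [up_dn μ Z h0] at h3 h4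
          exact S.bad_le _ _ _ _ (mul_le_mul_of_nonneg_left h4 hc) h3
        have h3 : (if S.bad (c * S.Ψ (dn μ Z)) (dn μ Z) Z then u else 1) ≤
            1 + (u - 1) * (if S.bad (c * S.Ψ μ) μ Z then 1 else 0) := by
          split_ifs with h4 h5 h5
          · linarith
          · exact absurd (h2 h4) h5
          · linarith
          · linarith
        refine mul_le_mul h3 h1 (Gt_nonneg S c τ θ M₀ u hu0 i _) ?_
        split_ifs
        · linarith
        · linarith
      refine (Finset.sum_le_sum hterm).trans ?_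
      have h5 : ∀ Z ∈ Er r n, (μ Z : ℝ) / ((M₀ : ℝ) + i + 1) * ((1 + (u - 1) *
            (if S.bad (c * S.Ψ μ) μ Z then 1 else 0)) * (1 + τ * (u - 1)) ^ i) =
          ((μ Z : ℝ) + (u - 1) * (if S.bad (c * S.Ψ μ) μ Z then (μ Z : ℝ) else 0)) *
            ((1 + τ * (u - 1)) ^ i / ((M₀ : ℝ) + i + 1)) := by
        intro Z _
        split_ifs
        · ring
        · ring
      rw [Finset.sum_congr rfl h5, ← Finset.sum_mul, Finset.sum_add_distrib, ← Finset.mul_sum,
        ← Finset.sum_filter, hsum]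
      unfold Aa at hA
      push_cast at hA
      have h6 : (M₀ : ℝ) + i + 1 + (u - 1) *
          (∑ Z ∈ (Er r n).filter (fun Z => S.bad (c * S.Ψ μ) μ Z), (μ Z : ℝ)) ≤
          (1 + τ * (u - 1)) * ((M₀ : ℝ) + i + 1) := by
        have h7 := mul_le_mul_of_nonneg_left hA (by linarith : 0 ≤ u - 1)
        linarith
      calc ((M₀ : ℝ) + i + 1 + (u - 1) *
            (∑ Z ∈ (Er r n).filter (fun Z => S.bad (c * S.Ψ μ) μ Z), (μ Z : ℝ))) *
            ((1 + τ * (u - 1)) ^ i / ((M₀ : ℝ) + i + 1))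
          ≤ ((1 + τ * (u - 1)) * ((M₀ : ℝ) + i + 1)) *
            ((1 + τ * (u - 1)) ^ i / ((M₀ : ℝ) + i + 1)) :=
            mul_le_mul_of_nonneg_right h6 (by positivity)
        _ = (1 + τ * (u - 1)) ^ (i + 1) := by
            rw [pow_succ]
            field_simp
    · positivity

end Pool.Agent.LHam
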