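import Pool.Agent.LHam.BDefs

set_option autoImplicit false

/-! B2. Survival of the count. -/

namespace Pool.Agent.LHam

open Finset

variable {r n : ℕ}

/-- backward average -/
private noncomputable def bw (r : ℕ) {n : ℕ} (M₀ : ℕ) (F : Mu n → ℝ) : ℕ → Mu n → ℝ
  | 0, ν => F ν
  | i + 1, ν => ∑ Z ∈ Er r n, (ν Z : ℝ) / ((M₀ : ℝ) + i + 1) * bw r M₀ F i (dn ν Z)

private theorem Psi_dn (S : FD r n) (ν : Mu n) (Z : Finset (Fin n)) (h0 : ν Z ≠ 0) :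
    S.Ψ (dn ν Z) ≤ S.Ψ ν := by
  have h := S.mono (dn ν Z) Z
  rwa [up_dn ν Z h0] at h

private theorem surv_den (M₀ i : ℕ) : (0 : ℝ) < (M₀ : ℝ) + i + 1 := by positivity

private theorem surv_fac (S : FD r n) (M₀ : ℕ) (hm : S.m₁ ≤ M₀) (j : ℕ) :
    (0 : ℝ) ≤ 1 - (S.m₁ : ℝ) / ((M₀ : ℝ) + j + 1) := by
  have h1 := surv_den M₀ j
  have h2 : (S.m₁ : ℝ) ≤ (M₀ : ℝ) := by exact_mod_cast hm
  have h3 : (0 : ℝ) ≤ (j : ℝ) := Nat.cast_nonneg j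
  rw [sub_nonneg, div_le_one h1]
  linarith

/-- the terms with `ν Z = 0` vanish -/
private theorem surv_term {a b x d : ℝ} (hd : 0 < d) (ha : 0 ≤ a) (h : a ≠ 0 → x ≤ b) :
    a / d * x ≤ a / d * b := by
  rcases eq_or_ne a 0 with h0 | h0
  · rw [h0, zero_div, zero_mul, zero_mul]
  · exact mul_le_mul_of_nonneg_left (h h0) (div_nonneg ha hd.le)

private theorem surv_low (S : FD r n) (M₀ : ℕ) (hm : S.m₁ ≤ M₀) :
    ∀ (i : ℕ) (ν : Mu n), Lv r n (M₀ + i) ν →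
      (∏ j ∈ range i, (1 - (S.m₁ : ℝ) / ((M₀ : ℝ) + j + 1))) * S.Ψ ν ≤ bw r M₀ S.Ψ i ν := by
  intro i
  induction i with
  | zero =>
    intro ν _
    simp [bw]
  | succ i ih =>
    intro ν hν
    have hd := surv_den M₀ i
    have hp : (0 : ℝ) ≤ ∏ j ∈ range i, (1 - (S.m₁ : ℝ) / ((M₀ : ℝ) + j + 1)) :=
      Finset.prod_nonneg fun j _ => surv_fac S M₀ hm j
    set p : ℝ := ∏ j ∈ range i, (1 - (S.m₁ : ℝ) / ((M₀ : ℝ) + j + 1)) with hpdef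
    have h1 : ∑ Z ∈ Er r n, (ν Z : ℝ) / ((M₀ : ℝ) + i + 1) * (p * S.Ψ (dn ν Z)) ≤
        bw r M₀ S.Ψ (i + 1) ν := by
      rw [bw]
      refine Finset.sum_le_sum fun Z hZ => surv_term hd (Nat.cast_nonneg _) fun h0 => ?_
      exact ih (dn ν Z) (Lv_dn r (M₀ + i) ν hν Z hZ (by exact_mod_cast h0))
    have h2 := S.del (M₀ + (i + 1)) ν hν
    have h3 : ∑ Z ∈ Er r n, (ν Z : ℝ) / ((M₀ : ℝ) + i + 1) * (p * S.Ψ (dn ν Z)) =
        p / ((M₀ : ℝ) + i + 1) * ∑ Z ∈ Er r n, (ν Z : ℝ) * S.Ψ (dn ν Z) := by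
      rw [Finset.mul_sum]
      refine Finset.sum_congr rfl fun Z _ => ?_
      ring
    have h4 : p / ((M₀ : ℝ) + i + 1) * ((((M₀ + (i + 1) : ℕ) : ℝ) - S.m₁) * S.Ψ ν) ≤
        p / ((M₀ : ℝ) + i + 1) * ∑ Z ∈ Er r n, (ν Z : ℝ) * S.Ψ (dn ν Z) :=
      mul_le_mul_of_nonneg_left h2 (div_nonneg hp hd.le)
    rw [Finset.prod_range_succ, ← hpdef]
    refine le_trans (le_of_eq ?_) (h4.trans (h3.symm.le.trans h1))
    push_cast
    field_simp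
    ring

private theorem surv_upp (S : FD r n) (M₀ : ℕ) (a y : ℝ) (ha : 0 ≤ a) (hy : 0 ≤ y) :
    ∀ (i : ℕ) (ν : Mu n), Lv r n (M₀ + i) ν → S.Ψ ν ≤ a →
      bw r M₀ S.Ψ i ν ≤ a * bw r M₀ (fun ν => if y ≤ S.Ψ ν then 1 else 0) i ν + y := by
  intro i
  induction i with
  | zero =>
    intro ν _ h
    rw [bw, bw]
    split_ifs with h1
    · linarith
    · rw [mul_zero, zero_add]
      exact (not_le.1 h1).le
  | succ i ih =>
    intro ν hν h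
    have hd := surv_den M₀ i
    rw [bw, bw, Finset.mul_sum]
    have h1 : ∑ Z ∈ Er r n, (ν Z : ℝ) / ((M₀ : ℝ) + i + 1) * y = y := by
      rw [← Finset.sum_mul, ← Finset.sum_div, ← Nat.cast_sum, hν.2]
      push_cast
      field_simp
      ring
    have h2 : ∀ Z ∈ Er r n, (ν Z : ℝ) / ((M₀ : ℝ) + i + 1) * bw r M₀ S.Ψ i (dn ν Z) ≤
        a * ((ν Z : ℝ) / ((M₀ : ℝ) + i + 1) *
          bw r M₀ (fun ν => if y ≤ S.Ψ ν then 1 else 0) i (dn ν Z)) +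
          (ν Z : ℝ) / ((M₀ : ℝ) + i + 1) * y := by
      intro Z hZ
      refine (surv_term (b := a * bw r M₀ (fun ν => if y ≤ S.Ψ ν then 1 else 0) i (dn ν Z) + y)
        hd (Nat.cast_nonneg _) fun h0 => ?_).trans (le_of_eq ?_)
      · have h0' : ν Z ≠ 0 := by exact_mod_cast h0
        exact ih (dn ν Z) (Lv_dn r (M₀ + i) ν hν Z hZ h0') ((Psi_dn S ν Z h0').trans h)
      · ring
    refine (Finset.sum_le_sum h2).trans (le_of_eq ?_)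
    rw [Finset.sum_add_distrib, h1]

private theorem surv_zero (S : FD r n) (M₀ : ℕ) (y : ℝ) :
    ∀ (i : ℕ) (ν : Mu n), S.Ψ ν < y →
      bw r M₀ (fun ν => if y ≤ S.Ψ ν then 1 else 0) i ν = 0 := by
  intro i
  induction i with
  | zero =>
    intro ν h
    rw [bw, if_neg (not_le.2 h)]
  | succ i ih =>
    intro ν h
    rw [bw]
    refine Finset.sum_eq_zero fun Z _ => ?_
    rcases Nat.eq_zero_or_pos (ν Z) with h0 | h0
    · rw [h0, Nat.cast_zero, zero_div, zero_mul]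
    · rw [ih (dn ν Z) ((Psi_dn S ν Z h0.ne').trans_lt h), mul_zero]

private theorem surv_nonneg (S : FD r n) (c τ θ : ℝ) (M₀ : ℕ) :
    ∀ (i : ℕ) (μ : Mu n), 0 ≤ Gt S c τ θ M₀ 1 i μ := by
  intro i
  induction i with
  | zero =>
    intro μ
    rw [Gt]
    split_ifs <;> norm_num
  | succ i ih =>
    intro μ
    rw [Gt]
    split_ifs
    · refine Finset.sum_nonneg fun Z _ => ?_
      refine mul_nonneg (div_nonneg (Nat.cast_nonneg _) (surv_den M₀ i).le) ?_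
      split_ifs
      · rw [one_mul]
        exact ih _
      · rw [one_mul]
        exact ih _
    · exact le_rfl

private theorem surv_le (S : FD r n) (c c₀ τ θ g x₀ : ℝ) (hc₀ : 0 ≤ c₀) (hg : 0 < g)
    (hcc : c₀ * (2 / g) ≤ c) (M₀ k : ℕ)
    (R : Mu n → Prop) (hR : ∀ μ Z, R (up μ Z) → R μ)
    (hE : ∀ M μ, M₀ ≤ M → M ≤ M₀ + k → Lv r n M μ → R μ → x₀ ≤ S.Ψ μ → Aa S c τ M μ)
    (μ : Mu n) (hx : x₀ * (2 / g) ≤ S.Ψ μ) (hN : Nn S c₀ θ μ) :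
    ∀ (i : ℕ) (ν : Mu n), i ≤ k → Lv r n (M₀ + i) ν → R ν →
      (∀ Z, S.bad (c₀ * S.Ψ μ) μ Z → S.bad (c₀ * S.Ψ μ) ν Z) →
      bw r M₀ (fun ν => if g / 2 * S.Ψ μ ≤ S.Ψ ν then 1 else 0) i ν ≤
        Gt S c τ θ M₀ 1 i ν := by
  classical
  have hNn : ∀ ν : Mu n, (∀ Z, S.bad (c₀ * S.Ψ μ) μ Z → S.bad (c₀ * S.Ψ μ) ν Z) →
      g / 2 * S.Ψ μ ≤ S.Ψ ν → Nn S c θ ν := by
    intro ν hb hy
    unfold Nn at hN ⊢
    refine hN.trans ?_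
    have h1 : c₀ * S.Ψ μ ≤ c * S.Ψ ν := by
      have h2 : c₀ * S.Ψ μ = c₀ * (2 / g) * (g / 2 * S.Ψ μ) := by
        field_simp
      rw [h2]
      have h3 : 0 ≤ c₀ * (2 / g) := mul_nonneg hc₀ (by positivity)
      calc c₀ * (2 / g) * (g / 2 * S.Ψ μ) ≤ c₀ * (2 / g) * S.Ψ ν :=
            mul_le_mul_of_nonneg_left hy h3
        _ ≤ c * S.Ψ ν := mul_le_mul_of_nonneg_right hcc (S.nonneg ν)
    have h2 : (Er r n).filter (fun Z => S.bad (c₀ * S.Ψ μ) μ Z) ⊆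
        (Er r n).filter (fun Z => S.bad (c * S.Ψ ν) ν Z) := by
      intro Z hZ
      rw [Finset.mem_filter] at hZ ⊢
      exact ⟨hZ.1, S.bad_le _ _ _ _ h1 (hb Z hZ.2)⟩
    exact_mod_cast Finset.card_le_card h2
  intro i
  induction i with
  | zero =>
    intro ν _ _ _ hb
    by_cases hy : g / 2 * S.Ψ μ ≤ S.Ψ ν
    · rw [bw, Gt, if_pos hy, if_pos (hNn ν hb hy)]
    · rw [surv_zero S M₀ _ 0 ν (not_le.1 hy)]
      exact surv_nonneg S c τ θ M₀ 0 ν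
  | succ i ih =>
    intro ν hik hν hRν hb
    by_cases hy : g / 2 * S.Ψ μ ≤ S.Ψ ν
    · have hx0 : x₀ ≤ S.Ψ ν := by
        refine le_trans ?_ hy
        have h1 : x₀ = g / 2 * (x₀ * (2 / g)) := by field_simp
        rw [h1]
        exact mul_le_mul_of_nonneg_left hx (by positivity)
      have hA : Aa S c τ (M₀ + i + 1) ν :=
        hE (M₀ + i + 1) ν (by omega) (by omega) hν hRν hx0
      rw [bw, Gt, if_pos ⟨hNn ν hb hy, hA⟩]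
      refine Finset.sum_le_sum fun Z hZ => surv_term (surv_den M₀ i) (Nat.cast_nonneg _)
        fun h0 => ?_
      have h0' : ν Z ≠ 0 := by exact_mod_cast h0
      have hu := up_dn ν Z h0'
      rw [ite_self, one_mul]
      refine ih (dn ν Z) (by omega) (Lv_dn r (M₀ + i) ν hν Z hZ h0') (hR _ Z ?_) ?_
      · rwa [hu]
      · intro Z' hZ'
        refine S.bad_up _ _ _ Z ?_
        rw [hu]
        exact hb Z' hZ'
    · rw [surv_zero S M₀ _ (i + 1) ν (not_le.1 hy)]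
      exact surv_nonneg S c τ θ M₀ (i + 1) ν

/-- **Survival.** `μ` has level `M₀ + k`; with conditional probability `≥ g / 2` the count after `k`
deletions is `≥ (g / 2) Ψ μ`, and then all multiplicities on the way are `Nn` and `Aa`.

Proof. Put `y = (g / 2) Ψ μ`. (1) For `ν` of level `M₀ + i` let `E i ν`, `P i ν` be the `i`-step backward
averages of `Ψ` and of the indicator of `y ≤ Ψ` (`E (i+1) ν = ∑ Z, ν Z / (M₀+i+1) * E i (dn ν Z)` etc.). By `del`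
and induction `E i ν ≥ (∏ j ∈ range i, (1 - m₁ / (M₀ + j + 1))) Ψ ν` (the factors are `≥ 0` since
`m₁ ≤ M₀`), so `E k μ ≥ g Ψ μ`. Since `Ψ ≤ Ψ μ` along the trajectory (`Ψ (dn ν Z) ≤ Ψ ν` if `ν Z ≠ 0`; prove
`E i ν ≤ Ψ μ * P i ν + y` for `Ψ ν ≤ Ψ μ`): `g Ψ μ ≤ Ψ μ P k μ + (g / 2) Ψ μ`, `P k μ ≥ g / 2` (`Ψ μ > 0`).
(2) `P i ν ≤ Gt 1 i ν` for every `ν` of level `M₀ + i` which is obtained from `μ` by deletions (state it
for all `ν` with `ν ≤ μ` pointwise; then `bad x μ Z → bad x ν Z` and `Ψ ν ≤ Ψ μ`, `R ν` by repeated use of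
`bad_up`, `mono`, `hR`): if `Ψ ν < y` then `P i ν = 0` (`Ψ` decreases). If `Ψ ν ≥ y ≥ x₀`: `Aa` by `hE`, `Nn`: every
`Z` with `bad (c₀ Ψ μ) μ Z` satisfies `bad (c₀ Ψ μ) ν Z`, hence `bad (c Ψ ν) ν Z`, as
`c₀ Ψ μ ≤ c₀ (2 / g) Ψ ν ≤ c Ψ ν`. Recursion. -/
theorem Gt_surv (S : FD r n) (c c₀ τ θ g x₀ : ℝ) (hc₀ : 0 ≤ c₀) (hg : 0 < g)
    (hcc : c₀ * (2 / g) ≤ c) (M₀ k : ℕ) (hm : S.m₁ ≤ M₀)
    (hgp : g ≤ ∏ j ∈ range k, (1 - (S.m₁ : ℝ) / ((M₀ : ℝ) + j + 1)))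
    (R : Mu n → Prop) (hR : ∀ μ Z, R (up μ Z) → R μ)
    (hE : ∀ M μ, M₀ ≤ M → M ≤ M₀ + k → Lv r n M μ → R μ → x₀ ≤ S.Ψ μ → Aa S c τ M μ)
    (μ : Mu n) (hμ : Lv r n (M₀ + k) μ) (hRμ : R μ) (hx : x₀ * (2 / g) ≤ S.Ψ μ)
    (hpos : 0 < S.Ψ μ) (hN : Nn S c₀ θ μ) :
    g / 2 ≤ Gt S c τ θ M₀ 1 k μ := by
  have h1 := surv_low S M₀ hm k μ hμ
  have h2 := surv_upp S M₀ (S.Ψ μ) (g / 2 * S.Ψ μ) hpos.le (by positivity) k μ hμ le_rfl
  have h3 := surv_le S c c₀ τ θ g x₀ hc₀ hg hcc M₀ k R hR hE μ hx hN k μ le_rfl hμ hRμ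
    fun Z hZ => hZ
  refine le_trans ?_ h3
  have h4 : g * S.Ψ μ ≤ (∏ j ∈ range k, (1 - (S.m₁ : ℝ) / ((M₀ : ℝ) + j + 1))) * S.Ψ μ :=
    mul_le_mul_of_nonneg_right hgp hpos.le
  have h5 := h4.trans (h1.trans h2)
  have h6 : S.Ψ μ * (g / 2) ≤ S.Ψ μ *
      bw r M₀ (fun ν => if g / 2 * S.Ψ μ ≤ S.Ψ ν then 1 else 0) k μ := by linarith
  exact le_of_mul_le_mul_left h6 hpos

end Pool.Agent.LHam
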