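import Pool.Agent.LHam.B1Traj
import Pool.Agent.LHam.B2Surv

set_option autoImplicit false

/-! B3. Abstract flatness. -/

namespace Pool.Agent.LHam

open Finset

variable {r n : ℕ}

/-- **Abstract flatness.** Proof: Markov with `Gt_surv`: the probability is at most
`(2 / g) EM (Gt 1 k)`; `Gt_split` with `a = s`, `Gt_forward` (`q = exp (-1)`), `Gt_backward`. -/
theorem flat_abs (S : FD r n) (hT : 0 < (Er r n).card) (c c₀ τ θ g x₀ : ℝ) (hc₀ : 0 ≤ c₀)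
    (hτ : 0 ≤ τ) (hθ : 0 ≤ θ) (hθ1 : θ ≤ 1) (hg : 0 < g)
    (hcc : c₀ * (2 / g) ≤ c) (M₀ k : ℕ) (hm : S.m₁ ≤ M₀)
    (hgp : g ≤ ∏ j ∈ range k, (1 - (S.m₁ : ℝ) / ((M₀ : ℝ) + j + 1)))
    (R : Mu n → Prop) (hR : ∀ μ Z, R (up μ Z) → R μ)
    (hE : ∀ M μ, M₀ ≤ M → M ≤ M₀ + k → Lv r n M μ → R μ → x₀ ≤ S.Ψ μ → Aa S c τ M μ)
    (s : ℕ) (u : ℝ) (hu : 1 ≤ u) :
    PM r n (M₀ + k) (fun μ => R μ ∧ x₀ * (2 / g) ≤ S.Ψ μ ∧ 0 < S.Ψ μ ∧ Nn S c₀ θ μ) ≤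
      (2 / g) * (Real.exp s * (1 - θ * (1 - Real.exp (-1))) ^ k +
        (u ^ s)⁻¹ * (1 + τ * (u - 1)) ^ k) := by
  classical
  have hg2 : (0 : ℝ) < 2 / g := div_pos two_pos hg
  have hu0 : (0 : ℝ) < u := lt_of_lt_of_le one_pos hu
  have h1 : PM r n (M₀ + k)
      (fun μ => R μ ∧ x₀ * (2 / g) ≤ S.Ψ μ ∧ 0 < S.Ψ μ ∧ Nn S c₀ θ μ) ≤
      (2 / g) * EM r n (M₀ + k) (Gt S c τ θ M₀ 1 k) := by
    rw [← EM_mul]
    unfold PM
    refine EM_mono r (M₀ + k) _ _ fun μ hμ => ?_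
    split_ifs with h
    · have h2 := Gt_surv S c c₀ τ θ g x₀ hc₀ hg hcc M₀ k hm hgp R hR hE μ hμ h.1 h.2.1 h.2.2.1
        h.2.2.2
      have h3 := mul_le_mul_of_nonneg_left h2 hg2.le
      have h4 : (2 / g) * (g / 2) = 1 := by
        field_simp
      rw [h4] at h3
      exact h3
    · exact mul_nonneg hg2.le (Gt_nonneg S c τ θ M₀ 1 zero_le_one k μ)
  refine h1.trans (mul_le_mul_of_nonneg_left ?_ hg2.le)
  have h5 : EM r n (M₀ + k) (Gt S c τ θ M₀ 1 k) ≤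
      EM r n (M₀ + k) (fun μ => Real.exp s * Gt S c τ θ M₀ (Real.exp (-1)) k μ +
        (u ^ s)⁻¹ * Gt S c τ θ M₀ u k μ) := by
    refine EM_mono r (M₀ + k) _ _ fun μ _ => ?_
    have h6 := Gt_split S c τ θ M₀ u hu k (s : ℤ) μ
    rw [zpow_neg, zpow_natCast, Int.cast_natCast] at h6
    exact h6
  refine h5.trans ?_
  rw [EM_add, EM_mul, EM_mul]
  refine add_le_add ?_ ?_
  · refine mul_le_mul_of_nonneg_left ?_ (Real.exp_pos _).le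
    exact Gt_forward S hT c τ θ hθ hθ1 M₀ (Real.exp (-1)) (Real.exp_pos _).le
      (Real.exp_le_one_iff.2 (by norm_num)) k
  · refine mul_le_mul_of_nonneg_left ?_ (inv_nonneg.2 (pow_nonneg hu0.le s))
    have hc : 0 ≤ c := le_trans (mul_nonneg hc₀ hg2.le) hcc
    have h7 : EM r n (M₀ + k) (Gt S c τ θ M₀ u k) ≤
        EM r n (M₀ + k) (fun _ => (1 + τ * (u - 1)) ^ k) :=
      EM_mono r (M₀ + k) _ _ fun μ hμ => Gt_backward S c τ θ hc hτ M₀ u hu k μ hμ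
    rw [EM_const r (M₀ + k) hT] at h7
    exact h7

end Pool.Agent.LHam
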