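import Pool.Agent.LHam.ProcEx

set_option autoImplicit false

/-! Flatness by exchangeability: abstract data and trajectories. -/

namespace Pool.Agent.LHam

open Finset

/-- Abstract data: `Ψ μ` is a weighted count, `bad x μ Z` means that the count of the structures
through the `r`-set `Z` (in some role) is smaller than `x`. -/
structure FD (r n : ℕ) where
  /-- the count -/
  Ψ : Mu n → ℝ
  /-- bad `r`-sets -/
  bad : ℝ → Mu n → Finset (Fin n) → Prop
  nonneg : ∀ μ, 0 ≤ Ψ μ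
  mono : ∀ μ Z, Ψ μ ≤ Ψ (up μ Z)
  bad_le : ∀ x x' μ Z, x ≤ x' → bad x μ Z → bad x' μ Z
  bad_up : ∀ x μ Z Z', bad x (up μ Z') Z → bad x μ Z
  bad_self : ∀ x μ Z, bad x μ Z → bad x (up μ Z) Z
  /-- the number of edges of a structure -/
  m₁ : ℕ
  del : ∀ M μ, Lv r n M μ →
    ((M : ℝ) - m₁) * Ψ μ ≤ ∑ Z ∈ Er r n, (μ Z : ℝ) * Ψ (dn μ Z)

variable {r n : ℕ}

open Classical in
/-- Not flat: at least the fraction `θ` of all `r`-sets is bad. -/
def Nn (S : FD r n) (c θ : ℝ) (μ : Mu n) : Prop :=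
  θ * (Er r n).card ≤ (((Er r n).filter (fun Z => S.bad (c * S.Ψ μ) μ Z)).card : ℝ)

open Classical in
/-- At most the fraction `τ` of the elements of `μ` is bad. -/
def Aa (S : FD r n) (c τ : ℝ) (M : ℕ) (μ : Mu n) : Prop :=
  ∑ Z ∈ (Er r n).filter (fun Z => S.bad (c * S.Ψ μ) μ Z), (μ Z : ℝ) ≤ τ * M

open Classical in
/-- The backward trajectories of length `i`: `μ` (level `M₀ + i`) loses `i` random elements one after
the other; all multiplicities on the way are `Nn`, all but the last one are `Aa`; every deletion of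
a bad element gives a factor `q`. -/
noncomputable def Gt (S : FD r n) (c τ θ : ℝ) (M₀ : ℕ) (q : ℝ) : ℕ → Mu n → ℝ
  | 0, μ => if Nn S c θ μ then 1 else 0
  | i + 1, μ => if Nn S c θ μ ∧ Aa S c τ (M₀ + i + 1) μ then
      ∑ Z ∈ Er r n, (μ Z : ℝ) / ((M₀ : ℝ) + i + 1) *
        ((if S.bad (c * S.Ψ (dn μ Z)) (dn μ Z) Z then q else 1) * Gt S c τ θ M₀ q i (dn μ Z))
      else 0

end Pool.Agent.LHam
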