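import Pool.Agent.LHam.SysDefs

set_option autoImplicit false

/-! C1. Chains, paths and cycles as lists. -/

namespace Pool.Agent.LHam

open Finset

variable {n : ℕ}

theorem conn_append (c d e : Fin n) (l l' : List (OE n)) (h : Conn c l d) (h' : Conn d l' e) :
    Conn c (l ++ l') e := by
  induction l generalizing c with
  | nil =>
    have h1 : c = d := h
    rw [h1]
    exact h'
  | cons o l ih => exact ⟨h.1, ih o.y h.2⟩

/-- A chain through a concatenation splits. -/
theorem conn_split (c e : Fin n) (l l' : List (OE n)) (h : Conn c (l ++ l') e) :
    ∃ d, Conn c l d ∧ Conn d l' e := by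
  induction l generalizing c with
  | nil => exact ⟨c, rfl, h⟩
  | cons o l ih =>
    obtain ⟨d, h1, h2⟩ := ih o.y h.2
    exact ⟨d, ⟨h.1, h1⟩, h2⟩

theorem conn_reverse (c d : Fin n) (l : List (OE n)) (h : Conn c l d) :
    Conn d (l.reverse.map OE.flip) c := by
  induction l generalizing c with
  | nil => exact Eq.symm h
  | cons o l ih =>
    rw [List.reverse_cons, List.map_append]
    exact conn_append d o.y c _ _ (ih o.y h.2) ⟨rfl, h.1⟩

theorem verts_append (l l' : List (OE n)) : verts (l ++ l') = verts l + verts l' := by
  simp [verts]

theorem verts_cons (o : OE n) (l : List (OE n)) :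
    verts (o :: l) = (o.x ::ₘ o.J.val) + verts l := by
  simp [verts]

/-- The vertices of a chain from `c` to `d` and of the reversed chain. (Induction on `l`.) -/
theorem verts_reverse (c d : Fin n) (l : List (OE n)) (h : Conn c l d) :
    verts (l.reverse.map OE.flip) + {c} = verts l + {d} := by
  induction l generalizing c with
  | nil =>
    have h1 : c = d := h
    rw [h1]
    rfl
  | cons o l ih =>
    have h1 := ih o.y h.2
    have h2 : o.x = c := h.1
    have h3 : verts ([o].map OE.flip) = o.y ::ₘ o.J.val := by
      simp [verts, OE.flip]
    rw [List.reverse_cons, List.map_append, verts_append, h3, verts_cons, h2,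
      ← Multiset.singleton_add o.y, ← Multiset.singleton_add c]
    calc verts (l.reverse.map OE.flip) + ({o.y} + o.J.val) + {c} =
        (verts (l.reverse.map OE.flip) + {o.y}) + o.J.val + {c} := by abel
      _ = (verts l + {d}) + o.J.val + {c} := by rw [h1]
      _ = {c} + o.J.val + verts l + {d} := by abel

/-- A closed chain can be rotated. -/
theorem conn_rotate (c : Fin n) (l l' : List (OE n)) (h : Conn c (l ++ l') c) :
    ∃ d, Conn d (l' ++ l) d := by
  obtain ⟨d, h1, h2⟩ := conn_split c c l l' h
  exact ⟨d, conn_append d c d l' l h2 h1⟩

/-- In a chain from `c` to `d` every `y` is an `x` of the chain or `d`. -/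
theorem conn_y (c d : Fin n) (l : List (OE n)) (h : Conn c l d) (o : OE n) (ho : o ∈ l) :
    o.y = d ∨ ∃ o' ∈ l, o'.x = o.y := by
  induction l generalizing c with
  | nil => exact absurd ho List.not_mem_nil
  | cons a l ih =>
    rcases List.mem_cons.1 ho with rfl | h1
    · cases l with
      | nil => exact Or.inl h.2
      | cons b l => exact Or.inr ⟨b, by simp, h.2.1⟩
    · rcases ih a.y h.2 h1 with h2 | ⟨o', h2, h3⟩
      · exact Or.inl h2
      · exact Or.inr ⟨o', List.mem_cons_of_mem a h2, h3⟩

/-- The multiset of the `y` and of the `x` (telescoping). -/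
theorem conn_xy (c d : Fin n) (l : List (OE n)) (h : Conn c l d) :
    ({c} : Multiset (Fin n)) + ((l.map OE.y : List (Fin n)) : Multiset (Fin n)) =
      ((l.map OE.x : List (Fin n)) : Multiset (Fin n)) + {d} := by
  induction l generalizing c with
  | nil =>
    have h1 : c = d := h
    rw [h1]
    simp
  | cons o l ih =>
    have h1 := ih o.y h.2
    have h2 : o.x = c := h.1
    rw [List.map_cons, List.map_cons, ← Multiset.cons_coe, ← Multiset.cons_coe,
      ← Multiset.singleton_add o.y, ← Multiset.singleton_add o.x, h1, h2, add_assoc]

/-- **Uniqueness**: two chains from `c` with distinct `x` and the same set of edges are equal.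
(Induction: both first edges have `x = c`.) -/
theorem list_unique (c d d' : Fin n) (l l' : List (OE n)) (h : Conn c l d) (h' : Conn c l' d')
    (hx : (l.map OE.x).Nodup) (hx' : (l'.map OE.x).Nodup) (he : l.toFinset = l'.toFinset) :
    l = l' := by
  induction l generalizing c l' with
  | nil =>
    cases l' with
    | nil => rfl
    | cons o t =>
      have h1 : o ∈ ([] : List (OE n)).toFinset := by
        rw [he]
        simp
      simp at h1
  | cons o t ih =>
    cases l' with
    | nil =>
      have h1 : o ∈ ([] : List (OE n)).toFinset := by
        rw [← he]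
        simp
      simp at h1
    | cons o' t' =>
      have h1 : o.x = o'.x := h.1.trans (Eq.symm h'.1)
      have h2 : o ∈ o' :: t' := by
        rw [← List.mem_toFinset, ← he]
        simp
      have h3 : o = o' := by
        rcases List.mem_cons.1 h2 with h3 | h3
        · exact h3
        · exfalso
          rw [List.map_cons, List.nodup_cons] at hx'
          exact hx'.1 (h1 ▸ List.mem_map_of_mem h3)
      subst h3
      have hn : o ∉ t := fun h4 => by
        rw [List.map_cons, List.nodup_cons] at hx
        exact hx.1 (List.mem_map_of_mem h4)
      have hn' : o ∉ t' := fun h4 => by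
        rw [List.map_cons, List.nodup_cons] at hx'
        exact hx'.1 (List.mem_map_of_mem h4)
      have h4 : t.toFinset = t'.toFinset := by
        ext a
        have h5 : a ∈ (o :: t).toFinset ↔ a ∈ (o :: t').toFinset := by rw [he]
        rw [List.mem_toFinset, List.mem_toFinset, List.mem_cons, List.mem_cons] at h5
        rw [List.mem_toFinset, List.mem_toFinset]
        constructor
        · intro h6
          rcases h5.1 (Or.inr h6) with h7 | h7
          · exact absurd (h7 ▸ h6) hn
          · exact h7
        · intro h6
          rcases h5.2 (Or.inr h6) with h7 | h7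
          · exact absurd (h7 ▸ h6) hn'
          · exact h7
      rw [List.map_cons] at hx hx'
      rw [ih o.y t' h.2 h'.2 hx.of_cons hx'.of_cons h4]

end Pool.Agent.LHam
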