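import Pool.Agent.LHam.C1Path

set_option autoImplicit false

/-! C2. Paths and cycles are systems. -/

namespace Pool.Agent.LHam

open Finset

variable {n : ℕ}

private theorem mem_verts (l : List (OE n)) (v : Fin n) :
    v ∈ verts l ↔ ∃ o ∈ l, v = o.x ∨ v ∈ o.J := by
  induction l with
  | nil => simp [verts]
  | cons o l ih =>
    rw [verts_cons, Multiset.mem_add, ih]
    simp [Multiset.mem_cons]

private theorem verts_core (l : List (OE n)) (h : (verts l).Nodup) :
    (l.map OE.x).Nodup ∧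
      l.Pairwise (fun o o' => Disjoint o.J o'.J ∧ o.x ∉ o'.J ∧ o'.x ∉ o.J) ∧
      ∀ o ∈ l, o.x ∉ o.J := by
  induction l with
  | nil => simp
  | cons o l ih =>
    rw [verts_cons, Multiset.nodup_add] at h
    obtain ⟨h1, h2, h3⟩ := h
    obtain ⟨i1, i2, i3⟩ := ih h2
    rw [Multiset.nodup_cons] at h1
    rw [Multiset.disjoint_left] at h3
    refine ⟨?_, ?_, ?_⟩
    · rw [List.map_cons, List.nodup_cons]
      refine ⟨?_, i1⟩
      intro hm
      obtain ⟨o', ho', he⟩ := List.mem_map.1 hm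
      exact h3 (Multiset.mem_cons_self _ _) ((mem_verts l o.x).2 ⟨o', ho', Or.inl he.symm⟩)
    · rw [List.pairwise_cons]
      refine ⟨fun o' ho' => ⟨?_, ?_, ?_⟩, i2⟩
      · rw [Finset.disjoint_left]
        intro v hv hv'
        exact h3 (Multiset.mem_cons_of_mem hv)
          ((mem_verts l v).2 ⟨o', ho', Or.inr hv'⟩)
      · intro hv'
        exact h3 (Multiset.mem_cons_self _ _) ((mem_verts l _).2 ⟨o', ho', Or.inr hv'⟩)
      · intro hv
        exact h3 (Multiset.mem_cons_of_mem hv)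
          ((mem_verts l _).2 ⟨o', ho', Or.inl rfl⟩)
    · intro o' ho'
      rcases List.mem_cons.1 ho' with rfl | ho''
      · intro hv
        exact h1.1 hv
      · exact i3 o' ho''

private theorem pair_core (l : List (OE n))
    (h : l.Pairwise (fun o o' => Disjoint o.J o'.J ∧ o.x ∉ o'.J ∧ o'.x ∉ o.J)) :
    ∀ ⦃o : OE n⦄, o ∈ l → ∀ ⦃o' : OE n⦄, o' ∈ l → o ≠ o' →
      Disjoint o.J o'.J ∧ o.x ∉ o'.J ∧ o'.x ∉ o.J := by
  have : Std.Symm (fun o o' : OE n => Disjoint o.J o'.J ∧ o.x ∉ o'.J ∧ o'.x ∉ o.J) :=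
    ⟨fun a b hab => ⟨hab.1.symm, hab.2.2, hab.2.1⟩⟩
  exact List.Pairwise.forall h

private theorem verts_card (r : ℕ) (_hr : 3 ≤ r) (l : List (OE n)) (h : ∀ o ∈ l, o.J.card = r - 2) :
    Multiset.card (verts l) = l.length * (r - 1) := by
  induction l with
  | nil => simp [verts]
  | cons o l ih =>
    rw [verts_cons, Multiset.card_add, ih fun o' ho' => h o' (List.mem_cons_of_mem _ ho'),
      Multiset.card_cons, Finset.card_val, h o List.mem_cons_self, List.length_cons, Nat.add_mul]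
    omega

/-- a common core -/
private theorem sys_core (r : ℕ) (hr : 3 ≤ r) (l : List (OE n)) (hv : (verts l).Nodup)
    (hJ : ∀ o ∈ l, o.J.card = r - 2) (hy : (l.map OE.y).Nodup)
    (hyJ : ∀ o ∈ l, ∀ o' ∈ l, o.y ∉ o'.J) (hxy : ∀ o ∈ l, o.x ≠ o.y) :
    (l.map OE.x).Nodup ∧ l.Nodup ∧ (∀ o ∈ l, o.Ok r) ∧ IsSys r l.toFinset := by
  obtain ⟨h1, h2, h3⟩ := verts_core l hv
  have hnd : l.Nodup := List.Nodup.of_map _ h1
  have h4 := pair_core l h2
  have hok : ∀ o ∈ l, o.Ok r := fun o ho => ⟨hJ o ho, hxy o ho, h3 o ho, hyJ o ho o ho⟩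
  refine ⟨h1, hnd, hok, ?_⟩
  constructor
  · intro o ho
    exact hok o (List.mem_toFinset.1 ho)
  · intro o ho o' ho' hne
    exact (h4 (List.mem_toFinset.1 ho) (List.mem_toFinset.1 ho') hne).1
  · intro o ho o' ho' he
    exact List.inj_on_of_nodup_map h1 (List.mem_toFinset.1 ho) (List.mem_toFinset.1 ho') he
  · intro o ho o' ho' he
    exact List.inj_on_of_nodup_map hy (List.mem_toFinset.1 ho) (List.mem_toFinset.1 ho') he
  · intro o ho o' ho'
    by_cases hoo : o = o'
    · subst hoo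
      exact h3 o (List.mem_toFinset.1 ho)
    · exact (h4 (List.mem_toFinset.1 ho) (List.mem_toFinset.1 ho') hoo).2.1
  · intro o ho o' ho'
    exact hyJ o (List.mem_toFinset.1 ho) o' (List.mem_toFinset.1 ho')

private theorem sys_sets (r : ℕ) (hr : 3 ≤ r) (F : Finset (OE n)) (hF : IsSys r F) :
    ∀ o ∈ F, ∀ o' ∈ F, o.set = o'.set → o = o' := by
  intro o ho o' ho' he
  by_contra hne
  have hc : 0 < o.J.card := by rw [(hF.ok o ho).1]; omega
  obtain ⟨v, hv⟩ := Finset.card_pos.1 hc
  have hv' : v ∈ o'.set := by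
    rw [← he]
    simp [OE.set, hv]
  simp only [OE.set, Finset.mem_insert] at hv'
  rcases hv' with rfl | rfl | hv'
  · exact hF.xout o' ho' o ho hv
  · exact hF.yout o' ho' o ho hv
  · exact (Finset.disjoint_left.1 (hF.dis o ho o' ho' hne)) hv hv'

private theorem xs_le_verts (l : List (OE n)) :
    ((l.map OE.x : List (Fin n)) : Multiset (Fin n)) ≤ verts l := by
  induction l with
  | nil => simp
  | cons o l ih =>
    rw [verts_cons, List.map_cons, ← Multiset.cons_coe, Multiset.cons_add]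
    exact Multiset.cons_le_cons _ (ih.trans (Multiset.le_add_left _ _))

private theorem path_ends (r : ℕ) (U : Finset (Fin n)) (c d : Fin n) (l : List (OE n))
    (h : IsPath r U c d l) (o : OE n) (ho : o ∈ l) :
    c ∉ o.J ∧ d ∉ o.J ∧ o.y ≠ c ∧ o.x ≠ d := by
  obtain ⟨h1, -, h3⟩ := h
  have hnd : (verts l + {d}).Nodup := by rw [h3]; exact U.nodup
  have hnd' := Multiset.nodup_add.1 hnd
  have hd : d ∉ verts l := fun hm =>
    (Multiset.disjoint_left.1 hnd'.2.2) hm (Multiset.mem_singleton_self d)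
  have hx : (((l.map OE.x : List (Fin n)) : Multiset (Fin n)) + {d}).Nodup :=
    Multiset.nodup_of_le (add_le_add (xs_le_verts l) le_rfl) hnd
  have hxy := conn_xy c d l h1
  have hcx : c ∈ ((l.map OE.x : List (Fin n)) : Multiset (Fin n)) + {d} := by
    rw [← hxy]
    exact Multiset.mem_add.2 (Or.inl (Multiset.mem_singleton_self c))
  obtain ⟨k1, k2, k3⟩ := verts_core l hnd'.1
  have h4 := pair_core l k2
  have hdJ : d ∉ o.J := fun hm => hd ((mem_verts l d).2 ⟨o, ho, Or.inr hm⟩)
  refine ⟨?_, hdJ, ?_, ?_⟩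
  · rcases Multiset.mem_add.1 hcx with hc | hc
    · rw [Multiset.mem_coe, List.mem_map] at hc
      obtain ⟨o', ho', rfl⟩ := hc
      by_cases hoo : o' = o
      · subst hoo
        exact k3 _ ho'
      · exact (h4 ho' ho hoo).2.1
    · rw [Multiset.mem_singleton] at hc
      rw [hc]
      exact hdJ
  · intro he
    rw [← hxy] at hx
    have := Multiset.disjoint_left.1 (Multiset.nodup_add.1 hx).2.2 (Multiset.mem_singleton_self c)
    apply this
    rw [Multiset.mem_coe, List.mem_map]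
    exact ⟨o, ho, he⟩
  · intro he
    exact hd ((mem_verts l d).2 ⟨o, ho, Or.inl he.symm⟩)

/-- The `x` of a path are distinct, the list has no repetitions, all edges are proper.
(`verts l + {d} = U.val` has no repetitions; `o.y` is `d` or the `x` of another edge.) -/
theorem path_nodup (r : ℕ) (hr : 3 ≤ r) (U : Finset (Fin n)) (c d : Fin n) (l : List (OE n))
    (h : IsPath r U c d l) :
    (l.map OE.x).Nodup ∧ l.Nodup ∧ (∀ o ∈ l, o.Ok r) ∧ (∀ o ∈ l, o.set ⊆ U) ∧
      IsSys r l.toFinset ∧ l.length * (r - 1) + 1 = U.card ∧ c ∈ U ∧ d ∈ U := by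
  have hends := path_ends r U c d l h
  obtain ⟨h1, h2, h3⟩ := h
  have hnd : (verts l + {d}).Nodup := by rw [h3]; exact U.nodup
  have hnd' := Multiset.nodup_add.1 hnd
  have hd : d ∉ verts l := fun hm =>
    (Multiset.disjoint_left.1 hnd'.2.2) hm (Multiset.mem_singleton_self d)
  have hx : (((l.map OE.x : List (Fin n)) : Multiset (Fin n)) + {d}).Nodup :=
    Multiset.nodup_of_le (add_le_add (xs_le_verts l) le_rfl) hnd
  have hxy := conn_xy c d l h1
  obtain ⟨k1, k2, k3⟩ := verts_core l hnd'.1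
  have h4 := pair_core l k2
  have hy : (l.map OE.y).Nodup := by
    rw [← hxy] at hx
    exact Multiset.coe_nodup.1 (Multiset.nodup_add.1 hx).2.1
  have hyJ : ∀ o ∈ l, ∀ o' ∈ l, o.y ∉ o'.J := by
    intro o ho o' ho'
    rcases conn_y c d l h1 o ho with he | ⟨o'', ho'', he⟩
    · rw [he]
      exact (hends o' ho').2.1
    · rw [← he]
      by_cases hoo : o'' = o'
      · subst hoo
        exact k3 _ ho'
      · exact (h4 ho'' ho' hoo).2.1
  have hne : ∀ o ∈ l, o.x ≠ o.y := by
    intro o ho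
    obtain ⟨l1, l2, rfl⟩ := List.append_of_mem ho
    obtain ⟨e, -, he⟩ := conn_split c d l1 (o :: l2) h1
    obtain ⟨-, he2⟩ := he
    cases l2 with
    | nil =>
      have hyd : o.y = d := he2
      rw [hyd]
      exact (hends o ho).2.2.2
    | cons o2 l3 =>
      have hx2 : o2.x = o.y := he2.1
      rw [← hx2]
      rw [List.map_append, List.nodup_append] at k1
      have := k1.2.1
      simp only [List.map_cons, List.nodup_cons, List.mem_cons, not_or] at this
      exact this.1.1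
  obtain ⟨g1, g2, g3, g4⟩ := sys_core r hr l hnd'.1 h2 hy hyJ hne
  have hmU : ∀ v, v ∈ U ↔ v ∈ verts l ∨ v = d := by
    intro v
    rw [← Finset.mem_val, ← h3, Multiset.mem_add, Multiset.mem_singleton]
  refine ⟨g1, g2, g3, ?_, g4, ?_, ?_, ?_⟩
  · intro o ho v hv
    simp only [OE.set, Finset.mem_insert] at hv
    rw [hmU]
    rcases hv with rfl | rfl | hv
    · exact Or.inl ((mem_verts l _).2 ⟨o, ho, Or.inl rfl⟩)
    · rcases conn_y c d l h1 o ho with he | ⟨o'', ho'', he⟩
      · exact Or.inr he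
      · exact Or.inl ((mem_verts l _).2 ⟨o'', ho'', Or.inl he.symm⟩)
    · exact Or.inl ((mem_verts l _).2 ⟨o, ho, Or.inr hv⟩)
  · rw [← Finset.card_val, ← h3, Multiset.card_add, verts_card r hr l h2, Multiset.card_singleton]
  · rw [hmU]
    have hcx : c ∈ ((l.map OE.x : List (Fin n)) : Multiset (Fin n)) + {d} := by
      rw [← hxy]
      exact Multiset.mem_add.2 (Or.inl (Multiset.mem_singleton_self c))
    rcases Multiset.mem_add.1 hcx with hc | hc
    · exact Or.inl (Multiset.mem_of_le (xs_le_verts l) hc)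
    · exact Or.inr (Multiset.mem_singleton.1 hc)
  · rw [hmU]
    exact Or.inr rfl

/-- The same for cycles. `r ≤ n` excludes a cycle with one edge (`n = r - 1`). -/
theorem cyc_nodup (r : ℕ) (hr : 3 ≤ r) (hn : r ≤ n) (l : List (OE n)) (h : IsCyc r l) :
    (l.map OE.x).Nodup ∧ l.Nodup ∧ (∀ o ∈ l, o.Ok r) ∧ IsSys r l.toFinset ∧
      l.length * (r - 1) = n := by
  obtain ⟨h0, ⟨c, h1⟩, h2, h3⟩ := h
  have hnd : (verts l).Nodup := by rw [h3]; exact (univ : Finset (Fin n)).nodup
  obtain ⟨k1, k2, k3⟩ := verts_core l hnd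
  have h4 := pair_core l k2
  have hxy := conn_xy c c l h1
  rw [add_comm ({c} : Multiset (Fin n))] at hxy
  have hxy' := add_right_cancel hxy
  have hy : (l.map OE.y).Nodup := by
    rw [← Multiset.coe_nodup, hxy', Multiset.coe_nodup]
    exact k1
  have hyx : ∀ o ∈ l, ∃ o'' ∈ l, o''.x = o.y := by
    intro o ho
    have : o.y ∈ ((l.map OE.x : List (Fin n)) : Multiset (Fin n)) := by
      rw [← hxy', Multiset.mem_coe, List.mem_map]
      exact ⟨o, ho, rfl⟩
    rw [Multiset.mem_coe, List.mem_map] at this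
    exact this
  have hyJ : ∀ o ∈ l, ∀ o' ∈ l, o.y ∉ o'.J := by
    intro o ho o' ho'
    obtain ⟨o'', ho'', he⟩ := hyx o ho
    rw [← he]
    by_cases hoo : o'' = o'
    · subst hoo
      exact k3 _ ho'
    · exact (h4 ho'' ho' hoo).2.1
  have hcard : l.length * (r - 1) = n := by
    rw [← verts_card r hr l h2, h3, Finset.card_val, Finset.card_univ, Fintype.card_fin]
  have hne : ∀ o ∈ l, o.x ≠ o.y := by
    intro o ho
    obtain ⟨l1, l2, rfl⟩ := List.append_of_mem ho
    obtain ⟨e, he1, he⟩ := conn_split c c l1 (o :: l2) h1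
    obtain ⟨hox, he2⟩ := he
    cases l2 with
    | nil =>
      have hyd : o.y = c := he2
      rw [hyd]
      cases l1 with
      | nil =>
        simp only [List.nil_append, List.length_cons, List.length_nil] at hcard
        omega
      | cons o1 l4 =>
        have hx1 : o1.x = c := he1.1
        rw [← hx1]
        simp only [List.cons_append, List.map_cons, List.nodup_cons, List.map_append,
          List.mem_append, not_or, List.mem_cons, List.map_nil] at k1
        exact fun hh => k1.1.2.1 hh.symm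
    | cons o2 l3 =>
      have hx2 : o2.x = o.y := he2.1
      rw [← hx2]
      rw [List.map_append, List.nodup_append] at k1
      have := k1.2.1
      simp only [List.map_cons, List.nodup_cons, List.mem_cons, not_or] at this
      exact this.1.1
  obtain ⟨g1, g2, g3, g4⟩ := sys_core r hr l hnd h2 hy hyJ hne
  exact ⟨g1, g2, g3, g4, hcard⟩

/-- The elements of `PF` (paths as sets). Distinct edges have distinct vertex sets because the inner
sets are disjoint and nonempty. -/
theorem PF_sys (r : ℕ) (hr : 3 ≤ r) (U : Finset (Fin n)) (c d : Fin n) (F : Finset (OE n))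
    (hF : F ∈ PF r U c d) :
    IsSys r F ∧ F.card * (r - 1) + 1 = U.card ∧ (∀ o ∈ F, o.set ⊆ U) ∧
      ∀ o ∈ F, ∀ o' ∈ F, o.set = o'.set → o = o' := by
  classical
  obtain ⟨l, hl, rfl⟩ := (Finset.mem_filter.1 hF).2
  obtain ⟨h1, h2, h3, h4, h5, h6, h7, h8⟩ := path_nodup r hr U c d l hl
  refine ⟨h5, ?_, ?_, sys_sets r hr _ h5⟩
  · rw [List.toFinset_card_of_nodup h2]
    exact h6
  · intro o ho
    exact h4 o (List.mem_toFinset.1 ho)

theorem CF_sys (r : ℕ) (hr : 3 ≤ r) (hn : r ≤ n) (F : Finset (OE n)) (hF : F ∈ CF r n) :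
    IsSys r F ∧ F.card * (r - 1) = n ∧ ∀ o ∈ F, ∀ o' ∈ F, o.set = o'.set → o = o' := by
  classical
  obtain ⟨l, hl, rfl⟩ := (Finset.mem_filter.1 hF).2
  obtain ⟨h1, h2, h3, h4, h5⟩ := cyc_nodup r hr hn l hl
  refine ⟨h4, ?_, sys_sets r hr _ h4⟩
  rw [List.toFinset_card_of_nodup h2]
  exact h5

/-- In a path from `c` to `d`: no inner vertex is `c` or `d`, no `y` is `c`, no `x` is `d`; an edge
which
meets `c` has `x = c`, an edge which meets `d` has `y = d`. -/
theorem PF_ends (r : ℕ) (hr : 3 ≤ r) (U : Finset (Fin n)) (c d : Fin n) (F : Finset (OE n))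
    (hF : F ∈ PF r U c d) (o : OE n) (ho : o ∈ F) :
    c ∉ o.J ∧ d ∉ o.J ∧ o.y ≠ c ∧ o.x ≠ d := by
  classical
  obtain ⟨l, hl, rfl⟩ := (Finset.mem_filter.1 hF).2
  exact path_ends r U c d l hl o (List.mem_toFinset.1 ho)

end Pool.Agent.LHam
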