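import Pool.Agent.LHam.C2Sys
import Pool.Agent.LHam.BDefs

set_option autoImplicit false

/-! C3. `Psi` as a sum over a family of systems, monotonicity, deletion. -/

namespace Pool.Agent.LHam

open Finset

variable {n : ℕ}

open Classical in
/-- The family of systems behind `Psi`. -/
noncomputable def Fam (r : ℕ) (U : Finset (Fin n)) (c d : Fin n) (Zs : Finset (OE n)) :
    Finset (Finset (OE n)) :=
  ((PF r U c d).filter (fun F => Zs ⊆ F)).image fun F => F \ Zs

private theorem sdiff_inj_of_subset {Zs F F' : Finset (OE n)} (h : Zs ⊆ F) (h' : Zs ⊆ F')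
    (he : F \ Zs = F' \ Zs) : F = F' := by
  rw [← sdiff_union_of_subset h, ← sdiff_union_of_subset h', he]

open Classical in
private theorem mem_Fam {r : ℕ} {U : Finset (Fin n)} {c d : Fin n} {Zs G : Finset (OE n)} :
    G ∈ Fam r U c d Zs ↔ ∃ F, F ∈ PF r U c d ∧ Zs ⊆ F ∧ F \ Zs = G := by
  unfold Fam
  rw [mem_image]
  constructor
  · rintro ⟨F, hF, h⟩
    exact ⟨F, (mem_filter.1 hF).1, (mem_filter.1 hF).2, h⟩
  · rintro ⟨F, hF, h1, h2⟩
    exact ⟨F, mem_filter.2 ⟨hF, h1⟩, h2⟩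

/-- `F ↦ F \ Zs` is injective on the `F` containing `Zs`. -/
theorem Psi_eq (r : ℕ) (ν : Finset (Fin n) → ℝ) (U : Finset (Fin n)) (c d : Fin n)
    (Zs : Finset (OE n)) : Psi r ν U c d Zs = ∑ G ∈ Fam r U c d Zs, Wf ν G := by
  classical
  unfold Fam
  rw [sum_image]
  · unfold Psi Wf
    rfl
  · intro F hF F' hF' h
    exact sdiff_inj_of_subset (mem_filter.1 hF).2 (mem_filter.1 hF').2 h

/-- The members of the family are systems (subsets of systems), of size `m₁` with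
`(m₁ + |Zs|) (r - 1) + 1 = |U|`; their sets are distinct subsets of `U`. -/
theorem Fam_sys (r : ℕ) (hr : 3 ≤ r) (U : Finset (Fin n)) (c d : Fin n) (Zs G : Finset (OE n))
    (hG : G ∈ Fam r U c d Zs) :
    IsSys r G ∧ (G.card + Zs.card) * (r - 1) + 1 = U.card ∧ (∀ o ∈ G, o.set ⊆ U) ∧
      ∀ o ∈ G, ∀ o' ∈ G, o.set = o'.set → o = o' := by
  classical
  obtain ⟨F, hF, hZ, rfl⟩ := mem_Fam.1 hG
  obtain ⟨h1, h2, h3, h4⟩ := PF_sys r hr U c d F hF
  have hs : F \ Zs ⊆ F := sdiff_subset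
  refine ⟨⟨fun o ho => h1.ok o (hs ho), fun o ho o' ho' => h1.dis o (hs ho) o' (hs ho'),
    fun o ho o' ho' => h1.xinj o (hs ho) o' (hs ho'),
    fun o ho o' ho' => h1.yinj o (hs ho) o' (hs ho'),
    fun o ho o' ho' => h1.xout o (hs ho) o' (hs ho'),
    fun o ho o' ho' => h1.yout o (hs ho) o' (hs ho')⟩, ?_, fun o ho => h3 o (hs ho),
    fun o ho o' ho' => h4 o (hs ho) o' (hs ho')⟩
  rw [card_sdiff_add_card_eq_card hZ, h2]

/-- **Marginals.** The members `G` of the family with `o ∈ G` are the `G' ∪ {o}`, `G'` in the family of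
`insert o Zs` (`o ∉ Zs`). -/
theorem Fam_marg (r : ℕ) (hr : 3 ≤ r) (ν : Finset (Fin n) → ℝ) (U : Finset (Fin n))
    (c d : Fin n) (Zs : Finset (OE n)) (o : OE n) (ho : o ∉ Zs) :
    ∑ G ∈ (Fam r U c d Zs).filter (fun G => o ∈ G), Wf ν G =
      ν o.set * Psi r ν U c d (insert o Zs) := by
  classical
  have h1 : (Fam r U c d Zs).filter (fun G => o ∈ G) =
      (((PF r U c d).filter (fun F => Zs ⊆ F)).filter (fun F => o ∈ F \ Zs)).image
        fun F => F \ Zs := by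
    ext G
    rw [mem_filter, mem_Fam, mem_image]
    constructor
    · rintro ⟨⟨F, hF, hZ, rfl⟩, h⟩
      exact ⟨F, mem_filter.2 ⟨mem_filter.2 ⟨hF, hZ⟩, h⟩, rfl⟩
    · rintro ⟨F, hF, rfl⟩
      rw [mem_filter, mem_filter] at hF
      exact ⟨⟨F, hF.1.1, hF.1.2, rfl⟩, hF.2⟩
  rw [h1, sum_image]
  · unfold Psi
    rw [mul_sum]
    have h2 : ((PF r U c d).filter (fun F => Zs ⊆ F)).filter (fun F => o ∈ F \ Zs) =
        (PF r U c d).filter (fun F => insert o Zs ⊆ F) := by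
      ext F
      rw [mem_filter, mem_filter, mem_filter, mem_sdiff, insert_subset_iff]
      constructor
      · rintro ⟨⟨a, b⟩, e, -⟩
        exact ⟨a, e, b⟩
      · rintro ⟨a, e, b⟩
        exact ⟨⟨a, b⟩, e, ho⟩
    have h3 : ∀ F ∈ (PF r U c d).filter (fun F => insert o Zs ⊆ F),
        Wf ν (F \ Zs) = ν o.set * ∏ o' ∈ F \ insert o Zs, ν o'.set := by
      intro F hF
      have h4 := (mem_filter.1 hF).2
      rw [insert_subset_iff] at h4
      have h5 : o ∈ F \ Zs := mem_sdiff.2 ⟨h4.1, ho⟩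
      have h6 : F \ insert o Zs = (F \ Zs).erase o := by
        ext p
        simp only [mem_sdiff, mem_insert, mem_erase]
        tauto
      rw [h6]
      unfold Wf
      exact (mul_prod_erase (F \ Zs) (fun o : OE n => ν o.set) h5).symm
    refine Eq.trans (sum_congr h2 h3) ?_
    refine sum_congr ?_ fun F _ => rfl
    ext F
    simp only [mem_filter]
  · intro F hF F' hF' h
    exact sdiff_inj_of_subset (mem_filter.1 (mem_filter.1 hF).1).2
      (mem_filter.1 (mem_filter.1 hF').1).2 h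

theorem Psi_nonneg (r : ℕ) (ν : Finset (Fin n) → ℝ) (hν : ∀ Z, 0 ≤ ν Z) (U : Finset (Fin n))
    (c d : Fin n) (Zs : Finset (OE n)) : 0 ≤ Psi r ν U c d Zs :=
  sum_nonneg fun _ _ => prod_nonneg fun o _ => hν o.set

theorem Psi_mono (r : ℕ) (ν ν' : Finset (Fin n) → ℝ) (hν : ∀ Z, 0 ≤ ν Z)
    (h : ∀ Z, ν Z ≤ ν' Z) (U : Finset (Fin n)) (c d : Fin n) (Zs : Finset (OE n)) :
    Psi r ν U c d Zs ≤ Psi r ν' U c d Zs :=
  sum_le_sum fun _ _ => prod_le_prod (fun o _ => hν o.set) fun o _ => h o.set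

/-- `Psi` depends only on the weights of the `r`-subsets of `U`. -/
theorem Psi_congr (r : ℕ) (hr : 3 ≤ r) (ν ν' : Finset (Fin n) → ℝ) (U : Finset (Fin n))
    (h : ∀ Z, Z ⊆ U → ν Z = ν' Z) (c d : Fin n) (Zs : Finset (OE n)) :
    Psi r ν U c d Zs = Psi r ν' U c d Zs := by
  classical
  refine sum_congr rfl fun F hF => prod_congr rfl fun o ho => ?_
  exact h _ ((PF_sys r hr U c d F (mem_filter.1 hF).1).2.2.1 o (mem_sdiff.1 ho).1)

/-- `Psi .. (insert o Zs)` does not depend on the weight of `o.set` (the other edges of a path through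
`o` have other vertex sets, `PF_sys`). -/
theorem Psi_self (r : ℕ) (hr : 3 ≤ r) (μ : Mu n) (U : Finset (Fin n)) (c d : Fin n)
    (Zs : Finset (OE n)) (o : OE n) :
    Psi r (toR (up μ o.set)) U c d (insert o Zs) = Psi r (toR μ) U c d (insert o Zs) := by
  classical
  refine sum_congr rfl fun F hF => prod_congr rfl fun o' ho' => ?_
  obtain ⟨hF1, hF2⟩ := mem_filter.1 hF
  obtain ⟨h1, h2⟩ := mem_sdiff.1 ho'
  have h3 : o ∈ F := hF2 (mem_insert_self _ _)
  have h4 : o'.set ≠ o.set := fun he => h2 (by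
    rw [(PF_sys r hr U c d F hF1).2.2.2 o' h1 o h3 he]
    exact mem_insert_self _ _)
  unfold toR up
  rw [Function.update_of_ne h4]

/-- **Deletion**, for one system `G` with distinct vertex sets which are `r`-sets.
Proof: `∑ Z, μ Z ∏ o ∈ G, (dn μ Z) o.set`: for `Z` different from all `o.set` the product is
`∏ μ o.set`; for `Z = o.set`, `μ Z ≠ 0`, it is `(μ Z - 1) ∏_{others}`, times `μ Z`:
`(μ Z - 1) ∏ μ`. The sum is `(M - |G|) ∏ μ` (also if some `μ o.set = 0`: both sides `0`). -/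
theorem del_prod (r M : ℕ) (μ : Mu n) (hμ : Lv r n M μ) (G : Finset (OE n))
    (hG : ∀ o ∈ G, o.set ∈ Er r n) (hd : ∀ o ∈ G, ∀ o' ∈ G, o.set = o'.set → o = o') :
    ∑ Z ∈ Er r n, (μ Z : ℝ) * Wf (toR (dn μ Z)) G = ((M : ℝ) - G.card) * Wf (toR μ) G := by
  classical
  have key : ∀ Z ∈ Er r n, (μ Z : ℝ) * Wf (toR (dn μ Z)) G =
      ((μ Z : ℝ) - if Z ∈ G.image OE.set then 1 else 0) * Wf (toR μ) G := by
    intro Z _
    by_cases hZ : Z ∈ G.image OE.set
    · rw [if_pos hZ]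
      obtain ⟨o, ho, rfl⟩ := mem_image.1 hZ
      have h1 : Wf (toR (dn μ o.set)) G =
          ((μ o.set - 1 : ℕ) : ℝ) * ∏ o' ∈ G.erase o, (μ o'.set : ℝ) := by
        unfold Wf
        rw [← mul_prod_erase G (fun p : OE n => toR (dn μ o.set) p.set) ho]
        congr 1
        · simp [toR, dn]
        · refine prod_congr rfl fun p hp => ?_
          have h2 : p.set ≠ o.set := fun he =>
            (mem_erase.1 hp).1 (hd p (mem_erase.1 hp).2 o ho he)
          unfold toR dn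
          rw [Function.update_of_ne h2]
      have h3 : Wf (toR μ) G = (μ o.set : ℝ) * ∏ o' ∈ G.erase o, (μ o'.set : ℝ) := by
        unfold Wf
        rw [← mul_prod_erase G (fun p : OE n => toR μ p.set) ho]
        rfl
      rw [h1, h3]
      rcases Nat.eq_zero_or_pos (μ o.set) with h0 | h0
      · rw [h0]
        simp
      · rw [Nat.cast_sub h0, Nat.cast_one]
        ring
    · rw [if_neg hZ, sub_zero]
      congr 1
      unfold Wf
      refine prod_congr rfl fun p hp => ?_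
      have h2 : p.set ≠ Z := fun he => hZ (he ▸ mem_image_of_mem _ hp)
      unfold toR dn
      rw [Function.update_of_ne h2]
  rw [sum_congr rfl key, ← sum_mul, sum_sub_distrib]
  congr 1
  have h1 : ∑ Z ∈ Er r n, (μ Z : ℝ) = M := by
    rw [← hμ.2, Nat.cast_sum]
  have h2 : ∑ Z ∈ Er r n, (if Z ∈ G.image OE.set then (1 : ℝ) else 0) = G.card := by
    have h3 : (Er r n).filter (fun Z => Z ∈ G.image OE.set) = G.image OE.set := by
      ext Z
      rw [mem_filter]
      constructor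
      · exact fun h => h.2
      · intro h
        obtain ⟨o, ho, rfl⟩ := mem_image.1 h
        exact ⟨hG o ho, h⟩
    rw [← sum_filter, h3, sum_const, nsmul_eq_mul, mul_one, card_image_of_injOn]
    intro o ho o' ho' he
    exact hd o ho o' ho' he
  rw [h1, h2]

/-- A proper oriented edge is an `r`-set. -/
theorem Ok_set (r : ℕ) (hr : 3 ≤ r) (o : OE n) (ho : o.Ok r) : o.set ∈ Er r n := by
  obtain ⟨h1, h2, h3, h4⟩ := ho
  have h5 : o.x ∉ insert o.y o.J := by
    rw [mem_insert, not_or]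
    exact ⟨h2, h3⟩
  rw [Er, mem_powersetCard]
  refine ⟨subset_univ _, ?_⟩
  rw [OE.set, card_insert_of_notMem h5, card_insert_of_notMem h4, h1]
  omega

/-- **Deletion** for `Psi` (sum of `del_prod` over the family). -/
theorem Psi_del (r : ℕ) (hr : 3 ≤ r) (M m₁ : ℕ) (μ : Mu n) (hμ : Lv r n M μ)
    (U : Finset (Fin n)) (c d : Fin n) (Zs : Finset (OE n))
    (hm : (m₁ + Zs.card) * (r - 1) + 1 = U.card) :
    ∑ Z ∈ Er r n, (μ Z : ℝ) * Psi r (toR (dn μ Z)) U c d Zs =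
      ((M : ℝ) - m₁) * Psi r (toR μ) U c d Zs := by
  classical
  have h1 : ∀ Z ∈ Er r n, (μ Z : ℝ) * Psi r (toR (dn μ Z)) U c d Zs =
      ∑ G ∈ Fam r U c d Zs, (μ Z : ℝ) * Wf (toR (dn μ Z)) G := by
    intro Z _
    rw [Psi_eq, mul_sum]
  rw [sum_congr rfl h1, sum_comm, Psi_eq, mul_sum]
  refine sum_congr rfl fun G hG => ?_
  obtain ⟨h2, h3, -, h5⟩ := Fam_sys r hr U c d Zs G hG
  have h6 : G.card = m₁ := by
    have h7 : (G.card + Zs.card) * (r - 1) = (m₁ + Zs.card) * (r - 1) := by omega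
    have h8 := Nat.eq_of_mul_eq_mul_right (show 0 < r - 1 by omega) h7
    omega
  rw [del_prod r M μ hμ G (fun o ho => Ok_set r hr o (h2.ok o ho)) h5, h6]

private theorem le_up (μ : Mu n) (Z : Finset (Fin n)) (Y : Finset (Fin n)) :
    toR μ Y ≤ toR (up μ Z) Y := by
  unfold toR up
  by_cases h : Y = Z
  · rw [h, Function.update_self]
    exact Nat.cast_le.2 (Nat.le_succ _)
  · rw [Function.update_of_ne h]

/-- Bad `r`-sets for `(U, c, d, Zs)`: relevant and with a role `o` such that `Psi` through `o` is smaller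
than `x`. -/
def Bad (r : ℕ) (U : Finset (Fin n)) (c d : Fin n) (Zs : Finset (OE n)) (x : ℝ) (μ : Mu n)
    (Z : Finset (Fin n)) : Prop :=
  Z ⊆ U ∧ c ∉ Z ∧ d ∉ Z ∧ (∀ z ∈ Zs, Disjoint z.set Z) ∧
    ∃ o : OE n, o.Ok r ∧ o.set = Z ∧ Psi r (toR μ) U c d (insert o Zs) < x

/-- **The abstract data** of `(U, c, d, Zs)`. -/
noncomputable def FDat (r : ℕ) (hr : 3 ≤ r) (U : Finset (Fin n)) (c d : Fin n)
    (Zs : Finset (OE n)) (m₁ : ℕ) (hm : (m₁ + Zs.card) * (r - 1) + 1 = U.card) : FD r n where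
  Ψ := fun μ => Psi r (toR μ) U c d Zs
  bad := Bad r U c d Zs
  nonneg := fun μ => Psi_nonneg r _ (fun Z => Nat.cast_nonneg _) U c d Zs
  mono := fun μ Z => Psi_mono r _ _ (fun _ => Nat.cast_nonneg _) (le_up μ Z) U c d Zs
  bad_le := by
    rintro x x' μ Z hx ⟨h1, h2, h3, h4, o, h5, h6, h7⟩
    exact ⟨h1, h2, h3, h4, o, h5, h6, h7.trans_le hx⟩
  bad_up := by
    rintro x μ Z Z' ⟨h1, h2, h3, h4, o, h5, h6, h7⟩
    exact ⟨h1, h2, h3, h4, o, h5, h6,
      (Psi_mono r _ _ (fun _ => Nat.cast_nonneg _) (le_up μ Z') U c d _).trans_lt h7⟩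
  bad_self := by
    rintro x μ Z ⟨h1, h2, h3, h4, o, h5, rfl, h7⟩
    exact ⟨h1, h2, h3, h4, o, h5, rfl, by rwa [Psi_self r hr μ U c d Zs o]⟩
  m₁ := m₁
  del := fun M μ hμ => (Psi_del r hr M m₁ μ hμ U c d Zs hm).ge

end Pool.Agent.LHam
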