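import Mathlib

set_option autoImplicit false

/-! C4n. A numerical estimate for flatness. -/

namespace Pool.Agent.LHam

/-- **Numerical estimate.** `s = ⌈θ k / 4⌉`.

Proof. `exp s ≤ e exp (θ k / 4)`, `(1 - θ (1 - 1/e))^k ≤ exp (-0.63 θ k)` (`1 - 1/e ≥ 0.63`), so the first term is
`≤ e exp (-0.38 θ k)`. `((1/τ)^s)⁻¹ = τ^s ≤ exp (-(θ/4) log (1/τ) k)`, `1 + τ (1/τ - 1) = 2 - τ ≤ 2`, so the second term
is `≤ exp (k (log 2 - (θ/4) log (1/τ))) ≤ exp (-0.38 θ k)`. The sum times `2 / g` is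
`≤ (2/g) (e + 1) exp (-0.38 θ A log n) ≤ (2/g) (e + 1) (1/n) exp (-C₁ log n)`. -/
theorem flat_num (θ C₁ A τ g : ℝ) (hθ : 0 < θ) (hθ1 : θ ≤ 1) (hC : 0 < C₁)
    (hA : C₁ + 1 ≤ 0.38 * θ * A) (hτ : 0 < τ) (hτ1 : τ ≤ 1)
    (hτθ : Real.log 2 + 0.38 * θ ≤ θ / 4 * Real.log (1 / τ)) (hg : 0 < g) :
    ∃ n₀ : ℕ, ∀ n ≥ n₀, ∀ k : ℕ, A * Real.log n ≤ k →
      (2 / g) * (Real.exp (⌈θ * k / 4⌉₊ : ℕ) * (1 - θ * (1 - Real.exp (-1))) ^ k +
        ((1 / τ) ^ (⌈θ * k / 4⌉₊))⁻¹ * (1 + τ * (1 / τ - 1)) ^ k) ≤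
        Real.exp (-(C₁ * Real.log n)) := by
  refine ⟨⌈2 / g * (Real.exp 1 + 1)⌉₊ + 1, fun n hn k hk => ?_⟩
  have hn1 : (1 : ℝ) ≤ n := by
    have : 1 ≤ n := by omega
    exact_mod_cast this
  have hn2 : 2 / g * (Real.exp 1 + 1) ≤ n := by
    refine (Nat.le_ceil _).trans ?_
    have : ⌈2 / g * (Real.exp 1 + 1)⌉₊ ≤ n := by omega
    exact_mod_cast this
  have hk0 : (0 : ℝ) ≤ k := Nat.cast_nonneg k
  set s := ⌈θ * k / 4⌉₊ with hs
  have hs1 : θ * k / 4 ≤ s := Nat.le_ceil _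
  have hs2 : (s : ℝ) ≤ θ * k / 4 + 1 := (Nat.ceil_lt_add_one (by positivity)).le
  -- the first term
  have hE : Real.exp (-1) ≤ 0.37 := by
    have := Real.exp_neg_one_lt_d9
    linarith
  have hE0 : 0 < Real.exp (-1) := Real.exp_pos _
  have h1 : Real.exp (s : ℕ) * (1 - θ * (1 - Real.exp (-1))) ^ k ≤
      Real.exp 1 * Real.exp (-(0.38 * θ * k)) := by
    have e1 : 0 ≤ 1 - θ * (1 - Real.exp (-1)) := by
      have : θ * (1 - Real.exp (-1)) ≤ 1 * 1 :=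
        mul_le_mul hθ1 (by linarith) (by linarith) zero_le_one
      linarith
    have e2 : 1 - θ * (1 - Real.exp (-1)) ≤ Real.exp (-(θ * 0.63)) := by
      have e3 := Real.add_one_le_exp (-(θ * 0.63))
      have e4 : θ * 0.63 ≤ θ * (1 - Real.exp (-1)) :=
        mul_le_mul_of_nonneg_left (by linarith) hθ.le
      linarith
    have e3 : (1 - θ * (1 - Real.exp (-1))) ^ k ≤ Real.exp (-(θ * 0.63) * k) := by
      refine (pow_le_pow_left₀ e1 e2 k).trans ?_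
      rw [← Real.exp_nat_mul, mul_comm]
    have e4 : Real.exp (s : ℕ) ≤ Real.exp (θ * k / 4 + 1) := Real.exp_le_exp.2 hs2
    refine (mul_le_mul e4 e3 (pow_nonneg e1 k) (Real.exp_pos _).le).trans ?_
    rw [← Real.exp_add, ← Real.exp_add]
    refine Real.exp_le_exp.2 ?_
    nlinarith [mul_nonneg hθ.le hk0]
  -- the second term
  have hL0 : 0 ≤ Real.log (1 / τ) := Real.log_nonneg (by rw [le_div_iff₀ hτ]; linarith)
  have h2 : ((1 / τ) ^ s)⁻¹ * (1 + τ * (1 / τ - 1)) ^ k ≤ Real.exp (-(0.38 * θ * k)) := by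
    have e1 : 1 + τ * (1 / τ - 1) ≤ 2 := by
      have : τ * (1 / τ - 1) = 1 - τ := by field_simp
      linarith
    have e0 : 0 ≤ 1 + τ * (1 / τ - 1) := by
      have : τ * (1 / τ - 1) = 1 - τ := by field_simp
      linarith
    have e2 : (1 + τ * (1 / τ - 1)) ^ k ≤ Real.exp (k * Real.log 2) := by
      refine (pow_le_pow_left₀ e0 e1 k).trans ?_
      rw [Real.exp_nat_mul, Real.exp_log (by norm_num)]
    have e3 : ((1 / τ) ^ s)⁻¹ ≤ Real.exp (-(θ * k / 4 * Real.log (1 / τ))) := by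
      have e4 : (1 / τ) ^ s = Real.exp (s * Real.log (1 / τ)) := by
        rw [Real.exp_nat_mul, Real.exp_log (by positivity)]
      rw [e4, ← Real.exp_neg]
      refine Real.exp_le_exp.2 (neg_le_neg ?_)
      exact mul_le_mul_of_nonneg_right hs1 hL0
    refine (mul_le_mul e3 e2 (pow_nonneg e0 k) (Real.exp_pos _).le).trans ?_
    rw [← Real.exp_add]
    refine Real.exp_le_exp.2 ?_
    have e5 := mul_le_mul_of_nonneg_right hτθ hk0
    nlinarith [e5]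
  -- the sum
  have hlog : 0 ≤ Real.log n := Real.log_nonneg hn1
  have h3 : Real.exp (-(0.38 * θ * k)) ≤ Real.exp (-(C₁ * Real.log n)) / n := by
    have e1 : Real.exp (-(C₁ * Real.log n)) / n = Real.exp (-(C₁ * Real.log n) - Real.log n) := by
      rw [Real.exp_sub, Real.exp_log (by linarith)]
    rw [e1]
    refine Real.exp_le_exp.2 ?_
    have e2 : 0.38 * θ * (A * Real.log n) ≤ 0.38 * θ * k :=
      mul_le_mul_of_nonneg_left hk (by positivity)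
    have e3 := mul_le_mul_of_nonneg_right hA hlog
    nlinarith [e2, e3]
  have hP : 0 < Real.exp (-(C₁ * Real.log n)) := Real.exp_pos _
  calc (2 / g) * (Real.exp (s : ℕ) * (1 - θ * (1 - Real.exp (-1))) ^ k +
        ((1 / τ) ^ s)⁻¹ * (1 + τ * (1 / τ - 1)) ^ k)
      ≤ (2 / g) * (Real.exp 1 * Real.exp (-(0.38 * θ * k)) + Real.exp (-(0.38 * θ * k))) :=
        mul_le_mul_of_nonneg_left (add_le_add h1 h2) (by positivity)
    _ = (2 / g * (Real.exp 1 + 1)) * Real.exp (-(0.38 * θ * k)) := by ring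
    _ ≤ n * (Real.exp (-(C₁ * Real.log n)) / n) :=
        mul_le_mul hn2 h3 (Real.exp_pos _).le (by linarith)
    _ = Real.exp (-(C₁ * Real.log n)) := mul_div_cancel₀ _ (by linarith)

end Pool.Agent.LHam
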