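import Pool.Agent.LHam.C4aLem
import Pool.Agent.LHam.C4Num
import Pool.Agent.LHam.B3Flat

set_option autoImplicit false

/-! C4. Flatness for path counts. -/

namespace Pool.Agent.LHam

open Finset

private theorem beta_nonneg' (r : ℕ) (hr : 3 ≤ r) : 0 ≤ beta r := by
  have h1 : (3 : ℝ) ≤ r := by exact_mod_cast hr
  have h2 : lam r ≤ 1 := by
    unfold lam
    rw [div_le_one (by linarith)]
    linarith
  have h3 : 0 ≤ 1 - lam r := by linarith
  have h4 : (0 : ℝ) ≤ (r : ℝ) * (r - 1) / 2 := by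
    have h5 : (0 : ℝ) ≤ (r : ℝ) - 1 := by linarith
    positivity
  unfold beta p0
  exact mul_nonneg h4 (mul_nonneg (sq_nonneg _) (pow_nonneg h3 _))

/-- The numerical conditions on `n`. -/
private theorem ev_num (r n₁ n₂ : ℕ) (D₀ a b κ g : ℝ) (hκ : 0 < κ) :
    ∀ᶠ n : ℕ in Filter.atTop, n₁ ≤ n ∧ n₂ ≤ n ∧ D₀ ≤ Real.log n ∧ 6 ≤ Real.log n ∧
      a ≤ n ∧ b ≤ n ∧ (3 + r) * (r - 1) ≤ n ∧ 1 ≤ n ∧ r ≤ n ∧ 4 / g ≤ Real.exp (κ / 2 * n) := by
  have hl : Filter.Tendsto (fun n : ℕ => Real.log n) Filter.atTop Filter.atTop :=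
    Real.tendsto_log_atTop.comp tendsto_natCast_atTop_atTop
  have hn : Filter.Tendsto (fun n : ℕ => (n : ℝ)) Filter.atTop Filter.atTop :=
    tendsto_natCast_atTop_atTop
  have he : Filter.Tendsto (fun n : ℕ => Real.exp (κ / 2 * n)) Filter.atTop Filter.atTop :=
    Real.tendsto_exp_atTop.comp (hn.const_mul_atTop (by positivity))
  filter_upwards [Filter.eventually_ge_atTop n₁, Filter.eventually_ge_atTop n₂,
    hl.eventually_ge_atTop D₀, hl.eventually_ge_atTop 6, hn.eventually_ge_atTop a,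
    hn.eventually_ge_atTop b, Filter.eventually_ge_atTop ((3 + r) * (r - 1)),
    Filter.eventually_ge_atTop 1, Filter.eventually_ge_atTop r,
    he.eventually_ge_atTop (4 / g)] with n h1 h2 h3 h4 h5 h6 h7 h8 h9 h10
  exact ⟨h1, h2, h3, h4, h5, h6, h7, h8, h9, h10⟩

/-- The size of `k`. -/
private theorem k_num (r M n k A δ : ℝ) (hr : 3 ≤ r) (hn : 1 ≤ n) (hδ : 0 < δ)
    (hM0 : 0 ≤ M) (hl : 6 ≤ r * M / n) (hk : k ≤ A * (r * M / n) + 1)
    (ha : 2 * A * r / δ ≤ n) (hb : 2 * r / δ ≤ n) : k ≤ δ * M := by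
  have hn0 : 0 < n := by linarith
  rw [div_le_iff₀ hδ] at ha hb
  rw [le_div_iff₀ hn0] at hl
  have h1 : A * (r * M / n) ≤ δ / 2 * M := by
    rw [← mul_div_assoc, div_le_iff₀ hn0]
    nlinarith
  have h2 : 2 ≤ δ * M := by
    have h3 : n ≤ r * M := by linarith
    have h4 : 2 * r ≤ r * (δ * M) := by nlinarith
    by_contra h5
    push Not at h5
    nlinarith
  linarith

private theorem surv_num (r M n k A m₁ M₀ : ℝ) (hr : 3 ≤ r) (hn : 1 ≤ n) (hA : 0 ≤ A)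
    (hm0 : 0 ≤ m₁) (hM0 : 0 ≤ M) (hl : 6 ≤ r * M / n) (hk : k ≤ A * (r * M / n) + 1)
    (hm : m₁ * (r - 1) ≤ n) (hM₀ : M / 2 ≤ M₀) :
    2 * m₁ ≤ M₀ ∧ 0 < M₀ ∧ 2 * m₁ * k / M₀ ≤ 6 * (A + 1) := by
  have hn0 : 0 < n := by linarith
  rw [le_div_iff₀ hn0] at hl
  have h1 : 4 * m₁ ≤ M := by
    by_contra h
    push Not at h
    have h2 : r * M < r * (4 * m₁) := by nlinarith
    nlinarith
  have h0 : 0 < M := by
    by_contra h
    push Not at h
    nlinarith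
  have hMp : 0 < M₀ := by linarith
  refine ⟨by linarith, hMp, ?_⟩
  rw [div_le_iff₀ hMp]
  have h2 : m₁ * r ≤ 3 / 2 * n := by nlinarith
  have h3 : m₁ * (r * M / n) ≤ 3 / 2 * M := by
    rw [← mul_div_assoc, div_le_iff₀ hn0]
    nlinarith
  have h4 : m₁ * k ≤ m₁ * (A * (r * M / n) + 1) := mul_le_mul_of_nonneg_left hk hm0
  have h5 : A * (m₁ * (r * M / n)) ≤ A * (3 / 2 * M) := mul_le_mul_of_nonneg_left h3 hA
  nlinarith

open Classical in
/-- **Flatness** (Lemma F of note 2166).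

Proof. Let `A = (C₁ + 1) / (0.38 θ)` (more precisely any constant with the estimates below),
`τ` with `(θ / 4) log (1 / τ) ≥ log 2 + 0.38 θ`, `κ_E, c_E, η, D₀` from `lemE_Aa`, `g = exp (-6 (A + 1))`,
`c₀ = c_E g / 2`, `κ = κ_E / 2`. For `D = r M / n ≥ log n`, `n` large: `k = ⌈A D⌉`, `M₀ = M - k` (so `4 k ≤ M`),
`m₁ = n / (r - 1) - 3 - |Zs|` (natural numbers; `(r - 1) ∣ n`), `S = FDat ..`,
`R μ = ∃ μ' ≥ μ, Lv M μ' ∧ Reg μ'`, `x₀ = 2 exp (-κ_E n) Bref D`. `flat_abs` with `c = c_E / D`,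
`c₀ / D`, `s = ⌈θ k / 4⌉₊`, `u = 1 / τ` (numerical estimate: `flat_num`): `hgp` by `surv_prod` (`2 m₁ k / M₀ ≤ 6 (A + 1)`: `m₁ ≤ n / (r - 1)`,
`M₀ ≥ M / 2`, `M = n D / r`), `hE` by `lemE_Aa` (`M' ≥ M - k` and `k / M → 0`), and
`(2 / g) (e (exp (θ k / 4) (1 - 0.63 θ)^k) + τ^(θ k / 4) 2^k) ≤ (2 / g) (e + 1) exp (-0.38 θ k)
 ≤ exp (-(C₁ log n))` for `n` large, as `k ≥ A D ≥ A log n`. `x₀ (2 / g) ≤ exp (-κ n) Bref D` for `n` large. -/
theorem flat (r : ℕ) (hr : 3 ≤ r) (θ K C₁ : ℝ) (hθ : 0 < θ) (hθ1 : θ ≤ 1) (hK : 1 ≤ K)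
    (hC : 0 < C₁) :
    ∃ κ c₀ η : ℝ, 0 < κ ∧ 0 < c₀ ∧ c₀ ≤ 1 ∧ 0 < η ∧ ∃ n₀ : ℕ, ∀ n ≥ n₀, (r - 1) ∣ n →
      ∀ M : ℕ, Real.log n ≤ (r : ℝ) * M / n →
      ∀ (U : Finset (Fin n)) (c d : Fin n) (Zs : Finset (OE n)), U.card + (3 * r - 4) = n →
        Zs.card ≤ r →
        PM r n M (fun μ => Reg r n K η ((r : ℝ) * M / n) (toR μ) ∧
          Real.exp (-κ * n) * Bref r n ((r : ℝ) * M / n) ≤ Psi r (toR μ) U c d Zs ∧
          θ * (Er r n).card ≤ (((Er r n).filter (fun Z => Bad r U c d Zs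
            (c₀ / ((r : ℝ) * M / n) * Psi r (toR μ) U c d Zs) μ Z)).card : ℝ)) ≤
          Real.exp (-(C₁ * Real.log n)) := by
  have hr3 : (3 : ℝ) ≤ r := by exact_mod_cast hr
  set A : ℝ := (C₁ + 1) / (0.38 * θ) with hAdef
  have hA0 : 0 < A := by positivity
  have hAθ : C₁ + 1 ≤ 0.38 * θ * A := by
    rw [hAdef]
    have h1 : 0.38 * θ ≠ 0 := by positivity
    rw [mul_div_cancel₀ _ h1]
  set τ : ℝ := Real.exp (-(4 / θ * (Real.log 2 + 0.38 * θ))) with hτdef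
  have hlog2 : 0 < Real.log 2 := Real.log_pos (by norm_num)
  have hτ : 0 < τ := Real.exp_pos _
  have hτ1 : τ ≤ 1 := by
    rw [hτdef]
    apply Real.exp_le_one_iff.2
    have : 0 ≤ 4 / θ * (Real.log 2 + 0.38 * θ) := by positivity
    linarith
  have hτθ : Real.log 2 + 0.38 * θ ≤ θ / 4 * Real.log (1 / τ) := by
    rw [one_div, Real.log_inv, hτdef, Real.log_exp, neg_neg]
    have h1 : θ / 4 * (4 / θ * (Real.log 2 + 0.38 * θ)) = Real.log 2 + 0.38 * θ := by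
      field_simp
    rw [h1]
  obtain ⟨κE, cE, η, D₀, hκE, hcE, hη, n₁, hlem⟩ := lemE_Aa r hr τ K hτ hK
  set g : ℝ := Real.exp (-(6 * (A + 1))) with hgdef
  have hg : 0 < g := Real.exp_pos _
  obtain ⟨n₂, hnum⟩ := flat_num θ C₁ A τ g hθ hθ1 hC hAθ hτ hτ1 hτθ hg
  have hβ := beta_nonneg' r hr
  set δ : ℝ := η / (beta r + 2 * η) with hδdef
  have hβη : 0 < beta r + 2 * η := by linarith
  have hδ : 0 < δ := by positivity
  have hδ2 : δ ≤ 1 / 2 := by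
    rw [hδdef, div_le_iff₀ hβη]
    linarith
  obtain ⟨n₀, hn₀⟩ := Filter.eventually_atTop.1
    (ev_num r n₁ n₂ D₀ (2 * A * r / δ) (2 * r / δ) κE g hκE)
  refine ⟨κE / 2, min 1 (cE * g / 2), η, by positivity, lt_min one_pos (by positivity),
    min_le_left _ _, hη, n₀, ?_⟩
  intro n hn hdvd M hM U c d Zs hU hZs
  obtain ⟨hn1, hn2, hD0, h6, ha, hb, hn3, hn4, hn5, hexp⟩ := hn₀ n hn
  have hnr : (1 : ℝ) ≤ n := by exact_mod_cast hn4
  have hn0 : (0 : ℝ) < n := by linarith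
  have hM0 : (0 : ℝ) ≤ M := Nat.cast_nonneg _
  set D : ℝ := (r : ℝ) * M / n with hDdef
  have hD6 : 6 ≤ D := h6.trans hM
  have hDpos : 0 < D := by linarith
  -- the number of edges
  obtain ⟨q, hq⟩ := hdvd
  obtain ⟨r', rfl⟩ : ∃ r', r = r' + 1 := ⟨r - 1, by omega⟩
  rw [Nat.add_sub_cancel] at hq hn3
  have hq3 : 3 + (r' + 1) ≤ q := by
    have h1 : r' * (3 + (r' + 1)) ≤ r' * q := by
      rw [← hq, mul_comm r' (3 + (r' + 1))]
      exact hn3
    exact Nat.le_of_mul_le_mul_left h1 (by omega)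
  have hm : ((q - 3 - Zs.card) + Zs.card) * (r' + 1 - 1) + 1 = U.card := by
    rw [Nat.add_sub_cancel]
    have h1 : q - 3 - Zs.card + Zs.card = q - 3 := by omega
    rw [h1, Nat.sub_mul, mul_comm q r', ← hq]
    have h2 : 3 * r' ≤ r' * q := by nlinarith
    omega
  set m₁ : ℕ := q - 3 - Zs.card with hm₁
  have hm1r : (m₁ : ℝ) * (((r' + 1 : ℕ) : ℝ) - 1) ≤ n := by
    have h1 : m₁ * r' ≤ n := by
      have h2 : m₁ * r' ≤ (m₁ + Zs.card) * (r' + 1 - 1) := by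
        rw [Nat.add_sub_cancel]
        exact Nat.mul_le_mul_right _ (Nat.le_add_right _ _)
      omega
    have h2 : (((r' + 1 : ℕ) : ℝ) - 1) = r' := by push_cast; ring
    rw [h2]
    exact_mod_cast h1
  -- the length of the trajectories
  set k : ℕ := ⌈A * D⌉₊ with hkdef
  have hkge : A * D ≤ k := Nat.le_ceil _
  have hkle : (k : ℝ) ≤ A * D + 1 := (Nat.ceil_lt_add_one (by positivity)).le
  have hkδ : (k : ℝ) ≤ δ * M := k_num _ M n k A δ hr3 hnr hδ hM0 hD6 hkle ha hb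
  have hkM2 : (k : ℝ) ≤ M / 2 := by nlinarith
  have hkM : k ≤ M := by
    have h1 : (k : ℝ) ≤ M := by linarith
    exact_mod_cast h1
  have hMk : M - k + k = M := Nat.sub_add_cancel hkM
  have hM₀ : ((M - k : ℕ) : ℝ) = M - k := by rw [Nat.cast_sub hkM]
  obtain ⟨hs1, hs2, hs3⟩ := surv_num _ M n k A m₁ ((M - k : ℕ) : ℝ) hr3 hnr hA0.le
    (Nat.cast_nonneg _) hM0 hD6 hkle hm1r (by rw [hM₀]; linarith)
  have hs1' : 2 * m₁ ≤ M - k := by exact_mod_cast hs1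
  have hs2' : 0 < M - k := by exact_mod_cast hs2
  -- the data
  set S := FDat (r' + 1) hr U c d Zs m₁ hm with hS
  set B : ℝ := Real.exp (-κE * n) * Bref (r' + 1) n D with hB
  have hBref : 0 < Bref (r' + 1) n D := Real.exp_pos _
  have hT : 0 < (Er (r' + 1) n).card := by
    rw [card_Er]
    exact Nat.choose_pos hn5
  have hgp : g ≤ ∏ j ∈ range k, (1 - (S.m₁ : ℝ) / (((M - k : ℕ) : ℝ) + j + 1)) := by
    refine le_trans ?_ (surv_prod m₁ (M - k) k hs1' hs2')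
    rw [hgdef]
    apply Real.exp_le_exp.2
    linarith
  let R : Mu n → Prop := fun μ => ∃ μ' : Mu n, (∀ Z, μ Z ≤ μ' Z) ∧ Lv (r' + 1) n M μ' ∧
    Reg (r' + 1) n K η D (toR μ')
  have hR : ∀ μ Z, R (up μ Z) → R μ := by
    rintro μ Z ⟨μ', h1, h2, h3⟩
    refine ⟨μ', fun Y => le_trans ?_ (h1 Y), h2, h3⟩
    unfold up
    by_cases h : Y = Z
    · rw [h, Function.update_self]
      exact Nat.le_succ _
    · rw [Function.update_of_ne h]
  have hE : ∀ M' μ, M - k ≤ M' → M' ≤ M - k + k → Lv (r' + 1) n M' μ → R μ →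
      2 * B ≤ S.Ψ μ → Aa S (cE / D) τ M' μ := by
    rintro M' μ h1 h2 h3 ⟨μ', h4, h5, h6⟩ h7
    rw [hMk] at h2
    have h8 : (M : ℝ) - k ≤ M' := by
      rw [← hM₀]
      exact_mod_cast h1
    refine hlem n hn1 M M' h2 (hD0.trans hM) (by linarith) ?_ U c d Zs m₁ hm hU hZs μ μ'
      h3 h4 h5 h6 h7
    have h9 : (1 - δ) * M ≤ M' := by linarith
    have h10 : (beta (r' + 1) + 2 * η) * (1 - δ) = beta (r' + 1) + η := by
      rw [hδdef]
      field_simp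
      ring
    calc (beta (r' + 1) + η) * M = (beta (r' + 1) + 2 * η) * ((1 - δ) * M) := by
          rw [← h10]
          ring
      _ ≤ (beta (r' + 1) + 2 * η) * M' := mul_le_mul_of_nonneg_left h9 hβη.le
  have hu : 1 ≤ 1 / τ := by
    rw [le_div_iff₀ hτ]
    linarith
  have hc₀ : 0 < min 1 (cE * g / 2) := lt_min one_pos (by positivity)
  have hcc : min 1 (cE * g / 2) / D * (2 / g) ≤ cE / D := by
    have h1 : min 1 (cE * g / 2) ≤ cE * g / 2 := min_le_right _ _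
    rw [div_mul_eq_mul_div]
    apply div_le_div_of_nonneg_right _ hDpos.le
    calc min 1 (cE * g / 2) * (2 / g) ≤ cE * g / 2 * (2 / g) :=
          mul_le_mul_of_nonneg_right h1 (by positivity)
      _ = cE := by field_simp
  have hmain := flat_abs S hT (cE / D) (min 1 (cE * g / 2) / D) τ θ g (2 * B)
    (by positivity) hτ.le hθ.le hθ1 hg hcc (M - k) k (by change m₁ ≤ M - k; omega) hgp R hR hE
    ⌈θ * k / 4⌉₊ (1 / τ) hu
  rw [hMk] at hmain
  refine le_trans (PM_mono _ M _ _ ?_) (hmain.trans (hnum n hn2 k ?_))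
  · rintro μ hμ ⟨h1, h2, h3⟩
    have h4 : 0 < Psi (r' + 1) (toR μ) U c d Zs := lt_of_lt_of_le (by positivity) h2
    refine ⟨⟨μ, fun _ => le_rfl, hμ, h1⟩, ?_, h4, h3⟩
    refine le_trans ?_ h2
    rw [hB]
    have h5 : Real.exp (-(κE / 2) * n) = Real.exp (-κE * n) * Real.exp (κE / 2 * n) := by
      rw [← Real.exp_add]
      congr 1
      ring
    rw [h5]
    calc 2 * (Real.exp (-κE * n) * Bref (r' + 1) n D) * (2 / g) =
          Real.exp (-κE * n) * (4 / g) * Bref (r' + 1) n D := by ring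
      _ ≤ Real.exp (-κE * n) * Real.exp (κE / 2 * n) * Bref (r' + 1) n D := by
          apply mul_le_mul_of_nonneg_right _ hBref.le
          exact mul_le_mul_of_nonneg_left hexp (Real.exp_pos _).le
  · exact le_trans (mul_le_mul_of_nonneg_left hM hA0.le) hkge

end Pool.Agent.LHam
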