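import Pool.Agent.LHam.C3Fam
import Pool.Agent.LHam.A13LemE

set_option autoImplicit false

/-! C4a. Lemma E for path counts. -/

namespace Pool.Agent.LHam

open Finset

/-- Regularity is inherited (with worse constants) by smaller multiplicities of almost the same
level. `D' = r M' / n`, `D = r M / n`, `D ≤ 2 D'` and `(β + η) D ≤ (β + 2 η) D'`. -/
theorem Reg_sub {n : ℕ} (r : ℕ) (K η D D' : ℝ) (hK : 0 ≤ K) (hη : 0 ≤ η) (μ μ' : Mu n)
    (h : ∀ Z, μ' Z ≤ μ Z) (hD : D ≤ 2 * D') (hD' : (beta r + η) * D ≤ (beta r + 2 * η) * D')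
    (hreg : Reg r n K η D (toR μ)) : Reg r n (2 * K) (2 * η) D' (toR μ') := by
  have hle : ∀ Z, toR μ' Z ≤ toR μ Z := fun Z => Nat.cast_le.2 (h Z)
  refine ⟨fun v => ?_, fun u v huv => ?_, fun Λ h1 h2 => ?_⟩
  · have h1 := hreg.deg_le v
    have h2 : deg r (toR μ') v ≤ deg r (toR μ) v := sum_le_sum fun Z _ => hle Z
    nlinarith [mul_le_mul_of_nonneg_left hD hK]
  · have h1 := hreg.codeg_le u v huv
    have h2 : codeg r (toR μ') u v ≤ codeg r (toR μ) u v := sum_le_sum fun Z _ => hle Z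
    nlinarith [mul_le_mul_of_nonneg_left hD hη]
  · have h3 := hreg.quasi Λ h1 h2
    have h4 : ∑ Z ∈ (Er r n).filter (fun Z => (Z ∩ Λ).card = 2), toR μ' Z ≤
        ∑ Z ∈ (Er r n).filter (fun Z => (Z ∩ Λ).card = 2), toR μ Z :=
      sum_le_sum fun Z _ => hle Z
    have h5 : 0 ≤ (n : ℝ) / r := by positivity
    have h6 := mul_le_mul_of_nonneg_left hD' h5
    have h7 : (beta r + η) * (n * D / r) = (n : ℝ) / r * ((beta r + η) * D) := by ring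
    have h8 : (beta r + 2 * η) * (n * D' / r) = (n : ℝ) / r * ((beta r + 2 * η) * D') := by ring
    rw [h8]
    rw [h7] at h3
    linarith

/-- The product of the survival probabilities is at least `exp (-2 m₁ k / M₀)` if `2 m₁ ≤ M₀`
(`1 - x ≥ exp (-2 x)` for `0 ≤ x ≤ 1/2`). -/
theorem surv_prod (m₁ M₀ k : ℕ) (h : 2 * m₁ ≤ M₀) (h0 : 0 < M₀) :
    Real.exp (-(2 * m₁ * k / M₀)) ≤ ∏ j ∈ range k, (1 - (m₁ : ℝ) / ((M₀ : ℝ) + j + 1)) := by
  have hM : (0 : ℝ) < M₀ := by exact_mod_cast h0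
  have hm : (2 : ℝ) * m₁ ≤ M₀ := by exact_mod_cast h
  have hm0 : (0 : ℝ) ≤ m₁ := Nat.cast_nonneg _
  have h1 : Real.exp (-(2 * m₁ * k / M₀)) = ∏ j ∈ range k, Real.exp (-(2 * (m₁ / M₀))) := by
    rw [prod_const, card_range, ← Real.exp_nat_mul]
    congr 1
    ring
  rw [h1]
  refine prod_le_prod (fun _ _ => (Real.exp_pos _).le) fun j _ => ?_
  have hj : (0 : ℝ) ≤ j := Nat.cast_nonneg _
  have hj1 : (0 : ℝ) < (M₀ : ℝ) + j + 1 := by linarith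
  obtain ⟨x, hx⟩ : ∃ x : ℝ, x = (m₁ : ℝ) / ((M₀ : ℝ) + j + 1) := ⟨_, rfl⟩
  have hx0 : 0 ≤ x := by
    rw [hx]
    positivity
  have hx1 : x ≤ (m₁ : ℝ) / M₀ := by
    rw [hx]
    exact div_le_div_of_nonneg_left hm0 hM (by linarith)
  have hx2 : (m₁ : ℝ) / M₀ ≤ 1 / 2 := by
    rw [div_le_iff₀ hM]
    linarith
  have hx3 : x ≤ 1 / 2 := hx1.trans hx2
  rw [← hx]
  have h2 : Real.exp (-(2 * (m₁ / M₀))) ≤ Real.exp (-(2 * x)) :=
    Real.exp_le_exp.2 (by linarith)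
  refine h2.trans ?_
  have h3 : 2 * x + 1 ≤ Real.exp (2 * x) := Real.add_one_le_exp _
  rw [Real.exp_neg]
  have h4 : (Real.exp (2 * x))⁻¹ ≤ (2 * x + 1)⁻¹ := inv_anti₀ (by linarith) h3
  refine h4.trans ?_
  rw [inv_le_iff_one_le_mul₀ (by linarith)]
  nlinarith [mul_nonneg hx0 (by linarith : (0 : ℝ) ≤ 1 - 2 * x)]

/-- `Bref` is monotone in `D > 0`. -/
theorem Bref_mono (r n : ℕ) (hr : 3 ≤ r) (D D' : ℝ) (h0 : 0 < D) (h : D ≤ D') :
    Bref r n D ≤ Bref r n D' := by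
  have hR : (3 : ℝ) ≤ r := by exact_mod_cast hr
  have hR1 : (0 : ℝ) < (r : ℝ) - 1 := by linarith
  unfold Bref
  refine Real.exp_le_exp.2 (mul_le_mul_of_nonneg_left ?_ (by positivity))
  have h1 : Real.log (((r : ℝ) - 1) * D) ≤ Real.log (((r : ℝ) - 1) * D') :=
    Real.log_le_log (by positivity) (mul_le_mul_of_nonneg_left h hR1.le)
  linarith

/-- **Lemma E for the data `(U, c, d, Zs)`**: `Aa` holds if `Psi` is large. `|U| + 3 r - 4 = n`,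
`|Zs| ≤ r`, `(r - 1) ∣ n`.

Proof. Let `τ, K` be given, `κ, c, η, D₀, n₀` from `lemmaE` (with `2 K` instead of `K`; let the new `η` be
half of it). Assume `Aa (FDat ..) (c / D) τ M' μ` fails, `M' ≤ M`, `μ ≤ μ'`, `μ'` of level `M` regular. Apply
`lemmaE` with `D' = r M' / n`, `ν = toR μ`, `G = Fam r U c d Zs` (size `m₁`,
`(r - 1) m₁ = n - (r - 1) (3 + |Zs|)`, `(r-1)(3 + r) ≤ 4 r^2`),
`S = {o | o.Ok r ∧ o.set` relevant `∧ Psi (insert o Zs) < (c / D) Psi}`: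
`∑ o ∈ S, ν o.set ≥ ∑ Z bad, μ Z > τ M' = τ (n D' / r)`; for `o ∈ S` (`o ∉ Zs` since `o.set` is disjoint from the
sets of `Zs` and nonempty) `Fam_marg` gives the hypothesis on the marginals with `c / D ≤ c / D'`. So
`Psi ≤ exp (-κ n) Bref D' ≤ exp (-κ n) Bref D`, contradiction. -/
theorem lemE_Aa (r : ℕ) (hr : 3 ≤ r) (τ K : ℝ) (hτ : 0 < τ) (hK : 1 ≤ K) :
    ∃ κ c η D₀ : ℝ, 0 < κ ∧ 0 < c ∧ 0 < η ∧ ∃ n₀ : ℕ, ∀ n ≥ n₀, ∀ M M' : ℕ, M' ≤ M →
      D₀ ≤ (r : ℝ) * M / n → (M : ℝ) ≤ 2 * M' → (beta r + η) * M ≤ (beta r + 2 * η) * M' →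
      ∀ (U : Finset (Fin n)) (c' d : Fin n) (Zs : Finset (OE n)) (m₁ : ℕ)
        (hm : (m₁ + Zs.card) * (r - 1) + 1 = U.card), U.card + (3 * r - 4) = n → Zs.card ≤ r →
      ∀ μ μ' : Mu n, Lv r n M' μ → (∀ Z, μ Z ≤ μ' Z) → Lv r n M μ' →
        Reg r n K η ((r : ℝ) * M / n) (toR μ') →
        2 * (Real.exp (-κ * n) * Bref r n ((r : ℝ) * M / n)) ≤ Psi r (toR μ) U c' d Zs →
        Aa (FDat r hr U c' d Zs m₁ hm) (c / ((r : ℝ) * M / n)) τ M' μ := by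
  classical
  obtain ⟨κ, c, η, D₀, hκ, hc, hη, n₀, H⟩ := lemmaE r hr τ (2 * K) hτ (by linarith)
  refine ⟨κ, c, η / 2, max 1 (2 * D₀), hκ, hc, by linarith, max n₀ 1, ?_⟩
  intro n hn M M' hMM hD0 hM2 hMb U c' d Zs m₁ hm hU hZs μ μ' hLv hle hLv' hreg hPsi
  have hn0 : n₀ ≤ n := (le_max_left _ _).trans hn
  have hn1 : 1 ≤ n := (le_max_right _ _).trans hn
  have hnR : (0 : ℝ) < n := by exact_mod_cast hn1
  have hR3 : (3 : ℝ) ≤ r := by exact_mod_cast hr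
  have hRp : (0 : ℝ) < r := by linarith
  have hMMR : (M' : ℝ) ≤ M := by exact_mod_cast hMM
  have hq : 0 < (r : ℝ) / n := by positivity
  obtain ⟨D, hD⟩ : ∃ D : ℝ, D = (r : ℝ) * M / n := ⟨_, rfl⟩
  obtain ⟨D', hD'⟩ : ∃ D' : ℝ, D' = (r : ℝ) * M' / n := ⟨_, rfl⟩
  have eD : D = (r : ℝ) / n * M := by rw [hD]; ring
  have eD' : D' = (r : ℝ) / n * M' := by rw [hD']; ring
  rw [← hD] at hD0 hreg hPsi ⊢
  have hD1 : 1 ≤ D := (le_max_left _ _).trans hD0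
  have hD2 : 2 * D₀ ≤ D := (le_max_right _ _).trans hD0
  have hDD2 : D ≤ 2 * D' := by
    rw [eD, eD']
    nlinarith [mul_le_mul_of_nonneg_left hM2 hq.le]
  have hDle : D' ≤ D := by
    rw [eD, eD']
    exact mul_le_mul_of_nonneg_left hMMR hq.le
  have hD'0 : 0 < D' := by linarith
  have hDb : (beta r + η / 2) * D ≤ (beta r + 2 * (η / 2)) * D' := by
    rw [eD, eD']
    nlinarith [mul_le_mul_of_nonneg_left hMb hq.le]
  have hreg' : Reg r n (2 * K) η D' (toR μ) := by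
    have h1 := Reg_sub r K (η / 2) D D' (by linarith) (by linarith) μ' μ hle hDD2 hDb hreg
    have h2 : 2 * (η / 2) = η := by ring
    rwa [h2] at h1
  have hMn : (n : ℝ) * D' / r = M' := by
    rw [hD']
    field_simp
  have hsum : ∑ Z ∈ Er r n, toR μ Z = n * D' / r := by
    rw [hMn, ← hLv.2, Nat.cast_sum]
    rfl
  by_contra hAa
  have hlt : τ * (M' : ℝ) < ∑ Z ∈ (Er r n).filter (fun Z =>
      (FDat r hr U c' d Zs m₁ hm).bad (c / D * (FDat r hr U c' d Zs m₁ hm).Ψ μ) μ Z),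
      (μ Z : ℝ) := by
    unfold Aa at hAa
    exact not_le.1 hAa
  obtain ⟨P, hP⟩ : ∃ P : ℝ, P = Psi r (toR μ) U c' d Zs := ⟨_, rfl⟩
  have hP0 : 0 ≤ P := by
    rw [hP]
    exact Psi_nonneg r _ (fun Z => Nat.cast_nonneg _) U c' d Zs
  obtain ⟨S, hS⟩ : ∃ S : Finset (OE n), S = univ.filter (fun o : OE n => o.Ok r ∧
      o.set ⊆ U ∧ c' ∉ o.set ∧ d ∉ o.set ∧ (∀ z ∈ Zs, Disjoint z.set o.set) ∧
      Psi r (toR μ) U c' d (insert o Zs) < c / D * P) := ⟨_, rfl⟩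
  have hSok : ∀ o ∈ S, o.Ok r := by
    intro o ho
    rw [hS] at ho
    exact (mem_filter.1 ho).2.1
  have hSsum : τ * (n * D' / r) ≤ ∑ o ∈ S, toR μ o.set := by
    rw [hMn]
    refine hlt.le.trans ?_
    have h1 : ∑ Z ∈ S.image OE.set, toR μ Z ≤ ∑ o ∈ S, toR μ o.set :=
      sum_image_le_of_nonneg fun Z _ => Nat.cast_nonneg _
    refine le_trans ?_ h1
    refine sum_le_sum_of_subset_of_nonneg ?_ fun Z _ _ => Nat.cast_nonneg _
    intro Z hZ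
    obtain ⟨-, hZ1, hZ2, hZ3, hZ4, o, ho1, ho2, ho3⟩ := mem_filter.1 hZ
    refine mem_image.2 ⟨o, ?_, ho2⟩
    rw [hS, mem_filter]
    rw [← ho2] at hZ1 hZ2 hZ3 hZ4
    refine ⟨mem_univ _, ho1, hZ1, hZ2, hZ3, hZ4, ?_⟩
    rw [hP]
    exact ho3
  have hmul : (m₁ + Zs.card) * (r - 1) = (r - 1) * m₁ + (r - 1) * Zs.card := by ring
  have hm1 : (r - 1) * m₁ ≤ n := by omega
  have hm2 : n ≤ (r - 1) * m₁ + 4 * r ^ 2 := by
    have h1 : (r - 1) * Zs.card ≤ r * r := Nat.mul_le_mul (by omega) hZs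
    have h2 : 3 * r ≤ r * r := Nat.mul_le_mul hr le_rfl
    have h3 : 4 * r ^ 2 = 4 * (r * r) := by ring
    omega
  have hG : ∀ F ∈ Fam r U c' d Zs, IsSys r F ∧ F.card = m₁ := by
    intro F hF
    obtain ⟨h1, h2, -, -⟩ := Fam_sys r hr U c' d Zs F hF
    refine ⟨h1, ?_⟩
    have h3 : (F.card + Zs.card) * (r - 1) = (m₁ + Zs.card) * (r - 1) := by omega
    have h4 := Nat.eq_of_mul_eq_mul_right (show 0 < r - 1 by omega) h3
    omega
  have hmar : ∀ o ∈ S, ∑ F ∈ (Fam r U c' d Zs).filter (fun F => o ∈ F), Wf (toR μ) F ≤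
      c * toR μ o.set / D' * ∑ F ∈ Fam r U c' d Zs, Wf (toR μ) F := by
    intro o ho
    rw [hS] at ho
    obtain ⟨-, h1, h2, h3, h4, h5, h6⟩ := mem_filter.1 ho
    have ho' : o ∉ Zs := by
      intro hoZ
      have h7 := h5 o hoZ
      rw [disjoint_self, bot_eq_empty] at h7
      have h8 : o.x ∈ o.set := mem_insert_self _ _
      rw [h7] at h8
      exact absurd h8 (notMem_empty _)
    rw [Fam_marg r hr _ U c' d Zs o ho', ← Psi_eq, ← hP]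
    have h7 : (0 : ℝ) ≤ toR μ o.set := Nat.cast_nonneg _
    have h8 : c / D ≤ c / D' := div_le_div_of_nonneg_left hc.le hD'0 hDle
    have h9 : c / D * P ≤ c / D' * P := mul_le_mul_of_nonneg_right h8 hP0
    calc toR μ o.set * Psi r (toR μ) U c' d (insert o Zs) ≤ toR μ o.set * (c / D' * P) :=
          mul_le_mul_of_nonneg_left (h6.le.trans h9) h7
      _ = c * toR μ o.set / D' * P := by ring
  have hfin := H n hn0 D' (by linarith) (toR μ) (fun Z => Nat.cast_nonneg _) hsum hreg' m₁ hm1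
    hm2 (Fam r U c' d Zs) hG S hSok hSsum hmar
  rw [← Psi_eq, ← hP] at hfin
  rw [← hP] at hPsi
  have hB1 : Bref r n D' ≤ Bref r n D := Bref_mono r n hr D' D hD'0 hDle
  have hB2 : 0 < Bref r n D := Real.exp_pos _
  have hE : 0 < Real.exp (-κ * n) := Real.exp_pos _
  have h1 : Real.exp (-κ * n) * Bref r n D' ≤ Real.exp (-κ * n) * Bref r n D :=
    mul_le_mul_of_nonneg_left hB1 hE.le
  have h2 : 0 < Real.exp (-κ * n) * Bref r n D := mul_pos hE hB2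
  linarith

end Pool.Agent.LHam
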