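import Pool.Agent.LHam.C2Sys

set_option autoImplicit false

/-! C7. Splitting off the end edges of a path; removing an edge of a cycle. -/

namespace Pool.Agent.LHam

open Finset

variable {n : ℕ}

open Classical in
/-- The pairs `(f₁, f₂)` of end edges for the oriented edge `o = (b, I, a)`: `f₁ = (a, J₁, c)`,
`f₂ = (d, J₂, b)`. -/
noncomputable def EndP (r : ℕ) (o : OE n) : Finset (OE n × OE n) :=
  univ.filter fun f => f.1.x = o.y ∧ f.2.y = o.x ∧ f.1.J.card = r - 2 ∧ f.2.J.card = r - 2 ∧
    (o.set ∪ f.1.J ∪ f.2.J).card = 3 * r - 4 ∧ f.1.y ∉ o.set ∪ f.1.J ∪ f.2.J ∧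
    f.2.x ∉ o.set ∪ f.1.J ∪ f.2.J ∧ f.1.y ≠ f.2.x

/-- The remaining vertices. -/
def Ur (o : OE n) (f : OE n × OE n) : Finset (Fin n) := univ \ (o.set ∪ f.1.J ∪ f.2.J)

private theorem c7_count (s : Finset (Fin n)) (a : Fin n) :
    s.val.count a = if a ∈ s then 1 else 0 :=
  Multiset.count_eq_of_nodup s.nodup

private theorem c7_psi (r : ℕ) (ν : Finset (Fin n) → ℝ) (U : Finset (Fin n)) (c d : Fin n) :
    Psi r ν U c d ∅ = ∑ F ∈ PF r U c d, ∏ e ∈ F, ν e.set := by
  unfold Psi
  rw [Finset.filter_true_of_mem fun F _ => Finset.empty_subset F]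
  exact Finset.sum_congr rfl fun F _ => by rw [Finset.sdiff_empty]

private theorem c7_verts_nil : verts ([] : List (OE n)) = 0 := rfl

open Classical in
/-- The end edges `f` fit to the path `F`. -/
private def EP (r : ℕ) (o : OE n) (F : Finset (OE n)) (f : OE n × OE n) : Prop :=
  f.1 ∈ F ∧ f.2 ∈ F ∧ f.1 ≠ f.2 ∧ (F.erase f.1).erase f.2 ∈ PF r (Ur o f) f.1.y f.2.x

private theorem c7_set_card {r : ℕ} (hr : 3 ≤ r) {o : OE n} (ho : o.Ok r) : o.set.card = r := by
  obtain ⟨h1, h2, h3, h4⟩ := ho
  unfold OE.set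
  rw [Finset.card_insert_of_notMem, Finset.card_insert_of_notMem h4, h1]
  · omega
  · rw [Finset.mem_insert, not_or]
    exact ⟨h2, h3⟩

private theorem c7_exists (r : ℕ) (hr : 3 ≤ r) (hn : 4 * (r - 1) ≤ n) (o : OE n) (ho : o.Ok r)
    (F : Finset (OE n)) (hF : F ∈ PF r (univ \ o.J) o.y o.x) :
    ∃ f ∈ EndP r o, EP r o F f := by
  classical
  unfold PF at hF
  obtain ⟨-, l, hl, rfl⟩ := Finset.mem_filter.1 hF
  obtain ⟨hx, hnd, hok, hsub, -, hlen, -, -⟩ := path_nodup r hr _ _ _ l hl
  obtain ⟨hconn, hJ, hv⟩ := hl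
  have hcard : (univ \ o.J : Finset (Fin n)).card = n - (r - 2) := by
    rw [Finset.card_sdiff_of_subset (Finset.subset_univ _), Finset.card_univ, Fintype.card_fin,
      ho.1]
  rw [hcard] at hlen
  have hlen3 : 3 ≤ l.length := by
    by_contra hlt
    have h1 : l.length ≤ 2 := by omega
    have h2 : l.length * (r - 1) ≤ 2 * (r - 1) := Nat.mul_le_mul_right _ h1
    omega
  obtain ⟨f₁, l₁, rfl⟩ : ∃ f₁ l₁, l = f₁ :: l₁ := by
    cases l with
    | nil => simp at hlen3
    | cons a t => exact ⟨a, t, rfl⟩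
  obtain ⟨l', f₂, rfl⟩ : ∃ l' f₂, l₁ = l' ++ [f₂] := by
    rcases List.eq_nil_or_concat l₁ with h | ⟨l', b, h⟩
    · rw [h] at hlen3
      simp at hlen3
    · exact ⟨l', b, by simpa using h⟩
  obtain ⟨hc1, hc2⟩ : f₁.x = o.y ∧ Conn f₁.y (l' ++ [f₂]) o.x := hconn
  obtain ⟨e, hc3, hc4⟩ := conn_split _ _ _ _ hc2
  obtain ⟨rfl, hc5⟩ : f₂.x = e ∧ f₂.y = o.x := hc4
  obtain ⟨g, l'', rfl⟩ : ∃ g l'', l' = g :: l'' := by
    cases l' with
    | nil => simp at hlen3
    | cons a t => exact ⟨a, t, rfl⟩
  have hc6 : g.x = f₁.y := hc3.1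
  -- the counts
  have hcount : ∀ a : Fin n, (if a = o.y then 1 else 0) + (if a ∈ f₁.J then 1 else 0) +
      (verts (g :: l'')).count a + (if a = f₂.x then 1 else 0) + (if a ∈ f₂.J then 1 else 0) +
      (if a = o.x then 1 else 0) = if a ∈ o.J then 0 else 1 := by
    intro a
    have h := congrArg (fun m : Multiset (Fin n) => m.count a) hv
    simp only [verts_cons f₁, verts_append, verts_cons f₂, c7_verts_nil, Multiset.count_add,
      Multiset.count_cons, Multiset.count_singleton, c7_count, Multiset.count_zero,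
      Finset.mem_sdiff, Finset.mem_univ, true_and, hc1, ite_not] at h
    rw [← h]
    ring
  have hUr : verts (g :: l'') + {f₂.x} = (Ur o (f₁, f₂)).val := by
    ext a
    have h := hcount a
    rw [Multiset.count_add, Multiset.count_singleton, c7_count]
    unfold Ur OE.set
    simp only [Finset.mem_sdiff, Finset.mem_univ, true_and, Finset.mem_union, Finset.mem_insert]
    generalize (verts (g :: l'')).count a = k at h ⊢
    generalize (if a = f₂.x then 1 else 0 : ℕ) = k' at h ⊢
    by_cases h1 : a = o.y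
    · rw [if_pos h1] at h
      rw [if_neg (by tauto)]
      split_ifs at h <;> omega
    by_cases h2 : a ∈ f₁.J
    · rw [if_pos h2] at h
      rw [if_neg (by tauto)]
      split_ifs at h <;> omega
    by_cases h3 : a ∈ f₂.J
    · rw [if_pos h3] at h
      rw [if_neg (by tauto)]
      split_ifs at h <;> omega
    by_cases h4 : a = o.x
    · rw [if_pos h4] at h
      rw [if_neg (by tauto)]
      split_ifs at h <;> omega
    by_cases h5 : a ∈ o.J
    · rw [if_pos h5] at h
      rw [if_neg (by tauto)]
      omega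
    rw [if_neg h1, if_neg h2, if_neg h3, if_neg h4, if_neg h5] at h
    rw [if_pos (by tauto)]
    omega
  have hPath : IsPath r (Ur o (f₁, f₂)) f₁.y f₂.x (g :: l'') :=
    ⟨hc3, fun o' ho' => hJ o' (by simp only [List.mem_cons, List.mem_append] at ho' ⊢; tauto), hUr⟩
  have hf₁ : f₁.Ok r := hok f₁ (by simp)
  have hf₂ : f₂.Ok r := hok f₂ (by simp)
  have hyU : f₁.y ∈ Ur o (f₁, f₂) := by
    rw [← Finset.mem_val, ← hUr, ← hc6, verts_cons]
    simp
  have hxU : f₂.x ∈ Ur o (f₁, f₂) := by
    rw [← Finset.mem_val, ← hUr]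
    simp
  have hne : f₁.y ≠ f₂.x := by
    intro h
    have h1 := hcount f₂.x
    rw [verts_cons, Multiset.count_add, Multiset.count_cons, if_pos rfl, hc6,
      if_pos h.symm] at h1
    split_ifs at h1 <;> omega
  have hdis : Disjoint (o.set ∪ f₁.J) f₂.J ∧ Disjoint o.set f₁.J := by
    constructor
    · rw [Finset.disjoint_left]
      intro a ha hb
      have h := hcount a
      rw [if_pos hb] at h
      unfold OE.set at ha
      simp only [Finset.mem_union, Finset.mem_insert] at ha
      by_cases h1 : a = o.y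
      · rw [if_pos h1] at h
        split_ifs at h <;> omega
      · by_cases h4 : a = o.x
        · rw [if_pos h4] at h
          split_ifs at h <;> omega
        · by_cases h5 : a ∈ o.J
          · rw [if_pos h5] at h
            omega
          · have h6 : a ∈ f₁.J := by tauto
            rw [if_pos h6] at h
            split_ifs at h <;> omega
    · rw [Finset.disjoint_left]
      intro a ha hb
      have h := hcount a
      rw [if_pos hb] at h
      unfold OE.set at ha
      simp only [Finset.mem_insert] at ha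
      rcases ha with ha | ha | ha
      · rw [if_pos ha] at h
        split_ifs at h <;> omega
      · rw [if_pos ha] at h
        split_ifs at h <;> omega
      · rw [if_pos ha] at h
        omega
  refine ⟨(f₁, f₂), ?_, ?_⟩
  · unfold EndP
    rw [Finset.mem_filter]
    refine ⟨Finset.mem_univ _, hc1, hc5, hf₁.1, hf₂.1, ?_, ?_, ?_, hne⟩
    · change (o.set ∪ f₁.J ∪ f₂.J).card = 3 * r - 4
      rw [Finset.card_union_of_disjoint hdis.1, Finset.card_union_of_disjoint hdis.2,
        c7_set_card hr ho, hf₁.1, hf₂.1]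
      omega
    · have := hyU
      unfold Ur at this
      exact (Finset.mem_sdiff.1 this).2
    · have := hxU
      unfold Ur at this
      exact (Finset.mem_sdiff.1 this).2
  · have hnd1 := List.nodup_cons.1 hnd
    have hnd2 : (g :: l'').Nodup ∧ f₂ ∉ (g :: l'') := by
      have h := hnd1.2
      rw [List.nodup_append] at h
      refine ⟨h.1, fun hmem => ?_⟩
      exact h.2.2 f₂ hmem f₂ (by simp) rfl
    have hne12 : f₁ ≠ f₂ := by
      rintro rfl
      exact hnd1.1 (by simp)
    refine ⟨by simp, by simp, hne12, ?_⟩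
    unfold PF
    rw [Finset.mem_filter]
    refine ⟨Finset.mem_univ _, g :: l'', hPath, ?_⟩
    ext e
    simp only [List.mem_toFinset, Finset.mem_erase, List.mem_cons, List.mem_append,
      List.not_mem_nil, or_false]
    constructor
    · intro he
      refine ⟨?_, ?_, Or.inr (Or.inl he)⟩
      · rintro rfl
        exact hnd2.2 (by simpa using he)
      · rintro rfl
        exact hnd1.1 (by simp only [List.mem_append, List.mem_cons]; exact Or.inl he)
    · rintro ⟨h1, h2, h3⟩
      tauto

/-- **Ends of a path.** Every path from `a = o.y` to `b = o.x` on the complement of `o.J` has at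
least three edges (`4 (r - 1) ≤ n`): `f₁`, a path from `c = f₁.y` to `d = f₂.x` on `Ur o f`, and
`f₂`, with `(f₁, f₂) ∈ EndP r o`. (As lists `l = f₁ :: (l' ++ [f₂])`.) -/
theorem ends (r : ℕ) (hr : 3 ≤ r) (hn : 4 * (r - 1) ≤ n) (ν : Finset (Fin n) → ℝ)
    (hν : ∀ Z, 0 ≤ ν Z) (o : OE n) (ho : o.Ok r) :
    Psi r ν (univ \ o.J) o.y o.x ∅ ≤
      ∑ f ∈ EndP r o, ν f.1.set * ν f.2.set * Psi r ν (Ur o f) f.1.y f.2.x ∅ := by
  classical
  rw [c7_psi]
  have hw : ∀ F : Finset (OE n), 0 ≤ ∏ e ∈ F, ν e.set := fun F =>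
    Finset.prod_nonneg fun e _ => hν _
  calc ∑ F ∈ PF r (univ \ o.J) o.y o.x, ∏ e ∈ F, ν e.set
      ≤ ∑ F ∈ PF r (univ \ o.J) o.y o.x, ∑ f ∈ (EndP r o).filter (fun f => EP r o F f),
          ∏ e ∈ F, ν e.set := by
        refine Finset.sum_le_sum fun F hF => ?_
        obtain ⟨f, hf, hE⟩ := c7_exists r hr hn o ho F hF
        exact Finset.single_le_sum (f := fun _ => ∏ e ∈ F, ν e.set) (fun _ _ => hw F)
          (Finset.mem_filter.2 ⟨hf, hE⟩)
    _ = ∑ f ∈ EndP r o, ∑ F ∈ (PF r (univ \ o.J) o.y o.x).filter (fun F => EP r o F f),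
          ∏ e ∈ F, ν e.set := by
        refine Finset.sum_comm' fun F f => ?_
        simp only [Finset.mem_filter]
        tauto
    _ ≤ _ := by
        refine Finset.sum_le_sum fun f hf => ?_
        rw [c7_psi]
        set S := (PF r (univ \ o.J) o.y o.x).filter (fun F => EP r o F f) with hS
        have h1 : ∑ F ∈ S, ∏ e ∈ F, ν e.set =
            ∑ F ∈ S, ν f.1.set * ν f.2.set * ∏ e ∈ (F.erase f.1).erase f.2, ν e.set := by
          refine Finset.sum_congr rfl fun F hF => ?_
          obtain ⟨hf1, hf2, hf3, -⟩ := (Finset.mem_filter.1 hF).2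
          rw [mul_assoc, Finset.mul_prod_erase _ (fun e : OE n => ν e.set)
            (Finset.mem_erase.2 ⟨hf3.symm, hf2⟩), Finset.mul_prod_erase _
            (fun e : OE n => ν e.set) hf1]
        rw [h1, ← Finset.mul_sum]
        refine mul_le_mul_of_nonneg_left ?_ (mul_nonneg (hν _) (hν _))
        have hinj : Set.InjOn (fun F : Finset (OE n) => (F.erase f.1).erase f.2)
            (S : Set (Finset (OE n))) := by
          intro F hF F' hF' heq
          obtain ⟨hf1, hf2, hf3, -⟩ := (Finset.mem_filter.1 hF).2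
          obtain ⟨hf1', hf2', hf3', -⟩ := (Finset.mem_filter.1 hF').2
          have e1 : F = insert f.1 (insert f.2 ((F.erase f.1).erase f.2)) := by
            rw [Finset.insert_erase (Finset.mem_erase.2 ⟨hf3.symm, hf2⟩),
              Finset.insert_erase hf1]
          have e2 : F' = insert f.1 (insert f.2 ((F'.erase f.1).erase f.2)) := by
            rw [Finset.insert_erase (Finset.mem_erase.2 ⟨hf3.symm, hf2'⟩),
              Finset.insert_erase hf1']
          rw [e1, e2]
          simp only at heq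
          rw [heq]
        rw [← Finset.sum_image (f := fun F' : Finset (OE n) => ∏ e ∈ F', ν e.set) hinj]
        refine Finset.sum_le_sum_of_subset_of_nonneg ?_ fun F _ _ => hw F
        intro F' hF'
        obtain ⟨F, hF, rfl⟩ := Finset.mem_image.1 hF'
        exact (Finset.mem_filter.1 hF).2.2.2.2

/-- **Removing an edge from the cycles.** `F ↦ F.erase o` is a bijection from the cycles through
the proper oriented edge `o` to the paths from `o.y` to `o.x` on the complement of `o.J` (rotate
the list so that `o` comes first). -/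
theorem cyc_erase (r : ℕ) (hr : 3 ≤ r) (hn : r ≤ n) (ν : Finset (Fin n) → ℝ) (o : OE n)
    (ho : o.Ok r) :
    ∑ F ∈ (CF r n).filter (fun F => o ∈ F), ∏ e ∈ F.erase o, ν e.set =
      Psi r ν (univ \ o.J) o.y o.x ∅ := by
  classical
  rw [c7_psi]
  refine Finset.sum_bij' (fun F _ => F.erase o) (fun F _ => insert o F) ?_ ?_ ?_ ?_ ?_
  · intro F hF
    obtain ⟨hF1, hoF⟩ := Finset.mem_filter.1 hF
    unfold CF at hF1
    obtain ⟨-, l, hl, rfl⟩ := Finset.mem_filter.1 hF1
    obtain ⟨-, hnd, -, -, -⟩ := cyc_nodup r hr hn l hl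
    obtain ⟨-, ⟨c, hc⟩, hJ, hv⟩ := hl
    rw [List.mem_toFinset] at hoF
    obtain ⟨l₁, l₂, rfl⟩ := List.append_of_mem hoF
    obtain ⟨d, hd⟩ := conn_rotate _ _ _ hc
    obtain ⟨rfl, hd2⟩ : o.x = d ∧ Conn o.y (l₂ ++ l₁) d := hd
    unfold PF
    rw [Finset.mem_filter]
    refine ⟨Finset.mem_univ _, l₂ ++ l₁, ⟨hd2, fun e he => hJ e ?_, ?_⟩, ?_⟩
    · simp only [List.mem_append, List.mem_cons] at he ⊢
      tauto
    · ext a
      have h := congrArg (fun m : Multiset (Fin n) => m.count a) hv
      simp only [verts_append, verts_cons, Multiset.count_add, Multiset.count_cons, c7_count,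
        Finset.mem_univ, if_true] at h
      rw [verts_append, Multiset.count_add, Multiset.count_add, Multiset.count_singleton, c7_count]
      simp only [Finset.mem_sdiff, Finset.mem_univ, true_and]
      split_ifs at h ⊢ <;> first | omega | tauto
    · have hnd1 : o ∉ l₂ ++ l₁ := by
        rw [List.nodup_append] at hnd
        rw [List.mem_append, not_or]
        refine ⟨(List.nodup_cons.1 hnd.2.1).1, fun h => ?_⟩
        exact hnd.2.2 o h o (by simp) rfl
      ext e
      simp only [List.mem_toFinset, Finset.mem_erase, List.mem_append, List.mem_cons]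
      constructor
      · intro he
        refine ⟨?_, by tauto⟩
        rintro rfl
        exact hnd1 (List.mem_append.2 he)
      · rintro ⟨h1, h2⟩
        tauto
  · intro F hF
    unfold PF at hF
    obtain ⟨-, l, ⟨hc, hJ, hv⟩, rfl⟩ := Finset.mem_filter.1 hF
    refine Finset.mem_filter.2 ⟨?_, Finset.mem_insert_self _ _⟩
    unfold CF
    rw [Finset.mem_filter]
    refine ⟨Finset.mem_univ _, o :: l, ⟨by simp, ⟨o.x, rfl, hc⟩, ?_, ?_⟩, ?_⟩
    · intro e he
      rcases List.mem_cons.1 he with rfl | he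
      · exact ho.1
      · exact hJ e he
    · ext a
      have h := congrArg (fun m : Multiset (Fin n) => m.count a) hv
      simp only [Multiset.count_add, Multiset.count_singleton, c7_count, Finset.mem_sdiff,
        Finset.mem_univ, true_and] at h
      rw [verts_cons, Multiset.count_add, Multiset.count_cons, c7_count, c7_count]
      simp only [Finset.mem_univ, if_true]
      split_ifs at h ⊢ <;> first | omega | tauto
    · rw [List.toFinset_cons]
  · intro F hF
    exact Finset.insert_erase (Finset.mem_filter.1 hF).2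
  · intro F hF
    refine Finset.erase_insert fun hoF => ?_
    obtain ⟨-, -, h3, -⟩ := PF_sys r hr _ _ _ F hF
    have h4 := h3 o hoF
    have h5 : 0 < o.J.card := by rw [ho.1]; omega
    obtain ⟨a, ha⟩ := Finset.card_pos.1 h5
    have h6 := h4 (show a ∈ o.set by unfold OE.set; simp [ha])
    exact (Finset.mem_sdiff.1 h6).2 ha
  · intro F hF
    rfl

end Pool.Agent.LHam
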