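import Pool.Agent.LHam.D2Cut
import Pool.Agent.LHam.C7Ends

set_option autoImplicit false

/-! C8. The splice: definitions. -/

namespace Pool.Agent.LHam

open Finset

variable {n : ℕ}

/-- The new edge at the cut `j + 1`: `s_{j+1}` is replaced by the vertex `xs o (j + 2)` of `o`. -/
noncomputable def ncut (o : OE n) (bl : List (Finset (Fin n))) (j : ℕ) : OE n :=
  ⟨el o.x (bget bl (j + 2)) 0, insert (xs o (j + 2))
      (((bget bl (j + 2)).erase (el o.x (bget bl (j + 2)) 0)).erase
        (el o.x (bget bl (j + 2)) 1)), el o.x (bget bl (j + 2)) 1⟩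

open Classical in
/-- Replacement of the cuts `1, .., r - 2` by the new edges. -/
noncomputable def repl (r : ℕ) (o : OE n) (bl : List (Finset (Fin n))) (e : OE n) : OE n :=
  if h : ∃ j, j < r - 2 ∧ e = cut o.x bl (j + 1) then ncut o bl (Classical.choose h) else e

/-- The edge at `a = o.y`: `(s₀, {s₁, .., s_{r-2}}, a)`. -/
noncomputable def ga (o : OE n) (bl : List (Finset (Fin n))) : OE n :=
  ⟨el o.x (bget bl 0) 0, (bget bl 0).erase (el o.x (bget bl 0) 0), o.y⟩

/-- The edge at `b = o.x`: the cut `0` with `s₀` replaced by `b`. -/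
noncomputable def gb (o : OE n) (bl : List (Finset (Fin n))) : OE n :=
  ⟨el o.x (bget bl 1) 0, (bget bl 1).erase (el o.x (bget bl 1) 0), o.x⟩

/-- The splice of `A ++ [cut 0] ++ B` (a path from `c = f₁.y` to `d = f₂.x` on `Ur o f`): the closed list
`A', (u₀, t, b), (b, J₂, d), reverse B', (s₀, {s}, a), (a, J₁, c)`. -/
noncomputable def splice (r : ℕ) (o : OE n) (f : OE n × OE n) (bl : List (Finset (Fin n)))
    (A B : List (OE n)) : List (OE n) :=
  A.map (repl r o bl) ++ [gb o bl, f.2.flip] ++ (B.map (repl r o bl)).reverse.map OE.flip ++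
    [ga o bl, f.1]

/-- The data of a splice. -/
structure SpD (r : ℕ) (o : OE n) (f : OE n × OE n) (bl : List (Finset (Fin n)))
    (A B : List (OE n)) : Prop where
  ok : o.Ok r
  ends : f ∈ EndP r o
  geo : Geo r (Ur o f) f.1.y f.2.x bl
  path : IsPath r (Ur o f) f.1.y f.2.x (A ++ cut o.x bl 0 :: B)
  cuts : ∀ j < r - 2, cut o.x bl (j + 1) ∈ A ++ B

end Pool.Agent.LHam
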