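import Pool.Agent.LHam.C8Defs

set_option autoImplicit false

/-! C8a. The splice is a linear Hamiltonian cycle. -/

namespace Pool.Agent.LHam

open Finset

variable {n : ℕ}

private theorem cut_inj (r : ℕ) (hr : 3 ≤ r) (o : OE n) (f : OE n × OE n)
    (bl : List (Finset (Fin n))) (hg : Geo r (Ur o f) f.1.y f.2.x bl) {j j' : ℕ} (hj : j < r - 2)
    (hj' : j' < r - 2) (h : cut o.x bl (j + 1) = cut o.x bl (j' + 1)) : j = j' := by
  by_contra hne
  have hd := cut_disjoint r hr (Ur o f) f.1.y f.2.x o.x bl hg (j + 1) (j' + 1) (by omega)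
    (by omega) (by omega)
  rw [← h] at hd
  have hx : (cut o.x bl (j + 1)).x ∈ (cut o.x bl (j + 1)).set := Finset.mem_insert_self _ _
  exact (Finset.disjoint_left.1 hd hx) hx

private theorem notMem_bget (r : ℕ) (o : OE n) (f : OE n × OE n)
    (bl : List (Finset (Fin n))) (hg : Geo r (Ur o f) f.1.y f.2.x bl) {i : ℕ} (hi : i < r)
    {v : Fin n} (hv : v ∈ o.set) : v ∉ bget bl i := by
  intro h
  have h1 := (hg.2.1 i hi).2 h
  have h2 := Finset.mem_of_mem_erase (Finset.mem_of_mem_erase h1)
  unfold Ur at h2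
  exact (Finset.mem_sdiff.1 h2).2 (Finset.mem_union_left _ (Finset.mem_union_left _ hv))

private theorem xs_mem (r : ℕ) (o : OE n) (ho : o.Ok r) {j : ℕ} (hj : j < r - 2) :
    xs o (j + 2) ∈ o.J := el_mem o.x o.J j (by rw [ho.1]; exact hj)

private theorem J_sub (o : OE n) {v : Fin n} (hv : v ∈ o.J) : v ∈ o.set :=
  Finset.mem_insert_of_mem (Finset.mem_insert_of_mem hv)

private theorem range_image (w : Fin n) (β : Finset (Fin n)) :
    (range β.card).image (el w β) = β := by
  ext v
  rw [Finset.mem_image]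
  constructor
  · rintro ⟨i, hi, rfl⟩
    exact el_mem w β i (Finset.mem_range.1 hi)
  · intro hv
    obtain ⟨i, hi, h⟩ := el_surj w β v hv
    exact ⟨i, Finset.mem_range.2 hi, h⟩

private theorem sum_el (w : Fin n) (β : Finset (Fin n)) :
    ∑ j ∈ range β.card, ({el w β j} : Multiset (Fin n)) = β.val := by
  conv_rhs => rw [← range_image w β]
  rw [← Finset.sum_multiset_singleton, Finset.sum_image]
  intro i hi j hj h
  exact el_inj w β i j (Finset.mem_range.1 hi) (Finset.mem_range.1 hj) h

private theorem sum_el_erase (w : Fin n) (β : Finset (Fin n)) (k : ℕ) (hk : β.card = k + 1) :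
    ∑ j ∈ range k, ({el w β (j + 1)} : Multiset (Fin n)) = (β.erase (el w β 0)).val := by
  have h1 := sum_el w β
  rw [hk, Finset.sum_range_succ'] at h1
  have h2 : el w β 0 ∈ β := el_mem w β 0 (by omega)
  have h3 : (β.erase (el w β 0)).val + {el w β 0} = β.val := by
    rw [add_comm, Multiset.singleton_add, Finset.erase_val]
    exact Multiset.cons_erase h2
  rw [← h3] at h1
  exact add_right_cancel h1

/-- `repl` on the cuts (the cuts `j + 1` are different edges, `cut_disjoint`). -/
theorem repl_cut (r : ℕ) (hr : 3 ≤ r) (o : OE n) (f : OE n × OE n)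
    (bl : List (Finset (Fin n))) (hg : Geo r (Ur o f) f.1.y f.2.x bl) (j : ℕ) (hj : j < r - 2) :
    repl r o bl (cut o.x bl (j + 1)) = ncut o bl j := by
  have h : ∃ j', j' < r - 2 ∧ cut o.x bl (j + 1) = cut o.x bl (j' + 1) := ⟨j, hj, rfl⟩
  unfold repl
  rw [dif_pos h]
  have h' := Classical.choose_spec h
  exact congrArg (ncut o bl) (cut_inj r hr o f bl hg hj h'.1 h'.2).symm

theorem repl_other (r : ℕ) (o : OE n) (bl : List (Finset (Fin n))) (e : OE n)
    (he : ∀ j < r - 2, e ≠ cut o.x bl (j + 1)) : repl r o bl e = e := by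
  unfold repl
  rw [dif_neg]
  rintro ⟨j, hj, h⟩
  exact he j hj h

/-- `repl` does not change the link vertices nor the number of inner vertices. -/
theorem repl_xy (r : ℕ) (hr : 3 ≤ r) (o : OE n) (f : OE n × OE n) (hf : f ∈ EndP r o)
    (ho : o.Ok r) (bl : List (Finset (Fin n))) (hg : Geo r (Ur o f) f.1.y f.2.x bl) (e : OE n)
    (he : e.J.card = r - 2) :
    (repl r o bl e).x = e.x ∧ (repl r o bl e).y = e.y ∧ (repl r o bl e).J.card = r - 2 := by
  by_cases h : ∃ j, j < r - 2 ∧ e = cut o.x bl (j + 1)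
  · obtain ⟨j, hj, rfl⟩ := h
    rw [repl_cut r hr o f bl hg j hj]
    refine ⟨rfl, rfl, ?_⟩
    have h1 := (hg.2.1 (j + 2) (by omega)).1
    have hu : el o.x (bget bl (j + 2)) 0 ∈ bget bl (j + 2) := el_mem _ _ _ (by omega)
    have hv : el o.x (bget bl (j + 2)) 1 ∈ bget bl (j + 2) := el_mem _ _ _ (by omega)
    have huv : el o.x (bget bl (j + 2)) 1 ≠ el o.x (bget bl (j + 2)) 0 := by
      intro h2
      have := el_inj _ _ _ _ (by omega) (by omega) h2
      omega
    have hx := notMem_bget r o f bl hg (i := j + 2) (by omega) (J_sub o (xs_mem r o ho hj))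
    show (insert (xs o (j + 2)) (((bget bl (j + 2)).erase (el o.x (bget bl (j + 2)) 0)).erase
        (el o.x (bget bl (j + 2)) 1))).card = r - 2
    rw [Finset.card_insert_of_notMem, Finset.card_erase_of_mem, Finset.card_erase_of_mem hu, h1]
    · omega
    · exact Finset.mem_erase.2 ⟨huv, hv⟩
    · intro h2
      exact hx (Finset.mem_of_mem_erase (Finset.mem_of_mem_erase h2))
  · rw [repl_other r o bl e (fun j hj h' => h ⟨j, hj, h'⟩)]
    exact ⟨rfl, rfl, he⟩

/-- The vertices after the replacement: `s_{j+1}` is replaced by `xs o (j + 2)`, `j < r - 2`, and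
`{s₁, .., s_{r-2}} = bl₀ \ {s₀}`, `{xs o (j + 2)} = o.J`. As multisets. (`A ++ B` contains every cut
exactly once, `path_nodup`.) -/
theorem verts_repl (r : ℕ) (hr : 3 ≤ r) (o : OE n) (f : OE n × OE n)
    (bl : List (Finset (Fin n))) (A B : List (OE n)) (h : SpD r o f bl A B) :
    verts ((A ++ B).map (repl r o bl)) + ((bget bl 0).erase (el o.x (bget bl 0) 0)).val =
      verts (A ++ B) + o.J.val := by
  have hg := h.geo
  have hnd : (A ++ B).Nodup := by
    have h1 := (path_nodup r hr _ _ _ _ h.path).2.1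
    exact h1.sublist (List.Sublist.append (List.Sublist.refl A) (List.sublist_cons_self _ B))
  obtain ⟨g, hgd⟩ : ∃ g : OE n → Multiset (Fin n), g = fun e => e.x ::ₘ e.J.val := ⟨_, rfl⟩
  have hv1 : verts (A ++ B) = ∑ e ∈ (A ++ B).toFinset, g e := by
    rw [List.sum_toFinset _ hnd, hgd]
    rfl
  have hv2 : verts ((A ++ B).map (repl r o bl)) =
      ∑ e ∈ (A ++ B).toFinset, g (repl r o bl e) := by
    rw [List.sum_toFinset _ hnd, hgd]
    unfold verts
    rw [List.map_map]
    rfl
  obtain ⟨Z, hZ⟩ : ∃ Z : Finset (OE n), Z = (range (r - 2)).image fun j => cut o.x bl (j + 1) :=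
    ⟨_, rfl⟩
  have hZS : Z ⊆ (A ++ B).toFinset := by
    intro e he
    rw [hZ, Finset.mem_image] at he
    obtain ⟨j, hj, rfl⟩ := he
    exact List.mem_toFinset.2 (h.cuts j (Finset.mem_range.1 hj))
  have hinj : ∀ φ : OE n → Multiset (Fin n), ∑ e ∈ Z, φ e =
      ∑ j ∈ range (r - 2), φ (cut o.x bl (j + 1)) := by
    intro φ
    rw [hZ, Finset.sum_image]
    intro i hi j hj hij
    exact cut_inj r hr o f bl hg (Finset.mem_range.1 hi) (Finset.mem_range.1 hj) hij
  have hother : ∑ e ∈ (A ++ B).toFinset \ Z, g (repl r o bl e) =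
      ∑ e ∈ (A ++ B).toFinset \ Z, g e := by
    refine Finset.sum_congr rfl fun e he => ?_
    rw [repl_other]
    intro j hj h'
    refine (Finset.mem_sdiff.1 he).2 ?_
    rw [hZ, Finset.mem_image]
    exact ⟨j, Finset.mem_range.2 hj, h'.symm⟩
  have hloc : ∀ j ∈ range (r - 2), g (ncut o bl j) + {el o.x (bget bl 0) (j + 1)} =
      g (cut o.x bl (j + 1)) + {el o.x o.J j} := by
    intro j hj
    have hj := Finset.mem_range.1 hj
    have hx := notMem_bget r o f bl hg (i := j + 2) (by omega) (J_sub o (xs_mem r o h.ok hj))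
    have hs : el o.x (bget bl 0) (j + 1) ∉ bget bl (j + 2) := by
      intro h2
      have h3 := hg.2.2 0 (by omega) (j + 2) (by omega) (by omega)
      have h4 := (hg.2.1 0 (by omega)).1
      exact Finset.disjoint_left.1 h3 (el_mem o.x (bget bl 0) (j + 1) (by omega)) h2
    have e1 : g (ncut o bl j) = el o.x (bget bl (j + 2)) 0 ::ₘ (xs o (j + 2)) ::ₘ
        (((bget bl (j + 2)).erase (el o.x (bget bl (j + 2)) 0)).erase
        (el o.x (bget bl (j + 2)) 1)).val := by
      rw [hgd]
      show _ ::ₘ (insert (xs o (j + 2)) _ : Finset (Fin n)).val = _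
      rw [Finset.insert_val_of_notMem]
      · rfl
      · intro h2
        exact hx (Finset.mem_of_mem_erase (Finset.mem_of_mem_erase h2))
    have e2 : g (cut o.x bl (j + 1)) = el o.x (bget bl (j + 2)) 0 ::ₘ
        (el o.x (bget bl 0) (j + 1)) ::ₘ
        (((bget bl (j + 2)).erase (el o.x (bget bl (j + 2)) 0)).erase
        (el o.x (bget bl (j + 2)) 1)).val := by
      rw [hgd]
      show _ ::ₘ (insert (el o.x (bget bl 0) (j + 1)) _ : Finset (Fin n)).val = _
      rw [Finset.insert_val_of_notMem]
      · rfl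
      · intro h2
        exact hs (Finset.mem_of_mem_erase (Finset.mem_of_mem_erase h2))
    have e3 : xs o (j + 2) = el o.x o.J j := rfl
    rw [e1, e2, e3]
    simp only [← Multiset.singleton_add]
    abel
  have hs0 : ∑ j ∈ range (r - 2), ({el o.x (bget bl 0) (j + 1)} : Multiset (Fin n)) =
      ((bget bl 0).erase (el o.x (bget bl 0) 0)).val := by
    refine sum_el_erase o.x (bget bl 0) (r - 2) ?_
    have h4 := (hg.2.1 0 (by omega)).1
    omega
  have hs1 : ∑ j ∈ range (r - 2), ({el o.x o.J j} : Multiset (Fin n)) = o.J.val := by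
    have h4 := sum_el o.x o.J
    rw [h.ok.1] at h4
    exact h4
  have hmain : ∑ e ∈ Z, g (repl r o bl e) + ((bget bl 0).erase (el o.x (bget bl 0) 0)).val =
      ∑ e ∈ Z, g e + o.J.val := by
    rw [hinj, hinj, ← hs0, ← hs1, ← Finset.sum_add_distrib, ← Finset.sum_add_distrib]
    refine Finset.sum_congr rfl fun j hj => ?_
    rw [repl_cut r hr o f bl hg j (Finset.mem_range.1 hj)]
    exact hloc j hj
  rw [hv1, hv2, ← Finset.sum_sdiff hZS, ← Finset.sum_sdiff hZS, hother, add_assoc, hmain,
    add_assoc]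

/-- **The splice is a cycle.** Proof. Chain: `A` is a chain from `c = f₁.y` to `(cut 0).x = (gb o bl).x`,
`B` a chain from `(cut 0).y = s₀ = (ga o bl).x` to `d = f₂.x` (`conn_split`), `repl` keeps `x`, `y`
(`repl_xy`), `conn_reverse`, `conn_append`; it is closed at `c`. Vertices, as multisets:
`verts (splice) = verts A' + (u₀ + t) + (b + J₂) + verts (rev B') + (s₀ + {s}) + (a + J₁)`, with
`verts (rev B') + {s₀} = verts B' + {d}` (`verts_reverse`), `verts_repl`, and
`verts (A ++ cut 0 :: B) + {d} = (Ur o f).val`, `verts [cut 0] = u₀ + t`; so the sum is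
`(Ur o f).val + o.J.val + {b} + {a} + J₂.val + J₁.val = univ.val` (the sets are disjoint by
`(o.set ∪ f.1.J ∪ f.2.J).card = 3 * r - 4 = r + (r - 2) + (r - 2)`). -/
theorem splice_cyc (r : ℕ) (hr : 3 ≤ r) (o : OE n) (f : OE n × OE n)
    (bl : List (Finset (Fin n))) (A B : List (OE n)) (h : SpD r o f bl A B) :
    IsCyc r (splice r o f bl A B) ∧ Conn f.1.y (splice r o f bl A B) f.1.y := by
  obtain ⟨hf1, hf2, hf3, hf4, hf5, hf6, hf7, hf8⟩ := (Finset.mem_filter.1 h.ends).2
  obtain ⟨hconn, hJ, hverts⟩ := h.path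
  have hg := h.geo
  have hJA : ∀ e ∈ A, e.J.card = r - 2 := fun e he => hJ e (List.mem_append_left _ he)
  have hJB : ∀ e ∈ B, e.J.card = r - 2 := fun e he =>
    hJ e (List.mem_append_right _ (List.mem_cons_of_mem _ he))
  obtain ⟨e, hA, he, hB⟩ := conn_split _ _ _ _ hconn
  have hxy : ∀ e : OE n, e.J.card = r - 2 → (repl r o bl e).x = e.x ∧
      (repl r o bl e).y = e.y ∧ (repl r o bl e).J.card = r - 2 := fun e he =>
    repl_xy r hr o f h.ends h.ok bl hg e he
  have hmap : ∀ (l : List (OE n)), (∀ e ∈ l, e.J.card = r - 2) → ∀ c d : Fin n, Conn c l d →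
      Conn c (l.map (repl r o bl)) d := by
    intro l
    induction l with
    | nil => exact fun _ c d hc => hc
    | cons e l ih =>
      intro hl c d hc
      have h1 := hxy e (hl e List.mem_cons_self)
      refine ⟨h1.1.trans hc.1, ?_⟩
      rw [h1.2.1]
      exact ih (fun e' he' => hl e' (List.mem_cons_of_mem _ he')) _ _ hc.2
  have hA' := hmap A hJA _ _ hA
  have hB' := hmap B hJB _ _ hB
  have hBr := conn_reverse _ _ _ hB'
  -- the chain
  have hc1 : Conn e [gb o bl, f.2.flip] f.2.x := ⟨he, hf2, rfl⟩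
  have hc2 : Conn (cut o.x bl 0).y [ga o bl, f.1] f.1.y := ⟨rfl, hf1, rfl⟩
  have hc : Conn f.1.y (splice r o f bl A B) f.1.y :=
    conn_append _ _ _ _ _ (conn_append _ _ _ _ _ (conn_append _ _ _ _ _ hA' hc1) hBr) hc2
  have h01 : (bget bl 0).card = r - 1 := (hg.2.1 0 (by omega)).1
  have h11 : (bget bl 1).card = r - 1 := (hg.2.1 1 (by omega)).1
  refine ⟨⟨?_, ⟨_, hc⟩, ?_, ?_⟩, hc⟩
  · unfold splice
    simp
  · -- the numbers of inner vertices
    intro x hx
    unfold splice at hx
    rw [List.mem_append, List.mem_append, List.mem_append] at hx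
    rcases hx with ((hx | hx) | hx) | hx
    · obtain ⟨y, hy, rfl⟩ := List.mem_map.1 hx
      exact (hxy y (hJA y hy)).2.2
    · simp only [List.mem_cons, List.not_mem_nil, or_false] at hx
      rcases hx with rfl | rfl
      · show ((bget bl 1).erase (el o.x (bget bl 1) 0)).card = r - 2
        rw [Finset.card_erase_of_mem (el_mem _ _ _ (by omega)), h11]
        omega
      · exact hf4
    · obtain ⟨y, hy, rfl⟩ := List.mem_map.1 hx
      rw [List.mem_reverse] at hy
      obtain ⟨w, hw, rfl⟩ := List.mem_map.1 hy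
      exact (hxy w (hJB w hw)).2.2
    · simp only [List.mem_cons, List.not_mem_nil, or_false] at hx
      rcases hx with rfl | rfl
      · show ((bget bl 0).erase (el o.x (bget bl 0) 0)).card = r - 2
        rw [Finset.card_erase_of_mem (el_mem _ _ _ (by omega)), h01]
        omega
      · exact hf3
  · -- the vertices
    have hnil : verts ([] : List (OE n)) = 0 := rfl
    have k1 := verts_reverse _ _ _ hB'
    have k2 := verts_repl r hr o f bl A B h
    rw [List.map_append, verts_append, verts_append] at k2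
    have k3 := hverts
    rw [verts_append, verts_cons] at k3
    -- the vertices outside
    have hos : o.set.val = {o.x} + ({o.y} + o.J.val) := by
      obtain ⟨ho1, ho2, ho3, ho4⟩ := h.ok
      unfold OE.set
      rw [Finset.insert_val_of_notMem, Finset.insert_val_of_notMem ho4]
      · simp only [Multiset.singleton_add]
      · rw [Finset.mem_insert]
        rintro (h1 | h1)
        · exact ho2 h1
        · exact ho3 h1
    have hcard : o.set.card = r := by
      rw [← Finset.card_val, hos, Multiset.card_add, Multiset.card_add, Finset.card_val, h.ok.1]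
      simp only [Multiset.card_singleton]
      omega
    have hu1 := Finset.card_union_le o.set f.1.J
    have hu2 := Finset.card_union_le (o.set ∪ f.1.J) f.2.J
    have hd1 : Disjoint o.set f.1.J := by
      rw [← Finset.card_union_eq_card_add_card]
      omega
    have hd2 : Disjoint (o.set ∪ f.1.J) f.2.J := by
      rw [← Finset.card_union_eq_card_add_card]
      omega
    have hW : (o.set ∪ f.1.J ∪ f.2.J).val = o.set.val + f.1.J.val + f.2.J.val := by
      rw [← Finset.disjUnion_eq_union _ _ hd2, Finset.disjUnion_val,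
        ← Finset.disjUnion_eq_union _ _ hd1, Finset.disjUnion_val]
    have hU : (Ur o f).val + (o.set ∪ f.1.J ∪ f.2.J).val = (univ : Finset (Fin n)).val := by
      have hd3 : Disjoint (Ur o f) (o.set ∪ f.1.J ∪ f.2.J) := Finset.sdiff_disjoint
      rw [← Finset.disjUnion_val _ _ hd3, Finset.disjUnion_eq_union]
      unfold Ur
      rw [Finset.sdiff_union_of_subset (Finset.subset_univ _)]
    rw [← hU, hW, hos, ← k3]
    unfold splice
    rw [verts_append, verts_append, verts_append, verts_cons, verts_cons, verts_cons, verts_cons,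
      hnil]
    have e1 : (gb o bl).x = (cut o.x bl 0).x := rfl
    have e2 : (gb o bl).J = (cut o.x bl 0).J := rfl
    have e3 : f.2.flip.x = o.x := hf2
    have e4 : f.2.flip.J = f.2.J := rfl
    have e5 : (ga o bl).x = (cut o.x bl 0).y := rfl
    have e6 : (ga o bl).J = (bget bl 0).erase (el o.x (bget bl 0) 0) := rfl
    rw [e1, e2, e3, e4, e5, e6, hf1]
    simp only [← Multiset.singleton_add, add_zero]
    calc _ = (verts (A.map (repl r o bl)) +
          (verts ((B.map (repl r o bl)).reverse.map OE.flip) + {(cut o.x bl 0).y}) +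
          ((bget bl 0).erase (el o.x (bget bl 0) 0)).val) + ({(cut o.x bl 0).x} +
          (cut o.x bl 0).J.val + {o.x} + f.2.J.val + {o.y} + f.1.J.val) := by abel
      _ = (verts (A.map (repl r o bl)) + verts (B.map (repl r o bl)) +
          ((bget bl 0).erase (el o.x (bget bl 0) 0)).val) + {f.2.x} + ({(cut o.x bl 0).x} +
          (cut o.x bl 0).J.val + {o.x} + f.2.J.val + {o.y} + f.1.J.val) := by
            rw [k1]
            abel
      _ = _ := by
            rw [k2]
            abel

end Pool.Agent.LHam
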