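import Pool.Agent.LHam.C8aCyc

set_option autoImplicit false

/-! C8b. The splice is injective. -/

namespace Pool.Agent.LHam

open Finset

variable {n : ℕ}

private theorem map_inj_list {α β : Type} (g : α → β) : ∀ l l' : List α,
    (∀ x ∈ l, ∀ y ∈ l', g x = g y → x = y) → l.map g = l'.map g → l = l'
  | [], [], _, _ => rfl
  | [], _ :: _, _, h => by simp at h
  | _ :: _, [], _, h => by simp at h
  | x :: l, y :: l', hi, h => by
    rw [List.map_cons, List.map_cons, List.cons.injEq] at h
    rw [hi x List.mem_cons_self y List.mem_cons_self h.1,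
      map_inj_list g l l' (fun x hx y hy => hi x (List.mem_cons_of_mem _ hx) y
        (List.mem_cons_of_mem _ hy)) h.2]

private theorem flip_inj : Function.Injective (OE.flip : OE n → OE n) := by
  intro e e' h
  exact congrArg OE.flip h

private theorem erase_inj {s s' : Finset (Fin n)} {a : Fin n} (ha : a ∈ s) (ha' : a ∈ s')
    (h : s.erase a = s'.erase a) : s = s' := by
  rw [← insert_erase ha, ← insert_erase ha', h]

private theorem bget_ext {r : ℕ} {bl bl' : List (Finset (Fin n))} (h : bl.length = r)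
    (h' : bl'.length = r) (hb : ∀ i < r, bget bl i = bget bl' i) : bl = bl' := by
  refine List.ext_getElem (h.trans h'.symm) fun i hi hi' => ?_
  have h1 := hb i (by rw [← h]; exact hi)
  unfold bget at h1
  rw [List.getD_eq_getElem _ _ hi, List.getD_eq_getElem _ _ hi'] at h1
  exact h1

/-- vertices of `o.J` are not in the remaining set -/
private theorem not_mem_Ur {o : OE n} {f : OE n × OE n} {v : Fin n} (hv : v ∈ o.J) :
    v ∉ Ur o f := by
  intro h
  unfold Ur at h
  rw [mem_sdiff] at h
  apply h.2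
  refine mem_union_left _ (mem_union_left _ ?_)
  unfold OE.set
  exact mem_insert_of_mem (mem_insert_of_mem hv)

private theorem xs_mem {r : ℕ} {o : OE n} (ho : o.Ok r) {j : ℕ} (hj : j < r - 2) :
    xs o (j + 2) ∈ o.J := by
  change el o.x o.J j ∈ o.J
  exact el_mem _ _ _ (by rw [ho.1]; exact hj)

/-- the inner set of `ncut` without the vertex of `o` is in the remaining set -/
private theorem ncut_sub {r : ℕ} {o : OE n} {f : OE n × OE n} {bl : List (Finset (Fin n))}
    (hg : Geo r (Ur o f) f.1.y f.2.x bl) {j : ℕ} (hj : j < r - 2) {v : Fin n}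
    (hv : v ∈ (ncut o bl j).J) : v = xs o (j + 2) ∨ v ∈ Ur o f := by
  rcases mem_insert.1 hv with h | h
  · exact Or.inl h
  · right
    have h1 : v ∈ bget bl (j + 2) := mem_of_mem_erase (mem_of_mem_erase h)
    exact mem_of_mem_erase (mem_of_mem_erase ((hg.2.1 (j + 2) (by omega)).2 h1))

private theorem repl_inj {r : ℕ} (hr : 3 ≤ r) {o : OE n} (ho : o.Ok r) {f : OE n × OE n}
    {bl : List (Finset (Fin n))} (hg : Geo r (Ur o f) f.1.y f.2.x bl) {e e' : OE n}
    (he : e.set ⊆ Ur o f) (he' : e'.set ⊆ Ur o f) (h : repl r o bl e = repl r o bl e') :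
    e = e' := by
  have hJ : ∀ {g : OE n}, g.set ⊆ Ur o f → ∀ j < r - 2, xs o (j + 2) ∉ g.J := by
    intro g hg2 j hj hm
    refine not_mem_Ur (f := f) (xs_mem ho hj) (hg2 ?_)
    unfold OE.set
    exact mem_insert_of_mem (mem_insert_of_mem hm)
  by_cases h1 : ∃ j < r - 2, e = cut o.x bl (j + 1)
  · obtain ⟨j, hj, rfl⟩ := h1
    rw [repl_cut r hr o f bl hg j hj] at h
    have hm : xs o (j + 2) ∈ (ncut o bl j).J := mem_insert_self _ _
    by_cases h2 : ∃ j < r - 2, e' = cut o.x bl (j + 1)
    · obtain ⟨j', hj', rfl⟩ := h2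
      rw [repl_cut r hr o f bl hg j' hj'] at h
      rw [h] at hm
      rcases ncut_sub hg hj' hm with h3 | h3
      · have h4 := el_inj o.x o.J j j' (by rw [ho.1]; exact hj) (by rw [ho.1]; exact hj') h3
        rw [h4]
      · exact absurd h3 (not_mem_Ur (xs_mem ho hj))
    · push Not at h2
      rw [repl_other r o bl e' h2] at h
      rw [h] at hm
      exact absurd hm (hJ he' j hj)
  · push Not at h1
    rw [repl_other r o bl e h1] at h
    by_cases h2 : ∃ j < r - 2, e' = cut o.x bl (j + 1)
    · obtain ⟨j', hj', rfl⟩ := h2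
      rw [repl_cut r hr o f bl hg j' hj'] at h
      have hm : xs o (j' + 2) ∈ (ncut o bl j').J := mem_insert_self _ _
      rw [← h] at hm
      exact absurd hm (hJ he j' hj')
    · push Not at h2
      rw [repl_other r o bl e' h2] at h
      exact h

/-- **Injectivity** (for fixed `o`). Proof. The two closed lists have the same set of edges. Both contain
exactly one edge with `x = a = o.y`, namely `f.1` resp. `f'.1` (the `x` of a cycle are distinct,
`cyc_nodup`), so `f.1 = f'.1`, both are closed at `c = f.1.y`; by `list_unique` the lists are equal. The last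
but one elements are equal: `ga o bl = ga o bl'`, so `s₀` and `{s₁, ..}` agree and `bl₀ = bl₀'`. The edge
with `x = b = o.x` is `f.2.flip`, so `f.2 = f'.2`, and splitting the lists at this edge (distinct elements)
gives `A.map repl = A'.map repl'`, `gb o bl = gb o bl'` (so `bl₁ = bl₁'`) and
`(B.map repl) = (B'.map repl')` (`flip` is an involution). The edge of `(A ++ B).map repl` whose inner set
contains `xs o (j + 2)` is `ncut o bl j` (disjoint inner sets); so `ncut o bl j = ncut o bl' j`,
hence `bl_{j+2} = bl'_{j+2}` (`bl_{j+2} = ((ncut).J \ {xs o (j+2)}) ∪ {u, v}`), `bl = bl'` (length `r`).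
Finally `repl` is injective on `A ++ B` (an edge which is not a cut contains no vertex of `o.J`), so `A = A'`,
`B = B'`. -/
theorem splice_inj (r : ℕ) (hr : 3 ≤ r) (hn : r ≤ n) (o : OE n) (f f' : OE n × OE n)
    (bl bl' : List (Finset (Fin n))) (A B A' B' : List (OE n)) (h : SpD r o f bl A B)
    (h' : SpD r o f' bl' A' B')
    (he : (splice r o f bl A B).toFinset = (splice r o f' bl' A' B').toFinset) :
    f = f' ∧ bl = bl' ∧ A = A' ∧ B = B' := by
  obtain ⟨hc, hcon⟩ := splice_cyc r hr o f bl A B h
  obtain ⟨hc', hcon'⟩ := splice_cyc r hr o f' bl' A' B' h'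
  obtain ⟨hx, hnd, -, hsys, -⟩ := cyc_nodup r hr hn _ hc
  obtain ⟨hx', hnd', -, -, -⟩ := cyc_nodup r hr hn _ hc'
  have hmem : ∀ e, e ∈ splice r o f' bl' A' B' → e ∈ splice r o f bl A B := by
    intro e h1
    rw [← List.mem_toFinset, he, List.mem_toFinset]
    exact h1
  have hE := (mem_filter.1 h.ends).2
  have hE' := (mem_filter.1 h'.ends).2
  have hf1 : f.1 = f'.1 := by
    have hm : f.1 ∈ splice r o f bl A B := by
      unfold splice
      simp
    have hm' : f'.1 ∈ splice r o f bl A B := hmem _ (by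
      unfold splice
      simp)
    exact List.inj_on_of_nodup_map hx hm hm' (by rw [hE.1, hE'.1])
  have hf2 : f.2 = f'.2 := by
    have hm : f.2.flip ∈ splice r o f bl A B := by
      unfold splice
      simp
    have hm' : f'.2.flip ∈ splice r o f bl A B := hmem _ (by
      unfold splice
      simp)
    refine flip_inj (List.inj_on_of_nodup_map hx hm hm' ?_)
    change f.2.y = f'.2.y
    rw [hE.2.1, hE'.2.1]
  have hf : f = f' := Prod.ext hf1 hf2
  subst hf
  refine ⟨rfl, ?_⟩
  have hl : splice r o f bl A B = splice r o f bl' A' B' :=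
    list_unique _ _ _ _ _ hcon hcon' hx hx' he
  have hok := h.ok
  have hg := h.geo
  have hg' := h'.geo
  have hcard : ∀ i < r, (bget bl i).card = r - 1 := fun i hi => (hg.2.1 i hi).1
  have hcard' : ∀ i < r, (bget bl' i).card = r - 1 := fun i hi => (hg'.2.1 i hi).1
  have hm0 : ∀ i < r, ∀ k < 2, el o.x (bget bl i) k ∈ bget bl i := fun i hi k hk =>
    el_mem _ _ _ (by rw [hcard i hi]; omega)
  have hm0' : ∀ i < r, ∀ k < 2, el o.x (bget bl' i) k ∈ bget bl' i := fun i hi k hk =>
    el_mem _ _ _ (by rw [hcard' i hi]; omega)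
  -- the last two elements
  have hl1 := hl
  unfold splice at hl1
  obtain ⟨hl2, hl3⟩ := List.append_inj' hl1 rfl
  have hga : ga o bl = ga o bl' := (List.cons.inj hl3).1
  -- the parts
  have hnd1 := hnd
  unfold splice at hnd1
  have hnd2 := (List.nodup_append.1 hnd1).1
  have e1 : A.map (repl r o bl) ++ [gb o bl, f.2.flip] ++
      (B.map (repl r o bl)).reverse.map OE.flip =
      (A.map (repl r o bl) ++ [gb o bl]) ++ f.2.flip ::
        (B.map (repl r o bl)).reverse.map OE.flip := by simp
  have e2 : A'.map (repl r o bl') ++ [gb o bl', f.2.flip] ++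
      (B'.map (repl r o bl')).reverse.map OE.flip =
      (A'.map (repl r o bl') ++ [gb o bl']) ++ f.2.flip ::
        (B'.map (repl r o bl')).reverse.map OE.flip := by simp
  rw [e1] at hnd2
  rw [e1, e2] at hl2
  have hnd3 := List.nodup_append.1 hnd2
  have hn1 : f.2.flip ∉ A.map (repl r o bl) ++ [gb o bl] := fun h1 =>
    hnd3.2.2 _ h1 _ List.mem_cons_self rfl
  have hn2 : f.2.flip ∉ (B.map (repl r o bl)).reverse.map OE.flip :=
    (List.nodup_cons.1 hnd3.2.1).1
  obtain ⟨hl4, -, hl5⟩ := (List.append_cons_inj_of_notMem hn1 hn2).1 hl2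
  obtain ⟨hA, hgb0⟩ := List.append_inj' hl4 rfl
  have hgb : gb o bl = gb o bl' := (List.cons.inj hgb0).1
  have hB : B.map (repl r o bl) = B'.map (repl r o bl') :=
    List.reverse_injective (flip_inj.list_map hl5)
  -- disjointness
  have hdisj : ∀ e ∈ A.map (repl r o bl), ∀ e' ∈ B.map (repl r o bl), e ≠ e'.flip := by
    intro e h1 e' h2 h3
    refine hnd3.2.2 e (List.mem_append_left _ h1) e'.flip ?_ h3
    refine List.mem_cons_of_mem _ (List.mem_map.2 ⟨e', ?_, rfl⟩)
    rw [List.mem_reverse]
    exact h2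
  have hAs : ∀ e ∈ A.map (repl r o bl), e ∈ (splice r o f bl A B).toFinset := by
    intro e h1
    rw [List.mem_toFinset]
    unfold splice
    simp only [List.mem_append]
    exact Or.inl (Or.inl (Or.inl h1))
  have hBs : ∀ e ∈ B.map (repl r o bl), e.flip ∈ (splice r o f bl A B).toFinset := by
    intro e h1
    rw [List.mem_toFinset]
    unfold splice
    simp only [List.mem_append]
    refine Or.inl (Or.inr (List.mem_map.2 ⟨e, ?_, rfl⟩))
    rw [List.mem_reverse]
    exact h1
  have hun : ∀ e e' : OE n, (e ∈ A.map (repl r o bl) ∨ e ∈ B.map (repl r o bl)) →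
      (e' ∈ A.map (repl r o bl) ∨ e' ∈ B.map (repl r o bl)) → ∀ v, v ∈ e.J → v ∈ e'.J →
      e = e' := by
    intro e e' h1 h2 v hv hv'
    rcases h1 with h1 | h1 <;> rcases h2 with h2 | h2
    · by_contra hne
      exact Finset.disjoint_left.1 (hsys.dis e (hAs e h1) e' (hAs e' h2) hne) hv hv'
    · exfalso
      have hne : e ≠ e'.flip := hdisj e h1 e' h2
      exact Finset.disjoint_left.1 (hsys.dis e (hAs e h1) _ (hBs e' h2) hne) hv hv'
    · exfalso
      have hne : e' ≠ e.flip := hdisj e' h2 e h1
      exact Finset.disjoint_left.1 (hsys.dis e' (hAs e' h2) _ (hBs e h1) hne) hv' hv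
    · by_contra hne
      exact Finset.disjoint_left.1 (hsys.dis _ (hBs e h1) _ (hBs e' h2)
        fun h3 => hne (flip_inj h3)) hv hv'
  have hcm : ∀ j < r - 2, ncut o bl j = ncut o bl' j := by
    intro j hj
    have h1 : ncut o bl j ∈ A.map (repl r o bl) ∨ ncut o bl j ∈ B.map (repl r o bl) := by
      rw [← repl_cut r hr o f bl hg j hj]
      rcases List.mem_append.1 (h.cuts j hj) with h2 | h2
      · exact Or.inl (List.mem_map_of_mem h2)
      · exact Or.inr (List.mem_map_of_mem h2)
    have h1' : ncut o bl' j ∈ A.map (repl r o bl) ∨ ncut o bl' j ∈ B.map (repl r o bl) := by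
      rw [hA, hB, ← repl_cut r hr o f bl' hg' j hj]
      rcases List.mem_append.1 (h'.cuts j hj) with h2 | h2
      · exact Or.inl (List.mem_map_of_mem h2)
      · exact Or.inr (List.mem_map_of_mem h2)
    exact hun _ _ h1 h1' (xs o (j + 2)) (mem_insert_self _ _) (mem_insert_self _ _)
  have hbl : bl = bl' := by
    refine bget_ext hg.1 hg'.1 fun i hi => ?_
    rcases i with _ | _ | j
    · have h1 : el o.x (bget bl 0) 0 = el o.x (bget bl' 0) 0 := congrArg OE.x hga
      have h2 : (bget bl 0).erase (el o.x (bget bl 0) 0) =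
        (bget bl' 0).erase (el o.x (bget bl' 0) 0) := congrArg OE.J hga
      rw [← h1] at h2
      refine erase_inj (hm0 0 (by omega) 0 (by omega)) ?_ h2
      rw [h1]
      exact hm0' 0 (by omega) 0 (by omega)
    · have h1 : el o.x (bget bl 1) 0 = el o.x (bget bl' 1) 0 := congrArg OE.x hgb
      have h2 : (bget bl 1).erase (el o.x (bget bl 1) 0) =
        (bget bl' 1).erase (el o.x (bget bl' 1) 0) := congrArg OE.J hgb
      rw [← h1] at h2
      refine erase_inj (hm0 1 (by omega) 0 (by omega)) ?_ h2
      rw [h1]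
      exact hm0' 1 (by omega) 0 (by omega)
    · have hj : j < r - 2 := by omega
      have h0 := hcm j hj
      have h1 : el o.x (bget bl (j + 2)) 0 = el o.x (bget bl' (j + 2)) 0 := congrArg OE.x h0
      have h2 : el o.x (bget bl (j + 2)) 1 = el o.x (bget bl' (j + 2)) 1 := congrArg OE.y h0
      have h3 : insert (xs o (j + 2)) (((bget bl (j + 2)).erase
          (el o.x (bget bl (j + 2)) 0)).erase (el o.x (bget bl (j + 2)) 1)) =
          insert (xs o (j + 2)) (((bget bl' (j + 2)).erase
          (el o.x (bget bl' (j + 2)) 0)).erase (el o.x (bget bl' (j + 2)) 1)) := congrArg OE.J h0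
      have hni : ∀ {b : List (Finset (Fin n))}, Geo r (Ur o f) f.1.y f.2.x b →
          xs o (j + 2) ∉ (((bget b (j + 2)).erase
            (el o.x (bget b (j + 2)) 0)).erase (el o.x (bget b (j + 2)) 1)) := by
        intro b hb hmm
        have h4 : xs o (j + 2) ∈ bget b (j + 2) := mem_of_mem_erase (mem_of_mem_erase hmm)
        exact not_mem_Ur (f := f) (xs_mem hok hj)
          (mem_of_mem_erase (mem_of_mem_erase ((hb.2.1 (j + 2) (by omega)).2 h4)))
      have h4 : (((bget bl (j + 2)).erase
          (el o.x (bget bl (j + 2)) 0)).erase (el o.x (bget bl (j + 2)) 1)) =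
          (((bget bl' (j + 2)).erase
          (el o.x (bget bl' (j + 2)) 0)).erase (el o.x (bget bl' (j + 2)) 1)) := by
        rw [← erase_insert (hni hg), h3, erase_insert (hni hg')]
      have h5 : el o.x (bget bl (j + 2)) 1 ≠ el o.x (bget bl (j + 2)) 0 := by
        intro h6
        have := el_inj _ _ _ _ (by rw [hcard _ (by omega)]; omega)
          (by rw [hcard _ (by omega)]; omega) h6
        omega
      have h5' : el o.x (bget bl' (j + 2)) 1 ≠ el o.x (bget bl' (j + 2)) 0 := by
        rw [← h1, ← h2]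
        exact h5
      have h6 := hm0 (j + 2) (by omega) 1 (by omega)
      have h7 := hm0 (j + 2) (by omega) 0 (by omega)
      have h6' := hm0' (j + 2) (by omega) 1 (by omega)
      have h7' := hm0' (j + 2) (by omega) 0 (by omega)
      rw [← h1, ← h2] at h4
      rw [← h2] at h6' h5'
      rw [← h1] at h7' h5'
      exact erase_inj h7 h7' (erase_inj (mem_erase.2 ⟨h5, h6⟩) (mem_erase.2 ⟨h5', h6'⟩) h4)
  subst hbl
  have hsub : ∀ e ∈ A ++ cut o.x bl 0 :: B, e.set ⊆ Ur o f :=
    (path_nodup r hr _ _ _ _ h.path).2.2.2.1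
  have hsub' : ∀ e ∈ A' ++ cut o.x bl 0 :: B', e.set ⊆ Ur o f :=
    (path_nodup r hr _ _ _ _ h'.path).2.2.2.1
  refine ⟨rfl, ?_, ?_⟩
  · refine map_inj_list _ _ _ (fun e h1 e' h2 h3 => ?_) hA
    exact repl_inj hr hok hg (hsub e (List.mem_append_left _ h1))
      (hsub' e' (List.mem_append_left _ h2)) h3
  · refine map_inj_list _ _ _ (fun e h1 e' h2 h3 => ?_) hB
    exact repl_inj hr hok hg
      (hsub e (List.mem_append_right _ (List.mem_cons_of_mem _ h1)))
      (hsub' e' (List.mem_append_right _ (List.mem_cons_of_mem _ h2))) h3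

end Pool.Agent.LHam
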