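import Pool.Agent.LHam.C8aCyc

set_option autoImplicit false

/-! C8d. The weight of the splice. -/

namespace Pool.Agent.LHam

open Finset

variable {n : ℕ}

private theorem flip_set (e : OE n) : e.flip.set = e.set := by
  unfold OE.flip OE.set
  exact Finset.insert_comm _ _ _

private theorem ga_set (o : OE n) (bl : List (Finset (Fin n))) (h : 0 < (bget bl 0).card) :
    (ga o bl).set = insert (xs o 0) (bget bl 0) := by
  change insert (el o.x (bget bl 0) 0)
    (insert o.y ((bget bl 0).erase (el o.x (bget bl 0) 0))) = insert o.y (bget bl 0)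
  rw [Finset.insert_comm, Finset.insert_erase (el_mem _ _ _ h)]

private theorem gb_set (o : OE n) (bl : List (Finset (Fin n))) (h : 0 < (bget bl 1).card) :
    (gb o bl).set = insert (xs o 1) (bget bl 1) := by
  change insert (el o.x (bget bl 1) 0)
    (insert o.x ((bget bl 1).erase (el o.x (bget bl 1) 0))) = insert o.x (bget bl 1)
  rw [Finset.insert_comm, Finset.insert_erase (el_mem _ _ _ h)]

private theorem ncut_set (o : OE n) (bl : List (Finset (Fin n))) (j : ℕ)
    (h : 1 < (bget bl (j + 2)).card) :
    (ncut o bl j).set = insert (xs o (j + 2)) (bget bl (j + 2)) := by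
  obtain ⟨β, hβ⟩ : ∃ β, β = bget bl (j + 2) := ⟨_, rfl⟩
  obtain ⟨u, hu⟩ : ∃ u, u = el o.x β 0 := ⟨_, rfl⟩
  obtain ⟨v, hv⟩ : ∃ v, v = el o.x β 1 := ⟨_, rfl⟩
  rw [← hβ] at h
  have hum : u ∈ β := by rw [hu]; exact el_mem _ _ _ (by omega)
  have hvm : v ∈ β := by rw [hv]; exact el_mem _ _ _ h
  have hvu : v ≠ u := by
    intro h1
    rw [hu, hv] at h1
    have h2 := el_inj o.x β 1 0 h (by omega) h1
    omega
  have h1 : v ∈ β.erase u := Finset.mem_erase.2 ⟨hvu, hvm⟩
  unfold ncut OE.set
  simp only
  rw [← hβ, ← hu, ← hv, Finset.insert_comm v, Finset.insert_erase h1, Finset.insert_comm u,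
    Finset.insert_erase hum]

/-- **Weight of the splice.** `(ga o bl).set = insert (xs o 0) bl₀`, `(gb o bl).set = insert (xs o 1) bl₁`,
`(ncut o bl j).set = insert (xs o (j + 2)) bl_{j+2}`, `flip` does not change the vertex set; the other edges
of `A ++ B` (the edges of the path which are no cuts) are unchanged. Products over lists without
repetitions are products over the sets (`List.prod_toFinset`). -/
theorem splice_weight (r : ℕ) (hr : 3 ≤ r) (hn : r ≤ n) (ν : Finset (Fin n) → ℝ) (o : OE n)
    (f : OE n × OE n) (bl : List (Finset (Fin n))) (A B : List (OE n))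
    (h : SpD r o f bl A B) :
    ∏ e ∈ (splice r o f bl A B).toFinset, ν e.set =
      ν f.1.set * ν f.2.set * (∏ i ∈ range r, ν (insert (xs o i) (bget bl i))) *
        ∏ e ∈ (A ++ cut o.x bl 0 :: B).toFinset \ Zsj o.x bl (r - 1), ν e.set := by
  classical
  have hg := h.geo
  have hcard : ∀ i < r, (bget bl i).card = r - 1 := fun i hi => (hg.2.1 i hi).1
  have hnd := (cyc_nodup r hr hn _ (splice_cyc r hr o f bl A B h).1).2.1
  have hp := (path_nodup r hr _ _ _ _ h.path).2.1
  have hp0 : cut o.x bl 0 ∉ A ++ B := by
    have h1 := List.nodup_middle.1 hp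
    exact (List.nodup_cons.1 h1).1
  have hAB : (A ++ B).Nodup := by
    have h1 := List.nodup_middle.1 hp
    exact (List.nodup_cons.1 h1).2
  -- the product over the splice
  have e1 : ∏ e ∈ (splice r o f bl A B).toFinset, ν e.set =
      (ν f.1.set * ν f.2.set * (ν (gb o bl).set * ν (ga o bl).set)) *
        ((A ++ B).map fun e => ν (repl r o bl e).set).prod := by
    rw [List.prod_toFinset _ hnd]
    unfold splice
    have h1 : (List.map (fun e : OE n => ν e.set)
        ((B.map (repl r o bl)).reverse.map OE.flip)).prod =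
        (B.map fun e => ν (repl r o bl e).set).prod := by
      rw [List.map_map, List.map_reverse, List.map_map, (List.reverse_perm _).prod_eq]
      congr 1
      refine List.map_congr_left fun e _ => ?_
      simp only [Function.comp_apply, flip_set]
    rw [List.map_append, List.map_append, List.map_append, List.prod_append, List.prod_append,
      List.prod_append, h1, List.map_map]
    simp only [List.map_cons, List.map_nil, List.prod_cons, List.prod_nil, mul_one, flip_set,
      List.map_append, List.prod_append]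
    have h2 : (List.map ((fun e : OE n => ν e.set) ∘ repl r o bl) A).prod =
        (A.map fun e => ν (repl r o bl e).set).prod := rfl
    rw [h2]
    ring
  -- the cuts
  have hinj : ∀ i ∈ range (r - 2), ∀ j ∈ range (r - 2),
      cut o.x bl (i + 1) = cut o.x bl (j + 1) → i = j := by
    intro i hi j hj hij
    rw [mem_range] at hi hj
    by_contra hne
    have h1 := cut_disjoint r hr _ _ _ o.x bl hg (i + 1) (j + 1) (by omega) (by omega)
      (by omega)
    rw [hij, disjoint_self] at h1
    have h2 : (cut o.x bl (j + 1)).x ∈ (cut o.x bl (j + 1)).set := mem_insert_self _ _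
    rw [h1] at h2
    exact absurd h2 (notMem_empty _)
  obtain ⟨Zs, hZs⟩ : ∃ Zs, Zs = (range (r - 2)).image fun j => cut o.x bl (j + 1) := ⟨_, rfl⟩
  have hsub : Zs ⊆ (A ++ B).toFinset := by
    intro e he
    rw [hZs, mem_image] at he
    obtain ⟨j, hj, rfl⟩ := he
    exact List.mem_toFinset.2 (h.cuts j (mem_range.1 hj))
  have hdiff : (A ++ cut o.x bl 0 :: B).toFinset \ Zsj o.x bl (r - 1) =
      (A ++ B).toFinset \ Zs := by
    ext e
    rw [mem_sdiff, mem_sdiff, List.mem_toFinset, List.mem_toFinset, hZs]
    unfold Zsj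
    simp only [mem_image, mem_range, List.mem_append, List.mem_cons]
    constructor
    · rintro ⟨h1, h2⟩
      refine ⟨?_, ?_⟩
      · rcases h1 with h1 | h1 | h1
        · exact Or.inl h1
        · exact absurd ⟨0, by omega, h1.symm⟩ h2
        · exact Or.inr h1
      · rintro ⟨j, hj, hje⟩
        exact h2 ⟨j + 1, by omega, hje⟩
    · rintro ⟨h1, h2⟩
      refine ⟨?_, ?_⟩
      · rcases h1 with h1 | h1
        · exact Or.inl h1
        · exact Or.inr (Or.inr h1)
      · rintro ⟨j, hj, hje⟩
        rcases j with _ | j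
        · rw [hje] at hp0
          exact hp0 (List.mem_append.2 h1)
        · exact h2 ⟨j, by omega, hje⟩
  have e2 : ((A ++ B).map fun e => ν (repl r o bl e).set).prod =
      (∏ j ∈ range (r - 2), ν (insert (xs o (j + 2)) (bget bl (j + 2)))) *
        ∏ e ∈ (A ++ B).toFinset \ Zs, ν e.set := by
    rw [← List.prod_toFinset _ hAB, ← Finset.prod_sdiff hsub, mul_comm]
    congr 1
    · rw [hZs, Finset.prod_image hinj]
      refine Finset.prod_congr rfl fun j hj => ?_
      rw [mem_range] at hj
      rw [repl_cut r hr o f bl hg j hj, ncut_set o bl j (by rw [hcard _ (by omega)]; omega)]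
    · refine Finset.prod_congr rfl fun e he => ?_
      rw [mem_sdiff, hZs, mem_image] at he
      rw [repl_other r o bl e fun j hj hej => he.2 ⟨j, mem_range.2 hj, hej.symm⟩]
  have e3 : ∏ i ∈ range r, ν (insert (xs o i) (bget bl i)) =
      (∏ j ∈ range (r - 2), ν (insert (xs o (j + 2)) (bget bl (j + 2)))) *
        ν (insert (xs o 1) (bget bl 1)) * ν (insert (xs o 0) (bget bl 0)) := by
    obtain ⟨q, rfl⟩ : ∃ q, r = q + 2 := ⟨r - 2, by omega⟩
    rw [Finset.prod_range_succ', Finset.prod_range_succ', Nat.add_sub_cancel]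
  rw [e1, e2, e3, hdiff, ga_set o bl (by rw [hcard _ (by omega)]; omega),
    gb_set o bl (by rw [hcard _ (by omega)]; omega)]
  ring

end Pool.Agent.LHam
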