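import Pool.Agent.LHam.C8bInj
import Pool.Agent.LHam.C8dWt

set_option autoImplicit false

/-! C8c. The splice inequality. -/

namespace Pool.Agent.LHam

open Finset

variable {n : ℕ}

/-- The lists of a path through the cuts. -/
private theorem exists_spD (r : ℕ) (hr : 3 ≤ r) (o : OE n) (ho : o.Ok r) (f : OE n × OE n)
    (hf : f ∈ EndP r o) (bl : List (Finset (Fin n))) (hg : Geo r (Ur o f) f.1.y f.2.x bl)
    (F : Finset (OE n)) (hF : ∃ l, IsPath r (Ur o f) f.1.y f.2.x l ∧ l.toFinset = F)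
    (hZ : Zsj o.x bl (r - 1) ⊆ F) :
    ∃ AB : List (OE n) × List (OE n), SpD r o f bl AB.1 AB.2 ∧
      (AB.1 ++ cut o.x bl 0 :: AB.2).toFinset = F := by
  obtain ⟨l, hl, rfl⟩ := hF
  have hmem : ∀ j < r - 1, cut o.x bl j ∈ l := fun j hj =>
    List.mem_toFinset.1 (hZ (mem_image_of_mem _ (mem_range.2 hj)))
  obtain ⟨A, B, rfl⟩ := List.append_of_mem (hmem 0 (by omega))
  refine ⟨(A, B), ⟨ho, hf, hg, hl, fun j hj => ?_⟩, rfl⟩
  have h1 := hmem (j + 1) (by omega)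
  have h2 : cut o.x bl (j + 1) ≠ cut o.x bl 0 := by
    intro h
    have h3 := cut_disjoint r hr _ _ _ o.x bl hg (j + 1) 0 (by omega) (by omega) (by omega)
    rw [h] at h3
    have h4 : (cut o.x bl 0).x ∈ (cut o.x bl 0).set := mem_insert_self _ _
    exact (Finset.disjoint_left.1 h3 h4) h4
  rcases List.mem_append.1 h1 with h3 | h3
  · exact List.mem_append.2 (Or.inl h3)
  · rcases List.mem_cons.1 h3 with h4 | h4
    · exact absurd h4 h2
    · exact List.mem_append.2 (Or.inr h4)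

open Classical in
/-- **Splice inequality.** Proof. Expand `Psi`: for every `f ∈ EndP r o`, `bl ∈ Lls (Pr r n) r` with `Geo` and every
path `F ∈ PF`, `Zsj o.x bl (r - 1) ⊆ F`, choose a list `l` with `IsPath`, `l.toFinset = F`; it contains `cut 0`, write
`l = A ++ cut 0 :: B` (`List.append_of_mem`); the other cuts are in `A ++ B` (they are different from
`cut 0`); this is `SpD`. Map `(f, bl, F)` to `(splice r o f bl A B).toFinset ∈ CF r n`; it is injective by
`splice_inj` (`F` is the set of `A ++ cut 0 :: B`), the weight is `splice_weight`. Sum over the image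
(`Finset.sum_le_sum_of_injOn` or `Finset.sum_image`, weights `≥ 0`). -/
theorem splice_le (r : ℕ) (hr : 3 ≤ r) (hn : r ≤ n) (ν : Finset (Fin n) → ℝ)
    (hν : ∀ Z, 0 ≤ ν Z) (o : OE n) (ho : o.Ok r) :
    ∑ f ∈ EndP r o, ν f.1.set * ν f.2.set *
      ∑ bl ∈ (Lls (Pr r n) r).filter (fun bl => Geo r (Ur o f) f.1.y f.2.x bl),
        (∏ i ∈ range r, ν (insert (xs o i) (bget bl i))) *
          Psi r ν (Ur o f) f.1.y f.2.x (Zsj o.x bl (r - 1)) ≤ Phi r ν := by
  have key : ∀ f ∈ EndP r o, ∀ bl ∈ (Lls (Pr r n) r).filter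
      (fun bl => Geo r (Ur o f) f.1.y f.2.x bl), ∀ F ∈ (PF r (Ur o f) f.1.y f.2.x).filter
      (fun F => Zsj o.x bl (r - 1) ⊆ F), ∃ AB : List (OE n) × List (OE n),
      SpD r o f bl AB.1 AB.2 ∧ (AB.1 ++ cut o.x bl 0 :: AB.2).toFinset = F := by
    intro f hf bl hbl F hF
    rw [mem_filter] at hbl hF
    have h1 := hF.1
    rw [PF, mem_filter] at h1
    exact exists_spD r hr o ho f hf bl hbl.2 F h1.2 hF.2
  choose! AB hAB1 hAB2 using key
  let g : (Σ _ : OE n × OE n, Σ _ : List (Finset (Fin n)), Finset (OE n)) →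
      Finset (OE n) := fun x =>
    (splice r o x.1 x.2.1 (AB x.1 x.2.1 x.2.2).1 (AB x.1 x.2.1 x.2.2).2).toFinset
  have h1 : ∑ f ∈ EndP r o, ν f.1.set * ν f.2.set *
      ∑ bl ∈ (Lls (Pr r n) r).filter (fun bl => Geo r (Ur o f) f.1.y f.2.x bl),
        (∏ i ∈ range r, ν (insert (xs o i) (bget bl i))) *
          Psi r ν (Ur o f) f.1.y f.2.x (Zsj o.x bl (r - 1)) =
      ∑ x ∈ (EndP r o).sigma (fun f => ((Lls (Pr r n) r).filter
        (fun bl => Geo r (Ur o f) f.1.y f.2.x bl)).sigma fun bl =>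
          (PF r (Ur o f) f.1.y f.2.x).filter (fun F => Zsj o.x bl (r - 1) ⊆ F)),
        ∏ e ∈ g x, ν e.set := by
    rw [Finset.sum_sigma]
    refine sum_congr rfl fun f hf => ?_
    rw [Finset.sum_sigma, Finset.mul_sum]
    refine sum_congr rfl fun bl hbl => ?_
    rw [Psi, Finset.mul_sum, Finset.mul_sum]
    refine sum_congr rfl fun F hF => ?_
    have h2 := splice_weight r hr hn ν o f bl _ _ (hAB1 f hf bl hbl F hF)
    rw [hAB2 f hf bl hbl F hF] at h2
    change _ = ∏ e ∈ (splice r o f bl (AB f bl F).1 (AB f bl F).2).toFinset, ν e.set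
    rw [h2]
    ring
  rw [h1, ← Finset.sum_image (f := fun G : Finset (OE n) => ∏ e ∈ G, ν e.set) (g := g)]
  · refine Finset.sum_le_sum_of_subset_of_nonneg ?_ fun G _ _ => prod_nonneg fun e _ => hν _
    intro G hG
    obtain ⟨⟨f, bl, F⟩, hx, rfl⟩ := mem_image.1 hG
    obtain ⟨hf, hx⟩ := mem_sigma.1 hx
    obtain ⟨hbl, hF⟩ := mem_sigma.1 hx
    rw [CF, mem_filter]
    exact ⟨mem_univ _, _, (splice_cyc r hr o f bl _ _ (hAB1 f hf bl hbl F hF)).1, rfl⟩
  · rintro ⟨f, bl, F⟩ hx ⟨f', bl', F'⟩ hx' hgg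
    obtain ⟨hf, hx⟩ := mem_sigma.1 (mem_coe.1 hx)
    obtain ⟨hbl, hF⟩ := mem_sigma.1 hx
    obtain ⟨hf', hx'⟩ := mem_sigma.1 (mem_coe.1 hx')
    obtain ⟨hbl', hF'⟩ := mem_sigma.1 hx'
    have h2 := splice_inj r hr hn o f f' bl bl' _ _ _ _ (hAB1 f hf bl hbl F hF)
      (hAB1 f' hf' bl' hbl' F' hF') hgg
    have h3 := hAB2 f hf bl hbl F hF
    have h4 := hAB2 f' hf' bl' hbl' F' hF'
    obtain ⟨e1, e2, e3, e4⟩ := h2
    have e5 : F = F' := by
      rw [← h3, ← h4]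
      rw [e3, e4, e2]
    subst e1 e2 e5
    rfl

end Pool.Agent.LHam
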