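import Pool.Agent.LHam.C7Ends
import Pool.Agent.LHam.C3Fam

set_option autoImplicit false

/-! C9. Deletion and marginals for `Phi`. -/

namespace Pool.Agent.LHam

open Finset

variable {n : ℕ}

open Classical in
/-- The derivative of `Phi` with respect to the multiplicity of `Z`. -/
noncomputable def dPhi (r : ℕ) (ν : Finset (Fin n) → ℝ) (Z : Finset (Fin n)) : ℝ :=
  ∑ o ∈ univ.filter (fun o : OE n => o.Ok r ∧ o.set = Z), Psi r ν (univ \ o.J) o.y o.x ∅

private theorem dPhi_eq (r : ℕ) (hr : 3 ≤ r) (hn : r ≤ n) (ν : Finset (Fin n) → ℝ)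
    (Z : Finset (Fin n)) :
    dPhi r ν Z = ∑ F ∈ CF r n, ∑ o ∈ F.filter (fun o => o.set = Z),
      ∏ e ∈ F.erase o, ν e.set := by
  classical
  unfold dPhi
  have h1 : ∀ o ∈ univ.filter (fun o : OE n => o.Ok r ∧ o.set = Z),
      Psi r ν (univ \ o.J) o.y o.x ∅ =
        ∑ F ∈ (CF r n).filter (fun F => o ∈ F), ∏ e ∈ F.erase o, ν e.set := by
    intro o ho
    exact (cyc_erase r hr hn ν o (mem_filter.1 ho).2.1).symm
  rw [sum_congr rfl h1]
  refine sum_comm' ?_
  intro o F
  simp only [mem_filter, mem_univ, true_and]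
  constructor
  · rintro ⟨⟨h2, h3⟩, h4, h5⟩
    exact ⟨⟨h5, h3⟩, h4⟩
  · rintro ⟨⟨h5, h3⟩, h4⟩
    exact ⟨⟨(CF_sys r hr hn F h4).1.ok o h5, h3⟩, h4, h5⟩

/-- `Phi (dn μ Z) = Phi μ - dPhi Z` for `μ Z ≠ 0`: every cycle contains at most one edge with vertex set
`Z` (`CF_sys`), the cycles through `o` are counted by `cyc_erase`. -/
theorem Phi_dn (r : ℕ) (hr : 3 ≤ r) (hn : r ≤ n) (μ : Mu n) (Z : Finset (Fin n))
    (hZ : Z ∈ Er r n) (h0 : μ Z ≠ 0) :
    Phi r (toR (dn μ Z)) = Phi r (toR μ) - dPhi r (toR μ) Z := by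
  classical
  rw [dPhi_eq r hr hn]
  unfold Phi
  rw [← sum_sub_distrib]
  refine sum_congr rfl fun F hF => ?_
  obtain ⟨h1, h2, h3⟩ := CF_sys r hr hn F hF
  by_cases hex : ∃ o ∈ F, o.set = Z
  · obtain ⟨o, ho, rfl⟩ := hex
    have h4 : F.filter (fun p => p.set = o.set) = {o} := by
      ext p
      rw [mem_filter, mem_singleton]
      constructor
      · rintro ⟨h5, h6⟩
        exact h3 p h5 o ho h6
      · rintro rfl
        exact ⟨ho, rfl⟩
    rw [h4, sum_singleton, ← mul_prod_erase F (fun p : OE n => toR (dn μ o.set) p.set) ho,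
      ← mul_prod_erase F (fun p : OE n => toR μ p.set) ho]
    have h5 : ∏ p ∈ F.erase o, toR (dn μ o.set) p.set = ∏ p ∈ F.erase o, toR μ p.set := by
      refine prod_congr rfl fun p hp => ?_
      have h6 : p.set ≠ o.set := fun he =>
        (mem_erase.1 hp).1 (h3 p (mem_erase.1 hp).2 o ho he)
      unfold toR dn
      rw [Function.update_of_ne h6]
    have h7 : toR (dn μ o.set) o.set = toR μ o.set - 1 := by
      unfold toR dn
      rw [Function.update_self, Nat.cast_sub (Nat.one_le_iff_ne_zero.2 h0), Nat.cast_one]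
    rw [h5, h7]
    ring
  · have h4 : F.filter (fun p => p.set = Z) = ∅ := by
      refine filter_eq_empty_iff.2 fun p hp he => hex ⟨p, hp, he⟩
    rw [h4, sum_empty, sub_zero]
    refine prod_congr rfl fun p hp => ?_
    have h6 : p.set ≠ Z := fun he => hex ⟨p, hp, he⟩
    unfold toR dn
    rw [Function.update_of_ne h6]

/-- **Euler's identity**: every cycle has `m` edges, `m (r - 1) = n`. -/
theorem Phi_euler (r m : ℕ) (hr : 3 ≤ r) (hm : m * (r - 1) = n) (hn : r ≤ n)
    (ν : Finset (Fin n) → ℝ) :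
    ∑ Z ∈ Er r n, ν Z * dPhi r ν Z = m * Phi r ν := by
  classical
  have h1 : ∀ Z ∈ Er r n, ν Z * dPhi r ν Z = ∑ F ∈ CF r n,
      ∑ o ∈ F.filter (fun o => o.set = Z), ∏ e ∈ F, ν e.set := by
    intro Z _
    rw [dPhi_eq r hr hn, mul_sum]
    refine sum_congr rfl fun F _ => ?_
    rw [mul_sum]
    refine sum_congr rfl fun o ho => ?_
    obtain ⟨ho1, ho2⟩ := mem_filter.1 ho
    rw [← ho2]
    exact mul_prod_erase F (fun p : OE n => ν p.set) ho1
  rw [sum_congr rfl h1, sum_comm]
  unfold Phi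
  rw [mul_sum]
  refine sum_congr rfl fun F hF => ?_
  obtain ⟨h2, h3, h4⟩ := CF_sys r hr hn F hF
  rw [sum_fiberwise_of_maps_to (s := F) (t := Er r n) (g := fun o : OE n => o.set)
    (fun o ho => Ok_set r hr o (h2.ok o ho)) (fun _ => ∏ e ∈ F, ν e.set), sum_const,
    nsmul_eq_mul]
  have h5 : F.card = m := by
    have h6 : F.card * (r - 1) = m * (r - 1) := by rw [h3, hm]
    exact Nat.eq_of_mul_eq_mul_right (show 0 < r - 1 by omega) h6
  rw [h5]

theorem dPhi_nonneg (r : ℕ) (ν : Finset (Fin n) → ℝ) (hν : ∀ Z, 0 ≤ ν Z)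
    (Z : Finset (Fin n)) : 0 ≤ dPhi r ν Z := by
  unfold dPhi
  exact sum_nonneg fun o _ => Psi_nonneg r ν hν _ _ _ _

/-- If all `Psi r ν (univ \ o.J) o.y o.x ∅ ≤ x` then `dPhi Z ≤ r² x` (there are `r (r - 1)` proper oriented
edges with vertex set `Z`). -/
theorem dPhi_le (r : ℕ) (hr : 3 ≤ r) (ν : Finset (Fin n) → ℝ) (x : ℝ) (hx : 0 ≤ x)
    (h : ∀ o : OE n, o.Ok r → Psi r ν (univ \ o.J) o.y o.x ∅ ≤ x) (Z : Finset (Fin n)) :
    dPhi r ν Z ≤ r ^ 2 * x := by
  classical
  unfold dPhi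
  rcases (univ.filter (fun o : OE n => o.Ok r ∧ o.set = Z)).eq_empty_or_nonempty with he | he
  · rw [he, sum_empty]
    positivity
  · obtain ⟨o₀, ho₀⟩ := he
    have hZ : Z.card = r := by
      have h1 := Ok_set r hr o₀ (mem_filter.1 ho₀).2.1
      rw [(mem_filter.1 ho₀).2.2, Er, mem_powersetCard] at h1
      exact h1.2
    have hcard : (univ.filter (fun o : OE n => o.Ok r ∧ o.set = Z)).card ≤ r ^ 2 := by
      have h2 : (univ.filter (fun o : OE n => o.Ok r ∧ o.set = Z)).card ≤ (Z ×ˢ Z).card := by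
        refine card_le_card_of_injOn (fun o : OE n => (o.x, o.y)) ?_ ?_
        · intro o ho
          have h3 := (mem_filter.1 ho).2.2
          rw [mem_coe, mem_product, ← h3]
          exact ⟨mem_insert_self _ _, mem_insert_of_mem (mem_insert_self _ _)⟩
        · intro o ho o' ho' hoo
          obtain ⟨⟨h3, h4, h5, h6⟩, h7⟩ := (mem_filter.1 ho).2
          obtain ⟨⟨k3, k4, k5, k6⟩, k7⟩ := (mem_filter.1 ho').2
          have hx : o.x = o'.x := congrArg Prod.fst hoo
          have hy : o.y = o'.y := congrArg Prod.snd hoo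
          have hJ : ∀ p : OE n, p.x ∉ p.J → p.y ∉ p.J → (p.set.erase p.x).erase p.y = p.J := by
            intro p h8 h9
            ext u
            simp only [OE.set, mem_erase, mem_insert]
            constructor
            · rintro ⟨a, b, c | c | c⟩
              · exact absurd c b
              · exact absurd c a
              · exact c
            · intro c
              refine ⟨?_, ?_, Or.inr (Or.inr c)⟩
              · rintro rfl
                exact h9 c
              · rintro rfl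
                exact h8 c
          have hJJ : o.J = o'.J := by
            rw [← hJ o h5 h6, ← hJ o' k5 k6, h7, k7, hx, hy]
          exact OE.ext hx hJJ hy
      rw [card_product, hZ] at h2
      rw [pow_two]
      exact h2
    calc ∑ o ∈ univ.filter (fun o : OE n => o.Ok r ∧ o.set = Z),
          Psi r ν (univ \ o.J) o.y o.x ∅ ≤
          ∑ _o ∈ univ.filter (fun o : OE n => o.Ok r ∧ o.set = Z), x :=
            sum_le_sum fun o ho => h o (mem_filter.1 ho).2.1
      _ = ((univ.filter (fun o : OE n => o.Ok r ∧ o.set = Z)).card : ℝ) * x := by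
            rw [sum_const, nsmul_eq_mul]
      _ ≤ r ^ 2 * x := by
            refine mul_le_mul_of_nonneg_right ?_ hx
            exact_mod_cast hcard

theorem Phi_nonneg (r : ℕ) (ν : Finset (Fin n) → ℝ) (hν : ∀ Z, 0 ≤ ν Z) : 0 ≤ Phi r ν := by
  unfold Phi
  exact sum_nonneg fun _ _ => prod_nonneg fun o _ => hν o.set

end Pool.Agent.LHam
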