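import Mathlib

set_option autoImplicit false

/-! D1. Trees of lists. -/

namespace Pool.Agent.LHam

open Finset

variable {α : Type} [DecidableEq α]

/-- The lists of length `k` with entries in `P`. -/
def Lls (P : Finset α) : ℕ → Finset (List α)
  | 0 => {[]}
  | k + 1 => (P ×ˢ Lls P k).image fun p => p.1 :: p.2

open Classical in
/-- `l` is good for the remaining `k` choices: all but `x` continuations are good. -/
noncomputable def Tg (P : Finset α) (G : List α → Prop) (x : ℝ) : ℕ → List α → Prop
  | 0, l => G l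
  | k + 1, l => ((P.filter fun β => ¬ Tg P G x k (l ++ [β])).card : ℝ) ≤ x

theorem sum_Lls_succ (P : Finset α) (k : ℕ) (f : List α → ℝ) :
    ∑ bl ∈ Lls P (k + 1), f bl = ∑ β ∈ P, ∑ bl ∈ Lls P k, f (β :: bl) := by
  change ∑ bl ∈ (P ×ˢ Lls P k).image (fun p => p.1 :: p.2), f bl = _
  rw [Finset.sum_image, Finset.sum_product]
  rintro ⟨a, b⟩ _ ⟨a', b'⟩ _ h
  simp only [List.cons.injEq] at h
  exact Prod.ext h.1 h.2

theorem mem_Lls (P : Finset α) (k : ℕ) (l : List α) :
    l ∈ Lls P k ↔ l.length = k ∧ ∀ β ∈ l, β ∈ P := by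
  induction k generalizing l with
  | zero =>
    change l ∈ ({[]} : Finset (List α)) ↔ _
    rw [Finset.mem_singleton]
    constructor
    · rintro rfl
      exact ⟨rfl, fun β h => absurd h List.not_mem_nil⟩
    · rintro ⟨h, _⟩
      exact List.length_eq_zero_iff.1 h
  | succ k ih =>
    change l ∈ (P ×ˢ Lls P k).image (fun p => p.1 :: p.2) ↔ _
    rw [Finset.mem_image]
    constructor
    · rintro ⟨⟨a, b⟩, h, rfl⟩
      rw [Finset.mem_product] at h
      have h1 := (ih b).1 h.2
      refine ⟨by rw [List.length_cons, h1.1], fun β hβ => ?_⟩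
      rcases List.mem_cons.1 hβ with rfl | h2
      · exact h.1
      · exact h1.2 β h2
    · rintro ⟨h1, h2⟩
      cases l with
      | nil => simp at h1
      | cons a b =>
        refine ⟨(a, b), Finset.mem_product.2 ⟨h2 a List.mem_cons_self, (ih b).2 ⟨?_, ?_⟩⟩, rfl⟩
        · rw [List.length_cons] at h1
          omega
        · exact fun β hβ => h2 β (List.mem_cons_of_mem _ hβ)

theorem card_Lls (P : Finset α) (k : ℕ) : (Lls P k).card = P.card ^ k := by
  induction k with
  | zero => rfl
  | succ k ih =>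
    change ((P ×ˢ Lls P k).image (fun p => p.1 :: p.2)).card = _
    rw [Finset.card_image_of_injective, Finset.card_product, ih, pow_succ, mul_comm]
    rintro ⟨a, b⟩ ⟨a', b'⟩ h
    simp only [List.cons.injEq] at h
    exact Prod.ext h.1 h.2

open Classical in
/-- **Counting.** If `l` is not good, there are at least `x ^ k` bad extensions. Induction on `k`
(`k = 0`: `x ^ 0 = 1`; step: more than `x` continuations `β` are not good, each gives `≥ x ^ k`). -/
theorem tree_count (P : Finset α) (G : List α → Prop) (x : ℝ) (hx : 0 ≤ x) (k : ℕ) (l : List α)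
    (h : ¬ Tg P G x k l) :
    x ^ k ≤ (((Lls P k).filter fun bl => ¬ G (l ++ bl)).card : ℝ) := by
  induction k generalizing l with
  | zero =>
    have h1 : ¬ G l := h
    change x ^ 0 ≤ (((({[]} : Finset (List α))).filter fun bl => ¬ G (l ++ bl)).card : ℝ)
    have h2 : (({[]} : Finset (List α))).filter (fun bl => ¬ G (l ++ bl)) = {[]} := by
      rw [Finset.filter_eq_self]
      intro a ha
      rw [Finset.mem_singleton] at ha
      rw [ha, List.append_nil]
      exact h1
    rw [h2, Finset.card_singleton, pow_zero, Nat.cast_one]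
  | succ k ih =>
    have h1 : ¬ ((P.filter fun β => ¬ Tg P G x k (l ++ [β])).card : ℝ) ≤ x := h
    have h2 : (((Lls P (k + 1)).filter fun bl => ¬ G (l ++ bl)).card : ℝ) =
        ∑ β ∈ P, (((Lls P k).filter fun bl => ¬ G ((l ++ [β]) ++ bl)).card : ℝ) := by
      rw [Finset.card_filter, Nat.cast_sum, sum_Lls_succ]
      refine Finset.sum_congr rfl fun β _ => ?_
      rw [Finset.card_filter, Nat.cast_sum]
      refine Finset.sum_congr rfl fun bl _ => ?_
      rw [List.append_assoc, List.singleton_append]
    rw [h2]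
    have h3 : ∑ β ∈ P.filter (fun β => ¬ Tg P G x k (l ++ [β])), x ^ k ≤
        ∑ β ∈ P.filter (fun β => ¬ Tg P G x k (l ++ [β])),
          (((Lls P k).filter fun bl => ¬ G ((l ++ [β]) ++ bl)).card : ℝ) :=
      Finset.sum_le_sum fun β hβ => ih _ (Finset.mem_filter.1 hβ).2
    have h4 : ∑ β ∈ P.filter (fun β => ¬ Tg P G x k (l ++ [β])),
          (((Lls P k).filter fun bl => ¬ G ((l ++ [β]) ++ bl)).card : ℝ) ≤
        ∑ β ∈ P, (((Lls P k).filter fun bl => ¬ G ((l ++ [β]) ++ bl)).card : ℝ) :=
      Finset.sum_le_sum_of_subset_of_nonneg (Finset.filter_subset _ _)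
        fun _ _ _ => Nat.cast_nonneg _
    rw [Finset.sum_const, nsmul_eq_mul] at h3
    rw [pow_succ']
    exact (mul_le_mul_of_nonneg_right (not_le.1 h1).le (pow_nonneg hx k)).trans (h3.trans h4)

open Classical in
/-- **Weighted sum over the good extensions.** `w i β ≥ 0` is the weight of the choice `β` at
position `i`. Induction on `k`: among the continuations of a good `l` the good ones have total weight
`≥ m₂`. -/
theorem tree_sum (P : Finset α) (G : List α → Prop) (x : ℝ) (N : ℕ) (w : ℕ → α → ℝ)
    (hw : ∀ i β, 0 ≤ w i β) (m₀ m₂ : ℝ) (hm₂ : 0 ≤ m₂) (e : α)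
    (hbad : ∀ (k : ℕ) (l : List α), (∀ β ∈ l, β ∈ P) → l.length + (k + 1) = N →
      Tg P G x (k + 1) l →
      ∑ β ∈ P.filter (fun β => ¬ Tg P G x k (l ++ [β])), w l.length β ≤ m₀)
    (htot : ∀ i, i < N → m₀ + m₂ ≤ ∑ β ∈ P, w i β) (k : ℕ) (l : List α)
    (hl : ∀ β ∈ l, β ∈ P) (hk : l.length + k = N) (h : Tg P G x k l) :
    m₂ ^ k ≤ ∑ bl ∈ (Lls P k).filter (fun bl => G (l ++ bl)),
      ∏ i ∈ range k, w (l.length + i) (bl.getD i e) := by
  induction k generalizing l with
  | zero =>
    have h1 : G l := h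
    change m₂ ^ 0 ≤ ∑ bl ∈ (({[]} : Finset (List α))).filter (fun bl => G (l ++ bl)),
      ∏ i ∈ range 0, w (l.length + i) (bl.getD i e)
    have h2 : (({[]} : Finset (List α))).filter (fun bl => G (l ++ bl)) = {[]} := by
      rw [Finset.filter_eq_self]
      intro a ha
      rw [Finset.mem_singleton] at ha
      rw [ha, List.append_nil]
      exact h1
    rw [h2, Finset.sum_singleton, Finset.range_zero, Finset.prod_empty, pow_zero]
  | succ k ih =>
    have h2 : ∑ bl ∈ (Lls P (k + 1)).filter (fun bl => G (l ++ bl)),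
        ∏ i ∈ range (k + 1), w (l.length + i) (bl.getD i e) =
        ∑ β ∈ P, w l.length β * ∑ bl ∈ (Lls P k).filter (fun bl => G ((l ++ [β]) ++ bl)),
          ∏ i ∈ range k, w ((l ++ [β]).length + i) (bl.getD i e) := by
      rw [Finset.sum_filter, sum_Lls_succ]
      refine Finset.sum_congr rfl fun β _ => ?_
      rw [Finset.sum_filter, Finset.mul_sum]
      refine Finset.sum_congr rfl fun bl _ => ?_
      rw [List.append_assoc, List.singleton_append]
      by_cases h3 : G (l ++ β :: bl)
      · rw [if_pos h3, if_pos h3, Finset.prod_range_succ', mul_comm]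
        congr 1
        refine Finset.prod_congr rfl fun i _ => ?_
        rw [List.getD_cons_succ, List.length_append, List.length_singleton]
        congr 1
        omega
      · rw [if_neg h3, if_neg h3, mul_zero]
    rw [h2]
    have hbad' := hbad k l hl hk h
    have htot' := htot l.length (by omega)
    have h4 : m₂ ≤ ∑ β ∈ P.filter (fun β => Tg P G x k (l ++ [β])), w l.length β := by
      have h5 := Finset.sum_filter_add_sum_filter_not P (fun β => Tg P G x k (l ++ [β]))
        (fun β => w l.length β)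
      linarith
    have h6 : ∑ β ∈ P.filter (fun β => Tg P G x k (l ++ [β])), w l.length β * m₂ ^ k ≤
        ∑ β ∈ P.filter (fun β => Tg P G x k (l ++ [β])), w l.length β *
          ∑ bl ∈ (Lls P k).filter (fun bl => G ((l ++ [β]) ++ bl)),
            ∏ i ∈ range k, w ((l ++ [β]).length + i) (bl.getD i e) := by
      refine Finset.sum_le_sum fun β hβ => mul_le_mul_of_nonneg_left ?_ (hw _ _)
      rw [Finset.mem_filter] at hβ
      refine ih (l ++ [β]) ?_ ?_ hβ.2
      · intro γ hγ
        rcases List.mem_append.1 hγ with h7 | h7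
        · exact hl γ h7
        · rw [List.mem_singleton] at h7
          rw [h7]
          exact hβ.1
      · rw [List.length_append, List.length_singleton]
        omega
    have h7 : ∑ β ∈ P.filter (fun β => Tg P G x k (l ++ [β])), w l.length β *
          ∑ bl ∈ (Lls P k).filter (fun bl => G ((l ++ [β]) ++ bl)),
            ∏ i ∈ range k, w ((l ++ [β]).length + i) (bl.getD i e) ≤
        ∑ β ∈ P, w l.length β *
          ∑ bl ∈ (Lls P k).filter (fun bl => G ((l ++ [β]) ++ bl)),
            ∏ i ∈ range k, w ((l ++ [β]).length + i) (bl.getD i e) :=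
      Finset.sum_le_sum_of_subset_of_nonneg (Finset.filter_subset _ _) fun _ _ _ =>
        mul_nonneg (hw _ _) (Finset.sum_nonneg fun _ _ => Finset.prod_nonneg fun _ _ => hw _ _)
    rw [← Finset.sum_mul] at h6
    rw [pow_succ']
    exact (mul_le_mul_of_nonneg_right h4 (pow_nonneg hm₂ k)).trans (h6.trans h7)

end Pool.Agent.LHam
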