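import Pool.Agent.LHam.C3Fam
import Pool.Agent.LHam.D1Tree

set_option autoImplicit false

/-! D2. Cuts: definitions. -/

namespace Pool.Agent.LHam

open Finset

variable {n : ℕ}

/-- The `i`-th element of `β` in increasing order (`w` if there is none). -/
noncomputable def el (w : Fin n) (β : Finset (Fin n)) (i : ℕ) : Fin n :=
  (β.sort (· ≤ ·)).getD i w

/-- The `i`-th entry of a list of sets. -/
def bget (bl : List (Finset (Fin n))) (i : ℕ) : Finset (Fin n) := bl.getD i ∅

/-- The cuts: `cut 0 = (u, bl₁ \ u, s₀)`, `cut (j + 1) = (u, {s_{j+1}} ∪ (bl_{j+2} \ {u, v}), v)`, where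
`s_j` is the `j`-th element of `bl₀`, `u`, `v` the first and the second element of `bl_{j+1}`. So
`(cut j).set = {s_j} ∪ bl_{j+1}`. -/
noncomputable def cut (w : Fin n) (bl : List (Finset (Fin n))) : ℕ → OE n
  | 0 => ⟨el w (bget bl 1) 0, (bget bl 1).erase (el w (bget bl 1) 0), el w (bget bl 0) 0⟩
  | j + 1 => ⟨el w (bget bl (j + 2)) 0, insert (el w (bget bl 0) (j + 1))
      (((bget bl (j + 2)).erase (el w (bget bl (j + 2)) 0)).erase (el w (bget bl (j + 2)) 1)),
      el w (bget bl (j + 2)) 1⟩

/-- The first `j` cuts. -/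
noncomputable def Zsj (w : Fin n) (bl : List (Finset (Fin n))) (j : ℕ) : Finset (OE n) :=
  (range j).image (cut w bl)

/-- The vertices of the oriented edge `o`: `y`, `x`, inner vertices in increasing order. -/
noncomputable def xs (o : OE n) : ℕ → Fin n
  | 0 => o.y
  | 1 => o.x
  | j + 2 => el o.x o.J j

/-- The `(r - 1)`-sets. -/
def Pr (r n : ℕ) : Finset (Finset (Fin n)) := powersetCard (r - 1) univ

/-- The lists `bl` of `r` disjoint `(r - 1)`-subsets of `U \ {c, d}`. -/
def Geo (r : ℕ) (U : Finset (Fin n)) (c d : Fin n) (bl : List (Finset (Fin n))) : Prop :=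
  bl.length = r ∧ (∀ i < r, (bget bl i).card = r - 1 ∧ bget bl i ⊆ (U.erase c).erase d) ∧
    ∀ i < r, ∀ j < r, i ≠ j → Disjoint (bget bl i) (bget bl j)

/-- Good lists. -/
def Gd (r : ℕ) (ν : Finset (Fin n) → ℝ) (U : Finset (Fin n)) (c d : Fin n) (w : Fin n) (c₁ : ℝ)
    (bl : List (Finset (Fin n))) : Prop :=
  Geo r U c d bl ∧ c₁ * Psi r ν U c d ∅ ≤ Psi r ν U c d (Zsj w bl (r - 1))

/-- Basic facts about `el`: the elements of `β` are the `el w β i`, `i < β.card`, which are distinct. -/
theorem el_mem (w : Fin n) (β : Finset (Fin n)) (i : ℕ) (hi : i < β.card) : el w β i ∈ β := by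
  have h1 : i < (β.sort (· ≤ ·)).length := by rwa [Finset.length_sort]
  unfold el
  rw [List.getD_eq_getElem _ _ h1, ← Finset.mem_sort (α := Fin n) (· ≤ ·)]
  exact List.getElem_mem h1

theorem el_inj (w : Fin n) (β : Finset (Fin n)) (i j : ℕ) (hi : i < β.card) (hj : j < β.card)
    (h : el w β i = el w β j) : i = j := by
  have h1 : i < (β.sort (· ≤ ·)).length := by rwa [Finset.length_sort]
  have h2 : j < (β.sort (· ≤ ·)).length := by rwa [Finset.length_sort]
  unfold el at h
  rw [List.getD_eq_getElem _ _ h1, List.getD_eq_getElem _ _ h2] at h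
  exact (List.Nodup.getElem_inj_iff (Finset.sort_nodup β (· ≤ ·))).1 h

theorem el_surj (w : Fin n) (β : Finset (Fin n)) (v : Fin n) (hv : v ∈ β) :
    ∃ i < β.card, el w β i = v := by
  have h1 : v ∈ β.sort (· ≤ ·) := (Finset.mem_sort (α := Fin n) (· ≤ ·)).2 hv
  obtain ⟨i, hi, h2⟩ := List.getElem_of_mem h1
  refine ⟨i, by rwa [Finset.length_sort] at hi, ?_⟩
  unfold el
  rw [List.getD_eq_getElem _ _ hi, h2]

/-- For `Geo` lists the cuts are proper, `(cut j).set = insert s_j bl_{j+1}`, and the cuts are disjoint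
subsets of `U \ {c, d}`. -/
theorem cut_ok (r : ℕ) (hr : 3 ≤ r) (U : Finset (Fin n)) (c d w : Fin n)
    (bl : List (Finset (Fin n))) (h : Geo r U c d bl) (j : ℕ) (hj : j < r - 1) :
    (cut w bl j).Ok r ∧
      (cut w bl j).set = insert (el w (bget bl 0) j) (bget bl (j + 1)) ∧
      (cut w bl j).set ⊆ (U.erase c).erase d := by
  obtain ⟨-, h2, h3⟩ := h
  have hs : el w (bget bl 0) j ∈ bget bl 0 :=
    el_mem w _ j (by rw [(h2 0 (by omega)).1]; exact hj)
  have hd : Disjoint (bget bl 0) (bget bl (j + 1)) := h3 0 (by omega) (j + 1) (by omega)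
    (by omega)
  have hsn : el w (bget bl 0) j ∉ bget bl (j + 1) := Finset.disjoint_left.1 hd hs
  have hc : (bget bl (j + 1)).card = r - 1 := (h2 (j + 1) (by omega)).1
  have hu : el w (bget bl (j + 1)) 0 ∈ bget bl (j + 1) := el_mem w _ 0 (by rw [hc]; omega)
  have hsub : insert (el w (bget bl 0) j) (bget bl (j + 1)) ⊆ (U.erase c).erase d :=
    Finset.insert_subset ((h2 0 (by omega)).2 hs) (h2 (j + 1) (by omega)).2
  have key : (cut w bl j).Ok r ∧
      (cut w bl j).set = insert (el w (bget bl 0) j) (bget bl (j + 1)) := by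
    cases j with
    | zero =>
      constructor
      · refine ⟨?_, ?_, ?_, ?_⟩
        · change ((bget bl 1).erase (el w (bget bl 1) 0)).card = r - 2
          rw [Finset.card_erase_of_mem hu, hc]
          omega
        · change el w (bget bl 1) 0 ≠ el w (bget bl 0) 0
          intro h4
          exact hsn (h4 ▸ hu)
        · exact Finset.notMem_erase _ _
        · intro h4
          exact hsn (Finset.mem_of_mem_erase h4)
      · change insert (el w (bget bl 1) 0) (insert (el w (bget bl 0) 0)
          ((bget bl 1).erase (el w (bget bl 1) 0))) = _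
        rw [Finset.insert_comm, Finset.insert_erase hu]
    | succ j =>
      have hv : el w (bget bl (j + 2)) 1 ∈ bget bl (j + 2) :=
        el_mem w _ 1 (by rw [hc]; omega)
      have huv : el w (bget bl (j + 2)) 1 ≠ el w (bget bl (j + 2)) 0 := by
        intro h4
        have h5 := el_inj w (bget bl (j + 2)) 1 0 (by rw [hc]; omega) (by rw [hc]; omega) h4
        omega
      have hv' : el w (bget bl (j + 2)) 1 ∈
          (bget bl (j + 2)).erase (el w (bget bl (j + 2)) 0) :=
        Finset.mem_erase.2 ⟨huv, hv⟩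
      have hs' : el w (bget bl 0) (j + 1) ∉
          ((bget bl (j + 2)).erase (el w (bget bl (j + 2)) 0)).erase
            (el w (bget bl (j + 2)) 1) := fun h4 =>
        hsn (Finset.mem_of_mem_erase (Finset.mem_of_mem_erase h4))
      constructor
      · refine ⟨?_, ?_, ?_, ?_⟩
        · change (insert (el w (bget bl 0) (j + 1))
            (((bget bl (j + 2)).erase (el w (bget bl (j + 2)) 0)).erase
              (el w (bget bl (j + 2)) 1))).card = r - 2
          rw [Finset.card_insert_of_notMem hs', Finset.card_erase_of_mem hv',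
            Finset.card_erase_of_mem hu, hc]
          omega
        · exact fun h4 => huv h4.symm
        · change el w (bget bl (j + 2)) 0 ∉ insert (el w (bget bl 0) (j + 1))
            (((bget bl (j + 2)).erase (el w (bget bl (j + 2)) 0)).erase
              (el w (bget bl (j + 2)) 1))
          rw [Finset.mem_insert, not_or]
          exact ⟨fun h4 => hsn (h4 ▸ hu), fun h4 =>
            Finset.notMem_erase _ _ (Finset.mem_of_mem_erase h4)⟩
        · change el w (bget bl (j + 2)) 1 ∉ insert (el w (bget bl 0) (j + 1))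
            (((bget bl (j + 2)).erase (el w (bget bl (j + 2)) 0)).erase
              (el w (bget bl (j + 2)) 1))
          rw [Finset.mem_insert, not_or]
          exact ⟨fun h4 => hsn (h4 ▸ hv), Finset.notMem_erase _ _⟩
      · change insert (el w (bget bl (j + 2)) 0) (insert (el w (bget bl (j + 2)) 1)
          (insert (el w (bget bl 0) (j + 1))
            (((bget bl (j + 2)).erase (el w (bget bl (j + 2)) 0)).erase
              (el w (bget bl (j + 2)) 1)))) = _
        rw [Finset.insert_comm (el w (bget bl (j + 2)) 1), Finset.insert_erase hv',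
          Finset.insert_comm (el w (bget bl (j + 2)) 0), Finset.insert_erase hu]
  exact ⟨key.1, key.2, key.2 ▸ hsub⟩

theorem cut_disjoint (r : ℕ) (hr : 3 ≤ r) (U : Finset (Fin n)) (c d w : Fin n)
    (bl : List (Finset (Fin n))) (h : Geo r U c d bl) (i j : ℕ) (hi : i < r - 1)
    (hj : j < r - 1) (hij : i ≠ j) : Disjoint (cut w bl i).set (cut w bl j).set := by
  rw [(cut_ok r hr U c d w bl h i hi).2.1, (cut_ok r hr U c d w bl h j hj).2.1]
  obtain ⟨-, h2, h3⟩ := h
  have hc0 : (bget bl 0).card = r - 1 := (h2 0 (by omega)).1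
  have hsi : el w (bget bl 0) i ∈ bget bl 0 := el_mem w _ i (by rw [hc0]; exact hi)
  have hsj : el w (bget bl 0) j ∈ bget bl 0 := el_mem w _ j (by rw [hc0]; exact hj)
  have hdi := h3 0 (by omega) (i + 1) (by omega) (by omega)
  have hdj := h3 0 (by omega) (j + 1) (by omega) (by omega)
  have hne : el w (bget bl 0) i ≠ el w (bget bl 0) j := fun h4 =>
    hij (el_inj w _ i j (by rw [hc0]; exact hi) (by rw [hc0]; exact hj) h4)
  rw [Finset.disjoint_insert_left, Finset.disjoint_insert_right, Finset.mem_insert, not_or]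
  exact ⟨⟨hne, Finset.disjoint_left.1 hdj hsi⟩, Finset.disjoint_left.1 hdi hsj,
    h3 (i + 1) (by omega) (j + 1) (by omega) (by omega)⟩

end Pool.Agent.LHam
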