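import Pool.Agent.LHam.D2Cut

set_option autoImplicit false

/-! D3. Flatness implies that almost all lists are good. -/

namespace Pool.Agent.LHam

open Finset

variable {n : ℕ}

/-! Counting lists with conditions at the places. -/

private theorem d3_getD_mem {α : Type} [DecidableEq α] (P : Finset α) (e : α) (k : ℕ)
    (bl : List α) (h : bl ∈ Lls P k) (i : ℕ) (hi : i < k) : bl.getD i e ∈ P := by
  obtain ⟨h1, h2⟩ := (mem_Lls P k bl).1 h
  rw [List.getD_eq_getElem (l := bl) (d := e) (by omega)]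
  exact h2 _ (List.getElem_mem _)

private theorem d3_card {α : Type} [DecidableEq α] (P : Finset α) (e : α) (k : ℕ)
    (A : ℕ → Finset α) :
    ((Lls P k).filter fun bl => ∀ i < k, bl.getD i e ∈ A i).card ≤
      ∏ i ∈ range k, (A i).card := by
  induction k generalizing A with
  | zero =>
    rw [Finset.prod_range_zero]
    refine (card_filter_le _ _).trans ?_
    simp [Lls]
  | succ k ih =>
    rw [Finset.prod_range_succ']
    have h1 : ((Lls P (k + 1)).filter fun bl => ∀ i < k + 1, bl.getD i e ∈ A i) ⊆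
        ((A 0) ×ˢ ((Lls P k).filter fun bl => ∀ i < k, bl.getD i e ∈ A (i + 1))).image
          fun p => p.1 :: p.2 := by
      intro bl hbl
      obtain ⟨h2, h3⟩ := mem_filter.1 hbl
      unfold Lls at h2
      obtain ⟨⟨b, l⟩, hp, rfl⟩ := mem_image.1 h2
      refine mem_image.2 ⟨(b, l), mem_product.2 ⟨?_, mem_filter.2 ⟨(mem_product.1 hp).2, ?_⟩⟩, rfl⟩
      · simpa using h3 0 (Nat.succ_pos k)
      · intro i hi
        simpa using h3 (i + 1) (by omega)
    refine (card_le_card h1).trans (card_image_le.trans ?_)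
    rw [card_product, mul_comm]
    exact Nat.mul_le_mul_right _ (ih fun i => A (i + 1))

private theorem d3_one {α : Type} [DecidableEq α] (P Q : Finset α) (e : α) (k i₀ : ℕ)
    (h0 : i₀ < k) :
    ((Lls P k).filter fun bl => bl.getD i₀ e ∈ Q).card ≤ Q.card * P.card ^ (k - 1) := by
  have h1 : ((Lls P k).filter fun bl => bl.getD i₀ e ∈ Q) ⊆
      (Lls P k).filter fun bl => ∀ i < k, bl.getD i e ∈ (if i = i₀ then Q else P) := by
    intro bl hbl
    obtain ⟨h2, h3⟩ := mem_filter.1 hbl
    refine mem_filter.2 ⟨h2, fun i hi => ?_⟩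
    split_ifs with h
    · rw [h]
      exact h3
    · exact d3_getD_mem P e k bl h2 i hi
  refine (card_le_card h1).trans ((d3_card P e k _).trans (le_of_eq ?_))
  rw [← Finset.mul_prod_erase (range k) _ (mem_range.2 h0), if_pos rfl]
  congr 1
  rw [Finset.prod_congr rfl (fun i hi => by rw [if_neg (mem_erase.1 hi).1] : ∀ i ∈
    (range k).erase i₀, (if i = i₀ then Q else P).card = P.card), Finset.prod_const,
    card_erase_of_mem (mem_range.2 h0), card_range]

private theorem d3_two {α : Type} [DecidableEq α] (P Q : Finset α) (e : α) (k i₀ j₀ : ℕ)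
    (h0 : i₀ < k) (h0' : j₀ < k) (hne : i₀ ≠ j₀) :
    ((Lls P k).filter fun bl => bl.getD i₀ e ∈ Q ∧ bl.getD j₀ e ∈ Q).card ≤
      Q.card * (Q.card * P.card ^ (k - 2)) := by
  have h1 : ((Lls P k).filter fun bl => bl.getD i₀ e ∈ Q ∧ bl.getD j₀ e ∈ Q) ⊆
      (Lls P k).filter fun bl => ∀ i < k, bl.getD i e ∈ (if i = i₀ ∨ i = j₀ then Q else P) := by
    intro bl hbl
    obtain ⟨h2, h3⟩ := mem_filter.1 hbl
    refine mem_filter.2 ⟨h2, fun i hi => ?_⟩
    split_ifs with h
    · rcases h with h | h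
      · rw [h]
        exact h3.1
      · rw [h]
        exact h3.2
    · exact d3_getD_mem P e k bl h2 i hi
  have hj : j₀ ∈ (range k).erase i₀ := mem_erase.2 ⟨hne.symm, mem_range.2 h0'⟩
  refine (card_le_card h1).trans ((d3_card P e k _).trans (le_of_eq ?_))
  rw [← Finset.mul_prod_erase (range k) _ (mem_range.2 h0), if_pos (Or.inl rfl),
    ← Finset.mul_prod_erase ((range k).erase i₀) _ hj, if_pos (Or.inr rfl)]
  congr 2
  rw [Finset.prod_congr rfl (fun i hi => by
    rw [if_neg]
    rintro (h | h)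
    · exact (mem_erase.1 (mem_erase.1 hi).2).1 h
    · exact (mem_erase.1 hi).1 h : ∀ i ∈ ((range k).erase i₀).erase j₀,
      (if i = i₀ ∨ i = j₀ then Q else P).card = P.card), Finset.prod_const,
    card_erase_of_mem hj, card_erase_of_mem (mem_range.2 h0), card_range]
  congr 1

private theorem d3_Pr (r n : ℕ) : (Pr r n).card ≤ n ^ (r - 1) := by
  rw [Pr, card_powersetCard, card_univ, Fintype.card_fin]
  exact Nat.choose_le_pow _ _

private theorem d3_Prv (r n : ℕ) (v : Fin n) :
    ((Pr r n).filter fun Z => v ∈ Z).card ≤ n ^ (r - 2) := by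
  have h1 : ((Pr r n).filter fun Z => v ∈ Z).card ≤
      (powersetCard (r - 2) (univ : Finset (Fin n))).card := by
    refine card_le_card_of_injOn (fun Z => Z.erase v) ?_ ?_
    · intro Z hZ
      obtain ⟨h1, h2⟩ := mem_filter.1 hZ
      refine mem_powersetCard.2 ⟨subset_univ _, ?_⟩
      rw [card_erase_of_mem h2, (mem_powersetCard.1 h1).2]
      omega
    · intro Z hZ Z' hZ' h
      have h2 := (mem_filter.1 hZ).2
      have h3 := (mem_filter.1 hZ').2
      have h4 : Z.erase v = Z'.erase v := h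
      rw [← insert_erase h2, ← insert_erase h3, h4]
  refine h1.trans ?_
  rw [card_powersetCard, card_univ, Fintype.card_fin]
  exact Nat.choose_le_pow _ _

open Classical in
/-- The lists which are not `Geo` are few: two entries meet (`≤ r² n^(2r-3) n^((r-1)(r-2))` lists, two
`(r - 1)`-sets with a common vertex: `≤ n · n^(r-2) · n^(r-2)`) or an entry meets the complement of `U` or
`{c, d}` (`≤ r (3 r) n^(r-2) n^((r-1)^2)` lists). -/
theorem nongeo_count (r : ℕ) (hr : 3 ≤ r) (U : Finset (Fin n)) (c d : Fin n)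
    (hU : U.card + (3 * r - 4) = n) :
    (((Lls (Pr r n) r).filter fun bl => ¬ Geo r U c d bl).card : ℝ) ≤
      4 * r ^ 2 * (n : ℝ) ^ (r * (r - 1) - 1) := by
  have hmain : ((Lls (Pr r n) r).filter fun bl => ¬ Geo r U c d bl).card ≤
      r * (3 * r * (n ^ (r - 2) * (n ^ (r - 1)) ^ (r - 1))) +
      r ^ 2 * (n * (n ^ (r - 2) * (n ^ (r - 2) * (n ^ (r - 1)) ^ (r - 2)))) := by
    set Bd : Finset (Fin n) := univ \ ((U.erase c).erase d) with hBd
    have hBc : Bd.card ≤ 3 * r := by
      have h1 : Bd.card = n - ((U.erase c).erase d).card := by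
        rw [hBd, card_sdiff_of_subset (subset_univ _), card_univ, Fintype.card_fin]
      have h2 : U.card - 2 ≤ ((U.erase c).erase d).card := by
        have h3 := pred_card_le_card_erase (s := U) (a := c)
        have h4 := pred_card_le_card_erase (s := U.erase c) (a := d)
        omega
      omega
    have hsub : ((Lls (Pr r n) r).filter fun bl => ¬ Geo r U c d bl) ⊆
        ((range r).biUnion fun i => Bd.biUnion fun v =>
          (Lls (Pr r n) r).filter fun bl => bget bl i ∈ (Pr r n).filter fun Z => v ∈ Z) ∪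
        ((range r).offDiag.biUnion fun q => (univ : Finset (Fin n)).biUnion fun v =>
          (Lls (Pr r n) r).filter fun bl => bget bl q.1 ∈ ((Pr r n).filter fun Z => v ∈ Z) ∧
            bget bl q.2 ∈ ((Pr r n).filter fun Z => v ∈ Z)) := by
      intro bl hbl
      obtain ⟨h1, h2⟩ := mem_filter.1 hbl
      have hP : ∀ i < r, bget bl i ∈ Pr r n := fun i hi => d3_getD_mem _ _ _ bl h1 i hi
      by_contra hcon
      rw [mem_union, not_or] at hcon
      obtain ⟨hc1, hc2⟩ := hcon
      apply h2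
      refine ⟨((mem_Lls _ _ _).1 h1).1, fun i hi => ⟨(mem_powersetCard.1 (hP i hi)).2, ?_⟩,
        fun i hi j hj hij => ?_⟩
      · intro v hv
        by_contra hv2
        apply hc1
        refine mem_biUnion.2 ⟨i, mem_range.2 hi, mem_biUnion.2 ⟨v, ?_, mem_filter.2 ⟨h1,
          mem_filter.2 ⟨hP i hi, hv⟩⟩⟩⟩
        rw [hBd, mem_sdiff]
        exact ⟨mem_univ _, hv2⟩
      · rw [disjoint_left]
        intro v hv hv'
        apply hc2
        exact mem_biUnion.2 ⟨(i, j), mem_offDiag.2 ⟨mem_range.2 hi, mem_range.2 hj, hij⟩,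
          mem_biUnion.2 ⟨v, mem_univ _, mem_filter.2 ⟨h1, mem_filter.2 ⟨hP i hi, hv⟩,
            mem_filter.2 ⟨hP j hj, hv'⟩⟩⟩⟩
    refine (card_le_card hsub).trans ((card_union_le _ _).trans (Nat.add_le_add ?_ ?_))
    · refine (card_biUnion_le_card_mul (range r) _
        (3 * r * (n ^ (r - 2) * (n ^ (r - 1)) ^ (r - 1))) (fun i hi => ?_)).trans (by
          rw [card_range])
      refine (card_biUnion_le_card_mul Bd _ (n ^ (r - 2) * (n ^ (r - 1)) ^ (r - 1))
        (fun v _ => ?_)).trans (Nat.mul_le_mul_right _ hBc)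
      refine (d3_one _ _ ∅ r i (mem_range.1 hi)).trans ?_
      exact Nat.mul_le_mul (d3_Prv r n v) (Nat.pow_le_pow_left (d3_Pr r n) _)
    · refine (card_biUnion_le_card_mul (range r).offDiag _
        (n * (n ^ (r - 2) * (n ^ (r - 2) * (n ^ (r - 1)) ^ (r - 2)))) (fun q hq => ?_)).trans (by
          rw [offDiag_card, card_range]
          refine Nat.mul_le_mul_right _ ?_
          rw [pow_two]
          exact Nat.sub_le _ _)
      obtain ⟨hq1, hq2, hq3⟩ := mem_offDiag.1 hq
      refine (card_biUnion_le_card_mul (univ : Finset (Fin n)) _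
        (n ^ (r - 2) * (n ^ (r - 2) * (n ^ (r - 1)) ^ (r - 2))) (fun v _ => ?_)).trans (by
          rw [card_univ, Fintype.card_fin])
      refine (d3_two _ _ ∅ r q.1 q.2 (mem_range.1 hq1) (mem_range.1 hq2) hq3).trans ?_
      exact Nat.mul_le_mul (d3_Prv r n v) (Nat.mul_le_mul (d3_Prv r n v)
        (Nat.pow_le_pow_left (d3_Pr r n) _))
  obtain ⟨s, rfl⟩ : ∃ s, r = s + 3 := ⟨r - 3, by omega⟩
  have e1 : n ^ (s + 3 - 2) * (n ^ (s + 3 - 1)) ^ (s + 3 - 1) =
      n ^ ((s + 3) * (s + 3 - 1) - 1) := by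
    rw [← pow_mul, ← pow_add]
    congr 1
    have : s + 3 - 2 + (s + 3 - 1) * (s + 3 - 1) + 1 = (s + 3) * (s + 3 - 1) := by
      rw [show s + 3 - 2 = s + 1 by omega, show s + 3 - 1 = s + 2 by omega]
      ring
    omega
  have e2 : n * (n ^ (s + 3 - 2) * (n ^ (s + 3 - 2) * (n ^ (s + 3 - 1)) ^ (s + 3 - 2))) =
      n ^ ((s + 3) * (s + 3 - 1) - 1) := by
    rw [← pow_mul, ← pow_add, ← pow_add, ← pow_succ']
    congr 1
    have : (s + 3 - 2 + (s + 3 - 2 + (s + 3 - 1) * (s + 3 - 2)) + 1) + 1 =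
        (s + 3) * (s + 3 - 1) := by
      rw [show s + 3 - 2 = s + 1 by omega, show s + 3 - 1 = s + 2 by omega]
      ring
    omega
  rw [e1, e2] at hmain
  have h5 : (s + 3) * (3 * (s + 3) * n ^ ((s + 3) * (s + 3 - 1) - 1)) +
      (s + 3) ^ 2 * n ^ ((s + 3) * (s + 3 - 1) - 1) =
      4 * (s + 3) ^ 2 * n ^ ((s + 3) * (s + 3 - 1) - 1) := by ring
  rw [h5] at hmain
  exact_mod_cast hmain

/-- The data of a list outside the `j`-th cut. -/
private noncomputable def d3_code (r : ℕ) (w : Fin n) (j : ℕ) (bl : List (Finset (Fin n))) :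
    (Fin (r - 1) → Fin n) × (Fin (r - 1) → Finset (Fin n)) :=
  (fun i => if (i : ℕ) = j then w else el w (bget bl 0) i,
    fun i => if (i : ℕ) = j then ∅ else bget bl (i + 1))

private theorem d3_code_el {r : ℕ} {w : Fin n} {j : ℕ} {bl bl' : List (Finset (Fin n))}
    (h : d3_code r w j bl = d3_code r w j bl') {i : ℕ} (hi : i < r - 1) (hij : i ≠ j) :
    el w (bget bl 0) i = el w (bget bl' 0) i := by
  have h1 := congrFun (congrArg Prod.fst h) ⟨i, hi⟩
  simpa [d3_code, hij] using h1

private theorem d3_code_bget {r : ℕ} {w : Fin n} {j : ℕ} {bl bl' : List (Finset (Fin n))}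
    (h : d3_code r w j bl = d3_code r w j bl') {i : ℕ} (hi : i < r - 1) (hij : i ≠ j) :
    bget bl (i + 1) = bget bl' (i + 1) := by
  have h1 := congrFun (congrArg Prod.snd h) ⟨i, hi⟩
  simpa [d3_code, hij] using h1

private theorem d3_code_cut {r : ℕ} {w : Fin n} {j : ℕ} {bl bl' : List (Finset (Fin n))}
    (h : d3_code r w j bl = d3_code r w j bl') {i : ℕ} (hi : i < r - 1) (hij : i ≠ j) :
    cut w bl i = cut w bl' i := by
  have h1 := d3_code_el h hi hij
  have h2 := d3_code_bget h hi hij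
  cases i with
  | zero =>
    unfold cut
    rw [h1, h2]
  | succ i =>
    simp only [cut]
    rw [h1, h2]

private theorem d3_code_Zsj {r : ℕ} {w : Fin n} {j : ℕ} (hj : j < r - 1)
    {bl bl' : List (Finset (Fin n))} (h : d3_code r w j bl = d3_code r w j bl') :
    Zsj w bl j = Zsj w bl' j := by
  unfold Zsj
  refine image_congr fun i hi => ?_
  have hi' : i < j := mem_range.1 hi
  exact d3_code_cut h (by omega) (by omega)

open Classical in
private theorem d3_fibre (r : ℕ) (hr : 3 ≤ r) (U : Finset (Fin n)) (c d w : Fin n) (j : ℕ)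
    (hj : j < r - 1) (B : Finset (OE n) → Finset (Finset (Fin n))) (t : ℝ)
    (hB : ∀ Zs, ((B Zs).card : ℝ) ≤ t) (hB' : ∀ Zs, B Zs ⊆ Er r n)
    (S : Finset (List (Finset (Fin n)))) (a : (Fin (r - 1) → Fin n) × (Fin (r - 1) → Finset (Fin n)))
    (hS : ∀ bl ∈ S, Geo r U c d bl ∧ (cut w bl j).set ∈ B (Zsj w bl j) ∧ d3_code r w j bl = a) :
    (S.card : ℝ) ≤ r * t := by
  rcases S.eq_empty_or_nonempty with h0 | ⟨bl₀, hbl₀⟩
  · rw [h0, card_empty, Nat.cast_zero]
    have : 0 ≤ t := (Nat.cast_nonneg _).trans (hB ∅)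
    positivity
  obtain ⟨Zs, hZs⟩ : ∃ Zs, Zs = Zsj w bl₀ j := ⟨_, rfl⟩
  have hZ : ∀ bl ∈ S, Zsj w bl j = Zs := by
    intro bl hbl
    rw [hZs]
    exact d3_code_Zsj hj ((hS bl hbl).2.2.trans (hS bl₀ hbl₀).2.2.symm)
  have h1 : S.card ≤ ((B Zs).sigma fun Z => Z).card := by
    refine card_le_card_of_injOn
      (fun bl => (⟨(cut w bl j).set, el w (bget bl 0) j⟩ : Σ _ : Finset (Fin n), Fin n)) ?_ ?_
    · intro bl hbl
      obtain ⟨g1, g2, g3⟩ := hS bl hbl
      obtain ⟨k1, k2, k3⟩ := cut_ok r hr U c d w bl g1 j hj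
      refine mem_sigma.2 ⟨?_, ?_⟩
      · rw [← hZ bl hbl]
        exact g2
      · show el w (bget bl 0) j ∈ (cut w bl j).set
        rw [k2]
        exact mem_insert_self _ _
    · intro bl hbl bl' hbl' heq
      obtain ⟨g1, g2, g3⟩ := hS bl hbl
      obtain ⟨g1', g2', g3'⟩ := hS bl' hbl'
      obtain ⟨k1, k2, k3⟩ := cut_ok r hr U c d w bl g1 j hj
      obtain ⟨k1', k2', k3'⟩ := cut_ok r hr U c d w bl' g1' j hj
      have hc := g3.trans g3'.symm
      have h2 : (cut w bl j).set = (cut w bl' j).set := congrArg Sigma.fst heq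
      have h3 : el w (bget bl 0) j = el w (bget bl' 0) j := by
        have := congrArg Sigma.snd heq
        exact this
      have hcard : (bget bl 0).card = r - 1 := (g1.2.1 0 (by omega)).1
      have hcard' : (bget bl' 0).card = r - 1 := (g1'.2.1 0 (by omega)).1
      have hnot : ∀ (b : List (Finset (Fin n))), Geo r U c d b →
          el w (bget b 0) j ∉ bget b (j + 1) := by
        intro b hb hmem
        have h4 := hb.2.2 0 (by omega) (j + 1) (by omega) (by omega)
        refine disjoint_left.1 h4 (el_mem w _ j ?_) hmem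
        rw [(hb.2.1 0 (by omega)).1]
        exact hj
      have hj1 : bget bl (j + 1) = bget bl' (j + 1) := by
        rw [← erase_insert (hnot bl g1), ← k2, h2, k2', h3, erase_insert (hnot bl' g1')]
      have hel : ∀ i < r - 1, el w (bget bl 0) i = el w (bget bl' 0) i := by
        intro i hi
        by_cases hij : i = j
        · rw [hij]
          exact h3
        · exact d3_code_el hc hi hij
      have h0 : bget bl 0 = bget bl' 0 := by
        ext v
        constructor
        · intro hv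
          obtain ⟨i, hi, rfl⟩ := el_surj w _ v hv
          rw [hcard] at hi
          rw [hel i hi]
          exact el_mem w _ i (by rw [hcard']; exact hi)
        · intro hv
          obtain ⟨i, hi, rfl⟩ := el_surj w _ v hv
          rw [hcard'] at hi
          rw [← hel i hi]
          exact el_mem w _ i (by rw [hcard]; exact hi)
      have hall : ∀ i < r, bget bl i = bget bl' i := by
        intro i hi
        cases i with
        | zero => exact h0
        | succ i =>
          by_cases hij : i = j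
          · rw [hij]
            exact hj1
          · exact d3_code_bget hc (by omega) hij
      refine List.ext_getElem (g1.1.trans g1'.1.symm) fun i hi hi' => ?_
      have h5 := hall i (by rw [← g1.1]; exact hi)
      unfold bget at h5
      rwa [List.getD_eq_getElem (l := bl) (d := ∅) hi,
        List.getD_eq_getElem (l := bl') (d := ∅) hi'] at h5
  have h2 : ((B Zs).sigma fun Z => Z).card = (B Zs).card * r := by
    rw [card_sigma, Finset.sum_congr rfl fun Z hZ => (mem_powersetCard.1 (hB' Zs hZ)).2,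
      Finset.sum_const, smul_eq_mul]
  rw [h2] at h1
  have h3 : (S.card : ℝ) ≤ (B Zs).card * r := by exact_mod_cast h1
  calc (S.card : ℝ) ≤ (B Zs).card * r := h3
    _ ≤ t * r := mul_le_mul_of_nonneg_right (hB Zs) (Nat.cast_nonneg _)
    _ = r * t := mul_comm _ _

open Classical in
/-- For fixed `j < r - 1`: the `Geo` lists such that `(cut j).set` lies in a set `B (Zsj w bl j)` of at
most `t` sets, which depends only on the first `j` cuts, are at most `r t n^(r-2) n^((r-1)(r-2))`.

Proof. The list `bl` is determined by: the elements `el w bl₀ i`, `i < r - 1`, `i ≠ j` (`≤ n^(r-2)`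
possibilities), the entries `bl_i`, `1 ≤ i < r`, `i ≠ j + 1` (`≤ (n^(r-1))^(r-2)` possibilities), which determine
`Zsj w bl j` (it depends on `el w bl₀ i`, `i < j`, and `bl_{i+1}`, `i < j`), and then
`Z = (cut j).set = {s_j} ∪ bl_{j+1}` in the set `B` (`t` possibilities) and `s_j ∈ Z` (`r` possibilities),
`bl_{j+1} = Z \ {s_j}`. -/
theorem cut_count (r : ℕ) (hr : 3 ≤ r) (U : Finset (Fin n)) (c d w : Fin n) (j : ℕ)
    (hj : j < r - 1) (B : Finset (OE n) → Finset (Finset (Fin n))) (t : ℝ)
    (hB : ∀ Zs, ((B Zs).card : ℝ) ≤ t) (hB' : ∀ Zs, B Zs ⊆ Er r n) :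
    (((Lls (Pr r n) r).filter fun bl => Geo r U c d bl ∧
      (cut w bl j).set ∈ B (Zsj w bl j)).card : ℝ) ≤
      r * t * (n : ℝ) ^ (r - 2) * (n : ℝ) ^ ((r - 1) * (r - 2)) := by
  obtain ⟨S, hSd⟩ : ∃ S : Finset (List (Finset (Fin n))), S = ((Lls (Pr r n) r).filter
    fun bl => Geo r U c d bl ∧ (cut w bl j).set ∈ B (Zsj w bl j)) := ⟨_, rfl⟩
  rw [← hSd]
  have hS : ∀ bl ∈ S, bl ∈ Lls (Pr r n) r ∧ Geo r U c d bl ∧
      (cut w bl j).set ∈ B (Zsj w bl j) := by
    intro bl hbl
    rw [hSd] at hbl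
    exact mem_filter.1 hbl
  have ht : 0 ≤ t := (Nat.cast_nonneg _).trans (hB ∅)
  -- the codes
  have hcodes : (S.image (d3_code r w j)).card ≤
      n ^ (r - 2) * (n ^ (r - 1)) ^ (r - 2) := by
    have hsub : S.image (d3_code r w j) ⊆
        (Fintype.piFinset fun i : Fin (r - 1) => if (i : ℕ) = j then {w} else univ) ×ˢ
        (Fintype.piFinset fun i : Fin (r - 1) => if (i : ℕ) = j then {∅} else Pr r n) := by
      intro a ha
      obtain ⟨bl, hbl, rfl⟩ := mem_image.1 ha
      obtain ⟨g1, g2, g3⟩ := hS bl hbl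
      refine mem_product.2 ⟨?_, ?_⟩
      · rw [Fintype.mem_piFinset]
        intro i
        unfold d3_code
        by_cases hi : (i : ℕ) = j
        · simp [hi]
        · simp [hi]
      · rw [Fintype.mem_piFinset]
        intro i
        unfold d3_code
        by_cases hi : (i : ℕ) = j
        · simp [hi]
        · simp only [hi, if_false]
          exact d3_getD_mem _ _ _ bl g1 _ (by have := i.2; omega)
    refine (card_le_card hsub).trans ?_
    have hcj : ∀ q : ℕ, ∏ i : Fin (r - 1), (if (i : ℕ) = j then 1 else q) = q ^ (r - 2) := by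
      intro q
      rw [← Finset.mul_prod_erase univ _ (mem_univ (⟨j, hj⟩ : Fin (r - 1)))]
      rw [if_pos rfl, one_mul, Finset.prod_congr rfl (fun i hi => by
        rw [if_neg]
        intro h
        exact (mem_erase.1 hi).1 (Fin.ext h) : ∀ i ∈ univ.erase (⟨j, hj⟩ : Fin (r - 1)),
          (if (i : ℕ) = j then 1 else q) = q), Finset.prod_const,
        card_erase_of_mem (mem_univ _), card_univ, Fintype.card_fin]
      congr 1
    rw [card_product, Fintype.card_piFinset, Fintype.card_piFinset]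
    have a1 : ∏ i : Fin (r - 1), (if (i : ℕ) = j then ({w} : Finset (Fin n)) else univ).card =
        n ^ (r - 2) := by
      rw [← hcj n]
      refine Finset.prod_congr rfl fun i _ => ?_
      split_ifs
      · exact card_singleton _
      · rw [card_univ, Fintype.card_fin]
    have a2 : ∏ i : Fin (r - 1),
        (if (i : ℕ) = j then ({∅} : Finset (Finset (Fin n))) else Pr r n).card ≤
        (n ^ (r - 1)) ^ (r - 2) := by
      rw [← hcj (n ^ (r - 1))]
      refine Finset.prod_le_prod' fun i _ => ?_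
      split_ifs
      · rw [card_singleton]
      · exact d3_Pr r n
    rw [a1]
    exact Nat.mul_le_mul_left _ a2
  have h1 : S.card = ∑ a ∈ S.image (d3_code r w j),
      (S.filter fun bl => d3_code r w j bl = a).card :=
    card_eq_sum_card_image _ _
  have h2 : (S.card : ℝ) ≤ (S.image (d3_code r w j)).card * (r * t) := by
    rw [h1, Nat.cast_sum, ← nsmul_eq_mul, ← Finset.sum_const]
    refine Finset.sum_le_sum fun a _ => ?_
    refine d3_fibre r hr U c d w j hj B t hB hB' _ a fun bl hbl => ?_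
    obtain ⟨k1, k2⟩ := mem_filter.1 hbl
    exact ⟨(hS bl k1).2.1, (hS bl k1).2.2, k2⟩
  have h3 : ((S.image (d3_code r w j)).card : ℝ) ≤
      (n : ℝ) ^ (r - 2) * (n : ℝ) ^ ((r - 1) * (r - 2)) := by
    rw [pow_mul]
    exact_mod_cast hcodes
  calc (S.card : ℝ) ≤ (S.image (d3_code r w j)).card * (r * t) := h2
    _ ≤ ((n : ℝ) ^ (r - 2) * (n : ℝ) ^ ((r - 1) * (r - 2))) * (r * t) :=
      mul_le_mul_of_nonneg_right h3 (by positivity)
    _ = r * t * (n : ℝ) ^ (r - 2) * (n : ℝ) ^ ((r - 1) * (r - 2)) := by ring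

open Classical in
/-- **Almost all lists are good.** `ρ` is the flatness ratio `c₀ / D`, `x₀` the threshold.

Proof. Let `bl ∈ Lls (Pr r n) r` be `Geo` but not `Gd`. Then there is `j < r - 1` with
`Psi (Zsj (j+1)) < ρ Psi (Zsj j)` and `Psi (Zsj j) ≥ ρ^j Psi ∅ ≥ x₀` (otherwise
`Psi (Zsj (r-1)) ≥ ρ^(r-1) Psi ∅` by induction; `Zsj (j+1) = insert (cut j) (Zsj j)`, `Zsj 0 = ∅`). So
`(cut j).set` is in `B (Zsj j)`, where `B Zs` is the set of the `Z ∈ Er` with
`Bad r U c d Zs (ρ Psi Zs) μ Z` if `|Zs| ≤ r` and `x₀ ≤ Psi Zs` and `∅` otherwise (`cut_ok`,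
`cut_disjoint` show that `(cut j).set` is relevant); `|B Zs| ≤ θ T`, `T ≤ n^r / r!`, so
`r θ T ≤ θ n^r`. `cut_count` for every `j` and `nongeo_count`. -/
theorem bad_count (r : ℕ) (hr : 3 ≤ r) (U : Finset (Fin n)) (c d w : Fin n)
    (hU : U.card + (3 * r - 4) = n) (μ : Mu n) (ρ θ x₀ : ℝ) (hρ : 0 < ρ) (hρ1 : ρ ≤ 1)
    (hθ : 0 ≤ θ) (hx₀ : 0 ≤ x₀) (hx : x₀ ≤ ρ ^ r * Psi r (toR μ) U c d ∅)
    (hflat : ∀ Zs : Finset (OE n), Zs.card ≤ r → x₀ ≤ Psi r (toR μ) U c d Zs →
      (((Er r n).filter (fun Z => Bad r U c d Zs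
        (ρ * Psi r (toR μ) U c d Zs) μ Z)).card : ℝ) ≤ θ * (Er r n).card) :
    (((Lls (Pr r n) r).filter fun bl => ¬ Gd r (toR μ) U c d w (ρ ^ (r - 1)) bl).card : ℝ) ≤
      (r * θ + 4 * r ^ 2 / n) * (n : ℝ) ^ (r * (r - 1)) := by
  obtain ⟨P, hPd⟩ : ∃ P : Finset (OE n) → ℝ, P = fun Zs => Psi r (toR μ) U c d Zs := ⟨_, rfl⟩
  have hPn : ∀ Zs, 0 ≤ P Zs := by
    intro Zs
    rw [hPd]
    exact Psi_nonneg r _ (fun Z => Nat.cast_nonneg _) U c d Zs
  obtain ⟨B, hBd⟩ : ∃ B : Finset (OE n) → Finset (Finset (Fin n)), B = fun Zs =>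
      if Zs.card ≤ r ∧ x₀ ≤ P Zs then (Er r n).filter (fun Z => Bad r U c d Zs (ρ * P Zs) μ Z)
      else ∅ := ⟨_, rfl⟩
  have hB : ∀ Zs, ((B Zs).card : ℝ) ≤ θ * (Er r n).card := by
    intro Zs
    rw [hBd]
    simp only
    split_ifs with h
    · rw [hPd] at h ⊢
      exact hflat Zs h.1 h.2
    · rw [card_empty, Nat.cast_zero]
      positivity
  have hB' : ∀ Zs, B Zs ⊆ Er r n := by
    intro Zs
    rw [hBd]
    simp only
    split_ifs
    · exact filter_subset _ _
    · exact empty_subset _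
  have hsub : ((Lls (Pr r n) r).filter fun bl => ¬ Gd r (toR μ) U c d w (ρ ^ (r - 1)) bl) ⊆
      ((Lls (Pr r n) r).filter fun bl => ¬ Geo r U c d bl) ∪
      (range (r - 1)).biUnion fun j => (Lls (Pr r n) r).filter fun bl => Geo r U c d bl ∧
        (cut w bl j).set ∈ B (Zsj w bl j) := by
    intro bl hbl
    obtain ⟨h1, h2⟩ := mem_filter.1 hbl
    by_cases hg : Geo r U c d bl
    · refine mem_union_right _ ?_
      have h3 : P (Zsj w bl (r - 1)) < ρ ^ (r - 1) * P ∅ := by
        rw [hPd]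
        by_contra hcon
        exact h2 ⟨hg, not_lt.1 hcon⟩
      have h4 : ∃ j, j < r - 1 ∧ P (Zsj w bl (j + 1)) < ρ * P (Zsj w bl j) ∧
          ρ ^ j * P ∅ ≤ P (Zsj w bl j) := by
        by_contra hcon
        have h5 : ∀ j ≤ r - 1, ρ ^ j * P ∅ ≤ P (Zsj w bl j) := by
          intro j
          induction j with
          | zero =>
            intro _
            simp [Zsj]
          | succ j ih =>
            intro hj
            have h6 := ih (by omega)
            have h7 : ρ * P (Zsj w bl j) ≤ P (Zsj w bl (j + 1)) := by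
              by_contra h8
              exact hcon ⟨j, by omega, not_le.1 h8, h6⟩
            refine le_trans ?_ h7
            rw [pow_succ', mul_assoc]
            exact mul_le_mul_of_nonneg_left h6 hρ.le
        exact absurd (h5 (r - 1) le_rfl) (not_le.2 h3)
      obtain ⟨j, hj, h5, h6⟩ := h4
      refine mem_biUnion.2 ⟨j, mem_range.2 hj, mem_filter.2 ⟨h1, hg, ?_⟩⟩
      obtain ⟨k1, k2, k3⟩ := cut_ok r hr U c d w bl hg j hj
      have hZc : (Zsj w bl j).card ≤ r := by
        refine card_image_le.trans ?_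
        rw [card_range]
        omega
      have hx' : x₀ ≤ P (Zsj w bl j) := by
        refine hx.trans (le_trans ?_ h6)
        have h7 : ρ ^ r ≤ ρ ^ j := pow_le_pow_of_le_one hρ.le hρ1 (by omega)
        have h8 : Psi r (toR μ) U c d ∅ = P ∅ := by rw [hPd]
        rw [h8]
        exact mul_le_mul_of_nonneg_right h7 (hPn _)
      have hins : Zsj w bl (j + 1) = insert (cut w bl j) (Zsj w bl j) := by
        unfold Zsj
        rw [range_add_one, image_insert]
      rw [hBd]
      simp only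
      rw [if_pos ⟨hZc, hx'⟩]
      refine mem_filter.2 ⟨Ok_set r hr _ k1, ?_, ?_, ?_, ?_, cut w bl j, k1, rfl, ?_⟩
      · exact k3.trans ((erase_subset _ _).trans (erase_subset _ _))
      · intro hc
        exact (mem_erase.1 (mem_erase.1 (k3 hc)).2).1 rfl
      · intro hd
        exact (mem_erase.1 (k3 hd)).1 rfl
      · intro z hz
        obtain ⟨i, hi, rfl⟩ := mem_image.1 hz
        have hi' := mem_range.1 hi
        exact cut_disjoint r hr U c d w bl hg i j (by omega) hj (by omega)
      · rw [← hins]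
        rw [hPd] at h5 ⊢
        exact h5
    · exact mem_union_left _ (mem_filter.2 ⟨h1, hg⟩)
  have hn5 : 0 < n := by omega
  have hn0 : (0 : ℝ) < n := by exact_mod_cast hn5
  have h1 : (((Lls (Pr r n) r).filter fun bl =>
      ¬ Gd r (toR μ) U c d w (ρ ^ (r - 1)) bl).card : ℝ) ≤
      4 * r ^ 2 * (n : ℝ) ^ (r * (r - 1) - 1) + ∑ j ∈ range (r - 1),
        (r * (θ * (Er r n).card) * (n : ℝ) ^ (r - 2) * (n : ℝ) ^ ((r - 1) * (r - 2))) := by
    have h2 := (card_le_card hsub).trans (card_union_le _ _)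
    have h3 : (((range (r - 1)).biUnion fun j => (Lls (Pr r n) r).filter fun bl =>
        Geo r U c d bl ∧ (cut w bl j).set ∈ B (Zsj w bl j)).card : ℝ) ≤
        ∑ j ∈ range (r - 1),
        (r * (θ * (Er r n).card) * (n : ℝ) ^ (r - 2) * (n : ℝ) ^ ((r - 1) * (r - 2))) := by
      refine le_trans (Nat.cast_le.2 card_biUnion_le) ?_
      rw [Nat.cast_sum]
      exact Finset.sum_le_sum fun j hj =>
        cut_count r hr U c d w j (mem_range.1 hj) B _ hB hB'
    have h4 := nongeo_count r hr U c d hU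
    have h5 : (((Lls (Pr r n) r).filter fun bl =>
        ¬ Gd r (toR μ) U c d w (ρ ^ (r - 1)) bl).card : ℝ) ≤
        (((Lls (Pr r n) r).filter fun bl => ¬ Geo r U c d bl).card : ℝ) +
        (((range (r - 1)).biUnion fun j => (Lls (Pr r n) r).filter fun bl =>
        Geo r U c d bl ∧ (cut w bl j).set ∈ B (Zsj w bl j)).card : ℝ) := by
      exact_mod_cast h2
    linarith
  refine h1.trans ?_
  rw [Finset.sum_const, card_range, nsmul_eq_mul, add_mul, add_comm]
  refine add_le_add ?_ (le_of_eq ?_)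
  · -- the main part
    have hT : ((Er r n).card : ℝ) * r ≤ (n : ℝ) ^ r := by
      have a1 : (Er r n).card = n.choose r := by
        rw [Er, card_powersetCard, card_univ, Fintype.card_fin]
      have a2 : r * n.choose r ≤ n ^ r := by
        have a3 : n.choose r * r.factorial ≤ n ^ r := by
          rw [mul_comm, ← Nat.descFactorial_eq_factorial_mul_choose]
          exact Nat.descFactorial_le_pow n r
        have a4 : r ≤ r.factorial := Nat.self_le_factorial r
        calc r * n.choose r ≤ r.factorial * n.choose r := Nat.mul_le_mul_right _ a4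
          _ = n.choose r * r.factorial := mul_comm _ _
          _ ≤ n ^ r := a3
      rw [a1, mul_comm]
      exact_mod_cast a2
    have hr1 : ((r - 1 : ℕ) : ℝ) ≤ r := by
      exact_mod_cast Nat.sub_le r 1
    have hexp : (n : ℝ) ^ r * ((n : ℝ) ^ (r - 2) * (n : ℝ) ^ ((r - 1) * (r - 2))) =
        (n : ℝ) ^ (r * (r - 1)) := by
      rw [← pow_add, ← pow_add]
      congr 1
      obtain ⟨s, rfl⟩ : ∃ s, r = s + 3 := ⟨r - 3, by omega⟩
      rw [show s + 3 - 2 = s + 1 by omega, show s + 3 - 1 = s + 2 by omega]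
      ring
    rw [← hexp]
    obtain ⟨y, hy⟩ : ∃ y : ℝ, y = (n : ℝ) ^ (r - 2) * (n : ℝ) ^ ((r - 1) * (r - 2)) := ⟨_, rfl⟩
    have hy0 : 0 ≤ y := by
      rw [hy]
      positivity
    rw [← hy]
    calc ((r - 1 : ℕ) : ℝ) *
          (r * (θ * (Er r n).card) * (n : ℝ) ^ (r - 2) * (n : ℝ) ^ ((r - 1) * (r - 2)))
        = ((r - 1 : ℕ) : ℝ) * (θ * (((Er r n).card : ℝ) * r) * y) := by
          rw [hy]
          ring
      _ ≤ r * (θ * (n : ℝ) ^ r * y) := by
        refine mul_le_mul hr1 ?_ (by positivity) (by positivity)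
        refine mul_le_mul_of_nonneg_right ?_ hy0
        exact mul_le_mul_of_nonneg_left hT hθ
      _ = r * θ * ((n : ℝ) ^ r * y) := by ring
  · have hexp : r * (r - 1) = (r * (r - 1) - 1) + 1 := by
      have : 0 < r * (r - 1) := Nat.mul_pos (by omega) (by omega)
      omega
    have hp : (n : ℝ) ^ (r * (r - 1)) = (n : ℝ) ^ (r * (r - 1) - 1) * n := by
      conv_lhs => rw [hexp, pow_succ]
    rw [hp]
    generalize (n : ℝ) ^ (r * (r - 1) - 1) = x
    field_simp

end Pool.Agent.LHam
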