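import Pool.Agent.LHam.ProcEx

set_option autoImplicit false

/-! P2. Tail bounds at level `M`. -/

namespace Pool.Agent.LHam

open Finset

variable {n : ℕ}

/-- **Upper tail for a dependent set of `r`-sets.** `Q μ ⊆ C` does not change if elements of `C` are
added, and `|Q μ| ≤ q T`.

Proof. Let `f j μ = (∑ Z ∈ Q μ, μ Z).descFactorial j` (as a real number). Claim
`EM M (f j) ≤ (M q)^j` for all `M`, `j`, by induction on `j` (for all `M`): `j = 0`: `≤ 1` (`EM` of `1` is `≤ 1`).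
For `M = 0` (`μ = 0`) it is `0` for `j ≥ 1`. For `M = M' + 1`: if `μ Z ≠ 0`, `Z ∈ C`, then `Q (dn μ Z) = Q μ`
(`up_dn`), so `f (j + 1) μ = ∑ Z ∈ Q μ, μ Z * f j (dn μ Z) = ∑ Z ∈ Er, μ Z * G (dn μ Z) Z` with
`G ν Z = if Z ∈ Q ν then f j ν else 0` (`descFactorial`: `x (x - 1) .. (x - j) = x * (x-1).descFactorial j`, and
`∑_{Z' ∈ Q} (dn μ Z) Z' = ∑_{Q} μ - 1`). By `EM_ex`,
`EM (M' + 1) (f (j + 1)) = (M' + 1) EM M' (fun ν => (∑ Z ∈ Er, G ν Z) / T) ≤ (M' + 1) q EM M' (f j)`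
`≤ (M' + 1) q (M' q)^j ≤ ((M' + 1) q)^(j+1)`. Finally `m₀ ≤ x` implies `m₀ ! ≤ x.descFactorial m₀`
(`PM_markov`). (If `T = 0` everything is trivial: `Er` is empty.) -/
theorem PM_dep (r M m₀ : ℕ) (q : ℝ) (hq : 0 ≤ q) (C : Finset (Finset (Fin n)))
    (hC : C ⊆ Er r n) (Q : Mu n → Finset (Finset (Fin n))) (hQ : ∀ μ, Q μ ⊆ C)
    (hinv : ∀ μ, ∀ Z ∈ C, Q (up μ Z) = Q μ)
    (hcard : ∀ μ, ((Q μ).card : ℝ) ≤ q * (Er r n).card) :
    PM r n M (fun μ => m₀ ≤ ∑ Z ∈ Q μ, μ Z) ≤ (M * q) ^ m₀ / m₀.factorial := by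
  classical
  set T := (Er r n).card with hTdef
  let f : ℕ → Mu n → ℝ := fun j μ => ((∑ Z ∈ Q μ, μ Z).descFactorial j : ℝ)
  have hfnn : ∀ j μ, 0 ≤ f j μ := fun j μ => Nat.cast_nonneg _
  have hQdn : ∀ (μ : Mu n) (Z : Finset (Fin n)), μ Z ≠ 0 → Z ∈ C → Q (dn μ Z) = Q μ := by
    intro μ Z h0 hZ
    have h := hinv (dn μ Z) Z hZ
    rw [up_dn μ Z h0] at h
    exact h.symm
  have hrec : ∀ j (μ : Mu n), f (j + 1) μ =
      ∑ Z ∈ Er r n, (μ Z : ℝ) * (if Z ∈ Q (dn μ Z) then f j (dn μ Z) else 0) := by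
    intro j μ
    have h1 : ∀ Z ∈ Er r n, (μ Z : ℝ) * (if Z ∈ Q (dn μ Z) then f j (dn μ Z) else 0) =
        if Z ∈ Q μ then (μ Z : ℝ) * (((∑ Z ∈ Q μ, μ Z) - 1).descFactorial j : ℝ) else 0 := by
      intro Z _
      by_cases h0 : μ Z = 0
      · simp [h0]
      by_cases hZC : Z ∈ C
      · rw [hQdn μ Z h0 hZC]
        by_cases hZQ : Z ∈ Q μ
        · rw [if_pos hZQ, if_pos hZQ]
          have h2 : ∑ Z' ∈ Q (dn μ Z), (dn μ Z) Z' = (∑ Z ∈ Q μ, μ Z) - 1 := by
            rw [hQdn μ Z h0 hZC]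
            rw [← Finset.add_sum_erase _ _ hZQ, ← Finset.add_sum_erase _ (fun Z => μ Z) hZQ]
            have h3 : ∑ x ∈ (Q μ).erase Z, dn μ Z x = ∑ x ∈ (Q μ).erase Z, μ x := by
              apply Finset.sum_congr rfl
              intro x hx
              rw [dn, Function.update_of_ne (Finset.ne_of_mem_erase hx)]
            rw [h3, dn, Function.update_self]
            omega
          change (μ Z : ℝ) * ((∑ Z' ∈ Q (dn μ Z), (dn μ Z) Z').descFactorial j : ℝ) = _
          rw [h2]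
        · rw [if_neg hZQ, if_neg hZQ, mul_zero]
      · rw [if_neg (fun h => hZC (hQ _ h)), if_neg (fun h => hZC (hQ _ h)), mul_zero]
    rw [Finset.sum_congr rfl h1, ← Finset.sum_filter]
    have h4 : (Er r n).filter (fun Z => Z ∈ Q μ) = Q μ := by
      ext Z
      simp only [Finset.mem_filter]
      exact ⟨fun h => h.2, fun h => ⟨hC (hQ _ h), h⟩⟩
    rw [h4, ← Finset.sum_mul, ← Nat.cast_sum]
    change ((∑ Z ∈ Q μ, μ Z).descFactorial (j + 1) : ℝ) = _
    rcases Nat.eq_zero_or_pos (∑ Z ∈ Q μ, μ Z) with h5 | h5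
    · rw [h5]
      simp
    · obtain ⟨k, hk⟩ := Nat.exists_eq_succ_of_ne_zero h5.ne'
      rw [hk, Nat.succ_descFactorial_succ, Nat.succ_sub_one]
      push_cast
      ring
  have hclaim : ∀ j M, EM r n M (f j) ≤ (M * q) ^ j := by
    intro j
    induction j with
    | zero =>
      intro M
      have h := PM_le_one (n := n) r M (fun _ => True)
      unfold PM at h
      simpa [f] using h
    | succ j ih =>
      intro M
      cases M with
      | zero =>
        change f (j + 1) 0 ≤ _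
        simp [f]
      | succ M =>
        have hM : ((M : ℝ) + 1) ≠ 0 := by positivity
        have h1 : EM r n (M + 1) (f (j + 1)) = ((M : ℝ) + 1) *
            EM r n (M + 1) (fun μ => ∑ Z ∈ Er r n, (μ Z : ℝ) / (M + 1) *
              (fun (ν : Mu n) (Z : Finset (Fin n)) => if Z ∈ Q ν then f j ν else 0)
                (dn μ Z) Z) := by
          rw [← EM_mul]
          apply EM_congr
          intro μ _
          rw [hrec, Finset.mul_sum]
          apply Finset.sum_congr rfl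
          intro Z _
          field_simp
        have h0 := EM_ex (n := n) r M
          (fun (ν : Mu n) (Z : Finset (Fin n)) => if Z ∈ Q ν then f j ν else 0)
        rw [h1, ← h0]
        have h2 : EM r n M (fun ν => (∑ Z ∈ Er r n,
            (fun (ν : Mu n) (Z : Finset (Fin n)) => if Z ∈ Q ν then f j ν else 0) ν Z) /
              (Er r n).card) ≤ q * EM r n M (f j) := by
          rw [← EM_mul]
          apply EM_mono
          intro ν _
          rcases Nat.eq_zero_or_pos (Er r n).card with h5 | h5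
          · rw [h5]
            simpa using mul_nonneg hq (hfnn j ν)
          · have h6 : (0 : ℝ) < (Er r n).card := by exact_mod_cast h5
            rw [div_le_iff₀ h6, ← Finset.sum_filter, Finset.sum_const, nsmul_eq_mul]
            have h7 : (((Er r n).filter (fun Z => Z ∈ Q ν)).card : ℝ) ≤ q * (Er r n).card := by
              refine le_trans ?_ (hcard ν)
              exact_mod_cast Finset.card_le_card (fun Z hZ => (Finset.mem_filter.1 hZ).2)
            nlinarith [mul_le_mul_of_nonneg_right h7 (hfnn j ν)]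
        have h3 : EM r n M (f j) ≤ ((M : ℝ) * q) ^ j := ih M
        have h4 : ((M : ℝ) * q) ^ j ≤ (((M : ℝ) + 1) * q) ^ j := by
          apply pow_le_pow_left₀ (by positivity)
          nlinarith
        calc ((M : ℝ) + 1) * EM r n M (fun ν => (∑ Z ∈ Er r n,
            (fun (ν : Mu n) (Z : Finset (Fin n)) => if Z ∈ Q ν then f j ν else 0) ν Z) /
              (Er r n).card) ≤ ((M : ℝ) + 1) * (q * EM r n M (f j)) :=
              mul_le_mul_of_nonneg_left h2 (by positivity)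
          _ ≤ ((M : ℝ) + 1) * (q * (((M : ℝ) + 1) * q) ^ j) := by
              apply mul_le_mul_of_nonneg_left _ (by positivity)
              exact mul_le_mul_of_nonneg_left (h3.trans h4) hq
          _ = (((M + 1 : ℕ) : ℝ) * q) ^ (j + 1) := by
              push_cast
              ring
  have hm : (0 : ℝ) < (m₀.factorial : ℝ) := by exact_mod_cast Nat.factorial_pos _
  refine (PM_markov r M _ (f m₀) (m₀.factorial : ℝ) hm (fun μ _ => hfnn _ μ) ?_).trans
    (div_le_div_of_nonneg_right (hclaim m₀ M) hm.le)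
  intro μ _ hμ
  change (m₀.factorial : ℝ) ≤ ((∑ Z ∈ Q μ, μ Z).descFactorial m₀ : ℝ)
  have h8 := Nat.descFactorial_le m₀ hμ
  rw [Nat.descFactorial_self] at h8
  exact_mod_cast h8

private theorem prod_ite_eq {r : ℕ} (Q : Finset (Finset (Fin n))) (hQ : Q ⊆ Er r n) (s : ℝ)
    (hs : 0 < s) (μ : Mu n) :
    ∏ Z ∈ Er r n, (if Z ∈ Q then s else 1) ^ μ Z =
      Real.exp ((∑ Z ∈ Q, (μ Z : ℝ)) * Real.log s) := by
  classical
  have h1 : ∀ Z ∈ Er r n, (if Z ∈ Q then s else (1 : ℝ)) ^ μ Z =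
      if Z ∈ Q then s ^ μ Z else 1 := by
    intro Z _
    split_ifs <;> simp
  rw [Finset.prod_congr rfl h1, ← Finset.prod_filter]
  have h4 : (Er r n).filter (fun Z => Z ∈ Q) = Q := by
    ext Z
    simp only [Finset.mem_filter]
    exact ⟨fun h => h.2, fun h => ⟨hQ h, h⟩⟩
  rw [h4, Finset.prod_pow_eq_pow_sum, ← Nat.cast_sum, Real.exp_nat_mul, Real.exp_log hs]

private theorem sum_ite_eq {r : ℕ} (Q : Finset (Finset (Fin n))) (hQ : Q ⊆ Er r n) (s : ℝ) :
    ∑ Z ∈ Er r n, (if Z ∈ Q then s else 1) = (Er r n).card + Q.card * (s - 1) := by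
  classical
  have h1 : ∀ Z ∈ Er r n, (if Z ∈ Q then s else (1 : ℝ)) =
      1 + if Z ∈ Q then (s - 1) else 0 := by
    intro Z _
    split_ifs <;> ring
  rw [Finset.sum_congr rfl h1, Finset.sum_add_distrib, ← Finset.sum_filter]
  have h4 : (Er r n).filter (fun Z => Z ∈ Q) = Q := by
    ext Z
    simp only [Finset.mem_filter]
    exact ⟨fun h => h.2, fun h => ⟨hQ h, h⟩⟩
  rw [h4]
  simp only [Finset.sum_const, nsmul_eq_mul, mul_one]

/-- **Upper tail for a fixed set.** `Q ⊆ Er`, `|Q| ≤ q T`, `x > 0` real, `s ≥ 1`. Proof: Markov with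
`∏ Z ∈ Er, (if Z ∈ Q then s else 1) ^ μ Z = s ^ (∑ Z ∈ Q, μ Z)`, `EM_prod`,
`(1 + (|Q| / T) (s - 1))^M ≤ exp (M q (s - 1))`. -/
theorem PM_upper (r M : ℕ) (hT : 0 < (Er r n).card) (q s : ℝ) (hs : 1 ≤ s)
    (Q : Finset (Finset (Fin n))) (hQ : Q ⊆ Er r n) (hcard : (Q.card : ℝ) ≤ q * (Er r n).card)
    (x : ℝ) :
    PM r n M (fun μ => x ≤ ∑ Z ∈ Q, (μ Z : ℝ)) ≤
      Real.exp (-(x * Real.log s)) * Real.exp (M * q * (s - 1)) := by
  classical
  have hs0 : 0 < s := lt_of_lt_of_le one_pos hs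
  have hT' : (0 : ℝ) < (Er r n).card := by exact_mod_cast hT
  have h1 := PM_markov (n := n) r M (fun μ => x ≤ ∑ Z ∈ Q, (μ Z : ℝ))
    (fun μ => ∏ Z ∈ Er r n, (if Z ∈ Q then s else 1) ^ μ Z) (Real.exp (x * Real.log s))
    (Real.exp_pos _) (fun μ _ => by rw [prod_ite_eq Q hQ s hs0 μ]; exact (Real.exp_pos _).le)
    (fun μ _ h => by
      rw [prod_ite_eq Q hQ s hs0 μ]
      exact Real.exp_le_exp.2 (mul_le_mul_of_nonneg_right h (Real.log_nonneg hs)))
  refine h1.trans ?_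
  rw [EM_prod, sum_ite_eq Q hQ s, Real.exp_neg, inv_mul_eq_div]
  apply div_le_div_of_nonneg_right _ (Real.exp_pos _).le
  have h2 : (((Er r n).card : ℝ) + Q.card * (s - 1)) / (Er r n).card ≤
      Real.exp (q * (s - 1)) := by
    have h3 : (((Er r n).card : ℝ) + Q.card * (s - 1)) / (Er r n).card ≤
        q * (s - 1) + 1 := by
      rw [div_le_iff₀ hT']
      nlinarith [mul_le_mul_of_nonneg_right hcard (sub_nonneg.2 hs)]
    exact h3.trans (Real.add_one_le_exp _)
  have h4 : (0 : ℝ) ≤ (((Er r n).card : ℝ) + Q.card * (s - 1)) / (Er r n).card := by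
    apply div_nonneg _ hT'.le
    have := mul_nonneg (Nat.cast_nonneg (α := ℝ) Q.card) (sub_nonneg.2 hs)
    linarith
  calc _ ≤ (Real.exp (q * (s - 1))) ^ M := pow_le_pow_left₀ h4 h2 M
    _ = _ := by rw [← Real.exp_nat_mul, mul_assoc]

/-- **Lower tail for a fixed set.** `|Q| ≥ q T`, `0 < s ≤ 1`. Proof: Markov for `s ^ (∑ Z ∈ Q, μ Z)`,
`(1 - (|Q| / T) (1 - s))^M ≤ exp (- M q (1 - s))`. -/
theorem PM_lower (r M : ℕ) (hT : 0 < (Er r n).card) (q s : ℝ) (hs : 0 < s) (hs1 : s ≤ 1)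
    (Q : Finset (Finset (Fin n))) (hQ : Q ⊆ Er r n) (hcard : q * (Er r n).card ≤ (Q.card : ℝ))
    (x : ℝ) :
    PM r n M (fun μ => ∑ Z ∈ Q, (μ Z : ℝ) ≤ x) ≤
      Real.exp (-(x * Real.log s)) * Real.exp (-(M * q * (1 - s))) := by
  classical
  have hT' : (0 : ℝ) < (Er r n).card := by exact_mod_cast hT
  have h1 := PM_markov (n := n) r M (fun μ => ∑ Z ∈ Q, (μ Z : ℝ) ≤ x)
    (fun μ => ∏ Z ∈ Er r n, (if Z ∈ Q then s else 1) ^ μ Z) (Real.exp (x * Real.log s))
    (Real.exp_pos _) (fun μ _ => by rw [prod_ite_eq Q hQ s hs μ]; exact (Real.exp_pos _).le)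
    (fun μ _ h => by
      rw [prod_ite_eq Q hQ s hs μ]
      exact Real.exp_le_exp.2 (mul_le_mul_of_nonpos_right h (Real.log_nonpos hs.le hs1)))
  refine h1.trans ?_
  rw [EM_prod, sum_ite_eq Q hQ s, Real.exp_neg (x * Real.log s), inv_mul_eq_div]
  apply div_le_div_of_nonneg_right _ (Real.exp_pos _).le
  have h2 : (((Er r n).card : ℝ) + Q.card * (s - 1)) / (Er r n).card ≤
      Real.exp (-(q * (1 - s))) := by
    have h3 : (((Er r n).card : ℝ) + Q.card * (s - 1)) / (Er r n).card ≤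
        -(q * (1 - s)) + 1 := by
      rw [div_le_iff₀ hT']
      nlinarith [mul_le_mul_of_nonneg_right hcard (sub_nonneg.2 hs1)]
    exact h3.trans (Real.add_one_le_exp _)
  have h4 : (0 : ℝ) ≤ (((Er r n).card : ℝ) + Q.card * (s - 1)) / (Er r n).card := by
    apply div_nonneg _ hT'.le
    rw [← sum_ite_eq Q hQ s]
    exact Finset.sum_nonneg fun Z _ => by split_ifs <;> linarith
  calc _ ≤ (Real.exp (-(q * (1 - s)))) ^ M := pow_le_pow_left₀ h4 h2 M
    _ = _ := by rw [← Real.exp_nat_mul]; congr 1; ring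

end Pool.Agent.LHam
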