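import Pool.Agent.LHam.D3Count
import Pool.Agent.LHam.P2Dep

set_option autoImplicit false

/-! D4. The links of vertices outside `U`. -/

namespace Pool.Agent.LHam

open Finset

variable {n : ℕ}

/-- Adding an `r`-set which is not a subset of `U` does not change `Gd`. (`Psi_congr`.) -/
theorem Gd_up (r : ℕ) (hr : 3 ≤ r) (μ : Mu n) (Z : Finset (Fin n)) (U : Finset (Fin n))
    (hZ : ¬ Z ⊆ U) (c d w : Fin n) (c₁ : ℝ) (bl : List (Finset (Fin n))) :
    Gd r (toR (up μ Z)) U c d w c₁ bl ↔ Gd r (toR μ) U c d w c₁ bl := by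
  have h : ∀ Y : Finset (Fin n), Y ⊆ U → toR (up μ Z) Y = toR μ Y := by
    intro Y hY
    unfold toR up
    have hne : Y ≠ Z := by
      rintro rfl
      exact hZ hY
    rw [Function.update_of_ne hne]
  unfold Gd
  rw [Psi_congr r hr _ _ U h c d ∅, Psi_congr r hr _ _ U h c d (Zsj w bl (r - 1))]

open Classical in
/-- **The link event has small probability.** `x ∉ U`; `l` is good for `k + 1` choices, but the edges
`{x} ∪ β` with `l ++ [β]` not good for `k` choices have total multiplicity `≥ m₀`.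

Proof. `PM_dep` with `C = {Z ∈ Er | x ∈ Z}`, `Q μ = {Z ∈ C | ¬ Tg .. k (l ++ [Z.erase x])}` if
`Tg .. (k + 1) l` (for `G = Gd r (toR μ) U c d w c₁`) and `∅` otherwise; `hinv` by `Gd_up` (`Z ∋ x` is not a
subset of `U`; `Tg` depends only on `G`); `|Q μ| ≤ X = q T` by the definition of `Tg (k + 1)` (`Z ↦ Z.erase x` is
injective into `Pr`). The sum over `β` is the sum over `Z = insert x β` (for `β ∋ x`, `insert x β = β` is not
in `Er` and `μ` vanishes there at level `M`: use `PM_mono` with `Lv`). -/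
theorem link_prob (r : ℕ) (hr : 3 ≤ r) (M m₀ : ℕ) (U : Finset (Fin n)) (c d w x : Fin n)
    (hx : x ∉ U) (c₁ q : ℝ) (hq : 0 ≤ q) (k : ℕ) (l : List (Finset (Fin n))) :
    PM r n M (fun μ =>
      Tg (Pr r n) (Gd r (toR μ) U c d w c₁) (q * (Er r n).card) (k + 1) l ∧
      m₀ ≤ ∑ β ∈ (Pr r n).filter (fun β => ¬ Tg (Pr r n) (Gd r (toR μ) U c d w c₁)
        (q * (Er r n).card) k (l ++ [β])), μ (insert x β)) ≤ (M * q) ^ m₀ / m₀.factorial := by
  set C := (Er r n).filter (fun Z => x ∈ Z) with hC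
  let G : Mu n → List (Finset (Fin n)) → Prop := fun μ => Gd r (toR μ) U c d w c₁
  let Q : Mu n → Finset (Finset (Fin n)) := fun μ =>
    if Tg (Pr r n) (G μ) (q * (Er r n).card) (k + 1) l then
      C.filter (fun Z => ¬ Tg (Pr r n) (G μ) (q * (Er r n).card) k (l ++ [Z.erase x])) else ∅
  have hG : ∀ μ, ∀ Z ∈ C, G (up μ Z) = G μ := by
    intro μ Z hZ
    funext bl
    exact propext (Gd_up r hr μ Z U (fun h => hx (h (mem_filter.1 hZ).2)) c d w c₁ bl)
  have hinv : ∀ μ, ∀ Z ∈ C, Q (up μ Z) = Q μ := by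
    intro μ Z hZ
    simp only [Q, hG μ Z hZ]
  have hQC : ∀ μ, Q μ ⊆ C := by
    intro μ
    simp only [Q]
    split_ifs with h
    · exact filter_subset _ _
    · exact empty_subset _
  have hcard : ∀ μ, ((Q μ).card : ℝ) ≤ q * (Er r n).card := by
    intro μ
    simp only [Q]
    split_ifs with h
    · refine le_trans ?_ (show (((Pr r n).filter fun β => ¬ Tg (Pr r n) (G μ)
        (q * (Er r n).card) k (l ++ [β])).card : ℝ) ≤ _ from h)
      apply Nat.cast_le.2
      apply Finset.card_le_card_of_injOn (fun Z => Z.erase x)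
      · intro Z hZ
        obtain ⟨h1, h2⟩ := mem_filter.1 (mem_coe.1 hZ)
        obtain ⟨h3, h4⟩ := mem_filter.1 h1
        refine mem_coe.2 (mem_filter.2 ⟨?_, h2⟩)
        unfold Er at h3
        rw [mem_powersetCard] at h3
        unfold Pr
        rw [mem_powersetCard, card_erase_of_mem h4, h3.2]
        exact ⟨subset_univ _, rfl⟩
      · intro Z hZ Z' hZ' he
        have h4 := (mem_filter.1 (mem_filter.1 (mem_coe.1 hZ)).1).2
        have h4' := (mem_filter.1 (mem_filter.1 (mem_coe.1 hZ')).1).2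
        have he' : Z.erase x = Z'.erase x := he
        rw [← insert_erase h4, ← insert_erase h4', he']
    · rw [card_empty, Nat.cast_zero]
      exact mul_nonneg hq (Nat.cast_nonneg _)
  refine le_trans ?_ (PM_dep r M m₀ q hq C (filter_subset _ _) Q hQC hinv hcard)
  apply PM_mono
  rintro μ hμ ⟨h1, h2⟩
  refine h2.trans ?_
  have h3 : ∑ β ∈ ((Pr r n).filter (fun β => ¬ Tg (Pr r n) (G μ)
      (q * (Er r n).card) k (l ++ [β]))).filter (fun β => x ∉ β), μ (insert x β) =
      ∑ β ∈ (Pr r n).filter (fun β => ¬ Tg (Pr r n) (G μ)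
      (q * (Er r n).card) k (l ++ [β])), μ (insert x β) := by
    apply Finset.sum_filter_of_ne
    intro β hβ h4 h5
    apply h4
    rw [insert_eq_of_mem h5]
    apply hμ.1
    intro h6
    have h7 := (mem_filter.1 hβ).1
    unfold Er at h6
    unfold Pr at h7
    rw [mem_powersetCard] at h6 h7
    omega
  rw [← h3, ← Finset.sum_image (f := μ) (g := fun β => insert x β)]
  · apply Finset.sum_le_sum_of_subset
    intro Z hZ
    obtain ⟨β, hβ, rfl⟩ := mem_image.1 hZ
    obtain ⟨hβ1, hβ2⟩ := mem_filter.1 hβ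
    obtain ⟨hβ3, hβ4⟩ := mem_filter.1 hβ1
    simp only [Q]
    rw [if_pos h1]
    refine mem_filter.2 ⟨mem_filter.2 ⟨?_, mem_insert_self _ _⟩, ?_⟩
    · unfold Pr at hβ3
      rw [mem_powersetCard] at hβ3
      unfold Er
      rw [mem_powersetCard, card_insert_of_notMem hβ2]
      refine ⟨subset_univ _, ?_⟩
      omega
    · rw [erase_insert hβ2]
      exact hβ4
  · intro β hβ β' hβ' he
    have h4 := (mem_filter.1 (mem_coe.1 hβ)).2
    have h4' := (mem_filter.1 (mem_coe.1 hβ')).2
    have he' : insert x β = insert x β' := he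
    rw [← erase_insert h4, ← erase_insert h4', he']

/-- The total multiplicity of the link is the degree. -/
theorem link_total (r M : ℕ) (hr : 3 ≤ r) (μ : Mu n) (hμ : Lv r n M μ) (x : Fin n) :
    ∑ β ∈ Pr r n, (μ (insert x β) : ℝ) = deg r (toR μ) x := by
  classical
  have h3 : ∑ β ∈ (Pr r n).filter (fun β => x ∉ β), (μ (insert x β) : ℝ) =
      ∑ β ∈ Pr r n, (μ (insert x β) : ℝ) := by
    apply Finset.sum_filter_of_ne
    intro β h7 h4 h5
    apply h4
    rw [insert_eq_of_mem h5, hμ.1, Nat.cast_zero]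
    intro h6
    unfold Er at h6
    unfold Pr at h7
    rw [mem_powersetCard] at h6 h7
    omega
  rw [← h3, ← Finset.sum_image (f := fun Z => (μ Z : ℝ)) (g := fun β => insert x β)]
  · unfold deg
    refine Finset.sum_congr ?_ fun Z _ => rfl
    ext Z
    constructor
    · intro hZ
      obtain ⟨β, hβ, rfl⟩ := mem_image.1 hZ
      obtain ⟨hβ1, hβ2⟩ := mem_filter.1 hβ
      refine mem_filter.2 ⟨?_, mem_insert_self _ _⟩
      unfold Pr at hβ1
      rw [mem_powersetCard] at hβ1
      unfold Er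
      rw [mem_powersetCard, card_insert_of_notMem hβ2]
      refine ⟨subset_univ _, ?_⟩
      omega
    · intro hZ
      obtain ⟨h1, h2⟩ := mem_filter.1 hZ
      refine mem_image.2 ⟨Z.erase x, mem_filter.2 ⟨?_, notMem_erase _ _⟩, insert_erase h2⟩
      unfold Er at h1
      rw [mem_powersetCard] at h1
      unfold Pr
      rw [mem_powersetCard, card_erase_of_mem h2, h1.2]
      exact ⟨subset_univ _, rfl⟩
  · intro β hβ β' hβ' he
    have h4 := (mem_filter.1 (mem_coe.1 hβ)).2
    have h4' := (mem_filter.1 (mem_coe.1 hβ')).2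
    have he' : insert x β = insert x β' := he
    rw [← erase_insert h4, ← erase_insert h4', he']

/-- **Numerical bound**: `q = φ n^(r-1) / T`, `m₀ = ⌈δ D / 2⌉`, `D = r M / n ≥ log n`. For `φ` small (depending
on `r`, `δ`, `C₁`) and `n` large `(M q)^m₀ / m₀! ≤ exp (-C₁ log n)`.

Proof. `m₀! ≥ (m₀ / e)^m₀`, `T = binom(n, r) ≥ n^r / (2 r!)` for `n` large, so `M q ≤ 2 (r-1)! φ D`,
`e M q / m₀ ≤ 4 e (r-1)! φ / δ = exp (-2 C₁ / δ)` for the right `φ`, and `m₀ ≥ δ D / 2`. -/
theorem link_num (r : ℕ) (hr : 3 ≤ r) (δ C₁ : ℝ) (hδ : 0 < δ) (hC : 0 < C₁) :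
    ∃ φ : ℝ, 0 < φ ∧ φ ≤ 1 ∧ ∃ n₀ : ℕ, ∀ n ≥ n₀, ∀ M : ℕ, Real.log n ≤ (r : ℝ) * M / n →
      (M * (φ * (n : ℝ) ^ (r - 1) / (Er r n).card)) ^ (⌈δ * ((r : ℝ) * M / n) / 2⌉₊) /
        (⌈δ * ((r : ℝ) * M / n) / 2⌉₊).factorial ≤ Real.exp (-(C₁ * Real.log n)) := by
  set ψ : ℝ := Real.exp (-(2 * C₁ / δ)) * δ / (4 * Real.exp 1 * r.factorial) with hψ
  have hrf : (0 : ℝ) < (r.factorial : ℝ) := by exact_mod_cast Nat.factorial_pos _
  have hr0 : (0 : ℝ) < r := by exact_mod_cast (by omega : 0 < r)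
  have hψ0 : 0 < ψ := by positivity
  refine ⟨min 1 ψ, lt_min one_pos hψ0, min_le_left _ _, 2 * r ^ 2 + 2, fun n hn M hM => ?_⟩
  set φ := min 1 ψ with hφ
  have hφ0 : 0 < φ := lt_min one_pos hψ0
  have hn1 : 1 < n := by omega
  have hn0 : (0 : ℝ) < n := by exact_mod_cast (by omega : 0 < n)
  have hlog : 0 < Real.log n := Real.log_pos (by exact_mod_cast hn1)
  set D : ℝ := (r : ℝ) * M / n with hD
  have hD0 : 0 < D := hlog.trans_le hM
  set m := ⌈δ * D / 2⌉₊ with hm
  have hmge : δ * D / 2 ≤ m := Nat.le_ceil _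
  have hm0 : (0 : ℝ) < m := lt_of_lt_of_le (by positivity) hmge
  have hchoose : (n : ℝ) ^ r / (2 * r.factorial) ≤ ((Er r n).card : ℝ) := by
    rw [card_Er]
    have h1 : ((n + 1 - r) ^ r : ℕ) ≤ r.factorial * n.choose r := by
      rw [← Nat.descFactorial_eq_factorial_mul_choose]
      exact Nat.pow_sub_le_descFactorial n r
    have hrn : r ≤ n := by nlinarith
    have h2 : (((n + 1 - r : ℕ) : ℝ)) = n + 1 - r := by
      rw [Nat.cast_sub (by omega)]
      push_cast
      ring
    have h3 : ((n : ℝ) + 1 - r) ^ r ≤ r.factorial * (n.choose r : ℝ) := by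
      rw [← h2]
      exact_mod_cast h1
    have h4 : (1 : ℝ) + r * (-(r / n)) ≤ (1 + (-(r / n))) ^ r := by
      apply one_add_mul_le_pow
      have : (r : ℝ) / n ≤ 1 := by
        rw [div_le_one hn0]
        exact_mod_cast hrn
      linarith
    have h5 : (r : ℝ) * (r / n) ≤ 1 / 2 := by
      rw [← mul_div_assoc, div_le_div_iff₀ hn0 (by norm_num)]
      have : ((2 * r ^ 2 + 2 : ℕ) : ℝ) ≤ n := by exact_mod_cast hn
      push_cast at this
      nlinarith
    have h6 : (n : ℝ) ^ r * (1 / 2) ≤ ((n : ℝ) + 1 - r) ^ r := by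
      calc (n : ℝ) ^ r * (1 / 2) ≤ (n : ℝ) ^ r * (1 + (-(r / n))) ^ r := by
            apply mul_le_mul_of_nonneg_left _ (by positivity)
            linarith
        _ = ((n : ℝ) * (1 + (-(r / n)))) ^ r := (mul_pow _ _ _).symm
        _ ≤ ((n : ℝ) + 1 - r) ^ r := by
            have h7 : (n : ℝ) * (1 + (-(r / n))) = n - r := by
              field_simp
              ring
            rw [h7]
            apply pow_le_pow_left₀
            · have : (r : ℝ) ≤ n := by exact_mod_cast hrn
              linarith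
            · linarith
    rw [div_le_iff₀ (by positivity)]
    nlinarith
  have hE0 : (0 : ℝ) < ((Er r n).card : ℝ) := lt_of_lt_of_le (by positivity) hchoose
  set X : ℝ := M * (φ * (n : ℝ) ^ (r - 1) / (Er r n).card) with hX
  have hX0 : 0 ≤ X := by positivity
  have hXle : X ≤ 2 * r.factorial * φ * D := by
    have h1 : φ * (n : ℝ) ^ (r - 1) / (Er r n).card ≤ φ * (2 * r.factorial) / n := by
      rw [div_le_div_iff₀ hE0 hn0]
      have h2 : (n : ℝ) ^ (r - 1) * n = (n : ℝ) ^ r := by
        rw [← pow_succ]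
        congr 1
        omega
      rw [div_le_iff₀ (by positivity)] at hchoose
      calc φ * (n : ℝ) ^ (r - 1) * n = φ * (n : ℝ) ^ r := by rw [mul_assoc, h2]
        _ ≤ φ * (((Er r n).card : ℝ) * (2 * r.factorial)) :=
            mul_le_mul_of_nonneg_left hchoose hφ0.le
        _ = _ := by ring
    calc X ≤ M * (φ * (2 * r.factorial) / n) :=
          mul_le_mul_of_nonneg_left h1 (Nat.cast_nonneg _)
      _ = (2 * r.factorial * φ) * (M / n) := by ring
      _ ≤ (2 * r.factorial * φ) * D := by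
          apply mul_le_mul_of_nonneg_left _ (by positivity)
          rw [hD]
          apply div_le_div_of_nonneg_right _ hn0.le
          have : (1 : ℝ) ≤ r := by exact_mod_cast (by omega : 1 ≤ r)
          nlinarith [Nat.cast_nonneg (α := ℝ) M]
  have hratio : X / m * Real.exp 1 ≤ Real.exp (-(2 * C₁ / δ)) := by
    have h1 : X / m ≤ 2 * r.factorial * φ * D / (δ * D / 2) :=
      div_le_div₀ (by positivity) hXle (by positivity) hmge
    have h2 : 2 * r.factorial * φ * D / (δ * D / 2) = 4 * r.factorial * φ / δ := by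
      field_simp
      ring
    have h3 : φ ≤ ψ := min_le_right _ _
    calc X / m * Real.exp 1 ≤ 4 * r.factorial * φ / δ * Real.exp 1 := by
          rw [← h2]
          exact mul_le_mul_of_nonneg_right h1 (Real.exp_pos _).le
      _ ≤ 4 * r.factorial * ψ / δ * Real.exp 1 := by
          apply mul_le_mul_of_nonneg_right _ (Real.exp_pos _).le
          apply div_le_div_of_nonneg_right _ hδ.le
          exact mul_le_mul_of_nonneg_left h3 (by positivity)
      _ = Real.exp (-(2 * C₁ / δ)) := by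
          rw [hψ]
          have := Real.exp_pos 1
          field_simp
  have hfac : (m : ℝ) ^ m / m.factorial ≤ Real.exp m :=
    Real.pow_div_factorial_le_exp (m : ℝ) (Nat.cast_nonneg _) m
  calc X ^ m / m.factorial = (X / m) ^ m * ((m : ℝ) ^ m / m.factorial) := by
        rw [div_pow]
        field_simp
    _ ≤ (X / m) ^ m * Real.exp m := mul_le_mul_of_nonneg_left hfac (by positivity)
    _ = (X / m * Real.exp 1) ^ m := by
        rw [mul_pow, ← Real.exp_nat_mul, mul_one]
    _ ≤ (Real.exp (-(2 * C₁ / δ))) ^ m :=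
        pow_le_pow_left₀ (mul_nonneg (by positivity) (Real.exp_pos _).le) hratio m
    _ = Real.exp (m * (-(2 * C₁ / δ))) := (Real.exp_nat_mul _ _).symm
    _ ≤ Real.exp (-(C₁ * Real.log n)) := by
        apply Real.exp_le_exp.2
        have h1 : C₁ * Real.log n ≤ C₁ * D := mul_le_mul_of_nonneg_left hM hC.le
        have h2 : C₁ * D = δ * D / 2 * (2 * C₁ / δ) := by
          field_simp
        have h3 : δ * D / 2 * (2 * C₁ / δ) ≤ m * (2 * C₁ / δ) :=
          mul_le_mul_of_nonneg_right hmge (by positivity)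
        linarith

end Pool.Agent.LHam
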