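import Pool.Agent.LHam.D3Count

set_option autoImplicit false

/-! D6. Lemma G: definitions of the events. -/

namespace Pool.Agent.LHam

open Finset

variable {n : ℕ}

/-- The flatness event for all `(U, c, d, Zs)`. -/
def FlatAll (r : ℕ) (θ ρ x₀ : ℝ) (μ : Mu n) : Prop :=
  ∀ (U : Finset (Fin n)) (c d : Fin n) (Zs : Finset (OE n)), U.card + (3 * r - 4) = n →
    Zs.card ≤ r → x₀ ≤ Psi r (toR μ) U c d Zs → ∀ B : Finset (Finset (Fin n)),
    (∀ Z ∈ B, Z ∈ Er r n ∧ Bad r U c d Zs (ρ * Psi r (toR μ) U c d Zs) μ Z) →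
    (B.card : ℝ) ≤ θ * (Er r n).card

open Classical in
/-- The link event for all `(U, c, d, w, x, l, k)`. -/
def LinkAll (r : ℕ) (c₁ X m₀ : ℝ) (μ : Mu n) : Prop :=
  ∀ (U : Finset (Fin n)) (c d w x : Fin n) (k : ℕ) (l : List (Finset (Fin n))), x ∉ U →
    U.card + (3 * r - 4) = n → (∀ β ∈ l, β ∈ Pr r n) → l.length + (k + 1) = r →
    Tg (Pr r n) (Gd r (toR μ) U c d w c₁) X (k + 1) l →
    ∑ β ∈ (Pr r n).filter (fun β => ¬ Tg (Pr r n) (Gd r (toR μ) U c d w c₁) X k (l ++ [β])),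
      (μ (insert x β) : ℝ) ≤ m₀

end Pool.Agent.LHam
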