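import Pool.Agent.LHam.D6Defs
import Pool.Agent.LHam.C4Flat

set_option autoImplicit false

/-! D6b. The flatness event for all `(U, c, d, Zs)`. -/

namespace Pool.Agent.LHam

open Finset

/-- The oriented edges with `r - 2` inner vertices. -/
private def d6bO (r n : ℕ) : Finset (OE n) := univ.filter fun o => o.J.card = r - 2

private theorem d6b_cardO (r n : ℕ) (hr : 3 ≤ r) : (d6bO r n).card ≤ n ^ r := by
  have h1 : (d6bO r n).card ≤ ((univ : Finset (Fin n)) ×ˢ
      (powersetCard (r - 2) (univ : Finset (Fin n)) ×ˢ (univ : Finset (Fin n)))).card := by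
    refine card_le_card_of_injOn (fun o => (o.x, o.J, o.y)) ?_ ?_
    · intro o ho
      have h2 : o.J.card = r - 2 := (mem_filter.1 (mem_coe.1 ho)).2
      exact mem_coe.2 (mem_product.2 ⟨mem_univ _, mem_product.2
        ⟨mem_powersetCard.2 ⟨subset_univ _, h2⟩, mem_univ _⟩⟩)
    · intro o _ o' _ h
      have h1 := congrArg Prod.fst h
      have h2 := congrArg (fun q : Fin n × Finset (Fin n) × Fin n => q.2.1) h
      have h3 := congrArg (fun q : Fin n × Finset (Fin n) × Fin n => q.2.2) h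
      exact OE.ext h1 h2 h3
  refine h1.trans ?_
  rw [card_product, card_product, card_powersetCard, card_univ, Fintype.card_fin]
  have h2 : n.choose (r - 2) ≤ n ^ (r - 2) := Nat.choose_le_pow n (r - 2)
  calc n * (n.choose (r - 2) * n) ≤ n * (n ^ (r - 2) * n) :=
        Nat.mul_le_mul_left _ (Nat.mul_le_mul_right _ h2)
    _ = n ^ (r - 2 + 2) := by ring
    _ = n ^ r := by congr 1; omega

/-- The small subsets. -/
private def d6bZ (r n : ℕ) : Finset (Finset (OE n)) :=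
  (d6bO r n).powerset.filter fun Zs => Zs.card ≤ r

private theorem d6b_cardZ (r n : ℕ) (hr : 3 ≤ r) (hn : r + 1 ≤ n) :
    (d6bZ r n).card ≤ n ^ (r * r + 1) := by
  have h1 : d6bZ r n ⊆ (range (r + 1)).biUnion fun k => powersetCard k (d6bO r n) := by
    intro Zs h
    obtain ⟨h2, h3⟩ := mem_filter.1 h
    exact mem_biUnion.2 ⟨Zs.card, mem_range.2 (by omega),
      mem_powersetCard.2 ⟨mem_powerset.1 h2, rfl⟩⟩
  refine (card_le_card h1).trans (card_biUnion_le.trans ?_)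
  have h2 : ∀ k ∈ range (r + 1), (powersetCard k (d6bO r n)).card ≤ n ^ (r * r) := by
    intro k hk
    rw [mem_range] at hk
    rw [card_powersetCard]
    refine (Nat.choose_le_pow _ _).trans ?_
    calc (d6bO r n).card ^ k ≤ (n ^ r) ^ k := Nat.pow_le_pow_left (d6b_cardO r n hr) k
      _ ≤ (n ^ r) ^ r := Nat.pow_le_pow_right (Nat.pos_of_ne_zero (by
          have : n ≠ 0 := by omega
          exact pow_ne_zero r this)) (by omega)
      _ = n ^ (r * r) := by rw [← pow_mul]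
  refine (sum_le_card_nsmul _ _ _ h2).trans ?_
  rw [card_range, smul_eq_mul, pow_succ, mul_comm]
  exact Nat.mul_le_mul_left _ hn

private theorem d6b_cardU (r n : ℕ) (hn : 3 * r - 4 ≤ n) :
    (powersetCard (n - (3 * r - 4)) (univ : Finset (Fin n))).card ≤ n ^ (3 * r - 4) := by
  rw [card_powersetCard, card_univ, Fintype.card_fin, Nat.choose_symm hn]
  exact Nat.choose_le_pow n (3 * r - 4)

/-- The index set of the union bound. -/
private def d6bI (r n : ℕ) : Finset (Finset (Fin n) × Fin n × Fin n × Finset (OE n)) :=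
  powersetCard (n - (3 * r - 4)) (univ : Finset (Fin n)) ×ˢ
    ((univ : Finset (Fin n)) ×ˢ ((univ : Finset (Fin n)) ×ˢ d6bZ r n))

private theorem d6b_cardI (r n : ℕ) (hr : 3 ≤ r) (hn : 3 * r ≤ n) :
    (d6bI r n).card ≤ n ^ (10 * r ^ 2 + 10) := by
  unfold d6bI
  rw [card_product, card_product, card_product, card_univ, Fintype.card_fin]
  have h1 := d6b_cardU r n (by omega)
  have h2 := d6b_cardZ r n hr (by omega)
  calc (powersetCard (n - (3 * r - 4)) (univ : Finset (Fin n))).card *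
        (n * (n * (d6bZ r n).card)) ≤ n ^ (3 * r - 4) * (n * (n * n ^ (r * r + 1))) :=
        Nat.mul_le_mul h1 (Nat.mul_le_mul_left _ (Nat.mul_le_mul_left _ h2))
    _ = n ^ (3 * r - 4 + 2 + (r * r + 1)) := by ring
    _ ≤ n ^ (10 * r ^ 2 + 10) := Nat.pow_le_pow_right (by omega) (by
        have h3 : 3 * r ≤ r * r := Nat.mul_le_mul_right r hr
        have h4 : r ^ 2 = r * r := by ring
        omega)

/-- A set `Zs` with positive count consists of oriented edges with `r - 2` inner vertices. -/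
private theorem d6b_mem {n : ℕ} (r : ℕ) (ν : Finset (Fin n) → ℝ) (U : Finset (Fin n))
    (c d : Fin n) (Zs : Finset (OE n)) (h : 0 < Psi r ν U c d Zs) :
    ∀ o ∈ Zs, o.J.card = r - 2 := by
  classical
  unfold Psi at h
  by_contra hne
  push Not at hne
  obtain ⟨o, ho, hJ⟩ := hne
  rw [Finset.sum_eq_zero] at h
  · exact lt_irrefl _ h
  · intro F hF
    exfalso
    obtain ⟨h1, h2⟩ := mem_filter.1 hF
    obtain ⟨-, l, hl, rfl⟩ := mem_filter.1 h1
    exact hJ (hl.2.1 o (List.mem_toFinset.1 (h2 ho)))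

/-- **The flatness event fails with small probability.**

Proof. `flat` with `C₁ + 10 r^2 + 10`. Let `x₀ = exp (-κ n) Bref D > 0`. If `FlatAll` fails for `μ` (regular), there
are `(U, c, d, Zs)` and `B` with `x₀ ≤ Psi (Zs)`, `|B| > θ T`, `B` contained in the set of all bad `Z ∈ Er`; so this set has
more than `θ T` elements and the event of `flat` for `(U, c, d, Zs)` holds. Since `Psi (Zs) ≥ x₀ > 0`, `Zs ⊆ F` for some
`F ∈ PF r U c d`, so all elements of `Zs` have `J.card = r - 2`. Union bound (`PM_exists`) over the quadruples: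
at most `n ^ (3 r - 4)` sets `U` (complements of `(3 r - 4)`-sets), `n ^ 2` pairs `(c, d)`, at most
`(n ^ r + 1) ^ r` sets `Zs` with at most `r` elements, all with `J.card = r - 2` (there are at most `n ^ r` such
oriented edges; `Zs` is the set of entries of a list of length `r` over `Option`). -/
theorem flatAll_prob (r : ℕ) (hr : 3 ≤ r) (θ K C₁ : ℝ) (hθ : 0 < θ) (hθ1 : θ ≤ 1) (hK : 1 ≤ K)
    (hC : 0 < C₁) :
    ∃ κ c₀ η : ℝ, 0 < κ ∧ 0 < c₀ ∧ c₀ ≤ 1 ∧ 0 < η ∧ ∃ n₀ : ℕ, ∀ n ≥ n₀, (r - 1) ∣ n →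
      ∀ M : ℕ, Real.log n ≤ (r : ℝ) * M / n →
        PM r n M (fun μ => Reg r n K η ((r : ℝ) * M / n) (toR μ) ∧
          ¬ FlatAll r θ (c₀ / ((r : ℝ) * M / n))
            (Real.exp (-κ * n) * Bref r n ((r : ℝ) * M / n)) μ) ≤
          Real.exp (-(C₁ * Real.log n)) := by
  classical
  have hC' : 0 < C₁ + ((10 * r ^ 2 + 10 : ℕ) : ℝ) := by positivity
  obtain ⟨κ, c₀, η, hκ, hc₀, hc₁, hη, n₁, h⟩ := flat r hr θ K _ hθ hθ1 hK hC'
  refine ⟨κ, c₀, η, hκ, hc₀, hc₁, hη, max n₁ (3 * r), fun n hn hdvd M hM => ?_⟩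
  have hn1 : n₁ ≤ n := (le_max_left _ _).trans hn
  have hn2 : 3 * r ≤ n := (le_max_right _ _).trans hn
  obtain ⟨D, hD⟩ : ∃ D, D = (r : ℝ) * M / n := ⟨_, rfl⟩
  have hflat := h n hn1 hdvd M hM
  rw [← hD] at hflat ⊢
  have hB : 0 < Real.exp (-κ * n) * Bref r n D := mul_pos (Real.exp_pos _) (Real.exp_pos _)
  have h1 : PM r n M (fun μ => Reg r n K η D (toR μ) ∧
      ¬ FlatAll r θ (c₀ / D) (Real.exp (-κ * n) * Bref r n D) μ) ≤
      PM r n M (fun μ => ∃ q ∈ d6bI r n, Reg r n K η D (toR μ) ∧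
        Real.exp (-κ * n) * Bref r n D ≤ Psi r (toR μ) q.1 q.2.1 q.2.2.1 q.2.2.2 ∧
        θ * (Er r n).card ≤ (((Er r n).filter (fun Z => Bad r q.1 q.2.1 q.2.2.1 q.2.2.2
          (c₀ / D * Psi r (toR μ) q.1 q.2.1 q.2.2.1 q.2.2.2) μ Z)).card : ℝ)) := by
    refine PM_mono r M _ _ fun μ _ hμ => ?_
    obtain ⟨hreg, hnf⟩ := hμ
    unfold FlatAll at hnf
    push Not at hnf
    obtain ⟨U, c, d, Zs, hU, hZs, hPsi, B, hB1, hB2⟩ := hnf
    have hJ := d6b_mem r (toR μ) U c d Zs (hB.trans_le hPsi)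
    refine ⟨(U, c, d, Zs), ?_, hreg, hPsi, ?_⟩
    · have hU1 : U.card = n - (3 * r - 4) := by omega
      refine mem_product.2 ⟨mem_powersetCard.2 ⟨subset_univ _, hU1⟩,
        mem_product.2 ⟨mem_univ _, mem_product.2 ⟨mem_univ _,
          mem_filter.2 ⟨mem_powerset.2 ?_, hZs⟩⟩⟩⟩
      intro o ho
      exact mem_filter.2 ⟨mem_univ _, hJ o ho⟩
    · refine hB2.le.trans ?_
      exact_mod_cast card_le_card fun Z hZ => mem_filter.2 (hB1 Z hZ)
  refine h1.trans ((PM_exists r M (d6bI r n) _).trans ?_)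
  have h2 : ∀ q ∈ d6bI r n, PM r n M (fun μ => Reg r n K η D (toR μ) ∧
        Real.exp (-κ * n) * Bref r n D ≤ Psi r (toR μ) q.1 q.2.1 q.2.2.1 q.2.2.2 ∧
        θ * (Er r n).card ≤ (((Er r n).filter (fun Z => Bad r q.1 q.2.1 q.2.2.1 q.2.2.2
          (c₀ / D * Psi r (toR μ) q.1 q.2.1 q.2.2.1 q.2.2.2) μ Z)).card : ℝ)) ≤
      Real.exp (-((C₁ + ((10 * r ^ 2 + 10 : ℕ) : ℝ)) * Real.log n)) := by
    rintro ⟨U, c, d, Zs⟩ hq
    obtain ⟨hU, hq⟩ := mem_product.1 hq
    obtain ⟨-, hq⟩ := mem_product.1 hq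
    obtain ⟨-, hq⟩ := mem_product.1 hq
    have hU' : U.card = n - (3 * r - 4) := (mem_powersetCard.1 hU).2
    exact hflat U c d Zs (by omega) (mem_filter.1 hq).2
  refine (sum_le_card_nsmul _ _ _ h2).trans ?_
  have hn0 : (0 : ℝ) < n := by
    have : 0 < n := by omega
    exact_mod_cast this
  have h3 : ((d6bI r n).card : ℝ) ≤ Real.exp (((10 * r ^ 2 + 10 : ℕ) : ℝ) * Real.log n) := by
    rw [Real.exp_nat_mul, Real.exp_log hn0]
    exact_mod_cast d6b_cardI r n hr hn2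
  rw [nsmul_eq_mul]
  refine (mul_le_mul_of_nonneg_right h3 (Real.exp_pos _).le).trans (le_of_eq ?_)
  rw [← Real.exp_add]
  congr 1
  ring

end Pool.Agent.LHam
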