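import Pool.Agent.LHam.D6Defs
import Pool.Agent.LHam.D4Link

set_option autoImplicit false

/-! D6c. The link event for all `(U, c, d, w, x, k, l)`. -/

namespace Pool.Agent.LHam

open Finset

/-- the index set of the union bound -/
private def d6cI (r n : ℕ) : Finset ((Finset (Fin n) × Fin n × Fin n × Fin n × Fin n) ×
    (Σ _ : ℕ, List (Finset (Fin n)))) :=
  ((((univ : Finset (Finset (Fin n))).filter fun U => U.card + (3 * r - 4) = n) ×ˢ
    (univ : Finset (Fin n × Fin n × Fin n × Fin n))) ×ˢ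
      ((range r).sigma fun k => Lls (Pr r n) (r - 1 - k))).filter fun i => i.1.2.2.2.2 ∉ i.1.1

open Classical in
/-- the events of the union bound -/
private def d6cA {n : ℕ} (r : ℕ) (c₁ q : ℝ) (m₀ : ℕ)
    (i : (Finset (Fin n) × Fin n × Fin n × Fin n × Fin n) ×
      (Σ _ : ℕ, List (Finset (Fin n)))) (μ : Mu n) : Prop :=
  Tg (Pr r n) (Gd r (toR μ) i.1.1 i.1.2.1 i.1.2.2.1 i.1.2.2.2.1 c₁) (q * (Er r n).card)
    (i.2.1 + 1) i.2.2 ∧
  m₀ ≤ ∑ β ∈ (Pr r n).filter (fun β => ¬ Tg (Pr r n)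
    (Gd r (toR μ) i.1.1 i.1.2.1 i.1.2.2.1 i.1.2.2.2.1 c₁)
    (q * (Er r n).card) i.2.1 (i.2.2 ++ [β])), μ (insert i.1.2.2.2.2 β)

private theorem d6c_card (r n : ℕ) (hr : 3 ≤ r) (hn : r ≤ n) :
    (d6cI r n).card ≤ n ^ ((r + 1) ^ 2) := by
  have hn1 : 1 ≤ n := by omega
  unfold d6cI
  refine (card_filter_le _ _).trans ?_
  rw [card_product, card_product, card_sigma]
  have h1 : ((univ : Finset (Finset (Fin n))).filter fun U => U.card + (3 * r - 4) = n).card ≤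
      n ^ (3 * r - 4) := by
    have h2 : ((univ : Finset (Finset (Fin n))).filter fun U => U.card + (3 * r - 4) = n).card ≤
        (powersetCard (3 * r - 4) (univ : Finset (Fin n))).card := by
      refine card_le_card_of_injOn (fun U => Uᶜ) (fun U hU => ?_) ?_
      · have h3 : U.card + (3 * r - 4) = n := by simpa using hU
        rw [mem_coe, mem_powersetCard, card_compl, Fintype.card_fin]
        exact ⟨subset_univ _, by omega⟩
      · intro U _ V _ hUV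
        exact compl_injective hUV
    refine h2.trans ?_
    rw [card_powersetCard, card_univ, Fintype.card_fin]
    exact Nat.choose_le_pow _ _
  have h4 : (univ : Finset (Fin n × Fin n × Fin n × Fin n)).card = n ^ 4 := by
    rw [card_univ]
    simp only [Fintype.card_prod, Fintype.card_fin]
    ring
  have h5 : ∑ k ∈ range r, (Lls (Pr r n) (r - 1 - k)).card ≤ n * n ^ ((r - 1) * r) := by
    have h6 : ∀ k ∈ range r, (Lls (Pr r n) (r - 1 - k)).card ≤ n ^ ((r - 1) * r) := by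
      intro k _
      rw [card_Lls]
      have h7 : (Pr r n).card ≤ n ^ (r - 1) := by
        unfold Pr
        rw [card_powersetCard, card_univ, Fintype.card_fin]
        exact Nat.choose_le_pow _ _
      calc (Pr r n).card ^ (r - 1 - k) ≤ (n ^ (r - 1)) ^ (r - 1 - k) :=
            Nat.pow_le_pow_left h7 _
        _ ≤ (n ^ (r - 1)) ^ r := Nat.pow_le_pow_right (Nat.pow_pos hn1) (by omega)
        _ = n ^ ((r - 1) * r) := by rw [← pow_mul]
    refine (Finset.sum_le_sum h6).trans ?_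
    rw [Finset.sum_const, card_range, smul_eq_mul]
    exact Nat.mul_le_mul_right _ hn
  rw [h4]
  calc _ ≤ n ^ (3 * r - 4) * n ^ 4 * (n * n ^ ((r - 1) * r)) :=
        Nat.mul_le_mul (Nat.mul_le_mul_right _ h1) h5
    _ = n ^ ((r + 1) ^ 2) := by
        rw [← pow_add, ← pow_succ', ← pow_add]
        congr 1
        obtain ⟨t, rfl⟩ : ∃ t, r = t + 3 := ⟨r - 3, by omega⟩
        have e1 : 3 * (t + 3) - 4 = 3 * t + 5 := by omega
        have e2 : t + 3 - 1 = t + 2 := by omega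
        rw [e1, e2]
        ring

/-- **The link event fails with small probability.**

Proof. `φ` from `link_num` with `C₁ + 4 r ^ 2 + 10`; `q = φ n^(r-1) / T` (so `q T = φ n^(r-1)`, `T > 0`),
`m₀ = ⌈δ D / 2⌉₊`. If `LinkAll` fails, there is `(U, c, d, w, x, k, l)` with `Tg (k + 1) l` and the sum (a natural
number) `> δ D / 2 + 1`, so `≥ m₀`: the event of `link_prob`. Union bound (`PM_exists`) over at most
`n^(3r-4) * n^4 * r * n^((r-1) r)` tuples (`k < r`, `l ∈ Lls (Pr r n) (r - 1 - k)`, `U` the complement of a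
`(3 r - 4)`-set). -/
theorem linkAll_prob (r : ℕ) (hr : 3 ≤ r) (δ C₁ : ℝ) (hδ : 0 < δ) (hC : 0 < C₁) :
    ∃ φ : ℝ, 0 < φ ∧ φ ≤ 1 ∧ ∃ n₀ : ℕ, ∀ n ≥ n₀, ∀ M : ℕ, Real.log n ≤ (r : ℝ) * M / n →
      ∀ c₁ : ℝ, PM r n M (fun μ => ¬ LinkAll r c₁ (φ * (n : ℝ) ^ (r - 1))
        (δ * ((r : ℝ) * M / n) / 2 + 1) μ) ≤ Real.exp (-(C₁ * Real.log n)) := by
  classical
  obtain ⟨φ, hφ, hφ1, n₀, h⟩ := link_num r hr δ (C₁ + ((r + 1) ^ 2 : ℕ)) hδ (by positivity)
  refine ⟨φ, hφ, hφ1, max n₀ r, fun n hn M hM c₁ => ?_⟩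
  have hn0 : n₀ ≤ n := (le_max_left _ _).trans hn
  have hnr : r ≤ n := (le_max_right _ _).trans hn
  have hn1 : 1 ≤ n := by omega
  have hT : (0 : ℝ) < (Er r n).card := by
    have h1 : 0 < (Er r n).card := by
      unfold Er
      rw [card_powersetCard, card_univ, Fintype.card_fin]
      exact Nat.choose_pos hnr
    exact_mod_cast h1
  have hnum := h n hn0 M hM
  obtain ⟨q, hq⟩ : ∃ q : ℝ, q = φ * (n : ℝ) ^ (r - 1) / (Er r n).card := ⟨_, rfl⟩
  obtain ⟨m₀, hm₀⟩ : ∃ m₀ : ℕ, m₀ = ⌈δ * ((r : ℝ) * M / n) / 2⌉₊ := ⟨_, rfl⟩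
  rw [← hq, ← hm₀] at hnum
  have hq0 : 0 ≤ q := by rw [hq]; positivity
  have hqT : q * (Er r n).card = φ * (n : ℝ) ^ (r - 1) := by
    rw [hq, div_mul_cancel₀ _ hT.ne']
  have h1 : PM r n M (fun μ => ¬ LinkAll r c₁ (φ * (n : ℝ) ^ (r - 1))
      (δ * ((r : ℝ) * M / n) / 2 + 1) μ) ≤
      PM r n M (fun μ => ∃ i ∈ d6cI r n, d6cA r c₁ q m₀ i μ) := by
    refine PM_mono r M _ _ fun μ _ hμ => ?_
    unfold LinkAll at hμ
    push Not at hμ
    obtain ⟨U, c, d, w, x, k, l, hx, hU, hl, hlen, hTg, hsum⟩ := hμ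
    refine ⟨((U, c, d, w, x), ⟨k, l⟩), ?_, ?_, ?_⟩
    · unfold d6cI
      rw [mem_filter, mem_product, mem_product, mem_filter, mem_sigma, mem_range, mem_Lls]
      have hk1 : k < r := by omega
      have hk2 : l.length = r - 1 - k := by omega
      exact ⟨⟨⟨⟨mem_univ _, hU⟩, mem_univ _⟩, hk1, hk2, hl⟩, hx⟩
    · rw [← hqT] at hTg
      exact hTg
    · rw [hm₀, Nat.ceil_le]
      rw [← hqT] at hsum
      push_cast
      linarith
  refine h1.trans ((PM_exists r M _ _).trans ?_)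
  have h2 : ∀ i ∈ d6cI r n, PM r n M (d6cA r c₁ q m₀ i) ≤
      Real.exp (-((C₁ + ((r + 1) ^ 2 : ℕ)) * Real.log n)) := by
    intro i hi
    have hx : i.1.2.2.2.2 ∉ i.1.1 := (mem_filter.1 hi).2
    exact (link_prob r hr M m₀ i.1.1 i.1.2.1 i.1.2.2.1 i.1.2.2.2.1 i.1.2.2.2.2 hx c₁ q hq0
      i.2.1 i.2.2).trans hnum
  refine (Finset.sum_le_sum h2).trans ?_
  rw [Finset.sum_const, nsmul_eq_mul]
  have h3 : ((d6cI r n).card : ℝ) ≤ (n : ℝ) ^ ((r + 1) ^ 2) := by
    exact_mod_cast d6c_card r n hr hnr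
  have hnp : (0 : ℝ) < n := by exact_mod_cast hn1
  have h4 : (n : ℝ) ^ ((r + 1) ^ 2) = Real.exp (((r + 1) ^ 2 : ℕ) * Real.log n) := by
    rw [mul_comm, Real.exp_mul, Real.exp_log hnp, Real.rpow_natCast]
  calc ((d6cI r n).card : ℝ) * Real.exp (-((C₁ + ((r + 1) ^ 2 : ℕ)) * Real.log n))
      ≤ Real.exp (((r + 1) ^ 2 : ℕ) * Real.log n) *
        Real.exp (-((C₁ + ((r + 1) ^ 2 : ℕ)) * Real.log n)) :=
        mul_le_mul_of_nonneg_right (h3.trans h4.le) (Real.exp_pos _).le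
    _ = Real.exp (-(C₁ * Real.log n)) := by
        rw [← Real.exp_add]
        congr 1
        ring

end Pool.Agent.LHam
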