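import Pool.Agent.LHam.D6aDet
import Pool.Agent.LHam.D6bFlat
import Pool.Agent.LHam.D6cLink

set_option autoImplicit false

/-! D6. Lemma G: the marginals. -/

namespace Pool.Agent.LHam

open Finset

private theorem ev_pow_exp (k : ℕ) (c ε : ℝ) (hc : 0 < c) (hε : 0 < ε) :
    ∀ᶠ n : ℕ in Filter.atTop, (n : ℝ) ^ k * Real.exp (-(c * n)) ≤ ε := by
  have h1 := Real.tendsto_pow_mul_exp_neg_atTop_nhds_zero k
  have h2 : Filter.Tendsto (fun n : ℕ => c * (n : ℝ)) Filter.atTop Filter.atTop :=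
    (tendsto_natCast_atTop_atTop).const_mul_atTop hc
  have h3 := (h1.comp h2).const_mul ((c ^ k)⁻¹)
  rw [mul_zero] at h3
  filter_upwards [h3.eventually (ge_mem_nhds hε)] with n hn
  have h4 : (c ^ k)⁻¹ * (((fun x : ℝ => x ^ k * Real.exp (-x)) ∘ fun n : ℕ => c * (n : ℝ)) n) =
      (n : ℝ) ^ k * Real.exp (-(c * n)) := by
    simp only [Function.comp_apply, mul_pow]
    have : c ^ k ≠ 0 := (pow_pos hc k).ne'
    field_simp
  rw [← h4]
  exact hn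

/-- **Lemma G.** Proof. Constants: `φ` from `linkAll_prob` (for `δ`, `C₁ + 1`), `θ = φ^r / (4 r)`, `κ_F`, `c₀`,
`η` from `flatAll_prob` (for `θ`, `K`, `C₁ + 1`), `κ = κ_F / 8`, `K₁ = 1 + 4^r / (δ^r c₀^(r-1))`. For `D = r M / n`,
`ρ = c₀ / D ≤ 1` (`D ≥ log n ≥ 1`), `x₀ = exp (-κ_F n) Bref D`, `x₁ = exp (-κ_F n / 2) Bref D` (`x₀ ≤ ρ^r x₁` since
`D ≤ n^(r+1)`, `n` large), `4 r^2 / n < φ^r / 2`, `δ D ≥ 8` for `n` large. Outside the events `Reg ∧ ¬ FlatAll` and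
`¬ LinkAll` (with `c₁ = ρ^(r-1)`), `marg_det` gives, for all proper `o`,
`Psi ≤ 4^r / (δ^r c₀^(r-1)) Phi / D + (n^r M)^2 x₁` and `(n^r M)^2 x₁ ≤ exp (-κ n) Bref D / D ≤ Phi / D` for `n`
large (`M = n D / r ≤ n^(r+2)`), so `Psi ≤ (K₁ / D) Phi`. The two probabilities are `≤ exp (-(C₁ + 1) log n)`, their
sum is `≤ exp (-C₁ log n)`. -/
theorem marg (r : ℕ) (hr : 3 ≤ r) (δ K C₁ : ℝ) (hδ : 0 < δ) (hK : 1 ≤ K) (hC : 0 < C₁) :
    ∃ K₁ κ η : ℝ, 0 < K₁ ∧ 0 < κ ∧ 0 < η ∧ ∃ n₀ : ℕ, ∀ n ≥ n₀, (r - 1) ∣ n → ∀ M : ℕ,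
      Real.log n ≤ (r : ℝ) * M / n → (r : ℝ) * M / n ≤ (n : ℝ) ^ (r + 1) →
      PM r n M (fun μ => Reg r n K η ((r : ℝ) * M / n) (toR μ) ∧
        (∀ v, δ * ((r : ℝ) * M / n) ≤ deg r (toR μ) v) ∧
        Real.exp (-κ * n) * Bref r n ((r : ℝ) * M / n) ≤ Phi r (toR μ) ∧
        ∃ o : OE n, o.Ok r ∧
          K₁ / ((r : ℝ) * M / n) * Phi r (toR μ) < Psi r (toR μ) (univ \ o.J) o.y o.x ∅) ≤
        Real.exp (-(C₁ * Real.log n)) := by
  obtain ⟨φ, hφ, hφ1, n₁, hlk⟩ := linkAll_prob r hr δ (C₁ + 1) hδ (by linarith)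
  have hr0 : (0 : ℝ) < r := by
    have : 0 < r := by omega
    exact_mod_cast this
  have hr1 : (1 : ℝ) ≤ r := by
    have : 1 ≤ r := by omega
    exact_mod_cast this
  have hφr : 0 < φ ^ r := pow_pos hφ r
  have hφr1 : φ ^ r ≤ 1 := pow_le_one₀ hφ.le hφ1
  have hθ : 0 < φ ^ r / (4 * r) := by positivity
  have hθ1 : φ ^ r / (4 * r) ≤ 1 := by
    rw [div_le_one (by positivity)]
    linarith
  obtain ⟨κF, c₀, η, hκ, hc, hc1, hη, n₂, hfl⟩ :=
    flatAll_prob r hr (φ ^ r / (4 * r)) K (C₁ + 1) hθ hθ1 hK (by linarith)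
  have hc₀r : 0 < c₀ ^ r := pow_pos hc r
  have hK₀ : 0 < 4 ^ r / (δ ^ r * c₀ ^ (r - 1)) := by positivity
  have hlog : Filter.Tendsto (fun n : ℕ => Real.log (n : ℝ)) Filter.atTop Filter.atTop :=
    Real.tendsto_log_atTop.comp tendsto_natCast_atTop_atTop
  have hinv : Filter.Tendsto (fun n : ℕ => 4 * (r : ℝ) ^ 2 / (n : ℝ)) Filter.atTop (nhds 0) :=
    tendsto_const_div_atTop_nhds_zero_nat _
  have hev : ∀ᶠ n : ℕ in Filter.atTop,
      (n : ℝ) ^ (r * (r + 1)) * Real.exp (-(κF / 2 * n)) ≤ c₀ ^ r ∧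
      (n : ℝ) ^ (5 * r + 5) * Real.exp (-(3 * κF / 8 * n)) ≤ 1 ∧
      4 * (r : ℝ) ^ 2 / (n : ℝ) < 3 / 4 * φ ^ r ∧ 8 / δ ≤ Real.log n ∧ 1 ≤ Real.log n ∧
      4 * (r - 1) ≤ n ∧ 2 ≤ n ∧ n₁ ≤ n ∧ n₂ ≤ n := by
    filter_upwards [ev_pow_exp (r * (r + 1)) (κF / 2) (c₀ ^ r) (by positivity) hc₀r,
      ev_pow_exp (5 * r + 5) (3 * κF / 8) 1 (by positivity) one_pos,
      hinv.eventually (gt_mem_nhds (by positivity : (0 : ℝ) < 3 / 4 * φ ^ r)),
      hlog.eventually_ge_atTop (8 / δ), hlog.eventually_ge_atTop 1,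
      Filter.eventually_ge_atTop (4 * (r - 1)), Filter.eventually_ge_atTop 2,
      Filter.eventually_ge_atTop n₁, Filter.eventually_ge_atTop n₂] with n a1 a2 a3 a4 a5 a6 a7 a8 a9
    exact ⟨a1, a2, a3, a4, a5, a6, a7, a8, a9⟩
  obtain ⟨n₀, hn₀⟩ := Filter.eventually_atTop.1 hev
  refine ⟨1 + 4 ^ r / (δ ^ r * c₀ ^ (r - 1)), κF / 8, η, by positivity, by positivity, hη, n₀,
    fun n hn hdvd M hD1 hD2 => ?_⟩
  obtain ⟨a1, a2, a3, a4, a5, a6, a7, a8, a9⟩ := hn₀ n hn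
  have hn0 : (0 : ℝ) < n := by
    have : 0 < n := by omega
    exact_mod_cast this
  have hn1 : (1 : ℝ) ≤ n := by
    have : 1 ≤ n := by omega
    exact_mod_cast this
  set D : ℝ := (r : ℝ) * M / n with hD
  have hDlog : Real.log n ≤ D := hD1
  have hD1' : 1 ≤ D := a5.trans hDlog
  have hD0 : 0 < D := by linarith
  have hMn : (M : ℝ) ≤ (n : ℝ) ^ (r + 2) := by
    have h1 : (M : ℝ) * r = n * D := by
      rw [hD]
      field_simp
    have h2 : (M : ℝ) ≤ M * r := le_mul_of_one_le_right (Nat.cast_nonneg M) hr1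
    calc (M : ℝ) ≤ n * D := h2.trans h1.le
      _ ≤ n * (n : ℝ) ^ (r + 1) := mul_le_mul_of_nonneg_left hD2 hn0.le
      _ = (n : ℝ) ^ (r + 2) := by ring
  have hB : 0 < Bref r n D := Real.exp_pos _
  have hρ : 0 < c₀ / D := by positivity
  have hρ1 : c₀ / D ≤ 1 := by
    rw [div_le_one hD0]
    linarith
  -- the two values
  have hx : Real.exp (-κF * n) * Bref r n D ≤
      (c₀ / D) ^ r * (Real.exp (-(κF / 2 * n)) * Bref r n D) := by
    rw [← mul_assoc]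
    refine mul_le_mul_of_nonneg_right ?_ hB.le
    have h1 : Real.exp (-κF * n) = Real.exp (-(κF / 2 * n)) * Real.exp (-(κF / 2 * n)) := by
      rw [← Real.exp_add]
      congr 1
      ring
    rw [h1]
    refine mul_le_mul_of_nonneg_right ?_ (Real.exp_pos _).le
    rw [div_pow, le_div_iff₀ (by positivity)]
    calc Real.exp (-(κF / 2 * n)) * D ^ r ≤
        Real.exp (-(κF / 2 * n)) * ((n : ℝ) ^ (r + 1)) ^ r :=
          mul_le_mul_of_nonneg_left (pow_le_pow_left₀ hD0.le hD2 r) (Real.exp_pos _).le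
      _ = (n : ℝ) ^ (r * (r + 1)) * Real.exp (-(κF / 2 * n)) := by
          rw [← pow_mul, mul_comm (r + 1) r, mul_comm]
      _ ≤ c₀ ^ r := a1
  have hsub : ∀ μ : Mu n, Lv r n M μ → (Reg r n K η D (toR μ) ∧
        (∀ v, δ * D ≤ deg r (toR μ) v) ∧
        Real.exp (-(κF / 8) * n) * Bref r n D ≤ Phi r (toR μ) ∧
        ∃ o : OE n, o.Ok r ∧
          (1 + 4 ^ r / (δ ^ r * c₀ ^ (r - 1))) / D * Phi r (toR μ) <
            Psi r (toR μ) (univ \ o.J) o.y o.x ∅) →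
      (Reg r n K η D (toR μ) ∧ ¬ FlatAll r (φ ^ r / (4 * r)) (c₀ / D)
        (Real.exp (-κF * n) * Bref r n D) μ) ∨
      ¬ LinkAll r ((c₀ / D) ^ (r - 1)) (φ * (n : ℝ) ^ (r - 1)) (δ * D / 2 + 1) μ := by
    rintro μ hμ ⟨hreg, hdeg, hphi, o, ho, hlt⟩
    by_contra hcon
    push Not at hcon
    obtain ⟨hF, hL⟩ := hcon
    have hF' := hF hreg
    have hdet := marg_det r hr a6 M μ hμ δ D (c₀ / D) (φ ^ r / (4 * r)) φ
      (Real.exp (-κF * n) * Bref r n D) (Real.exp (-(κF / 2 * n)) * Bref r n D) hδ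
      (by
        have h1 : 8 / δ ≤ D := a4.trans hDlog
        rw [div_le_iff₀ hδ] at h1
        linarith) hρ hρ1 hθ.le hφ
      (by
        have h1 : (r : ℝ) * (φ ^ r / (4 * r)) = φ ^ r / 4 := by
          field_simp
        rw [h1]
        linarith) (by positivity) hx hF' hL hdeg o ho
    have h3 : (δ * D / 4) ^ r * (c₀ / D) ^ (r - 1) = D * (δ ^ r * c₀ ^ (r - 1) / 4 ^ r) := by
      obtain ⟨t, rfl⟩ : ∃ t, r = t + 1 := ⟨r - 1, by omega⟩
      rw [Nat.add_sub_cancel, div_pow, div_pow, mul_pow]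
      field_simp
      ring
    rw [h3] at hdet
    have hM2 : ((n : ℝ) ^ r * M) ^ 2 * (Real.exp (-(κF / 2 * n)) * Bref r n D) * D ≤
        Real.exp (-(κF / 8) * n) * Bref r n D := by
      have h4 : ((n : ℝ) ^ r * M) ^ 2 * D ≤ (n : ℝ) ^ (5 * r + 5) := by
        calc ((n : ℝ) ^ r * M) ^ 2 * D ≤ ((n : ℝ) ^ r * (n : ℝ) ^ (r + 2)) ^ 2 *
            (n : ℝ) ^ (r + 1) := by gcongr
          _ = (n : ℝ) ^ (5 * r + 5) := by ring
      have h5 : Real.exp (-(κF / 2 * n)) =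
          Real.exp (-(3 * κF / 8 * n)) * Real.exp (-(κF / 8) * n) := by
        rw [← Real.exp_add]
        congr 1
        ring
      calc ((n : ℝ) ^ r * M) ^ 2 * (Real.exp (-(κF / 2 * n)) * Bref r n D) * D =
          (((n : ℝ) ^ r * M) ^ 2 * D * Real.exp (-(3 * κF / 8 * n))) *
            (Real.exp (-(κF / 8) * n) * Bref r n D) := by
            rw [h5]
            ring
        _ ≤ ((n : ℝ) ^ (5 * r + 5) * Real.exp (-(3 * κF / 8 * n))) *
            (Real.exp (-(κF / 8) * n) * Bref r n D) := by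
            gcongr
        _ ≤ 1 * (Real.exp (-(κF / 8) * n) * Bref r n D) := by
            gcongr
        _ = _ := one_mul _
    have h6 : ((n : ℝ) ^ r * M) ^ 2 * (Real.exp (-(κF / 2 * n)) * Bref r n D) ≤
        Phi r (toR μ) / D := by
      rw [le_div_iff₀ hD0]
      exact hM2.trans hphi
    have hQ : 0 < δ ^ r * c₀ ^ (r - 1) / 4 ^ r := by positivity
    have h7 : Psi r (toR μ) (univ \ o.J) o.y o.x ∅ -
        ((n : ℝ) ^ r * M) ^ 2 * (Real.exp (-(κF / 2 * n)) * Bref r n D) ≤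
        4 ^ r / (δ ^ r * c₀ ^ (r - 1)) / D * Phi r (toR μ) := by
      have h8 : 4 ^ r / (δ ^ r * c₀ ^ (r - 1)) / D * Phi r (toR μ) =
          Phi r (toR μ) / (D * (δ ^ r * c₀ ^ (r - 1) / 4 ^ r)) := by
        field_simp
      rw [h8, le_div_iff₀ (by positivity), mul_comm]
      exact hdet
    have h9 : (1 + 4 ^ r / (δ ^ r * c₀ ^ (r - 1))) / D * Phi r (toR μ) =
        Phi r (toR μ) / D + 4 ^ r / (δ ^ r * c₀ ^ (r - 1)) / D * Phi r (toR μ) := by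
      ring
    rw [h9] at hlt
    linarith
  have hp1 := hfl n a9 hdvd M hD1
  have hp2 := hlk n a8 M hD1 ((c₀ / D) ^ (r - 1))
  rw [← hD] at hp1 hp2
  refine (PM_mono r M _ _ hsub).trans ((PM_or r M _ _).trans ((add_le_add hp1 hp2).trans ?_))
  have hexp : Real.exp (-((C₁ + 1) * Real.log n)) = Real.exp (-(C₁ * Real.log n)) / n := by
    have h1 : -((C₁ + 1) * Real.log n) = -(C₁ * Real.log n) - Real.log n := by ring
    rw [h1, Real.exp_sub, Real.exp_log hn0]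
  rw [hexp, ← two_mul, ← mul_div_assoc, div_le_iff₀ hn0, mul_comm]
  refine mul_le_mul_of_nonneg_left ?_ (Real.exp_pos _).le
  exact_mod_cast a7

end Pool.Agent.LHam
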