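import Pool.Agent.LHam.D6Defs
import Pool.Agent.LHam.D4Link
import Pool.Agent.LHam.C8cSum

set_option autoImplicit false

/-! D6a. Lemma G, deterministic part. -/

namespace Pool.Agent.LHam

open Finset

variable {n : ℕ}

private theorem x_mem_set (o : OE n) : o.x ∈ o.set := mem_insert_self _ _

private theorem y_mem_set (o : OE n) : o.y ∈ o.set :=
  mem_insert_of_mem (mem_insert_self _ _)

private theorem J_sub_set (o : OE n) : o.J ⊆ o.set := fun _ hv =>
  mem_insert_of_mem (mem_insert_of_mem hv)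

private theorem xs_mem (r : ℕ) (hr : 3 ≤ r) (o : OE n) (ho : o.Ok r) (i : ℕ) (hi : i < r) :
    xs o i ∈ o.set := by
  rcases i with _ | _ | j
  · exact y_mem_set o
  · exact x_mem_set o
  · exact J_sub_set o (el_mem o.x o.J j (by rw [ho.1]; omega))

private theorem xs_notMem (r : ℕ) (hr : 3 ≤ r) (o : OE n) (f : OE n × OE n) (ho : o.Ok r)
    (i : ℕ) (hi : i < r) : xs o i ∉ Ur o f := by
  intro h
  unfold Ur at h
  exact (mem_sdiff.1 h).2 (mem_union_left _ (mem_union_left _ (xs_mem r hr o ho i hi)))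

private theorem Ur_card (r : ℕ) (hr : 3 ≤ r) (o : OE n) (f : OE n × OE n)
    (hf : f ∈ EndP r o) (hn : 4 * (r - 1) ≤ n) : (Ur o f).card + (3 * r - 4) = n := by
  classical
  unfold EndP at hf
  obtain ⟨-, -, -, -, h, -⟩ := (mem_filter.1 hf).2
  unfold Ur
  rw [← h, card_sdiff_add_card_eq_card (subset_univ _), card_univ, Fintype.card_fin]

/-- Every multiplicity is at most `M`. -/
private theorem mu_le {r M : ℕ} {μ : Mu n} (hμ : Lv r n M μ) (Z : Finset (Fin n)) :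
    toR μ Z ≤ M := by
  unfold toR
  by_cases h : Z ∈ Er r n
  · exact Nat.cast_le.2 (by
      rw [← hμ.2]
      exact single_le_sum (f := μ) (fun _ _ => Nat.zero_le _) h)
  · rw [hμ.1 Z h, Nat.cast_zero]
    exact Nat.cast_nonneg _

/-- The number of pairs of a vertex and an `(r - 2)`-set. -/
private theorem count_pairs (r : ℕ) (hr : 3 ≤ r) (hn : 0 < n) :
    (((univ : Finset (Fin n)) ×ˢ powersetCard (r - 2) (univ : Finset (Fin n))).card : ℝ) ≤
      (n : ℝ) ^ r := by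
  rw [card_product, card_powersetCard, card_univ, Fintype.card_fin]
  have h1 : n.choose (r - 2) ≤ n ^ (r - 2) := Nat.choose_le_pow n (r - 2)
  have h2 : n * n.choose (r - 2) ≤ n ^ r := by
    calc n * n.choose (r - 2) ≤ n * n ^ (r - 2) := Nat.mul_le_mul_left _ h1
      _ = n ^ (r - 1) := by
          rw [← pow_succ']
          congr 1
          omega
      _ ≤ n ^ r := Nat.pow_le_pow_right hn (by omega)
  exact_mod_cast h2

open Classical in
/-- The total weight of the pairs of end edges. -/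
private theorem ends_weight (r : ℕ) (hr : 3 ≤ r) (hn : 0 < n) (M : ℕ) (μ : Mu n)
    (hμ : Lv r n M μ) (o : OE n) :
    ∑ f ∈ EndP r o, toR μ f.1.set * toR μ f.2.set ≤ ((n : ℝ) ^ r * M) ^ 2 := by
  have h1 : ∑ f ∈ EndP r o, toR μ f.1.set * toR μ f.2.set ≤
      ∑ _f ∈ EndP r o, (M : ℝ) * M :=
    sum_le_sum fun f _ => mul_le_mul (mu_le hμ _) (mu_le hμ _) (Nat.cast_nonneg _)
      (Nat.cast_nonneg _)
  have h2 : (EndP r o).card ≤
      (((univ : Finset (Fin n)) ×ˢ powersetCard (r - 2) (univ : Finset (Fin n))) ×ˢ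
        ((univ : Finset (Fin n)) ×ˢ powersetCard (r - 2) (univ : Finset (Fin n)))).card := by
    refine card_le_card_of_injOn (fun f => ((f.1.y, f.1.J), (f.2.x, f.2.J))) ?_ ?_
    · intro f hf
      have hf' : f ∈ EndP r o := hf
      unfold EndP at hf'
      obtain ⟨-, -, h3, h4, -⟩ := (mem_filter.1 hf').2
      refine mem_coe.2 (mem_product.2 ⟨mem_product.2 ⟨mem_univ _, ?_⟩,
        mem_product.2 ⟨mem_univ _, ?_⟩⟩)
      · exact mem_powersetCard.2 ⟨subset_univ _, h3⟩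
      · exact mem_powersetCard.2 ⟨subset_univ _, h4⟩
    · intro f hf g hg h
      have hf' : f ∈ EndP r o := hf
      have hg' : g ∈ EndP r o := hg
      unfold EndP at hf' hg'
      obtain ⟨a1, a2, -⟩ := (mem_filter.1 hf').2
      obtain ⟨b1, b2, -⟩ := (mem_filter.1 hg').2
      have h3 : (f.1.y, f.1.J) = (g.1.y, g.1.J) := congrArg Prod.fst h
      have h4 : (f.2.x, f.2.J) = (g.2.x, g.2.J) := congrArg Prod.snd h
      refine Prod.ext ?_ ?_
      · exact OE.ext (a1.trans b1.symm) (congrArg Prod.snd h3) (congrArg Prod.fst h3)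
      · exact OE.ext (congrArg Prod.fst h4) (congrArg Prod.snd h4) (a2.trans b2.symm)
  have h3 := count_pairs (n := n) r hr hn
  rw [card_product] at h2
  have h4 : ((EndP r o).card : ℝ) ≤ (n : ℝ) ^ r * (n : ℝ) ^ r := by
    refine (Nat.cast_le.2 h2).trans ?_
    rw [Nat.cast_mul]
    exact mul_le_mul h3 h3 (Nat.cast_nonneg _) (by positivity)
  rw [sum_const, nsmul_eq_mul] at h1
  have h5 := mul_le_mul_of_nonneg_right h4 (show (0 : ℝ) ≤ (M : ℝ) * M by positivity)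
  calc _ ≤ _ := h1
    _ ≤ _ := h5
    _ = _ := by ring

/-- **Deterministic part of Lemma G.** `ρ = c₀ / D`, `X = φ n^(r-1)`, `m₀ = δ D / 2 + 1`, degrees
`≥ δ D`, `δ D ≥ 8`.

Proof. `ends`: `Psi (univ \ o.J) ≤ ∑ f ∈ EndP, ν f₁ ν f₂ Psi (Ur o f)`. For `f` with
`Psi (Ur o f) f.1.y f.2.x ∅ < x₁` (`x₀ ≤ ρ^r x₁`) the terms give `≤ (n ^ r * M)^2 x₁` (at most
`n ^ r` oriented edges `f.1` with given `x`: crude bound `(n * n^(r-2))`, `ν ≤ M`). For the others
(`U = Ur o f`, `|U| = n - (3 r - 4)`): `bad_count` (with `hflat` from `FlatAll`) gives fewer than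
`X^r` bad lists (`r θ + 4 r^2 / n < φ^r`, `X^r = φ^r n^(r(r-1))`), so the empty list is good
(`tree_count` with `k = r`), and `tree_sum` with `w i β = μ (insert (xs o i) β)`, `N = r`, `m₂ = δ D / 4`
(`LinkAll` for `x = xs o i ∉ U`, `link_total`, degrees) gives
`∑_{bl, Gd} ∏_i μ (insert (xs o i) (bl_i)) ≥ (δ D / 4)^r`. By `splice_le` (restrict to the `bl` with `Gd`, where
`Psi (Zsj ..) ≥ ρ^(r-1) Psi ∅`):
`Phi ≥ (δ D / 4)^r ρ^(r-1) * ∑_{f large} ν f₁ ν f₂ Psi (Ur o f)`. -/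
theorem marg_det (r : ℕ) (hr : 3 ≤ r) (hn : 4 * (r - 1) ≤ n) (M : ℕ) (μ : Mu n)
    (hμ : Lv r n M μ) (δ D ρ θ φ x₀ x₁ : ℝ) (hδ : 0 < δ) (hδD : 8 ≤ δ * D) (hρ : 0 < ρ)
    (hρ1 : ρ ≤ 1) (hθ : 0 ≤ θ) (hφ : 0 < φ) (hθφ : r * θ + 4 * r ^ 2 / n < φ ^ r)
    (hx₀ : 0 ≤ x₀) (hx : x₀ ≤ ρ ^ r * x₁) (hflat : FlatAll r θ ρ x₀ μ)
    (hlink : LinkAll r (ρ ^ (r - 1)) (φ * (n : ℝ) ^ (r - 1)) (δ * D / 2 + 1) μ)
    (hdeg : ∀ v, δ * D ≤ deg r (toR μ) v) (o : OE n) (ho : o.Ok r) :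
    (δ * D / 4) ^ r * ρ ^ (r - 1) *
      (Psi r (toR μ) (univ \ o.J) o.y o.x ∅ - ((n : ℝ) ^ r * M) ^ 2 * x₁) ≤ Phi r (toR μ) := by
  classical
  have hn0 : 0 < n := by omega
  have hnR : (0 : ℝ) < n := Nat.cast_pos.2 hn0
  have hν : ∀ Z, 0 ≤ toR μ Z := fun Z => Nat.cast_nonneg _
  have hρr : 0 < ρ ^ r := pow_pos hρ r
  have hx₁ : 0 ≤ x₁ := by
    by_contra h
    have h1 : ρ ^ r * x₁ < 0 := mul_neg_of_pos_of_neg hρr (not_le.1 h)
    linarith
  have hm₂ : 0 ≤ δ * D / 4 := by linarith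
  have hm : 0 ≤ (δ * D / 4) ^ r * ρ ^ (r - 1) := by positivity
  -- the total weight
  have hsm : ∑ f ∈ EndP r o, toR μ f.1.set * toR μ f.2.set ≤ ((n : ℝ) ^ r * M) ^ 2 :=
    ends_weight r hr hn0 M μ hμ o
  -- large pairs
  have hlarge : ∀ f ∈ EndP r o, x₁ ≤ Psi r (toR μ) (Ur o f) f.1.y f.2.x ∅ →
      (δ * D / 4) ^ r * ρ ^ (r - 1) * Psi r (toR μ) (Ur o f) f.1.y f.2.x ∅ ≤
        ∑ bl ∈ (Lls (Pr r n) r).filter (fun bl => Geo r (Ur o f) f.1.y f.2.x bl),
          (∏ i ∈ range r, toR μ (insert (xs o i) (bget bl i))) *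
            Psi r (toR μ) (Ur o f) f.1.y f.2.x (Zsj o.x bl (r - 1)) := by
    intro f hf hfx
    have hU := Ur_card r hr o f hf hn
    have hbc := bad_count r hr (Ur o f) f.1.y f.2.x o.x hU μ ρ θ x₀ hρ hρ1 hθ hx₀
      (hx.trans (mul_le_mul_of_nonneg_left hfx hρr.le))
      (fun Zs hZs hP => hflat (Ur o f) f.1.y f.2.x Zs hU hZs hP _ (fun Z hZ => by
        rw [mem_filter] at hZ
        exact hZ))
    have hX : 0 ≤ φ * (n : ℝ) ^ (r - 1) := by positivity
    have hXr : (φ * (n : ℝ) ^ (r - 1)) ^ r = φ ^ r * (n : ℝ) ^ (r * (r - 1)) := by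
      rw [mul_pow, ← pow_mul, Nat.mul_comm]
    have hTg : Tg (Pr r n) (Gd r (toR μ) (Ur o f) f.1.y f.2.x o.x (ρ ^ (r - 1)))
        (φ * (n : ℝ) ^ (r - 1)) r [] := by
      by_contra hc
      have h1 := tree_count _ _ _ hX r [] hc
      have h2 : (φ * (n : ℝ) ^ (r - 1)) ^ r ≤
          (r * θ + 4 * r ^ 2 / n) * (n : ℝ) ^ (r * (r - 1)) := by
        refine (h1.trans (le_of_eq ?_)).trans hbc
        congr 1
      rw [hXr] at h2
      have h3 : (0 : ℝ) < (n : ℝ) ^ (r * (r - 1)) := by positivity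
      have h4 := le_of_mul_le_mul_right h2 h3
      linarith
    have hts := tree_sum (Pr r n)
      (Gd r (toR μ) (Ur o f) f.1.y f.2.x o.x (ρ ^ (r - 1)))
      (φ * (n : ℝ) ^ (r - 1)) r (fun i β => toR μ (insert (xs o i) β))
      (fun i β => hν _) (δ * D / 2 + 1) (δ * D / 4) hm₂ ∅
      (fun k l hl hk hT => by
        have hx' : xs o l.length ∉ Ur o f := xs_notMem r hr o f ho l.length (by omega)
        exact hlink (Ur o f) f.1.y f.2.x o.x (xs o l.length) k l hx' hU hl hk hT)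
      (fun i hi => by
        have h1 : ∑ β ∈ Pr r n, toR μ (insert (xs o i) β) = deg r (toR μ) (xs o i) :=
          link_total r M hr μ hμ (xs o i)
        rw [h1]
        have h2 := hdeg (xs o i)
        linarith) r [] (fun β hβ => absurd hβ (List.not_mem_nil)) (by simp) hTg
    have hP0 : 0 ≤ Psi r (toR μ) (Ur o f) f.1.y f.2.x ∅ := Psi_nonneg r _ hν _ _ _ _
    calc (δ * D / 4) ^ r * ρ ^ (r - 1) * Psi r (toR μ) (Ur o f) f.1.y f.2.x ∅
        = (δ * D / 4) ^ r * (ρ ^ (r - 1) * Psi r (toR μ) (Ur o f) f.1.y f.2.x ∅) := by ring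
      _ ≤ (∑ bl ∈ (Lls (Pr r n) r).filter (fun bl =>
            Gd r (toR μ) (Ur o f) f.1.y f.2.x o.x (ρ ^ (r - 1)) bl),
            ∏ i ∈ range r, toR μ (insert (xs o i) (bget bl i))) *
            (ρ ^ (r - 1) * Psi r (toR μ) (Ur o f) f.1.y f.2.x ∅) := by
          refine mul_le_mul_of_nonneg_right ?_ (by positivity)
          refine hts.trans (le_of_eq ?_)
          refine sum_congr ?_ fun bl _ => ?_
          · ext bl
            simp only [mem_filter, List.nil_append]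
          · refine prod_congr rfl fun i _ => ?_
            simp only [List.length_nil, Nat.zero_add]
            rfl
      _ = ∑ bl ∈ (Lls (Pr r n) r).filter (fun bl =>
            Gd r (toR μ) (Ur o f) f.1.y f.2.x o.x (ρ ^ (r - 1)) bl),
            (∏ i ∈ range r, toR μ (insert (xs o i) (bget bl i))) *
            (ρ ^ (r - 1) * Psi r (toR μ) (Ur o f) f.1.y f.2.x ∅) := by
          rw [sum_mul]
      _ ≤ ∑ bl ∈ (Lls (Pr r n) r).filter (fun bl =>
            Gd r (toR μ) (Ur o f) f.1.y f.2.x o.x (ρ ^ (r - 1)) bl),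
            (∏ i ∈ range r, toR μ (insert (xs o i) (bget bl i))) *
            Psi r (toR μ) (Ur o f) f.1.y f.2.x (Zsj o.x bl (r - 1)) := by
          refine sum_le_sum fun bl hbl => ?_
          exact mul_le_mul_of_nonneg_left (mem_filter.1 hbl).2.2
            (prod_nonneg fun i _ => hν _)
      _ ≤ _ := by
          refine sum_le_sum_of_subset_of_nonneg ?_ fun bl _ _ => ?_
          · intro bl hbl
            rw [mem_filter] at hbl ⊢
            exact ⟨hbl.1, hbl.2.1⟩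
          · exact mul_nonneg (prod_nonneg fun i _ => hν _) (Psi_nonneg r _ hν _ _ _ _)
  have hends := ends r hr hn (toR μ) hν o ho
  have hspl := splice_le r hr (by omega) (toR μ) hν o ho
  -- every pair
  have hterm : ∀ f ∈ EndP r o,
      (δ * D / 4) ^ r * ρ ^ (r - 1) * (toR μ f.1.set * toR μ f.2.set *
        Psi r (toR μ) (Ur o f) f.1.y f.2.x ∅) ≤
      (δ * D / 4) ^ r * ρ ^ (r - 1) * ((toR μ f.1.set * toR μ f.2.set) * x₁) +
      toR μ f.1.set * toR μ f.2.set *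
        ∑ bl ∈ (Lls (Pr r n) r).filter (fun bl => Geo r (Ur o f) f.1.y f.2.x bl),
          (∏ i ∈ range r, toR μ (insert (xs o i) (bget bl i))) *
            Psi r (toR μ) (Ur o f) f.1.y f.2.x (Zsj o.x bl (r - 1)) := by
    intro f hf
    have hff : 0 ≤ toR μ f.1.set * toR μ f.2.set := mul_nonneg (hν _) (hν _)
    have hS : 0 ≤ ∑ bl ∈ (Lls (Pr r n) r).filter (fun bl => Geo r (Ur o f) f.1.y f.2.x bl),
          (∏ i ∈ range r, toR μ (insert (xs o i) (bget bl i))) *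
            Psi r (toR μ) (Ur o f) f.1.y f.2.x (Zsj o.x bl (r - 1)) :=
      sum_nonneg fun bl _ => mul_nonneg (prod_nonneg fun i _ => hν _) (Psi_nonneg r _ hν _ _ _ _)
    rcases le_total x₁ (Psi r (toR μ) (Ur o f) f.1.y f.2.x ∅) with h | h
    · have h1 := mul_le_mul_of_nonneg_left (hlarge f hf h) hff
      have h2 : 0 ≤ (δ * D / 4) ^ r * ρ ^ (r - 1) * ((toR μ f.1.set * toR μ f.2.set) * x₁) := by
        positivity
      calc _ = toR μ f.1.set * toR μ f.2.set * ((δ * D / 4) ^ r * ρ ^ (r - 1) *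
            Psi r (toR μ) (Ur o f) f.1.y f.2.x ∅) := by ring
        _ ≤ _ := h1
        _ ≤ _ := le_add_of_nonneg_left h2
    · have h1 := mul_le_mul_of_nonneg_left (mul_le_mul_of_nonneg_left h hff) hm
      have h2 := mul_nonneg hff hS
      linarith
  have hsum := sum_le_sum hterm
  rw [← mul_sum, sum_add_distrib, ← mul_sum, ← sum_mul] at hsum
  have h1 := mul_le_mul_of_nonneg_left hends hm
  have h2 := mul_le_mul_of_nonneg_left (mul_le_mul_of_nonneg_right hsm hx₁) hm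
  rw [mul_sub]
  linarith

end Pool.Agent.LHam
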