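import Mathlib

set_option autoImplicit false

/-! Sharp threshold for linear Hamiltonian cycles (MP_0e8467_pr, note 2166): definitions. -/

namespace Pool.Agent.LHam

open Finset

/-- Oriented edges `(x, J, y)`: link vertices `x → y`, inner vertices `J`. -/
@[ext] structure OE (n : ℕ) where
  /-- first link vertex -/
  x : Fin n
  /-- inner vertices -/
  J : Finset (Fin n)
  /-- second link vertex -/
  y : Fin n
deriving DecidableEq, Fintype

variable {n : ℕ}

/-- The vertex set of an oriented edge. -/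
def OE.set (o : OE n) : Finset (Fin n) := insert o.x (insert o.y o.J)

/-- The reversed edge. -/
def OE.flip (o : OE n) : OE n := ⟨o.y, o.J, o.x⟩

/-- The proper oriented edges of an `r`-graph. -/
def OE.Ok (r : ℕ) (o : OE n) : Prop := o.J.card = r - 2 ∧ o.x ≠ o.y ∧ o.x ∉ o.J ∧ o.y ∉ o.J

/-- The set of all `r`-subsets of the vertex set. -/
def Er (r n : ℕ) : Finset (Finset (Fin n)) := powersetCard r univ

/-- Multiplicities of the `r`-sets. -/
abbrev Mu (n : ℕ) := Finset (Fin n) → ℕ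

/-- One more copy of `Z`. -/
def up (μ : Mu n) (Z : Finset (Fin n)) : Mu n := Function.update μ Z (μ Z + 1)

/-- One copy of `Z` less. -/
def dn (μ : Mu n) (Z : Finset (Fin n)) : Mu n := Function.update μ Z (μ Z - 1)

/-- Multiplicities with total number `M`. -/
def Lv (r n M : ℕ) (μ : Mu n) : Prop := (∀ Z, Z ∉ Er r n → μ Z = 0) ∧ ∑ Z ∈ Er r n, μ Z = M

/-- The expectation at level `M`: `M` independent uniform `r`-sets are drawn, `F` is a function of
their multiplicities. -/
noncomputable def EM (r n : ℕ) : ℕ → (Mu n → ℝ) → ℝ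
  | 0, F => F 0
  | M + 1, F => EM r n M fun μ => (∑ Z ∈ Er r n, F (up μ Z)) / (Er r n).card

open Classical in
/-- The probability at level `M`. -/
noncomputable def PM (r n M : ℕ) (A : Mu n → Prop) : ℝ := EM r n M fun μ => if A μ then 1 else 0

/-- Real weights from multiplicities. -/
def toR (μ : Mu n) : Finset (Fin n) → ℝ := fun Z => (μ Z : ℝ)

/-- Degrees. -/
noncomputable def deg (r : ℕ) (ν : Finset (Fin n) → ℝ) (v : Fin n) : ℝ :=
  ∑ Z ∈ (Er r n).filter (fun Z => v ∈ Z), ν Z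

/-- Codegrees. -/
noncomputable def codeg (r : ℕ) (ν : Finset (Fin n) → ℝ) (u v : Fin n) : ℝ :=
  ∑ Z ∈ (Er r n).filter (fun Z => u ∈ Z ∧ v ∈ Z), ν Z

/-- `λ = 1 / (r - 1)`. -/
noncomputable def lam (r : ℕ) : ℝ := 1 / ((r : ℝ) - 1)

/-- `p₀ = λ² (1 - λ)^(r - 2)`. -/
noncomputable def p0 (r : ℕ) : ℝ := lam r ^ 2 * (1 - lam r) ^ (r - 2)

/-- `β = binom(r, 2) p₀`. -/
noncomputable def beta (r : ℕ) : ℝ := (r : ℝ) * (r - 1) / 2 * p0 r

/-- The reference value `exp (n / (r - 1) * (log ((r - 1) D) - (r - 1)))`. -/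
noncomputable def Bref (r n : ℕ) (D : ℝ) : ℝ :=
  Real.exp ((n : ℝ) / (r - 1) * (Real.log ((r - 1) * D) - (r - 1)))

/-- Regularity. -/
structure Reg (r n : ℕ) (K η D : ℝ) (ν : Finset (Fin n) → ℝ) : Prop where
  deg_le : ∀ v, deg r ν v ≤ K * D
  codeg_le : ∀ u v, u ≠ v → codeg r ν u v ≤ η * D
  quasi : ∀ Λ : Finset (Fin n), n ≤ (r - 1) * Λ.card → (r - 1) * Λ.card ≤ n + 4 * r ^ 3 →
    ∑ Z ∈ (Er r n).filter (fun Z => (Z ∩ Λ).card = 2), ν Z ≤ (beta r + η) * (n * D / r)

/-- `l` is a chain of oriented edges from `c` to `d`. -/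
def Conn : Fin n → List (OE n) → Fin n → Prop
  | c, [], d => c = d
  | c, o :: l, d => o.x = c ∧ Conn o.y l d

/-- The multiset of the vertices `x(o)`, `J(o)`. -/
def verts (l : List (OE n)) : Multiset (Fin n) := (l.map fun o => o.x ::ₘ o.J.val).sum

/-- `l` is a loose Hamiltonian path of `U` from `c` to `d`. -/
def IsPath (r : ℕ) (U : Finset (Fin n)) (c d : Fin n) (l : List (OE n)) : Prop :=
  Conn c l d ∧ (∀ o ∈ l, o.J.card = r - 2) ∧ verts l + {d} = U.val

/-- `l` is a (rooted, oriented) linear Hamiltonian cycle. -/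
def IsCyc (r : ℕ) (l : List (OE n)) : Prop :=
  l ≠ [] ∧ (∃ c, Conn c l c) ∧ (∀ o ∈ l, o.J.card = r - 2) ∧
    verts l = (univ : Finset (Fin n)).val

open Classical in
/-- The loose Hamiltonian paths of `U` from `c` to `d`, as sets of oriented edges. -/
noncomputable def PF (r : ℕ) (U : Finset (Fin n)) (c d : Fin n) : Finset (Finset (OE n)) :=
  univ.filter fun F => ∃ l, IsPath r U c d l ∧ l.toFinset = F

open Classical in
/-- The oriented linear Hamiltonian cycles, as sets of oriented edges. -/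
noncomputable def CF (r n : ℕ) : Finset (Finset (OE n)) :=
  univ.filter fun F => ∃ l, IsCyc r l ∧ l.toFinset = F

/-- The weighted number of loose Hamiltonian paths of `U` from `c` to `d` through `Zs`; the edges
of `Zs` have weight `1`. -/
noncomputable def Psi (r : ℕ) (ν : Finset (Fin n) → ℝ) (U : Finset (Fin n)) (c d : Fin n)
    (Zs : Finset (OE n)) : ℝ :=
  ∑ F ∈ (PF r U c d).filter (fun F => Zs ⊆ F), ∏ o ∈ F \ Zs, ν o.set

/-- The weighted number of oriented linear Hamiltonian cycles. -/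
noncomputable def Phi (r : ℕ) (ν : Finset (Fin n) → ℝ) : ℝ :=
  ∑ F ∈ CF r n, ∏ o ∈ F, ν o.set

end Pool.Agent.LHam
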