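import Pool.Agent.LHam.ProcEx

set_option autoImplicit false

/-! E1. The abstract drift argument. -/

namespace Pool.Agent.LHam

open Finset

open Classical in
/-- The probability (upwards, from level `M₀ - k` to level `M₀`) that all levels are good. -/
noncomputable def Vc (r n : ℕ) (good : ℕ → Mu n → Prop) (M₀ : ℕ) : ℕ → Mu n → ℝ
  | 0, μ => if good M₀ μ then 1 else 0
  | k + 1, μ => if good (M₀ - (k + 1)) μ then
      (∑ Z ∈ Er r n, Vc r n good M₀ k (up μ Z)) / (Er r n).card else 0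

section Aux

variable {n : ℕ}

open Classical in
private noncomputable def ind (A : Mu n → Prop) (μ : Mu n) : ℝ := if A μ then 1 else 0

private theorem PM_eq (r M : ℕ) (A : Mu n → Prop) : PM r n M A = EM r n M (ind A) := rfl

private theorem ind_pos {A : Mu n → Prop} {μ : Mu n} (h : A μ) : ind A μ = 1 := if_pos h

private theorem ind_neg {A : Mu n → Prop} {μ : Mu n} (h : ¬ A μ) : ind A μ = 0 := if_neg h

private theorem ind_nonneg (A : Mu n → Prop) (μ : Mu n) : 0 ≤ ind A μ := by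
  unfold ind
  split_ifs <;> norm_num

private theorem Vc_nonneg (r : ℕ) (good : ℕ → Mu n → Prop) (M₀ : ℕ) :
    ∀ (k : ℕ) (μ : Mu n), 0 ≤ Vc r n good M₀ k μ := by
  intro k
  induction k with
  | zero =>
    intro μ
    unfold Vc
    split_ifs <;> norm_num
  | succ k ih =>
    intro μ
    unfold Vc
    split_ifs
    · exact div_nonneg (Finset.sum_nonneg fun Z _ => ih _) (Nat.cast_nonneg _)
    · exact le_refl _

private theorem Vc_le_one (r : ℕ) (good : ℕ → Mu n → Prop) (M₀ : ℕ) :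
    ∀ (k : ℕ) (μ : Mu n), Vc r n good M₀ k μ ≤ 1 := by
  intro k
  induction k with
  | zero =>
    intro μ
    unfold Vc
    split_ifs <;> norm_num
  | succ k ih =>
    intro μ
    unfold Vc
    split_ifs
    · refine div_le_one_of_le₀ ?_ (Nat.cast_nonneg _)
      have h := Finset.sum_le_card_nsmul (Er r n) (fun Z => Vc r n good M₀ k (up μ Z)) 1
        fun Z _ => ih _
      rw [nsmul_eq_mul, mul_one] at h
      exact h
    · exact zero_le_one

private noncomputable def Wf (r n : ℕ) (good : ℕ → Mu n → Prop) (M₀ k : ℕ) (μ : Mu n) : ℝ :=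
  (∑ Z ∈ Er r n, Vc r n good M₀ k (up μ Z)) / (Er r n).card

private theorem Wf_nonneg (r : ℕ) (good : ℕ → Mu n → Prop) (M₀ k : ℕ) (μ : Mu n) :
    0 ≤ Wf r n good M₀ k μ :=
  div_nonneg (Finset.sum_nonneg fun Z _ => Vc_nonneg r good M₀ k _) (Nat.cast_nonneg _)

private theorem Wf_le_one (r : ℕ) (good : ℕ → Mu n → Prop) (M₀ k : ℕ) (μ : Mu n) :
    Wf r n good M₀ k μ ≤ 1 := by
  refine div_le_one_of_le₀ ?_ (Nat.cast_nonneg _)
  have h := Finset.sum_le_card_nsmul (Er r n) (fun Z => Vc r n good M₀ k (up μ Z)) 1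
    fun Z _ => Vc_le_one r good M₀ k _
  rw [nsmul_eq_mul, mul_one] at h
  exact h

private theorem Vc_succ_good (r : ℕ) (good : ℕ → Mu n → Prop) (M₀ k : ℕ) (μ : Mu n)
    (h : good (M₀ - (k + 1)) μ) : Vc r n good M₀ (k + 1) μ = Wf r n good M₀ k μ := if_pos h

private theorem Vc_succ_le (r : ℕ) (good : ℕ → Mu n → Prop) (M₀ k : ℕ) (μ : Mu n) :
    Vc r n good M₀ (k + 1) μ ≤ Wf r n good M₀ k μ := by
  by_cases h : good (M₀ - (k + 1)) μ
  · exact le_of_eq (Vc_succ_good r good M₀ k μ h)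
  · have h1 : Vc r n good M₀ (k + 1) μ = 0 := if_neg h
    rw [h1]
    exact Wf_nonneg r good M₀ k μ

private theorem Vc_good (r : ℕ) (good : ℕ → Mu n → Prop) (M₀ : ℕ) :
    ∀ (k : ℕ) (μ : Mu n), Vc r n good M₀ k μ ≠ 0 → good (M₀ - k) μ := by
  intro k μ h
  by_contra h1
  cases k with
  | zero => exact h (if_neg h1)
  | succ k => exact h (if_neg h1)

private theorem step0 (r M₁ M₀ : ℕ) (good : ℕ → Mu n → Prop) (V : ℕ → Mu n → ℝ) (al : ℕ → ℝ)
    (hdrift : ∀ M μ, M₁ ≤ M → M < M₀ → Lv r n (M + 1) μ → good (M + 1) μ →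
      ∑ Z ∈ Er r n, (μ Z : ℝ) / (M + 1) * V M (dn μ Z) ≤ Real.exp (al (M + 1)) * V (M + 1) μ)
    (k M : ℕ) (hk : M + (k + 1) = M₀) (hM : M₁ ≤ M) :
    EM r n M (fun μ => Wf r n good M₀ k μ * V M μ) ≤
      Real.exp (al (M + 1)) * EM r n (M + 1) (fun μ => Vc r n good M₀ k μ * V (M + 1) μ) := by
  have e1 : EM r n M (fun μ => Wf r n good M₀ k μ * V M μ) =
      EM r n M (fun μ => (∑ Z ∈ Er r n, (V M μ * Vc r n good M₀ k (up μ Z))) /
        (Er r n).card) := by
    congr 1
    funext μ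
    rw [← Finset.mul_sum]
    unfold Wf
    ring
  rw [e1, EM_ex r M (fun μ Z => V M μ * Vc r n good M₀ k (up μ Z)), ← EM_mul]
  apply EM_mono
  intro μ hμ
  have e2 : ∑ Z ∈ Er r n, (μ Z : ℝ) / (M + 1) *
      (V M (dn μ Z) * Vc r n good M₀ k (up (dn μ Z) Z)) =
      Vc r n good M₀ k μ * ∑ Z ∈ Er r n, (μ Z : ℝ) / (M + 1) * V M (dn μ Z) := by
    rw [Finset.mul_sum]
    refine Finset.sum_congr rfl fun Z _ => ?_
    by_cases h0 : μ Z = 0
    · rw [h0]
      simp
    · rw [up_dn μ Z h0]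
      ring
  rw [e2]
  by_cases h3 : Vc r n good M₀ k μ = 0
  · rw [h3]
    simp
  · have h4 : good (M + 1) μ := by
      have h5 := Vc_good r good M₀ k μ h3
      rwa [show M₀ - k = M + 1 by omega] at h5
    have h6 := mul_le_mul_of_nonneg_left (hdrift M μ hM (by omega) hμ h4)
      (Vc_nonneg r good M₀ k μ)
    refine h6.trans (le_of_eq ?_)
    ring

private theorem step1 (r : ℕ) (hT : 0 < (Er r n).card) (M₁ M₀ : ℕ) (good : ℕ → Mu n → Prop)
    (V : ℕ → Mu n → ℝ) (vi : ℝ) (al : ℕ → ℝ) (hvi : 0 ≤ vi) (hV : ∀ M μ, 0 ≤ V M μ)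
    (hinitV : ∀ μ, Lv r n M₀ μ → good M₀ μ → V M₀ μ ≤ vi)
    (hdrift : ∀ M μ, M₁ ≤ M → M < M₀ → Lv r n (M + 1) μ → good (M + 1) μ →
      ∑ Z ∈ Er r n, (μ Z : ℝ) / (M + 1) * V M (dn μ Z) ≤ Real.exp (al (M + 1)) * V (M + 1) μ) :
    ∀ k M : ℕ, M + (k + 1) = M₀ → M₁ ≤ M →
      EM r n M (fun μ => Wf r n good M₀ k μ * V M μ) ≤
        Real.exp (∑ M' ∈ Ico M M₀, al (M' + 1)) * vi := by
  intro k
  induction k with
  | zero =>
    intro M hk hM
    have hk' : M + 1 = M₀ := by omega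
    refine (step0 r M₁ M₀ good V al hdrift 0 M hk hM).trans ?_
    have e1 : ∑ M' ∈ Ico M M₀, al (M' + 1) = al (M + 1) := by
      rw [← hk', Finset.sum_eq_sum_Ico_succ_bot (by omega), Finset.Ico_self, Finset.sum_empty,
        add_zero]
    rw [e1]
    refine mul_le_mul_of_nonneg_left ?_ (Real.exp_pos _).le
    have e2 := EM_const (n := n) r (M + 1) hT vi
    refine le_of_le_of_eq (EM_mono r (M + 1) _ (fun _ => vi) ?_) e2
    intro μ hμ
    by_cases h3 : Vc r n good M₀ 0 μ = 0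
    · rw [h3, zero_mul]
      exact hvi
    · have h5 := Vc_good r good M₀ 0 μ h3
      rw [hk'] at hμ ⊢
      have h6 := hinitV μ hμ h5
      calc Vc r n good M₀ 0 μ * V M₀ μ ≤ 1 * V M₀ μ :=
            mul_le_mul_of_nonneg_right (Vc_le_one r good M₀ 0 μ) (hV M₀ μ)
        _ ≤ vi := by rw [one_mul]; exact h6
  | succ k ih =>
    intro M hk hM
    refine (step0 r M₁ M₀ good V al hdrift (k + 1) M hk hM).trans ?_
    have h1 := ih (M + 1) (by omega) (by omega)
    have h2 : EM r n (M + 1) (fun μ => Vc r n good M₀ (k + 1) μ * V (M + 1) μ) ≤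
        EM r n (M + 1) (fun μ => Wf r n good M₀ k μ * V (M + 1) μ) :=
      EM_mono r (M + 1) _ _ fun μ _ =>
        mul_le_mul_of_nonneg_right (Vc_succ_le r good M₀ k μ) (hV (M + 1) μ)
    have h3 := mul_le_mul_of_nonneg_left (h2.trans h1) (Real.exp_pos (al (M + 1))).le
    refine h3.trans (le_of_eq ?_)
    rw [Finset.sum_eq_sum_Ico_succ_bot (show M < M₀ by omega), Real.exp_add]
    ring

end Aux

/-- **Abstract drift argument** (going down from level `M₀` to level `M₁`, stopping at the first level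
which is not good). `V` is the inverse of the normalised count.

Proof. Let `W k μ = (∑ Z ∈ Er, Vc k (up μ Z)) / T`, a function on level `M = M₀ - (k + 1)`; `0 ≤ Vc ≤ 1`,
`Vc (k + 1) μ ≤ W k μ`, `EM M (W k) = EM (M + 1) (Vc k)` (definition of `EM`).
(1) `e k = EM M (fun μ => W k μ * V M μ)` satisfies `e k ≤ exp (∑ al) * vi`: by `EM_ex` with
`G ν Z = V M ν * Vc k (up ν Z)` it is `EM (M + 1) (fun μ => Vc k μ * ∑ Z, μ Z / (M + 1) * V M (dn μ Z))`
(`up_dn` if `μ Z ≠ 0`), which by `hdrift` (`Vc k μ = 0` unless `good (M + 1) μ`) is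
`≤ exp (al (M + 1)) EM (M + 1) (fun μ => Vc k μ * V (M + 1) μ)`, and this is `≤ exp (al (M+1)) e (k - 1)`, resp.
for `k = 0` `≤ exp (al M₀) vi` (`hinitV`).
(2) `S k = EM (M₀ - k) (fun μ => Vc k μ + 1[low (M₀ - k) μ])` satisfies `S (k + 1) ≥ S k - ρ - exp a * vi / v₀`:
`S k = EM M (fun μ => (∑ Z, (Vc k (up μ Z) + 1[low (M + 1) (up μ Z)])) / T)`; pointwise at `μ`: if `low M μ` the
integrand is `≤ 1` (`Vc k ν + 1[low ν] ≤ 1` since good excludes low) `≤ Vc (k+1) μ + 1[low]`; if not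
`low M μ`, no `up μ Z` is low, the integrand is `W k μ`, equal to `Vc (k + 1) μ` if `good M μ`, and otherwise
(`hgood`) `rare M μ` or `v₀ ≤ V M μ`, and `W k μ ≤ 1[rare M μ] + W k μ * V M μ / v₀`. Expectation.
(3) `S 0 ≥ 1 - ρ₀`, and `PM M₁ (good M₁) ≥ EM M₁ (Vc (M₀ - M₁)) ≥ S (M₀ - M₁) - PM M₁ (low M₁)`. -/
theorem drift_abs (r n : ℕ) (hT : 0 < (Er r n).card) (M₁ M₀ : ℕ) (h : M₁ ≤ M₀)
    (good low rare : ℕ → Mu n → Prop) (V : ℕ → Mu n → ℝ) (v₀ vi a ρ ρ₀ : ℝ) (al : ℕ → ℝ)
    (hv₀ : 0 < v₀) (hvi : 0 ≤ vi) (hV : ∀ M μ, 0 ≤ V M μ)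
    (hgood : ∀ M μ, M₁ ≤ M → M < M₀ → Lv r n M μ → ¬ good M μ →
      low M μ ∨ rare M μ ∨ v₀ ≤ V M μ)
    (hlow : ∀ M μ Z, M₁ ≤ M → M < M₀ → Z ∈ Er r n → low (M + 1) (up μ Z) → low M μ)
    (hgl : ∀ M μ, good M μ → ¬ low M μ)
    (hrare : ∀ M, M₁ ≤ M → M < M₀ → PM r n M (rare M) ≤ ρ)
    (hinit : PM r n M₀ (fun μ => ¬ good M₀ μ) ≤ ρ₀)
    (hinitV : ∀ μ, Lv r n M₀ μ → good M₀ μ → V M₀ μ ≤ vi)
    (hdrift : ∀ M μ, M₁ ≤ M → M < M₀ → Lv r n (M + 1) μ → good (M + 1) μ →
      ∑ Z ∈ Er r n, (μ Z : ℝ) / (M + 1) * V M (dn μ Z) ≤ Real.exp (al (M + 1)) * V (M + 1) μ)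
    (hal : ∀ M, 0 ≤ al M) (ha : ∑ M ∈ Ico M₁ M₀, al (M + 1) ≤ a) :
    PM r n M₁ (fun μ => ¬ good M₁ μ) ≤ PM r n M₁ (low M₁) + ρ₀ +
      ((M₀ : ℝ) - M₁) * (ρ + Real.exp a * vi / v₀) := by
  have hst := step1 r hT M₁ M₀ good V vi al hvi hV hinitV hdrift
  have hA : ∀ k M : ℕ, M + (k + 1) = M₀ → M₁ ≤ M →
      EM r n M (fun μ => Wf r n good M₀ k μ * V M μ) ≤ Real.exp a * vi := by
    intro k M hk hM
    refine (hst k M hk hM).trans (mul_le_mul_of_nonneg_right (Real.exp_le_exp.2 ?_) hvi)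
    refine le_trans (Finset.sum_le_sum_of_subset_of_nonneg ?_ fun M _ _ => hal _) ha
    intro M' hM'
    rw [Finset.mem_Ico] at hM' ⊢
    omega
  have hS : ∀ k M : ℕ, M + k = M₀ → M₁ ≤ M →
      1 - ρ₀ - k * (ρ + Real.exp a * vi / v₀) ≤
        EM r n M (fun μ => Vc r n good M₀ k μ + ind (low M) μ) := by
    intro k
    induction k with
    | zero =>
      intro M hk hM
      have hk' : M = M₀ := by omega
      subst hk'
      have h1 := PM_compl r M hT (good M)
      have h2 : PM r n M (good M) ≤ EM r n M (fun μ => Vc r n good M 0 μ + ind (low M) μ) := by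
        rw [PM_eq]
        refine EM_mono r M _ _ fun μ _ => ?_
        have h3 : Vc r n good M 0 μ = ind (good M) μ := rfl
        rw [h3]
        linarith [ind_nonneg (low M) μ]
      rw [Nat.cast_zero, zero_mul]
      linarith
    | succ k ih =>
      intro M hk hM
      have h1 := ih (M + 1) (by omega) (by omega)
      have h2 := hA k M hk hM
      have h3 := hrare M hM (by omega)
      have h4 : EM r n (M + 1) (fun μ => Vc r n good M₀ k μ + ind (low (M + 1)) μ) =
          EM r n M (fun μ => (∑ Z ∈ Er r n, (Vc r n good M₀ k (up μ Z) +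
            ind (low (M + 1)) (up μ Z))) / (Er r n).card) := rfl
      have h5 : EM r n M (fun μ => (∑ Z ∈ Er r n, (Vc r n good M₀ k (up μ Z) +
            ind (low (M + 1)) (up μ Z))) / (Er r n).card) ≤
          EM r n M (fun μ => ((Vc r n good M₀ (k + 1) μ + ind (low M) μ) + ind (rare M) μ) +
            1 / v₀ * (Wf r n good M₀ k μ * V M μ)) := by
        refine EM_mono r M _ _ fun μ hμ => ?_
        have g1 : 0 ≤ 1 / v₀ * (Wf r n good M₀ k μ * V M μ) :=
          mul_nonneg (div_nonneg zero_le_one hv₀.le)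
            (mul_nonneg (Wf_nonneg r good M₀ k μ) (hV M μ))
        have g2 := ind_nonneg (rare M) μ
        have g3 := Vc_nonneg r good M₀ (k + 1) μ
        by_cases hl : low M μ
        · have g4 : (∑ Z ∈ Er r n, (Vc r n good M₀ k (up μ Z) +
              ind (low (M + 1)) (up μ Z))) / (Er r n).card ≤ 1 := by
            refine div_le_one_of_le₀ ?_ (Nat.cast_nonneg _)
            have g5 := Finset.sum_le_card_nsmul (Er r n) (fun Z => Vc r n good M₀ k (up μ Z) +
              ind (low (M + 1)) (up μ Z)) 1 fun Z _ => by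
                by_cases g6 : low (M + 1) (up μ Z)
                · have g7 : Vc r n good M₀ k (up μ Z) = 0 := by
                    by_contra g8
                    have g9 := Vc_good r good M₀ k _ g8
                    rw [show M₀ - k = M + 1 by omega] at g9
                    exact hgl _ _ g9 g6
                  rw [g7, ind_pos g6, zero_add]
                · rw [ind_neg g6, add_zero]
                  exact Vc_le_one r good M₀ k _
            rw [nsmul_eq_mul, mul_one] at g5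
            exact g5
          rw [ind_pos hl]
          linarith
        · have g4 : (∑ Z ∈ Er r n, (Vc r n good M₀ k (up μ Z) +
              ind (low (M + 1)) (up μ Z))) / (Er r n).card = Wf r n good M₀ k μ := by
            unfold Wf
            congr 1
            refine Finset.sum_congr rfl fun Z hZ => ?_
            rw [ind_neg fun g6 => hl (hlow M μ Z hM (by omega) hZ g6), add_zero]
          rw [g4, ind_neg hl, add_zero]
          by_cases hg : good M μ
          · have g5 : Vc r n good M₀ (k + 1) μ = Wf r n good M₀ k μ :=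
              Vc_succ_good r good M₀ k μ (by rwa [show M₀ - (k + 1) = M by omega])
            rw [g5]
            linarith
          · rcases hgood M μ hM (by omega) hμ hg with g5 | g5 | g5
            · exact absurd g5 hl
            · rw [ind_pos g5]
              linarith [Wf_le_one r good M₀ k μ]
            · have g6 : Wf r n good M₀ k μ ≤ 1 / v₀ * (Wf r n good M₀ k μ * V M μ) := by
                rw [one_div, inv_mul_eq_div, le_div_iff₀ hv₀]
                exact mul_le_mul_of_nonneg_left g5 (Wf_nonneg r good M₀ k μ)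
              linarith
      rw [EM_add, EM_add, EM_mul] at h5
      rw [h4] at h1
      have h6 : EM r n M (ind (rare M)) ≤ ρ := h3
      have h7 : 1 / v₀ * EM r n M (fun μ => Wf r n good M₀ k μ * V M μ) ≤
          Real.exp a * vi / v₀ := by
        rw [one_div, inv_mul_eq_div]
        exact div_le_div_of_nonneg_right h2 hv₀.le
      push_cast
      linarith
  have h1 := hS (M₀ - M₁) M₁ (by omega) (le_refl _)
  have h2 : EM r n M₁ (fun μ => Vc r n good M₀ (M₀ - M₁) μ + ind (low M₁) μ) ≤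
      PM r n M₁ (good M₁) + PM r n M₁ (low M₁) := by
    rw [EM_add, PM_eq, PM_eq]
    refine add_le_add (EM_mono r M₁ _ _ fun μ _ => ?_) (le_refl _)
    by_cases g1 : good M₁ μ
    · rw [ind_pos g1]
      exact Vc_le_one r good M₀ _ μ
    · have g2 : Vc r n good M₀ (M₀ - M₁) μ = 0 := by
        by_contra g3
        have g4 := Vc_good r good M₀ _ _ g3
        rw [show M₀ - (M₀ - M₁) = M₁ by omega] at g4
        exact g1 g4
      rw [g2]
      exact ind_nonneg _ _
  have h3 := PM_compl r M₁ hT (good M₁)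
  rw [Nat.cast_sub h] at h1
  linarith

end Pool.Agent.LHam
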