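import Pool.Agent.LHam.C9Phi

set_option autoImplicit false

/-! E2. The drift inequality for the inverse of the normalised number of cycles. -/

namespace Pool.Agent.LHam

open Finset

open Classical in
/-- The inverse of the normalised count (`v₀` if the count is `0`). -/
noncomputable def Vinv (r n : ℕ) (v₀ : ℝ) (M : ℕ) (μ : Mu n) : ℝ :=
  if Phi r (toR μ) = 0 then v₀ else Bref r n ((r : ℝ) * M / n) / Phi r (toR μ)

/-- `Bref` at the lower level: `Bref (r M / n) ≤ exp (- m / (M + 1)) Bref (r (M + 1) / n)` for `M > 0`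
(`log (1 - x) ≤ -x`, `m (r - 1) = n`). -/
theorem Bref_step (r m n M : ℕ) (hr : 3 ≤ r) (hm : m * (r - 1) = n) (hn : 0 < n) (hM : 0 < M) :
    Bref r n ((r : ℝ) * M / n) ≤
      Real.exp (-((m : ℝ) / (M + 1))) * Bref r n ((r : ℝ) * (M + 1 : ℕ) / n) := by
  have hr1 : (0 : ℝ) < (r : ℝ) - 1 := by
    have : (3 : ℝ) ≤ r := by exact_mod_cast hr
    linarith
  have hr0 : (0 : ℝ) < r := by linarith
  have hn0 : (0 : ℝ) < n := by exact_mod_cast hn
  have hM0 : (0 : ℝ) < M := by exact_mod_cast hM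
  have hmr : (n : ℝ) / (r - 1) = m := by
    rw [div_eq_iff hr1.ne', ← hm, Nat.cast_mul, Nat.cast_sub (show 1 ≤ r by omega), Nat.cast_one]
  unfold Bref
  rw [hmr, ← Real.exp_add]
  apply Real.exp_le_exp.2
  have h1 : Real.log (((r : ℝ) - 1) * (r * M / n)) =
      Real.log (((r : ℝ) - 1) * (r * (M + 1 : ℕ) / n)) + Real.log ((M : ℝ) / (M + 1)) := by
    rw [← Real.log_mul (mul_pos hr1 (by positivity)).ne' (by positivity)]
    congr 1
    push_cast
    field_simp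
  have h2 : Real.log ((M : ℝ) / (M + 1)) ≤ -(1 / ((M : ℝ) + 1)) := by
    have h := Real.log_le_sub_one_of_pos (show (0 : ℝ) < M / (M + 1) by positivity)
    have h3 : (M : ℝ) / (M + 1) - 1 = -(1 / (M + 1)) := by
      field_simp
      ring
    linarith
  rw [h1]
  have h4 : (m : ℝ) * Real.log (M / (M + 1)) ≤ m * (-(1 / (M + 1))) :=
    mul_le_mul_of_nonneg_left h2 (Nat.cast_nonneg _)
  have h5 : (m : ℝ) * (-(1 / ((M : ℝ) + 1))) = -(m / (M + 1)) := by ring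
  rw [h5] at h4
  linarith

private theorem inv_bd {B P d x : ℝ} (hB : 0 ≤ B) (hP : 0 < P) (hd0 : 0 ≤ d) (hd : d ≤ x * P)
    (hx : x ≤ 1 / 2) : B / (P - d) ≤ B / P * (1 + (1 + 2 * x) * (d / P)) := by
  have hdP : d / P ≤ x := by rwa [div_le_iff₀ hP]
  have hd1 : 0 ≤ d / P := div_nonneg hd0 hP.le
  set e := d / P with he
  have hde : P - d = P * (1 - e) := by
    rw [he]
    field_simp
  have h1e : 0 < 1 - e := by linarith
  rw [hde, ← div_div, div_le_iff₀ h1e, mul_assoc]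
  have h2 : 1 ≤ (1 + (1 + 2 * x) * e) * (1 - e) := by
    nlinarith [mul_nonneg hd1 (sub_nonneg.2 hdP), mul_nonneg hd1 (show 0 ≤ 1 - e - e by linarith)]
  exact le_mul_of_one_le_right (div_nonneg hB hP.le) h2

/-- **Drift inequality.** `ξ Z = dPhi Z / Phi ≤ x ≤ 1/2`, `x = K₂ / D`.

Proof. For `μ Z ≠ 0`: `Phi (dn μ Z) = Phi μ (1 - ξ Z) > 0` (`Phi_dn`), so
`Vinv M (dn μ Z) = Bref(M) / (Phi μ (1 - ξ Z)) ≤ (Bref(M) / Phi μ) (1 + ξ Z + 2 ξ Z^2)`, and
`∑ Z, μ Z ξ Z = m` (`Phi_euler`), `ξ Z^2 ≤ x ξ Z`, `∑ μ Z = M + 1`, so the sum is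
`≤ (Bref(M) / Phi μ) (1 + m / (M + 1) + 2 x m / (M + 1)) ≤ (Bref(M) / Phi μ) exp (m / (M + 1) + 2 x m / (M + 1))`;
`Bref_step`. -/
theorem drift_step (r m n M : ℕ) (hr : 3 ≤ r) (hm : m * (r - 1) = n) (hn : r ≤ n) (hM : 0 < M)
    (v₀ x : ℝ) (hx0 : 0 ≤ x) (hx : x ≤ 1 / 2) (μ : Mu n) (hμ : Lv r n (M + 1) μ)
    (hpos : 0 < Phi r (toR μ)) (hd : ∀ Z, dPhi r (toR μ) Z ≤ x * Phi r (toR μ)) :
    ∑ Z ∈ Er r n, (μ Z : ℝ) / (M + 1) * Vinv r n v₀ M (dn μ Z) ≤
      Real.exp (2 * x * m / (M + 1)) * Vinv r n v₀ (M + 1) μ := by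
  classical
  set P := Phi r (toR μ) with hP
  set B := Bref r n ((r : ℝ) * M / n) with hB
  set B' := Bref r n ((r : ℝ) * (M + 1 : ℕ) / n) with hB'
  have hB0 : 0 ≤ B := (Real.exp_pos _).le
  have hd0 : ∀ Z, 0 ≤ dPhi r (toR μ) Z := dPhi_nonneg r (toR μ) fun Z => Nat.cast_nonneg _
  have hM1 : (0 : ℝ) < (M : ℝ) + 1 := by positivity
  have hterm : ∀ Z ∈ Er r n, (μ Z : ℝ) / (M + 1) * Vinv r n v₀ M (dn μ Z) ≤
      B / P / (M + 1) * ((μ Z : ℝ) + (1 + 2 * x) * ((μ Z : ℝ) * dPhi r (toR μ) Z / P)) := by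
    intro Z hZ
    by_cases h0 : μ Z = 0
    · rw [h0]
      simp
    · have h1 := Phi_dn r hr hn μ Z hZ h0
      have h2 : 0 < P - dPhi r (toR μ) Z := by
        have := hd Z
        nlinarith
      have h3 : Vinv r n v₀ M (dn μ Z) = B / (P - dPhi r (toR μ) Z) := by
        unfold Vinv
        rw [h1, if_neg h2.ne']
      rw [h3]
      have h4 := inv_bd hB0 hpos (hd0 Z) (hd Z) hx
      calc (μ Z : ℝ) / (M + 1) * (B / (P - dPhi r (toR μ) Z)) ≤
          (μ Z : ℝ) / (M + 1) * (B / P * (1 + (1 + 2 * x) * (dPhi r (toR μ) Z / P))) :=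
            mul_le_mul_of_nonneg_left h4 (by positivity)
        _ = _ := by ring
  have hsum : ∑ Z ∈ Er r n, (μ Z : ℝ) = M + 1 := by
    have := hμ.2
    exact_mod_cast this
  have heul : ∑ Z ∈ Er r n, (μ Z : ℝ) * dPhi r (toR μ) Z = m * P :=
    Phi_euler r m hr hm hn (toR μ)
  have hV : Vinv r n v₀ (M + 1) μ = B' / P := by
    unfold Vinv
    rw [if_neg hpos.ne']
  have hstep : B ≤ Real.exp (-((m : ℝ) / (M + 1))) * B' :=
    Bref_step r m n M hr hm (by omega) hM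
  rw [hV]
  calc ∑ Z ∈ Er r n, (μ Z : ℝ) / (M + 1) * Vinv r n v₀ M (dn μ Z)
      ≤ ∑ Z ∈ Er r n, B / P / (M + 1) *
        ((μ Z : ℝ) + (1 + 2 * x) * ((μ Z : ℝ) * dPhi r (toR μ) Z / P)) :=
        Finset.sum_le_sum hterm
    _ = B / P * (1 + (m : ℝ) / (M + 1) + 2 * x * m / (M + 1)) := by
      rw [← Finset.mul_sum, Finset.sum_add_distrib, hsum, ← Finset.mul_sum, ← Finset.sum_div,
        heul, mul_div_assoc (m : ℝ), div_self hpos.ne', mul_one]
      field_simp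
      ring
    _ ≤ B / P * Real.exp ((m : ℝ) / (M + 1) + 2 * x * m / (M + 1)) := by
      refine mul_le_mul_of_nonneg_left ?_ (div_nonneg hB0 hpos.le)
      have := Real.add_one_le_exp ((m : ℝ) / (M + 1) + 2 * x * m / (M + 1))
      linarith
    _ ≤ Real.exp (-((m : ℝ) / (M + 1))) * B' / P *
        Real.exp ((m : ℝ) / (M + 1) + 2 * x * m / (M + 1)) := by
      refine mul_le_mul_of_nonneg_right ?_ (Real.exp_pos _).le
      exact div_le_div_of_nonneg_right hstep hpos.le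
    _ = Real.exp (2 * x * m / (M + 1)) * (B' / P) := by
      rw [Real.exp_add, Real.exp_neg]
      have := (Real.exp_pos ((m : ℝ) / (M + 1))).ne'
      field_simp

end Pool.Agent.LHam
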