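import Pool.Agent.LHam.C2Sys

set_option autoImplicit false

/-! F4a. The number of linear Hamiltonian cycles. -/

namespace Pool.Agent.LHam

open Finset

section Aux

variable {s m : ℕ}

/-- The vertex at the place `i` of the edge `j`. -/
private def fcP (π : Equiv.Perm (Fin (m * (s + 1)))) (j : Fin m) (i : Fin (s + 1)) :
    Fin (m * (s + 1)) := π (finProdFinEquiv (j, i))

private theorem fcP_inj (π : Equiv.Perm (Fin (m * (s + 1)))) {j j' : Fin m} {i i' : Fin (s + 1)}
    (h : fcP π j i = fcP π j' i') : j = j' ∧ i = i' := by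
  have h1 := finProdFinEquiv.injective (π.injective h)
  exact Prod.mk.inj h1

/-- The inner set of the edge `j`. -/
private def fcJ (π : Equiv.Perm (Fin (m * (s + 1)))) (j : Fin m) : Finset (Fin (m * (s + 1))) :=
  univ.image fun i : Fin s => fcP π j i.succ

private theorem fcJ_inj (π : Equiv.Perm (Fin (m * (s + 1)))) (j : Fin m) :
    Function.Injective fun i : Fin s => fcP π j i.succ := by
  intro i i' h
  exact Fin.succ_injective _ (fcP_inj π h).2

private theorem fcJ_card (π : Equiv.Perm (Fin (m * (s + 1)))) (j : Fin m) :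
    (fcJ π j).card = s := by
  unfold fcJ
  rw [card_image_of_injective _ (fcJ_inj π j), card_univ, Fintype.card_fin]

variable [NeZero m]

/-- The edge `j`. -/
private def fcO (π : Equiv.Perm (Fin (m * (s + 1)))) (j : ℕ) : OE (m * (s + 1)) :=
  ⟨fcP π (Fin.ofNat m j) 0, fcJ π (Fin.ofNat m j), fcP π (Fin.ofNat m (j + 1)) 0⟩

/-- The cycle of a permutation. -/
private def fcL (π : Equiv.Perm (Fin (m * (s + 1)))) : List (OE (m * (s + 1))) :=
  (List.range m).map (fcO π)

private theorem fc_conn (π : Equiv.Perm (Fin (m * (s + 1)))) (k a : ℕ) :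
    Conn (fcP π (Fin.ofNat m a) 0) ((List.range' a k).map (fcO π))
      (fcP π (Fin.ofNat m (a + k)) 0) := by
  induction k generalizing a with
  | zero => exact rfl
  | succ k ih =>
    rw [List.range'_succ, List.map_cons]
    refine ⟨rfl, ?_⟩
    have h := ih (a + 1)
    rw [add_assoc, add_comm 1 k] at h
    exact h

private theorem fc_conn' (π : Equiv.Perm (Fin (m * (s + 1)))) :
    Conn (fcP π 0 0) (fcL π) (fcP π 0 0) := by
  have h := fc_conn π m 0
  have h0 : (Fin.ofNat m 0 : Fin m) = 0 := by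
    ext
    simp
  have h1 : (Fin.ofNat m (0 + m) : Fin m) = 0 := by
    ext
    simp
  rw [h0, h1, ← List.range_eq_range'] at h
  exact h

private theorem fc_verts (π : Equiv.Perm (Fin (m * (s + 1)))) :
    verts (fcL π) = (univ : Finset (Fin (m * (s + 1)))).val := by
  classical
  have h1 : verts (fcL π) = ∑ j ∈ range m, ((fcO π j).x ::ₘ (fcO π j).J.val) := by
    unfold verts fcL
    rw [List.map_map]
    rfl
  rw [h1, Finset.sum_range]
  have h2 : ∀ j : Fin m, ((fcO π j).x ::ₘ (fcO π j).J.val) =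
      ∑ i : Fin (s + 1), {fcP π j i} := by
    intro j
    rw [Fin.sum_univ_succ]
    have h3 : (Fin.ofNat m (j : ℕ) : Fin m) = j := by
      ext
      simp
    have h4 : (fcO π j).x = fcP π j 0 := by
      show fcP π (Fin.ofNat m (j : ℕ)) 0 = _
      rw [h3]
    have h5 : (fcO π j).J = fcJ π j := by
      show fcJ π (Fin.ofNat m (j : ℕ)) = _
      rw [h3]
    rw [h4, h5, ← Multiset.singleton_add]
    congr 1
    rw [← Finset.sum_multiset_singleton (fcJ π j)]
    unfold fcJ
    rw [Finset.sum_image fun a _ b _ h => fcJ_inj π j h]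
  rw [Finset.sum_congr rfl fun j _ => h2 j, ← Finset.sum_multiset_singleton,
    ← Fintype.sum_prod_type' (fun (j : Fin m) (i : Fin (s + 1)) => ({fcP π j i} : Multiset _))]
  exact Fintype.sum_equiv (finProdFinEquiv.trans π) _ _ fun p => rfl

private theorem fc_cyc (π : Equiv.Perm (Fin (m * (s + 1)))) : IsCyc (s + 2) (fcL π) := by
  refine ⟨?_, ⟨_, fc_conn' π⟩, ?_, fc_verts π⟩
  · intro h
    have h1 := congrArg List.length h
    unfold fcL at h1
    rw [List.length_map, List.length_range, List.length_nil] at h1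
    exact NeZero.ne m h1
  · intro o ho
    unfold fcL at ho
    obtain ⟨j, _, rfl⟩ := List.mem_map.1 ho
    exact fcJ_card π _

private theorem fc_mem (π : Equiv.Perm (Fin (m * (s + 1)))) :
    (fcL π).toFinset ∈ CF (s + 2) (m * (s + 1)) := by
  classical
  unfold CF
  exact mem_filter.2 ⟨mem_univ _, fcL π, fc_cyc π, rfl⟩

/-- The number of a vertex of `J`. -/
private noncomputable def fcI {n : ℕ} (hs : 0 < s) (J : Finset (Fin n)) (v : Fin n) : Fin s :=
  if h : J.card = s ∧ v ∈ J then J.equivFinOfCardEq h.1 ⟨v, h.2⟩ else ⟨0, hs⟩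

private theorem fcI_inj {n : ℕ} (hs : 0 < s) (J : Finset (Fin n)) (hJ : J.card = s) {v w : Fin n}
    (hv : v ∈ J) (hw : w ∈ J) (h : fcI hs J v = fcI hs J w) : v = w := by
  unfold fcI at h
  rw [dif_pos ⟨hJ, hv⟩, dif_pos ⟨hJ, hw⟩] at h
  exact congrArg Subtype.val ((J.equivFinOfCardEq hJ).injective h)

omit [NeZero m] in
private theorem fc_memJ (π : Equiv.Perm (Fin (m * (s + 1)))) (j : Fin m) (i : Fin s) :
    fcP π j i.succ ∈ fcJ π j := mem_image_of_mem _ (mem_univ i)

/-- The code of a permutation. -/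
private noncomputable def fcC (hs : 0 < s) (π : Equiv.Perm (Fin (m * (s + 1)))) :
    Fin (m * (s + 1)) × (Fin m → Equiv.Perm (Fin s)) :=
  (fcP π 0 0, fun j => Equiv.ofBijective (fun i => fcI hs (fcJ π j) (fcP π j i.succ))
    (Finite.injective_iff_bijective.1 fun i i' h =>
      fcJ_inj π j (fcI_inj hs _ (fcJ_card π j) (fc_memJ π j i) (fc_memJ π j i') h)))

private theorem fcC_inj (hs : 0 < s) (hn : s + 2 ≤ m * (s + 1))
    (π π' : Equiv.Perm (Fin (m * (s + 1)))) (hF : (fcL π).toFinset = (fcL π').toFinset)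
    (h : fcC hs π = fcC hs π') : π = π' := by
  have h1 : fcP π 0 0 = fcP π' 0 0 := congrArg Prod.fst h
  have h2 : fcL π = fcL π' := by
    refine list_unique (fcP π 0 0) (fcP π 0 0) (fcP π' 0 0) _ _ (fc_conn' π) ?_
      (cyc_nodup (s + 2) (by omega) hn _ (fc_cyc π)).1
      (cyc_nodup (s + 2) (by omega) hn _ (fc_cyc π')).1 hF
    rw [h1]
    exact fc_conn' π'
  have h3 : ∀ j : Fin m, fcP π j 0 = fcP π' j 0 ∧ fcJ π j = fcJ π' j := by
    intro j
    unfold fcL at h2
    have h4 := List.map_inj_left.1 h2 j (List.mem_range.2 j.2)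
    have h5 : (Fin.ofNat m (j : ℕ) : Fin m) = j := by
      ext
      simp
    have h6 := congrArg OE.x h4
    have h7 := congrArg OE.J h4
    unfold fcO at h6 h7
    dsimp only at h6 h7
    rw [h5] at h6 h7
    exact ⟨h6, h7⟩
  have h4 : ∀ (j : Fin m) (i : Fin (s + 1)), fcP π j i = fcP π' j i := by
    intro j i
    refine Fin.cases (h3 j).1 (fun i => ?_) i
    have h5 : ((fcC hs π).2 j) i = ((fcC hs π').2 j) i := by rw [h]
    have h6 : fcI hs (fcJ π j) (fcP π j i.succ) = fcI hs (fcJ π' j) (fcP π' j i.succ) := h5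
    rw [(h3 j).2] at h6
    refine fcI_inj hs _ (fcJ_card π' j) ?_ (fc_memJ π' j i) h6
    rw [← (h3 j).2]
    exact fc_memJ π j i
  refine Equiv.ext fun v => ?_
  obtain ⟨p, rfl⟩ := finProdFinEquiv.surjective v
  exact h4 p.1 p.2

private theorem fc_main (hs : 0 < s) (hn : s + 2 ≤ m * (s + 1)) :
    (m * (s + 1)).factorial ≤ (CF (s + 2) (m * (s + 1))).card *
      (m * (s + 1) * (s.factorial) ^ m) := by
  classical
  have h1 : (univ : Finset (Equiv.Perm (Fin (m * (s + 1))))).card = (m * (s + 1)).factorial := by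
    rw [card_univ, Fintype.card_perm, Fintype.card_fin]
  rw [← h1, mul_comm (CF (s + 2) (m * (s + 1))).card]
  refine card_le_mul_card_image_of_maps_to (f := fun π => (fcL π).toFinset)
    (fun π _ => fc_mem π) _ fun F _ => ?_
  refine (card_le_card_of_injOn (t := univ) (fcC hs) (fun _ _ => mem_univ _) ?_).trans ?_
  · intro π hπ π' hπ' h
    rw [mem_coe, mem_filter] at hπ hπ'
    exact fcC_inj hs hn π π' (hπ.2.trans hπ'.2.symm) h
  · rw [card_univ, Fintype.card_prod, Fintype.card_fin, Fintype.card_fun, Fintype.card_perm,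
      Fintype.card_fin, Fintype.card_fin]

end Aux

/-- The number of (oriented) linear Hamiltonian cycles is at least `n! / (n ((r-2)!)^m)`,
`m (r - 1) = n`.

Proof. Map a permutation `π` of the vertices to the set of the oriented edges
`(π (j (r-1)), {π (j (r-1) + 1), .., π (j (r-1) + r - 2)}, π ((j + 1) (r - 1) mod n))`, `j < m`;
it is in `CF r n`. For `F ∈ CF r n` there are at most `n ((r-2)!)^m` permutations `π` with image
`F`: the first edge (`m ≤ n` possibilities) determines the list (`list_unique`), and `π` is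
determined by the list and the orders of the inner sets. -/
theorem card_CF (r m n : ℕ) (hr : 3 ≤ r) (hm : m * (r - 1) = n) (hn : r ≤ n) :
    n.factorial ≤ (CF r n).card * (n * ((r - 2).factorial) ^ m) := by
  obtain ⟨s, rfl⟩ : ∃ s, r = s + 2 := ⟨r - 2, by omega⟩
  have h1 : s + 2 - 1 = s + 1 := rfl
  have h2 : s + 2 - 2 = s := rfl
  rw [h1] at hm
  rw [h2]
  subst hm
  have hm0 : m ≠ 0 := by
    rintro rfl
    omega
  have : NeZero m := ⟨hm0⟩
  exact fc_main (by omega) hn

end Pool.Agent.LHam
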