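import Pool.Agent.LHam.P2Dep

set_option autoImplicit false

/-! F1. Degrees and codegrees at level `M`. -/

namespace Pool.Agent.LHam

open Finset

private theorem fd_card (r n : ℕ) (T : Finset (Fin n)) (hT : T.card ≤ r) :
    ((Er r n).filter (fun Z => T ⊆ Z)).card = (n - T.card).choose (r - T.card) := by
  have h1 : (n - T.card).choose (r - T.card) = (powersetCard (r - T.card) Tᶜ).card := by
    rw [card_powersetCard, card_compl, Fintype.card_fin]
  rw [h1]
  refine Finset.card_nbij' (fun Z => Z \ T) (fun W => W ∪ T) ?_ ?_ ?_ ?_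
  · intro Z hZ
    obtain ⟨hZ1, hZ2⟩ := Finset.mem_filter.1 (Finset.mem_coe.1 hZ)
    have hZ3 := (mem_powersetCard.1 hZ1).2
    refine Finset.mem_coe.2 (mem_powersetCard.2 ⟨fun x hx => ?_, ?_⟩)
    · exact mem_compl.2 (Finset.mem_sdiff.1 hx).2
    · change (Z \ T).card = r - T.card
      rw [card_sdiff_of_subset hZ2, hZ3]
  · intro W hW
    obtain ⟨hW1, hW2⟩ := mem_powersetCard.1 (Finset.mem_coe.1 hW)
    have hd : Disjoint W T := Finset.disjoint_left.2 fun x hx hx' => mem_compl.1 (hW1 hx) hx'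
    refine Finset.mem_coe.2 (Finset.mem_filter.2 ⟨mem_powersetCard.2 ⟨subset_univ _, ?_⟩,
      subset_union_right⟩)
    change (W ∪ T).card = r
    rw [card_union_of_disjoint hd, hW2]
    omega
  · intro Z hZ
    obtain ⟨hZ1, hZ2⟩ := Finset.mem_filter.1 (Finset.mem_coe.1 hZ)
    exact Finset.sdiff_union_of_subset hZ2
  · intro W hW
    obtain ⟨hW1, hW2⟩ := mem_powersetCard.1 (Finset.mem_coe.1 hW)
    have hd : Disjoint W T := Finset.disjoint_left.2 fun x hx hx' => mem_compl.1 (hW1 hx) hx'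
    exact Finset.union_sdiff_cancel_right hd

private theorem fd_union (r n M : ℕ) {ι : Type} (s : Finset ι) (A : ι → Mu n → Prop) (b : ℝ)
    (h : ∀ v ∈ s, PM r n M (A v) ≤ b) : PM r n M (fun μ => ∃ v ∈ s, A v μ) ≤ s.card * b := by
  refine (PM_exists r M s A).trans ((Finset.sum_le_sum h).trans ?_)
  rw [Finset.sum_const, nsmul_eq_mul]

private theorem fd_pos (r n : ℕ) (hn : r ≤ n) : 0 < (Er r n).card := by
  rw [card_Er]
  exact Nat.choose_pos hn

private theorem fd_num (r M n D : ℝ) (hn : 3 ≤ n) (hr : 1 ≤ r) (hD : D = r * M / n)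
    (hD0 : 0 ≤ D) : M * (r * (r - 1) / (n * (n - 1))) * (Real.sqrt n - 1) ≤ D * r := by
  have hn0 : 0 < n := by linarith
  have hs1 : 1 ≤ Real.sqrt n := by
    rw [Real.one_le_sqrt]
    linarith
  have h1 : n - 1 = (Real.sqrt n - 1) * (Real.sqrt n + 1) := by
    have h2 := Real.mul_self_sqrt hn0.le
    linear_combination (-1 : ℝ) * h2
  have h3 : M * (r * (r - 1) / (n * (n - 1))) * (Real.sqrt n - 1) =
      D * ((r - 1) * ((Real.sqrt n - 1) / (n - 1))) := by
    have h4 : n - 1 ≠ 0 := by linarith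
    rw [hD, mul_div_assoc' (r - 1), div_mul_div_comm, mul_div_assoc', div_mul_eq_mul_div]
    congr 1
    ring
  rw [h3]
  refine mul_le_mul_of_nonneg_left ?_ hD0
  have h4 : (Real.sqrt n - 1) / (n - 1) ≤ 1 := by
    rw [div_le_one (by linarith), h1]
    exact le_mul_of_one_le_right (by linarith) (by linarith)
  have h5 : (r - 1) * ((Real.sqrt n - 1) / (n - 1)) ≤ (r - 1) * 1 :=
    mul_le_mul_of_nonneg_left h4 (by linarith)
  linarith

/-- The proportion of the `r`-sets containing a vertex is `r / n`, containing two vertices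
`r (r - 1) / (n (n - 1))`. -/
theorem card_contain (r n : ℕ) (hr : 3 ≤ r) (hn : r ≤ n) (v : Fin n) :
    (((Er r n).filter (fun Z => v ∈ Z)).card : ℝ) = (r : ℝ) / n * (Er r n).card := by
  have h1 : (Er r n).filter (fun Z => v ∈ Z) = (Er r n).filter (fun Z => {v} ⊆ Z) := by
    refine Finset.filter_congr fun Z _ => ?_
    rw [Finset.singleton_subset_iff]
  rw [h1, fd_card r n {v} (by rw [card_singleton]; omega), card_singleton, card_Er]
  obtain ⟨r, rfl⟩ : ∃ r', r = r' + 1 := ⟨r - 1, by omega⟩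
  obtain ⟨n, rfl⟩ : ∃ n', n = n' + 1 := ⟨n - 1, by omega⟩
  have h2 : (((n + 1) * n.choose r : ℕ) : ℝ) = (((n + 1).choose (r + 1) * (r + 1) : ℕ) : ℝ) :=
    congrArg _ (Nat.add_one_mul_choose_eq n r)
  rw [Nat.add_sub_cancel, Nat.add_sub_cancel, div_mul_eq_mul_div, eq_div_iff (by positivity)]
  push_cast at h2 ⊢
  linarith

theorem card_contain2 (r n : ℕ) (hr : 3 ≤ r) (hn : r ≤ n) (u v : Fin n) (huv : u ≠ v) :
    (((Er r n).filter (fun Z => u ∈ Z ∧ v ∈ Z)).card : ℝ) =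
      (r : ℝ) * (r - 1) / (n * (n - 1)) * (Er r n).card := by
  have h1 : (Er r n).filter (fun Z => u ∈ Z ∧ v ∈ Z) =
      (Er r n).filter (fun Z => {u, v} ⊆ Z) := by
    refine Finset.filter_congr fun Z _ => ?_
    rw [Finset.insert_subset_iff, Finset.singleton_subset_iff]
  rw [h1, fd_card r n {u, v} (by rw [card_pair huv]; omega), card_pair huv, card_Er]
  obtain ⟨r, rfl⟩ : ∃ r', r = r' + 2 := ⟨r - 2, by omega⟩
  obtain ⟨n, rfl⟩ : ∃ n', n = n' + 2 := ⟨n - 2, by omega⟩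
  have h2 : (((n + 1) * n.choose r : ℕ) : ℝ) = (((n + 1).choose (r + 1) * (r + 1) : ℕ) : ℝ) :=
    congrArg _ (Nat.add_one_mul_choose_eq n r)
  have h3 : (((n + 1 + 1) * (n + 1).choose (r + 1) : ℕ) : ℝ) =
      (((n + 1 + 1).choose (r + 1 + 1) * (r + 1 + 1) : ℕ) : ℝ) :=
    congrArg _ (Nat.add_one_mul_choose_eq (n + 1) (r + 1))
  have h4 : ((n + 2 : ℕ) : ℝ) * (((n + 2 : ℕ) : ℝ) - 1) ≠ 0 := by
    push_cast
    have : (0 : ℝ) ≤ n := Nat.cast_nonneg n
    have h5 : (0 : ℝ) < (n + 2) * (n + 2 - 1) := by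
      apply mul_pos <;> linarith
    exact h5.ne'
  rw [Nat.add_sub_cancel, Nat.add_sub_cancel, div_mul_eq_mul_div, eq_div_iff h4]
  push_cast at h2 h3 ⊢
  calc ((n.choose r : ℕ) : ℝ) * (((n : ℝ) + 2) * ((n : ℝ) + 2 - 1))
      = ((n : ℝ) + 2) * (((n : ℝ) + 1) * (n.choose r : ℕ)) := by ring
    _ = (((n : ℝ) + 1 + 1) * ((n + 1).choose (r + 1) : ℕ)) * ((r : ℝ) + 1) := by
        rw [h2]
        ring
    _ = ((r : ℝ) + 2) * ((r : ℝ) + 2 - 1) * ((n + 2).choose (r + 2) : ℕ) := by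
        rw [h3]
        ring

/-- **Upper tail of the degrees.** `PM_upper` with `q = r / n`, `s = e`, `x = K D`: each vertex
`≤ exp (-K D + D (e - 1))`; `K = C₁ + 4`, union bound over `n` vertices. (`M q = D`.) -/
theorem deg_upper (r : ℕ) (hr : 3 ≤ r) (C₁ : ℝ) (hC : 0 < C₁) :
    ∃ K : ℝ, 1 ≤ K ∧ ∃ n₀ : ℕ, ∀ n ≥ n₀, ∀ M : ℕ, Real.log n ≤ (r : ℝ) * M / n →
      PM r n M (fun μ => ∃ v, K * ((r : ℝ) * M / n) < deg r (toR μ) v) ≤
        Real.exp (-(C₁ * Real.log n)) := by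
  refine ⟨C₁ + 4, by linarith, r, fun n hn M hM => ?_⟩
  have hT := fd_pos r n hn
  have hn0 : (0 : ℝ) < n := by
    have : 0 < n := by omega
    exact_mod_cast this
  have hlog : 0 ≤ Real.log n := Real.log_nonneg (by
    have : 1 ≤ n := by omega
    exact_mod_cast this)
  set D : ℝ := (r : ℝ) * M / n with hD
  have hq : (M : ℝ) * ((r : ℝ) / n) = D := by
    rw [hD]
    ring
  have he := Real.exp_one_lt_d9
  have key : ∀ v ∈ (univ : Finset (Fin n)), PM r n M (fun μ => (C₁ + 4) * D <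
      deg r (toR μ) v) ≤ Real.exp (-((C₁ + 2) * Real.log n)) := by
    intro v _
    refine (PM_mono r M _ (fun μ => (C₁ + 4) * D ≤
      ∑ Z ∈ (Er r n).filter (fun Z => v ∈ Z), (μ Z : ℝ)) fun μ _ h => h.le).trans ?_
    refine (PM_upper r M hT ((r : ℝ) / n) (Real.exp 1) (Real.one_le_exp zero_le_one) _
      (Finset.filter_subset _ _) (card_contain r n hr hn v).le _).trans ?_
    rw [hq, Real.log_exp, ← Real.exp_add]
    refine Real.exp_le_exp.2 ?_
    have h1 : D * (Real.exp 1 - 1) ≤ D * 2 :=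
      mul_le_mul_of_nonneg_left (by linarith) (hlog.trans hM)
    have h2 : (C₁ + 2) * Real.log n ≤ (C₁ + 2) * D :=
      mul_le_mul_of_nonneg_left hM (by linarith)
    linarith
  refine (PM_mono r M _ (fun μ => ∃ v ∈ (univ : Finset (Fin n)), (C₁ + 4) * D <
    deg r (toR μ) v) fun μ _ ⟨v, hv⟩ => ⟨v, mem_univ v, hv⟩).trans
    ((fd_union r n M univ _ _ key).trans ?_)
  rw [card_univ, Fintype.card_fin]
  conv_lhs => rw [← Real.exp_log hn0]
  rw [Real.log_exp, ← Real.exp_add]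
  refine Real.exp_le_exp.2 ?_
  linarith

/-- **Upper tail of the codegrees.** `PM_upper` with `q = r (r - 1) / (n (n - 1))`, `s = √n`,
`x = η D`: `≤ exp (-(1/2) η D log n + 2 r D n^(-1/2)) ≤ exp (-(1/4) η (log n)^2)`, union bound over `n^2` pairs. -/
theorem codeg_upper (r : ℕ) (hr : 3 ≤ r) (C₁ η : ℝ) (hC : 0 < C₁) (hη : 0 < η) :
    ∃ n₀ : ℕ, ∀ n ≥ n₀, ∀ M : ℕ, Real.log n ≤ (r : ℝ) * M / n →
      PM r n M (fun μ => ∃ u v : Fin n, u ≠ v ∧
        η * ((r : ℝ) * M / n) < codeg r (toR μ) u v) ≤ Real.exp (-(C₁ * Real.log n)) := by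
  have hlim : Filter.Tendsto (fun n : ℕ => Real.log n) Filter.atTop Filter.atTop :=
    Real.tendsto_log_atTop.comp tendsto_natCast_atTop_atTop
  obtain ⟨n₁, hn₁⟩ := Filter.eventually_atTop.1
    (hlim.eventually_ge_atTop ((C₁ + 2 + r) / (η / 2)))
  refine ⟨max n₁ r, fun n hn' M hM => ?_⟩
  have hn : r ≤ n := (le_max_right _ _).trans hn'
  have hln := hn₁ n ((le_max_left _ _).trans hn')
  rw [div_le_iff₀ (by linarith)] at hln
  have hT := fd_pos r n hn
  have hn3 : (3 : ℝ) ≤ n := by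
    have : 3 ≤ n := by omega
    exact_mod_cast this
  have hn0 : (0 : ℝ) < n := by linarith
  have hlog : 0 ≤ Real.log n := Real.log_nonneg (by linarith)
  set D : ℝ := (r : ℝ) * M / n with hD
  have hD0 : 0 ≤ D := hlog.trans hM
  have hs1 : 1 ≤ Real.sqrt n := by
    rw [Real.one_le_sqrt]
    linarith
  have hr1 : (1 : ℝ) ≤ r := by
    have : 1 ≤ r := by omega
    exact_mod_cast this
  have hq : (M : ℝ) * ((r : ℝ) * (r - 1) / (n * (n - 1))) * (Real.sqrt n - 1) ≤ D * r :=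
    fd_num r M n D hn3 hr1 hD hD0
  have key : ∀ p ∈ (univ : Finset (Fin n × Fin n)).filter (fun p => p.1 ≠ p.2),
      PM r n M (fun μ => η * D < codeg r (toR μ) p.1 p.2) ≤
        Real.exp (-((C₁ + 2) * Real.log n)) := by
    intro p hp
    have hne := (Finset.mem_filter.1 hp).2
    refine (PM_mono r M _ (fun μ => η * D ≤
      ∑ Z ∈ (Er r n).filter (fun Z => p.1 ∈ Z ∧ p.2 ∈ Z), (μ Z : ℝ)) fun μ _ h => h.le).trans ?_
    refine (PM_upper r M hT ((r : ℝ) * (r - 1) / (n * (n - 1))) (Real.sqrt n) hs1 _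
      (Finset.filter_subset _ _) (card_contain2 r n hr hn p.1 p.2 hne).le _).trans ?_
    rw [Real.log_sqrt hn0.le, ← Real.exp_add]
    refine Real.exp_le_exp.2 ?_
    have h1 : (C₁ + 2 + r) * D ≤ Real.log n * (η / 2) * D :=
      mul_le_mul_of_nonneg_right hln hD0
    have h2 : (C₁ + 2) * Real.log n ≤ (C₁ + 2) * D :=
      mul_le_mul_of_nonneg_left hM (by linarith)
    linarith
  refine (PM_mono r M _ (fun μ => ∃ p ∈ (univ : Finset (Fin n × Fin n)).filter
    (fun p => p.1 ≠ p.2), η * D < codeg r (toR μ) p.1 p.2) fun μ _ ⟨u, v, huv, h⟩ =>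
      ⟨(u, v), Finset.mem_filter.2 ⟨mem_univ _, huv⟩, h⟩).trans
    ((fd_union r n M _ _ _ key).trans ?_)
  have hcard : ((((univ : Finset (Fin n × Fin n)).filter (fun p => p.1 ≠ p.2)).card : ℕ) : ℝ) ≤
      Real.exp (2 * Real.log n) := by
    have h1 : ((univ : Finset (Fin n × Fin n)).filter (fun p => p.1 ≠ p.2)).card ≤ n * n := by
      refine (Finset.card_filter_le _ _).trans ?_
      rw [card_univ, Fintype.card_prod, Fintype.card_fin]
    have h2 : Real.exp (2 * Real.log n) = n * n := by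
      rw [two_mul, Real.exp_add, Real.exp_log hn0]
    rw [h2]
    exact_mod_cast h1
  refine (mul_le_mul_of_nonneg_right hcard (Real.exp_pos _).le).trans ?_
  rw [← Real.exp_add]
  refine Real.exp_le_exp.2 ?_
  linarith

/-- **Lower tail of the degrees near the threshold.** `PM_lower` with `q = r / n`,
`x = δ₁ log n`: each vertex `≤ exp (δ₁ log n log (1 / s) - D (1 - s))`; choose `s` with
`(1 + ε) (1 - s) ≥ 1 + ε / 2` and `δ₁ log (1 / s) ≤ ε / 4`. -/
theorem deg_low (r : ℕ) (hr : 3 ≤ r) (ε : ℝ) (hε : 0 < ε) :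
    ∃ δ₁ : ℝ, 0 < δ₁ ∧ δ₁ ≤ 1 ∧ ∃ n₀ : ℕ, ∀ n ≥ n₀, ∀ M : ℕ,
      (1 + ε) * Real.log n ≤ (r : ℝ) * M / n →
      PM r n M (fun μ => ∃ v, deg r (toR μ) v < δ₁ * Real.log n) ≤
        Real.exp (-(ε / 4 * Real.log n)) := by
  set s : ℝ := ε / (2 * (1 + ε)) with hs
  have hs0 : 0 < s := by positivity
  have hs1 : s < 1 := by
    rw [hs, div_lt_one (by positivity)]
    linarith
  have hs2 : (1 + ε) * (1 - s) = 1 + ε / 2 := by
    rw [hs]
    field_simp
    ring
  have hL : 0 < -Real.log s := by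
    have := Real.log_neg hs0 hs1
    linarith
  refine ⟨min 1 (ε / 4 / -Real.log s), lt_min one_pos (by positivity), min_le_left _ _, r,
    fun n hn M hM => ?_⟩
  set δ : ℝ := min 1 (ε / 4 / -Real.log s) with hδ
  have hδ1 : δ * -Real.log s ≤ ε / 4 := by
    rw [← le_div_iff₀ hL]
    exact min_le_right _ _
  have hT := fd_pos r n hn
  have hn0 : (0 : ℝ) < n := by
    have : 0 < n := by omega
    exact_mod_cast this
  have hlog : 0 ≤ Real.log n := Real.log_nonneg (by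
    have : 1 ≤ n := by omega
    exact_mod_cast this)
  set D : ℝ := (r : ℝ) * M / n with hD
  have hq : (M : ℝ) * ((r : ℝ) / n) = D := by
    rw [hD]
    ring
  have key : ∀ v ∈ (univ : Finset (Fin n)), PM r n M (fun μ =>
      deg r (toR μ) v < δ * Real.log n) ≤ Real.exp (-((1 + ε / 4) * Real.log n)) := by
    intro v _
    refine (PM_mono r M _ (fun μ => ∑ Z ∈ (Er r n).filter (fun Z => v ∈ Z), (μ Z : ℝ) ≤
      δ * Real.log n) fun μ _ h => h.le).trans ?_
    refine (PM_lower r M hT ((r : ℝ) / n) s hs0 hs1.le _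
      (Finset.filter_subset _ _) (card_contain r n hr hn v).ge _).trans ?_
    rw [hq, ← Real.exp_add]
    refine Real.exp_le_exp.2 ?_
    have h1 : (δ * -Real.log s) * Real.log n ≤ ε / 4 * Real.log n :=
      mul_le_mul_of_nonneg_right hδ1 hlog
    have h2 : (1 + ε) * Real.log n * (1 - s) ≤ D * (1 - s) :=
      mul_le_mul_of_nonneg_right hM (by linarith)
    have h3 : (1 + ε) * Real.log n * (1 - s) = (1 + ε / 2) * Real.log n := by
      rw [← hs2]
      ring
    linarith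
  refine (PM_mono r M _ (fun μ => ∃ v ∈ (univ : Finset (Fin n)),
    deg r (toR μ) v < δ * Real.log n) fun μ _ ⟨v, hv⟩ => ⟨v, mem_univ v, hv⟩).trans
    ((fd_union r n M univ _ _ key).trans ?_)
  rw [card_univ, Fintype.card_fin]
  conv_lhs => rw [← Real.exp_log hn0]
  rw [Real.log_exp, ← Real.exp_add]
  refine Real.exp_le_exp.2 ?_
  linarith

/-- **Lower tail of the degrees for large `D`.** `PM_lower` with `s = 1 / e`, `x = D / 4`: each vertex
`≤ exp (D / 4 - D (1 - 1 / e)) ≤ exp (- 0.38 D)`. -/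
theorem deg_lower (r : ℕ) (hr : 3 ≤ r) (C₁ : ℝ) (hC : 0 < C₁) :
    ∃ K₂ : ℝ, 1 ≤ K₂ ∧ ∃ n₀ : ℕ, ∀ n ≥ n₀, ∀ M : ℕ, K₂ * Real.log n ≤ (r : ℝ) * M / n →
      PM r n M (fun μ => ∃ v, deg r (toR μ) v < ((r : ℝ) * M / n) / 4) ≤
        Real.exp (-(C₁ * Real.log n)) := by
  refine ⟨4 * (C₁ + 1), by linarith, r, fun n hn M hM => ?_⟩
  have hT := fd_pos r n hn
  have hn0 : (0 : ℝ) < n := by
    have : 0 < n := by omega
    exact_mod_cast this
  have hlog : 0 ≤ Real.log n := Real.log_nonneg (by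
    have : 1 ≤ n := by omega
    exact_mod_cast this)
  set D : ℝ := (r : ℝ) * M / n with hD
  have hq : (M : ℝ) * ((r : ℝ) / n) = D := by
    rw [hD]
    ring
  have hD0 : 0 ≤ D := le_trans (by positivity) hM
  have he : Real.exp (-1) ≤ 0.37 := by
    have h1 := Real.exp_one_gt_d9
    rw [Real.exp_neg, inv_le_comm₀ (Real.exp_pos 1) (by norm_num)]
    refine le_trans ?_ h1.le
    norm_num
  have key : ∀ v ∈ (univ : Finset (Fin n)), PM r n M (fun μ =>
      deg r (toR μ) v < D / 4) ≤ Real.exp (-((C₁ + 1) * Real.log n)) := by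
    intro v _
    refine (PM_mono r M _ (fun μ => ∑ Z ∈ (Er r n).filter (fun Z => v ∈ Z), (μ Z : ℝ) ≤
      D / 4) fun μ _ h => h.le).trans ?_
    refine (PM_lower r M hT ((r : ℝ) / n) (Real.exp (-1)) (Real.exp_pos _)
      (Real.exp_le_one_iff.2 (by norm_num)) _
      (Finset.filter_subset _ _) (card_contain r n hr hn v).ge _).trans ?_
    rw [hq, Real.log_exp, ← Real.exp_add]
    refine Real.exp_le_exp.2 ?_
    have h1 : D * 0.63 ≤ D * (1 - Real.exp (-1)) :=
      mul_le_mul_of_nonneg_left (by linarith) hD0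
    linarith
  refine (PM_mono r M _ (fun μ => ∃ v ∈ (univ : Finset (Fin n)),
    deg r (toR μ) v < D / 4) fun μ _ ⟨v, hv⟩ => ⟨v, mem_univ v, hv⟩).trans
    ((fd_union r n M univ _ _ key).trans ?_)
  rw [card_univ, Fintype.card_fin]
  conv_lhs => rw [← Real.exp_log hn0]
  rw [Real.log_exp, ← Real.exp_add]
  refine Real.exp_le_exp.2 ?_
  linarith

end Pool.Agent.LHam
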