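import Pool.Agent.LHam.P2Dep

set_option autoImplicit false

/-! F2. Quasirandomness at level `M`. -/

namespace Pool.Agent.LHam

open Finset

private theorem count_le (k n : ℕ) (Λ : Finset (Fin n)) :
    ((Er (k + 2) n).filter (fun Z => (Z ∩ Λ).card = 2)).card ≤
      (Λ.card).choose 2 * (n - Λ.card).choose k := by
  classical
  have h1 : (powersetCard 2 Λ ×ˢ powersetCard k Λᶜ).card =
      (Λ.card).choose 2 * (n - Λ.card).choose k := by
    rw [card_product, card_powersetCard, card_powersetCard, card_compl, Fintype.card_fin]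
  rw [← h1]
  refine card_le_card_of_injOn (fun Z => (Z ∩ Λ, Z \ Λ)) ?_ ?_
  · intro Z hZ
    rw [mem_coe, mem_filter] at hZ
    have h2 : Z.card = k + 2 := (mem_powersetCard.1 hZ.1).2
    have h3 := card_inter_add_card_sdiff Z Λ
    rw [mem_coe, mem_product, mem_powersetCard, mem_powersetCard]
    refine ⟨⟨inter_subset_right, hZ.2⟩, ?_, ?_⟩
    · intro v hv
      rw [mem_compl]
      exact (mem_sdiff.1 hv).2
    · show (Z \ Λ).card = k
      omega
  · intro Z _ Z' _ h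
    rw [Prod.mk.injEq] at h
    rw [← sdiff_union_inter Z Λ, ← sdiff_union_inter Z' Λ, h.1, h.2]

private theorem lam_pos (r : ℕ) (hr : 3 ≤ r) : 0 < lam r := by
  have h : (3 : ℝ) ≤ r := by exact_mod_cast hr
  unfold lam
  exact one_div_pos.2 (by linarith)

private theorem lam_lt (r : ℕ) (hr : 3 ≤ r) : lam r < 1 := by
  have h : (3 : ℝ) ≤ r := by exact_mod_cast hr
  unfold lam
  rw [div_lt_one (by linarith)]
  linarith

/-- The proportion of the `r`-sets `Z` with `|Z ∩ Λ| = 2` is at most `β + η` if `|Λ|` is close to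
`n / (r - 1)` and `n` is large.

Proof. The number is
`binom(|Λ|, 2) binom(n - |Λ|, r - 2) ≤ (|Λ|^2 / 2) (n - |Λ|)^(r-2) / (r-2)!`, and
`|Er| ≥ (n - r)^r / r!`; the quotient is
`(r (r - 1) / 2) (|Λ|/n)^2 (1 - |Λ|/n)^(r-2) (n / (n - r))^r`, `|Λ| / n → λ`. -/
theorem quasi_count (r : ℕ) (hr : 3 ≤ r) (η : ℝ) (hη : 0 < η) :
    ∃ n₀ : ℕ, ∀ n ≥ n₀, ∀ Λ : Finset (Fin n), n ≤ (r - 1) * Λ.card →
      (r - 1) * Λ.card ≤ n + 4 * r ^ 3 →
      (((Er r n).filter (fun Z => (Z ∩ Λ).card = 2)).card : ℝ) ≤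
        (beta r + η) * (Er r n).card := by
  have hr3 : (3 : ℝ) ≤ r := by exact_mod_cast hr
  set c : ℝ := 4 * (r : ℝ) ^ 3 / ((r : ℝ) - 1) with hc
  set g : ℕ → ℝ := fun n => (r : ℝ) * (r - 1) / 2 * ((lam r + c / n) ^ 2 *
    (1 - lam r) ^ (r - 2)) * ((n : ℝ) / (n + (1 - r))) ^ r with hg
  have hlim : Filter.Tendsto g Filter.atTop (nhds (beta r)) := by
    have h1 : Filter.Tendsto (fun n : ℕ => c / (n : ℝ)) Filter.atTop (nhds 0) :=
      tendsto_const_div_atTop_nhds_zero_nat c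
    have h2 : Filter.Tendsto (fun n : ℕ => (n : ℝ) / (n + (1 - (r : ℝ)))) Filter.atTop
        (nhds 1) := tendsto_natCast_div_add_atTop _
    have h3 : Filter.Tendsto g Filter.atTop (nhds ((r : ℝ) * (r - 1) / 2 * ((lam r + 0) ^ 2 *
        (1 - lam r) ^ (r - 2)) * 1 ^ r)) :=
      (((((tendsto_const_nhds.add h1).pow 2).mul_const _).const_mul _).mul (h2.pow r))
    have e : (r : ℝ) * (r - 1) / 2 * ((lam r + 0) ^ 2 * (1 - lam r) ^ (r - 2)) * 1 ^ r =
        beta r := by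
      unfold beta p0
      rw [one_pow, mul_one, add_zero]
    rwa [e] at h3
  obtain ⟨n₁, hn₁⟩ := Filter.eventually_atTop.1
    (hlim.eventually_lt_const (lt_add_of_pos_right (beta r) hη))
  refine ⟨max n₁ (r + 1), fun n hn Λ h1 h2 => ?_⟩
  have hgn : g n < beta r + η := hn₁ n (le_trans (le_max_left _ _) hn)
  have hnr : r + 1 ≤ n := le_trans (le_max_right _ _) hn
  refine le_trans ?_ (mul_le_mul_of_nonneg_right hgn.le (Nat.cast_nonneg _))
  obtain ⟨k, rfl⟩ : ∃ k, r = k + 2 := ⟨r - 2, by omega⟩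
  have hk1 : (1 : ℝ) ≤ k := by
    push_cast at hr3
    linarith
  have hmn : Λ.card ≤ n := by
    have := card_le_univ Λ
    rwa [Fintype.card_fin] at this
  have hn0 : (0 : ℝ) < n := by
    have : 0 < n := by omega
    exact_mod_cast this
  have hlam : lam (k + 2) = 1 / ((k : ℝ) + 1) := by
    unfold lam
    push_cast
    congr 1
    ring
  have hk0 : (0 : ℝ) < (k : ℝ) + 1 := by positivity
  have h1' : (n : ℝ) ≤ ((k : ℝ) + 1) * Λ.card := by
    have h3 : n ≤ (k + 1) * Λ.card := h1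
    exact_mod_cast h3
  have h2' : ((k : ℝ) + 1) * Λ.card ≤ n + 4 * ((k : ℝ) + 2) ^ 3 := by
    have h3 : (k + 1) * Λ.card ≤ n + 4 * (k + 2) ^ 3 := h2
    exact_mod_cast h3
  have hm : (Λ.card : ℝ) ≤ n * (lam (k + 2) + c / n) := by
    have e : (n : ℝ) * (lam (k + 2) + c / n) = (n + 4 * ((k : ℝ) + 2) ^ 3) / ((k : ℝ) + 1) := by
      rw [hlam, hc]
      push_cast
      have e2 : ((k : ℝ) + 2 - 1) = (k : ℝ) + 1 := by ring
      rw [e2]
      field_simp
    rw [e, le_div_iff₀ hk0]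
    linarith
  have hm' : ((n - Λ.card : ℕ) : ℝ) ≤ n * (1 - lam (k + 2)) := by
    rw [Nat.cast_sub hmn, hlam]
    have h3 : (n : ℝ) / ((k : ℝ) + 1) ≤ Λ.card := by
      rw [div_le_iff₀ hk0]
      linarith
    have e : (n : ℝ) * (1 - 1 / ((k : ℝ) + 1)) = n - n / ((k : ℝ) + 1) := by ring
    rw [e]
    linarith
  have hlam1 : 0 ≤ 1 - lam (k + 2) := by
    have := lam_lt (k + 2) hr
    linarith
  have hc0 : 0 ≤ lam (k + 2) + c / n := by
    have h3 := (lam_pos (k + 2) hr).le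
    have h4 : 0 ≤ c := by
      rw [hc]
      refine div_nonneg (by positivity) ?_
      push_cast
      linarith
    positivity
  have hcount : (((Er (k + 2) n).filter (fun Z => (Z ∩ Λ).card = 2)).card : ℝ) ≤
      ((n : ℝ) * (lam (k + 2) + c / n)) ^ 2 / 2 * (((n : ℝ) * (1 - lam (k + 2))) ^ k /
        (k.factorial : ℝ)) := by
    have h3 : (((Er (k + 2) n).filter (fun Z => (Z ∩ Λ).card = 2)).card : ℝ) ≤
        ((Λ.card).choose 2 : ℝ) * ((n - Λ.card).choose k : ℝ) := by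
      exact_mod_cast count_le k n Λ
    have h4 : ((Λ.card).choose 2 : ℝ) ≤ (Λ.card : ℝ) ^ 2 / 2 := by
      have := Nat.choose_le_pow_div (α := ℝ) 2 Λ.card
      simpa using this
    have h5 : ((n - Λ.card).choose k : ℝ) ≤ ((n - Λ.card : ℕ) : ℝ) ^ k / (k.factorial : ℝ) :=
      Nat.choose_le_pow_div (α := ℝ) k (n - Λ.card)
    refine h3.trans (mul_le_mul (h4.trans ?_) (h5.trans ?_) (Nat.cast_nonneg _) (by positivity))
    · have := pow_le_pow_left₀ (Nat.cast_nonneg _) hm 2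
      linarith
    · exact div_le_div_of_nonneg_right (pow_le_pow_left₀ (Nat.cast_nonneg _) hm' k)
        (Nat.cast_nonneg _)
  have hEr : ((n : ℝ) + (1 - ((k + 2 : ℕ) : ℝ))) ^ (k + 2) ≤
      ((k + 2).factorial : ℝ) * ((Er (k + 2) n).card : ℝ) := by
    have h3 : (Er (k + 2) n).card = n.choose (k + 2) := by
      unfold Er
      rw [card_powersetCard, card_univ, Fintype.card_fin]
    have h4 := Nat.pow_le_choose (α := ℝ) (k + 2) n
    have h5 : ((n + 1 - (k + 2) : ℕ) : ℝ) = (n : ℝ) + (1 - ((k + 2 : ℕ) : ℝ)) := by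
      rw [Nat.cast_sub (by omega)]
      push_cast
      ring
    rw [h3, ← h5]
    have h6 : (0 : ℝ) < ((k + 2).factorial : ℝ) := by positivity
    first
      | exact h4
      | (rw [div_le_iff₀ h6] at h4
         linarith)
  have hden : (0 : ℝ) < (n : ℝ) + (1 - ((k + 2 : ℕ) : ℝ)) := by
    have h3 : ((k + 2 : ℕ) : ℝ) + 1 ≤ n := by exact_mod_cast hnr
    linarith
  have hfac : (((k + 2).factorial : ℕ) : ℝ) = ((k : ℝ) + 2) * ((k : ℝ) + 1) * k.factorial := by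
    rw [Nat.factorial_succ, Nat.factorial_succ]
    push_cast
    ring
  have hkf : (0 : ℝ) < k.factorial := by positivity
  refine hcount.trans ?_
  have e1 : ((n : ℝ) * (lam (k + 2) + c / n)) ^ 2 / 2 * (((n : ℝ) * (1 - lam (k + 2))) ^ k /
      (k.factorial : ℝ)) = 1 / 2 * ((lam (k + 2) + c / n) ^ 2 * (1 - lam (k + 2)) ^ k) *
        (((n : ℝ) / (n + (1 - ((k + 2 : ℕ) : ℝ)))) ^ (k + 2)) / k.factorial *
        ((n : ℝ) + (1 - ((k + 2 : ℕ) : ℝ))) ^ (k + 2) := by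
    have e2 : ((n : ℝ) / (n + (1 - ((k + 2 : ℕ) : ℝ)))) ^ (k + 2) *
        ((n : ℝ) + (1 - ((k + 2 : ℕ) : ℝ))) ^ (k + 2) = (n : ℝ) ^ (k + 2) := by
      rw [← mul_pow, div_mul_cancel₀ _ hden.ne']
    calc _ = 1 / 2 * ((lam (k + 2) + c / n) ^ 2 * (1 - lam (k + 2)) ^ k) / k.factorial *
          (n : ℝ) ^ (k + 2) := by
          rw [mul_pow, mul_pow, pow_add]
          ring
      _ = _ := by
          rw [← e2]
          ring
  rw [e1]
  have hA : 0 ≤ 1 / 2 * ((lam (k + 2) + c / n) ^ 2 * (1 - lam (k + 2)) ^ k) *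
        (((n : ℝ) / (n + (1 - ((k + 2 : ℕ) : ℝ)))) ^ (k + 2)) / k.factorial := by
    have h3 : 0 ≤ (n : ℝ) / (n + (1 - ((k + 2 : ℕ) : ℝ))) := div_nonneg hn0.le hden.le
    positivity
  refine (mul_le_mul_of_nonneg_left hEr hA).trans (le_of_eq ?_)
  rw [hg, hfac]
  simp only [Nat.add_sub_cancel]
  push_cast
  field_simp
  ring

/-- `0 ≤ β ≤ 1`. -/
theorem beta_le (r : ℕ) (hr : 3 ≤ r) : 0 < beta r ∧ beta r ≤ 1 := by
  have h : (3 : ℝ) ≤ r := by exact_mod_cast hr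
  have h1 := lam_pos r hr
  have h2 := lam_lt r hr
  have h3 : 0 < (1 - lam r) ^ (r - 2) := pow_pos (by linarith) _
  have h4 : (1 - lam r) ^ (r - 2) ≤ 1 := pow_le_one₀ (by linarith) (by linarith)
  have e : (r : ℝ) * (r - 1) / 2 * lam r ^ 2 = r / (2 * (r - 1)) := by
    unfold lam
    have h5 : ((r : ℝ) - 1) ≠ 0 := by linarith
    field_simp
  have e2 : beta r = r / (2 * ((r : ℝ) - 1)) * (1 - lam r) ^ (r - 2) := by
    unfold beta p0
    rw [← e]
    ring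
  have h6 : (0 : ℝ) < r / (2 * ((r : ℝ) - 1)) := div_pos (by linarith) (by linarith)
  have h7 : (r : ℝ) / (2 * ((r : ℝ) - 1)) ≤ 1 := by
    rw [div_le_one (by linarith)]
    linarith
  rw [e2]
  exact ⟨mul_pos h6 h3, mul_le_one₀ h7 h3.le h4⟩

/-- The exponent of the tail bound. -/
private theorem expo_le {b η M : ℝ} (hb : 0 < b) (hb1 : b ≤ 1) (hη : 0 < η) (hη1 : η ≤ 1)
    (hM : 0 ≤ M) : -((b + η) * M * Real.log (1 + η / 4)) + M * (b + η / 2) * (1 + η / 4 - 1) ≤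
      -(M * η ^ 2 / 16) := by
  have h1 := Real.le_log_one_add_of_nonneg (x := η / 4) (by linarith)
  have h2 : η / 4 - (η / 4) ^ 2 / 2 ≤ Real.log (1 + η / 4) := by
    refine le_trans ?_ h1
    rw [le_div_iff₀ (by linarith)]
    nlinarith [pow_pos hη 3]
  have h3 : (b + η) * M * (η / 4 - (η / 4) ^ 2 / 2) ≤ (b + η) * M * Real.log (1 + η / 4) :=
    mul_le_mul_of_nonneg_left h2 (by positivity)
  have h4 : (b + η) * (η / 4) ^ 2 / 2 ≤ η ^ 2 / 16 := by nlinarith [sq_nonneg η]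
  have h5 : M * ((b + η) * (η / 4) ^ 2 / 2) ≤ M * (η ^ 2 / 16) :=
    mul_le_mul_of_nonneg_left h4 hM
  nlinarith

/-- **Quasirandomness.** `quasi_count` with `η / 2`, `PM_upper` with `q = β + η / 2`, `s = 1 + η / 4`
(`η ≤ 1` without loss of generality: for `η > 1` the bound `(β + 1) M ≥ M` is trivial),
`x = (β + η) M`: `≤ exp (- M (β + η) log s + M (β + η / 2) (s - 1)) ≤ exp (- η^2 M / 16)`
(`log s ≥ (s - 1) - (s - 1)^2 / 2`, `β + η ≤ 2`), `M ≥ n log n / r`, union bound over the `2^n`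
sets `Λ`. -/
theorem quasi_prob (r : ℕ) (hr : 3 ≤ r) (C₁ η : ℝ) (hC : 0 < C₁) (hη : 0 < η) :
    ∃ n₀ : ℕ, ∀ n ≥ n₀, ∀ M : ℕ, Real.log n ≤ (r : ℝ) * M / n →
      PM r n M (fun μ => ∃ Λ : Finset (Fin n), n ≤ (r - 1) * Λ.card ∧
        (r - 1) * Λ.card ≤ n + 4 * r ^ 3 ∧
        (beta r + η) * M < ∑ Z ∈ (Er r n).filter (fun Z => (Z ∩ Λ).card = 2), (μ Z : ℝ)) ≤
        Real.exp (-(C₁ * Real.log n)) := by
  classical
  have hr3 : (3 : ℝ) ≤ r := by exact_mod_cast hr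
  obtain ⟨hb, hb1⟩ := beta_le r hr
  set θ : ℝ := min η 1 with hθ
  have hθ0 : 0 < θ := lt_min hη one_pos
  have hθ1 : θ ≤ 1 := min_le_right _ _
  have hθη : θ ≤ η := min_le_left _ _
  obtain ⟨n₁, hn₁⟩ := quasi_count r hr (θ / 2) (by linarith)
  obtain ⟨n₂, hn₂⟩ := exists_nat_ge (Real.exp (32 * r / θ ^ 2))
  obtain ⟨n₃, hn₃⟩ := exists_nat_ge (32 * r * C₁ / θ ^ 2)
  refine ⟨max (max n₁ n₂) (max n₃ r), fun n hn M hM => ?_⟩
  have hn1 : n₁ ≤ n := le_trans (le_trans (le_max_left _ _) (le_max_left _ _)) hn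
  have hn2 : n₂ ≤ n := le_trans (le_trans (le_max_right _ _) (le_max_left _ _)) hn
  have hn3 : n₃ ≤ n := le_trans (le_trans (le_max_left _ _) (le_max_right _ _)) hn
  have hnr : r ≤ n := le_trans (le_trans (le_max_right _ _) (le_max_right _ _)) hn
  have hn0 : (0 : ℝ) < n := by
    have : 0 < n := by omega
    exact_mod_cast this
  have hT : 0 < (Er r n).card := by
    unfold Er
    rw [card_powersetCard, card_univ, Fintype.card_fin]
    exact Nat.choose_pos hnr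
  have hM0 : (0 : ℝ) ≤ M := Nat.cast_nonneg _
  have hr0 : (0 : ℝ) < r := by linarith
  -- the number of draws
  have hMn : (n : ℝ) * Real.log n ≤ r * M := by
    rw [le_div_iff₀ hn0] at hM
    linarith
  have hlog : 32 * r / θ ^ 2 ≤ Real.log n := by
    rw [Real.le_log_iff_exp_le hn0]
    exact hn₂.trans (by exact_mod_cast hn2)
  have hlog0 : 0 ≤ Real.log n := le_trans (by positivity) hlog
  have hnC : 32 * r * C₁ / θ ^ 2 ≤ n := hn₃.trans (by exact_mod_cast hn3)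
  -- one set
  have hone : ∀ Λ ∈ (univ : Finset (Finset (Fin n))).filter (fun Λ => n ≤ (r - 1) * Λ.card ∧
      (r - 1) * Λ.card ≤ n + 4 * r ^ 3),
      PM r n M (fun μ => (beta r + θ) * M ≤
        ∑ Z ∈ (Er r n).filter (fun Z => (Z ∩ Λ).card = 2), (μ Z : ℝ)) ≤
        Real.exp (-(M * θ ^ 2 / 16)) := by
    intro Λ hΛ
    obtain ⟨-, hΛ1, hΛ2⟩ := mem_filter.1 hΛ
    have h1 := PM_upper r M hT (beta r + θ / 2) (1 + θ / 4) (by linarith)
      ((Er r n).filter (fun Z => (Z ∩ Λ).card = 2)) (filter_subset _ _)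
      (hn₁ n hn1 Λ hΛ1 hΛ2) ((beta r + θ) * M)
    refine h1.trans ?_
    rw [← Real.exp_add]
    exact Real.exp_le_exp.2 (expo_le hb hb1 hθ0 hθ1 hM0)
  have hsub : PM r n M (fun μ => ∃ Λ : Finset (Fin n), n ≤ (r - 1) * Λ.card ∧
        (r - 1) * Λ.card ≤ n + 4 * r ^ 3 ∧
        (beta r + η) * M < ∑ Z ∈ (Er r n).filter (fun Z => (Z ∩ Λ).card = 2), (μ Z : ℝ)) ≤
      PM r n M (fun μ => ∃ Λ ∈ (univ : Finset (Finset (Fin n))).filter (fun Λ =>
        n ≤ (r - 1) * Λ.card ∧ (r - 1) * Λ.card ≤ n + 4 * r ^ 3), (beta r + θ) * M ≤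
        ∑ Z ∈ (Er r n).filter (fun Z => (Z ∩ Λ).card = 2), (μ Z : ℝ)) := by
    refine PM_mono r M _ _ fun μ _ => ?_
    rintro ⟨Λ, h1, h2, h3⟩
    refine ⟨Λ, mem_filter.2 ⟨mem_univ _, h1, h2⟩, le_trans ?_ h3.le⟩
    exact mul_le_mul_of_nonneg_right (by linarith) hM0
  refine hsub.trans ((PM_exists r M _ _).trans ((sum_le_sum hone).trans ?_))
  rw [sum_const, nsmul_eq_mul]
  have hcard : ((((univ : Finset (Finset (Fin n))).filter (fun Λ => n ≤ (r - 1) * Λ.card ∧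
      (r - 1) * Λ.card ≤ n + 4 * r ^ 3)).card : ℕ) : ℝ) ≤ Real.exp n := by
    have h1 : ((univ : Finset (Finset (Fin n))).filter (fun Λ => n ≤ (r - 1) * Λ.card ∧
        (r - 1) * Λ.card ≤ n + 4 * r ^ 3)).card ≤ 2 ^ n := by
      refine (card_filter_le _ _).trans ?_
      rw [card_univ, Fintype.card_finset, Fintype.card_fin]
    have h2 : ((2 ^ n : ℕ) : ℝ) ≤ Real.exp n := by
      push_cast
      have h3 : (2 : ℝ) ≤ Real.exp 1 := by
        have := Real.exp_one_gt_d9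
        linarith
      calc (2 : ℝ) ^ n ≤ (Real.exp 1) ^ n := pow_le_pow_left₀ (by norm_num) h3 n
        _ = Real.exp n := by rw [← Real.exp_nat_mul, mul_one]
    exact le_trans (by exact_mod_cast h1) h2
  refine (mul_le_mul_of_nonneg_right hcard (Real.exp_pos _).le).trans ?_
  rw [← Real.exp_add]
  refine Real.exp_le_exp.2 ?_
  have hθ2 : 0 < θ ^ 2 := by positivity
  have k1 : 32 * r ≤ θ ^ 2 * Real.log n := by
    rw [div_le_iff₀ hθ2] at hlog
    linarith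
  have k2 : 32 * r * C₁ ≤ θ ^ 2 * n := by
    rw [div_le_iff₀ hθ2] at hnC
    linarith
  -- `n + C₁ log n ≤ M θ² / 16`
  have k3 : 32 * r * (n : ℝ) ≤ θ ^ 2 * (n * Real.log n) := by
    have := mul_le_mul_of_nonneg_right k1 hn0.le
    linarith
  have k4 : 32 * r * C₁ * Real.log n ≤ θ ^ 2 * (n * Real.log n) := by
    have := mul_le_mul_of_nonneg_right k2 hlog0
    linarith
  have k5 : θ ^ 2 * (n * Real.log n) ≤ θ ^ 2 * (r * M) := mul_le_mul_of_nonneg_left hMn hθ2.le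
  have k6 : (r : ℝ) * (32 * (n + C₁ * Real.log n)) ≤ r * (2 * (θ ^ 2 * M)) := by
    linarith
  have k7 := le_of_mul_le_mul_left k6 hr0
  linarith

end Pool.Agent.LHam
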