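import Pool.Agent.LHam.FDeg
import Pool.Agent.LHam.FQuasi

set_option autoImplicit false

/-! F3. Regularity at level `M`. -/

namespace Pool.Agent.LHam

open Finset

/-- **Regularity.** `K` depends only on `C₁`, `η > 0` is arbitrary. (Union of `deg_upper`, `codeg_upper`,
`quasi_prob` with `C₁ + 1`; `n D / r = M`.) -/
theorem reg_prob (r : ℕ) (hr : 3 ≤ r) (C₁ : ℝ) (hC : 0 < C₁) :
    ∃ K : ℝ, 1 ≤ K ∧ ∀ η : ℝ, 0 < η → ∃ n₀ : ℕ, ∀ n ≥ n₀, ∀ M : ℕ,
      Real.log n ≤ (r : ℝ) * M / n →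
      PM r n M (fun μ => ¬ Reg r n K η ((r : ℝ) * M / n) (toR μ)) ≤
        Real.exp (-(C₁ * Real.log n)) := by
  obtain ⟨K, hK, n₁, h1⟩ := deg_upper r hr (C₁ + 1) (by linarith)
  refine ⟨K, hK, fun η hη => ?_⟩
  obtain ⟨n₂, h2⟩ := codeg_upper r hr (C₁ + 1) η (by linarith) hη
  obtain ⟨n₃, h3⟩ := quasi_prob r hr (C₁ + 1) η (by linarith) hη
  refine ⟨max (max n₁ n₂) (max n₃ 3), fun n hn M hM => ?_⟩
  have hn1 : n₁ ≤ n := (le_max_left _ _).trans ((le_max_left _ _).trans hn)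
  have hn2 : n₂ ≤ n := (le_max_right _ _).trans ((le_max_left _ _).trans hn)
  have hn3 : n₃ ≤ n := (le_max_left _ _).trans ((le_max_right _ _).trans hn)
  have hn4 : 3 ≤ n := (le_max_right _ _).trans ((le_max_right _ _).trans hn)
  have hn0 : (0 : ℝ) < n := by
    have : 0 < n := by omega
    exact_mod_cast this
  have hr0 : (0 : ℝ) < r := by
    have : 0 < r := by omega
    exact_mod_cast this
  have hD : (n : ℝ) * ((r : ℝ) * M / n) / r = M := by
    field_simp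
  set A : Mu n → Prop := fun μ => ∃ v, K * ((r : ℝ) * M / n) < deg r (toR μ) v with hA
  set B : Mu n → Prop := fun μ => ∃ u v : Fin n, u ≠ v ∧
        η * ((r : ℝ) * M / n) < codeg r (toR μ) u v with hB
  set C : Mu n → Prop := fun μ => ∃ Λ : Finset (Fin n), n ≤ (r - 1) * Λ.card ∧
        (r - 1) * Λ.card ≤ n + 4 * r ^ 3 ∧
        (beta r + η) * M < ∑ Z ∈ (Er r n).filter (fun Z => (Z ∩ Λ).card = 2), (μ Z : ℝ) with hC'
  have e1 : PM r n M A ≤ Real.exp (-((C₁ + 1) * Real.log n)) := h1 n hn1 M hM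
  have e2 : PM r n M B ≤ Real.exp (-((C₁ + 1) * Real.log n)) := h2 n hn2 M hM
  have e3 : PM r n M C ≤ Real.exp (-((C₁ + 1) * Real.log n)) := h3 n hn3 M hM
  have h4 : PM r n M (fun μ => ¬ Reg r n K η ((r : ℝ) * M / n) (toR μ)) ≤
      PM r n M A + (PM r n M B + PM r n M C) := by
    refine (PM_mono r M _ (fun μ => A μ ∨ (B μ ∨ C μ)) fun μ _ h => ?_).trans
      ((PM_or r M A _).trans (add_le_add le_rfl (PM_or r M B C)))
    by_contra hc
    push Not at hc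
    obtain ⟨c1, c2, c3⟩ := hc
    apply h
    refine ⟨?_, ?_, ?_⟩
    · intro v
      by_contra h5
      exact c1 ⟨v, not_le.1 h5⟩
    · intro u v huv
      by_contra h5
      exact c2 ⟨u, v, huv, not_le.1 h5⟩
    · intro Λ hΛ1 hΛ2
      rw [hD]
      by_contra h5
      exact c3 ⟨Λ, hΛ1, hΛ2, not_le.1 h5⟩
  refine h4.trans ?_
  have h5 : Real.exp (-((C₁ + 1) * Real.log n)) = Real.exp (-(C₁ * Real.log n)) * (n : ℝ)⁻¹ := by
    rw [← Real.exp_log (inv_pos.2 hn0), Real.log_inv, ← Real.exp_add]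
    congr 1
    ring
  have h6 : (n : ℝ)⁻¹ ≤ 1 / 3 := by
    rw [inv_eq_one_div]
    exact one_div_le_one_div_of_le (by norm_num) (by exact_mod_cast hn4)
  have h7 := mul_le_mul_of_nonneg_left h6 (Real.exp_pos (-(C₁ * Real.log n))).le
  rw [h5] at e1 e2 e3
  linarith

end Pool.Agent.LHam
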