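import Pool.Agent.LHam.P2Dep
import Pool.Agent.LHam.FCount

set_option autoImplicit false

/-! F4. The start: very large `M`. -/

namespace Pool.Agent.LHam

open Finset

private theorem set_mem_Er {r n : ℕ} (hr : 3 ≤ r) (o : OE n) (ho : o.Ok r) : o.set ∈ Er r n := by
  obtain ⟨h1, h2, h3, h4⟩ := ho
  rw [Er, mem_powersetCard]
  refine ⟨subset_univ _, ?_⟩
  rw [OE.set, card_insert_of_notMem, card_insert_of_notMem h4, h1]
  · omega
  · rw [mem_insert]
    push Not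
    exact ⟨h2, h3⟩

/-- If all multiplicities are at least `x`, then `Phi ≥ x ^ m |CF|`. -/
theorem Phi_ge (r m n : ℕ) (hr : 3 ≤ r) (hm : m * (r - 1) = n) (hn : r ≤ n) (x : ℝ) (hx : 0 ≤ x)
    (ν : Finset (Fin n) → ℝ) (hν : ∀ Z ∈ Er r n, x ≤ ν Z) :
    x ^ m * (CF r n).card ≤ Phi r ν := by
  rw [Phi, mul_comm, ← nsmul_eq_mul, ← Finset.sum_const]
  refine Finset.sum_le_sum fun F hF => ?_
  obtain ⟨h1, h2, -⟩ := CF_sys r hr hn F hF
  have h3 : F.card = m := by
    have h4 : 0 < r - 1 := by omega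
    exact Nat.eq_of_mul_eq_mul_right h4 (h2.trans hm.symm)
  rw [← h3, ← Finset.prod_const]
  exact Finset.prod_le_prod (fun _ _ => hx) fun o ho => hν _ (set_mem_Er hr o (h1.ok o ho))

/-- **The start, deterministic.** If all multiplicities are at least `(1 - κ₃) M / T` then
`Phi ≥ (1 / n) (1 - κ₃)^m Bref (r M / n)`: `n! ≥ (n / e)^n`, `T ≤ n^r / r!`,
`((1 - κ₃) M / T)^m n! / (n ((r-2)!)^m) ≥ (1/n) (1 - κ₃)^m (D (r-1)! / n^(r-1))^m (n/e)^n /
((r-2)!)^m
 = (1/n) (1 - κ₃)^m ((r - 1) D)^m e^(-n)` and `Bref = ((r - 1) D)^m e^(-n)` (`n = m (r - 1)`). -/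
theorem start_det (r m n M : ℕ) (hr : 3 ≤ r) (hm : m * (r - 1) = n) (hn : r ≤ n) (hM : 0 < M)
    (κ₃ : ℝ) (h0 : 0 ≤ κ₃) (h1 : κ₃ ≤ 1) (ν : Finset (Fin n) → ℝ)
    (hν : ∀ Z ∈ Er r n, (1 - κ₃) * M / (Er r n).card ≤ ν Z) :
    1 / (n : ℝ) * (1 - κ₃) ^ m * Bref r n ((r : ℝ) * M / n) ≤ Phi r ν := by
  have hn0 : (0 : ℝ) < n := by
    have : 0 < n := by omega
    exact_mod_cast this
  have hr1 : (0 : ℝ) < (r : ℝ) - 1 := by
    have : (3 : ℝ) ≤ r := by exact_mod_cast hr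
    linarith
  have hM0 : (0 : ℝ) < M := by exact_mod_cast hM
  have hT0 : 0 < (Er r n).card := by
    rw [card_Er]
    exact Nat.choose_pos hn
  have hT : (0 : ℝ) < (Er r n).card := by exact_mod_cast hT0
  have hmn : (n : ℝ) = m * ((r : ℝ) - 1) := by
    rw [← hm]
    push_cast [Nat.cast_sub (show 1 ≤ r by omega)]
    ring
  have hk : 0 ≤ 1 - κ₃ := by linarith
  refine le_trans ?_ (Phi_ge r m n hr hm hn ((1 - κ₃) * M / (Er r n).card) (by positivity) ν hν)
  -- the number of cycles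
  have hf2 : (0 : ℝ) < ((r - 2).factorial : ℝ) := by exact_mod_cast Nat.factorial_pos _
  have hC : (n.factorial : ℝ) / (n * ((r - 2).factorial : ℝ) ^ m) ≤ (CF r n).card := by
    rw [div_le_iff₀ (by positivity)]
    exact_mod_cast card_CF r m n hr hm hn
  -- the factorial
  have hfac : (n : ℝ) ^ n * Real.exp (-(n : ℝ)) ≤ n.factorial := by
    have h2 := Real.pow_div_factorial_le_exp (n : ℝ) hn0.le n
    rw [Real.exp_neg, ← div_eq_mul_inv, div_le_iff₀ (Real.exp_pos _)]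
    rw [div_le_iff₀ (by exact_mod_cast Nat.factorial_pos n)] at h2
    linarith
  -- the number of sets
  have hTn : ((Er r n).card : ℝ) ≤ (n : ℝ) ^ r / r.factorial := by
    rw [card_Er]
    exact Nat.choose_le_pow_div r n
  have hrf : (r.factorial : ℝ) = r * (((r : ℝ) - 1) * (r - 2).factorial) := by
    obtain ⟨t, rfl⟩ : ∃ t, r = t + 2 := ⟨r - 2, by omega⟩
    rw [Nat.add_sub_cancel, Nat.factorial_succ, Nat.factorial_succ]
    push_cast
    ring
  have hr0 : (0 : ℝ) < r := by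
    have : 0 < r := by omega
    exact_mod_cast this
  have hB : Bref r n ((r : ℝ) * M / n) =
      (((r : ℝ) - 1) * (r * M / n)) ^ m * Real.exp (-(n : ℝ)) := by
    rw [Bref]
    have h3 : (n : ℝ) / (r - 1) = m := by
      rw [hmn]
      field_simp
    rw [h3, mul_sub, Real.exp_sub, Real.exp_neg, ← div_eq_mul_inv]
    congr 1
    · rw [mul_comm, Real.exp_mul, Real.exp_log (by positivity), Real.rpow_natCast]
    · rw [hmn]
  rw [hB]
  -- the quotient
  have h6 : (((r : ℝ) - 1) * (r * M / n)) / ((n : ℝ) ^ (r - 1)) * (r - 2).factorial ≤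
      M / (Er r n).card := by
    have h7 : (M : ℝ) / ((n : ℝ) ^ r / r.factorial) ≤ M / (Er r n).card :=
      div_le_div_of_nonneg_left hM0.le hT hTn
    refine le_trans (le_of_eq ?_) h7
    rw [hrf]
    obtain ⟨t, rfl⟩ : ∃ t, r = t + 1 := ⟨r - 1, by omega⟩
    rw [Nat.add_sub_cancel, pow_succ]
    field_simp
  have h8 : 0 ≤ (((r : ℝ) - 1) * (r * M / n)) / ((n : ℝ) ^ (r - 1)) * (r - 2).factorial := by
    positivity
  have h9 := pow_le_pow_left₀ h8 h6 m
  have h10 : ((n : ℝ) ^ (r - 1)) ^ m = (n : ℝ) ^ n := by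
    rw [← pow_mul, mul_comm, hm]
  calc 1 / (n : ℝ) * (1 - κ₃) ^ m *
        ((((r : ℝ) - 1) * (r * M / n)) ^ m * Real.exp (-(n : ℝ)))
      = (1 - κ₃) ^ m * ((((r : ℝ) - 1) * (r * M / n)) / ((n : ℝ) ^ (r - 1)) *
          (r - 2).factorial) ^ m * (((n : ℝ) ^ n * Real.exp (-(n : ℝ))) /
            (n * ((r - 2).factorial : ℝ) ^ m)) := by
        have h11 : ∀ Y : ℝ, (Y / ((n : ℝ) ^ (r - 1)) * (r - 2).factorial) ^ m =
            Y ^ m / (n : ℝ) ^ n * ((r - 2).factorial : ℝ) ^ m := fun Y => by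
          rw [mul_pow, div_pow, h10]
        rw [h11]
        have h12 : (n : ℝ) ^ n ≠ 0 := by positivity
        have h13 : ((r - 2).factorial : ℝ) ^ m ≠ 0 := by positivity
        generalize (((r : ℝ) - 1) * (r * M / n)) ^ m = Y
        field_simp
    _ ≤ (1 - κ₃) ^ m * (M / (Er r n).card) ^ m *
          ((n.factorial : ℝ) / (n * ((r - 2).factorial : ℝ) ^ m)) := by
        gcongr
    _ ≤ (1 - κ₃) ^ m * (M / (Er r n).card) ^ m * (CF r n).card := by
        gcongr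
    _ = _ := by
        rw [← mul_pow, mul_div_assoc]

/-- **The multiplicities for very large `M`.** `PM_lower` with `Q = {Z}`, `q = 1 / T`, `s = 1 - κ₃`:
`≤ exp (- (M / T) ((1 - κ₃) log (1 - κ₃) + κ₃)) ≤ exp (- (M / T) κ₃^2 / 2)`, `T ≤ n^r`, `K' = 2 (r
+ 1) / κ₃^2`. -/
theorem start_prob (r : ℕ) (hr : 3 ≤ r) (κ₃ : ℝ) (h0 : 0 < κ₃) (h1 : κ₃ < 1) :
    ∃ K' : ℝ, 0 < K' ∧ ∃ n₀ : ℕ, ∀ n ≥ n₀, ∀ M : ℕ, K' * (Er r n).card * Real.log n ≤ M →
      PM r n M (fun μ => ∃ Z ∈ Er r n, (μ Z : ℝ) < (1 - κ₃) * M / (Er r n).card) ≤ 1 / n := by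
  have hs : 0 < 1 - κ₃ := by linarith
  obtain ⟨g, hg⟩ : ∃ g : ℝ, g = (1 - κ₃) * Real.log (1 - κ₃) + κ₃ := ⟨_, rfl⟩
  have hg0 : 0 < g := by
    have h2 : Real.log (1 / (1 - κ₃)) < 1 / (1 - κ₃) - 1 := by
      refine Real.log_lt_sub_one_of_pos (by positivity) ?_
      intro h3
      rw [div_eq_iff hs.ne'] at h3
      linarith
    rw [one_div, Real.log_inv] at h2
    have h3 := mul_lt_mul_of_pos_left h2 hs
    rw [mul_sub, mul_inv_cancel₀ hs.ne'] at h3
    rw [hg]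
    linarith
  refine ⟨((r : ℝ) + 1) / g, by positivity, r, fun n hn M hM => ?_⟩
  have hn0 : 0 < n := by omega
  have hn1 : (0 : ℝ) < n := by exact_mod_cast hn0
  have hT0 : 0 < (Er r n).card := by
    rw [card_Er]
    exact Nat.choose_pos hn
  have hT : (0 : ℝ) < (Er r n).card := by exact_mod_cast hT0
  have hTn : ((Er r n).card : ℝ) ≤ (n : ℝ) ^ r := by
    rw [card_Er]
    exact_mod_cast Nat.choose_le_pow n r
  have hZ : ∀ Z ∈ Er r n, PM r n M (fun μ => (μ Z : ℝ) < (1 - κ₃) * M / (Er r n).card) ≤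
      ((n : ℝ) ^ (r + 1))⁻¹ := by
    intro Z hZ
    have h2 := PM_lower r M hT0 (1 / (Er r n).card) (1 - κ₃) hs (by linarith) {Z}
      (Finset.singleton_subset_iff.2 hZ) (by
        rw [Finset.card_singleton, Nat.cast_one, one_div, inv_mul_cancel₀ hT.ne'])
      ((1 - κ₃) * M / (Er r n).card)
    refine le_trans (PM_mono r M _ _ fun μ _ hμ => ?_) (h2.trans ?_)
    · rw [Finset.sum_singleton]
      exact hμ.le
    · rw [← Real.exp_add, ← Real.rpow_natCast, ← Real.exp_log hn1, ← Real.exp_mul,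
        ← Real.exp_neg, Real.exp_le_exp]
      have h3 : -((1 - κ₃) * (M : ℝ) / (Er r n).card * Real.log (1 - κ₃)) +
          -((M : ℝ) * (1 / (Er r n).card) * (1 - (1 - κ₃))) = -(M / (Er r n).card * g) := by
        rw [hg]
        ring
      rw [h3]
      have h4 : (r + 1) * Real.log n ≤ M / (Er r n).card * g := by
        rw [div_mul_eq_mul_div, le_div_iff₀ hT]
        have h5 := mul_le_mul_of_nonneg_right hM hg0.le
        have h6 : ((r : ℝ) + 1) / g * (Er r n).card * Real.log n * g =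
            (r + 1) * Real.log n * (Er r n).card := by
          field_simp
        rw [h6] at h5
        exact h5
      push_cast
      linarith
  refine (PM_exists r M (Er r n) fun Z μ => (μ Z : ℝ) < (1 - κ₃) * M / (Er r n).card).trans ?_
  refine (Finset.sum_le_sum hZ).trans ?_
  rw [Finset.sum_const, nsmul_eq_mul]
  calc ((Er r n).card : ℝ) * ((n : ℝ) ^ (r + 1))⁻¹ ≤ (n : ℝ) ^ r * ((n : ℝ) ^ (r + 1))⁻¹ := by
        gcongr
    _ = 1 / n := by
        rw [pow_succ]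
        field_simp

end Pool.Agent.LHam
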