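import Mathlib

set_option autoImplicit false

/-! Sharp threshold for linear Hamiltonian cycles: the definitions of the statement. -/

namespace Pool.Agent.LHam

open Finset

open Classical in
/-- The probability that the binomial random `r`-graph `G^(r)(n, p)` has the property `W`: every set
`H` of `r`-subsets of the `n` vertices is the edge set with probability
`p ^ |H| * (1 - p) ^ (binom(n, r) - |H|)`. -/
noncomputable def prob (r n : ℕ) (p : ℝ) (W : Finset (Finset (Fin n)) → Prop) : ℝ :=
  ∑ H ∈ (powersetCard r (univ : Finset (Fin n))).powerset,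
    if W H then p ^ H.card * (1 - p) ^ (n.choose r - H.card) else 0

/-- The `r`-graph with edge set `H` contains a linear Hamiltonian cycle: for a cyclic ordering `σ` of
the `n` vertices all the `n / (r - 1)` sets of `r` consecutive vertices beginning at the positions
`0, r - 1, 2 (r - 1), ..` are edges. -/
def HasLHC (r n : ℕ) (H : Finset (Finset (Fin n))) : Prop :=
  (r - 1) ∣ n ∧ ∃ σ : ZMod n ≃ Fin n, ∀ j < n / (r - 1),
    (range r).image (fun i : ℕ => σ (((r - 1) * j + i : ℕ) : ZMod n)) ∈ H

/-- `p^deg_r(n) = (r - 1)! log n / n ^ (r - 1)`. -/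
noncomputable def pdeg (r n : ℕ) : ℝ := (r - 1).factorial * Real.log n / (n : ℝ) ^ (r - 1)

end Pool.Agent.LHam
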