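import Pool.Agent.LHam.C2Sys
import Pool.Agent.LHam.G0Defs

set_option autoImplicit false

/-! G1. From closed chains of oriented edges to cyclic orderings. -/

namespace Pool.Agent.LHam

open Finset

/-- the block of an oriented edge -/
private noncomputable def blk {n : ℕ} (o : OE n) : List (Fin n) := o.x :: o.J.toList

private theorem blk_len {n r : ℕ} (hr : 3 ≤ r) {o : OE n} (h : o.J.card = r - 2) :
    (blk o).length = r - 1 := by
  unfold blk
  rw [List.length_cons, Finset.length_toList, h]
  omega

private theorem flat_get {α : Type} (k : ℕ) (ls : List (List α)) (h : ∀ b ∈ ls, b.length = k) :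
    ∀ (j i : ℕ) (hj : j < ls.length), i < k → ls.flatten[k * j + i]? = ls[j][i]? := by
  induction ls with
  | nil => intro j i hj; exact absurd hj (Nat.not_lt_zero _)
  | cons b ls ih =>
    intro j i hj hi
    have hb : b.length = k := h b (List.mem_cons_self)
    rw [List.flatten_cons]
    cases j with
    | zero =>
      rw [Nat.mul_zero, Nat.zero_add, List.getElem?_append_left (by rw [hb]; exact hi)]
      rfl
    | succ j =>
      rw [List.getElem?_append_right (by rw [hb, Nat.mul_succ]; omega), hb]
      have e : k * (j + 1) + i - k = k * j + i := by rw [Nat.mul_succ]; omega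
      rw [e, ih (fun b' hb' => h b' (List.mem_cons_of_mem _ hb')) j i
        (by simpa using hj) hi]
      rfl

private theorem flat_len {α : Type} (k : ℕ) (ls : List (List α)) (h : ∀ b ∈ ls, b.length = k) :
    ls.flatten.length = k * ls.length := by
  induction ls with
  | nil => rfl
  | cons b ls ih =>
    rw [List.flatten_cons, List.length_append, h b List.mem_cons_self,
      ih (fun b' hb' => h b' (List.mem_cons_of_mem _ hb')), List.length_cons, Nat.mul_succ,
      Nat.add_comm]

private theorem flat_verts {n : ℕ} (l : List (OE n)) :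
    ((l.map blk).flatten : Multiset (Fin n)) = verts l := by
  unfold verts
  induction l with
  | nil => rfl
  | cons o l ih =>
    rw [List.map_cons, List.flatten_cons, ← Multiset.coe_add, ih, List.map_cons, List.sum_cons]
    congr 1
    unfold blk
    rw [← Multiset.cons_coe, Finset.coe_toList]

private theorem conn_get {n : ℕ} : ∀ (l : List (OE n)) (c d : Fin n), Conn c l d →
    (∀ (h : 0 < l.length), l[0].x = c) ∧
    (∀ (j : ℕ) (h : j + 1 < l.length), l[j].y = l[j + 1].x) ∧
    (∀ (j : ℕ) (h : j < l.length), j + 1 = l.length → l[j].y = d)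
  | [], c, d, _ => ⟨fun h => absurd h (Nat.not_lt_zero _), fun j h => absurd h (Nat.not_lt_zero _),
      fun j h => absurd h (Nat.not_lt_zero _)⟩
  | o :: l, c, d, h => by
    obtain ⟨h1, h2⟩ := h
    obtain ⟨g1, g2, g3⟩ := conn_get l o.y d h2
    refine ⟨fun _ => h1, ?_, ?_⟩
    · intro j hj
      cases j with
      | zero =>
        have h3 : 0 < l.length := by simpa using hj
        exact (g1 h3).symm
      | succ j =>
        have h3 : j + 1 < l.length := by simpa using hj
        exact g2 j h3
    · intro j hj hl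
      cases j with
      | zero =>
        have h3 : l = [] := by
          rw [List.length_cons] at hl
          exact List.length_eq_zero_iff.1 (by omega)
        subst h3
        exact h2
      | succ j =>
        have h3 : j < l.length := by simpa using hj
        exact g3 j h3 (by rw [List.length_cons] at hl; omega)

/-- **Extraction.** Proof. `l = [o_0, .., o_{m-1}]` with `m (r - 1) = n` (`cyc_nodup`),
`o_j.y = o_{j+1}.x`, and `o_{m-1}.y = o_0.x` (the chain is closed). Let `L` be the concatenation of
the lists `o_j.x ::` (elements of `o_j.J`, e.g. `o_j.J.sort (· ≤ ·)`), each of length `r - 1`; as a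
multiset it is `verts l = univ.val`, so it has length `n`, no repetitions, and contains every
vertex. `σ i = L[i.val]` (`n ≥ 1`, `ZMod n` with `NeZero n`, `i.val < n`) is injective, hence a
bijection (`Equiv.ofBijective`, equal cardinalities). Position `(r - 1) j` of `L` is `o_j.x`, the
positions `(r - 1) j + i`, `1 ≤ i ≤ r - 2`, are the elements of `o_j.J`, and the position
`(r - 1) (j + 1)` mod `n` is `o_{j+1}.x = o_j.y` (`o_0.x` if `j = m - 1`); so the window is
`o_j.set`. (It may be convenient to prove by induction on the list that `L.getD ((r-1) j + i)` is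
entry `i` of block `j`.) -/
theorem lhc_of_cyc (r n : ℕ) (hr : 3 ≤ r) (hn : r ≤ n) (l : List (OE n)) (h : IsCyc r l)
    (H : Finset (Finset (Fin n))) (hH : ∀ o ∈ l, o.set ∈ H) : HasLHC r n H := by
  classical
  obtain ⟨-, -, hOk, -, hlen⟩ := cyc_nodup r hr hn l h
  obtain ⟨hne, ⟨c, hc⟩, hJ, hv⟩ := h
  have hr1 : 0 < r - 1 := by omega
  have hdiv : n / (r - 1) = l.length := Nat.div_eq_of_eq_mul_left hr1 hlen.symm
  have hlen2 : (r - 1) * l.length = n := by rw [Nat.mul_comm]; exact hlen
  have : NeZero n := ⟨by omega⟩
  obtain ⟨L, hL⟩ : ∃ L, L = (l.map blk).flatten := ⟨_, rfl⟩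
  have hblk : ∀ b ∈ l.map blk, b.length = r - 1 := by
    intro b hb
    obtain ⟨o, ho, rfl⟩ := List.mem_map.1 hb
    exact blk_len hr (hJ o ho)
  have hLv : (L : Multiset (Fin n)) = (univ : Finset (Fin n)).val := by
    rw [hL, flat_verts, hv]
  have hLn : L.length = n := by
    have h1 := congrArg Multiset.card hLv
    rw [Multiset.coe_card, Finset.card_val, Finset.card_univ, Fintype.card_fin] at h1
    exact h1
  have hLd : L.Nodup := by
    rw [← Multiset.coe_nodup, hLv]
    exact Finset.nodup _
  have hget : ∀ (j i : ℕ) (hj : j < l.length) (hi : i < r - 1) (hp : (r - 1) * j + i < L.length),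
      L[(r - 1) * j + i] = (blk l[j])[i]'(by
        rw [blk_len hr (hJ _ (List.getElem_mem hj))]; exact hi) := by
    intro j i hj hi hp
    have h1 := flat_get (r - 1) (l.map blk) hblk j i (by rw [List.length_map]; exact hj) hi
    rw [← hL, List.getElem?_eq_getElem hp, List.getElem_map,
      List.getElem?_eq_getElem (by
        rw [blk_len hr (hJ _ (List.getElem_mem hj))]; exact hi)] at h1
    exact Option.some.inj h1
  have hlt : ∀ i : ZMod n, i.val < L.length := fun i => by
    rw [hLn]
    exact ZMod.val_lt i
  let f : ZMod n → Fin n := fun i => L[i.val]'(hlt i)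
  have hf : Function.Injective f := by
    intro a b hab
    exact ZMod.val_injective n ((List.Nodup.getElem_inj_iff hLd).1 hab)
  have hbij : Function.Bijective f := by
    refine (Fintype.bijective_iff_injective_and_card f).2 ⟨hf, ?_⟩
    rw [ZMod.card, Fintype.card_fin]
  obtain ⟨g1, g2, g3⟩ := conn_get l c c hc
  refine ⟨⟨l.length, hlen2.symm⟩, Equiv.ofBijective f hbij, ?_⟩
  intro j hj
  rw [hdiv] at hj
  have hfv : ∀ k : ℕ, k < n → ∀ hk : k < L.length, f (k : ZMod n) = L[k] := by
    intro k hk hk2
    have h1 : ((k : ZMod n)).val = k := ZMod.val_natCast_of_lt hk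
    simp only [f, h1]
  have hjn : (r - 1) * j + (r - 1) ≤ n := by
    have h1 : (r - 1) * (j + 1) ≤ (r - 1) * l.length := Nat.mul_le_mul_left _ hj
    rw [hlen2, Nat.mul_succ] at h1
    exact h1
  have hin : ∀ (i : ℕ) (hi : i < r - 1), f ((((r - 1) * j + i : ℕ)) : ZMod n) =
      (blk l[j])[i]'(by rw [blk_len hr (hJ _ (List.getElem_mem hj))]; exact hi) := by
    intro i hi
    rw [hfv _ (by omega) (by rw [hLn]; omega), hget j i hj hi]
  have hlast : f ((((r - 1) * j + (r - 1) : ℕ)) : ZMod n) = l[j].y := by
    by_cases hj1 : j + 1 < l.length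
    · have h2 : (r - 1) * j + (r - 1) < n := by
        have h3 : (r - 1) * (j + 1) < (r - 1) * l.length := Nat.mul_lt_mul_of_pos_left hj1 hr1
        rw [hlen2, Nat.mul_succ] at h3
        exact h3
      have h4 : (r - 1) * j + (r - 1) = (r - 1) * (j + 1) + 0 := by
        rw [Nat.mul_succ, Nat.add_zero]
      rw [g2 j hj1]
      have h5 := hfv _ h2 (by rw [hLn]; exact h2)
      rw [h5]
      simp only [h4]
      rw [hget (j + 1) 0 hj1 hr1]
      rfl
    · have h3 : j + 1 = l.length := by omega
      have h4 : (r - 1) * j + (r - 1) = n := by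
        rw [← Nat.mul_succ, ← hlen2, ← h3]
      have h5 : ((((r - 1) * j + (r - 1) : ℕ)) : ZMod n) = ((0 : ℕ) : ZMod n) := by
        rw [h4]
        simp
      have h0 : 0 < l.length := by omega
      rw [h5, hfv 0 (by omega) (by rw [hLn]; omega), g3 j hj h3]
      have h6 := hget 0 0 h0 hr1 (by rw [hLn]; omega)
      simp only [Nat.mul_zero, Nat.add_zero] at h6
      rw [h6]
      exact g1 h0
  have hset : (range r).image (fun i : ℕ =>
      (Equiv.ofBijective f hbij) ((((r - 1) * j + i : ℕ)) : ZMod n)) = l[j].set := by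
    ext v
    rw [mem_image]
    unfold OE.set
    rw [mem_insert, mem_insert]
    constructor
    · rintro ⟨i, hi, rfl⟩
      rw [mem_range] at hi
      rw [Equiv.ofBijective_apply]
      by_cases hi2 : i < r - 1
      · rw [hin i hi2]
        have h1 : (blk l[j])[i]'(by
            rw [blk_len hr (hJ _ (List.getElem_mem hj))]; exact hi2) ∈ blk l[j] :=
          List.getElem_mem _
        unfold blk at h1
        rw [List.mem_cons, Finset.mem_toList] at h1
        rcases h1 with h1 | h1
        · exact Or.inl h1
        · exact Or.inr (Or.inr h1)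
      · have h2 : i = r - 1 := by omega
        rw [h2, hlast]
        exact Or.inr (Or.inl rfl)
    · intro hv2
      have h3 : v ∈ blk l[j] ∨ v = l[j].y := by
        unfold blk
        rw [List.mem_cons, Finset.mem_toList]
        rcases hv2 with h | h | h
        · exact Or.inl (Or.inl h)
        · exact Or.inr h
        · exact Or.inl (Or.inr h)
      rcases h3 with h3 | h3
      · obtain ⟨i, hi, hi2⟩ := List.getElem_of_mem h3
        have hi3 : i < r - 1 := by
          rw [blk_len hr (hJ _ (List.getElem_mem hj))] at hi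
          exact hi
        refine ⟨i, mem_range.2 (by omega), ?_⟩
        rw [Equiv.ofBijective_apply, hin i hi3]
        exact hi2
      · refine ⟨r - 1, mem_range.2 (by omega), ?_⟩
        rw [Equiv.ofBijective_apply, hlast, h3]
  rw [hset]
  exact hH _ (List.getElem_mem hj)

/-- If the weighted number of cycles is not `0`, the support contains a linear Hamiltonian cycle. -/
theorem lhc_of_Phi (r n : ℕ) (hr : 3 ≤ r) (hn : r ≤ n) (μ : Mu n) (h : Phi r (toR μ) ≠ 0) :
    HasLHC r n ((Er r n).filter (fun Z => μ Z ≠ 0)) := by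
  classical
  unfold Phi at h
  obtain ⟨F, hF, hF2⟩ := Finset.exists_ne_zero_of_sum_ne_zero h
  unfold CF at hF
  obtain ⟨l, hl, rfl⟩ := (Finset.mem_filter.1 hF).2
  refine lhc_of_cyc r n hr hn l hl _ fun o ho => ?_
  have hOk := (cyc_nodup r hr hn l hl).2.2.1 o ho
  rw [Finset.mem_filter]
  constructor
  · unfold Er
    rw [mem_powersetCard_univ]
    unfold OE.set
    rw [card_insert_of_notMem, card_insert_of_notMem hOk.2.2.2, hOk.1]
    · omega
    · rw [mem_insert]
      rintro (h1 | h1)
      · exact hOk.2.1 h1
      · exact hOk.2.2.1 h1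
  · have h1 := (Finset.prod_ne_zero_iff.1 hF2) o (List.mem_toFinset.2 ho)
    intro h2
    apply h1
    unfold toR
    rw [h2, Nat.cast_zero]

/-- In a linear Hamiltonian cycle every vertex is covered (`3 ≤ r ≤ n`, `(r - 1) ∣ n`: every position
`i < n` is `(r - 1) j + i'` with `j < n / (r - 1)`, `i' < r`). -/
theorem lhc_cover (r n : ℕ) (hr : 3 ≤ r) (hn : r ≤ n) (H : Finset (Finset (Fin n)))
    (h : HasLHC r n H) (v : Fin n) : ∃ Z ∈ H, v ∈ Z := by
  obtain ⟨hd, σ, hσ⟩ := h
  have : NeZero n := ⟨by omega⟩
  obtain ⟨i, hi⟩ : ∃ i, σ i = v := σ.surjective v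
  have hr1 : 0 < r - 1 := by omega
  have hiv : i.val < n := ZMod.val_lt i
  have hj : i.val / (r - 1) < n / (r - 1) := by
    rw [Nat.div_lt_iff_lt_mul hr1, Nat.div_mul_cancel hd]
    exact hiv
  refine ⟨_, hσ _ hj, ?_⟩
  rw [mem_image]
  refine ⟨i.val % (r - 1), mem_range.2 ?_, ?_⟩
  · have := Nat.mod_lt i.val hr1
    omega
  · rw [Nat.div_add_mod, ZMod.natCast_zmod_val, hi]

/-- Adding an edge keeps the property. -/
theorem lhc_mono (r n : ℕ) (H H' : Finset (Finset (Fin n))) (hH : H ⊆ H')
    (h : HasLHC r n H) : HasLHC r n H' := by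
  obtain ⟨hd, σ, hσ⟩ := h
  exact ⟨hd, σ, fun j hj => hH (hσ j hj)⟩

end Pool.Agent.LHam
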