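import Mathlib

set_option autoImplicit false

/-! G2a. Uniform `k`-subsets, binomial random subsets. -/

namespace Pool.Agent.LHam

open Finset

variable {α : Type} [DecidableEq α]

/-- The average of `f` over the `k`-subsets of `E`. -/
noncomputable def ub (E : Finset α) (k : ℕ) (f : Finset α → ℝ) : ℝ :=
  (∑ H ∈ powersetCard k E, f H) / (E.card.choose k : ℝ)

/-- Double counting of the pairs `(H, Z)`, `|H| = k`, `Z ∈ E \ H`, and `H' = insert Z H`, `|H'| = k + 1`. -/
theorem ub_dc (E : Finset α) (k : ℕ) (f : Finset α → ℝ) :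
    ∑ H ∈ powersetCard k E, ∑ Z ∈ E \ H, f (insert Z H) =
      ((k : ℝ) + 1) * ∑ H ∈ powersetCard (k + 1) E, f H := by
  have h1 : ((k : ℝ) + 1) * ∑ H ∈ powersetCard (k + 1) E, f H =
      ∑ H ∈ powersetCard (k + 1) E, ∑ _Z ∈ H, f H := by
    rw [Finset.mul_sum]
    refine Finset.sum_congr rfl fun H hH => ?_
    rw [Finset.sum_const, (Finset.mem_powersetCard.1 hH).2, nsmul_eq_mul]
    push_cast
    ring
  rw [h1, Finset.sum_sigma', Finset.sum_sigma']
  refine Finset.sum_bij' (fun x _ => ⟨insert x.2 x.1, x.2⟩) (fun x _ => ⟨x.1.erase x.2, x.2⟩)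
    ?_ ?_ ?_ ?_ ?_
  · rintro ⟨H, Z⟩ hx
    simp only [mem_sigma, mem_powersetCard, mem_sdiff] at hx ⊢
    refine ⟨⟨insert_subset hx.2.1 hx.1.1, ?_⟩, mem_insert_self _ _⟩
    rw [card_insert_of_notMem hx.2.2, hx.1.2]
  · rintro ⟨H, Z⟩ hx
    simp only [mem_sigma, mem_powersetCard, mem_sdiff] at hx ⊢
    refine ⟨⟨(erase_subset _ _).trans hx.1.1, ?_⟩, hx.1.1 hx.2, notMem_erase _ _⟩
    rw [card_erase_of_mem hx.2, hx.1.2]
    rfl
  · rintro ⟨H, Z⟩ hx
    simp only [mem_sigma, mem_powersetCard, mem_sdiff] at hx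
    simp [erase_insert hx.2.2]
  · rintro ⟨H, Z⟩ hx
    simp only [mem_sigma, mem_powersetCard] at hx
    simp [insert_erase hx.2]
  · rintro ⟨H, Z⟩ _
    rfl

omit [DecidableEq α] in
private theorem choose_real (E : Finset α) (k : ℕ) (hk : k < E.card) :
    (E.card.choose (k + 1) : ℝ) * ((k : ℝ) + 1) =
      (E.card.choose k : ℝ) * ((E.card : ℝ) - k) := by
  have h := Nat.choose_succ_right_eq E.card k
  rw [← Nat.cast_sub hk.le]
  exact_mod_cast h

/-- For increasing `f` the averages increase (`choose k * (T - k) = choose (k + 1) * (k + 1)`). -/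
theorem ub_mono (E : Finset α) (k : ℕ) (hk : k < E.card) (f : Finset α → ℝ)
    (hf : ∀ H, H ⊆ E → ∀ Z ∈ E, f H ≤ f (insert Z H)) : ub E k f ≤ ub E (k + 1) f := by
  have h1 : ((E.card : ℝ) - k) * ∑ H ∈ powersetCard k E, f H ≤
      ((k : ℝ) + 1) * ∑ H ∈ powersetCard (k + 1) E, f H := by
    rw [← ub_dc E k f, Finset.mul_sum]
    refine Finset.sum_le_sum fun H hH => ?_
    have h2 := Finset.mem_powersetCard.1 hH
    have h3 : ((E \ H).card : ℝ) = (E.card : ℝ) - k := by
      rw [Finset.card_sdiff_of_subset h2.1, h2.2, Nat.cast_sub hk.le]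
    have h4 := Finset.card_nsmul_le_sum (E \ H) (fun Z => f (insert Z H)) (f H)
      fun Z hZ => hf H h2.1 Z (Finset.mem_sdiff.1 hZ).1
    rw [nsmul_eq_mul, h3] at h4
    exact h4
  have h5 := choose_real E k hk
  have h6 : (0 : ℝ) < (E.card.choose k : ℝ) := by exact_mod_cast Nat.choose_pos hk.le
  have h7 : (0 : ℝ) < (E.card.choose (k + 1) : ℝ) := by exact_mod_cast Nat.choose_pos hk
  unfold ub
  rw [div_le_div_iff₀ h6 h7]
  have h8 : (0 : ℝ) < (k : ℝ) + 1 := by positivity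
  have h9 := mul_le_mul_of_nonneg_left h1 h6.le
  refine le_of_mul_le_mul_left ?_ h8
  calc ((k : ℝ) + 1) * ((∑ H ∈ powersetCard k E, f H) * (E.card.choose (k + 1) : ℝ))
      = (∑ H ∈ powersetCard k E, f H) * ((E.card.choose (k + 1) : ℝ) * ((k : ℝ) + 1)) := by ring
    _ = (E.card.choose k : ℝ) * (((E.card : ℝ) - k) * ∑ H ∈ powersetCard k E, f H) := by
        rw [h5]
        ring
    _ ≤ (E.card.choose k : ℝ) * (((k : ℝ) + 1) * ∑ H ∈ powersetCard (k + 1) E, f H) := h9
    _ = _ := by ring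

/-- One more random element: with probability `k / T` it is already in `H` (the terms `Z ∈ H` give
`k f H`), otherwise the new set is a uniform `(k + 1)`-subset. -/
theorem ub_avg (E : Finset α) (k : ℕ) (hk : k < E.card) (f : Finset α → ℝ) :
    ub E k (fun H => (∑ Z ∈ E, f (insert Z H)) / E.card) =
      (k : ℝ) / E.card * ub E k f + ((E.card : ℝ) - k) / E.card * ub E (k + 1) f := by
  have h5 := choose_real E k hk
  have h6 : (0 : ℝ) < (E.card.choose k : ℝ) := by exact_mod_cast Nat.choose_pos hk.le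
  have h7 : (0 : ℝ) < (E.card.choose (k + 1) : ℝ) := by exact_mod_cast Nat.choose_pos hk
  have hT : (0 : ℝ) < (E.card : ℝ) := by
    have : 0 < E.card := by omega
    exact_mod_cast this
  have h1 : ∑ H ∈ powersetCard k E, ∑ Z ∈ E, f (insert Z H) =
      (k : ℝ) * ∑ H ∈ powersetCard k E, f H +
        ((k : ℝ) + 1) * ∑ H ∈ powersetCard (k + 1) E, f H := by
    rw [← ub_dc E k f, Finset.mul_sum, ← Finset.sum_add_distrib]
    refine Finset.sum_congr rfl fun H hH => ?_
    have h2 := Finset.mem_powersetCard.1 hH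
    rw [← Finset.sum_sdiff h2.1, add_comm]
    congr 1
    rw [Finset.sum_congr rfl fun Z hZ => by rw [Finset.insert_eq_of_mem hZ],
      Finset.sum_const, h2.2, nsmul_eq_mul]
  unfold ub
  rw [← Finset.sum_div, h1]
  have h8 : (E.card.choose (k + 1) : ℝ) = (E.card.choose k : ℝ) * ((E.card : ℝ) - k) /
      ((k : ℝ) + 1) := by
    rw [eq_div_iff (by positivity)]
    exact h5
  have h9 : (0 : ℝ) < (E.card : ℝ) - k := by
    have : (k : ℝ) < E.card := by exact_mod_cast hk
    linarith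
  have h10 : (0 : ℝ) < (k : ℝ) + 1 := by positivity
  rw [h8]
  field_simp

/-- The binomial random subset as a mixture of uniform `k`-subsets. -/
theorem bin_ub (E : Finset α) (p : ℝ) (f : Finset α → ℝ) :
    ∑ H ∈ E.powerset, p ^ H.card * (1 - p) ^ (E.card - H.card) * f H =
      ∑ k ∈ range (E.card + 1), (E.card.choose k : ℝ) * p ^ k * (1 - p) ^ (E.card - k) *
        ub E k f := by
  rw [Finset.sum_powerset]
  refine Finset.sum_congr rfl fun k hk => ?_
  have hk' : k ≤ E.card := Nat.lt_succ_iff.1 (Finset.mem_range.1 hk)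
  have h6 : (0 : ℝ) < (E.card.choose k : ℝ) := by exact_mod_cast Nat.choose_pos hk'
  have h1 : ∑ H ∈ powersetCard k E, p ^ H.card * (1 - p) ^ (E.card - H.card) * f H =
      p ^ k * (1 - p) ^ (E.card - k) * ∑ H ∈ powersetCard k E, f H := by
    rw [Finset.mul_sum]
    refine Finset.sum_congr rfl fun H hH => ?_
    rw [(Finset.mem_powersetCard.1 hH).2]
  rw [h1]
  unfold ub
  field_simp

/-- **Chebyshev's inequality** for the binomial distribution. The variance is in Mathlib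
(`bernsteinPolynomial.variance`, evaluated at `p`): `∑ k, (T p - k)^2 C(T,k) p^k (1-p)^(T-k) = T p (1 - p)`;
for `k < M ≤ (1 - c) T p` the square is `≥ (c T p)^2`. -/
theorem bin_cheb (T M : ℕ) (p c : ℝ) (hp : 0 ≤ p) (hp1 : p ≤ 1) (hc : 0 < c)
    (hTp : 0 < (T : ℝ) * p) (hM : (M : ℝ) ≤ (1 - c) * (T * p)) :
    ∑ k ∈ range M, (T.choose k : ℝ) * p ^ k * (1 - p) ^ (T - k) ≤ 1 / (c ^ 2 * (T * p)) := by
  have hv := congrArg (Polynomial.eval p) (bernsteinPolynomial.variance ℝ T)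
  have hv' : ∑ k ∈ range (T + 1), ((T : ℝ) * p - k) ^ 2 *
      ((T.choose k : ℝ) * p ^ k * (1 - p) ^ (T - k)) = T * p * (1 - p) := by
    have h1 : Polynomial.eval p (∑ ν ∈ range (T + 1), (T • Polynomial.X - (ν : Polynomial ℝ)) ^ 2 *
        bernsteinPolynomial ℝ T ν) = ∑ k ∈ range (T + 1), ((T : ℝ) * p - k) ^ 2 *
      ((T.choose k : ℝ) * p ^ k * (1 - p) ^ (T - k)) := by
      rw [Polynomial.eval_finsetSum]
      refine Finset.sum_congr rfl fun k _ => ?_
      simp [bernsteinPolynomial, Polynomial.eval_mul, Polynomial.eval_pow]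
    rw [← h1, hv]
    simp
  have hT0 : (0 : ℝ) ≤ T := Nat.cast_nonneg _
  have hMT : M ≤ T := by
    have h1 : (M : ℝ) ≤ T := by
      refine hM.trans ?_
      have h2 : (T : ℝ) * p ≤ T := mul_le_of_le_one_right hT0 hp1
      nlinarith
    exact_mod_cast h1
  have hb : ∀ k, (0 : ℝ) ≤ (T.choose k : ℝ) * p ^ k * (1 - p) ^ (T - k) := fun k =>
    mul_nonneg (mul_nonneg (Nat.cast_nonneg _) (pow_nonneg hp _))
      (pow_nonneg (sub_nonneg.2 hp1) _)
  have h1 : (c * (T * p)) ^ 2 * ∑ k ∈ range M, (T.choose k : ℝ) * p ^ k * (1 - p) ^ (T - k) ≤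
      T * p * (1 - p) := by
    rw [← hv', Finset.mul_sum]
    refine le_trans (Finset.sum_le_sum fun k hk => ?_)
      (Finset.sum_le_sum_of_subset_of_nonneg (s := range M) ?_ fun k _ _ =>
        mul_nonneg (sq_nonneg _) (hb k))
    · refine mul_le_mul_of_nonneg_right ?_ (hb k)
      have h2 : (k : ℝ) ≤ M := by exact_mod_cast (Finset.mem_range.1 hk).le
      have h3 : c * (T * p) ≤ (T : ℝ) * p - k := by nlinarith
      have h4 : 0 ≤ c * (T * p) := (mul_pos hc hTp).le
      exact pow_le_pow_left₀ h4 h3 2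
    · intro k hk
      rw [Finset.mem_range] at hk ⊢
      omega
  have h2 : T * p * (1 - p) ≤ T * p := mul_le_of_le_one_right hTp.le (by linarith)
  have h3 : (0 : ℝ) < (c * (T * p)) ^ 2 := pow_pos (mul_pos hc hTp) 2
  rw [le_div_iff₀ (mul_pos (pow_pos hc 2) hTp)]
  have h4 := h1.trans h2
  refine le_of_mul_le_mul_right ?_ hTp
  calc (∑ k ∈ range M, (T.choose k : ℝ) * p ^ k * (1 - p) ^ (T - k)) * (c ^ 2 * (T * p)) *
        (T * p) = (c * (T * p)) ^ 2 *
          ∑ k ∈ range M, (T.choose k : ℝ) * p ^ k * (1 - p) ^ (T - k) := by ring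
    _ ≤ T * p := h4
    _ = 1 * (T * p) := by ring

/-- **Comparison.** `0 ≤ f ≤ 1` increasing. The binomial expectation is at least
`∑ k ≥ M, .. ub E k f ≥ (1 - P(Bin < M)) ub E M f ≥ ub E M f - P(Bin < M)`. (`M ≤ (1 - c) T p ≤ T`.) -/
theorem bin_ge (E : Finset α) (M : ℕ) (p c : ℝ) (hp : 0 ≤ p) (hp1 : p ≤ 1) (hc : 0 < c)
    (hTp : 0 < (E.card : ℝ) * p) (hM : (M : ℝ) ≤ (1 - c) * (E.card * p)) (f : Finset α → ℝ)
    (hf0 : ∀ H, 0 ≤ f H) (hf1 : ∀ H, f H ≤ 1)
    (hf : ∀ H, H ⊆ E → ∀ Z ∈ E, f H ≤ f (insert Z H)) :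
    ub E M f - 1 / (c ^ 2 * (E.card * p)) ≤
      ∑ H ∈ E.powerset, p ^ H.card * (1 - p) ^ (E.card - H.card) * f H := by
  have hT0 : (0 : ℝ) ≤ E.card := Nat.cast_nonneg _
  have hMT : M ≤ E.card := by
    have h1 : (M : ℝ) ≤ E.card := by
      refine hM.trans ?_
      have h2 : (E.card : ℝ) * p ≤ E.card := mul_le_of_le_one_right hT0 hp1
      nlinarith
    exact_mod_cast h1
  have hch := bin_cheb E.card M p c hp hp1 hc hTp hM
  rw [bin_ub]
  have hb : ∀ k, (0 : ℝ) ≤ (E.card.choose k : ℝ) * p ^ k * (1 - p) ^ (E.card - k) := fun k =>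
    mul_nonneg (mul_nonneg (Nat.cast_nonneg _) (pow_nonneg hp _))
      (pow_nonneg (sub_nonneg.2 hp1) _)
  have hu0 : ∀ k, 0 ≤ ub E k f := fun k =>
    div_nonneg (Finset.sum_nonneg fun H _ => hf0 H) (Nat.cast_nonneg _)
  have hu1 : ub E M f ≤ 1 := by
    refine div_le_one_of_le₀ ?_ (Nat.cast_nonneg _)
    have h1 := Finset.sum_le_card_nsmul (powersetCard M E) f 1 fun H _ => hf1 H
    rw [nsmul_eq_mul, mul_one, Finset.card_powersetCard] at h1
    exact h1
  have hmono : ∀ k, M ≤ k → k ≤ E.card → ub E M f ≤ ub E k f := by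
    intro k hk
    induction k, hk using Nat.le_induction with
    | base => exact fun _ => le_refl _
    | succ k _ ih => exact fun h1 => (ih (by omega)).trans (ub_mono E k (by omega) f hf)
  have hone : ∑ k ∈ range (E.card + 1),
      (E.card.choose k : ℝ) * p ^ k * (1 - p) ^ (E.card - k) = 1 := by
    have h1 := add_pow p (1 - p) E.card
    rw [add_sub_cancel, one_pow] at h1
    refine Eq.trans (Finset.sum_congr rfl fun k _ => ?_) h1.symm
    ring
  have hsplit := Finset.sum_range_add_sum_Ico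
    (fun k => (E.card.choose k : ℝ) * p ^ k * (1 - p) ^ (E.card - k))
    (show M ≤ E.card + 1 by omega)
  have hsplit2 := Finset.sum_range_add_sum_Ico
    (fun k => (E.card.choose k : ℝ) * p ^ k * (1 - p) ^ (E.card - k) * ub E k f)
    (show M ≤ E.card + 1 by omega)
  rw [← hsplit2]
  have h1 : 0 ≤ ∑ k ∈ range M,
      (E.card.choose k : ℝ) * p ^ k * (1 - p) ^ (E.card - k) * ub E k f :=
    Finset.sum_nonneg fun k _ => mul_nonneg (hb k) (hu0 k)
  have h2 : (∑ k ∈ Ico M (E.card + 1),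
      (E.card.choose k : ℝ) * p ^ k * (1 - p) ^ (E.card - k)) * ub E M f ≤
      ∑ k ∈ Ico M (E.card + 1),
        (E.card.choose k : ℝ) * p ^ k * (1 - p) ^ (E.card - k) * ub E k f := by
    rw [Finset.sum_mul]
    refine Finset.sum_le_sum fun k hk => ?_
    rw [Finset.mem_Ico] at hk
    exact mul_le_mul_of_nonneg_left (hmono k hk.1 (by omega)) (hb k)
  have h3 : ∑ k ∈ Ico M (E.card + 1), (E.card.choose k : ℝ) * p ^ k * (1 - p) ^ (E.card - k) =
      1 - ∑ k ∈ range M, (E.card.choose k : ℝ) * p ^ k * (1 - p) ^ (E.card - k) := by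
    linarith
  rw [h3] at h2
  have h4 : 0 ≤ ∑ k ∈ range M, (E.card.choose k : ℝ) * p ^ k * (1 - p) ^ (E.card - k) :=
    Finset.sum_nonneg fun k _ => hb k
  nlinarith [mul_nonneg h4 (sub_nonneg.2 hu1)]

end Pool.Agent.LHam
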