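import Pool.Agent.LHam.Proc
import Pool.Agent.LHam.G0Defs
import Pool.Agent.LHam.G2aUnif

set_option autoImplicit false

/-! G2b. Transfer from level `M` to the binomial random `r`-graph. -/

namespace Pool.Agent.LHam

open Finset

variable {n : ℕ}

/-- The support. -/
def supp (r : ℕ) (μ : Mu n) : Finset (Finset (Fin n)) := (Er r n).filter (fun Z => μ Z ≠ 0)

theorem supp_up (r : ℕ) (μ : Mu n) (Z : Finset (Fin n)) (hZ : Z ∈ Er r n) :
    supp r (up μ Z) = insert Z (supp r μ) := by
  ext Z'
  rw [Finset.mem_insert]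
  simp only [supp, Finset.mem_filter]
  by_cases h : Z' = Z
  · subst h
    simp [up, hZ]
  · rw [up, Function.update_of_ne h]
    constructor
    · exact fun h1 => Or.inr h1
    · rintro (h1 | h1)
      · exact absurd h1 h
      · exact h1

/-- Induction on `M` (for all increasing `f`): `EM (M + 1) (f ∘ supp) = EM M (f' ∘ supp)` with
`f' H = (∑ Z ∈ Er, f (insert Z H)) / T`, increasing; `ub_avg`, `ub_mono`. -/
theorem EM_ub (r M : ℕ) (hM : M ≤ (Er r n).card) (f : Finset (Finset (Fin n)) → ℝ)
    (hf : ∀ H Z, f H ≤ f (insert Z H)) :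
    EM r n M (fun μ => f (supp r μ)) ≤ ub (Er r n) M f := by
  induction M generalizing f with
  | zero =>
    have h1 : supp r (0 : Mu n) = ∅ := by simp [supp]
    simp [EM, ub, h1]
  | succ M ih =>
    have hM' : M < (Er r n).card := hM
    have hT : (0 : ℝ) < (Er r n).card := by
      exact_mod_cast (Nat.zero_le M).trans_lt hM'
    have h1 : EM r n (M + 1) (fun μ => f (supp r μ)) =
        EM r n M (fun μ => (fun H => (∑ Z ∈ Er r n, f (insert Z H)) / ((Er r n).card : ℝ))
          (supp r μ)) := by
      change EM r n M (fun μ => (∑ Z ∈ Er r n, f (supp r (up μ Z))) / ((Er r n).card : ℝ)) = _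
      refine EM_congr r M _ _ fun μ _ => ?_
      simp only
      rw [Finset.sum_congr rfl fun Z hZ => by rw [supp_up r μ Z hZ]]
    rw [h1]
    refine (ih hM'.le (fun H => (∑ Z ∈ Er r n, f (insert Z H)) / ((Er r n).card : ℝ))
      fun H Z => ?_).trans ?_
    · refine div_le_div_of_nonneg_right (Finset.sum_le_sum fun Z' _ => ?_) hT.le
      rw [Finset.insert_comm]
      exact hf _ _
    · rw [ub_avg (Er r n) M hM' f]
      have h2 := ub_mono (Er r n) M hM' f fun H _ Z _ => hf H Z
      have h3 : (0 : ℝ) ≤ (M : ℝ) / (Er r n).card := by positivity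
      have h4 : (M : ℝ) / (Er r n).card + (((Er r n).card : ℝ) - M) / (Er r n).card = 1 := by
        rw [← add_div, add_sub_cancel]
        exact div_self hT.ne'
      have h5 : ub (Er r n) (M + 1) f = (M : ℝ) / (Er r n).card * ub (Er r n) (M + 1) f +
          (((Er r n).card : ℝ) - M) / (Er r n).card * ub (Er r n) (M + 1) f := by
        rw [← add_mul, h4, one_mul]
      have h6 := mul_le_mul_of_nonneg_left h2 h3
      linarith

/-- **Transfer.** (`EM_ub`, `bin_ge` for the indicator of `W`, `card_Er`.) -/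
theorem transfer (r M : ℕ) (p c : ℝ) (hp : 0 ≤ p) (hp1 : p ≤ 1) (hc : 0 < c)
    (hTp : 0 < (n.choose r : ℝ) * p) (hM : (M : ℝ) ≤ (1 - c) * (n.choose r * p))
    (W : Finset (Finset (Fin n)) → Prop) (hW : ∀ H Z, W H → W (insert Z H)) :
    PM r n M (fun μ => W (supp r μ)) - 1 / (c ^ 2 * (n.choose r * p)) ≤ prob r n p W := by
  classical
  have hcard : ((Er r n).card : ℝ) = (n.choose r : ℝ) := by rw [card_Er]
  have hf : ∀ H Z, (if W H then (1 : ℝ) else 0) ≤ if W (insert Z H) then 1 else 0 := by
    intro H Z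
    by_cases h : W H
    · rw [if_pos h, if_pos (hW H Z h)]
    · rw [if_neg h]
      split_ifs
      · exact zero_le_one
      · exact le_rfl
  have hMT : M ≤ (Er r n).card := by
    have h1 : (M : ℝ) ≤ (n.choose r : ℝ) := by
      have h2 : (n.choose r : ℝ) * p ≤ n.choose r :=
        mul_le_of_le_one_right (Nat.cast_nonneg _) hp1
      nlinarith
    rw [card_Er]
    exact_mod_cast h1
  have h1 := EM_ub r M hMT (fun H => if W H then (1 : ℝ) else 0) hf
  have h2 := bin_ge (Er r n) M p c hp hp1 hc (by rw [hcard]; exact hTp)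
    (by rw [hcard]; exact hM) (fun H => if W H then (1 : ℝ) else 0)
    (fun H => by
      split_ifs
      · exact zero_le_one
      · exact le_rfl)
    (fun H => by
      split_ifs
      · exact le_rfl
      · exact zero_le_one)
    (fun H _ Z _ => hf H Z)
  have h3 : ∑ H ∈ (Er r n).powerset, p ^ H.card * (1 - p) ^ ((Er r n).card - H.card) *
      (if W H then (1 : ℝ) else 0) = prob r n p W := by
    unfold prob
    rw [card_Er]
    refine Finset.sum_congr rfl fun H _ => ?_
    rw [mul_ite, mul_one, mul_zero]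
  rw [h3, hcard] at h2
  have h4 : PM r n M (fun μ => W (supp r μ)) =
      EM r n M (fun μ => if W (supp r μ) then (1 : ℝ) else 0) := rfl
  rw [h4]
  linarith

end Pool.Agent.LHam
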