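import Pool.Agent.LHam.G0Defs

set_option autoImplicit false

/-! G2c. The choice of the level for `p ≥ (1 + ε) p^deg`. -/

namespace Pool.Agent.LHam

open Filter

private theorem choose_pdeg (r n : ℕ) (hr : 3 ≤ r) (hn : r ≤ n) :
    (n : ℝ) / r * Real.log n * (1 - (r : ℝ) * (r - 1) / n) ≤ n.choose r * pdeg r n := by
  have hrp : (0 : ℝ) < r := by
    have : 0 < r := by omega
    exact_mod_cast this
  have hnp : (0 : ℝ) < n := by
    have : 0 < n := by omega
    exact_mod_cast this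
  have hrn : (r : ℝ) ≤ n := by exact_mod_cast hn
  have hlog : 0 ≤ Real.log n := Real.log_natCast_nonneg n
  have h1 : ((n : ℝ) - (r - 1)) ^ r ≤ (r.factorial : ℝ) * n.choose r := by
    have h2 := Nat.pow_sub_le_descFactorial n r
    rw [Nat.descFactorial_eq_factorial_mul_choose] at h2
    have h3 : (((n + 1 - r) ^ r : ℕ) : ℝ) ≤ ((r.factorial * n.choose r : ℕ) : ℝ) := by
      exact_mod_cast h2
    rw [Nat.cast_pow, Nat.cast_sub (by omega), Nat.cast_mul] at h3
    push_cast at h3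
    have h4 : (n : ℝ) - (r - 1) = n + 1 - r := by ring
    rw [h4]
    exact h3
  have h5 : (n : ℝ) ^ r * (1 - (r : ℝ) * (r - 1) / n) ≤ ((n : ℝ) - (r - 1)) ^ r := by
    have h6 : (-2 : ℝ) ≤ -((r - 1) / n) := by
      have h7 : ((r : ℝ) - 1) / n ≤ 1 := by
        rw [div_le_one hnp]
        linarith
      linarith
    have h8 := one_add_mul_le_pow h6 r
    have h9 : (n : ℝ) - (r - 1) = n * (1 + -((r - 1) / n)) := by
      field_simp
      ring
    rw [h9, mul_pow]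
    refine mul_le_mul_of_nonneg_left ?_ (by positivity)
    refine le_trans (le_of_eq ?_) h8
    ring
  have h10 : (n : ℝ) ^ r * (1 - (r : ℝ) * (r - 1) / n) ≤
      (r : ℝ) * ((r - 1).factorial * n.choose r) := by
    refine (h5.trans h1).trans (le_of_eq ?_)
    have h11 : r.factorial = r * (r - 1).factorial :=
      (Nat.mul_factorial_pred (by omega)).symm
    rw [h11]
    push_cast
    ring
  have h12 : (n : ℝ) ^ r = n ^ (r - 1) * n := by
    rw [← pow_succ]
    congr 1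
    omega
  have hnr : (0 : ℝ) < (n : ℝ) ^ (r - 1) := by positivity
  unfold pdeg
  have e1 : (n.choose r : ℝ) * (((r - 1).factorial : ℝ) * Real.log n / (n : ℝ) ^ (r - 1)) =
      ((r : ℝ) * ((r - 1).factorial * n.choose r)) * (Real.log n / (r * (n : ℝ) ^ (r - 1))) := by
    field_simp
  have e2 : (n : ℝ) / r * Real.log n * (1 - (r : ℝ) * (r - 1) / n) =
      ((n : ℝ) ^ r * (1 - (r : ℝ) * (r - 1) / n)) * (Real.log n / (r * (n : ℝ) ^ (r - 1))) := by
    rw [h12]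
    field_simp
  rw [e1, e2]
  exact mul_le_mul_of_nonneg_right h10 (by positivity)

/-- **The level.** `M₁ = ⌈(1 + ε / 4) (n / r) log n⌉₊`. For `p ≥ (1 + ε) pdeg r n`:
`binom(n, r) p ≥ (1 + ε) (n / r) log n * ∏ i ∈ range r, (1 - i / n) ≥ (1 + 3 ε / 4) (n / r) log n` for `n` large
(`binom(n, r) = n (n - 1) .. (n - r + 1) / r!`, e.g. `Nat.pow_sub_le_descFactorial`:
`(n + 1 - r)^r ≤ n.descFactorial r`), `M₁ ≤ (1 + ε / 2) (n / r) log n = (1 - c) (1 + 3 ε / 4) (n / r) log n` with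
`c = ε / (4 + 3 ε)`. -/
theorem g_num (r : ℕ) (hr : 3 ≤ r) (ε ζ : ℝ) (hε : 0 < ε) (hζ : 0 < ζ) :
    ∃ n₀ : ℕ, ∀ n ≥ n₀, ∃ M₁ : ℕ, (1 + ε / 4) * Real.log n ≤ (r : ℝ) * M₁ / n ∧
      (r : ℝ) * M₁ / n ≤ n ∧ ∀ p : ℝ, (1 + ε) * pdeg r n ≤ p →
        0 < (n.choose r : ℝ) * p ∧
        (M₁ : ℝ) ≤ (1 - ε / (4 + 3 * ε)) * (n.choose r * p) ∧
        1 / ((ε / (4 + 3 * ε)) ^ 2 * (n.choose r * p)) ≤ ζ := by
  have hrp : (0 : ℝ) < r := by
    have : 0 < r := by omega
    exact_mod_cast this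
  have hX : Tendsto (fun n : ℕ => (n : ℝ) / r * Real.log n) atTop atTop :=
    Tendsto.atTop_mul_atTop₀ (tendsto_natCast_atTop_atTop.atTop_div_const hrp)
      (Real.tendsto_log_atTop.comp tendsto_natCast_atTop_atTop)
  have h1 := hX.eventually_ge_atTop (4 / ε)
  have h2 := hX.eventually_ge_atTop (1 / ((ε / (4 + 3 * ε)) ^ 2 * ζ))
  have h3 : ∀ᶠ n : ℕ in atTop, (1 + ε / 2) * Real.log n ≤ n := by
    have h := (Real.isLittleO_log_id_atTop.def (c := 1 / (1 + ε / 2)) (by positivity))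
    have h' := tendsto_natCast_atTop_atTop.eventually h
    filter_upwards [h'] with n hn
    have ha : |Real.log n| ≤ 1 / (1 + ε / 2) * |(n : ℝ)| := hn
    rw [abs_of_nonneg (Real.log_natCast_nonneg n), abs_of_nonneg (Nat.cast_nonneg n),
      one_div, ← div_eq_inv_mul, le_div_iff₀ (by positivity)] at ha
    linarith
  have h4 : ∀ᶠ n : ℕ in atTop, (r : ℝ) * (r - 1) * (1 + ε) * 4 / ε ≤ n :=
    tendsto_natCast_atTop_atTop.eventually_ge_atTop _
  have h5 : ∀ᶠ n : ℕ in atTop, r ≤ n := eventually_ge_atTop r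
  obtain ⟨n₀, hn₀⟩ := eventually_atTop.1 (h1.and (h2.and (h3.and (h4.and h5))))
  refine ⟨n₀, fun n hn => ?_⟩
  obtain ⟨g1, g2, g3, g4, g5⟩ := hn₀ n hn
  have hnp : (0 : ℝ) < n := by
    have : 0 < n := by omega
    exact_mod_cast this
  obtain ⟨X, hXd⟩ : ∃ X : ℝ, X = (n : ℝ) / r * Real.log n := ⟨_, rfl⟩
  have hrX : (r : ℝ) * X / n = Real.log n := by
    rw [hXd]
    field_simp
  rw [← hXd] at g1 g2
  have hXp : 0 < X := lt_of_lt_of_le (by positivity) g1
  have hεX : 4 ≤ ε * X := by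
    rw [div_le_iff₀ hε] at g1
    linarith
  have hM1 : (1 + ε / 4) * X ≤ (⌈(1 + ε / 4) * X⌉₊ : ℝ) := Nat.le_ceil _
  have hM2 : (⌈(1 + ε / 4) * X⌉₊ : ℝ) ≤ (1 + ε / 2) * X := by
    have h6 := (Nat.ceil_lt_add_one (show 0 ≤ (1 + ε / 4) * X by positivity)).le
    linarith
  refine ⟨⌈(1 + ε / 4) * X⌉₊, ?_, ?_, ?_⟩
  · rw [← hrX]
    have h6 : (1 + ε / 4) * ((r : ℝ) * X / n) = (r : ℝ) * ((1 + ε / 4) * X) / n := by ring
    rw [h6]
    gcongr
  · have h6 : (r : ℝ) * (⌈(1 + ε / 4) * X⌉₊ : ℝ) / n ≤ (r : ℝ) * ((1 + ε / 2) * X) / n := by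
      gcongr
    refine h6.trans (le_trans (le_of_eq ?_) g3)
    rw [← hrX]
    ring
  · intro p hp
    have h6 : (1 + 3 * ε / 4) * X ≤ n.choose r * p := by
      have h7 := choose_pdeg r n hr g5
      rw [← hXd] at h7
      have h8 : (n.choose r : ℝ) * ((1 + ε) * pdeg r n) ≤ n.choose r * p :=
        mul_le_mul_of_nonneg_left hp (Nat.cast_nonneg _)
      have h9 : (1 + 3 * ε / 4) ≤ (1 + ε) * (1 - (r : ℝ) * (r - 1) / n) := by
        have h10 : (1 + ε) * ((r : ℝ) * (r - 1) / n) ≤ ε / 4 := by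
          rw [div_le_iff₀ hε] at g4
          rw [mul_div_assoc', div_le_iff₀ hnp]
          linarith
        linarith
      calc (1 + 3 * ε / 4) * X ≤ (1 + ε) * (1 - (r : ℝ) * (r - 1) / n) * X :=
            mul_le_mul_of_nonneg_right h9 hXp.le
        _ = (1 + ε) * (X * (1 - (r : ℝ) * (r - 1) / n)) := by ring
        _ ≤ (1 + ε) * (n.choose r * pdeg r n) :=
            mul_le_mul_of_nonneg_left h7 (by positivity)
        _ ≤ _ := by linarith
    have h7 : X ≤ n.choose r * p := by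
      have : 0 ≤ 3 * ε / 4 * X := by positivity
      linarith
    have hc : 0 < ε / (4 + 3 * ε) := by positivity
    refine ⟨lt_of_lt_of_le hXp h7, ?_, ?_⟩
    · refine hM2.trans ?_
      have h8 : (1 + ε / 2) * X = (1 - ε / (4 + 3 * ε)) * ((1 + 3 * ε / 4) * X) := by
        field_simp
        ring
      rw [h8]
      refine mul_le_mul_of_nonneg_left h6 ?_
      have h9 : ε / (4 + 3 * ε) ≤ 1 := by
        rw [div_le_one (by positivity)]
        linarith
      linarith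
    · rw [div_le_iff₀ (by positivity)] at g2
      rw [div_le_iff₀ (mul_pos (by positivity) (lt_of_lt_of_le hXp h7))]
      calc (1 : ℝ) ≤ X * ((ε / (4 + 3 * ε)) ^ 2 * ζ) := g2
        _ ≤ (n.choose r * p) * ((ε / (4 + 3 * ε)) ^ 2 * ζ) :=
            mul_le_mul_of_nonneg_right h7 (by positivity)
        _ = _ := by ring

end Pool.Agent.LHam
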