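import Pool.Agent.LHam.G0Defs

set_option autoImplicit false

/-! G3a. Isolated vertices, second moment. -/

namespace Pool.Agent.LHam

open Finset

/-- The weight of the edge set `H`. -/
private noncomputable def wt (r n : ℕ) (p : ℝ) (H : Finset (Finset (Fin n))) : ℝ :=
  p ^ H.card * (1 - p) ^ (n.choose r - H.card)

private theorem wt_nonneg (r n : ℕ) {p : ℝ} (hp : 0 ≤ p) (hp1 : p < 1)
    (H : Finset (Finset (Fin n))) : 0 ≤ wt r n p H :=
  mul_nonneg (pow_nonneg hp _) (pow_nonneg (by linarith) _)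

private theorem card_edges (r n : ℕ) :
    (powersetCard r (univ : Finset (Fin n))).card = n.choose r := by
  rw [card_powersetCard, card_univ, Fintype.card_fin]

private theorem sum_wt (r n : ℕ) (p : ℝ) :
    ∑ H ∈ (powersetCard r (univ : Finset (Fin n))).powerset, wt r n p H = 1 := by
  have h := Finset.sum_pow_mul_eq_add_pow p (1 - p) (powersetCard r (univ : Finset (Fin n)))
  rw [card_edges] at h
  unfold wt
  rw [h]
  simp

/-- The probability that no `r`-set of `Q` is an edge. (`H ∩ Q = ∅` iff `H ⊆ E \ Q`;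
`Finset.sum_pow_mul_eq_add_pow`.) -/
theorem prob_avoid (r n : ℕ) (p : ℝ) (Q : Finset (Finset (Fin n)))
    (hQ : Q ⊆ powersetCard r univ) :
    prob r n p (fun H => Disjoint H Q) = (1 - p) ^ Q.card := by
  classical
  have h0 : prob r n p (fun H => Disjoint H Q) =
      ∑ H ∈ (powersetCard r (univ : Finset (Fin n))).powerset.filter (fun H => Disjoint H Q),
        p ^ H.card * (1 - p) ^ (n.choose r - H.card) := by
    unfold prob
    rw [Finset.sum_filter]
    refine Finset.sum_congr rfl fun H _ => ?_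
    by_cases h : Disjoint H Q
    · rw [if_pos h, if_pos h]
    · rw [if_neg h, if_neg h]
  have h1 : ((powersetCard r (univ : Finset (Fin n))).powerset.filter fun H => Disjoint H Q) =
      ((powersetCard r (univ : Finset (Fin n))) \ Q).powerset := by
    ext H
    rw [mem_filter, mem_powerset, mem_powerset, subset_sdiff]
  have h2 : ((powersetCard r (univ : Finset (Fin n))) \ Q).card + Q.card = n.choose r := by
    rw [card_sdiff_add_card_eq_card hQ, card_edges]
  have h3 : ∀ H ∈ ((powersetCard r (univ : Finset (Fin n))) \ Q).powerset,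
      p ^ H.card * (1 - p) ^ (n.choose r - H.card) =
        p ^ H.card * (1 - p) ^ (((powersetCard r (univ : Finset (Fin n))) \ Q).card - H.card) *
          (1 - p) ^ Q.card := by
    intro H hH
    have h4 := card_le_card (mem_powerset.1 hH)
    rw [mul_assoc, ← pow_add]
    congr 2
    omega
  have h5 := Finset.sum_pow_mul_eq_add_pow p (1 - p) ((powersetCard r (univ : Finset (Fin n))) \ Q)
  rw [h0, h1, Finset.sum_congr rfl h3, ← Finset.sum_mul, h5]
  simp

/-- The number of `r`-sets containing `u`, and containing `u` or `v`. -/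
theorem card_star (r n : ℕ) (hr : 3 ≤ r) (hn : r ≤ n) (v : Fin n) :
    ((powersetCard r (univ : Finset (Fin n))).filter (fun Z => v ∈ Z)).card =
      (n - 1).choose (r - 1) := by
  have h1 := Finset.card_filter_add_card_filter_not
    (s := powersetCard r (univ : Finset (Fin n))) (fun Z => v ∈ Z)
  have h2 : (powersetCard r (univ : Finset (Fin n))).filter (fun Z => ¬ v ∈ Z) =
      powersetCard r (univ.erase v) := by
    ext Z
    rw [mem_filter, mem_powersetCard, mem_powersetCard, subset_erase]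
    tauto
  rw [h2, card_powersetCard, card_erase_of_mem (mem_univ v), card_edges, card_univ,
    Fintype.card_fin] at h1
  obtain ⟨m, rfl⟩ : ∃ m, n = m + 1 := ⟨n - 1, by omega⟩
  obtain ⟨k, rfl⟩ : ∃ k, r = k + 1 := ⟨r - 1, by omega⟩
  rw [Nat.add_sub_cancel] at h1 ⊢
  rw [Nat.add_sub_cancel]
  have h3 := Nat.choose_succ_succ' m k
  omega

theorem card_star2 (r n : ℕ) (hr : 3 ≤ r) (hn : r ≤ n) (u v : Fin n) (h : u ≠ v) :
    ((powersetCard r (univ : Finset (Fin n))).filter (fun Z => u ∈ Z ∨ v ∈ Z)).card +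
      (n - 2).choose (r - 2) = 2 * (n - 1).choose (r - 1) := by
  have h1 := Finset.card_filter_add_card_filter_not
    (s := powersetCard r (univ : Finset (Fin n))) (fun Z => u ∈ Z ∨ v ∈ Z)
  have h2 : (powersetCard r (univ : Finset (Fin n))).filter (fun Z => ¬ (u ∈ Z ∨ v ∈ Z)) =
      powersetCard r ((univ.erase u).erase v) := by
    ext Z
    rw [mem_filter, mem_powersetCard, mem_powersetCard, subset_erase, subset_erase]
    tauto
  rw [h2, card_powersetCard, card_erase_of_mem (mem_erase.2 ⟨h.symm, mem_univ v⟩),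
    card_erase_of_mem (mem_univ u), card_edges, card_univ, Fintype.card_fin] at h1
  obtain ⟨m, rfl⟩ : ∃ m, n = m + 2 := ⟨n - 2, by omega⟩
  obtain ⟨k, rfl⟩ : ∃ k, r = k + 2 := ⟨r - 2, by omega⟩
  rw [show m + 2 - 1 - 1 = m by omega] at h1
  rw [show m + 2 - 2 = m by omega, show m + 2 - 1 = m + 1 by omega,
    show k + 2 - 2 = k by omega, show k + 2 - 1 = k + 1 by omega]
  have h3 := Nat.choose_succ_succ' (m + 1) (k + 1)
  have h4 := Nat.choose_succ_succ' m (k + 1)
  have h5 := Nat.choose_succ_succ' m k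
  rw [show m + 1 + 1 = m + 2 by omega, show k + 1 + 1 = k + 2 by omega] at h3
  rw [show k + 1 + 1 = k + 2 by omega] at h4
  omega

open Classical in
/-- The indicator of `v isolated`. -/
private noncomputable def iso {n : ℕ} (v : Fin n) (H : Finset (Finset (Fin n))) : ℝ :=
  if ∀ Z ∈ H, v ∉ Z then 1 else 0

private theorem sum_iso (r n : ℕ) (hr : 3 ≤ r) (hn : r ≤ n) (p : ℝ) (v : Fin n) :
    ∑ H ∈ (powersetCard r (univ : Finset (Fin n))).powerset, wt r n p H * iso v H =
      (1 - p) ^ ((n - 1).choose (r - 1)) := by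
  classical
  rw [← card_star r n hr hn v, ← prob_avoid r n p _ (filter_subset _ _)]
  unfold prob
  refine Finset.sum_congr rfl fun H hH => ?_
  rw [mem_powerset] at hH
  have e : Disjoint H ((powersetCard r (univ : Finset (Fin n))).filter (fun Z => v ∈ Z)) ↔
      ∀ Z ∈ H, v ∉ Z := by
    rw [Finset.disjoint_left]
    constructor
    · intro h1 Z hZ hv
      exact h1 hZ (mem_filter.2 ⟨hH hZ, hv⟩)
    · intro h1 Z hZ hZ'
      exact h1 Z hZ (mem_filter.1 hZ').2
  unfold wt iso
  by_cases h : ∀ Z ∈ H, v ∉ Z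
  · rw [if_pos h, if_pos (e.2 h), mul_one]
  · rw [if_neg h, if_neg (fun h' => h (e.1 h')), mul_zero]

private theorem sum_iso2 (r n : ℕ) (p : ℝ) (u v : Fin n) :
    ∑ H ∈ (powersetCard r (univ : Finset (Fin n))).powerset, wt r n p H * (iso u H * iso v H) =
      (1 - p) ^ ((powersetCard r (univ : Finset (Fin n))).filter
        (fun Z => u ∈ Z ∨ v ∈ Z)).card := by
  classical
  rw [← prob_avoid r n p _ (filter_subset _ _)]
  unfold prob
  refine Finset.sum_congr rfl fun H hH => ?_
  rw [mem_powerset] at hH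
  have e : Disjoint H ((powersetCard r (univ : Finset (Fin n))).filter
      (fun Z => u ∈ Z ∨ v ∈ Z)) ↔ (∀ Z ∈ H, u ∉ Z) ∧ ∀ Z ∈ H, v ∉ Z := by
    rw [Finset.disjoint_left]
    constructor
    · intro h1
      exact ⟨fun Z hZ hv => h1 hZ (mem_filter.2 ⟨hH hZ, Or.inl hv⟩),
        fun Z hZ hv => h1 hZ (mem_filter.2 ⟨hH hZ, Or.inr hv⟩)⟩
    · rintro ⟨h1, h2⟩ Z hZ hZ'
      rcases (mem_filter.1 hZ').2 with h3 | h3
      · exact h1 Z hZ h3
      · exact h2 Z hZ h3
  unfold wt iso
  by_cases h : ∀ Z ∈ H, u ∉ Z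
  · by_cases h' : ∀ Z ∈ H, v ∉ Z
    · rw [if_pos h, if_pos h', if_pos (e.2 ⟨h, h'⟩), mul_one, mul_one]
    · rw [if_neg h', if_neg (fun h1 => h' (e.1 h1).2), mul_zero, mul_zero]
  · rw [if_neg h, if_neg (fun h1 => h (e.1 h1).1), zero_mul, mul_zero]

/-- **Second moment.** `q = 1 - p > 0`, `d = binom(n-1, r-1)`, `c = binom(n-2, r-2)`, `X` the
number of isolated vertices, `E` the sum with the weights of `prob`. `E 1 = 1`, `E X = n q^d`,
`E X^2 = n q^d + n (n - 1) q^(2 d - c) ≤ n q^d + (n q^d)^2 / q^c` (`prob_avoid`), and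
`(E X)^2 P(X = 0) ≤ E (X - E X)^2 = E X^2 - (E X)^2`. -/
theorem iso_bound (r n : ℕ) (hr : 3 ≤ r) (hn : r ≤ n) (p : ℝ) (hp : 0 ≤ p) (hp1 : p < 1) :
    prob r n p (fun H => ∀ v : Fin n, ∃ Z ∈ H, v ∈ Z) ≤
      1 / (n * (1 - p) ^ ((n - 1).choose (r - 1))) +
        ((1 - p) ^ ((n - 2).choose (r - 2)))⁻¹ - 1 := by
  classical
  set q : ℝ := 1 - p with hq
  have hq0 : 0 < q := by rw [hq]; linarith
  set d := (n - 1).choose (r - 1) with hd
  set c := (n - 2).choose (r - 2) with hc
  have hn0 : (0 : ℝ) < n := by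
    have : 0 < n := by omega
    exact_mod_cast this
  set PS := (powersetCard r (univ : Finset (Fin n))).powerset with hPS
  set X : Finset (Finset (Fin n)) → ℝ := fun H => ∑ v : Fin n, iso v H with hX
  set m : ℝ := n * q ^ d with hm
  have hm0 : 0 < m := by rw [hm]; positivity
  have hqd : 0 < q ^ d := pow_pos hq0 d
  have hqc : 0 < q ^ c := pow_pos hq0 c
  -- first moment
  have hEX : ∑ H ∈ PS, wt r n p H * X H = m := by
    simp only [hX, Finset.mul_sum]
    rw [Finset.sum_comm]
    simp only [hPS, sum_iso r n hr hn p]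
    rw [Finset.sum_const, card_univ, Fintype.card_fin, nsmul_eq_mul]
  -- second moment
  have hcross : ∀ u v : Fin n, u ≠ v →
      q ^ ((powersetCard r (univ : Finset (Fin n))).filter (fun Z => u ∈ Z ∨ v ∈ Z)).card =
        q ^ (2 * d) / q ^ c := by
    intro u v huv
    rw [eq_div_iff hqc.ne', ← pow_add, card_star2 r n hr hn u v huv]
  have hEX2 : ∑ H ∈ PS, wt r n p H * X H ^ 2 ≤ m + m ^ 2 / q ^ c := by
    have e1 : ∀ H, wt r n p H * X H ^ 2 =
        ∑ u : Fin n, ∑ v : Fin n, wt r n p H * (iso u H * iso v H) := by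
      intro H
      rw [hX, sq, Finset.sum_mul_sum, Finset.mul_sum]
      simp only [Finset.mul_sum]
    simp only [e1]
    rw [Finset.sum_comm]
    have e2 : ∀ u : Fin n, ∑ H ∈ PS, ∑ v : Fin n, wt r n p H * (iso u H * iso v H) ≤
        q ^ d + n * (q ^ (2 * d) / q ^ c) := by
      intro u
      rw [Finset.sum_comm, ← Finset.add_sum_erase _ _ (mem_univ u)]
      refine add_le_add ?_ ?_
      · rw [hPS, sum_iso2]
        simp only [or_self]
        rw [card_star r n hr hn u]
      · have e3 : ∀ v ∈ univ.erase u, ∑ H ∈ PS, wt r n p H * (iso u H * iso v H) =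
            q ^ (2 * d) / q ^ c := by
          intro v hv
          rw [hPS, sum_iso2]
          exact hcross u v (ne_of_mem_erase hv).symm
        rw [Finset.sum_congr rfl e3, Finset.sum_const, nsmul_eq_mul]
        refine mul_le_mul_of_nonneg_right ?_ (by positivity)
        have := card_le_card (erase_subset u (univ : Finset (Fin n)))
        rw [card_univ, Fintype.card_fin] at this
        exact_mod_cast this
    calc ∑ u : Fin n, ∑ H ∈ PS, ∑ v : Fin n, wt r n p H * (iso u H * iso v H)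
        ≤ ∑ _u : Fin n, (q ^ d + n * (q ^ (2 * d) / q ^ c)) := Finset.sum_le_sum fun u _ => e2 u
      _ = m + m ^ 2 / q ^ c := by
        rw [Finset.sum_const, card_univ, Fintype.card_fin, nsmul_eq_mul, hm, mul_pow,
          ← pow_mul, mul_comm d 2]
        ring
  -- Chebyshev
  have hcheb : m ^ 2 * prob r n p (fun H => ∀ v : Fin n, ∃ Z ∈ H, v ∈ Z) ≤
      ∑ H ∈ PS, wt r n p H * (X H - m) ^ 2 := by
    unfold prob
    rw [Finset.mul_sum]
    refine Finset.sum_le_sum fun H _ => ?_
    by_cases hW : ∀ v : Fin n, ∃ Z ∈ H, v ∈ Z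
    · rw [if_pos hW]
      have hX0 : X H = 0 := by
        simp only [hX]
        refine Finset.sum_eq_zero fun v _ => ?_
        unfold iso
        rw [if_neg]
        intro h
        obtain ⟨Z, hZ, hv⟩ := hW v
        exact h Z hZ hv
      rw [hX0]
      unfold wt
      exact le_of_eq (by ring)
    · rw [if_neg hW, mul_zero]
      exact mul_nonneg (wt_nonneg r n hp hp1 H) (sq_nonneg _)
  have hvar : ∑ H ∈ PS, wt r n p H * (X H - m) ^ 2 ≤ m + m ^ 2 / q ^ c - m ^ 2 := by
    have e1 : ∀ H, wt r n p H * (X H - m) ^ 2 =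
        wt r n p H * X H ^ 2 - 2 * m * (wt r n p H * X H) + m ^ 2 * wt r n p H := by
      intro H
      ring
    simp only [e1]
    rw [Finset.sum_add_distrib, Finset.sum_sub_distrib, ← Finset.mul_sum, ← Finset.mul_sum, hEX,
      hPS, sum_wt, ← hPS]
    nlinarith [hEX2]
  have hfin : prob r n p (fun H => ∀ v : Fin n, ∃ Z ∈ H, v ∈ Z) ≤
      (m + m ^ 2 / q ^ c - m ^ 2) / m ^ 2 := by
    rw [le_div_iff₀ (by positivity), mul_comm]
    exact hcheb.trans hvar
  refine hfin.trans (le_of_eq ?_)
  field_simp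

end Pool.Agent.LHam
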