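import Pool.Agent.LHam.G0Defs

set_option autoImplicit false

/-! G3b. Numerical estimate for the lower half. -/

namespace Pool.Agent.LHam

open Filter

private theorem g3b_log (p : ℝ) (h0 : 0 ≤ p) (h1 : p ≤ 1 / 2) :
    -(p * (1 + 2 * p)) ≤ Real.log (1 - p) := by
  have h2 : 0 < 1 - p := by linarith
  have h3 := Real.one_sub_inv_le_log_of_pos h2
  have h4 : (1 - p)⁻¹ ≤ 1 + p * (1 + 2 * p) := by
    rw [inv_le_iff_one_le_mul₀ h2]
    nlinarith [mul_nonneg (mul_nonneg h0 h0) (by linarith : (0 : ℝ) ≤ 1 - 2 * p)]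
  linarith

/-- The first term. -/
private theorem g3b_first (r n : ℕ) (hn : 1 ≤ n) (ε p : ℝ) (hε : 0 < ε) (hε1 : ε ≤ 1)
    (h0 : 0 ≤ p) (h1 : p ≤ 1 / 2) (h2 : p ≤ ε / 4) (hp : p ≤ (1 - ε) * pdeg r n) :
    1 / (n * (1 - p) ^ ((n - 1).choose (r - 1))) ≤ Real.exp (-(ε / 2 * Real.log n)) := by
  have hn0 : (0 : ℝ) < n := by exact_mod_cast hn
  have hL : 0 ≤ Real.log n := Real.log_natCast_nonneg n
  have hp1 : 0 < 1 - p := by linarith
  have hF : (0 : ℝ) < (r - 1).factorial := by exact_mod_cast (r - 1).factorial_pos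
  have hC : (((n - 1).choose (r - 1) : ℕ) : ℝ) * (r - 1).factorial ≤ (n : ℝ) ^ (r - 1) := by
    have h3 : (((n - 1).choose (r - 1) : ℕ) : ℝ) ≤
        ((n - 1 : ℕ) : ℝ) ^ (r - 1) / (r - 1).factorial := Nat.choose_le_pow_div _ _
    rw [le_div_iff₀ hF] at h3
    refine h3.trans (pow_le_pow_left₀ (Nat.cast_nonneg _) ?_ _)
    exact_mod_cast Nat.sub_le n 1
  have hN : (0 : ℝ) < (n : ℝ) ^ (r - 1) := by positivity
  have hCp : (((n - 1).choose (r - 1) : ℕ) : ℝ) * p ≤ (1 - ε) * Real.log n := by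
    have h4 : (((n - 1).choose (r - 1) : ℕ) : ℝ) * p ≤
        (((n - 1).choose (r - 1) : ℕ) : ℝ) * ((1 - ε) * pdeg r n) :=
      mul_le_mul_of_nonneg_left hp (Nat.cast_nonneg _)
    have h5 : (((n - 1).choose (r - 1) : ℕ) : ℝ) * ((1 - ε) * pdeg r n) =
        ((((n - 1).choose (r - 1) : ℕ) : ℝ) * (r - 1).factorial) / (n : ℝ) ^ (r - 1) *
          ((1 - ε) * Real.log n) := by
      unfold pdeg
      ring
    have h6 : ((((n - 1).choose (r - 1) : ℕ) : ℝ) * (r - 1).factorial) / (n : ℝ) ^ (r - 1) ≤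
        1 := (div_le_one hN).2 hC
    rw [h5] at h4
    refine h4.trans ?_
    have h7 : 0 ≤ (1 - ε) * Real.log n := mul_nonneg (by linarith) hL
    calc _ ≤ 1 * ((1 - ε) * Real.log n) := mul_le_mul_of_nonneg_right h6 h7
      _ = _ := one_mul _
  have hCp0 : 0 ≤ (((n - 1).choose (r - 1) : ℕ) : ℝ) * p := mul_nonneg (Nat.cast_nonneg _) h0
  have hexp : Real.exp (-((1 - ε / 2) * Real.log n)) ≤ (1 - p) ^ ((n - 1).choose (r - 1)) := by
    have h8 : (1 - p) ^ ((n - 1).choose (r - 1)) =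
        Real.exp (((n - 1).choose (r - 1) : ℕ) * Real.log (1 - p)) := by
      rw [Real.exp_nat_mul, Real.exp_log hp1]
    rw [h8, Real.exp_le_exp]
    have h9 := mul_le_mul_of_nonneg_left (g3b_log p h0 h1)
      (Nat.cast_nonneg (α := ℝ) ((n - 1).choose (r - 1)))
    refine le_trans ?_ h9
    have h10 : (((n - 1).choose (r - 1) : ℕ) : ℝ) * p * (1 + 2 * p) ≤
        (1 - ε) * Real.log n * (1 + ε / 2) :=
      mul_le_mul hCp (by linarith) (by linarith) (mul_nonneg (by linarith) hL)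
    have h11 : (1 - ε) * Real.log n * (1 + ε / 2) ≤ (1 - ε / 2) * Real.log n := by
      nlinarith [mul_nonneg (mul_nonneg hε.le hε.le) hL]
    linarith
  have hmain : Real.exp (ε / 2 * Real.log n) ≤ n * (1 - p) ^ ((n - 1).choose (r - 1)) := by
    calc Real.exp (ε / 2 * Real.log n) =
        Real.exp (Real.log n) * Real.exp (-((1 - ε / 2) * Real.log n)) := by
          rw [← Real.exp_add]
          congr 1
          ring
      _ = n * Real.exp (-((1 - ε / 2) * Real.log n)) := by rw [Real.exp_log hn0]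
      _ ≤ _ := mul_le_mul_of_nonneg_left hexp hn0.le
  rw [Real.exp_neg, ← one_div]
  exact one_div_le_one_div_of_le (Real.exp_pos _) hmain

/-- The second term. -/
private theorem g3b_second (r n : ℕ) (hn : 1 ≤ n) (p δ : ℝ)
    (h0 : 0 ≤ p) (hp1 : p ≤ 1 / 2) (hp : p * (n : ℝ) ^ (r - 2) ≤ δ) (hδ : δ ≤ 1 / 2) :
    ((1 - p) ^ ((n - 2).choose (r - 2)))⁻¹ - 1 ≤ 2 * δ := by
  have hn0 : (1 : ℝ) ≤ n := by exact_mod_cast hn
  have h1 : (((n - 2).choose (r - 2) : ℕ) : ℝ) ≤ (n : ℝ) ^ (r - 2) := by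
    have h2 : (n - 2).choose (r - 2) ≤ (n - 2) ^ (r - 2) := Nat.choose_le_pow _ _
    have h3 : (n - 2) ^ (r - 2) ≤ n ^ (r - 2) := Nat.pow_le_pow_left (Nat.sub_le _ _) _
    exact_mod_cast h2.trans h3
  have h4 : p * ((n - 2).choose (r - 2) : ℕ) ≤ δ :=
    (mul_le_mul_of_nonneg_left h1 h0).trans hp
  have h5 := one_add_mul_le_pow (a := -p) (by linarith) ((n - 2).choose (r - 2))
  have h6 : 1 - δ ≤ (1 - p) ^ ((n - 2).choose (r - 2)) := by
    have h7 : 1 + (((n - 2).choose (r - 2) : ℕ) : ℝ) * -p ≤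
        (1 - p) ^ ((n - 2).choose (r - 2)) := by
      rw [sub_eq_add_neg]
      exact h5
    linarith
  have hδ0 : 0 ≤ δ := le_trans (mul_nonneg h0 (by positivity)) hp
  have h8 : (0 : ℝ) < 1 - δ := by linarith
  have h9 : ((1 - p) ^ ((n - 2).choose (r - 2)))⁻¹ ≤ (1 - δ)⁻¹ := inv_anti₀ h8 h6
  have h10 : (1 - δ)⁻¹ ≤ 1 + 2 * δ := by
    rw [inv_le_iff_one_le_mul₀ h8]
    nlinarith
  linarith

/-- **Estimate.** `p ≤ (1 - ε) pdeg → 0`, `1 - p ≥ exp (-p - p^2)` (`0 ≤ p ≤ 1/2`),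
`binom(n-1, r-1) ≤ n^(r-1) / (r-1)!`, so `(1-p)^binom(n-1,r-1) ≥ exp (-(1 + p) (1 - ε) log n)`,
which is `≥ exp (-(1 - ε/2) log n)` for `n` large, so the first term is `≤ n^(-ε/2)`.
`binom(n-2, r-2) ≤ n^(r-2)`, so `(1-p)^binom(n-2,r-2) ≥ 1 - p n^(r-2) ≥ 1 - (r-1)! log n / n`
(Bernoulli). -/
theorem iso_num (r : ℕ) (hr : 3 ≤ r) (ε ζ : ℝ) (hε : 0 < ε) (hε1 : ε ≤ 1) (hζ : 0 < ζ) :
    ∃ n₀ : ℕ, ∀ n ≥ n₀, ∀ p : ℝ, 0 ≤ p → p ≤ (1 - ε) * pdeg r n → p < 1 ∧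
      1 / (n * (1 - p) ^ ((n - 1).choose (r - 1))) +
        ((1 - p) ^ ((n - 2).choose (r - 2)))⁻¹ - 1 ≤ ζ := by
  have t1 : Tendsto (fun n : ℕ => ((r - 1).factorial : ℝ) * (Real.log n / n)) atTop
      (nhds (((r - 1).factorial : ℝ) * 0)) := by
    refine Tendsto.const_mul _ ?_
    exact Real.isLittleO_log_id_atTop.tendsto_div_nhds_zero.comp tendsto_natCast_atTop_atTop
  rw [mul_zero] at t1
  have t2 : Tendsto (fun n : ℕ => Real.exp (-(ε / 2 * Real.log n))) atTop (nhds 0) := by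
    refine Real.tendsto_exp_neg_atTop_nhds_zero.comp ?_
    exact (Real.tendsto_log_atTop.comp tendsto_natCast_atTop_atTop).const_mul_atTop
      (by positivity)
  have hη : 0 < min (min (1 / 2) (ε / 4)) (ζ / 4) := by positivity
  have e1 := t1.eventually (ge_mem_nhds hη)
  have e2 := t2.eventually (ge_mem_nhds (by positivity : (0 : ℝ) < ζ / 2))
  obtain ⟨n₀, hn₀⟩ := eventually_atTop.1 (e1.and (e2.and (eventually_ge_atTop 1)))
  refine ⟨n₀, fun n hn p h0 hp => ?_⟩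
  obtain ⟨h1, h2, h3⟩ := hn₀ n hn
  have hn0 : (1 : ℝ) ≤ n := by exact_mod_cast h3
  have hL : 0 ≤ Real.log n := Real.log_natCast_nonneg n
  obtain ⟨δ, hδ⟩ : ∃ δ : ℝ, δ = ((r - 1).factorial : ℝ) * (Real.log n / n) := ⟨_, rfl⟩
  have hδ' : ((r - 1).factorial : ℝ) * (Real.log n / n) ≤
    min (min (1 / 2) (ε / 4)) (ζ / 4) := h1
  rw [← hδ] at hδ'
  have hδ1 : δ ≤ 1 / 2 := hδ'.trans ((min_le_left _ _).trans (min_le_left _ _))
  have hδ2 : δ ≤ ε / 4 := hδ'.trans ((min_le_left _ _).trans (min_le_right _ _))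
  have hδ3 : δ ≤ ζ / 4 := hδ'.trans (min_le_right _ _)
  have hr1 : r - 1 = (r - 2) + 1 := by omega
  have hpd : pdeg r n * (n : ℝ) ^ (r - 2) = δ := by
    have hne : (n : ℝ) ≠ 0 := by positivity
    unfold pdeg
    rw [hδ, hr1, pow_succ]
    field_simp
  have hpd0 : 0 ≤ pdeg r n := by
    unfold pdeg
    positivity
  have hpn : p ≤ pdeg r n := by
    refine hp.trans ?_
    nlinarith
  have hp1 : p * (n : ℝ) ^ (r - 2) ≤ δ := by
    rw [← hpd]
    exact mul_le_mul_of_nonneg_right hpn (by positivity)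
  have hpδ : p ≤ δ := by
    refine le_trans ?_ hp1
    have h4 : (1 : ℝ) ≤ (n : ℝ) ^ (r - 2) := one_le_pow₀ hn0
    nlinarith
  have h5 := g3b_first r n h3 ε p hε hε1 h0 (hpδ.trans hδ1) (hpδ.trans hδ2) hp
  have h6 := g3b_second r n h3 p δ h0 (hpδ.trans hδ1) hp1 hδ1
  have h7 : Real.exp (-(ε / 2 * Real.log n)) ≤ ζ / 2 := h2
  exact ⟨by linarith, by linarith⟩

end Pool.Agent.LHam
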