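import Pool.Agent.LHam.HWhp
import Pool.Agent.LHam.G1Extr
import Pool.Agent.LHam.G2bTrans
import Pool.Agent.LHam.G2cNum
import Pool.Agent.LHam.G3aIso
import Pool.Agent.LHam.G3bNum

set_option autoImplicit false

/-! G4. The sharp threshold, uniform form. -/

namespace Pool.Agent.LHam

open Finset Filter

/-- `prob` is monotone in the property and at most `1`. -/
theorem prob_mono (r n : ℕ) (p : ℝ) (hp : 0 ≤ p) (hp1 : p ≤ 1)
    (W W' : Finset (Finset (Fin n)) → Prop) (h : ∀ H, W H → W' H) :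
    prob r n p W ≤ prob r n p W' := by
  classical
  unfold prob
  refine Finset.sum_le_sum fun H _ => ?_
  have h0 : 0 ≤ p ^ H.card * (1 - p) ^ (n.choose r - H.card) :=
    mul_nonneg (pow_nonneg hp _) (pow_nonneg (by linarith) _)
  by_cases hW : W H
  · rw [if_pos hW, if_pos (h H hW)]
  · rw [if_neg hW]
    split_ifs
    · exact h0
    · exact le_refl _

theorem prob_nonneg (r n : ℕ) (p : ℝ) (hp : 0 ≤ p) (hp1 : p ≤ 1)
    (W : Finset (Finset (Fin n)) → Prop) : 0 ≤ prob r n p W := by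
  classical
  unfold prob
  refine Finset.sum_nonneg fun H _ => ?_
  split_ifs
  · exact mul_nonneg (pow_nonneg hp _) (pow_nonneg (by linarith) _)
  · exact le_refl _

private theorem prob_true (r n : ℕ) (p : ℝ) : prob r n p (fun _ => True) = 1 := by
  classical
  unfold prob
  have h := Finset.sum_pow_mul_eq_add_pow p (1 - p) (powersetCard r (univ : Finset (Fin n)))
  rw [Finset.card_powersetCard, Finset.card_univ, Fintype.card_fin] at h
  simp only [if_true]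
  rw [h]
  simp

theorem prob_le_one (r n : ℕ) (p : ℝ) (hp : 0 ≤ p) (hp1 : p ≤ 1)
    (W : Finset (Finset (Fin n)) → Prop) : prob r n p W ≤ 1 := by
  rw [← prob_true r n p]
  exact prob_mono r n p hp hp1 _ _ fun _ _ => trivial

private theorem pdeg_nonneg (r n : ℕ) : 0 ≤ pdeg r n := by
  unfold pdeg
  have : 0 ≤ Real.log n := Real.log_natCast_nonneg n
  positivity

/-- **Upper half.** `g_num` with `ζ / 2`, `level_whp` with `ε / 4`, `ζ / 2`,
`PM (HasLHC (supp μ)) ≥ 1 - PM (Phi = 0)` (`lhc_of_Phi`, `PM_compl`, `PM_mono`), `transfer`. -/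
theorem upper_half (r : ℕ) (hr : 3 ≤ r) (ε ζ : ℝ) (hε : 0 < ε) (hζ : 0 < ζ) :
    ∃ n₀ : ℕ, ∀ n ≥ n₀, (r - 1) ∣ n → ∀ p : ℝ, p ≤ 1 → (1 + ε) * pdeg r n ≤ p →
      1 - ζ ≤ prob r n p (HasLHC r n) := by
  obtain ⟨n₁, h₁⟩ := g_num r hr ε (ζ / 2) hε (by positivity)
  obtain ⟨n₂, h₂⟩ := level_whp r hr (ε / 4) (ζ / 2) (by positivity) (by positivity)
  refine ⟨max (max n₁ n₂) r, fun n hn hdvd p hp1 hp => ?_⟩
  have hn1 : n₁ ≤ n := (le_max_left _ _).trans ((le_max_left _ _).trans hn)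
  have hn2 : n₂ ≤ n := (le_max_right _ _).trans ((le_max_left _ _).trans hn)
  have hnr : r ≤ n := (le_max_right _ _).trans hn
  obtain ⟨M₁, hM1, hM2, hM3⟩ := h₁ n hn1
  obtain ⟨hTp, hMp, hsm⟩ := hM3 p hp
  have hp0 : 0 ≤ p := le_trans (mul_nonneg (by linarith) (pdeg_nonneg r n)) hp
  have hlev := h₂ n hn2 hdvd M₁ hM1 hM2
  have hT : 0 < (Er r n).card := by
    rw [card_Er]; exact Nat.choose_pos hnr
  have htr := transfer r M₁ p (ε / (4 + 3 * ε)) hp0 hp1 (by positivity) hTp hMp (HasLHC r n)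
    (fun H Z h => lhc_mono r n H (insert Z H) (Finset.subset_insert _ _) h)
  have hc := PM_compl r M₁ hT (fun μ : Mu n => Phi r (toR μ) = 0)
  have hm : PM r n M₁ (fun μ => ¬ (Phi r (toR μ) = 0)) ≤
      PM r n M₁ (fun μ => HasLHC r n (supp r μ)) := by
    refine PM_mono r M₁ _ _ fun μ _ h => ?_
    exact lhc_of_Phi r n hr hnr μ h
  linarith

/-- **Lower half.** `iso_num` with `min ε 1` (`pdeg ≥ 0`), `iso_bound`, `lhc_cover`, `prob_mono`. -/
theorem lower_half (r : ℕ) (hr : 3 ≤ r) (ε ζ : ℝ) (hε : 0 < ε) (hζ : 0 < ζ) :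
    ∃ n₀ : ℕ, ∀ n ≥ n₀, ∀ p : ℝ, 0 ≤ p → p ≤ (1 - ε) * pdeg r n →
      prob r n p (HasLHC r n) ≤ ζ := by
  obtain ⟨n₁, h₁⟩ := iso_num r hr (min ε 1) ζ (lt_min hε one_pos) (min_le_right _ _) hζ
  refine ⟨max n₁ r, fun n hn p hp0 hp => ?_⟩
  have hn1 : n₁ ≤ n := (le_max_left _ _).trans hn
  have hnr : r ≤ n := (le_max_right _ _).trans hn
  have hp' : p ≤ (1 - min ε 1) * pdeg r n := by
    refine hp.trans (mul_le_mul_of_nonneg_right ?_ (pdeg_nonneg r n))
    have := min_le_left ε 1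
    linarith
  obtain ⟨hp1, hb⟩ := h₁ n hn1 p hp0 hp'
  calc prob r n p (HasLHC r n) ≤ prob r n p (fun H => ∀ v : Fin n, ∃ Z ∈ H, v ∈ Z) :=
        prob_mono r n p hp0 hp1.le _ _ fun H h v => lhc_cover r n hr hnr H h v
    _ ≤ _ := iso_bound r n hr hnr p hp0 hp1
    _ ≤ ζ := hb

end Pool.Agent.LHam
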