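import Mathlib

set_option autoImplicit false

/-! H0. Numerical estimates for the last step. -/

namespace Pool.Agent.LHam

open Finset

/-- `∑_{M₁ ≤ M < M₀} 1 / (M + 1)^2 ≤ 1 / M₁` (telescoping, `1 / (M + 1)^2 ≤ 1 / M - 1 / (M + 1)`). -/
theorem sum_inv_sq (M₁ M₀ : ℕ) (h : 0 < M₁) :
    ∑ M ∈ Ico M₁ M₀, 1 / ((M : ℝ) + 1) ^ 2 ≤ 1 / (M₁ : ℝ) := by
  have key : ∀ M₀ : ℕ, M₁ ≤ M₀ →
      ∑ M ∈ Ico M₁ M₀, 1 / ((M : ℝ) + 1) ^ 2 ≤ 1 / (M₁ : ℝ) - 1 / (M₀ : ℝ) := by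
    intro M₀ h0
    induction M₀, h0 using Nat.le_induction with
    | base => simp
    | succ M hM ih =>
      rw [Finset.sum_Ico_succ_top hM]
      have hM0 : (0 : ℝ) < M := by exact_mod_cast lt_of_lt_of_le h hM
      have h1 : 1 / ((M : ℝ) + 1) ^ 2 ≤ 1 / (M : ℝ) - 1 / ((M : ℝ) + 1) := by
        rw [div_sub_div _ _ hM0.ne' (by positivity), div_le_div_iff₀ (by positivity)
          (by positivity)]
        nlinarith
      push_cast
      linarith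
  rcases le_total M₁ M₀ with h0 | h0
  · have h1 := key M₀ h0
    have h2 : (0 : ℝ) ≤ 1 / (M₀ : ℝ) := by positivity
    linarith
  · rw [Finset.Ico_eq_empty_of_le h0, Finset.sum_empty]
    positivity

/-- The final estimate: every term tends to `0` (`n / log n` is small compared with `n`). -/
theorem h_num (r : ℕ) (ε ζ κ b : ℝ) (hε : 0 < ε) (hζ : 0 < ζ) (hκ : 0 < κ) :
    ∃ n₀ : ℕ, ∀ n ≥ n₀, ∀ x : ℝ, 0 ≤ x → x ≤ (n : ℝ) ^ (r + 2) →
      Real.exp (-(ε / 4 * Real.log n)) + (1 / n + 3 * Real.exp (-((r + 5) * Real.log n))) +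
        x * (3 * Real.exp (-((r + 5) * Real.log n)) +
          Real.exp (b * n / Real.log n) * Real.exp (κ * n / 4) / Real.exp (κ * n)) ≤ ζ := by
  have hlog : Filter.Tendsto (fun n : ℕ => Real.log (n : ℝ)) Filter.atTop Filter.atTop :=
    Real.tendsto_log_atTop.comp tendsto_natCast_atTop_atTop
  have hexp : ∀ c : ℝ, 0 < c → Filter.Tendsto
      (fun n : ℕ => Real.exp (-(c * Real.log (n : ℝ)))) Filter.atTop (nhds 0) := by
    intro c hc
    exact Real.tendsto_exp_neg_atTop_nhds_zero.comp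
      (Filter.Tendsto.const_mul_atTop hc hlog)
  have hζ5 : 0 < ζ / 10 := by positivity
  have e1 := (hexp (ε / 4) (by positivity)).eventually (gt_mem_nhds hζ5)
  have e2 := (hexp ((r : ℝ) + 5) (by positivity)).eventually (gt_mem_nhds hζ5)
  have e3 := (tendsto_one_div_atTop_nhds_zero_nat (𝕜 := ℝ)).eventually (gt_mem_nhds hζ5)
  have hκ2 : 0 < κ / 2 := by positivity
  have t4 : Filter.Tendsto (fun n : ℕ => ((n : ℝ)) ^ (r + 2) * Real.exp (-(κ / 2 * n)))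
      Filter.atTop (nhds 0) := by
    have h1 : Filter.Tendsto (fun n : ℕ => κ / 2 * (n : ℝ)) Filter.atTop Filter.atTop :=
      Filter.Tendsto.const_mul_atTop hκ2 tendsto_natCast_atTop_atTop
    have h2 := ((Real.tendsto_pow_mul_exp_neg_atTop_nhds_zero (r + 2)).comp h1).const_mul
      ((2 / κ) ^ (r + 2))
    rw [mul_zero] at h2
    refine h2.congr ?_
    intro n
    simp only [Function.comp_apply]
    rw [← mul_assoc, ← mul_pow]
    congr 2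
    field_simp
  have e4 := t4.eventually (gt_mem_nhds hζ5)
  have e5 := hlog.eventually (Filter.eventually_ge_atTop (4 * |b| / κ))
  have e6 := hlog.eventually (Filter.eventually_gt_atTop 0)
  obtain ⟨n₀, hn₀⟩ := Filter.eventually_atTop.1
    (e1.and (e2.and (e3.and (e4.and (e5.and (e6.and (Filter.eventually_ge_atTop 1)))))))
  refine ⟨n₀, fun n hn x hx0 hx => ?_⟩
  obtain ⟨g1, g2, g3, g4, g5, g6, g7⟩ := hn₀ n hn
  have hn1 : (1 : ℝ) ≤ n := by exact_mod_cast g7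
  have hn0 : (0 : ℝ) < n := by linarith
  have hE : Real.exp (-(((r : ℝ) + 5) * Real.log n)) = ((n : ℝ) ^ (r + 5))⁻¹ := by
    rw [Real.exp_neg]
    congr 1
    have h3 : ((r : ℝ) + 5) = ((r + 5 : ℕ) : ℝ) := by push_cast; ring
    rw [h3, Real.exp_nat_mul, Real.exp_log hn0]
  have k1 : x * (3 * Real.exp (-(((r : ℝ) + 5) * Real.log n))) ≤ 3 * (1 / n) := by
    have h4 : (n : ℝ) ^ (r + 2) * Real.exp (-(((r : ℝ) + 5) * Real.log n)) ≤ 1 / n := by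
      rw [hE, ← div_eq_mul_inv, div_le_div_iff₀ (by positivity) hn0, one_mul]
      calc (n : ℝ) ^ (r + 2) * n = (n : ℝ) ^ (r + 3) := by ring
        _ ≤ (n : ℝ) ^ (r + 5) := pow_le_pow_right₀ hn1 (by omega)
    have h5 := mul_le_mul_of_nonneg_right hx
      (Real.exp_pos (-(((r : ℝ) + 5) * Real.log n))).le
    linarith
  have k2 : Real.exp (b * n / Real.log n) * Real.exp (κ * n / 4) / Real.exp (κ * n) ≤
      Real.exp (-(κ / 2 * n)) := by
    rw [← Real.exp_add, ← Real.exp_sub]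
    apply Real.exp_le_exp.2
    have h6 : b * n / Real.log n ≤ κ / 4 * n := by
      rw [div_le_iff₀ g6]
      have h7 : 4 * |b| ≤ Real.log n * κ := by rwa [div_le_iff₀ hκ] at g5
      have h8 : b ≤ |b| := le_abs_self b
      nlinarith
    linarith
  have k3 : x * (Real.exp (b * n / Real.log n) * Real.exp (κ * n / 4) / Real.exp (κ * n)) ≤
      (n : ℝ) ^ (r + 2) * Real.exp (-(κ / 2 * n)) :=
    mul_le_mul hx k2 (by positivity) (by positivity)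
  rw [mul_add]
  linarith

/-- The size of `M₀ = ⌈K' T log n⌉ + M₁`, `T ≤ n ^ r`, `M₁ ≤ n ^ 2 / r`. -/
theorem h_size (r : ℕ) (hr : 3 ≤ r) (K' : ℝ) (hK : 0 < K') :
    ∃ n₀ : ℕ, ∀ n ≥ n₀, ∀ T M₁ : ℕ, (T : ℝ) ≤ (n : ℝ) ^ r → (r : ℝ) * M₁ / n ≤ n →
      (r : ℝ) * ((⌈K' * T * Real.log n⌉₊ + M₁ : ℕ) : ℝ) / n ≤ (n : ℝ) ^ (r + 1) ∧
        ((⌈K' * T * Real.log n⌉₊ + M₁ : ℕ) : ℝ) ≤ (n : ℝ) ^ (r + 2) := by
  refine ⟨⌈(r : ℝ) * (K' + 2)⌉₊ + 1, fun n hn T M₁ hT hM => ?_⟩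
  have hn1 : (1 : ℝ) ≤ n := by
    have : 1 ≤ n := le_trans (by omega) hn
    exact_mod_cast this
  have hn0 : (0 : ℝ) < n := by linarith
  have hr1 : (1 : ℝ) ≤ r := by
    have : 1 ≤ r := by omega
    exact_mod_cast this
  have hnr : (r : ℝ) * (K' + 2) ≤ n := by
    have h1 : (r : ℝ) * (K' + 2) ≤ (⌈(r : ℝ) * (K' + 2)⌉₊ : ℝ) := Nat.le_ceil _
    have h2 : ((⌈(r : ℝ) * (K' + 2)⌉₊ + 1 : ℕ) : ℝ) ≤ n := by exact_mod_cast hn
    push_cast at h2
    linarith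
  have hlog : Real.log n ≤ n := (Real.log_le_sub_one_of_pos hn0).trans (by linarith)
  have hlog0 : 0 ≤ Real.log n := Real.log_nonneg hn1
  have hM2 : (r : ℝ) * M₁ ≤ (n : ℝ) ^ 2 := by
    rw [div_le_iff₀ hn0] at hM
    linarith [hM, sq (n : ℝ)]
  have hM3 : (M₁ : ℝ) ≤ (n : ℝ) ^ 2 := by
    have := mul_le_mul_of_nonneg_right hr1 (Nat.cast_nonneg (α := ℝ) M₁)
    linarith
  have hS : ((⌈K' * T * Real.log n⌉₊ + M₁ : ℕ) : ℝ) ≤
      K' * (n : ℝ) ^ (r + 1) + 1 + (n : ℝ) ^ 2 := by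
    push_cast
    have h3 : (⌈K' * T * Real.log n⌉₊ : ℝ) < K' * T * Real.log n + 1 :=
      Nat.ceil_lt_add_one (by positivity)
    have h4 : K' * T * Real.log n ≤ K' * (n : ℝ) ^ (r + 1) := by
      calc K' * T * Real.log n ≤ K' * (n : ℝ) ^ r * n := by
            apply mul_le_mul _ hlog hlog0 (by positivity)
            exact mul_le_mul_of_nonneg_left hT hK.le
        _ = K' * (n : ℝ) ^ (r + 1) := by ring
    linarith
  have hp2 : (n : ℝ) ^ 2 ≤ (n : ℝ) ^ (r + 1) := pow_le_pow_right₀ hn1 (by omega)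
  have hp1 : (1 : ℝ) ≤ (n : ℝ) ^ (r + 1) := one_le_pow₀ hn1
  have hS2 : ((⌈K' * T * Real.log n⌉₊ + M₁ : ℕ) : ℝ) ≤ (K' + 2) * (n : ℝ) ^ (r + 1) := by
    linarith
  have hS3 : (r : ℝ) * ((⌈K' * T * Real.log n⌉₊ + M₁ : ℕ) : ℝ) ≤ (n : ℝ) ^ (r + 2) := by
    calc (r : ℝ) * ((⌈K' * T * Real.log n⌉₊ + M₁ : ℕ) : ℝ)
        ≤ (r : ℝ) * ((K' + 2) * (n : ℝ) ^ (r + 1)) :=
          mul_le_mul_of_nonneg_left hS2 (by linarith)
      _ = ((r : ℝ) * (K' + 2)) * (n : ℝ) ^ (r + 1) := by ring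
      _ ≤ n * (n : ℝ) ^ (r + 1) := mul_le_mul_of_nonneg_right hnr (by positivity)
      _ = (n : ℝ) ^ (r + 2) := by ring
  constructor
  · rw [div_le_iff₀ hn0]
    calc (r : ℝ) * ((⌈K' * T * Real.log n⌉₊ + M₁ : ℕ) : ℝ) ≤ (n : ℝ) ^ (r + 2) := hS3
      _ = (n : ℝ) ^ (r + 1) * n := by ring
  · refine le_trans ?_ hS3
    exact le_mul_of_one_le_left (Nat.cast_nonneg _) hr1

end Pool.Agent.LHam
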