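import Pool.Agent.LHam.D6Marg
import Pool.Agent.LHam.EDrift
import Pool.Agent.LHam.EStep
import Pool.Agent.LHam.FReg
import Pool.Agent.LHam.FStart
import Pool.Agent.LHam.HNum

set_option autoImplicit false

/-! H. At level `M₁ ≥ (1 + ε) (n / r) log n` there is a linear Hamiltonian cycle with high
probability. -/

namespace Pool.Agent.LHam

open Finset

private theorem PM_false (r n M : ℕ) : PM r n M (fun _ => False) ≤ 0 := by
  have h := PM_exists (n := n) (ι := ℕ) r M ∅ (fun _ _ => True)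
  simpa using h

private theorem deg_up (r n : ℕ) (μ : Mu n) (Z : Finset (Fin n)) (v : Fin n) :
    deg r (toR μ) v ≤ deg r (toR (up μ Z)) v := by
  refine Finset.sum_le_sum fun Y _ => ?_
  unfold toR up
  by_cases h : Y = Z
  · subst h
    rw [Function.update_self]
    push_cast
    linarith
  · rw [Function.update_of_ne h]

private theorem deg_ge_of_all (r n : ℕ) (hr : 3 ≤ r) (hn : r ≤ n) (hT : 0 < (Er r n).card)
    (μ : Mu n) (M : ℕ) (c : ℝ) (h : ∀ Z ∈ Er r n, c * M / (Er r n).card ≤ (μ Z : ℝ))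
    (v : Fin n) : c * ((r : ℝ) * M / n) ≤ deg r (toR μ) v := by
  have h1 : (((Er r n).filter (fun Z => v ∈ Z)).card : ℝ) * (c * M / (Er r n).card) ≤
      deg r (toR μ) v := by
    rw [deg, ← nsmul_eq_mul]
    exact Finset.card_nsmul_le_sum _ _ _ fun Z hZ => h Z (Finset.mem_filter.1 hZ).1
  rw [card_contain r n hr hn v] at h1
  have hT' : ((Er r n).card : ℝ) ≠ 0 := by exact_mod_cast hT.ne'
  refine le_trans (le_of_eq ?_) h1
  field_simp

private theorem Bref_pos (r n : ℕ) (D : ℝ) : 0 < Bref r n D := Real.exp_pos _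

private theorem small_exp (κ : ℝ) (hκ : 0 < κ) :
    ∃ n₀ : ℕ, ∀ n ≥ n₀, Real.exp (-(κ * n)) ≤ 1 / (n : ℝ) := by
  have h := Real.tendsto_exp_div_pow_atTop 1
  have h1 : ∀ᶠ x : ℝ in Filter.atTop, x ≤ Real.exp (κ * x) := by
    have h2 : Filter.Tendsto (fun x : ℝ => κ * x) Filter.atTop Filter.atTop :=
      Filter.tendsto_id.const_mul_atTop hκ
    have h3 := (h.comp h2).eventually_ge_atTop (1 / κ)
    filter_upwards [h3, Filter.eventually_gt_atTop (0 : ℝ)] with x hx hx0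
    have h4 : 1 / κ ≤ Real.exp (κ * x) / (κ * x) ^ 1 := hx
    rw [pow_one, div_le_div_iff₀ hκ (by positivity), one_mul, mul_comm (Real.exp _)] at h4
    exact le_of_mul_le_mul_left h4 hκ
  have h2 : ∀ᶠ n : ℕ in Filter.atTop, (n : ℝ) ≤ Real.exp (κ * n) :=
    tendsto_natCast_atTop_atTop.eventually h1
  obtain ⟨n₀, hn₀⟩ := Filter.eventually_atTop.1 h2
  refine ⟨max n₀ 1, fun n hn => ?_⟩
  have hn1 : (0 : ℝ) < n := by
    have : 1 ≤ n := le_trans (le_max_right _ _) hn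
    exact_mod_cast this
  have h3 := hn₀ n (le_trans (le_max_left _ _) hn)
  rw [Real.exp_neg, ← one_div]
  exact one_div_le_one_div_of_le hn1 h3

private theorem large_log (x : ℝ) : ∃ n₀ : ℕ, ∀ n ≥ n₀, x ≤ Real.log (n : ℝ) := by
  have h : Filter.Tendsto (fun n : ℕ => Real.log (n : ℝ)) Filter.atTop Filter.atTop :=
    Real.tendsto_log_atTop.comp tendsto_natCast_atTop_atTop
  exact Filter.eventually_atTop.1 (h.eventually_ge_atTop x)

/-- **High probability at the level of the threshold.**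

Proof. Constants: `C₁ = r + 5`; `δ₁` from `deg_low ε`; `K` from `reg_prob C₁`; `K₂` from `deg_lower C₁`;
`δ = min (δ₁ / K₂) (1/4)`; `K₁, κ, η` from `marg δ K C₁`; `K' ` from `start_prob κ₃` with
`(1 - κ₃) ≥ exp (-κ / 8)`. `M₀ = ⌈K' T log n⌉ + M₁`. `D_M = r M / n` (`≤ n^(r+1)` for `M ≤ M₀`).
`low M μ = ∃ v, deg v < δ₁ log n`; `good M μ`: `Reg K η D_M`, `∀ v, δ D_M ≤ deg v`,
`exp (-κ n) Bref ≤ Phi`, `∀ o Ok, Psi (univ \ o.J) ≤ (K₁ / D_M) Phi`, `¬ low M μ`. `rare M μ`: `¬ Reg`, or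
`K₂ log n ≤ D_M` and `∃ v, deg v < D_M / 4`, or the event of `marg`. `V = Vinv r n (exp (κ n))`,
`v₀ = exp (κ n)`, `vi = exp (κ n / 4)`. `hgood`: if not low: for `D_M ≤ K₂ log n`, `deg v ≥ δ₁ log n ≥ δ D_M`; for
`D_M ≥ K₂ log n`, `deg v ≥ D_M / 4 ≥ δ D_M` unless rare; so if `Reg`, and not the event of `marg`, then
`Phi < exp (-κ n) Bref`, i.e. `v₀ ≤ V`. `hdrift`: `drift_step` with `x = r^2 K₁ / D_{M+1}` (`dPhi_le`),
`al (M + 1) = 2 x m / (M + 1) = 2 r K₁ m n / (M + 1)^2`, sum `≤ 2 r K₁ m n / M₁ ≤ 2 r^2 K₁ n / log n =: a` (`sum_inv_sq`).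
Init: `hinitV` and `ρ₀ = 1/n + 3 exp (-C₁ log n)`: outside the event of `start_prob`, `start_det` gives
`Phi ≥ (1/n) (1 - κ₃)^m Bref ≥ exp (-κ n / 4) Bref`; then good unless rare (low is impossible unless rare,
`D_{M₀} / 4 ≥ δ₁ log n`). `V M₀ ≤ vi` is a part of `good` at level `M₀` (`good M μ` contains the clause
`M = M₀ → V M μ ≤ vi`; `hgood` is needed only for `M < M₀`). `drift_abs`:
`(M₀ - M₁) (3 exp (-C₁ log n) + exp (a + κ n / 4 - κ n)) → 0` since `M₀ ≤ n^(r+2)` (`h_num`, `h_size`). Finally `good M₁ μ` implies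
`Phi > 0`. -/
theorem level_whp (r : ℕ) (hr : 3 ≤ r) (ε ζ : ℝ) (hε : 0 < ε) (hζ : 0 < ζ) :
    ∃ n₀ : ℕ, ∀ n ≥ n₀, (r - 1) ∣ n → ∀ M₁ : ℕ,
      (1 + ε) * Real.log n ≤ (r : ℝ) * M₁ / n → (r : ℝ) * M₁ / n ≤ n →
      PM r n M₁ (fun μ => Phi r (toR μ) = 0) ≤ ζ := by
  classical
  obtain ⟨δ₁, hδ₁, hδ₁1, na, ha⟩ := deg_low r hr ε hε
  have hC : (0 : ℝ) < (r : ℝ) + 5 := by positivity
  obtain ⟨K, hK, hreg⟩ := reg_prob r hr ((r : ℝ) + 5) hC
  obtain ⟨K₂, hK₂, nb, hb⟩ := deg_lower r hr ((r : ℝ) + 5) hC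
  have hK₂0 : 0 < K₂ := by linarith
  set δ : ℝ := min (δ₁ / K₂) (1 / 4) with hδdef
  have hδ : 0 < δ := lt_min (by positivity) (by norm_num)
  obtain ⟨K₁, κ, η, hK₁, hκ, hη, nc, hmarg⟩ := marg r hr δ K ((r : ℝ) + 5) hδ hK hC
  obtain ⟨nd, hregd⟩ := hreg η hη
  -- the constant κ₃
  set q : ℝ := max (Real.exp (-(κ / 8))) (1 / (1 + ε)) with hqdef
  have hq0 : 0 < q := lt_max_of_lt_left (Real.exp_pos _)
  have hq1 : q < 1 := by
    refine max_lt ?_ ?_
    · rw [Real.exp_lt_one_iff]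
      linarith
    · rw [div_lt_one (by linarith)]
      linarith
  obtain ⟨K', hK', ne, hstart⟩ := start_prob r hr (1 - q) (by linarith) (by linarith)
  obtain ⟨nf, hsize⟩ := h_size r hr K' hK'
  obtain ⟨ng, hnum⟩ := h_num r ε ζ κ (2 * r ^ 2 * K₁) hε hζ hκ
  obtain ⟨nh, hsm⟩ := small_exp (κ / 8) (by positivity)
  obtain ⟨ni, hlg⟩ := large_log (max 1 (2 * r ^ 2 * K₁))
  refine ⟨na + nb + nc + nd + ne + nf + ng + nh + ni + r + 1, fun n hn hdvd M₁ hM1 hM2 => ?_⟩
  replace ha := ha n (by omega)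
  replace hb := hb n (by omega)
  replace hmarg := hmarg n (by omega) hdvd
  replace hregd := hregd n (by omega)
  replace hstart := hstart n (by omega)
  replace hsize := hsize n (by omega) (Er r n).card M₁
  replace hnum := hnum n (by omega)
  replace hsm := hsm n (by omega)
  replace hlg := hlg n (by omega)
  have hrn : r ≤ n := by omega
  have hn0 : 0 < n := by omega
  have hnR : (0 : ℝ) < n := by exact_mod_cast hn0
  have hrR : (3 : ℝ) ≤ r := by exact_mod_cast hr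
  have hlog1 : 1 ≤ Real.log (n : ℝ) := le_trans (le_max_left _ _) hlg
  have hlogK : 2 * r ^ 2 * K₁ ≤ Real.log (n : ℝ) := le_trans (le_max_right _ _) hlg
  obtain ⟨m, hm'⟩ := hdvd
  have hm : m * (r - 1) = n := by rw [mul_comm]; exact hm'.symm
  have hmn : m ≤ n := by
    rw [← hm]
    exact Nat.le_mul_of_pos_right m (by omega)
  have hmR : (m : ℝ) ≤ n := by exact_mod_cast hmn
  have hT : 0 < (Er r n).card := by
    rw [card_Er]
    exact Nat.choose_pos hrn
  have hTR : (0 : ℝ) < (Er r n).card := by exact_mod_cast hT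
  have hTn : ((Er r n).card : ℝ) ≤ (n : ℝ) ^ r := by
    rw [card_Er]
    exact_mod_cast Nat.choose_le_pow n r
  obtain ⟨hD0, hM0⟩ := hsize hTn hM2
  set M₀ : ℕ := ⌈K' * (Er r n).card * Real.log n⌉₊ + M₁ with hM0def
  have hM10 : M₁ ≤ M₀ := Nat.le_add_left _ _
  have hM1pos : 0 < M₁ := by
    rcases Nat.eq_zero_or_pos M₁ with h | h
    · exfalso
      rw [h] at hM1
      simp only [Nat.cast_zero, mul_zero, zero_div] at hM1
      have h1 : 0 < (1 + ε) * Real.log n := mul_pos (by linarith) (by linarith)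
      linarith
    · exact h
  -- degrees on the way
  have hDmono : ∀ M M' : ℕ, M ≤ M' → (r : ℝ) * M / n ≤ (r : ℝ) * M' / n := by
    intro M M' h
    have : (M : ℝ) ≤ M' := by exact_mod_cast h
    gcongr
  have hDlog : ∀ M : ℕ, M₁ ≤ M → (1 + ε) * Real.log n ≤ (r : ℝ) * M / n := fun M h =>
    hM1.trans (hDmono _ _ h)
  have hDlog' : ∀ M : ℕ, M₁ ≤ M → Real.log n ≤ (r : ℝ) * M / n := fun M h => by
    have h1 : Real.log n ≤ (1 + ε) * Real.log n :=
      le_mul_of_one_le_left (by linarith) (by linarith)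
    exact h1.trans (hDlog M h)
  have hDup : ∀ M : ℕ, M ≤ M₀ → (r : ℝ) * M / n ≤ (n : ℝ) ^ (r + 1) := fun M h =>
    (hDmono _ _ h).trans hD0
  -- the events
  let low : ℕ → Mu n → Prop := fun _ μ => ∃ v, deg r (toR μ) v < δ₁ * Real.log n
  let Mg : ℕ → Mu n → Prop := fun M μ => Reg r n K η ((r : ℝ) * M / n) (toR μ) ∧
    (∀ v, δ * ((r : ℝ) * M / n) ≤ deg r (toR μ) v) ∧
    Real.exp (-κ * n) * Bref r n ((r : ℝ) * M / n) ≤ Phi r (toR μ) ∧
    ∃ o : OE n, o.Ok r ∧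
      K₁ / ((r : ℝ) * M / n) * Phi r (toR μ) < Psi r (toR μ) (univ \ o.J) o.y o.x ∅
  let rare : ℕ → Mu n → Prop := fun M μ => (¬ Reg r n K η ((r : ℝ) * M / n) (toR μ) ∨
    (K₂ * Real.log n ≤ (r : ℝ) * M / n ∧ ∃ v, deg r (toR μ) v < ((r : ℝ) * M / n) / 4)) ∨ Mg M μ
  let V : ℕ → Mu n → ℝ := Vinv r n (Real.exp (κ * n))
  let good : ℕ → Mu n → Prop := fun M μ => Reg r n K η ((r : ℝ) * M / n) (toR μ) ∧
    (∀ v, δ * ((r : ℝ) * M / n) ≤ deg r (toR μ) v) ∧
    Real.exp (-κ * n) * Bref r n ((r : ℝ) * M / n) ≤ Phi r (toR μ) ∧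
    (∀ o : OE n, o.Ok r →
      Psi r (toR μ) (univ \ o.J) o.y o.x ∅ ≤ K₁ / ((r : ℝ) * M / n) * Phi r (toR μ)) ∧
    ¬ low M μ ∧ (M = M₀ → V M μ ≤ Real.exp (κ * n / 4))
  have hPhi0 : ∀ μ : Mu n, 0 ≤ Phi r (toR μ) := fun μ =>
    Phi_nonneg r (toR μ) fun Z => Nat.cast_nonneg _
  have hV : ∀ M μ, 0 ≤ V M μ := by
    intro M μ
    change 0 ≤ Vinv r n (Real.exp (κ * n)) M μ
    unfold Vinv
    split_ifs
    · exact (Real.exp_pos _).le
    · exact div_nonneg (Bref_pos _ _ _).le (hPhi0 μ)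
  -- not low and not rare
  have hdegs : ∀ M μ, ¬ low M μ → ¬ rare M μ →
      ∀ v, δ * ((r : ℝ) * M / n) ≤ deg r (toR μ) v := by
    intro M μ hl hra v
    have hD : 0 ≤ (r : ℝ) * M / n := by positivity
    rcases le_total ((r : ℝ) * M / n) (K₂ * Real.log n) with h | h
    · have h1 : δ₁ * Real.log n ≤ deg r (toR μ) v := by
        by_contra hc
        exact hl ⟨v, not_le.1 hc⟩
      refine le_trans ?_ h1
      calc δ * ((r : ℝ) * M / n) ≤ δ₁ / K₂ * ((r : ℝ) * M / n) := by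
            gcongr
            exact min_le_left _ _
        _ ≤ δ₁ / K₂ * (K₂ * Real.log n) := by gcongr
        _ = δ₁ * Real.log n := by field_simp
    · have h1 : ((r : ℝ) * M / n) / 4 ≤ deg r (toR μ) v := by
        by_contra hc
        exact hra (Or.inl (Or.inr ⟨h, v, not_le.1 hc⟩))
      refine le_trans ?_ h1
      calc δ * ((r : ℝ) * M / n) ≤ 1 / 4 * ((r : ℝ) * M / n) := by
            gcongr
            exact min_le_right _ _
        _ = ((r : ℝ) * M / n) / 4 := by ring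
  have hexpκ : Real.exp (-κ * n) * Real.exp (κ * n) = 1 := by
    rw [← Real.exp_add]
    simp
  have hgood : ∀ M μ, M₁ ≤ M → M < M₀ → Lv r n M μ → ¬ good M μ →
      low M μ ∨ rare M μ ∨ Real.exp (κ * n) ≤ V M μ := by
    intro M μ _ hMM _ hg
    by_contra hc
    push Not at hc
    obtain ⟨hl, hra, hVs⟩ := hc
    have hR : Reg r n K η ((r : ℝ) * M / n) (toR μ) := by
      by_contra h
      exact hra (Or.inl (Or.inl h))
    have hd := hdegs M μ hl hra
    apply hg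
    by_cases hph : Real.exp (-κ * n) * Bref r n ((r : ℝ) * M / n) ≤ Phi r (toR μ)
    · refine ⟨hR, hd, hph, fun o ho => ?_, hl, fun h => absurd h hMM.ne⟩
      by_contra h
      exact hra (Or.inr ⟨hR, hd, hph, o, ho, not_le.1 h⟩)
    · exfalso
      push Not at hph
      have hVs' : Vinv r n (Real.exp (κ * n)) M μ < Real.exp (κ * n) := hVs
      unfold Vinv at hVs'
      split_ifs at hVs' with h0
      · exact lt_irrefl _ hVs'
      · have hpos : 0 < Phi r (toR μ) := lt_of_le_of_ne (hPhi0 μ) (Ne.symm h0)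
        rw [div_lt_iff₀ hpos] at hVs'
        have h1 : Real.exp (κ * n) * (Real.exp (-κ * n) * Bref r n ((r : ℝ) * M / n)) =
            Bref r n ((r : ℝ) * M / n) := by
          rw [← mul_assoc, mul_comm (Real.exp (κ * n)), hexpκ, one_mul]
        have h2 := mul_lt_mul_of_pos_left hph (Real.exp_pos (κ * n))
        rw [h1] at h2
        linarith
  have hrare : ∀ M, M₁ ≤ M → M ≤ M₀ →
      PM r n M (rare M) ≤ 3 * Real.exp (-(((r : ℝ) + 5) * Real.log n)) := by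
    intro M h1 h2
    have e1 := hregd M (hDlog' M h1)
    have e2 : PM r n M (fun μ => K₂ * Real.log n ≤ (r : ℝ) * M / n ∧
        ∃ v, deg r (toR μ) v < ((r : ℝ) * M / n) / 4) ≤
        Real.exp (-(((r : ℝ) + 5) * Real.log n)) := by
      by_cases h : K₂ * Real.log n ≤ (r : ℝ) * M / n
      · exact le_trans (PM_mono r M _ _ fun μ _ hx => hx.2) (hb M h)
      · refine le_trans (PM_mono r M _ (fun _ => False) fun μ _ hx => h hx.1) ?_
        exact (PM_false r n M).trans (Real.exp_pos _).le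
    have e3 := hmarg M (hDlog' M h1) (hDup M h2)
    have e4 := PM_or (n := n) r M (fun μ => ¬ Reg r n K η ((r : ℝ) * M / n) (toR μ) ∨
      (K₂ * Real.log n ≤ (r : ℝ) * M / n ∧ ∃ v, deg r (toR μ) v < ((r : ℝ) * M / n) / 4)) (Mg M)
    have e5 := PM_or (n := n) r M (fun μ => ¬ Reg r n K η ((r : ℝ) * M / n) (toR μ))
      (fun μ => K₂ * Real.log n ≤ (r : ℝ) * M / n ∧
        ∃ v, deg r (toR μ) v < ((r : ℝ) * M / n) / 4)
    have e6 : PM r n M (rare M) ≤ PM r n M (fun μ => ¬ Reg r n K η ((r : ℝ) * M / n) (toR μ) ∨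
      (K₂ * Real.log n ≤ (r : ℝ) * M / n ∧ ∃ v, deg r (toR μ) v < ((r : ℝ) * M / n) / 4)) +
        PM r n M (Mg M) := e4
    have e7 : PM r n M (Mg M) ≤ Real.exp (-(((r : ℝ) + 5) * Real.log n)) := e3
    linarith
  -- the start
  have hinit : PM r n M₀ (fun μ => ¬ good M₀ μ) ≤
      1 / n + 3 * Real.exp (-(((r : ℝ) + 5) * Real.log n)) := by
    have hM0K : K' * (Er r n).card * Real.log n ≤ M₀ := by
      rw [hM0def]
      push_cast
      have := Nat.le_ceil (K' * (Er r n).card * Real.log n)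
      have h0 : (0 : ℝ) ≤ M₁ := Nat.cast_nonneg _
      linarith
    have h1 := hstart M₀ hM0K
    have h2 := hrare M₀ hM10 le_rfl
    refine le_trans (PM_mono r M₀ _ (fun μ => (∃ Z ∈ Er r n,
      (μ Z : ℝ) < (1 - (1 - q)) * M₀ / (Er r n).card) ∨ rare M₀ μ) ?_)
      ((PM_or r M₀ _ _).trans (add_le_add h1 h2))
    intro μ _ hg
    by_contra hc
    push Not at hc
    obtain ⟨hall, hra⟩ := hc
    have hall' : ∀ Z ∈ Er r n, q * M₀ / (Er r n).card ≤ (μ Z : ℝ) := by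
      intro Z hZ
      have := hall Z hZ
      rwa [sub_sub_cancel] at this
    have hdeg := deg_ge_of_all r n hr hrn hT μ M₀ q hall'
    have hl : ¬ low M₀ μ := by
      rintro ⟨v, hv⟩
      have h3 := hdeg v
      have h4 := hDlog M₀ hM10
      have h5 : 1 / (1 + ε) ≤ q := le_max_right _ _
      have h6 : Real.log n ≤ q * ((r : ℝ) * M₀ / n) := by
        calc Real.log n = 1 / (1 + ε) * ((1 + ε) * Real.log n) := by field_simp
          _ ≤ q * ((r : ℝ) * M₀ / n) := by gcongr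
      have h7 : δ₁ * Real.log n ≤ Real.log n := mul_le_of_le_one_left (by linarith) hδ₁1
      linarith
    have hR : Reg r n K η ((r : ℝ) * M₀ / n) (toR μ) := by
      by_contra h
      exact hra (Or.inl (Or.inl h))
    have hd := hdegs M₀ μ hl hra
    have hsd := start_det r m n M₀ hr hm hrn (lt_of_lt_of_le hM1pos hM10) (1 - q) (by linarith)
      (by linarith) (toR μ) (by
        intro Z hZ
        rw [sub_sub_cancel]
        exact hall' Z hZ)
    rw [sub_sub_cancel] at hsd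
    have hqm : Real.exp (-(κ / 8 * n)) ≤ q ^ m := by
      calc Real.exp (-(κ / 8 * n)) ≤ Real.exp (-(κ / 8 * m)) := by
            rw [Real.exp_le_exp]
            have : κ / 8 * m ≤ κ / 8 * n := by gcongr
            linarith
        _ = Real.exp (-(κ / 8)) ^ m := by
            rw [← Real.exp_nat_mul]
            congr 1
            ring
        _ ≤ q ^ m := by
            gcongr
            exact le_max_left _ _
    have hph4 : Real.exp (-(κ * n / 4)) * Bref r n ((r : ℝ) * M₀ / n) ≤ Phi r (toR μ) := by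
      refine le_trans ?_ hsd
      refine mul_le_mul_of_nonneg_right ?_ (Bref_pos _ _ _).le
      calc Real.exp (-(κ * n / 4)) = Real.exp (-(κ / 8 * n)) * Real.exp (-(κ / 8 * n)) := by
            rw [← Real.exp_add]
            congr 1
            ring
        _ ≤ 1 / (n : ℝ) * q ^ m := by
            gcongr
    have hph : Real.exp (-κ * n) * Bref r n ((r : ℝ) * M₀ / n) ≤ Phi r (toR μ) := by
      refine le_trans ?_ hph4
      refine mul_le_mul_of_nonneg_right ?_ (Bref_pos _ _ _).le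
      rw [Real.exp_le_exp]
      have : 0 < κ * n := by positivity
      linarith
    apply hg
    refine ⟨hR, hd, hph, fun o ho => ?_, hl, fun _ => ?_⟩
    · by_contra h
      exact hra (Or.inr ⟨hR, hd, hph, o, ho, not_le.1 h⟩)
    · have hpos : 0 < Phi r (toR μ) :=
        lt_of_lt_of_le (mul_pos (Real.exp_pos _) (Bref_pos _ _ _)) hph4
      change Vinv r n (Real.exp (κ * n)) M₀ μ ≤ _
      unfold Vinv
      rw [if_neg hpos.ne', div_le_iff₀ hpos]
      have h3 := mul_le_mul_of_nonneg_left hph4 (Real.exp_pos (κ * n / 4)).le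
      rw [← mul_assoc, ← Real.exp_add, add_neg_cancel, Real.exp_zero, one_mul] at h3
      exact h3
  -- the drift
  have hdrift : ∀ M μ, M₁ ≤ M → M < M₀ → Lv r n (M + 1) μ → good (M + 1) μ →
      ∑ Z ∈ Er r n, (μ Z : ℝ) / (M + 1) * V M (dn μ Z) ≤
        Real.exp ((fun M : ℕ => 2 * r * K₁ * n * m / (M : ℝ) ^ 2) (M + 1)) * V (M + 1) μ := by
    intro M μ h1 h2 hLv hg
    obtain ⟨_, _, hph, hps, _, _⟩ := hg
    have hpos : 0 < Phi r (toR μ) :=
      lt_of_lt_of_le (mul_pos (Real.exp_pos _) (Bref_pos _ _ _)) hph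
    have hDl : Real.log n ≤ (r : ℝ) * (M + 1 : ℕ) / n := hDlog' (M + 1) (by omega)
    have hDp : 0 < (r : ℝ) * (M + 1 : ℕ) / n := by linarith
    have hx0 : 0 ≤ r ^ 2 * (K₁ / ((r : ℝ) * (M + 1 : ℕ) / n)) := by positivity
    have hx : r ^ 2 * (K₁ / ((r : ℝ) * (M + 1 : ℕ) / n)) ≤ 1 / 2 := by
      rw [← mul_div_assoc, div_le_iff₀ hDp]
      linarith
    have h3 := drift_step r m n M hr hm hrn (by omega) (Real.exp (κ * n))
      (r ^ 2 * (K₁ / ((r : ℝ) * (M + 1 : ℕ) / n))) hx0 hx μ hLv hpos (by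
        intro Z
        have h4 := dPhi_le r hr (toR μ) (K₁ / ((r : ℝ) * (M + 1 : ℕ) / n) * Phi r (toR μ))
          (by positivity) hps Z
        linarith)
    refine h3.trans (le_of_eq ?_)
    change _ * Vinv r n (Real.exp (κ * n)) (M + 1) μ = _ * Vinv r n (Real.exp (κ * n)) (M + 1) μ
    congr 2
    push_cast
    have hr0 : (r : ℝ) ≠ 0 := by positivity
    have hM1' : ((M : ℝ) + 1) ≠ 0 := by positivity
    field_simp
  have hal : ∀ M : ℕ, 0 ≤ (fun M : ℕ => 2 * r * K₁ * n * m / (M : ℝ) ^ 2) M := fun M => by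
    positivity
  have hsum : ∑ M ∈ Ico M₁ M₀, (fun M : ℕ => 2 * r * K₁ * n * m / (M : ℝ) ^ 2) (M + 1) ≤
      2 * r ^ 2 * K₁ * n / Real.log n := by
    have h1 := sum_inv_sq M₁ M₀ hM1pos
    have h2 : ∑ M ∈ Ico M₁ M₀, (fun M : ℕ => 2 * r * K₁ * n * m / (M : ℝ) ^ 2) (M + 1) =
        2 * r * K₁ * n * m * ∑ M ∈ Ico M₁ M₀, 1 / ((M : ℝ) + 1) ^ 2 := by
      rw [Finset.mul_sum]
      refine Finset.sum_congr rfl fun M _ => ?_
      push_cast
      ring
    rw [h2]
    have hM1R : (0 : ℝ) < M₁ := by exact_mod_cast hM1pos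
    have hlogp : 0 < Real.log (n : ℝ) := by linarith
    have h3 : Real.log n ≤ (r : ℝ) * M₁ / n := hDlog' M₁ le_rfl
    calc 2 * r * K₁ * n * m * ∑ M ∈ Ico M₁ M₀, 1 / ((M : ℝ) + 1) ^ 2
        ≤ 2 * r * K₁ * n * n * (1 / (M₁ : ℝ)) := by gcongr
      _ ≤ 2 * r ^ 2 * K₁ * n / Real.log n := by
          rw [le_div_iff₀ hnR] at h3
          rw [mul_one_div, div_le_div_iff₀ hM1R hlogp]
          have h4 : 0 ≤ 2 * r * K₁ * n := by positivity
          have h5 := mul_le_mul_of_nonneg_left h3 h4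
          calc 2 * r * K₁ * n * n * Real.log n = 2 * r * K₁ * n * (Real.log n * n) := by ring
            _ ≤ 2 * r * K₁ * n * (r * M₁) := h5
            _ = 2 * r ^ 2 * K₁ * n * M₁ := by ring
  have hmain := drift_abs r n hT M₁ M₀ hM10 good low rare V (Real.exp (κ * n))
    (Real.exp (κ * n / 4)) (2 * r ^ 2 * K₁ * n / Real.log n)
    (3 * Real.exp (-(((r : ℝ) + 5) * Real.log n)))
    (1 / n + 3 * Real.exp (-(((r : ℝ) + 5) * Real.log n)))
    (fun M : ℕ => 2 * r * K₁ * n * m / (M : ℝ) ^ 2) (Real.exp_pos _) (Real.exp_pos _).le hV hgood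
    (by
      rintro M μ Z _ _ _ ⟨v, hv⟩
      exact ⟨v, lt_of_le_of_lt (deg_up r n μ Z v) hv⟩)
    (fun M μ hg => hg.2.2.2.2.1) (fun M h1 h2 => hrare M h1 h2.le) hinit
    (fun μ _ hg => hg.2.2.2.2.2 rfl) hdrift hal hsum
  have hlowp : PM r n M₁ (low M₁) ≤ Real.exp (-(ε / 4 * Real.log n)) := ha M₁ hM1
  have hfin : PM r n M₁ (fun μ => Phi r (toR μ) = 0) ≤ PM r n M₁ (fun μ => ¬ good M₁ μ) := by
    refine PM_mono r M₁ _ _ fun μ _ h0 hg => ?_
    have h1 := hg.2.2.1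
    rw [h0] at h1
    have h2 := mul_pos (Real.exp_pos (-κ * n)) (Bref_pos r n ((r : ℝ) * M₁ / n))
    linarith
  have hM01R : (M₁ : ℝ) ≤ M₀ := by exact_mod_cast hM10
  have h9 := hnum ((M₀ : ℝ) - M₁) (by linarith) (by
    have : (0 : ℝ) ≤ M₁ := Nat.cast_nonneg _
    linarith)
  linarith

end Pool.Agent.LHam
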