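import Pool.Agent.LHam.Defs

set_option autoImplicit false

/-! P1. The expectation at level `M`: basic properties. -/

namespace Pool.Agent.LHam

open Finset

variable {n : ℕ}

theorem Lv_zero (r n : ℕ) : Lv r n 0 0 := by
  refine ⟨fun _ _ => rfl, ?_⟩
  simp

theorem Lv_up (r M : ℕ) (μ : Mu n) (h : Lv r n M μ) (Z : Finset (Fin n)) (hZ : Z ∈ Er r n) :
    Lv r n (M + 1) (up μ Z) := by
  refine ⟨fun Z' hZ' => ?_, ?_⟩
  · have hne : Z' ≠ Z := fun e => hZ' (e ▸ hZ)
    rw [up, Function.update_of_ne hne]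
    exact h.1 Z' hZ'
  · have h1 := h.2
    rw [← Finset.add_sum_erase _ _ hZ] at h1
    rw [← Finset.add_sum_erase _ _ hZ]
    have h2 : ∑ x ∈ (Er r n).erase Z, up μ Z x = ∑ x ∈ (Er r n).erase Z, μ x :=
      Finset.sum_congr rfl fun x hx => by
        rw [up, Function.update_of_ne (Finset.ne_of_mem_erase hx)]
    have h3 : up μ Z Z = μ Z + 1 := by rw [up, Function.update_self]
    omega

theorem Lv_dn (r M : ℕ) (μ : Mu n) (h : Lv r n (M + 1) μ) (Z : Finset (Fin n))
    (hZ : Z ∈ Er r n) (h0 : μ Z ≠ 0) : Lv r n M (dn μ Z) := by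
  refine ⟨fun Z' hZ' => ?_, ?_⟩
  · have hne : Z' ≠ Z := fun e => hZ' (e ▸ hZ)
    rw [dn, Function.update_of_ne hne]
    exact h.1 Z' hZ'
  · have h1 := h.2
    rw [← Finset.add_sum_erase _ _ hZ] at h1
    rw [← Finset.add_sum_erase _ _ hZ]
    have h2 : ∑ x ∈ (Er r n).erase Z, dn μ Z x = ∑ x ∈ (Er r n).erase Z, μ x :=
      Finset.sum_congr rfl fun x hx => by
        rw [dn, Function.update_of_ne (Finset.ne_of_mem_erase hx)]
    have h3 : dn μ Z Z = μ Z - 1 := by rw [dn, Function.update_self]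
    omega

theorem dn_up (μ : Mu n) (Z : Finset (Fin n)) : dn (up μ Z) Z = μ := by
  simp [dn, up]

theorem up_dn (μ : Mu n) (Z : Finset (Fin n)) (h0 : μ Z ≠ 0) : up (dn μ Z) Z = μ := by
  have h1 : μ Z - 1 + 1 = μ Z := by omega
  simp [dn, up, h1]

theorem dn_up_comm (μ : Mu n) (Z Z' : Finset (Fin n)) (h : Z ≠ Z') :
    dn (up μ Z') Z = up (dn μ Z) Z' := by
  unfold dn up
  rw [Function.update_of_ne h, Function.update_of_ne h.symm, Function.update_comm h]

/-- Monotonicity; only multiplicities of level `M` matter (induction on `M`, `Lv_up`). -/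
theorem EM_mono (r M : ℕ) (F G : Mu n → ℝ) (h : ∀ μ, Lv r n M μ → F μ ≤ G μ) :
    EM r n M F ≤ EM r n M G := by
  induction M generalizing F G with
  | zero => exact h 0 (Lv_zero r n)
  | succ M ih =>
    refine ih _ _ fun μ hμ => ?_
    refine div_le_div_of_nonneg_right ?_ (Nat.cast_nonneg _)
    exact Finset.sum_le_sum fun Z hZ => h _ (Lv_up r M μ hμ Z hZ)

theorem EM_congr (r M : ℕ) (F G : Mu n → ℝ) (h : ∀ μ, Lv r n M μ → F μ = G μ) :
    EM r n M F = EM r n M G :=
  le_antisymm (EM_mono r M F G fun μ hμ => (h μ hμ).le)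
    (EM_mono r M G F fun μ hμ => (h μ hμ).ge)

theorem EM_add (r M : ℕ) (F G : Mu n → ℝ) :
    EM r n M (fun μ => F μ + G μ) = EM r n M F + EM r n M G := by
  induction M generalizing F G with
  | zero => rfl
  | succ M ih =>
    simp only [EM]
    rw [← ih]
    refine EM_congr r M _ _ fun μ _ => ?_
    rw [Finset.sum_add_distrib, add_div]

theorem EM_mul (r M : ℕ) (c : ℝ) (F : Mu n → ℝ) :
    EM r n M (fun μ => c * F μ) = c * EM r n M F := by
  induction M generalizing F with
  | zero => rfl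
  | succ M ih =>
    simp only [EM]
    rw [← ih]
    refine EM_congr r M _ _ fun μ _ => ?_
    rw [← Finset.mul_sum, mul_div_assoc]

private theorem EM_zero_fun (r M : ℕ) : EM r n M (fun _ => 0) = 0 := by
  have h := EM_mul (n := n) r M 0 (fun _ => 0)
  simpa using h

theorem EM_sum {ι : Type} (r M : ℕ) (s : Finset ι) (F : ι → Mu n → ℝ) :
    EM r n M (fun μ => ∑ i ∈ s, F i μ) = ∑ i ∈ s, EM r n M (F i) := by
  classical
  induction s using Finset.induction_on with
  | empty =>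
    simp only [Finset.sum_empty]
    exact EM_zero_fun r M
  | insert a s ha ih =>
    rw [Finset.sum_insert ha, ← ih, ← EM_add]
    refine EM_congr r M _ _ fun μ _ => ?_
    rw [Finset.sum_insert ha]

theorem EM_const (r M : ℕ) (hT : 0 < (Er r n).card) (c : ℝ) : EM r n M (fun _ => c) = c := by
  induction M with
  | zero => rfl
  | succ M ih =>
    simp only [EM]
    have h1 : ((Er r n).card : ℝ) ≠ 0 := by exact_mod_cast hT.ne'
    rw [Finset.sum_const, nsmul_eq_mul, mul_div_cancel_left₀ _ h1]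
    exact ih

private theorem EM_one_le (r M : ℕ) : EM r n M (fun _ => 1) ≤ 1 := by
  induction M with
  | zero => exact le_rfl
  | succ M ih =>
    simp only [EM]
    refine le_trans (EM_mono r M _ _ fun μ _ => ?_) ih
    rw [Finset.sum_const, nsmul_eq_mul, mul_one]
    exact div_self_le_one _

theorem EM_nonneg (r M : ℕ) (F : Mu n → ℝ) (h : ∀ μ, Lv r n M μ → 0 ≤ F μ) :
    0 ≤ EM r n M F := by
  have h1 := EM_mono r M (fun _ => 0) F h
  rwa [EM_zero_fun] at h1

theorem PM_nonneg (r M : ℕ) (A : Mu n → Prop) : 0 ≤ PM r n M A := by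
  classical
  refine EM_nonneg r M _ fun μ _ => ?_
  split_ifs
  · exact zero_le_one
  · exact le_rfl

theorem PM_le_one (r M : ℕ) (A : Mu n → Prop) : PM r n M A ≤ 1 := by
  classical
  refine le_trans (EM_mono r M _ (fun _ => 1) fun μ _ => ?_) (EM_one_le r M)
  split_ifs
  · exact le_rfl
  · exact zero_le_one

theorem PM_mono (r M : ℕ) (A B : Mu n → Prop) (h : ∀ μ, Lv r n M μ → A μ → B μ) :
    PM r n M A ≤ PM r n M B := by
  classical
  refine EM_mono r M _ _ fun μ hμ => ?_
  by_cases hA : A μ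
  · rw [if_pos hA, if_pos (h μ hμ hA)]
  · rw [if_neg hA]
    split_ifs
    · exact zero_le_one
    · exact le_rfl

theorem PM_compl (r M : ℕ) (hT : 0 < (Er r n).card) (A : Mu n → Prop) :
    PM r n M A + PM r n M (fun μ => ¬ A μ) = 1 := by
  classical
  unfold PM
  rw [← EM_add]
  refine Eq.trans (EM_congr r M _ (fun _ => 1) fun μ _ => ?_) (EM_const r M hT 1)
  by_cases hA : A μ
  · rw [if_pos hA, if_neg (not_not.2 hA), add_zero]
  · rw [if_neg hA, if_pos hA, zero_add]

theorem PM_or (r M : ℕ) (A B : Mu n → Prop) :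
    PM r n M (fun μ => A μ ∨ B μ) ≤ PM r n M A + PM r n M B := by
  classical
  unfold PM
  rw [← EM_add]
  refine EM_mono r M _ _ fun μ _ => ?_
  by_cases hA : A μ <;> by_cases hB : B μ <;> simp [hA, hB]

theorem PM_exists {ι : Type} (r M : ℕ) (s : Finset ι) (A : ι → Mu n → Prop) :
    PM r n M (fun μ => ∃ i ∈ s, A i μ) ≤ ∑ i ∈ s, PM r n M (A i) := by
  classical
  unfold PM
  rw [← EM_sum]
  refine EM_mono r M _ _ fun μ _ => ?_
  have h0 : ∀ i ∈ s, (0 : ℝ) ≤ if A i μ then 1 else 0 := by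
    intro i _
    split_ifs
    · exact zero_le_one
    · exact le_rfl
  by_cases h : ∃ i ∈ s, A i μ
  · obtain ⟨i, hi, hA⟩ := h
    rw [if_pos ⟨i, hi, hA⟩]
    have h1 := Finset.single_le_sum h0 hi
    rwa [if_pos hA] at h1
  · rw [if_neg h]
    exact Finset.sum_nonneg h0

/-- Markov's inequality. -/
theorem PM_markov (r M : ℕ) (A : Mu n → Prop) (F : Mu n → ℝ) (x : ℝ) (hx : 0 < x)
    (h0 : ∀ μ, Lv r n M μ → 0 ≤ F μ) (h : ∀ μ, Lv r n M μ → A μ → x ≤ F μ) :
    PM r n M A ≤ EM r n M F / x := by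
  classical
  rw [le_div_iff₀ hx, mul_comm]
  unfold PM
  rw [← EM_mul]
  refine EM_mono r M _ _ fun μ hμ => ?_
  by_cases hA : A μ
  · rw [if_pos hA, mul_one]
    exact h μ hμ hA
  · rw [if_neg hA, mul_zero]
    exact h0 μ hμ

/-- The number of `r`-sets. -/
theorem card_Er (r n : ℕ) : (Er r n).card = n.choose r := by
  simp [Er]

end Pool.Agent.LHam
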