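import Pool.Agent.LHam.Proc

set_option autoImplicit false

/-! P1b. Exchangeability and exponential moments at level `M`. -/

namespace Pool.Agent.LHam

open Finset

variable {n : ℕ}

private theorem up_apply (ν : Mu n) (Z' Z : Finset (Fin n)) :
    ((up ν Z' Z : ℕ) : ℝ) = ν Z + if Z = Z' then 1 else 0 := by
  unfold up
  by_cases h : Z = Z'
  · subst h
    rw [Function.update_self, if_pos rfl]
    push_cast
    ring
  · rw [Function.update_of_ne h, if_neg h, add_zero]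

private theorem mul_dn (ν : Mu n) (Z' Z : Finset (Fin n)) (G : Mu n → Finset (Fin n) → ℝ) :
    (ν Z : ℝ) * G (dn (up ν Z') Z) Z = (ν Z : ℝ) * G (up (dn ν Z) Z') Z := by
  by_cases h0 : ν Z = 0
  · rw [h0, Nat.cast_zero, zero_mul, zero_mul]
  · by_cases h : Z = Z'
    · subst h
      rw [dn_up, up_dn _ _ h0]
    · rw [dn_up_comm _ _ _ h]

private theorem ex_point (r : ℕ) (c : ℝ) (G : Mu n → Finset (Fin n) → ℝ) (ν : Mu n) :
    (∑ Z' ∈ Er r n, ∑ Z ∈ Er r n, (up ν Z' Z : ℝ) / c * G (dn (up ν Z') Z) Z) /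
        (Er r n).card =
      1 / c * ((∑ Z ∈ Er r n, G ν Z) / (Er r n).card) +
        ∑ Z ∈ Er r n, (ν Z : ℝ) / c *
          ((∑ Z' ∈ Er r n, G (up (dn ν Z) Z') Z) / (Er r n).card) := by
  have h1 : ∀ Z' ∈ Er r n, ∑ Z ∈ Er r n, (up ν Z' Z : ℝ) / c * G (dn (up ν Z') Z) Z =
      1 / c * G ν Z' + ∑ Z ∈ Er r n, (ν Z : ℝ) / c * G (up (dn ν Z) Z') Z := by
    intro Z' hZ'
    have h2 : ∀ Z ∈ Er r n, (up ν Z' Z : ℝ) / c * G (dn (up ν Z') Z) Z =
        (if Z = Z' then 1 / c * G ν Z' else 0) + (ν Z : ℝ) / c * G (up (dn ν Z) Z') Z := by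
      intro Z _
      have h3 := mul_dn ν Z' Z G
      rw [up_apply, add_div, add_mul]
      have h4 : (ν Z : ℝ) / c * G (dn (up ν Z') Z) Z = (ν Z : ℝ) / c * G (up (dn ν Z) Z') Z := by
        rw [div_mul_eq_mul_div, h3, div_mul_eq_mul_div]
      rw [h4, add_comm]
      congr 1
      by_cases h : Z = Z'
      · subst h
        rw [if_pos rfl, if_pos rfl, dn_up]
      · rw [if_neg h, if_neg h, zero_div, zero_mul]
    rw [Finset.sum_congr rfl h2, Finset.sum_add_distrib, Finset.sum_ite_eq', if_pos hZ']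
  rw [Finset.sum_congr rfl h1, Finset.sum_add_distrib, add_div, ← Finset.mul_sum, mul_div_assoc]
  congr 1
  rw [Finset.sum_comm, Finset.sum_div]
  refine Finset.sum_congr rfl fun Z _ => ?_
  rw [← Finset.mul_sum, mul_div_assoc]

/-- **Exchangeability.** The law of `(μ, Z)`, `μ` of level `M`, `Z` uniform, is the law of `(dn μ
Z, Z)`, `μ` of level `M + 1`, `Z` a uniform element of `μ`.

Proof. Induction on `M`. `EM (M + 1) H = EM M (fun ν => (∑ Z' ∈ Er, H (up ν Z')) / T)` by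
definition, with `H μ = ∑ Z ∈ Er, μ Z / (M + 1) * G (dn μ Z) Z`. `(up ν Z') Z = ν Z + [Z = Z']`;
the terms `Z = Z'` of the additional copy give `(1 / (M + 1)) G ν Z'` (`dn_up`), the others `∑ Z,
ν Z / (M + 1) * G (dn (up ν Z') Z) Z` where `dn (up ν Z') Z = up (dn ν Z) Z'` if `ν Z ≠ 0` (also
for `Z = Z'`, both are `ν`). So for `M = 0` (`ν = 0`, `ν Z = 0`) the claim holds. For `M = M' + 1`
the second part is, with `H' ν Z = (∑ Z' ∈ Er, G (up ν Z') Z) / T * (M / (M + 1))`, `EM M (fun ν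
=> ∑ Z, ν Z / M * H' (dn ν Z) Z) = EM M' (fun ν => (∑ Z, H' ν Z) / T)` by induction hypothesis `=
(M / (M + 1)) EM M (fun ν => (∑ Z, G ν Z) / T)` (definition of `EM (M' + 1)`). The sum is `(1 / (M
+ 1) + M / (M + 1)) * ..`. -/
theorem EM_ex (r M : ℕ) (G : Mu n → Finset (Fin n) → ℝ) :
    EM r n M (fun μ => (∑ Z ∈ Er r n, G μ Z) / (Er r n).card) =
      EM r n (M + 1) (fun μ => ∑ Z ∈ Er r n, (μ Z : ℝ) / (M + 1) * G (dn μ Z) Z) := by
  induction M generalizing G with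
  | zero =>
    change (∑ Z ∈ Er r n, G 0 Z) / ((Er r n).card : ℝ) =
      (∑ Z' ∈ Er r n, ∑ Z ∈ Er r n,
        (up 0 Z' Z : ℝ) / (((0 : ℕ) : ℝ) + 1) * G (dn (up 0 Z') Z) Z) / ((Er r n).card : ℝ)
    rw [ex_point]
    simp
  | succ M ih =>
    change EM r n (M + 1) (fun μ => (∑ Z ∈ Er r n, G μ Z) / (Er r n).card) =
      EM r n (M + 1) (fun ν => (∑ Z' ∈ Er r n, ∑ Z ∈ Er r n,
        (up ν Z' Z : ℝ) / (((M + 1 : ℕ) : ℝ) + 1) * G (dn (up ν Z') Z) Z) /
          ((Er r n).card : ℝ))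
    have h0 : ((M : ℝ) + 1) ≠ 0 := by positivity
    have h0' : (((M + 1 : ℕ) : ℝ) + 1) ≠ 0 := by positivity
    have h1 : EM r n (M + 1) (fun ν => ∑ Z ∈ Er r n, (ν Z : ℝ) / (((M + 1 : ℕ) : ℝ) + 1) *
          ((∑ Z' ∈ Er r n, G (up (dn ν Z) Z') Z) / (Er r n).card)) =
        ((M : ℝ) + 1) / (((M + 1 : ℕ) : ℝ) + 1) *
          EM r n (M + 1) (fun μ => (∑ Z ∈ Er r n, G μ Z) / (Er r n).card) := by
      have h2 : EM r n (M + 1) (fun μ => (∑ Z ∈ Er r n, G μ Z) / (Er r n).card) =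
          EM r n M (fun μ => (∑ Z ∈ Er r n,
            (∑ Z' ∈ Er r n, G (up μ Z') Z) / ((Er r n).card : ℝ)) / (Er r n).card) := by
        change EM r n M (fun μ => (∑ Z' ∈ Er r n,
          (∑ Z ∈ Er r n, G (up μ Z') Z) / ((Er r n).card : ℝ)) / (Er r n).card) = _
        congr 1
        funext μ
        rw [← Finset.sum_div, ← Finset.sum_div, Finset.sum_comm]
      rw [h2, ih (fun μ Z => (∑ Z' ∈ Er r n, G (up μ Z') Z) / ((Er r n).card : ℝ)), ← EM_mul]
      congr 1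
      funext μ
      rw [Finset.mul_sum]
      refine Finset.sum_congr rfl fun Z _ => ?_
      field_simp
    have h3 : (fun ν : Mu n => (∑ Z' ∈ Er r n, ∑ Z ∈ Er r n,
        (up ν Z' Z : ℝ) / (((M + 1 : ℕ) : ℝ) + 1) * G (dn (up ν Z') Z) Z) /
          ((Er r n).card : ℝ)) = fun ν =>
        1 / (((M + 1 : ℕ) : ℝ) + 1) * ((∑ Z ∈ Er r n, G ν Z) / (Er r n).card) +
        ∑ Z ∈ Er r n, (ν Z : ℝ) / (((M + 1 : ℕ) : ℝ) + 1) *
          ((∑ Z' ∈ Er r n, G (up (dn ν Z) Z') Z) / (Er r n).card) := by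
      funext ν
      exact ex_point r _ G ν
    rw [h3, EM_add, h1, EM_mul, ← add_mul]
    have h4 : 1 / (((M + 1 : ℕ) : ℝ) + 1) + ((M : ℝ) + 1) / (((M + 1 : ℕ) : ℝ) + 1) = 1 := by
      rw [← add_div, div_eq_one_iff_eq h0']
      push_cast
      ring
    rw [h4, one_mul]

/-- Independence of the draws: exponential moments (induction on `M`). -/
theorem EM_prod (r M : ℕ) (s : Finset (Fin n) → ℝ) :
    EM r n M (fun μ => ∏ Z ∈ Er r n, s Z ^ μ Z) =
      ((∑ Z ∈ Er r n, s Z) / (Er r n).card) ^ M := by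
  induction M with
  | zero =>
    change ∏ Z ∈ Er r n, s Z ^ (0 : Mu n) Z = _
    simp
  | succ M ih =>
    change EM r n M (fun μ => (∑ Z' ∈ Er r n, ∏ Z ∈ Er r n, s Z ^ up μ Z' Z) /
      ((Er r n).card : ℝ)) = _
    have h1 : (fun μ : Mu n => (∑ Z' ∈ Er r n, ∏ Z ∈ Er r n, s Z ^ up μ Z' Z) /
        ((Er r n).card : ℝ)) = fun μ =>
        ((∑ Z ∈ Er r n, s Z) / (Er r n).card) * ∏ Z ∈ Er r n, s Z ^ μ Z := by
      funext μ
      have h2 : ∀ Z' ∈ Er r n, ∏ Z ∈ Er r n, s Z ^ up μ Z' Z =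
          s Z' * ∏ Z ∈ Er r n, s Z ^ μ Z := by
        intro Z' hZ'
        rw [← Finset.mul_prod_erase _ _ hZ', ← Finset.mul_prod_erase _ (fun Z => s Z ^ μ Z) hZ',
          ← mul_assoc]
        congr 1
        · unfold up
          rw [Function.update_self, pow_succ, mul_comm]
        · refine Finset.prod_congr rfl fun Z hZ => ?_
          unfold up
          rw [Function.update_of_ne (Finset.ne_of_mem_erase hZ)]
      rw [Finset.sum_congr rfl h2, ← Finset.sum_mul]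
      ring
    rw [h1, EM_mul, ih, pow_succ, mul_comm]

end Pool.Agent.LHam
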