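import Pool.Agent.LHam.Defs

set_option autoImplicit false

/-! Systems of oriented edges, guessing scheme: definitions. -/

namespace Pool.Agent.LHam

open Finset

variable {n : ℕ}

/-- A system: disjoint inner sets, distinct `x`, distinct `y`, no link vertex is an inner vertex. -/
structure IsSys (r : ℕ) (F : Finset (OE n)) : Prop where
  ok : ∀ o ∈ F, o.Ok r
  dis : ∀ o ∈ F, ∀ o' ∈ F, o ≠ o' → Disjoint o.J o'.J
  xinj : ∀ o ∈ F, ∀ o' ∈ F, o.x = o'.x → o = o'
  yinj : ∀ o ∈ F, ∀ o' ∈ F, o.y = o'.y → o = o'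
  xout : ∀ o ∈ F, ∀ o' ∈ F, o.x ∉ o'.J
  yout : ∀ o ∈ F, ∀ o' ∈ F, o.y ∉ o'.J

/-- The inner vertices of a set of oriented edges. -/
def inn (F : Finset (OE n)) : Finset (Fin n) := F.biUnion fun o => o.J

/-- `o` is admissible for the set `A` of inner vertices. -/
def Adm (r : ℕ) (A : Finset (Fin n)) (o : OE n) : Prop :=
  o.Ok r ∧ o.J ⊆ A ∧ o.x ∉ A ∧ o.y ∉ A

/-- The edges of `F` with an inner vertex before `v` in the order given by the rank `ρ`. -/
def Rev (ρ : Fin n → ℕ) (F : Finset (OE n)) (v : Fin n) : Finset (OE n) :=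
  F.filter fun o => ∃ u ∈ o.J, ρ u < ρ v

open Classical in
/-- The edges available at `v` if the edges of `R` are revealed. -/
noncomputable def Av (r : ℕ) (A : Finset (Fin n)) (R : Finset (OE n)) (v : Fin n) :
    Finset (OE n) :=
  univ.filter fun o => Adm r A o ∧ v ∈ o.J ∧ Disjoint o.J (inn R) ∧ (∀ o' ∈ R, o'.x ≠ o.x) ∧
    ∀ o' ∈ R, o'.y ≠ o.y

/-- The first inner vertex of `o` in the order given by the rank `ρ`. -/
noncomputable def fv (ρ : Fin n → ℕ) (o : OE n) : Fin n :=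
  if h : o.J.Nonempty then Classical.choose (Finset.exists_min_image o.J ρ h) else o.x

/-- The weight available when `o` is revealed. -/
noncomputable def Wt (r : ℕ) (a : OE n → ℝ) (ρ : Fin n → ℕ) (F : Finset (OE n)) (o : OE n) : ℝ :=
  ∑ o' ∈ Av r (inn F) (Rev ρ F (fv ρ o)) (fv ρ o), a o'

/-- The rank given by levels `σ`. -/
def rk {L : ℕ} (σ : Fin n → Fin L) : Fin n → ℕ := fun v => (σ v : ℕ) * n + v

/-- Exceptional edges for `F`. -/
def Exc (F : Finset (OE n)) (o' : OE n) : Prop :=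
  (∀ o ∈ F, o.x ≠ o'.x) ∨ (∀ o ∈ F, o.y ≠ o'.y) ∨ ∃ o ∈ F, 2 ≤ (o.set ∩ o'.set).card

open Classical in
/-- The total weight of the admissible edges with inner vertex `v`. -/
noncomputable def av (r : ℕ) (a : OE n → ℝ) (F : Finset (OE n)) (v : Fin n) : ℝ :=
  ∑ o' ∈ univ.filter (fun o' : OE n => Adm r (inn F) o' ∧ v ∈ o'.J), a o'

open Classical in
/-- The total weight of the exceptional admissible edges with inner vertex `v`. -/
noncomputable def xv (r : ℕ) (a : OE n → ℝ) (F : Finset (OE n)) (v : Fin n) : ℝ :=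
  ∑ o' ∈ univ.filter (fun o' : OE n => Adm r (inn F) o' ∧ v ∈ o'.J ∧ Exc F o'), a o'

/-- The weight of a set of oriented edges. -/
noncomputable def Wf (ν : Finset (Fin n) → ℝ) (F : Finset (OE n)) : ℝ := ∏ o ∈ F, ν o.set

/-- The exponent `q = (r - 1) (r - 2)`. -/
def qe (r : ℕ) : ℕ := (r - 1) * (r - 2)

/-- The Riemann sum of the guessing bound. -/
noncomputable def Rsum (r L : ℕ) (b a : ℝ) : ℝ :=
  ∑ l ∈ range L, (1 / (L : ℝ)) * (((L - l : ℕ) : ℝ) / L) ^ (r - 3) *
    Real.log (b + a * (((L - l : ℕ) : ℝ) / L) ^ qe r)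

/-- Bernoulli weights: inner vertices with probability `1 - λ`. -/
noncomputable def Bern (r : ℕ) (A : Finset (Fin n)) : ℝ :=
  (1 - lam r) ^ A.card * lam r ^ (n - A.card)

end Pool.Agent.LHam
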